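import Pool.Agent.Helper70.MD.Defs

/-!
MD-A1a: crossing edges.

Proof of `not_cross`. As `cr a b c` and `cr a b d` have opposite signs, the open segment `cd` meets
the line `ab` in exactly one point `x = (1-s) c + s d`, `s = cr a b c / (cr a b c - cr a b d)` in
`(0,1)`; as `cr c d a` and `cr c d b` have opposite signs, also `x = (1-t) a + t b` with
`t = cr c d a / (cr c d a - cr c d b)` in `(0,1)` (check both formulas give the same point: the
identity `cr a b c - cr a b d = cr c d b - cr c d a`, both sides being the determinant of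
`b - a` and `c - d`; use `field_simp; ring`).
`s(a,b) ≠ s(c,d)` because `cr a b c ≠ 0` (so `c ≠ a`, `c ≠ b`). `disj` gives `x = a ∨ x = b`, but
`cr c d x = 0` while `cr c d a ≠ 0`, `cr c d b ≠ 0`: contradiction.

Proof of `exists_crossing`. Suppose there are no such `c d`. Let `T'` be `T` with the edge `ab`
added: `T'.Adj p q := T.Adj p q ∨ (p = a ∧ q = b) ∨ (p = b ∧ q = a)`. Then `PlaneOn S T'`:
`mem`, `empty` are clear (`he`; `openSegment` is symmetric). For `disj` it is enough to treat an
edge `cd` of `T` against the new edge `ab` (the other cases are `T` against `T`, new against new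
(then the unordered pairs agree), and the symmetric one). So let `x` be in both closed segments,
`s(a,b) ≠ s(c,d)`. If `x = a` or `x = b`: then `x` is a point of `S` on the segment `cd`, hence not in
the open segment (`hT.1.empty`), so `x = c ∨ x = d`. If `x = c` or `x = d`: the same with `he`.
Otherwise `x` lies in both open segments. If `cr a b c ≠ 0`, then (as `x` is in the open segment
`cd` and `cr a b x = 0`) `cr a b c` and `cr a b d` have opposite signs; then the lines are not
parallel, `cr c d a ≠ 0` (otherwise `a` and `x` both on the line `cd`, and on the line `ab`, so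
`x = a` ...; simplest: `0 = cr c d x = (1-t) cr c d a + t cr c d b`, and `cr c d a = cr c d b = 0`
would give `cr a b c - cr a b d = 0`), so `cr c d a * cr c d b < 0`; now `(c,d)` or `(d,c)` is a
forbidden crossing edge. If `cr a b c = 0` then also `cr a b d = 0`: all four points are on one line
and two open segments overlap; write `c = a + γ (b-a)`, `d = a + δ (b-a)`,
`x = a + ξ (b-a)` with `0 < ξ < 1` and `ξ` strictly between `γ` and `δ`, WLOG `γ < ξ < δ`. If
`γ > 0` then `c` is in the open segment `ab`, contradiction with `he`; so `γ ≤ 0`; likewise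
`δ ≥ 1`. If `γ < 0` then `a` is in the open segment `cd`, contradiction with `hT.1.empty`; so
`γ = 0`, `c = a`; likewise `d = b`: contradiction with `s(a,b) ≠ s(c,d)`.
Now `hT.2 T'` gives `T' = T`, so `T.Adj a b`, contradiction with `hn`.
-/

set_option autoImplicit false

namespace Pool.Agent.Helper70.MD

open Finset

open scoped Classical

private lemma a1_cr_combo (a b c d : Pt) (s : ℝ) :
    cr a b ((1 - s) • c + s • d) = (1 - s) * cr a b c + s * cr a b d := by
  simp only [cr, Prod.fst_add, Prod.snd_add, Prod.smul_fst, Prod.smul_snd, smul_eq_mul]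
  ring

private lemma a1_cr_self1 (a b : Pt) : cr a b a = 0 := by
  simp [cr]

private lemma a1_cr_self2 (a b : Pt) : cr a b b = 0 := by
  simp only [cr]
  ring

private lemma a1_cr_swap (a b c : Pt) : cr b a c = - cr a b c := by
  simp only [cr]
  ring

private lemma a1_cr_diff (a b c d : Pt) : cr a b c - cr a b d = cr c d b - cr c d a := by
  simp only [cr]
  ring

private lemma a1_mem_seg {a b x : Pt} (t : ℝ) (h0 : 0 ≤ t) (h1 : t ≤ 1)
    (hx : x = (1 - t) • a + t • b) : x ∈ segment ℝ a b := by
  rw [segment_eq_image]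
  exact ⟨t, ⟨h0, h1⟩, hx.symm⟩

private lemma a1_mem_open {a b x : Pt} (t : ℝ) (h0 : 0 < t) (h1 : t < 1)
    (hx : x = (1 - t) • a + t • b) : x ∈ openSegment ℝ a b := by
  rw [openSegment_eq_image]
  exact ⟨t, ⟨h0, h1⟩, hx.symm⟩

private lemma a1_seg_cases {a b x : Pt} (h : x ∈ segment ℝ a b) :
    x = a ∨ x = b ∨ x ∈ openSegment ℝ a b := by
  rw [← insert_endpoints_openSegment] at h
  simpa using h

/-- Two edges of a plane graph do not cross. -/
theorem PlaneOn.not_cross {S : Finset Pt} {T : SimpleGraph Pt} (hT : PlaneOn S T) {a b c d : Pt}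
    (hab : T.Adj a b) (hcd : T.Adj c d) (h1 : 0 < cr a b c) (h2 : cr a b d < 0)
    (h3 : cr c d a * cr c d b < 0) : False := by
  have hdiff := a1_cr_diff a b c d
  have hW : 0 < cr a b c - cr a b d := by linarith
  have hC : cr c d a < 0 := by
    by_contra hcon
    push Not at hcon
    have h4 : 0 < cr c d b := by linarith
    nlinarith
  have hD : 0 < cr c d b := by
    by_contra hcon
    push Not at hcon
    nlinarith
  have hWne : cr a b c - cr a b d ≠ 0 := hW.ne'
  set x : Pt := (1 - cr a b c / (cr a b c - cr a b d)) • c +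
    (cr a b c / (cr a b c - cr a b d)) • d with hx
  have hx2 : x = (1 - (-cr c d a) / (cr a b c - cr a b d)) • a +
      ((-cr c d a) / (cr a b c - cr a b d)) • b := by
    have e1 : 1 - cr a b c / (cr a b c - cr a b d) = (-cr a b d) / (cr a b c - cr a b d) := by
      field_simp
      ring
    have e2 : 1 - (-cr c d a) / (cr a b c - cr a b d) = cr c d b / (cr a b c - cr a b d) := by
      rw [eq_div_iff hWne, sub_mul, div_mul_cancel₀ _ hWne]
      linarith
    rw [hx, e1, e2]
    ext
    · simp only [Prod.fst_add, Prod.smul_fst, smul_eq_mul]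
      have e3 : (-cr a b d) * c.1 + cr a b c * d.1 = cr c d b * a.1 + (-cr c d a) * b.1 := by
        simp only [cr]
        ring
      rw [div_mul_eq_mul_div, div_mul_eq_mul_div, div_mul_eq_mul_div, div_mul_eq_mul_div,
        ← add_div, ← add_div, e3]
    · simp only [Prod.snd_add, Prod.smul_snd, smul_eq_mul]
      have e3 : (-cr a b d) * c.2 + cr a b c * d.2 = cr c d b * a.2 + (-cr c d a) * b.2 := by
        simp only [cr]
        ring
      rw [div_mul_eq_mul_div, div_mul_eq_mul_div, div_mul_eq_mul_div, div_mul_eq_mul_div,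
        ← add_div, ← add_div, e3]
  have hxcd : x ∈ segment ℝ c d :=
    a1_mem_seg _ (div_nonneg h1.le hW.le) ((div_le_one hW).2 (by linarith)) hx
  have hxab : x ∈ segment ℝ a b :=
    a1_mem_seg _ (div_nonneg (by linarith) hW.le) ((div_le_one hW).2 (by linarith)) hx2
  have hne : s(a, b) ≠ s(c, d) := by
    intro h
    rw [Sym2.eq_iff] at h
    rcases h with ⟨h5, _⟩ | ⟨_, h5⟩
    · rw [← h5, a1_cr_self1] at h1
      exact lt_irrefl _ h1
    · rw [← h5, a1_cr_self2] at h1
      exact lt_irrefl _ h1
  have hcrx : cr c d x = 0 := by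
    rw [hx, a1_cr_combo, a1_cr_self1, a1_cr_self2]
    ring
  rcases (hT.disj a b c d hab hcd hne x hxab hxcd).1 with h | h
  · rw [h] at hcrx
    linarith
  · rw [h] at hcrx
    linarith

/-- the collinear case -/
private lemma a1_collinear {S : Finset Pt} {T : SimpleGraph Pt} (hT : PlaneOn S T) {a b c d : Pt}
    (ha : a ∈ S) (hb : b ∈ S) (hcd : T.Adj c d) (hne : s(a, b) ≠ s(c, d)) (γ δ : ℝ)
    (hc : c = (1 - γ) • a + γ • b) (hd : d = (1 - δ) • a + δ • b) (hγ : γ ≤ 0) (hδ : 1 ≤ δ) :
    False := by
  have hpos : 0 < δ - γ := by linarith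
  have hp : δ - γ ≠ 0 := hpos.ne'
  have hc1 := congrArg Prod.fst hc
  have hc2 := congrArg Prod.snd hc
  have hd1 := congrArg Prod.fst hd
  have hd2 := congrArg Prod.snd hd
  simp only [Prod.fst_add, Prod.snd_add, Prod.smul_fst, Prod.smul_snd, smul_eq_mul]
    at hc1 hc2 hd1 hd2
  rcases lt_or_eq_of_le hγ with h | h
  · refine hT.empty c d hcd a ha (a1_mem_open (-γ / (δ - γ)) (div_pos (by linarith) hpos)
      ((div_lt_one hpos).2 (by linarith)) ?_)
    ext
    · simp only [Prod.fst_add, Prod.smul_fst, smul_eq_mul, hc1, hd1]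
      field_simp
      ring
    · simp only [Prod.snd_add, Prod.smul_snd, smul_eq_mul, hc2, hd2]
      field_simp
      ring
  · rcases lt_or_eq_of_le hδ with h' | h'
    · refine hT.empty c d hcd b hb (a1_mem_open ((1 - γ) / (δ - γ))
        (div_pos (by linarith) hpos) ((div_lt_one hpos).2 (by linarith)) ?_)
      ext
      · simp only [Prod.fst_add, Prod.smul_fst, smul_eq_mul, hc1, hd1]
        field_simp
        ring
      · simp only [Prod.snd_add, Prod.smul_snd, smul_eq_mul, hc2, hd2]
        field_simp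
        ring
    · apply hne
      rw [hc, hd, h, ← h']
      simp

/-- points on a line -/
private lemma a1_param {a b c : Pt} (hab : a ≠ b) (h : cr a b c = 0) :
    ∃ γ : ℝ, c = (1 - γ) • a + γ • b := by
  have hn : 0 < (b.1 - a.1) ^ 2 + (b.2 - a.2) ^ 2 := by
    by_contra hcon
    push Not at hcon
    have h1 : b.1 - a.1 = 0 := by nlinarith [sq_nonneg (b.1 - a.1), sq_nonneg (b.2 - a.2)]
    have h2 : b.2 - a.2 = 0 := by nlinarith [sq_nonneg (b.1 - a.1), sq_nonneg (b.2 - a.2)]
    apply hab
    ext
    · linarith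
    · linarith
  have hn' := hn.ne'
  have h' : (b.1 - a.1) * (c.2 - a.2) = (b.2 - a.2) * (c.1 - a.1) := by
    simp only [cr] at h
    linarith
  refine ⟨((b.1 - a.1) * (c.1 - a.1) + (b.2 - a.2) * (c.2 - a.2)) /
    ((b.1 - a.1) ^ 2 + (b.2 - a.2) ^ 2), ?_⟩
  ext
  · simp only [Prod.fst_add, Prod.smul_fst, smul_eq_mul]
    have e : c.1 - a.1 = ((b.1 - a.1) * (c.1 - a.1) + (b.2 - a.2) * (c.2 - a.2)) /
        ((b.1 - a.1) ^ 2 + (b.2 - a.2) ^ 2) * (b.1 - a.1) := by
      rw [div_mul_eq_mul_div, eq_div_iff hn']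
      linear_combination (-(b.2 - a.2)) * h'
    linear_combination e
  · simp only [Prod.snd_add, Prod.smul_snd, smul_eq_mul]
    have e : c.2 - a.2 = ((b.1 - a.1) * (c.1 - a.1) + (b.2 - a.2) * (c.2 - a.2)) /
        ((b.1 - a.1) ^ 2 + (b.2 - a.2) ^ 2) * (b.2 - a.2) := by
      rw [div_mul_eq_mul_div, eq_div_iff hn']
      linear_combination (b.1 - a.1) * h'
    linear_combination e

private lemma a1_key {S : Finset Pt} {T : SimpleGraph Pt} (hT : PlaneOn S T) {a b : Pt}
    (ha : a ∈ S) (hb : b ∈ S) (hab : a ≠ b) (he : ∀ p ∈ S, p ∉ openSegment ℝ a b)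
    (hno : ∀ c d, T.Adj c d → 0 < cr a b c → cr a b d < 0 → ¬ cr c d a * cr c d b < 0)
    {c d : Pt} (hcd : T.Adj c d) (hne : s(a, b) ≠ s(c, d)) (x : Pt) (hxab : x ∈ segment ℝ a b)
    (hxcd : x ∈ segment ℝ c d) : (x = a ∨ x = b) ∧ (x = c ∨ x = d) := by
  have hcS : c ∈ S := hT.mem c d hcd
  have hdS : d ∈ S := hT.mem d c hcd.symm
  rcases a1_seg_cases hxab with h | h | hxo
  · refine ⟨Or.inl h, ?_⟩
    rcases a1_seg_cases hxcd with h' | h' | h'
    · exact Or.inl h'
    · exact Or.inr h'
    · exact absurd h' (hT.empty c d hcd x (h ▸ ha))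
  · refine ⟨Or.inr h, ?_⟩
    rcases a1_seg_cases hxcd with h' | h' | h'
    · exact Or.inl h'
    · exact Or.inr h'
    · exact absurd h' (hT.empty c d hcd x (h ▸ hb))
  rcases a1_seg_cases hxcd with h | h | hxo'
  · exact absurd hxo (he x (h ▸ hcS))
  · exact absurd hxo (he x (h ▸ hdS))
  exfalso
  rw [openSegment_eq_image] at hxo hxo'
  obtain ⟨t, ⟨ht0, ht1⟩, ht⟩ := hxo
  obtain ⟨s, ⟨hs0, hs1⟩, hs⟩ := hxo'
  simp only at ht hs
  have e1 : (1 - s) * cr a b c + s * cr a b d = 0 := by
    rw [← a1_cr_combo, hs, ← ht, a1_cr_combo, a1_cr_self1, a1_cr_self2]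
    ring
  have e2 : (1 - t) * cr c d a + t * cr c d b = 0 := by
    rw [← a1_cr_combo, ht, ← hs, a1_cr_combo, a1_cr_self1, a1_cr_self2]
    ring
  have hdiff := a1_cr_diff a b c d
  by_cases hA : cr a b c = 0
  · have hB : cr a b d = 0 := by
      rw [hA, mul_zero, zero_add] at e1
      rcases mul_eq_zero.1 e1 with h | h
      · linarith
      · exact h
    obtain ⟨γ, hγ⟩ := a1_param hab hA
    obtain ⟨δ, hδ⟩ := a1_param hab hB
    have hst : (1 - s) * γ + s * δ = t := by
      have h1 := congrArg Prod.fst (hs.trans ht.symm)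
      have h2 := congrArg Prod.snd (hs.trans ht.symm)
      rw [hγ, hδ] at h1 h2
      simp only [Prod.fst_add, Prod.snd_add, Prod.smul_fst, Prod.smul_snd, smul_eq_mul] at h1 h2
      have h3 : ((1 - s) * γ + s * δ - t) * (b.1 - a.1) = 0 := by linear_combination h1
      have h4 : ((1 - s) * γ + s * δ - t) * (b.2 - a.2) = 0 := by linear_combination h2
      rcases mul_eq_zero.1 h3 with h5 | h5
      · linarith
      · rcases mul_eq_zero.1 h4 with h6 | h6
        · linarith
        · exfalso
          apply hab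
          ext
          · linarith
          · linarith
    have hγ' : γ ≤ 0 ∨ 1 ≤ γ := by
      by_contra hcon
      push Not at hcon
      exact he c hcS (a1_mem_open γ hcon.1 hcon.2 hγ)
    have hδ' : δ ≤ 0 ∨ 1 ≤ δ := by
      by_contra hcon
      push Not at hcon
      exact he d hdS (a1_mem_open δ hcon.1 hcon.2 hδ)
    rcases hγ' with h1 | h1 <;> rcases hδ' with h2 | h2
    · nlinarith
    · exact a1_collinear hT ha hb hcd hne γ δ hγ hδ h1 h2
    · refine a1_collinear hT ha hb hcd.symm ?_ δ γ hδ hγ h2 h1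
      rwa [Sym2.eq_swap (a := d)]
    · nlinarith
  · have hCD : cr c d a * cr c d b < 0 := by
      have h1 : cr c d b ≠ 0 := by
        intro h
        rw [h, mul_zero, add_zero] at e2
        have h2 : cr c d a = 0 := by
          rcases mul_eq_zero.1 e2 with h | h
          · linarith
          · exact h
        rw [h, h2, sub_zero] at hdiff
        have h3 : cr a b d = cr a b c := by linarith
        rw [h3] at e1
        apply hA
        linarith
      have h2 : 0 < cr c d b ^ 2 := by positivity
      have h3 : (1 - t) * (cr c d a * cr c d b) = - (t * cr c d b ^ 2) := by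
        linear_combination cr c d b * e2
      by_contra hcon
      push Not at hcon
      have h4 : 0 ≤ (1 - t) * (cr c d a * cr c d b) := mul_nonneg (by linarith) hcon
      have h5 : 0 < t * cr c d b ^ 2 := mul_pos ht0 h2
      linarith
    rcases lt_or_gt_of_ne hA with h | h
    · have h1 : 0 < cr a b d := by
        by_contra hcon
        push Not at hcon
        nlinarith [mul_pos (sub_pos.2 hs1) (neg_pos.2 h), mul_nonneg hs0.le (neg_nonneg.2 hcon)]
      apply hno d c hcd.symm h1 h
      rw [a1_cr_swap c d a, a1_cr_swap c d b]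
      linarith
    · have h1 : cr a b d < 0 := by
        by_contra hcon
        push Not at hcon
        nlinarith [mul_pos (sub_pos.2 hs1) h, mul_nonneg hs0.le hcon]
      exact hno c d hcd h h1 hCD

/-- A segment between two points of `S` which is not an edge of the triangulation and contains
no further point of `S` is properly crossed by an edge. -/
theorem IsTri.exists_crossing {S : Finset Pt} {T : SimpleGraph Pt} (hT : IsTri S T) {a b : Pt}
    (ha : a ∈ S) (hb : b ∈ S) (hab : a ≠ b) (he : ∀ p ∈ S, p ∉ openSegment ℝ a b)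
    (hn : ¬ T.Adj a b) :
    ∃ c d, T.Adj c d ∧ 0 < cr a b c ∧ cr a b d < 0 ∧ cr c d a * cr c d b < 0 := by
  by_contra hcon
  have hno : ∀ c d, T.Adj c d → 0 < cr a b c → cr a b d < 0 →
      ¬ cr c d a * cr c d b < 0 := fun c d h1 h2 h3 h4 => hcon ⟨c, d, h1, h2, h3, h4⟩
  let T' : SimpleGraph Pt :=
    { Adj := fun p q => T.Adj p q ∨ s(a, b) = s(p, q)
      symm := ⟨fun p q h => by
        rcases h with h | h
        · exact Or.inl h.symm
        · right
          rw [h, Sym2.eq_swap]⟩
      loopless := ⟨fun p h => by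
        rcases h with h | h
        · exact h.ne rfl
        · rw [Sym2.eq_iff] at h
          apply hab
          rcases h with ⟨h1, h2⟩ | ⟨h1, h2⟩
          · rw [h1, h2]
          · rw [h1, h2]⟩ }
  have hplane : PlaneOn S T' := by
    refine ⟨?_, ?_, ?_⟩
    · intro p q h
      rcases h with h | h
      · exact hT.1.mem p q h
      · rw [Sym2.eq_iff] at h
        rcases h with ⟨h1, _⟩ | ⟨_, h1⟩
        · rw [← h1]; exact ha
        · rw [← h1]; exact hb
    · intro p q h
      rcases h with h | h
      · exact hT.1.empty p q h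
      · rw [Sym2.eq_iff] at h
        rcases h with ⟨h1, h2⟩ | ⟨h1, h2⟩
        · rw [← h1, ← h2]; exact he
        · rw [← h1, ← h2, openSegment_symm]; exact he
    · intro p q r u h1 h2 hne x hx1 hx2
      have aux : ∀ v w : Pt, s(a, b) = s(v, w) → x ∈ segment ℝ v w → x ∈ segment ℝ a b := by
        intro v w h hx
        rw [Sym2.eq_iff] at h
        rcases h with ⟨h3, h4⟩ | ⟨h3, h4⟩
        · rw [h3, h4]; exact hx
        · rw [h3, h4, segment_symm]; exact hx
      have aux2 : ∀ v w : Pt, s(a, b) = s(v, w) → (x = a ∨ x = b) → (x = v ∨ x = w) := by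
        intro v w h hx
        rw [Sym2.eq_iff] at h
        rcases h with ⟨h3, h4⟩ | ⟨h3, h4⟩
        · rw [← h3, ← h4]; exact hx
        · rw [← h3, ← h4]; exact hx.symm
      rcases h1 with h1 | h1 <;> rcases h2 with h2 | h2
      · exact hT.1.disj p q r u h1 h2 hne x hx1 hx2
      · have := a1_key hT.1 ha hb hab he hno h1 (fun h => hne (h.symm.trans h2)) x
          (aux r u h2 hx2) hx1
        exact ⟨this.2, aux2 r u h2 this.1⟩
      · have := a1_key hT.1 ha hb hab he hno h2 (fun h => hne (h1.symm.trans h)) x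
          (aux p q h1 hx1) hx2
        exact ⟨aux2 p q h1 this.1, this.2⟩
      · exact absurd (h1.symm.trans h2) hne
  have hle : T ≤ T' := fun p q h => Or.inl h
  have heq := hT.2 T' hplane hle
  apply hn
  rw [← heq]
  exact Or.inr rfl

end Pool.Agent.Helper70.MD
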