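import Pool.Agent.Helper70.MD.Defs

/-!
MD-A1b: maximal extension.

Proof. Strong induction on `#(S ×ˢ S) - e2 S G`. If `G` is maximal take `T = G`. Otherwise there is
`T'` with `PlaneOn S T'`, `G ≤ T'`, `T' ≠ G`; then some adjacency `T'.Adj a b` is not in `G`, both
endpoints in `S` (`mem` and symmetry), so `e2 S G < e2 S T' ≤ #(S ×ˢ S)` and induction applies.
-/

set_option autoImplicit false

namespace Pool.Agent.Helper70.MD

open Finset

open scoped Classical

/-- The number of directed edges is monotone. -/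
theorem e2_mono (R : Finset Pt) {G T : SimpleGraph Pt} (h : G ≤ T) : e2 R G ≤ e2 R T := by
  unfold e2
  refine Finset.card_le_card fun x hx => ?_
  rw [Finset.mem_filter] at hx ⊢
  exact ⟨hx.1, h hx.2⟩

/-- A larger plane graph has more directed edges. -/
theorem e2_lt {S : Finset Pt} {G T : SimpleGraph Pt} (hT : PlaneOn S T) (h : G ≤ T)
    (hne : G ≠ T) : e2 S G < e2 S T := by
  obtain ⟨a, b, hab, hnab⟩ : ∃ a b, T.Adj a b ∧ ¬ G.Adj a b := by
    by_contra hcon
    push Not at hcon
    exact hne (le_antisymm h hcon)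
  unfold e2
  refine Finset.card_lt_card ⟨fun x hx => ?_, fun hsub => ?_⟩
  · rw [Finset.mem_filter] at hx ⊢
    exact ⟨hx.1, h hx.2⟩
  · have h1 : (a, b) ∈ {x ∈ S ×ˢ S | T.Adj x.1 x.2} := by
      rw [Finset.mem_filter, Finset.mem_product]
      exact ⟨⟨hT.mem a b hab, hT.mem b a hab.symm⟩, hab⟩
    have h2 := hsub h1
    rw [Finset.mem_filter] at h2
    exact hnab h2.2

/-- A plane graph extends to a triangulation. -/
theorem PlaneOn.exists_tri {S : Finset Pt} {G : SimpleGraph Pt} (hG : PlaneOn S G) :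
    ∃ T, IsTri S T ∧ G ≤ T := by
  -- strong induction on the number of missing directed edges
  have key : ∀ n : ℕ, ∀ G : SimpleGraph Pt, PlaneOn S G → #(S ×ˢ S) - e2 S G ≤ n →
      ∃ T, IsTri S T ∧ G ≤ T := by
    intro n
    induction n with
    | zero =>
      intro G hG hn
      refine ⟨G, ⟨hG, fun T' hT' hle => ?_⟩, le_rfl⟩
      by_contra hne
      have hlt := e2_lt hT' hle (Ne.symm hne)
      have hle2 : e2 S T' ≤ #(S ×ˢ S) := Finset.card_filter_le _ _
      omega
    | succ n ih =>
      intro G hG hn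
      by_cases hmax : ∀ T' : SimpleGraph Pt, PlaneOn S T' → G ≤ T' → T' = G
      · exact ⟨G, ⟨hG, hmax⟩, le_rfl⟩
      · push Not at hmax
        obtain ⟨T', hT', hle, hne⟩ := hmax
        have hlt := e2_lt hT' hle (Ne.symm hne)
        have hle2 : e2 S T' ≤ #(S ×ˢ S) := Finset.card_filter_le _ _
        obtain ⟨T, hT, hle'⟩ := ih T' hT' (by omega)
        exact ⟨T, hT, hle.trans hle'⟩
  exact key _ G hG le_rfl

end Pool.Agent.Helper70.MD
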