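import Pool.Agent.Helper70.MD.A1a

/-!
MD-A2: every vertex has a neighbour in every open half-plane through it which contains a point of
the set.

Proof. Among the points `p ∈ S` with `lin g u < lin g p` choose one at minimal distance from `u`
(use e.g. the squared distance `(p.1-u.1)^2 + (p.2-u.2)^2`). Then no point `q ∈ S` is in the open
segment `u p` (it would satisfy `lin g u < lin g q` and be closer). If `T.Adj u p` we are done.
Otherwise by `exists_crossing` some edge `cd` properly crosses the segment `u p`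
(`0 < cr u p c`, `cr u p d < 0`, `cr c d u * cr c d p < 0`); its crossing point with the segment is
`x = u + t (p - u)`, `t = cr c d u / (cr c d u - cr c d p)` in `(0,1)`. Among all such crossing
edges (finitely many: both endpoints in `S`) choose one with minimal `t`. `x` is in the open segment
`cd`, so one of `c`, `d` has `lin g ≥ lin g x > lin g u`. Both cases are mirror images (do the proof
for a general sign, or prove a lemma with the mirrored orientation through the map
`(x,y) ↦ (x,-y)`, or state the core lemma with a sign `σ = 1 ∨ σ = -1` multiplying every `cr`); let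
it be `c`, `0 < cr u p c`.

Consider the closed triangle `u x c`: every point of it except `u` has `lin g > lin g u`. Let `Q` be
the set of points of `S` in this triangle other than `u`; `c ∈ Q`. No point of `Q` is on the line
`u p` (such a point is in the half open segment `(u, x]`, inside the open segment `u p`), so each
`q ∈ Q` has `0 < cr u x q`. Choose `s ∈ Q` with the smallest angle from the ray `u x`, i.e. such that
no `q ∈ Q` has `0 < cr u q s` (for example maximise `q ↦ lin (x - u) (q - u) / cr u x q`), and among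
those of the same angle the nearest to `u` (so that no point of `S` is in the open segment `u s`:
such a point is in the triangle, at the same angle, nearer). `lin g s > lin g u`. I claim
`T.Adj u s`, which finishes the proof. Otherwise by `exists_crossing` an edge `fg'` properly crosses
the segment `u s` at a point `y` of the open segment; call `h` the endpoint on the side of `x`,
i.e. `cr u s h < 0` (note `cr u s x < 0`). `h` is not in the triangle `u x c` (it would be a point of
`Q` of smaller angle). So `cr u x h < 0` or `cr x c h < 0` or `cr u x h = 0 ...`; precisely: as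
`cr u s h < 0` and `cr u s c ≥ 0`, the failure of `h` to be in the triangle is the failure of
`0 ≤ cr u x h` or of `0 ≤ cr x c h` (the third condition `0 ≤ cr c u h` follows from
`0 < cr u x h`, `cr u s h < 0`; and if `cr u x h = 0`, treat it as a failure, too). Move from `y` to
`h`: let `z = y + τ (h - y)` be the first point with `cr u x z = 0` or `cr x c z = 0` (`0 < τ ≤ 1`;
at `y` both are positive: `y` is in the open segment `u s`). Case `cr u x z = 0` (and
`cr x c z ≥ 0`): `z = u + λ (x - u)`, `cr u s z = λ cr u s x < 0` gives `λ > 0`, and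
`cr x c z = (1 - λ) cr x c u ≥ 0` gives `λ ≤ 1`. `z ≠ h` because no point of `S` is in the open
segment `u p`, so `z` is in the open segment `f g'`. If `λ < 1` the edge `f g'` crosses the segment
`u p` at a parameter smaller than `t`: contradiction with the minimality. If `λ = 1`, `z = x` is in
the open segment `c d` and in the open segment `f g'`; `disj` forces `s(f,g') = s(c,d)`, but then
`y` is on the line `cd`, while `cr x c y > 0`: contradiction. Case `cr x c z = 0`, `cr u x z > 0`:
`z = x + μ (c - x)` with `μ > 0` and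
`0 > cr u s z = (1 - μ) cr u s x + μ cr u s c ≥ (1 - μ) cr u s x`, so `μ < 1`. So `z` is in the open
segment `cd` and in the closed segment `f g'`, and `disj` forces the same contradiction as before
(`z` is not `c` or `d`; if the edges are equal then `y` is on the line `cd`).
-/

set_option autoImplicit false

namespace Pool.Agent.Helper70.MD

open Finset

open scoped Classical

/-- the point with parameter `t` on the segment -/
private def a2pt (a b : Pt) (t : ℝ) : Pt := ((1 - t) * a.1 + t * b.1, (1 - t) * a.2 + t * b.2)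

private theorem a2_mem_open {a b z : Pt} :
    z ∈ openSegment ℝ a b ↔ ∃ t : ℝ, 0 < t ∧ t < 1 ∧ z = a2pt a b t := by
  constructor
  · rintro ⟨α, β, hα, hβ, hαβ, rfl⟩
    refine ⟨β, hβ, by linarith, ?_⟩
    have : α = 1 - β := by linarith
    subst this
    rfl
  · rintro ⟨t, h0, h1, rfl⟩
    exact ⟨1 - t, t, by linarith, h0, by ring, rfl⟩

private theorem a2_mem_seg {a b z : Pt} :
    z ∈ segment ℝ a b ↔ ∃ t : ℝ, 0 ≤ t ∧ t ≤ 1 ∧ z = a2pt a b t := by
  constructor
  · rintro ⟨α, β, hα, hβ, hαβ, rfl⟩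
    refine ⟨β, hβ, by linarith, ?_⟩
    have : α = 1 - β := by linarith
    subst this
    rfl
  · rintro ⟨t, h0, h1, rfl⟩
    exact ⟨1 - t, t, by linarith, h0, by ring, rfl⟩

private theorem a2_cr_pt (p q a b : Pt) (t : ℝ) :
    cr p q (a2pt a b t) = (1 - t) * cr p q a + t * cr p q b := by
  unfold cr a2pt; ring

private theorem a2_frac {X Y : ℝ} (h : X * Y < 0) : 0 < X / (X - Y) ∧ X / (X - Y) < 1 := by
  rcases mul_neg_iff.mp h with ⟨hX, hY⟩ | ⟨hX, hY⟩
  · have h1 : 0 < X - Y := by linarith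
    exact ⟨div_pos hX h1, (div_lt_one h1).mpr (by linarith)⟩
  · have h1 : X - Y < 0 := by linarith
    refine ⟨div_pos_of_neg_of_neg hX h1, ?_⟩
    rw [div_lt_one_of_neg h1]
    linarith

private theorem a2_cross {a b c d : Pt} (h1 : cr a b c * cr a b d < 0)
    (h2 : cr c d a * cr c d b < 0) :
    ∃ θ ρ : ℝ, 0 < θ ∧ θ < 1 ∧ 0 < ρ ∧ ρ < 1 ∧ a2pt a b θ = a2pt c d ρ := by
  have e1 := a2_frac h1
  have e2 := a2_frac h2
  refine ⟨_, _, e2.1, e2.2, e1.1, e1.2, ?_⟩
  have h3 : cr a b c - cr a b d = -(cr c d a - cr c d b) := by unfold cr; ring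
  have h4 : cr c d a - cr c d b ≠ 0 := by
    intro h5
    rw [h5] at e2
    simp at e2
  rw [h3]
  have k1 : (cr c d a - cr c d b) * a.1 + cr c d a * (b.1 - a.1) =
      (cr c d a - cr c d b) * c.1 - cr a b c * (d.1 - c.1) := by unfold cr; ring
  have k2 : (cr c d a - cr c d b) * a.2 + cr c d a * (b.2 - a.2) =
      (cr c d a - cr c d b) * c.2 - cr a b c * (d.2 - c.2) := by unfold cr; ring
  generalize cr c d a - cr c d b = W at *
  generalize cr c d a = X at *
  generalize cr a b c = Y at *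
  unfold a2pt
  refine Prod.ext ?_ ?_
  · show (1 - X / W) * a.1 + X / W * b.1 = (1 - Y / -W) * c.1 + Y / -W * d.1
    field_simp
    linarith
  · show (1 - X / W) * a.2 + X / W * b.2 = (1 - Y / -W) * c.2 + Y / -W * d.2
    field_simp
    linarith

/-- the first zero of one of two affine functions -/
private theorem a2_first {b c b' c' : ℝ} (hb : 0 < b) (hc : 0 < c) (h : b' < 0 ∨ c' < 0) :
    ∃ τ : ℝ, 0 < τ ∧ τ < 1 ∧
      (((1 - τ) * c + τ * c' = 0 ∧ 0 ≤ (1 - τ) * b + τ * b') ∨
        ((1 - τ) * b + τ * b' = 0 ∧ 0 ≤ (1 - τ) * c + τ * c')) := by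
  have key : ∀ {b c b' c' : ℝ}, 0 < b → 0 < c → b' < 0 → c * b' ≤ b * c' →
      ∃ τ : ℝ, 0 < τ ∧ τ < 1 ∧ (1 - τ) * b + τ * b' = 0 ∧ 0 ≤ (1 - τ) * c + τ * c' := by
    intro b c b' c' hb hc hb' h
    have hW : 0 < b - b' := by linarith
    refine ⟨b / (b - b'), div_pos hb hW, (div_lt_one hW).mpr (by linarith), ?_, ?_⟩
    · field_simp
      ring
    · have : (1 - b / (b - b')) * c + b / (b - b') * c' = (b * c' - c * b') / (b - b') := by
        field_simp
        ring
      rw [this]
      exact div_nonneg (by linarith) hW.le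
  by_cases hb' : b' < 0
  · by_cases h1 : c * b' ≤ b * c'
    · obtain ⟨τ, t1, t2, t3, t4⟩ := key hb hc hb' h1
      exact ⟨τ, t1, t2, Or.inr ⟨t3, t4⟩⟩
    · push Not at h1
      have hc' : c' < 0 := by
        by_contra h2
        push Not at h2
        have : 0 ≤ b * c' := mul_nonneg hb.le h2
        have : c * b' < 0 := mul_neg_of_pos_of_neg hc hb'
        linarith
      obtain ⟨τ, t1, t2, t3, t4⟩ := key hc hb hc' h1.le
      exact ⟨τ, t1, t2, Or.inl ⟨t3, t4⟩⟩
  · have hc' : c' < 0 := h.resolve_left hb'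
    push Not at hb'
    have h1 : b * c' ≤ c * b' :=
      (mul_neg_of_pos_of_neg hb hc').le.trans (mul_nonneg hc.le hb')
    obtain ⟨τ, t1, t2, t3, t4⟩ := key hc hb hc' h1
    exact ⟨τ, t1, t2, Or.inl ⟨t3, t4⟩⟩

/-- The core: a visible point in the triangle `u x c`, where the open segment `u x` is not crossed
and `x` is on an edge `c d`. -/
private theorem a2_core {S : Finset Pt} {T : SimpleGraph Pt} (hT : IsTri S T) {u x c d : Pt}
    (hu : u ∈ S) {σ : ℝ} (hσ : σ * σ = 1) (hD : 0 < σ * cr u x c) (hcd : T.Adj c d)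
    (hx : x ∈ openSegment ℝ c d)
    (hi : ∀ q ∈ S, ∀ l : ℝ, 0 < l → l ≤ 1 → q ≠ a2pt u x l)
    (hii : ∀ a b, T.Adj a b → 0 < σ * cr u x a → σ * cr u x b < 0 →
      ∀ z ∈ openSegment ℝ a b, z ∉ openSegment ℝ u x) :
    ∃ s, T.Adj u s ∧ 0 ≤ σ * cr c u s ∧ 0 < σ * cr u x s ∧ 0 ≤ σ * cr x c s := by
  obtain ⟨D, hDdef⟩ : ∃ D, D = σ * cr u x c := ⟨_, rfl⟩
  obtain ⟨A, hA⟩ : ∃ A : Pt → ℝ, ∀ q, A q = σ * cr c u q := ⟨fun q => σ * cr c u q, fun _ => rfl⟩
  obtain ⟨B, hB⟩ : ∃ B : Pt → ℝ, ∀ q, B q = σ * cr u x q := ⟨fun q => σ * cr u x q, fun _ => rfl⟩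
  obtain ⟨C, hC⟩ : ∃ C : Pt → ℝ, ∀ q, C q = σ * cr x c q := ⟨fun q => σ * cr x c q, fun _ => rfl⟩
  rw [← hDdef] at hD
  have hAff : ∀ a b t, A (a2pt a b t) = (1 - t) * A a + t * A b := by
    intro a b t; rw [hA, hA, hA, a2_cr_pt]; ring
  have hBff : ∀ a b t, B (a2pt a b t) = (1 - t) * B a + t * B b := by
    intro a b t; rw [hB, hB, hB, a2_cr_pt]; ring
  have hCff : ∀ a b t, C (a2pt a b t) = (1 - t) * C a + t * C b := by
    intro a b t; rw [hC, hC, hC, a2_cr_pt]; ring
  have hsum : ∀ q, A q + B q + C q = D := by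
    intro q; rw [hA, hB, hC, hDdef]; unfold cr; ring
  have hb1 : ∀ q : Pt, D * q.1 = C q * u.1 + A q * x.1 + B q * c.1 := by
    intro q; rw [hA, hB, hC, hDdef]; unfold cr; ring
  have hb2 : ∀ q : Pt, D * q.2 = C q * u.2 + A q * x.2 + B q * c.2 := by
    intro q; rw [hA, hB, hC, hDdef]; unfold cr; ring
  have hAu : A u = 0 := by rw [hA]; unfold cr; ring
  have hBu : B u = 0 := by rw [hB]; unfold cr; ring
  have hBx : B x = 0 := by rw [hB]; unfold cr; ring
  have hCx : C x = 0 := by rw [hC]; unfold cr; ring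
  have hAc : A c = 0 := by rw [hA]; unfold cr; ring
  have hCc : C c = 0 := by rw [hC]; unfold cr; ring
  have hBc : B c = D := by rw [hB, hDdef]
  have hCu : C u = D := by have := hsum u; linarith
  -- points on the line `u x`
  have hlineB : ∀ q, B q = 0 → q = a2pt u x (A q / D) := by
    intro q hq
    have h1 := hb1 q
    have h2 := hb2 q
    have h3 := hsum q
    rw [hq] at h1 h2 h3
    have h4 : C q = D - A q := by linarith
    rw [h4] at h1 h2
    refine Prod.ext ?_ ?_
    · show q.1 = (1 - A q / D) * u.1 + A q / D * x.1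
      field_simp
      linarith
    · show q.2 = (1 - A q / D) * u.2 + A q / D * x.2
      field_simp
      linarith
  have hlineC : ∀ q, C q = 0 → q = a2pt x c (B q / D) := by
    intro q hq
    have h1 := hb1 q
    have h2 := hb2 q
    have h3 := hsum q
    rw [hq] at h1 h2 h3
    have h4 : A q = D - B q := by linarith
    rw [h4] at h1 h2
    refine Prod.ext ?_ ?_
    · show q.1 = (1 - B q / D) * x.1 + B q / D * c.1
      field_simp
      linarith
    · show q.2 = (1 - B q / D) * x.2 + B q / D * c.2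
      field_simp
      linarith
  have hCd : C d = 0 := by
    obtain ⟨t, t0, t1, hxt⟩ := a2_mem_open.mp hx
    have h1 := hCff c d t
    rw [← hxt, hCx, hCc, mul_zero, zero_add] at h1
    rcases mul_eq_zero.mp h1.symm with h2 | h2
    · linarith
    · exact h2
  -- points of the triangle
  obtain ⟨Q, hQ⟩ : ∃ Q : Finset Pt, ∀ q, q ∈ Q ↔ q ∈ S ∧ q ≠ u ∧ 0 ≤ A q ∧ 0 ≤ B q ∧ 0 ≤ C q :=
    ⟨S.filter (fun q => q ≠ u ∧ 0 ≤ A q ∧ 0 ≤ B q ∧ 0 ≤ C q), fun q => by rw [mem_filter]⟩
  have hQB : ∀ q ∈ Q, 0 < B q := by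
    intro q hq
    rw [hQ] at hq
    obtain ⟨h1, h2, h3, h4, h5⟩ := hq
    rcases h4.lt_or_eq with h6 | h6
    · exact h6
    · exfalso
      have h7 := hlineB q h6.symm
      have h8 := hsum q
      rcases h3.lt_or_eq with h9 | h9
      · exact hi q h1 (A q / D) (div_pos h9 hD) ((div_le_one hD).mpr (by linarith)) h7
      · apply h2
        rw [h7, ← h9, zero_div]
        refine Prod.ext ?_ ?_
        · show (1 - 0) * u.1 + 0 * x.1 = u.1
          ring
        · show (1 - 0) * u.2 + 0 * x.2 = u.2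
          ring
  have hcS : c ∈ S := hT.1.mem c d hcd
  have hcQ : c ∈ Q := by
    rw [hQ]
    refine ⟨hcS, ?_, by rw [hAc], by rw [hBc]; exact hD.le, by rw [hCc]⟩
    intro h1
    rw [h1, hBu] at hBc
    linarith
  obtain ⟨s0, hs0, hmax⟩ := Finset.exists_max_image Q (fun q => A q / B q) ⟨c, hcQ⟩
  obtain ⟨s, hs, hmin⟩ := Finset.exists_min_image
    (Q.filter (fun q => A q / B q = A s0 / B s0)) B ⟨s0, by rw [mem_filter]; exact ⟨hs0, rfl⟩⟩
  rw [mem_filter] at hs
  obtain ⟨hsQ, hsf⟩ := hs
  have hsB := hQB s hsQ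
  have hs' := (hQ s).mp hsQ
  obtain ⟨hsS, hsu, hsA, -, hsC⟩ := hs'
  -- maximality of the quotient
  have hm1 : ∀ q ∈ Q, A q * B s ≤ A s * B q := by
    intro q hq
    have h1 := hmax q hq
    rw [← hsf, div_le_div_iff₀ (hQB q hq) hsB] at h1
    exact h1
  have hm2 : ∀ q ∈ Q, A q * B s = A s * B q → B s ≤ B q := by
    intro q hq h1
    apply hmin q
    rw [mem_filter]
    refine ⟨hq, ?_⟩
    rw [← hsf, div_eq_div_iff (hQB q hq).ne' hsB.ne']
    exact h1
  have hempty : ∀ q ∈ S, q ∉ openSegment ℝ u s := by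
    intro q hq hqs
    obtain ⟨t, t0, t1, rfl⟩ := a2_mem_open.mp hqs
    have h1 := hAff u s t
    have h2 := hBff u s t
    have h3 := hsum (a2pt u s t)
    have h3' := hsum s
    rw [hAu, mul_zero, zero_add] at h1
    rw [hBu, mul_zero, zero_add] at h2
    have h4 : 0 < B (a2pt u s t) := by rw [h2]; exact mul_pos t0 hsB
    have h5 : a2pt u s t ∈ Q := by
      rw [hQ]
      refine ⟨hq, ?_, by rw [h1]; exact mul_nonneg t0.le hsA, h4.le, ?_⟩
      · intro h6
        rw [h6, hBu] at h4
        exact lt_irrefl _ h4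
      · have h7 : C (a2pt u s t) = D - t * (A s + B s) := by rw [h1, h2] at h3; linarith
        have h8 : t * (A s + B s) ≤ 1 * (A s + B s) :=
          mul_le_mul_of_nonneg_right t1.le (by linarith)
        rw [h7]
        linarith
    have h6 := hm2 _ h5 (by rw [h1, h2]; ring)
    rw [h2] at h6
    nlinarith
  refine ⟨s, ?_, by rw [← hA]; exact hsA, by rw [← hB]; exact hsB, by rw [← hC]; exact hsC⟩
  by_contra hn
  obtain ⟨f, g', hfg, hf, hg', hcross⟩ := hT.exists_crossing hu hsS (Ne.symm hsu) hempty hn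
  -- the end on the side of `x`
  obtain ⟨h, k, hhk, hh, hk, hcross'⟩ : ∃ h k, T.Adj h k ∧ σ * cr u s h < 0 ∧
      0 < σ * cr u s k ∧ cr h k u * cr h k s < 0 := by
    have hσ1 : σ = 1 ∨ σ = -1 := by
      have : (σ - 1) * (σ + 1) = 0 := by linarith
      rcases mul_eq_zero.mp this with h1 | h1
      · left; linarith
      · right; linarith
    have hsw : cr g' f u * cr g' f s < 0 := by
      have e1 : cr g' f u = - cr f g' u := by unfold cr; ring
      have e2 : cr g' f s = - cr f g' s := by unfold cr; ring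
      rw [e1, e2]
      linarith
    rcases hσ1 with h1 | h1
    · exact ⟨g', f, hfg.symm, by rw [h1]; linarith, by rw [h1]; linarith, hsw⟩
    · exact ⟨f, g', hfg, by rw [h1]; linarith, by rw [h1]; linarith, hcross⟩
  have hhS : h ∈ S := hT.1.mem h k hhk
  have hkS : k ∈ S := hT.1.mem k h hhk.symm
  -- the crossing point
  have hprod : cr u s h * cr u s k < 0 := by
    have h1 : (σ * cr u s h) * (σ * cr u s k) < 0 := mul_neg_of_neg_of_pos hh hk
    have h2 : (σ * cr u s h) * (σ * cr u s k) = σ * σ * (cr u s h * cr u s k) := by ring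
    rw [h2, hσ, one_mul] at h1
    exact h1
  obtain ⟨θ, ρ, hθ0, hθ1, hρ0, hρ1, hy⟩ := a2_cross hprod hcross'
  obtain ⟨y, hydef⟩ : ∃ y, y = a2pt h k ρ := ⟨_, rfl⟩
  rw [← hydef] at hy
  have hAy : A y = θ * A s := by rw [← hy, hAff, hAu]; ring
  have hBy : B y = θ * B s := by rw [← hy, hBff, hBu]; ring
  have hBy0 : 0 < B y := by rw [hBy]; exact mul_pos hθ0 hsB
  have hCy0 : 0 < C y := by
    have h1 := hsum y
    have h2 := hsum s
    rw [hAy, hBy] at h1
    have h3 : θ * (A s + B s) < 1 * (A s + B s) :=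
      mul_lt_mul_of_pos_right hθ1 (by linarith)
    linarith
  -- the functional `N`
  have hN : ∀ q, A s * B q - B s * A q = D * (σ * cr u s q) := by
    intro q
    have h1 : cr u s q * cr u x c = cr c u s * cr u x q - cr u x s * cr c u q := by
      unfold cr; ring
    rw [hA, hB, hA, hB, hDdef]
    calc σ * cr c u s * (σ * cr u x q) - σ * cr u x s * (σ * cr c u q)
        = σ * σ * (cr c u s * cr u x q - cr u x s * cr c u q) := by ring
      _ = σ * σ * (cr u s q * cr u x c) := by rw [h1]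
      _ = _ := by ring
  have hNh : A s * B h - B s * A h < 0 := by
    rw [hN]; exact mul_neg_of_pos_of_neg hD hh
  -- `h` is outside
  have hout : B h < 0 ∨ C h < 0 := by
    by_contra hcon
    push Not at hcon
    obtain ⟨h1, h2⟩ := hcon
    have h3 : 0 < A h := by
      by_contra h4
      push Not at h4
      have h5 : 0 ≤ A s * B h := mul_nonneg hsA h1
      have h6 : B s * A h ≤ 0 := mul_nonpos_of_nonneg_of_nonpos hsB.le h4
      linarith
    have h4 : h ∈ Q := by
      rw [hQ]
      refine ⟨hhS, ?_, h3.le, h1, h2⟩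
      intro h5
      rw [h5, hAu] at h3
      exact lt_irrefl _ h3
    have h5 := hm1 h h4
    linarith
  -- an edge different from `c d` does not meet it in the interior
  have hstar : ∀ z, z ∈ openSegment ℝ h k → z ∈ segment ℝ c d → False := by
    intro z hz1 hz2
    by_cases heq : s(h, k) = s(c, d)
    · have h1 : C h = 0 ∧ C k = 0 := by
        rw [Sym2.eq_iff] at heq
        rcases heq with ⟨h2, h3⟩ | ⟨h2, h3⟩
        · rw [h2, h3]; exact ⟨hCc, hCd⟩
        · rw [h2, h3]; exact ⟨hCd, hCc⟩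
      have h2 : C y = 0 := by rw [hydef, hCff, h1.1, h1.2]; ring
      linarith
    · have h1 := (hT.1.disj h k c d hhk hcd heq z (openSegment_subset_segment ℝ h k hz1) hz2).1
      rcases h1 with h2 | h2
      · rw [h2] at hz1
        exact hT.1.empty h k hhk h hhS hz1
      · rw [h2] at hz1
        exact hT.1.empty h k hhk k hkS hz1
  obtain ⟨τ, hτ0, hτ1, hcase⟩ := a2_first hBy0 hCy0 hout
  obtain ⟨z, hzdef⟩ : ∃ z, z = a2pt y h τ := ⟨_, rfl⟩
  have hzo : z ∈ openSegment ℝ h k := by
    rw [a2_mem_open]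
    refine ⟨(1 - τ) * ρ, mul_pos (by linarith) hρ0, ?_, ?_⟩
    · have : (1 - τ) * ρ < 1 * 1 := mul_lt_mul'' (by linarith) hρ1 (by linarith) hρ0.le
      linarith
    · rw [hzdef, hydef]
      refine Prod.ext ?_ ?_
      · show (1 - τ) * ((1 - ρ) * h.1 + ρ * k.1) + τ * h.1 =
          (1 - (1 - τ) * ρ) * h.1 + (1 - τ) * ρ * k.1
        ring
      · show (1 - τ) * ((1 - ρ) * h.2 + ρ * k.2) + τ * h.2 =
          (1 - (1 - τ) * ρ) * h.2 + (1 - τ) * ρ * k.2
        ring
  have hBz : B z = (1 - τ) * B y + τ * B h := by rw [hzdef, hBff]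
  have hCz : C z = (1 - τ) * C y + τ * C h := by rw [hzdef, hCff]
  have hNz : A s * B z - B s * A z < 0 := by
    have h1 : A s * B z - B s * A z = τ * (A s * B h - B s * A h) := by
      rw [hBz, hzdef, hAff, hAy, hBy]; ring
    rw [h1]
    exact mul_neg_of_pos_of_neg hτ0 hNh
  have hsegxc : segment ℝ x c ⊆ segment ℝ c d :=
    (convex_segment c d).segment_subset (openSegment_subset_segment ℝ c d hx)
      (left_mem_segment ℝ c d)
  rcases hcase with ⟨h1, h2⟩ | ⟨h1, h2⟩
  · -- exit through `x c`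
    rw [← hCz] at h1
    rw [← hBz] at h2
    have h3 : 0 < A z := by
      by_contra h4
      push Not at h4
      have h5 : 0 ≤ A s * B z := mul_nonneg hsA h2
      have h6 : B s * A z ≤ 0 := mul_nonpos_of_nonneg_of_nonpos hsB.le h4
      linarith
    have h4 := hsum z
    refine hstar z hzo (hsegxc ?_)
    rw [a2_mem_seg]
    exact ⟨B z / D, div_nonneg h2 hD.le, (div_le_one hD).mpr (by linarith), hlineC z h1⟩
  · -- exit through `u x`
    have hBh : B h < 0 := by
      by_contra h3
      push Not at h3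
      have h4 : 0 < (1 - τ) * B y := mul_pos (by linarith) hBy0
      have h5 : 0 ≤ τ * B h := mul_nonneg hτ0.le h3
      linarith
    have hBk : 0 < B k := by
      by_contra h3
      push Not at h3
      have h4 : B y = (1 - ρ) * B h + ρ * B k := by rw [hydef, hBff]
      have h5 : (1 - ρ) * B h < 0 := mul_neg_of_pos_of_neg (by linarith) hBh
      have h6 : ρ * B k ≤ 0 := mul_nonpos_of_nonneg_of_nonpos hρ0.le h3
      linarith
    rw [← hBz] at h1
    rw [← hCz] at h2
    rw [h1] at hNz
    have h3 : 0 < A z := by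
      by_contra h4
      push Not at h4
      have h6 : B s * A z ≤ 0 := mul_nonpos_of_nonneg_of_nonpos hsB.le h4
      linarith
    have h4 := hsum z
    have h5 : A z ≤ D := by linarith
    have h6 := hlineB z h1
    rcases h5.lt_or_eq with h7 | h7
    · refine hii k h hhk.symm (by rw [← hB]; exact hBk) (by rw [← hB]; exact hBh) z ?_ ?_
      · rw [openSegment_symm]
        exact hzo
      · rw [a2_mem_open]
        exact ⟨A z / D, div_pos h3 hD, (div_lt_one hD).mpr h7, h6⟩
    · have h8 : z = x := by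
        rw [h6, h7, div_self hD.ne']
        refine Prod.ext ?_ ?_
        · show (1 - 1) * u.1 + 1 * x.1 = x.1
          ring
        · show (1 - 1) * u.2 + 1 * x.2 = x.2
          ring
      refine hstar z hzo ?_
      rw [h8]
      exact openSegment_subset_segment ℝ c d hx

private theorem a2_lin_pt (g a b : Pt) (t : ℝ) :
    lin g (a2pt a b t) = (1 - t) * lin g a + t * lin g b := by
  unfold lin a2pt; ring

private theorem a2_fin {S : Finset Pt} {T : SimpleGraph Pt} (hT : IsTri S T) {u x c d : Pt}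
    (hu : u ∈ S) {σ : ℝ} (hσ : σ * σ = 1) (hD : 0 < σ * cr u x c) (hcd : T.Adj c d)
    (hx : x ∈ openSegment ℝ c d)
    (hi : ∀ q ∈ S, ∀ l : ℝ, 0 < l → l ≤ 1 → q ≠ a2pt u x l)
    (hii : ∀ a b, T.Adj a b → 0 < σ * cr u x a → σ * cr u x b < 0 →
      ∀ z ∈ openSegment ℝ a b, z ∉ openSegment ℝ u x) {g : Pt} (hgx : lin g u < lin g x)
    (hgc : lin g u < lin g c) : ∃ w, T.Adj u w ∧ lin g u < lin g w := by
  obtain ⟨s, hs, h1, h2, h3⟩ := a2_core hT hu hσ hD hcd hx hi hii
  refine ⟨s, hs, ?_⟩
  have h4 : (σ * cr u x c) * (lin g s - lin g u) =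
      (σ * cr c u s) * (lin g x - lin g u) + (σ * cr u x s) * (lin g c - lin g u) := by
    unfold lin cr; ring
  have h5 : 0 ≤ (σ * cr c u s) * (lin g x - lin g u) := mul_nonneg h1 (by linarith)
  have h6 : 0 < (σ * cr u x s) * (lin g c - lin g u) := mul_pos h2 (by linarith)
  have h7 : 0 < lin g s - lin g u := by
    by_contra h8
    push Not at h8
    have := mul_nonpos_of_nonneg_of_nonpos hD.le h8
    linarith
  linarith

/-- Every vertex has a neighbour in every open half-plane through it which contains a point of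
`S`. -/
theorem IsTri.exists_nbr {S : Finset Pt} {T : SimpleGraph Pt} (hT : IsTri S T) {u : Pt}
    (hu : u ∈ S) (g : Pt) (hp : ∃ p ∈ S, lin g u < lin g p) :
    ∃ w, T.Adj u w ∧ lin g u < lin g w := by
  -- a nearest point of the half-plane
  obtain ⟨p0, hp0, hgp0⟩ := hp
  obtain ⟨p, hpm, hpmin⟩ := Finset.exists_min_image (S.filter (fun q => lin g u < lin g q))
    (fun q => (q.1 - u.1) ^ 2 + (q.2 - u.2) ^ 2) ⟨p0, by rw [mem_filter]; exact ⟨hp0, hgp0⟩⟩
  rw [mem_filter] at hpm
  obtain ⟨hpS, hgp⟩ := hpm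
  have hup : u ≠ p := by
    rintro rfl
    exact lt_irrefl _ hgp
  have hemp : ∀ q ∈ S, q ∉ openSegment ℝ u p := by
    intro q hq hqs
    obtain ⟨t, t0, t1, rfl⟩ := a2_mem_open.mp hqs
    have h1 : lin g u < lin g (a2pt u p t) := by
      rw [a2_lin_pt]
      nlinarith
    have h2 := hpmin _ (by rw [mem_filter]; exact ⟨hq, h1⟩)
    have h3 : ((a2pt u p t).1 - u.1) ^ 2 + ((a2pt u p t).2 - u.2) ^ 2 =
        t ^ 2 * ((p.1 - u.1) ^ 2 + (p.2 - u.2) ^ 2) := by
      unfold a2pt; ring
    rw [h3] at h2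
    have h4 : 0 < (p.1 - u.1) ^ 2 + (p.2 - u.2) ^ 2 := by
      by_contra h5
      push Not at h5
      apply hup
      have e1 : (p.1 - u.1) ^ 2 = 0 := by nlinarith [sq_nonneg (p.1 - u.1), sq_nonneg (p.2 - u.2)]
      have e2 : (p.2 - u.2) ^ 2 = 0 := by nlinarith [sq_nonneg (p.1 - u.1), sq_nonneg (p.2 - u.2)]
      have e3 := pow_eq_zero_iff (two_ne_zero) |>.mp e1
      have e4 := pow_eq_zero_iff (two_ne_zero) |>.mp e2
      exact Prod.ext (by linarith) (by linarith)
    have h5 : t ^ 2 < 1 := by nlinarith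
    nlinarith
  by_cases hadj : T.Adj u p
  · exact ⟨p, hadj, hgp⟩
  obtain ⟨c0, d0, hcd0, hc0, hd0, hx0⟩ := hT.exists_crossing hu hpS hup hemp hadj
  -- the crossing edge nearest to `u`
  obtain ⟨X, hX⟩ : ∃ X : Finset (Pt × Pt), ∀ e, e ∈ X ↔ (e.1 ∈ S ∧ e.2 ∈ S) ∧ T.Adj e.1 e.2 ∧
      0 < cr u p e.1 ∧ cr u p e.2 < 0 ∧ cr e.1 e.2 u * cr e.1 e.2 p < 0 :=
    ⟨(S ×ˢ S).filter (fun e => T.Adj e.1 e.2 ∧
      0 < cr u p e.1 ∧ cr u p e.2 < 0 ∧ cr e.1 e.2 u * cr e.1 e.2 p < 0), fun e => by
        rw [mem_filter, mem_product]⟩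
  have hXne : (c0, d0) ∈ X := by
    rw [hX]
    exact ⟨⟨hT.1.mem _ _ hcd0, hT.1.mem _ _ hcd0.symm⟩, hcd0, hc0, hd0, hx0⟩
  obtain ⟨⟨c, d⟩, hcdX, hmin⟩ := Finset.exists_min_image X
    (fun e => cr e.1 e.2 u / (cr e.1 e.2 u - cr e.1 e.2 p)) ⟨_, hXne⟩
  rw [hX] at hcdX
  obtain ⟨-, hcd, hc, hd, hcr⟩ := hcdX
  simp only at hcd hc hd hcr hmin
  obtain ⟨t, htdef⟩ : ∃ t, t = cr c d u / (cr c d u - cr c d p) := ⟨_, rfl⟩
  rw [← htdef] at hmin
  have ht := a2_frac hcr
  rw [← htdef] at ht
  obtain ⟨ht0, ht1⟩ := ht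
  have hW : cr c d u - cr c d p ≠ 0 := by
    intro h1
    rw [h1, div_zero] at htdef
    linarith
  obtain ⟨x, hxdef⟩ : ∃ x, x = a2pt u p t := ⟨_, rfl⟩
  have hcdx : cr c d x = 0 := by
    rw [hxdef, a2_cr_pt, htdef]
    field_simp
    ring
  -- `x` is in the open segment `c d`
  have hprod : cr u p c * cr u p d < 0 := mul_neg_of_pos_of_neg hc hd
  have hxo : x ∈ openSegment ℝ c d := by
    obtain ⟨θ, ρ, hθ0, hθ1, hρ0, hρ1, hy⟩ := a2_cross hprod hcr
    have h1 : θ = t := by
      have h2 : cr c d (a2pt u p θ) = 0 := by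
        rw [hy, a2_cr_pt]
        unfold cr
        ring
      rw [a2_cr_pt] at h2
      rw [htdef]
      field_simp
      linarith
    rw [a2_mem_open]
    exact ⟨ρ, hρ0, hρ1, by rw [hxdef, ← h1, hy]⟩
  have hux : ∀ q, cr u x q = t * cr u p q := by
    intro q
    rw [hxdef]
    unfold cr a2pt
    ring
  have hi : ∀ q ∈ S, ∀ l : ℝ, 0 < l → l ≤ 1 → q ≠ a2pt u x l := by
    intro q hq l hl0 hl1 hql
    apply hemp q hq
    rw [a2_mem_open]
    refine ⟨l * t, mul_pos hl0 ht0, ?_, ?_⟩
    · calc l * t ≤ 1 * t := mul_le_mul_of_nonneg_right hl1 ht0.le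
        _ < 1 := by linarith
    · rw [hql, hxdef]
      refine Prod.ext ?_ ?_
      · show (1 - l) * u.1 + l * ((1 - t) * u.1 + t * p.1) = (1 - l * t) * u.1 + l * t * p.1
        ring
      · show (1 - l) * u.2 + l * ((1 - t) * u.2 + t * p.2) = (1 - l * t) * u.2 + l * t * p.2
        ring
  have hii : ∀ a b, T.Adj a b → 0 < cr u x a → cr u x b < 0 →
      ∀ z ∈ openSegment ℝ a b, z ∉ openSegment ℝ u x := by
    intro a b hab ha hb z hz1 hz2
    rw [hux] at ha hb
    have ha' : 0 < cr u p a := by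
      by_contra h1
      push Not at h1
      have := mul_nonpos_of_nonneg_of_nonpos ht0.le h1
      linarith
    have hb' : cr u p b < 0 := by
      by_contra h1
      push Not at h1
      have := mul_nonneg ht0.le h1
      linarith
    obtain ⟨ρ, hρ0, hρ1, hρ⟩ := a2_mem_open.mp hz1
    obtain ⟨l, hl0, hl1, hl⟩ := a2_mem_open.mp hz2
    have h1 : cr a b z = 0 := by
      rw [hρ, a2_cr_pt]
      unfold cr
      ring
    have h2 : cr a b z = (1 - l * t) * cr a b u + l * t * cr a b p := by
      rw [hl, a2_cr_pt, hxdef, a2_cr_pt]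
      ring
    rw [h1] at h2
    have h3 : cr a b u - cr a b p = cr u p b - cr u p a := by unfold cr; ring
    have h4 : cr a b u - cr a b p < 0 := by rw [h3]; linarith
    have hr0 : 0 < l * t := mul_pos hl0 ht0
    have hr1 : l * t < t := by nlinarith
    have h5 : cr a b u = l * t * (cr a b u - cr a b p) := by linarith
    have h6 : cr a b p = -(1 - l * t) * (cr a b u - cr a b p) := by linarith
    have h7 : cr a b u * cr a b p < 0 := by
      rw [h6]
      have h8 : cr a b u < 0 := by rw [h5]; exact mul_neg_of_pos_of_neg hr0 h4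
      have h9 : 0 < -(1 - l * t) * (cr a b u - cr a b p) := by
        have : 0 < 1 - l * t := by linarith
        nlinarith
      exact mul_neg_of_neg_of_pos h8 h9
    have h8 := hmin (a, b) (by
      rw [hX]
      exact ⟨⟨hT.1.mem _ _ hab, hT.1.mem _ _ hab.symm⟩, hab, ha', hb', h7⟩)
    simp only at h8
    have h9 : cr a b u / (cr a b u - cr a b p) = l * t := by
      rw [div_eq_iff h4.ne]
      exact h5
    rw [h9] at h8
    linarith
  have hgx : lin g u < lin g x := by
    rw [hxdef, a2_lin_pt]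
    nlinarith
  -- one of the ends is on the good side
  have hor : lin g x ≤ lin g c ∨ lin g x ≤ lin g d := by
    obtain ⟨ρ, hρ0, hρ1, hρ⟩ := a2_mem_open.mp hxo
    by_contra h1
    push Not at h1
    have h2 : lin g x = (1 - ρ) * lin g c + ρ * lin g d := by
      conv_lhs => rw [hρ]
      rw [a2_lin_pt]
    nlinarith [h1.1, h1.2]
  rcases hor with h1 | h1
  · refine a2_fin hT hu (σ := 1) (by norm_num) ?_ hcd hxo hi ?_ hgx (by linarith)
    · rw [one_mul, hux]
      exact mul_pos ht0 hc
    · intro a b hab ha hb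
      rw [one_mul] at ha hb
      exact hii a b hab ha hb
  · refine a2_fin hT hu (σ := -1) (by norm_num) ?_ hcd.symm
      (by rw [openSegment_symm]; exact hxo) hi ?_ hgx (by linarith)
    · rw [hux]
      have := mul_neg_of_pos_of_neg ht0 hd
      linarith
    · intro a b hab ha hb z hz1
      rw [openSegment_symm] at hz1
      exact hii b a hab.symm (by linarith) (by linarith) z hz1

end Pool.Agent.Helper70.MD
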