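import Pool.Agent.Helper70.MD.A2

/-!
MD-A3: two angularly consecutive neighbours at an angle less than `π` span a face.

Proof. Step 1: no point of `S` other than `u v w` is in the closed triangle. Suppose the set `Q` of
such points is nonempty. Points of the closed segments `uv`, `uw` other than the endpoints are not in
`S` (`hT.1.empty`), so each `q ∈ Q` has `0 < cr u v q`, `0 < cr w u q` (i.e. `0 < cr u q w`), and
`0 ≤ cr v w q`. Choose `q ∈ Q` with maximal `cr v w q` (nearest to `u`). With the linear functional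
`g` for which `cr v w p = lin g p + const` (`g = (-(w.2 - v.2), w.1 - v.1)`), `lin g q < lin g u`
(because `cr v w q < cr v w u`: the three `cr` of `q` add up to `cr u v w = cr v w u` and the other
two are positive). By `exists_nbr` `q` has a neighbour `r` with `cr v w q < cr v w r`. If `r` is in
the closed triangle then `r = u` (not `v`, `w`, since `cr v w r > 0`; not in `Q` by maximality), and
`q` is a neighbour of `u` in the open cone, contradicting `hno`. So `r` is outside, hence
`cr u v r < 0` or `cr w u r < 0`. Move from `q` to `r`: let `z = q + t (r - q)` be the first point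
with `cr u v z = 0` or `cr w u z = 0`, `0 < t < 1`; there `cr v w z > 0`. If `cr u v z = 0` (and
`cr w u z ≥ 0`) then `z = u + λ (v - u)` with `λ ≥ 0` (from `cr w u z ≥ 0`) and `λ < 1` (from
`cr v w z > 0`). If `λ = 0` then `u` is in the open segment `q r`, contradicting `hT.1.empty`. If
`0 < λ` then `z` is in the open segments `u v` and `q r`: contradiction with `disj` (the edges are
different as `cr u v q > 0`). The case `cr w u z = 0` is symmetric.

Step 2: `T.Adj v w`. The open segment `v w` contains no point of `S` by step 1. Otherwise by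
`exists_crossing` an edge `c d` properly crosses the segment `v w`, at a point `z0`; let `c` be the
endpoint with `cr v w c > 0` (the side of `u`, as `cr v w u > 0`). If `c = u`, then `d` is a
neighbour of `u` and the segment `u d` meets the open segment `v w`, so `d` is in the open cone:
contradiction with `hno`. Otherwise `c` is not in the triangle (step 1), and moving from `z0` to `c`
the first exit from the cone gives, exactly as in step 1, a contradiction. Step 3: collect the
fields of `Face` (`wu` is `huw.symm`, `pos` is `h`).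
-/

set_option autoImplicit false

namespace Pool.Agent.Helper70.MD

open Finset

open scoped Classical

private lemma a3_bary {u v w : Pt} (h : 0 < cr u v w) (z : Pt) :
    z = (cr v w z / cr u v w) • u + (cr w u z / cr u v w) • v + (cr u v z / cr u v w) • w := by
  have hne : cr u v w ≠ 0 := h.ne'
  ext
  · simp only [Prod.fst_add, Prod.smul_fst, smul_eq_mul]
    have e : z.1 * cr u v w = cr v w z * u.1 + cr w u z * v.1 + cr u v z * w.1 := by
      simp only [cr]; ring
    field_simp
    linarith
  · simp only [Prod.snd_add, Prod.smul_snd, smul_eq_mul]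
    have e : z.2 * cr u v w = cr v w z * u.2 + cr w u z * v.2 + cr u v z * w.2 := by
      simp only [cr]; ring
    field_simp
    linarith

private lemma a3_sum (u v w z : Pt) : cr v w z + cr w u z + cr u v z = cr u v w := by
  simp only [cr]; ring

private lemma a3_rot (a b c : Pt) : cr b c a = cr a b c := by
  simp only [cr]; ring

private lemma a3_self1 (a b : Pt) : cr a b a = 0 := by
  simp [cr]

private lemma a3_self2 (a b : Pt) : cr a b b = 0 := by
  simp only [cr]; ring

private lemma a3_combo (a b c d : Pt) (s : ℝ) :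
    cr a b ((1 - s) • c + s • d) = (1 - s) * cr a b c + s * cr a b d := by
  simp only [cr, Prod.fst_add, Prod.snd_add, Prod.smul_fst, Prod.smul_snd, smul_eq_mul]
  ring

/-- a point of the closed triangle on the side `u v` -/
private lemma a3_side1 {u v w z : Pt} (h : 0 < cr u v w) (h1 : cr u v z = 0) :
    z = (1 - cr w u z / cr u v w) • u + (cr w u z / cr u v w) • v := by
  have hs := a3_sum u v w z
  have hne : cr u v w ≠ 0 := h.ne'
  have e : 1 - cr w u z / cr u v w = cr v w z / cr u v w := by
    field_simp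
    linarith
  have hb := a3_bary h z
  rw [h1, zero_div, zero_smul, add_zero] at hb
  rw [e]
  exact hb

/-- a point of the closed triangle on the side `u w` -/
private lemma a3_side2 {u v w z : Pt} (h : 0 < cr u v w) (h1 : cr w u z = 0) :
    z = (1 - cr u v z / cr u v w) • u + (cr u v z / cr u v w) • w := by
  have hs := a3_sum u v w z
  have hne : cr u v w ≠ 0 := h.ne'
  have e : 1 - cr u v z / cr u v w = cr v w z / cr u v w := by
    field_simp
    linarith
  have hb := a3_bary h z
  rw [h1, zero_div, zero_smul, add_zero] at hb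
  rw [e]
  exact hb

/-- a point of the open segment is not an endpoint -/
private lemma a3_open_ne {c d z : Pt} (hcd : c ≠ d) (t : ℝ) (h0 : 0 < t) (h1 : t < 1)
    (hz : z = (1 - t) • c + t • d) : z ≠ c ∧ z ≠ d := by
  constructor
  · intro h
    apply hcd
    rw [h] at hz
    have h2 := congrArg Prod.fst hz
    have h3 := congrArg Prod.snd hz
    simp only [Prod.fst_add, Prod.snd_add, Prod.smul_fst, Prod.smul_snd, smul_eq_mul] at h2 h3
    ext
    · have : t * (c.1 - d.1) = 0 := by linarith
      rcases mul_eq_zero.1 this with h4 | h4 <;> linarith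
    · have : t * (c.2 - d.2) = 0 := by linarith
      rcases mul_eq_zero.1 this with h4 | h4 <;> linarith
  · intro h
    apply hcd
    rw [h] at hz
    have h2 := congrArg Prod.fst hz
    have h3 := congrArg Prod.snd hz
    simp only [Prod.fst_add, Prod.snd_add, Prod.smul_fst, Prod.smul_snd, smul_eq_mul] at h2 h3
    ext
    · have : (1 - t) * (c.1 - d.1) = 0 := by linarith
      rcases mul_eq_zero.1 this with h4 | h4 <;> linarith
    · have : (1 - t) * (c.2 - d.2) = 0 := by linarith
      rcases mul_eq_zero.1 this with h4 | h4 <;> linarith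

/-- the core of the exit argument: a point `z` of the open segment `c d` on one of the two sides
of the cone, while the edge `c d` is not contained in the line of that side. -/
private lemma a3_core {S : Finset Pt} {T : SimpleGraph Pt} (hT : PlaneOn S T) {a b c d : Pt}
    (hab : T.Adj a b) (hcd : T.Adj c d) (t : ℝ) (ht0 : 0 < t) (ht1 : t < 1) (l : ℝ)
    (hl0 : 0 ≤ l) (hl1 : l ≤ 1) (hz : (1 - t) • c + t • d = (1 - l) • a + l • b)
    (hne : ¬ (cr a b c = 0 ∧ cr a b d = 0)) : False := by
  have hsym : s(a, b) ≠ s(c, d) := by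
    intro h
    rw [Sym2.eq_iff] at h
    apply hne
    rcases h with ⟨h1, h2⟩ | ⟨h1, h2⟩
    · rw [← h1, ← h2]; exact ⟨a3_self1 _ _, a3_self2 _ _⟩
    · rw [← h1, ← h2]; exact ⟨a3_self2 _ _, a3_self1 _ _⟩
  have h1 : (1 - t) • c + t • d ∈ segment ℝ c d := by
    rw [segment_eq_image]; exact ⟨t, ⟨ht0.le, ht1.le⟩, rfl⟩
  have h2 : (1 - t) • c + t • d ∈ segment ℝ a b := by
    rw [segment_eq_image]; exact ⟨l, ⟨hl0, hl1⟩, hz.symm⟩
  have h3 := (hT.disj a b c d hab hcd hsym _ h2 h1).2
  have h4 := a3_open_ne hcd.ne t ht0 ht1 rfl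
  rcases h3 with h3 | h3
  · exact h4.1 h3
  · exact h4.2 h3

/-- exit lemma -/
private lemma a3_exit {S : Finset Pt} {T : SimpleGraph Pt} (hT : PlaneOn S T) {u v w c d q : Pt}
    (huv : T.Adj u v) (huw : T.Adj u w) (h : 0 < cr u v w) (hcd : T.Adj c d) (s : ℝ)
    (hs0 : 0 ≤ s) (hs1 : s < 1) (hq : q = (1 - s) • c + s • d) (h1 : 0 < cr u v q)
    (h2 : 0 < cr w u q) (h3 : 0 ≤ cr v w q) (h4 : 0 < cr v w d)
    (h5 : cr u v d < 0 ∨ cr w u d < 0) : False := by
  -- `t` is the first parameter
  obtain ⟨t, ht0, ht1, ha, hb, hab⟩ : ∃ t : ℝ, 0 < t ∧ t < 1 ∧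
      0 ≤ (1 - t) * cr u v q + t * cr u v d ∧ 0 ≤ (1 - t) * cr w u q + t * cr w u d ∧
      ((1 - t) * cr u v q + t * cr u v d = 0 ∨ (1 - t) * cr w u q + t * cr w u d = 0) := by
    have key : ∀ x y : ℝ, 0 < x → y < 0 → 0 < x / (x - y) ∧ x / (x - y) < 1 ∧
        (1 - x / (x - y)) * x + x / (x - y) * y = 0 := by
      intro x y hx hy
      have hxy : 0 < x - y := by linarith
      refine ⟨div_pos hx hxy, (div_lt_one hxy).2 (by linarith), ?_⟩
      field_simp
      ring
    have mono : ∀ x y t t' : ℝ, 0 < x → 0 ≤ t → t ≤ t' → t' ≤ 1 → (1 - t') * x + t' * y = 0 →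
        0 ≤ (1 - t) * x + t * y := by
      intro x y t t' hx h0 htt ht' he
      rcases eq_or_lt_of_le h0 with h6 | h6
      · rw [← h6]; simp; exact hx.le
      have ht'0 : 0 < t' := lt_of_lt_of_le h6 htt
      have hy : y ≤ 0 := by
        by_contra hy
        push Not at hy
        nlinarith [mul_pos ht'0 hy, mul_nonneg (sub_nonneg.2 ht') hx.le]
      nlinarith [mul_nonneg (sub_nonneg.2 htt) hx.le,
        mul_nonneg (sub_nonneg.2 htt) (neg_nonneg.2 hy)]
    have pos : ∀ x y t : ℝ, 0 < x → 0 ≤ y → 0 ≤ t → t ≤ 1 → 0 ≤ (1 - t) * x + t * y := by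
      intro x y t hx hy h0 h1
      have := mul_nonneg (sub_nonneg.2 h1) hx.le
      have := mul_nonneg h0 hy
      linarith
    by_cases hA : cr u v d < 0
    · obtain ⟨k1, k2, k3⟩ := key _ _ h1 hA
      by_cases hB : cr w u d < 0
      · obtain ⟨m1, m2, m3⟩ := key _ _ h2 hB
        rcases le_total (cr u v q / (cr u v q - cr u v d)) (cr w u q / (cr w u q - cr w u d))
          with h6 | h6
        · exact ⟨_, k1, k2, k3.ge, mono _ _ _ _ h2 k1.le h6 m2.le m3, Or.inl k3⟩
        · exact ⟨_, m1, m2, mono _ _ _ _ h1 m1.le h6 k2.le k3, m3.ge, Or.inr m3⟩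
      · exact ⟨_, k1, k2, k3.ge, pos _ _ _ h2 (not_lt.1 hB) k1.le k2.le, Or.inl k3⟩
    · have hB : cr w u d < 0 := h5.resolve_left hA
      obtain ⟨m1, m2, m3⟩ := key _ _ h2 hB
      exact ⟨_, m1, m2, pos _ _ _ h1 (not_lt.1 hA) m1.le m2.le, m3.ge, Or.inr m3⟩
  set z : Pt := (1 - t) • q + t • d with hz
  have hza : cr u v z = (1 - t) * cr u v q + t * cr u v d := a3_combo _ _ _ _ _
  have hzb : cr w u z = (1 - t) * cr w u q + t * cr w u d := a3_combo _ _ _ _ _
  have hzc : cr v w z = (1 - t) * cr v w q + t * cr v w d := a3_combo _ _ _ _ _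
  have hzc0 : 0 < cr v w z := by
    rw [hzc]
    have := mul_nonneg (sub_nonneg.2 ht1.le) h3
    have := mul_pos ht0 h4
    linarith
  -- `z` in the open segment `c d`
  have hz' : (1 - (s + t - s * t)) • c + (s + t - s * t) • d = z := by
    rw [hz, hq]
    ext
    · simp only [Prod.fst_add, Prod.smul_fst, smul_eq_mul]; ring
    · simp only [Prod.snd_add, Prod.smul_snd, smul_eq_mul]; ring
  have hr0 : 0 < s + t - s * t := by nlinarith
  have hr1 : s + t - s * t < 1 := by nlinarith [mul_pos (sub_pos.2 hs1) (sub_pos.2 ht1)]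
  have hsum := a3_sum u v w z
  rw [← hza] at ha hab
  rw [← hzb] at hb hab
  have hle1 : cr w u z / cr u v w ≤ 1 := (div_le_one h).2 (by linarith)
  have hle2 : cr u v z / cr u v w ≤ 1 := (div_le_one h).2 (by linarith)
  rcases hab with hab | hab
  · refine a3_core hT huv hcd _ hr0 hr1 (cr w u z / cr u v w) (div_nonneg hb h.le) hle1 ?_ ?_
    · rw [hz']; exact a3_side1 h hab
    · rintro ⟨h6, h7⟩
      rw [hq, a3_combo, h6, h7] at h1
      simp at h1
  · refine a3_core hT huw hcd _ hr0 hr1 (cr u v z / cr u v w) (div_nonneg ha h.le) hle2 ?_ ?_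
    · rw [hz']; exact a3_side2 h hab
    · rintro ⟨h6, h7⟩
      have h8 : ∀ p, cr w u p = - cr u w p := by intro p; simp only [cr]; ring
      rw [hq, a3_combo, h8, h8, h6, h7] at h2
      simp at h2

/-- Two angularly consecutive neighbours at an angle less than `π` span a face. -/
theorem IsTri.angular {S : Finset Pt} {T : SimpleGraph Pt} (hT : IsTri S T) {u v w : Pt}
    (huv : T.Adj u v) (huw : T.Adj u w) (h : 0 < cr u v w)
    (hno : ∀ x, T.Adj u x → ¬ (0 < cr u v x ∧ 0 < cr u x w)) : Face S T u v w := by
  have huS : u ∈ S := hT.1.mem u v huv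
  have hvS : v ∈ S := hT.1.mem v u huv.symm
  have hwS : w ∈ S := hT.1.mem w u huw.symm
  have hrot : ∀ x, cr w u x = cr u x w := fun x => (a3_rot w u x).symm
  have hcu : cr v w u = cr u v w := a3_rot u v w
  have hwu : cr w u v = cr u v w := by rw [hrot]
  -- Step 1
  have step1 : ∀ p ∈ S, InTri u v w p → p = u ∨ p = v ∨ p = w := by
    by_contra hcon
    push Not at hcon
    obtain ⟨p0, hp0S, hp0T, hp0u, hp0v, hp0w⟩ := hcon
    set Q : Finset Pt := S.filter (fun p => InTri u v w p ∧ p ≠ u ∧ p ≠ v ∧ p ≠ w) with hQ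
    have hQne : Q.Nonempty := ⟨p0, by
      rw [hQ, Finset.mem_filter]; exact ⟨hp0S, hp0T, hp0u, hp0v, hp0w⟩⟩
    obtain ⟨q, hqQ, hqmax⟩ := Finset.exists_max_image Q (fun p => cr v w p) hQne
    rw [hQ, Finset.mem_filter] at hqQ
    obtain ⟨hqS, hqT, hqu, hqv, hqw⟩ := hqQ
    obtain ⟨hq1, hq2, hq3⟩ := hqT
    have hsum := a3_sum u v w q
    have hqa : 0 < cr u v q := by
      rcases eq_or_lt_of_le hq1 with h6 | h6
      · exfalso
        have h7 := a3_side1 h h6.symm
        have hl0 : 0 ≤ cr w u q / cr u v w := div_nonneg hq3 h.le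
        have hl1 : cr w u q / cr u v w ≤ 1 := (div_le_one h).2 (by linarith)
        have hl0' : cr w u q / cr u v w ≠ 0 := by
          intro h8; rw [h8] at h7; apply hqu; rw [h7]; simp
        have hl1' : cr w u q / cr u v w ≠ 1 := by
          intro h8; rw [h8] at h7; apply hqv; rw [h7]; simp
        apply hT.1.empty u v huv q hqS
        rw [openSegment_eq_image]
        exact ⟨_, ⟨lt_of_le_of_ne hl0 hl0'.symm, lt_of_le_of_ne hl1 hl1'⟩, h7.symm⟩
      · exact h6
    have hqb : 0 < cr w u q := by
      rcases eq_or_lt_of_le hq3 with h6 | h6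
      · exfalso
        have h7 := a3_side2 h h6.symm
        have hl0 : 0 ≤ cr u v q / cr u v w := div_nonneg hq1 h.le
        have hl1 : cr u v q / cr u v w ≤ 1 := (div_le_one h).2 (by linarith)
        have hl0' : cr u v q / cr u v w ≠ 0 := by
          intro h8; rw [h8] at h7; apply hqu; rw [h7]; simp
        have hl1' : cr u v q / cr u v w ≠ 1 := by
          intro h8; rw [h8] at h7; apply hqw; rw [h7]; simp
        apply hT.1.empty u w huw q hqS
        rw [openSegment_eq_image]
        exact ⟨_, ⟨lt_of_le_of_ne hl0 hl0'.symm, lt_of_le_of_ne hl1 hl1'⟩, h7.symm⟩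
      · exact h6
    have hlin : ∀ p : Pt, cr v w p = lin (-(w.2 - v.2), w.1 - v.1) p -
        lin (-(w.2 - v.2), w.1 - v.1) v := by
      intro p; unfold cr lin; ring
    obtain ⟨r, hqr, hr⟩ := hT.exists_nbr hqS (-(w.2 - v.2), w.1 - v.1) ⟨u, huS, by
      have h6 := hlin u
      have h7 := hlin q
      linarith⟩
    have hr' : cr v w q < cr v w r := by
      have h6 := hlin r
      have h7 := hlin q
      linarith
    have hr0 : 0 < cr v w r := lt_of_le_of_lt hq2 hr'
    have hrS : r ∈ S := hT.1.mem r q hqr.symm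
    by_cases hin : InTri u v w r
    · have hrv : r ≠ v := by
        intro h6; rw [h6, a3_self1] at hr0; exact lt_irrefl _ hr0
      have hrw : r ≠ w := by
        intro h6; rw [h6, a3_self2] at hr0; exact lt_irrefl _ hr0
      by_cases hru : r = u
      · rw [hru] at hqr
        apply hno q hqr.symm
        rw [← hrot]
        exact ⟨hqa, hqb⟩
      · have : r ∈ Q := by
          rw [hQ, Finset.mem_filter]; exact ⟨hrS, hin, hru, hrv, hrw⟩
        exact absurd hr' (not_lt.2 (hqmax r this))
    · have h5 : cr u v r < 0 ∨ cr w u r < 0 := by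
        by_contra hcon
        push Not at hcon
        exact hin ⟨hcon.1, hr0.le, hcon.2⟩
      exact a3_exit hT.1 huv huw h hqr 0 le_rfl one_pos (by simp) hqa hqb hq2 hr0 h5
  -- Step 2
  have hvw : T.Adj v w := by
    by_contra hn
    have hne : v ≠ w := by
      intro h6; rw [h6, a3_self2] at h; exact lt_irrefl _ h
    have he : ∀ p ∈ S, p ∉ openSegment ℝ v w := by
      intro p hpS hp
      rw [openSegment_eq_image] at hp
      obtain ⟨t, ⟨ht0, ht1⟩, ht⟩ := hp
      simp only at ht
      have e1 : cr u v p = t * cr u v w := by rw [← ht, a3_combo, a3_self2]; ring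
      have e2 : cr w u p = (1 - t) * cr u v w := by
        rw [← ht, a3_combo, a3_self1, hwu]; ring
      have e3 : cr v w p = 0 := by rw [← ht, a3_combo, a3_self1, a3_self2]; ring
      have p1 : 0 < cr u v p := by rw [e1]; exact mul_pos ht0 h
      have p2 : 0 < cr w u p := by rw [e2]; exact mul_pos (sub_pos.2 ht1) h
      rcases step1 p hpS ⟨p1.le, e3.ge, p2.le⟩ with h6 | h6 | h6
      · rw [h6, hcu] at e3; linarith
      · rw [h6, a3_self2] at p1; exact lt_irrefl _ p1
      · rw [h6, a3_self1] at p2; exact lt_irrefl _ p2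
    obtain ⟨c, d, hcd, hc, hd, hx⟩ := hT.exists_crossing hvS hwS hne he hn
    have hdiff : cr v w c - cr v w d = cr c d w - cr c d v := by simp only [cr]; ring
    have hW : 0 < cr v w c - cr v w d := by linarith
    have hC : cr c d v < 0 := by
      by_contra hcon
      push Not at hcon
      have h4 : 0 < cr c d w := by linarith
      nlinarith
    have hD : 0 < cr c d w := by
      by_contra hcon
      push Not at hcon
      nlinarith
    set s : ℝ := cr v w c / (cr v w c - cr v w d) with hs
    set t : ℝ := (-cr c d v) / (cr v w c - cr v w d) with ht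
    have hs0 : 0 < s := div_pos hc hW
    have hs1 : s < 1 := (div_lt_one hW).2 (by linarith)
    have ht0 : 0 < t := div_pos (by linarith) hW
    have ht1 : t < 1 := (div_lt_one hW).2 (by linarith)
    set z : Pt := (1 - s) • c + s • d with hz
    have hz2 : z = (1 - t) • v + t • w := by
      have hWne := hW.ne'
      have e1 : 1 - s = (-cr v w d) / (cr v w c - cr v w d) := by
        rw [hs]; field_simp; ring
      have e2 : 1 - t = cr c d w / (cr v w c - cr v w d) := by
        rw [ht, eq_div_iff hWne, sub_mul, div_mul_cancel₀ _ hWne]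
        linarith
      rw [hz, e1, e2, hs, ht]
      ext
      · simp only [Prod.fst_add, Prod.smul_fst, smul_eq_mul]
        have e3 : (-cr v w d) * c.1 + cr v w c * d.1 = cr c d w * v.1 + (-cr c d v) * w.1 := by
          simp only [cr]
          ring
        rw [div_mul_eq_mul_div, div_mul_eq_mul_div, div_mul_eq_mul_div, div_mul_eq_mul_div,
          ← add_div, ← add_div, e3]
      · simp only [Prod.snd_add, Prod.smul_snd, smul_eq_mul]
        have e3 : (-cr v w d) * c.2 + cr v w c * d.2 = cr c d w * v.2 + (-cr c d v) * w.2 := by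
          simp only [cr]
          ring
        rw [div_mul_eq_mul_div, div_mul_eq_mul_div, div_mul_eq_mul_div, div_mul_eq_mul_div,
          ← add_div, ← add_div, e3]
    have e1 : cr u v z = t * cr u v w := by rw [hz2, a3_combo, a3_self2]; ring
    have e2 : cr w u z = (1 - t) * cr u v w := by
      rw [hz2, a3_combo, a3_self1, hwu]; ring
    have e3 : cr v w z = 0 := by rw [hz2, a3_combo, a3_self1, a3_self2]; ring
    have p1 : 0 < cr u v z := by rw [e1]; exact mul_pos ht0 h
    have p2 : 0 < cr w u z := by rw [e2]; exact mul_pos (sub_pos.2 ht1) h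
    have hcS : c ∈ S := hT.1.mem c d hcd
    by_cases hin : InTri u v w c
    · rcases step1 c hcS hin with h6 | h6 | h6
      · rw [h6] at hz hcd
        have f1 : cr u v z = s * cr u v d := by rw [hz, a3_combo, a3_self1]; ring
        have f2 : cr w u z = s * cr w u d := by rw [hz, a3_combo, a3_self2]; ring
        apply hno d hcd
        rw [← hrot]
        rw [f1] at p1
        rw [f2] at p2
        exact ⟨pos_of_mul_pos_right p1 hs0.le, pos_of_mul_pos_right p2 hs0.le⟩
      · rw [h6, a3_self1] at hc; exact lt_irrefl _ hc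
      · rw [h6, a3_self2] at hc; exact lt_irrefl _ hc
    · have h5 : cr u v c < 0 ∨ cr w u c < 0 := by
        by_contra hcon
        push Not at hcon
        exact hin ⟨hcon.1, hc.le, hcon.2⟩
      refine a3_exit hT.1 huv huw h hcd.symm (1 - s) (by linarith) (by linarith)
        (q := z) ?_ p1 p2 e3.ge hc h5
      rw [hz]
      ext
      · simp only [Prod.fst_add, Prod.smul_fst, smul_eq_mul]; ring
      · simp only [Prod.snd_add, Prod.smul_snd, smul_eq_mul]; ring
  exact ⟨huv, hvw, huw.symm, h, step1⟩

end Pool.Agent.Helper70.MD
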