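import Pool.Agent.Helper70.MD.A3

/-!
MD-A4: basic properties of faces.

`Face.rot`: `cr` and `InTri` are invariant under cyclic rotation.

`Face.cone`: suppose `0 < cr u v x` and `0 < cr u x w`. If `0 ≤ cr v w x` then `x` is in the closed
triangle, so `x = u`, `v` or `w`, each of which contradicts one of the two inequalities. If
`cr v w x < 0`, then the edge `u x` crosses the edge `v w`: apply `not_cross` to
`T.Adj v w`, `T.Adj u x` with `cr v w u > 0`, `cr v w x < 0`, and
`cr u x v * cr u x w = - cr u v x * cr u x w < 0`.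

`Face.unique`: `cr u v w > 0`, `cr u v w' > 0`. If `cr u w w' > 0` then `w` is a neighbour of `u` in the
open cone of the face `u v w'`: contradiction by `cone`; symmetric if `cr u w w' < 0`. If
`cr u w w' = 0` then (both on the left of `u v`) `w' = u + λ (w - u)` with `λ > 0`; `λ < 1` puts `w'`
in the open segment `u w`, `λ > 1` puts `w` in the open segment `u w'`, both excluded by
`hT.empty`; so `w = w'`.

`exists_face`: by `exists_nbr` at `u` with the functional `g = (-(v.2 - u.2), v.1 - u.1)`, for which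
`cr u v p = lin g p - lin g u`, there is a neighbour `x` of `u` with `0 < cr u v x`. The neighbours of
`u` with this property form a finite nonempty set (subset of `S`); choose among them `w` maximising
`((v.1 - u.1) * (x.1 - u.1) + (v.2 - u.2) * (x.2 - u.2)) / cr u v x` (the cotangent of the angle from
`u v`). Then no neighbour `x` of `u` has `0 < cr u v x` and `0 < cr u x w` (this would mean a
strictly larger cotangent), so `angular` gives the face.
-/

set_option autoImplicit false

namespace Pool.Agent.Helper70.MD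

open Finset

open scoped Classical

theorem a4_cr_rot (a b c : Pt) : cr b c a = cr a b c := by
  unfold cr; ring

theorem a4_cr_swap (a b c : Pt) : cr a c b = - cr a b c := by
  unfold cr; ring

theorem Face.rot {S : Finset Pt} {T : SimpleGraph Pt} {u v w : Pt} (h : Face S T u v w) :
    Face S T v w u := by
  refine ⟨h.vw, h.wu, h.uv, ?_, ?_⟩
  · rw [a4_cr_rot]; exact h.pos
  · intro p hp hin
    rcases h.empty p hp ⟨hin.2.2, hin.1, hin.2.1⟩ with h1 | h1 | h1
    · exact Or.inr (Or.inr h1)
    · exact Or.inl h1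
    · exact Or.inr (Or.inl h1)

/-- No edge at `u` enters a face at `u`. -/
theorem Face.cone {S : Finset Pt} {T : SimpleGraph Pt} (hT : PlaneOn S T) {u v w x : Pt}
    (h : Face S T u v w) (hx : T.Adj u x) : ¬ (0 < cr u v x ∧ 0 < cr u x w) := by
  rintro ⟨h1, h2⟩
  have hxS : x ∈ S := hT.mem x u hx.symm
  rcases le_or_gt 0 (cr v w x) with h3 | h3
  · have h4 : 0 ≤ cr w u x := by rw [← a4_cr_rot w u x]; exact h2.le
    rcases h.empty x hxS ⟨h1.le, h3, h4⟩ with h5 | h5 | h5
    · rw [h5] at h1
      simp [cr] at h1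
    · rw [h5] at h1
      have : cr u v v = 0 := by unfold cr; ring
      linarith
    · rw [h5] at h2
      have : cr u w w = 0 := by unfold cr; ring
      linarith
  · have h4 : 0 < cr v w u := by rw [a4_cr_rot]; exact h.pos
    refine hT.not_cross h.vw hx h4 h3 ?_
    have h5 : cr u x v < 0 := by rw [a4_cr_swap]; linarith
    exact mul_neg_of_neg_of_pos h5 h2

theorem Face.unique {S : Finset Pt} {T : SimpleGraph Pt} (hT : PlaneOn S T) {u v w w' : Pt}
    (h : Face S T u v w) (h' : Face S T u v w') : w = w' := by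
  have hw : w ∈ S := hT.mem w u h.wu
  have hw' : w' ∈ S := hT.mem w' u h'.wu
  rcases lt_trichotomy (cr u w w') 0 with h1 | h1 | h1
  · exfalso
    refine Face.cone hT h h'.wu.symm ⟨h'.pos, ?_⟩
    rw [a4_cr_swap]; linarith
  · have hA := h.pos
    have hB := h'.pos
    set A := cr u v w with hAdef
    set B := cr u v w' with hBdef
    have e1 : A * (w'.1 - u.1) = B * (w.1 - u.1) := by
      have : A * (w'.1 - u.1) - B * (w.1 - u.1) = - cr u w w' * (v.1 - u.1) := by
        rw [hAdef, hBdef]; unfold cr; ring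
      rw [h1] at this; linarith
    have e2 : A * (w'.2 - u.2) = B * (w.2 - u.2) := by
      have : A * (w'.2 - u.2) - B * (w.2 - u.2) = - cr u w w' * (v.2 - u.2) := by
        rw [hAdef, hBdef]; unfold cr; ring
      rw [h1] at this; linarith
    rcases lt_trichotomy A B with h2 | h2 | h2
    · exfalso
      refine hT.empty u w' h'.wu.symm w hw ⟨1 - A / B, A / B, ?_, div_pos hA hB, by ring, ?_⟩
      · rw [sub_pos, div_lt_one hB]; exact h2
      · apply Prod.ext
        · simp only [Prod.fst_add, Prod.smul_fst, smul_eq_mul]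
          field_simp
          linarith
        · simp only [Prod.snd_add, Prod.smul_snd, smul_eq_mul]
          field_simp
          linarith
    · apply Prod.ext
      · rw [h2] at e1
        have := mul_left_cancel₀ hB.ne' e1
        linarith
      · rw [h2] at e2
        have := mul_left_cancel₀ hB.ne' e2
        linarith
    · exfalso
      refine hT.empty u w h.wu.symm w' hw' ⟨1 - B / A, B / A, ?_, div_pos hB hA, by ring, ?_⟩
      · rw [sub_pos, div_lt_one hA]; exact h2
      · apply Prod.ext
        · simp only [Prod.fst_add, Prod.smul_fst, smul_eq_mul]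
          field_simp
          linarith
        · simp only [Prod.snd_add, Prod.smul_snd, smul_eq_mul]
          field_simp
          linarith
  · exfalso
    exact Face.cone hT h' h.wu.symm ⟨h.pos, h1⟩

theorem IsTri.exists_face {S : Finset Pt} {T : SimpleGraph Pt} (hT : IsTri S T) {u v : Pt}
    (huv : T.Adj u v) (hp : ∃ p ∈ S, 0 < cr u v p) : ∃ w, Face S T u v w := by
  have hu : u ∈ S := hT.1.mem u v huv
  have hlin : ∀ p : Pt, cr u v p = lin (-(v.2 - u.2), v.1 - u.1) p -
      lin (-(v.2 - u.2), v.1 - u.1) u := by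
    intro p; unfold cr lin; ring
  obtain ⟨p, hpS, hp0⟩ := hp
  obtain ⟨x, hx, hx0⟩ := hT.exists_nbr hu (-(v.2 - u.2), v.1 - u.1)
    ⟨p, hpS, by have := hlin p; linarith⟩
  have hN : (S.filter fun x => T.Adj u x ∧ 0 < cr u v x).Nonempty := by
    refine ⟨x, Finset.mem_filter.mpr ⟨hT.1.mem x u hx.symm, hx, ?_⟩⟩
    rw [hlin]; linarith
  obtain ⟨w, hw, hmax⟩ := Finset.exists_max_image _
    (fun x : Pt => ((v.1 - u.1) * (x.1 - u.1) + (v.2 - u.2) * (x.2 - u.2)) / cr u v x) hN
  rw [Finset.mem_filter] at hw
  refine ⟨w, hT.angular huv hw.2.1 hw.2.2 ?_⟩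
  rintro y hy ⟨h1, h2⟩
  have h3 := hmax y (Finset.mem_filter.mpr ⟨hT.1.mem y u hy.symm, hy, h1⟩)
  rw [div_le_div_iff₀ h1 hw.2.2] at h3
  have hne : 0 < (v.1 - u.1) ^ 2 + (v.2 - u.2) ^ 2 := by
    by_contra hcon
    have a1 : (v.1 - u.1) = 0 := by nlinarith [sq_nonneg (v.1 - u.1), sq_nonneg (v.2 - u.2)]
    have a2 : (v.2 - u.2) = 0 := by nlinarith [sq_nonneg (v.1 - u.1), sq_nonneg (v.2 - u.2)]
    apply huv.ne
    apply Prod.ext
    · linarith
    · linarith
  have h4 : ((v.1 - u.1) * (y.1 - u.1) + (v.2 - u.2) * (y.2 - u.2)) * cr u v w -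
      ((v.1 - u.1) * (w.1 - u.1) + (v.2 - u.2) * (w.2 - u.2)) * cr u v y =
      ((v.1 - u.1) ^ 2 + (v.2 - u.2) ^ 2) * cr u y w := by
    unfold cr; ring
  have h5 := mul_pos hne h2
  linarith

end Pool.Agent.Helper70.MD
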