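import Pool.Agent.Helper70.MD.A4

/-!
MD-A5: the link of a vertex without one direction is a linear forest.

Proof. For `p ≠ u` not in the direction `x` from `u` let `θ p ∈ (0, 2π)` be the counterclockwise angle
from the direction `x - u` to `p - u` (for example through `Complex.arg` of
`(p - u) / (x - u)`, adding `2π` when negative). Choose `p ∈ P` with maximal `θ p`. I claim there is
no `q ∈ P` with `Face S T u p q`. Otherwise `0 < cr u p q`, i.e. `q` is obtained from `p` by a
counterclockwise rotation by an angle in `(0, π)` (and scaling). As `θ q ≤ θ p`, the rotation passes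
the direction `x`, which is neither the direction of `q` (`hdir`) nor of `p`: so
`0 < cr u p x` and `0 < cr u x q`, contradicting `hx`. In formulas: `cr u x p` has the sign of
`sin (θ p)`, `cr u p q` has the sign of `sin (θ q - θ p)`; `-2π < θ q - θ p ≤ 0` and
`sin (θ q - θ p) > 0` force `θ q - θ p < -π`, so `θ q < π` and `θ p > π`, so
`0 < cr u x q` and `0 < cr u p x`.
So the set `{q ∈ P | Face u p q ∨ Face u q p}` equals `{q ∈ P | Face u q p}`, and it has at most one
element: `Face u q p` rotates to `Face p u q`, and `Face.unique` applies (with the edge `p u`).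
-/

set_option autoImplicit false

namespace Pool.Agent.Helper70.MD

open Finset

open scoped Classical

/-- The vector from `u` to `p` in the frame of the direction opposite to `x - u`. -/
def A5.vec (u x p : Pt) : ℂ :=
  ⟨-((x.1 - u.1) * (p.1 - u.1) + (x.2 - u.2) * (p.2 - u.2)), cr u p x⟩

theorem A5.mul_im (u x p q : Pt) :
    (A5.vec u x p).re * (A5.vec u x q).im - (A5.vec u x p).im * (A5.vec u x q).re =
      ((x.1 - u.1) ^ 2 + (x.2 - u.2) ^ 2) * cr u p q := by
  unfold A5.vec cr
  ring

theorem A5.sin_formula (a b : ℂ) :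
    a.re * b.im - a.im * b.re = ‖a‖ * ‖b‖ * Real.sin (b.arg - a.arg) := by
  have h1 := Complex.norm_mul_cos_arg a
  have h2 := Complex.norm_mul_sin_arg a
  have h3 := Complex.norm_mul_cos_arg b
  have h4 := Complex.norm_mul_sin_arg b
  rw [Real.sin_sub, ← h1, ← h2, ← h3, ← h4]
  ring

/-- The link of a vertex without one direction `x` is a linear forest. -/
theorem IsTri.forest {S : Finset Pt} {T : SimpleGraph Pt} (hT : IsTri S T) {u x : Pt} (hxu : x ≠ u)
    (P : Finset Pt) (hP : P.Nonempty) (hadj : ∀ p ∈ P, T.Adj u p)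
    (hx : ∀ p q, Face S T u p q → ¬ (0 < cr u p x ∧ 0 < cr u x q))
    (hdir : ∀ p ∈ P, ¬ (cr u x p = 0 ∧ 0 < (x.1 - u.1) * (p.1 - u.1) + (x.2 - u.2) * (p.2 - u.2))) :
    ∃ p ∈ P, #{q ∈ P | Face S T u p q ∨ Face S T u q p} ≤ 1 := by
  obtain ⟨p, hp, hmax⟩ := Finset.exists_max_image P (fun p => (A5.vec u x p).arg) hP
  have hN : 0 < (x.1 - u.1) ^ 2 + (x.2 - u.2) ^ 2 := by
    by_contra h
    apply hxu
    have h1 := sq_nonneg (x.1 - u.1)
    have h2 := sq_nonneg (x.2 - u.2)
    have h3 : (x.1 - u.1) ^ 2 = 0 := by linarith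
    have h4 : (x.2 - u.2) ^ 2 = 0 := by linarith
    have h5 := pow_eq_zero_iff (two_ne_zero) |>.1 h3
    have h6 := pow_eq_zero_iff (two_ne_zero) |>.1 h4
    exact Prod.ext (by linarith) (by linarith)
  have hpi : ∀ r ∈ P, (A5.vec u x r).arg < Real.pi := by
    intro r hr
    refine lt_of_le_of_ne (Complex.arg_le_pi _) fun h => ?_
    rw [Complex.arg_eq_pi_iff] at h
    apply hdir r hr
    have h1 : (A5.vec u x r).im = -(cr u x r) := by
      unfold A5.vec cr
      ring
    have h2 : (A5.vec u x r).re =
        -((x.1 - u.1) * (r.1 - u.1) + (x.2 - u.2) * (r.2 - u.2)) := rfl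
    rw [h1] at h
    rw [h2] at h
    exact ⟨by linarith [h.2], by linarith [h.1]⟩
  -- no face on the left of the last direction
  have key : ∀ q ∈ P, ¬ Face S T u p q := by
    intro q hq hf
    have h1 := hmax q hq
    have h2 : 0 < ‖A5.vec u x p‖ * ‖A5.vec u x q‖ *
        Real.sin ((A5.vec u x q).arg - (A5.vec u x p).arg) := by
      rw [← A5.sin_formula, A5.mul_im]
      exact mul_pos hN hf.pos
    have hpp := hpi p hp
    have hqq := Complex.neg_pi_lt_arg (A5.vec u x q)
    have h3 : 0 ≤ ‖A5.vec u x p‖ * ‖A5.vec u x q‖ := by positivity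
    have h4 : 0 < Real.sin ((A5.vec u x q).arg - (A5.vec u x p).arg) :=
      pos_of_mul_pos_right h2 h3
    have h5 : (A5.vec u x q).arg - (A5.vec u x p).arg < -Real.pi := by
      by_contra hcon
      push Not at hcon
      have : Real.sin ((A5.vec u x q).arg - (A5.vec u x p).arg) ≤ 0 :=
        Real.sin_nonpos_of_nonpos_of_neg_pi_le (by linarith) hcon
      linarith
    have hp0 : 0 < ‖A5.vec u x p‖ := by
      refine lt_of_le_of_ne (norm_nonneg _) fun h => ?_
      rw [← h, zero_mul, zero_mul] at h2
      exact lt_irrefl _ h2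
    have hq0 : 0 < ‖A5.vec u x q‖ := by
      refine lt_of_le_of_ne (norm_nonneg _) fun h => ?_
      rw [← h, mul_zero, zero_mul] at h2
      exact lt_irrefl _ h2
    apply hx p q hf
    constructor
    · have h6 : cr u p x = ‖A5.vec u x p‖ * Real.sin (A5.vec u x p).arg :=
        (Complex.norm_mul_sin_arg (A5.vec u x p)).symm
      rw [h6]
      exact mul_pos hp0 (Real.sin_pos_of_pos_of_lt_pi (by linarith) hpp)
    · have h6 : cr u x q = -(‖A5.vec u x q‖ * Real.sin (A5.vec u x q).arg) := by
        rw [Complex.norm_mul_sin_arg (A5.vec u x q)]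
        unfold A5.vec cr
        ring
      have h7 : Real.sin (A5.vec u x q).arg < 0 :=
        Real.sin_neg_of_neg_of_neg_pi_lt (by linarith) hqq
      rw [h6]
      have := mul_pos hq0 (neg_pos.2 h7)
      linarith
  refine ⟨p, hp, Finset.card_le_one.2 fun q hq r hr => ?_⟩
  rw [Finset.mem_filter] at hq hr
  have h1 : Face S T u q p := hq.2.resolve_left (key q hq.1)
  have h2 : Face S T u r p := hr.2.resolve_left (key r hr.1)
  exact Face.unique hT.1 h1.rot.rot h2.rot.rot

end Pool.Agent.Helper70.MD
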