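import Pool.Agent.Helper70.MD.A4

/-!
MD-A6: Euler's formula and connectedness.

Generic functional: there is `g` such that `lin g` is injective on `S` (take `g = (1, ε)` where `ε`
avoids the finitely many values `-(p.1 - q.1) / (p.2 - q.2)`).

Euler's formula. Write `h = lin g`. For `v ∈ S` let `L v` be the set of neighbours `p` of `v` with
`h p < h v`. Any two different `p, q ∈ L v` have `cr v p q ≠ 0` (both directions are in an open
half-plane, and two neighbours of `v` in the same direction contradict `hT.1.empty`), and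
`p ≺ q :⟺ 0 < cr v p q` is a strict linear order on `L v` (angles in an open half-plane; for example
through the strictly monotone function `p ↦ lin g' (p - v) / (h v - h p)` for `g'` orthogonal to
`g`). For `p ∈ L v` which is not the last element let `q` be the next element: `Face S T v p q` by
`angular` (a neighbour `x` of `v` with `0 < cr v p x` and `0 < cr v x q` is in the convex cone
spanned by `p` and `q`, hence `x ∈ L v`, strictly between). Conversely if `Face S T v p q` with
`p, q ∈ L v` then `p` is not the last. So the number of `p ∈ L v` with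
`∃ q, Face S T v p q ∧ h q < h v` is `#(L v) - 1` (zero if `L v` is empty). For every `v ∈ S` which is
not the point with the smallest `h`, `L v` is nonempty by `exists_nbr` (functional `-g`).
Each directed edge `(a,b)` with a face `a b c` on its left (`c` is unique by `Face.unique`) belongs
to exactly one of three classes: the maximum of `h` on `a, b, c` is attained at `a`, `b` or `c`. By
rotation all three classes have the same number of elements `N`, so `d3 = 3 N`, and
`N = ∑ v ∈ S, #{p ∈ L v | ∃ q, Face S T v p q ∧ h q < h v} = ∑ v ∈ S, #(L v) - (#S - 1)`. Finally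
`e2 = 2 ∑ v ∈ S, #(L v)` (each edge has exactly one upper endpoint). Hence
`6 #S + 2 d3 = 6 #S + 6 (∑ #(L v) - #S + 1) = 6 + 6 ∑ #(L v) = 6 + 3 e2`.

Connectedness: every point of `S` which does not maximise `h` on `S` has a neighbour with larger `h`
(`exists_nbr`), with the same value of `f`; by induction (for example on the number of points with
larger `h`) `f v = f m` where `m` is the maximum point.
-/

set_option autoImplicit false

namespace Pool.Agent.Helper70.MD

open Finset

open scoped Classical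

/-- A functional which is injective on `S`. -/
theorem a6_generic (S : Finset Pt) :
    ∃ g : Pt, 0 < g.1 ^ 2 + g.2 ^ 2 ∧ ∀ p ∈ S, ∀ q ∈ S, lin g p = lin g q → p = q := by
  obtain ⟨ε, hε⟩ := Infinite.exists_notMem_finset
    ((S ×ˢ S).image (fun x : Pt × Pt => -(x.1.1 - x.2.1) / (x.1.2 - x.2.2)))
  refine ⟨(1, ε), ?_, ?_⟩
  · simp only
    positivity
  · intro p hp q hq h
    unfold lin at h
    simp only [one_mul] at h
    by_cases h2 : p.2 = q.2
    · rw [h2] at h
      apply Prod.ext
      · linarith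
      · exact h2
    · exfalso
      apply hε
      rw [mem_image]
      refine ⟨(p, q), mem_product.2 ⟨hp, hq⟩, ?_⟩
      have h3 : p.2 - q.2 ≠ 0 := sub_ne_zero.2 h2
      simp only
      rw [div_eq_iff h3]
      linarith

/-- The lower neighbours. -/
noncomputable def a6L (S : Finset Pt) (T : SimpleGraph Pt) (g v : Pt) : Finset Pt :=
  {p ∈ S | T.Adj v p ∧ lin g p < lin g v}

/-- The angular coordinate of the lower neighbours. -/
noncomputable def a6phi (g v p : Pt) : ℝ :=
  (g.2 * (p.1 - v.1) - g.1 * (p.2 - v.2)) / (lin g v - lin g p)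

theorem a6_phi_mul {g v p : Pt} (hp : lin g p < lin g v) :
    a6phi g v p * (lin g v - lin g p) = g.2 * (p.1 - v.1) - g.1 * (p.2 - v.2) := by
  unfold a6phi
  rw [div_mul_cancel₀]
  linarith

theorem a6_phi_eq {g v p q : Pt} (hp : lin g p < lin g v) (hq : lin g q < lin g v) :
    (g.1 ^ 2 + g.2 ^ 2) * cr v p q =
      (lin g v - lin g p) * (lin g v - lin g q) * (a6phi g v q - a6phi g v p) := by
  have h1 := a6_phi_mul hp
  have h2 := a6_phi_mul hq
  have h3 : (lin g v - lin g p) * (lin g v - lin g q) * (a6phi g v q - a6phi g v p) =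
      (lin g v - lin g p) * (a6phi g v q * (lin g v - lin g q)) -
      (lin g v - lin g q) * (a6phi g v p * (lin g v - lin g p)) := by ring
  rw [h3, h1, h2]
  unfold lin cr
  ring

theorem a6_pos {g v p q : Pt} (hg : 0 < g.1 ^ 2 + g.2 ^ 2) (hp : lin g p < lin g v)
    (hq : lin g q < lin g v) : 0 < cr v p q ↔ a6phi g v p < a6phi g v q := by
  have h := a6_phi_eq hp hq
  have h1 : 0 < (lin g v - lin g p) * (lin g v - lin g q) :=
    mul_pos (by linarith) (by linarith)
  constructor
  · intro hc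
    by_contra hcon
    push Not at hcon
    have h2 := mul_pos hg hc
    rw [h] at h2
    have h3 : (lin g v - lin g p) * (lin g v - lin g q) * (a6phi g v q - a6phi g v p) ≤ 0 :=
      mul_nonpos_of_nonneg_of_nonpos h1.le (by linarith)
    linarith
  · intro hc
    have h2 : 0 < (g.1 ^ 2 + g.2 ^ 2) * cr v p q := by
      rw [h]
      exact mul_pos h1 (by linarith)
    exact pos_of_mul_pos_right (by linarith) hg.le

theorem a6_seg {a b : ℝ} {v p q : Pt} (ha : 0 < a) (hab : a < b)
    (h1 : b * (p.1 - v.1) = a * (q.1 - v.1)) (h2 : b * (p.2 - v.2) = a * (q.2 - v.2)) :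
    p ∈ openSegment ℝ v q := by
  have hb : 0 < b := ha.trans hab
  refine ⟨1 - a / b, a / b, ?_, div_pos ha hb, by ring, ?_⟩
  · rw [sub_pos, div_lt_one hb]; exact hab
  · apply Prod.ext
    · simp only [Prod.fst_add, Prod.smul_fst, smul_eq_mul]
      field_simp
      linarith
    · simp only [Prod.snd_add, Prod.smul_snd, smul_eq_mul]
      field_simp
      linarith

theorem a6_inj {S : Finset Pt} {T : SimpleGraph Pt} (hT : PlaneOn S T) {g v p q : Pt}
    (hg : 0 < g.1 ^ 2 + g.2 ^ 2) (hp : p ∈ a6L S T g v) (hq : q ∈ a6L S T g v)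
    (h : a6phi g v p = a6phi g v q) : p = q := by
  rw [a6L, mem_filter] at hp hq
  obtain ⟨hpS, hpa, hpl⟩ := hp
  obtain ⟨hqS, hqa, hql⟩ := hq
  have h1 := a6_phi_mul hpl
  have h2 := a6_phi_mul hql
  set a := lin g v - lin g p with ha
  set b := lin g v - lin g q with hb
  have ha0 : 0 < a := by linarith
  have hb0 : 0 < b := by linarith
  have e1 : g.1 * (b * (p.1 - v.1) - a * (q.1 - v.1)) +
      g.2 * (b * (p.2 - v.2) - a * (q.2 - v.2)) = 0 := by
    have : g.1 * (b * (p.1 - v.1) - a * (q.1 - v.1)) +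
      g.2 * (b * (p.2 - v.2) - a * (q.2 - v.2)) =
      - b * (lin g v - lin g p) + a * (lin g v - lin g q) := by
      unfold lin; ring
    rw [this, ← ha, ← hb]
    ring
  have e2 : g.2 * (b * (p.1 - v.1) - a * (q.1 - v.1)) -
      g.1 * (b * (p.2 - v.2) - a * (q.2 - v.2)) = 0 := by
    have : g.2 * (b * (p.1 - v.1) - a * (q.1 - v.1)) -
      g.1 * (b * (p.2 - v.2) - a * (q.2 - v.2)) =
      b * (g.2 * (p.1 - v.1) - g.1 * (p.2 - v.2)) -
      a * (g.2 * (q.1 - v.1) - g.1 * (q.2 - v.2)) := by ring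
    rw [this, ← h1, ← h2, h]
    ring
  set X := b * (p.1 - v.1) - a * (q.1 - v.1) with hX
  set Y := b * (p.2 - v.2) - a * (q.2 - v.2) with hY
  have e3 : (g.1 ^ 2 + g.2 ^ 2) * X = 0 := by
    have : (g.1 ^ 2 + g.2 ^ 2) * X = g.1 * (g.1 * X + g.2 * Y) + g.2 * (g.2 * X - g.1 * Y) := by
      ring
    rw [this, e1, e2]; ring
  have e4 : (g.1 ^ 2 + g.2 ^ 2) * Y = 0 := by
    have : (g.1 ^ 2 + g.2 ^ 2) * Y = g.2 * (g.1 * X + g.2 * Y) - g.1 * (g.2 * X - g.1 * Y) := by
      ring
    rw [this, e1, e2]; ring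
  have e5 : X = 0 := (mul_eq_zero.1 e3).resolve_left hg.ne'
  have e6 : Y = 0 := (mul_eq_zero.1 e4).resolve_left hg.ne'
  rcases lt_trichotomy a b with h3 | h3 | h3
  · exact absurd (a6_seg ha0 h3 (by linarith) (by linarith)) (hT.empty v q hqa p hpS)
  · rw [h3] at hX hY
    rw [e5] at hX
    rw [e6] at hY
    have f1 : b * (p.1 - q.1) = 0 := by linarith
    have f2 : b * (p.2 - q.2) = 0 := by linarith
    have f3 := (mul_eq_zero.1 f1).resolve_left hb0.ne'
    have f4 := (mul_eq_zero.1 f2).resolve_left hb0.ne'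
    exact Prod.ext (by linarith) (by linarith)
  · exact absurd (a6_seg hb0 h3 (by linarith) (by linarith)) (hT.empty v p hpa q hqS)

/-- The number of faces below `v`. -/
theorem a6_fiber {S : Finset Pt} {T : SimpleGraph Pt} (hT : IsTri S T) {g v : Pt}
    (hg : 0 < g.1 ^ 2 + g.2 ^ 2) (hne : (a6L S T g v).Nonempty) :
    #{p ∈ a6L S T g v | ∃ q, Face S T v p q ∧ lin g q < lin g v} + 1 = #(a6L S T g v) := by
  obtain ⟨m, hm, hmax⟩ := Finset.exists_max_image (a6L S T g v) (a6phi g v) hne
  have hset : ({p ∈ a6L S T g v | ∃ q, Face S T v p q ∧ lin g q < lin g v} : Finset Pt) =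
      (a6L S T g v).erase m := by
    ext p
    rw [mem_filter, mem_erase]
    constructor
    · rintro ⟨hp, q, hq, hql⟩
      refine ⟨?_, hp⟩
      rintro rfl
      have hqL : q ∈ a6L S T g v := by
        rw [a6L, mem_filter]
        exact ⟨hT.1.mem q v hq.wu, hq.wu.symm, hql⟩
      have h1 := hmax q hqL
      rw [a6L, mem_filter] at hp
      have h2 := (a6_pos hg hp.2.2 hql).1 hq.pos
      linarith
    · rintro ⟨hpm, hp⟩
      refine ⟨hp, ?_⟩
      have hlt : a6phi g v p < a6phi g v m := by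
        rcases lt_or_eq_of_le (hmax p hp) with h | h
        · exact h
        · exact absurd (a6_inj hT.1 hg hp hm h) hpm
      obtain ⟨q, hq, hmin⟩ := Finset.exists_min_image
        ((a6L S T g v).filter (fun x => a6phi g v p < a6phi g v x)) (a6phi g v)
        ⟨m, mem_filter.2 ⟨hm, hlt⟩⟩
      rw [mem_filter] at hq
      obtain ⟨hqL, hpq⟩ := hq
      have hp' := hp
      have hq' := hqL
      rw [a6L, mem_filter] at hp' hq'
      refine ⟨q, hT.angular hp'.2.1 hq'.2.1 ((a6_pos hg hp'.2.2 hq'.2.2).2 hpq) ?_, hq'.2.2⟩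
      rintro x hx ⟨h1, h2⟩
      have hpos := (a6_pos hg hp'.2.2 hq'.2.2).2 hpq
      have hid : cr v p q * (lin g v - lin g x) =
          cr v x q * (lin g v - lin g p) + cr v p x * (lin g v - lin g q) := by
        unfold cr lin; ring
      have h3 : 0 < cr v p q * (lin g v - lin g x) := by
        rw [hid]
        have a1 := mul_pos h2 (show 0 < lin g v - lin g p by linarith [hp'.2.2])
        have a2 := mul_pos h1 (show 0 < lin g v - lin g q by linarith [hq'.2.2])
        linarith
      have h4 : 0 < lin g v - lin g x := pos_of_mul_pos_right h3 hpos.le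
      have h5 : lin g x < lin g v := by linarith
      have hxL : x ∈ a6L S T g v := by
        rw [a6L, mem_filter]
        exact ⟨hT.1.mem x v hx.symm, hx, h5⟩
      have h6 := (a6_pos hg hp'.2.2 h5).1 h1
      have h7 := (a6_pos hg h5 hq'.2.2).1 h2
      have h8 := hmin x (mem_filter.2 ⟨hxL, h6⟩)
      linarith
  rw [hset, card_erase_of_mem hm]
  have := card_pos.2 hne
  omega

/-- Directed edges. -/
theorem a6_e2 {S : Finset Pt} {T : SimpleGraph Pt} {g : Pt}
    (hinj : ∀ p ∈ S, ∀ q ∈ S, lin g p = lin g q → p = q) :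
    e2 S T = 2 * ∑ v ∈ S, #(a6L S T g v) := by
  have h1 : ∀ v, #(a6L S T g v) = ∑ p ∈ S, if (T.Adj v p ∧ lin g p < lin g v) then 1 else 0 := by
    intro v
    rw [a6L, card_filter]
  have h2 : e2 S T = ∑ v ∈ S, ∑ p ∈ S, if T.Adj v p then 1 else 0 := by
    rw [e2, card_filter, sum_product]
  have h3 : e2 S T = ∑ v ∈ S, ∑ p ∈ S, ((if (T.Adj v p ∧ lin g p < lin g v) then 1 else 0) +
      (if (T.Adj v p ∧ lin g v < lin g p) then 1 else 0)) := by
    rw [h2]
    refine sum_congr rfl fun v hv => sum_congr rfl fun p hp => ?_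
    by_cases hA : T.Adj v p
    · rcases lt_trichotomy (lin g p) (lin g v) with h | h | h
      · simp [hA, h, not_lt.2 h.le]
      · exact absurd (hinj _ hv _ hp h.symm) hA.ne
      · simp [hA, h, not_lt.2 h.le]
    · simp [hA]
  have h4 : (∑ v ∈ S, ∑ p ∈ S, if (T.Adj v p ∧ lin g v < lin g p) then 1 else 0) =
      ∑ v ∈ S, ∑ p ∈ S, if (T.Adj v p ∧ lin g p < lin g v) then 1 else 0 := by
    rw [sum_comm]
    refine sum_congr rfl fun v hv => sum_congr rfl fun p hp => ?_
    rw [T.adj_comm]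
  rw [h3]
  simp only [sum_add_distrib]
  rw [h4]
  simp only [h1]
  ring

/-- Faces as triples. -/
noncomputable def a6F (S : Finset Pt) (T : SimpleGraph Pt) (P : Pt → Pt → Pt → Prop) :
    Finset (Pt × Pt × Pt) :=
  {t ∈ S ×ˢ (S ×ˢ S) | Face S T t.1 t.2.1 t.2.2 ∧ P t.1 t.2.1 t.2.2}

theorem a6_F_mem {S : Finset Pt} {T : SimpleGraph Pt} (hT : PlaneOn S T)
    {P : Pt → Pt → Pt → Prop} {t : Pt × Pt × Pt} :
    t ∈ a6F S T P ↔ Face S T t.1 t.2.1 t.2.2 ∧ P t.1 t.2.1 t.2.2 := by
  rw [a6F, mem_filter, mem_product, mem_product]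
  constructor
  · intro h
    exact h.2
  · intro h
    exact ⟨⟨hT.mem _ _ h.1.uv, hT.mem _ _ h.1.vw, hT.mem _ _ h.1.wu⟩, h⟩

theorem a6_F_rot {S : Finset Pt} {T : SimpleGraph Pt} (hT : PlaneOn S T)
    (P : Pt → Pt → Pt → Prop) : #(a6F S T P) = #(a6F S T (fun a b c => P c a b)) := by
  refine card_nbij' (fun t => (t.2.1, t.2.2, t.1)) (fun t => (t.2.2, t.1, t.2.1)) ?_ ?_ ?_ ?_
  · intro t ht
    rw [mem_coe, a6_F_mem hT] at ht ⊢
    exact ⟨ht.1.rot, ht.2⟩
  · intro t ht
    rw [mem_coe, a6_F_mem hT] at ht ⊢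
    exact ⟨ht.1.rot.rot, ht.2⟩
  · intro t _
    rfl
  · intro t _
    rfl

theorem a6_F_left {S : Finset Pt} {T : SimpleGraph Pt} (hT : PlaneOn S T)
    (P : Pt → Pt → Pt → Prop) :
    #{x ∈ S ×ˢ S | ∃ w, Face S T x.1 x.2 w ∧ P x.1 x.2 w} = #(a6F S T P) := by
  symm
  refine card_nbij (fun t => (t.1, t.2.1)) ?_ ?_ ?_
  · intro t ht
    rw [mem_coe, a6_F_mem hT] at ht
    rw [mem_coe, mem_filter, mem_product]
    exact ⟨⟨hT.mem _ _ ht.1.uv, hT.mem _ _ ht.1.vw⟩, t.2.2, ht⟩
  · rintro ⟨a, b, c⟩ h1 ⟨a', b', c'⟩ h2 h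
    rw [mem_coe, a6_F_mem hT] at h1 h2
    simp only [Prod.mk.injEq] at h
    obtain ⟨rfl, rfl⟩ := h
    have := Face.unique hT h1.1 h2.1
    simp only at this
    rw [this]
  · rintro ⟨a, b⟩ h
    rw [mem_coe, mem_filter, mem_product] at h
    obtain ⟨_, w, hw⟩ := h
    refine ⟨(a, b, w), ?_, rfl⟩
    rw [mem_coe, a6_F_mem hT]
    exact hw

/-- Faces with the first vertex at the top. -/
theorem a6_top {S : Finset Pt} {T : SimpleGraph Pt} (hT : PlaneOn S T) (g : Pt) :
    #(a6F S T (fun a b c => lin g b < lin g a ∧ lin g c < lin g a)) =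
      ∑ v ∈ S, #{p ∈ a6L S T g v | ∃ q, Face S T v p q ∧ lin g q < lin g v} := by
  rw [← a6_F_left hT, card_filter, sum_product]
  refine sum_congr rfl fun v hv => ?_
  rw [← card_filter]
  congr 1
  ext p
  rw [mem_filter, mem_filter, a6L, mem_filter]
  constructor
  · rintro ⟨h1, w, h2, h3, h4⟩
    exact ⟨⟨h1, h2.uv, h3⟩, w, h2, h4⟩
  · rintro ⟨⟨h1, _, h3⟩, w, h2, h4⟩
    exact ⟨h1, w, h2, h3, h4⟩

/-- The number of faces. -/
theorem a6_d3 {S : Finset Pt} {T : SimpleGraph Pt} (hT : PlaneOn S T) {g : Pt}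
    (hinj : ∀ p ∈ S, ∀ q ∈ S, lin g p = lin g q → p = q) :
    d3 S T = 3 * ∑ v ∈ S, #{p ∈ a6L S T g v | ∃ q, Face S T v p q ∧ lin g q < lin g v} := by
  rw [← a6_top hT]
  set A := a6F S T (fun a b c => lin g b < lin g a ∧ lin g c < lin g a) with hA
  have hB := a6_F_rot hT (fun a b c => lin g b < lin g a ∧ lin g c < lin g a)
  have hC := a6_F_rot hT (fun a b c => lin g a < lin g c ∧ lin g b < lin g c)
  set B := a6F S T (fun a b c => lin g a < lin g c ∧ lin g b < lin g c) with hBdef
  set C := a6F S T (fun a b c => lin g c < lin g b ∧ lin g a < lin g b) with hCdef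
  have hd : d3 S T = #(A ∪ (B ∪ C)) := by
    have h1 : d3 S T = #(a6F S T (fun _ _ _ => True)) := by
      rw [← a6_F_left hT, d3]
      congr 1
      ext x
      simp only [mem_filter, and_true]
    rw [h1]
    congr 1
    ext t
    rw [mem_union, mem_union, hA, hBdef, hCdef, a6_F_mem hT, a6_F_mem hT, a6_F_mem hT,
      a6_F_mem hT]
    constructor
    · rintro ⟨h, _⟩
      have h1 := hT.mem _ _ h.uv
      have h2 := hT.mem _ _ h.vw
      have h3 := hT.mem _ _ h.wu
      have n1 : lin g t.1 ≠ lin g t.2.1 := fun e => h.uv.ne (hinj _ h1 _ h2 e)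
      have n2 : lin g t.2.1 ≠ lin g t.2.2 := fun e => h.vw.ne (hinj _ h2 _ h3 e)
      have n3 : lin g t.2.2 ≠ lin g t.1 := fun e => h.wu.ne (hinj _ h3 _ h1 e)
      rcases lt_or_gt_of_ne n1 with m1 | m1 <;> rcases lt_or_gt_of_ne n2 with m2 | m2 <;>
        rcases lt_or_gt_of_ne n3 with m3 | m3
      · exact absurd (m1.trans (m2.trans m3)) (lt_irrefl _)
      · exact Or.inr (Or.inl ⟨h, m3, m2⟩)
      · exact Or.inr (Or.inr ⟨h, m2, m1⟩)
      · exact Or.inr (Or.inr ⟨h, m2, m1⟩)
      · exact Or.inl ⟨h, m1, m3⟩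
      · exact Or.inr (Or.inl ⟨h, m3, m2⟩)
      · exact Or.inl ⟨h, m1, m3⟩
      · exact absurd (m1.trans (m3.trans m2)) (lt_irrefl _)
    · rintro (h | h | h) <;> exact ⟨h.1, trivial⟩
  have d1 : Disjoint B C := by
    rw [disjoint_left]
    intro t h1 h2
    rw [hBdef, a6_F_mem hT] at h1
    rw [hCdef, a6_F_mem hT] at h2
    linarith [h1.2.2, h2.2.1]
  have d2 : Disjoint A (B ∪ C) := by
    rw [disjoint_left]
    intro t h1 h2
    rw [hA, a6_F_mem hT] at h1
    rw [mem_union, hBdef, hCdef, a6_F_mem hT, a6_F_mem hT] at h2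
    rcases h2 with h2 | h2
    · linarith [h1.2.2, h2.2.1]
    · linarith [h1.2.1, h2.2.2]
  rw [hd, card_union_of_disjoint d2, card_union_of_disjoint d1]
  have e1 : #A = #B := hB
  have e2 : #B = #C := hC
  omega

/-- Euler's formula. -/
theorem IsTri.euler {S : Finset Pt} {T : SimpleGraph Pt} (hT : IsTri S T) (hS : S.Nonempty) :
    6 * #S + 2 * d3 S T = 6 + 3 * e2 S T := by
  obtain ⟨g, hg, hinj⟩ := a6_generic S
  obtain ⟨m, hm, hmin⟩ := Finset.exists_min_image S (lin g) hS
  rw [a6_d3 hT.1 hinj, a6_e2 (T := T) hinj]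
  have key : ∀ v ∈ S, #{p ∈ a6L S T g v | ∃ q, Face S T v p q ∧ lin g q < lin g v} + 1 =
      #(a6L S T g v) + if v = m then 1 else 0 := by
    intro v hv
    by_cases hvm : v = m
    · subst hvm
      have h1 : a6L S T g v = ∅ := by
        rw [a6L, filter_eq_empty_iff]
        rintro p hp ⟨_, h2⟩
        have := hmin p hp
        linarith
      rw [h1]
      simp
    · rw [if_neg hvm, add_zero]
      apply a6_fiber hT hg
      have h1 : lin g m < lin g v := by
        rcases lt_or_eq_of_le (hmin v hv) with h | h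
        · exact h
        · exact absurd (hinj _ hm _ hv h).symm hvm
      have hneg : ∀ p : Pt, lin (-g) p = - lin g p := by
        intro p
        unfold lin
        simp only [Prod.fst_neg, Prod.snd_neg]
        ring
      obtain ⟨w, hw, hw2⟩ := hT.exists_nbr hv (-g) ⟨m, hm, by rw [hneg, hneg]; linarith⟩
      rw [hneg, hneg] at hw2
      refine ⟨w, ?_⟩
      rw [a6L, mem_filter]
      exact ⟨hT.1.mem w v hw.symm, hw, by linarith⟩
  have hsum := sum_congr (rfl : S = S) key
  rw [sum_add_distrib, sum_add_distrib, sum_ite_eq' S m (fun _ => 1), if_pos hm, sum_const,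
    smul_eq_mul, mul_one] at hsum
  omega

/-- Triangulations are connected. -/
theorem IsTri.conn {S : Finset Pt} {T : SimpleGraph Pt} (hT : IsTri S T) (f : Pt → ℕ)
    (hf : ∀ a b, T.Adj a b → f a = f b) : ∀ a ∈ S, ∀ b ∈ S, f a = f b := by
  obtain ⟨g, hg, hinj⟩ := a6_generic S
  intro a0 ha0 b0 hb0
  obtain ⟨m, hm, hmax⟩ := Finset.exists_max_image S (lin g) ⟨a0, ha0⟩
  have key : ∀ n : ℕ, ∀ a ∈ S, #(S.filter (fun p => lin g a < lin g p)) ≤ n → f a = f m := by
    intro n
    induction n with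
    | zero =>
      intro a ha hn
      have h1 : S.filter (fun p => lin g a < lin g p) = ∅ := card_eq_zero.1 (by omega)
      rcases lt_or_eq_of_le (hmax a ha) with h | h
      · have h2 : m ∈ S.filter (fun p => lin g a < lin g p) := mem_filter.2 ⟨hm, h⟩
        rw [h1] at h2
        exact absurd h2 (notMem_empty _)
      · rw [hinj _ ha _ hm h]
    | succ n ih =>
      intro a ha hn
      rcases lt_or_eq_of_le (hmax a ha) with h | h
      · obtain ⟨w, hw, hw2⟩ := hT.exists_nbr ha g ⟨m, hm, h⟩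
        have hwS : w ∈ S := hT.1.mem w a hw.symm
        rw [hf a w hw]
        apply ih w hwS
        have h3 : S.filter (fun p => lin g w < lin g p) ⊂
            S.filter (fun p => lin g a < lin g p) := by
          refine ⟨fun p hp => ?_, fun hsub => ?_⟩
          · rw [mem_filter] at hp ⊢
            exact ⟨hp.1, by linarith [hp.2]⟩
          · have h4 := hsub (mem_filter.2 ⟨hwS, hw2⟩)
            rw [mem_filter] at h4
            exact lt_irrefl _ h4.2
        have := card_lt_card h3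
        omega
      · rw [hinj _ ha _ hm h]
  rw [key _ a0 ha0 le_rfl, key _ b0 hb0 le_rfl]

end Pool.Agent.Helper70.MD
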