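import Pool.Agent.Helper70.MD.A1b
import Pool.Agent.Helper70.MD.A6

/-!
MD-A7: the planar bound with the number of boundary points.

Proof. By `exists_tri` and `e2_mono` we may assume that `G` is a triangulation `T` of `R` (the set of
boundary points does not depend on the graph). By `euler`, `6 #R + 2 d3 = 6 + 3 e2`. It is enough to
show `d3 + #{p ∈ R | BdryPt R p} ≤ e2`: then `3 e2 + 6 = 6 #R + 2 d3 ≤ 6 #R + 2 e2 - 2 #bdry`. For
this we find for every boundary point `v` a directed edge `(v, w)` which has no face on its left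
(different `v` give different directed edges, and `d3` counts directed edges with a face on the
left). Let `g ≠ 0` with `lin g q ≤ lin g v` for all `q ∈ R`. `v` has a neighbour: there is a point
`p ∈ R`, `p ≠ v`, and `exists_nbr` with the functional `p - v`. For `q ≠ v` in `R` put
`a q = g.1 * (q.2 - v.2) - g.2 * (q.1 - v.1)` and `b q = lin g v - lin g q ≥ 0`; `|a q| + b q > 0`,
and put `t q = a q / (|a q| + b q)`. Let `w` be the neighbour of `v` minimising `t`:
one computes `|g|^2 * cr v w x = a w * b x - a x * b w`, and for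
`b w, b x ≥ 0` positivity of `a w * b x - a x * b w` implies `t w > t x`. So
no neighbour `x` of `v` has `0 < cr v w x`, and there is no face `v w x`.
-/

set_option autoImplicit false

namespace Pool.Agent.Helper70.MD

open Finset

open scoped Classical

/-- Comparison of two directions in a closed half-plane through the parameter
`a / (|a| + b)`. -/
theorem dir_le {a b c d : ℝ} (hb : 0 ≤ b) (hd : 0 ≤ d) (h1 : 0 < |a| + b) (h2 : 0 < |c| + d)
    (h : a / (|a| + b) ≤ c / (|c| + d)) : a * d ≤ c * b := by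
  rw [div_le_div_iff₀ h1 h2] at h
  rcases le_total 0 a with ha | ha
  · rcases le_total 0 c with hc | hc
    · rw [abs_of_nonneg ha, abs_of_nonneg hc] at h
      nlinarith
    · rw [abs_of_nonneg ha, abs_of_nonpos hc] at h
      have h3 : 0 ≤ a * (-c) := mul_nonneg ha (by linarith)
      have h4 : 0 ≤ a * d := mul_nonneg ha hd
      have h5 : 0 ≤ (-c) * b := mul_nonneg (by linarith) hb
      nlinarith
  · rcases le_total 0 c with hc | hc
    · have h4 : 0 ≤ (-a) * d := mul_nonneg (by linarith) hd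
      have h5 : 0 ≤ c * b := mul_nonneg hc hb
      nlinarith
    · rw [abs_of_nonpos ha, abs_of_nonpos hc] at h
      nlinarith

/-- A boundary point has a leftmost edge. -/
theorem IsTri.exists_leftmost {R : Finset Pt} {T : SimpleGraph Pt} (hT : IsTri R T)
    (hR : 2 ≤ #R) {v : Pt} (hv : v ∈ R) (hb : BdryPt R v) :
    ∃ w, T.Adj v w ∧ ∀ x, T.Adj v x → cr v w x ≤ 0 := by
  obtain ⟨g, hg, hgv⟩ := hb
  -- `v` has a neighbour
  have hnbr : ∃ w, T.Adj v w := by
    obtain ⟨p, hp, hpv⟩ := Finset.exists_mem_ne (by omega : 1 < #R) v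
    obtain ⟨w, hw, -⟩ := hT.exists_nbr hv (p.1 - v.1, p.2 - v.2) ⟨p, hp, by
      have hne : p.1 - v.1 ≠ 0 ∨ p.2 - v.2 ≠ 0 := by
        by_contra hcon
        push Not at hcon
        exact hpv (Prod.ext (by linarith [hcon.1]) (by linarith [hcon.2]))
      simp only [lin]
      rcases hne with h | h
      · nlinarith [sq_nonneg (p.2 - v.2), pow_pos (abs_pos.mpr h) 2, sq_abs (p.1 - v.1)]
      · nlinarith [sq_nonneg (p.1 - v.1), pow_pos (abs_pos.mpr h) 2, sq_abs (p.2 - v.2)]⟩
    exact ⟨w, hw⟩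
  obtain ⟨a, ha⟩ : ∃ a : Pt → ℝ, ∀ q, a q = g.1 * (q.2 - v.2) - g.2 * (q.1 - v.1) :=
    ⟨_, fun _ => rfl⟩
  obtain ⟨b, hb⟩ : ∃ b : Pt → ℝ, ∀ q, b q = lin g v - lin g q := ⟨_, fun _ => rfl⟩
  have hg2 : 0 < g.1 ^ 2 + g.2 ^ 2 := by
    have hne : g.1 ≠ 0 ∨ g.2 ≠ 0 := by
      by_contra hcon
      push Not at hcon
      exact hg (Prod.ext hcon.1 hcon.2)
    rcases hne with h | h
    · nlinarith [sq_nonneg g.2, pow_pos (abs_pos.mpr h) 2, sq_abs g.1]
    · nlinarith [sq_nonneg g.1, pow_pos (abs_pos.mpr h) 2, sq_abs g.2]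
  have hadjR : ∀ x, T.Adj v x → x ∈ R := fun x hx => hT.1.mem x v hx.symm
  have hbn : ∀ x, T.Adj v x → 0 ≤ b x := fun x hx => by
    rw [hb]; linarith [hgv x (hadjR x hx)]
  have hpos : ∀ x, T.Adj v x → 0 < |a x| + b x := by
    intro x hx
    have h1 := hbn x hx
    have h2 := abs_nonneg (a x)
    rcases lt_or_eq_of_le (add_nonneg h2 h1) with h | h
    · exact h
    · exfalso
      have h3 : |a x| = 0 := by linarith
      have h4 : b x = 0 := by linarith
      have h5 : a x = 0 := abs_eq_zero.mp h3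
      rw [ha] at h5
      rw [hb] at h4
      simp only [lin] at h4
      have h6 : (g.1 ^ 2 + g.2 ^ 2) * (x.1 - v.1) = 0 := by
        linear_combination (-g.1) * h4 - g.2 * h5
      have h7 : (g.1 ^ 2 + g.2 ^ 2) * (x.2 - v.2) = 0 := by
        linear_combination (-g.2) * h4 + g.1 * h5
      have h8 := (mul_eq_zero.mp h6).resolve_left hg2.ne'
      have h9 := (mul_eq_zero.mp h7).resolve_left hg2.ne'
      exact hx.ne (Prod.ext (by linarith) (by linarith))
  obtain ⟨w, hwm, hwmin⟩ := Finset.exists_min_image ({x ∈ R | T.Adj v x})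
    (fun x => a x / (|a x| + b x)) (by
      obtain ⟨w, hw⟩ := hnbr
      exact ⟨w, Finset.mem_filter.mpr ⟨hadjR w hw, hw⟩⟩)
  rw [Finset.mem_filter] at hwm
  refine ⟨w, hwm.2, fun x hx => ?_⟩
  have h1 := hwmin x (Finset.mem_filter.mpr ⟨hadjR x hx, hx⟩)
  have h2 := dir_le (hbn w hwm.2) (hbn x hx) (hpos w hwm.2) (hpos x hx) h1
  have h3 : (g.1 ^ 2 + g.2 ^ 2) * cr v w x = a w * b x - a x * b w := by
    rw [ha, ha, hb, hb]
    simp only [lin, cr]
    ring
  by_contra hcon
  push Not at hcon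
  have h4 := mul_pos hg2 hcon
  linarith

/-- The planar bound with the number of boundary points. -/
theorem PlaneOn.edge_bound {R : Finset Pt} {G : SimpleGraph Pt} (hG : PlaneOn R G)
    (hR : 2 ≤ #R) : e2 R G + 2 * #{p ∈ R | BdryPt R p} + 6 ≤ 6 * #R := by
  obtain ⟨T, hT, hle⟩ := hG.exists_tri
  have hmono := e2_mono R hle
  have hne : R.Nonempty := Finset.card_pos.mp (by omega)
  have heul := hT.euler hne
  suffices hsuff : d3 R T + #{p ∈ R | BdryPt R p} ≤ e2 R T by omega
  -- the leftmost edges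
  have hch : ∀ v : Pt, ∃ w : Pt, v ∈ R → BdryPt R v →
      T.Adj v w ∧ ∀ x, T.Adj v x → cr v w x ≤ 0 := by
    intro v
    by_cases h : v ∈ R ∧ BdryPt R v
    · obtain ⟨w, hw⟩ := hT.exists_leftmost hR h.1 h.2
      exact ⟨w, fun _ _ => hw⟩
    · exact ⟨v, fun h1 h2 => absurd ⟨h1, h2⟩ h⟩
  choose w hw using hch
  set A : Finset (Pt × Pt) := {x ∈ R ×ˢ R | T.Adj x.1 x.2} with hA
  set F : Finset (Pt × Pt) := {x ∈ R ×ˢ R | ∃ w, Face R T x.1 x.2 w} with hF
  set B : Finset Pt := {p ∈ R | BdryPt R p} with hB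
  have hcard : #B = #(B.image fun v => (v, w v)) := by
    rw [Finset.card_image_of_injective]
    intro x y hxy
    exact (Prod.ext_iff.mp hxy).1
  have hdisj : Disjoint F (B.image fun v => (v, w v)) := by
    rw [Finset.disjoint_left]
    intro x hx hx'
    rw [hF, Finset.mem_filter] at hx
    obtain ⟨-, z, hz⟩ := hx
    rw [Finset.mem_image] at hx'
    obtain ⟨v, hv, rfl⟩ := hx'
    rw [hB, Finset.mem_filter] at hv
    have h1 := (hw v hv.1 hv.2).2 z hz.wu.symm
    have h2 : 0 < cr v (w v) z := hz.pos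
    linarith
  have hsub : F ∪ (B.image fun v => (v, w v)) ⊆ A := by
    intro x hx
    rw [Finset.mem_union] at hx
    rw [hA, Finset.mem_filter]
    rcases hx with hx | hx
    · rw [hF, Finset.mem_filter] at hx
      obtain ⟨h1, z, hz⟩ := hx
      exact ⟨h1, hz.uv⟩
    · rw [Finset.mem_image] at hx
      obtain ⟨v, hv, rfl⟩ := hx
      rw [hB, Finset.mem_filter] at hv
      have h1 := (hw v hv.1 hv.2).1
      exact ⟨Finset.mem_product.mpr ⟨hv.1, hT.1.mem _ _ h1.symm⟩, h1⟩
  have h1 := Finset.card_le_card hsub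
  rw [Finset.card_union_of_disjoint hdisj, ← hcard] at h1
  exact h1

end Pool.Agent.Helper70.MD
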