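import Pool.Agent.Helper70.MD.Disc

/-!
MD-B0: existence of the distance function.

Proof. Let `R 0 = {hA, hB, hC}` and `R (n+1) = R n ∪ {b | ∃ a ∈ R n, adj a b}`. Every vertex is in some
`R n`: the function `f v = if ∃ n, v ∈ R n then 1 else 0` is constant along edges, so by `conn` it is
constant, and `f hA = 1`. Put `lev v = Nat.find`, the least `n` with `v ∈ R n`. `zero` is clear.
`step`: if `adj a b` then `b ∈ R (lev a + 1)`. `down`: if `lev a = n + 1` then `a ∈ R (n+1)`, `a ∉ R n`, so
there is `b ∈ R n` with `adj b a`; `lev b ≤ n`, and `lev a ≤ lev b + 1` gives `lev b = n`.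
-/

set_option autoImplicit false

namespace Pool.Agent.Helper70.MD.Disc

open Finset

open scoped Classical

variable {V : Type} [Fintype V] (D : Disc V)

/-- The vertices at distance at most `n` from the outer triangle. -/
def reach : ℕ → V → Prop
  | 0 => fun v => v = D.hA ∨ v = D.hB ∨ v = D.hC
  | n + 1 => fun v => reach n v ∨ ∃ a, reach n a ∧ D.adj a v

theorem reach_succ (n : ℕ) (v : V) :
    D.reach (n + 1) v ↔ D.reach n v ∨ ∃ a, D.reach n a ∧ D.adj a v := Iff.rfl

theorem exists_reach (v : V) : ∃ n, D.reach n v := by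
  have hc := D.conn (fun v => if ∃ n, D.reach n v then 1 else 0) (by
    intro a b hab
    have hiff : (∃ n, D.reach n a) ↔ (∃ n, D.reach n b) := by
      constructor
      · rintro ⟨n, hn⟩
        exact ⟨n + 1, Or.inr ⟨a, hn, hab⟩⟩
      · rintro ⟨n, hn⟩
        exact ⟨n + 1, Or.inr ⟨b, hn, D.adj_symm a b hab⟩⟩
    simp only [hiff]) v D.hA
  have hA : ∃ n, D.reach n D.hA := ⟨0, Or.inl rfl⟩
  by_contra hcon
  simp only [if_neg hcon, if_pos hA] at hc
  exact absurd hc (by norm_num)

theorem exists_lev : ∃ lev : V → ℕ, D.Lev lev := by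
  classical
  refine ⟨fun v => Nat.find (D.exists_reach v), ?_⟩
  have hspec : ∀ v, D.reach (Nat.find (D.exists_reach v)) v := fun v =>
    Nat.find_spec (D.exists_reach v)
  have hle : ∀ v n, D.reach n v → Nat.find (D.exists_reach v) ≤ n := fun v n h =>
    Nat.find_min' (D.exists_reach v) h
  have hstep : ∀ a b, D.adj a b →
      Nat.find (D.exists_reach b) ≤ Nat.find (D.exists_reach a) + 1 := by
    intro a b hab
    exact hle b _ (Or.inr ⟨a, hspec a, hab⟩)
  refine ⟨?_, hstep, ?_⟩
  · intro a
    constructor
    · intro h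
      have h' : Nat.find (D.exists_reach a) = 0 := h
      have := hspec a
      rw [h'] at this
      exact this
    · intro h
      have := hle a 0 h
      exact Nat.le_zero.mp this
  · intro a n hn
    have hn' : Nat.find (D.exists_reach a) = n + 1 := hn
    have h1 := hspec a
    rw [hn', reach_succ] at h1
    rcases h1 with h1 | ⟨b, hb, hba⟩
    · exact absurd (hle a n h1) (by omega)
    · refine ⟨b, D.adj_symm b a hba, ?_⟩
      show Nat.find (D.exists_reach b) = n
      have h2 := hle b n hb
      have h3 := hstep b a hba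
      omega

end Pool.Agent.Helper70.MD.Disc
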