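import Pool.Agent.Helper70.MD.BDefs

/-!
MD-B1: the Euler characteristic of the subcomplex of the vertices of level at least `i` is at least
the number of its components (here: of labels constant on components).

Proof. For a finite set `W` of vertices put (all in `ℤ`)
`X W = 6 #W - 3 #{x : V × V | adj x.1 x.2, both in W} + 2 #{x | ∃ c, face x.1 x.2 c, all three in W}`.
General claim: for every finite set `D` of vertices which is down-closed
(`v ∈ D → lev u < lev v → u ∈ D`), with complement `W`, and every `f` constant along edges inside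
`W`: `6 * #(W.image f) ≤ X W`. The theorem is the case `D = {v | lev v < i}`.
Induction on `#D`, removing a vertex of maximal level; the step uses the forest property of the
links.
-/

set_option autoImplicit false

namespace Pool.Agent.Helper70.MD.Disc

open Finset

open scoped Classical

variable {V : Type} [Fintype V] (D : Disc V)

/-- directed edges inside `W` -/
private noncomputable def EE (W : Finset V) : Finset (V × V) :=
  {x : V × V | D.adj x.1 x.2 ∧ x.1 ∈ W ∧ x.2 ∈ W}

/-- directed edges with left face, inside `W` -/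
private noncomputable def FF (W : Finset V) : Finset (V × V) :=
  {x : V × V | ∃ c, D.face x.1 x.2 c ∧ x.1 ∈ W ∧ x.2 ∈ W ∧ c ∈ W}

/-- six times the Euler characteristic of the subcomplex on `W` -/
private noncomputable def XX (W : Finset V) : ℤ := 6 * #W - 3 * #(D.EE W) + 2 * #(D.FF W)

/-- the neighbours of `v` in `W` -/
private noncomputable def PP (W : Finset V) (v : V) : Finset V := {p ∈ W | D.adj v p}

/-- the link edges of `v` in `P` -/
private noncomputable def LL (v : V) (P : Finset V) : Finset (V × V) :=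
  {x ∈ P ×ˢ P | D.face v x.1 x.2}

private theorem mem_EE {W : Finset V} {x : V × V} :
    x ∈ D.EE W ↔ D.adj x.1 x.2 ∧ x.1 ∈ W ∧ x.2 ∈ W := by simp [EE]

private theorem mem_FF {W : Finset V} {x : V × V} :
    x ∈ D.FF W ↔ ∃ c, D.face x.1 x.2 c ∧ x.1 ∈ W ∧ x.2 ∈ W ∧ c ∈ W := by simp [FF]

private theorem mem_PP {W : Finset V} {v p : V} : p ∈ D.PP W v ↔ p ∈ W ∧ D.adj v p := by simp [PP]

private theorem mem_LL {P : Finset V} {v : V} {x : V × V} :
    x ∈ D.LL v P ↔ (x.1 ∈ P ∧ x.2 ∈ P) ∧ D.face v x.1 x.2 := by simp [LL]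

private theorem adj_ne {a b : V} (h : D.adj a b) : a ≠ b := by
  rintro rfl
  exact D.adj_irrefl a h

private theorem card_EE {W : Finset V} {v : V} (hv : v ∉ W) :
    #(D.EE (insert v W)) = #(D.EE W) + 2 * #(D.PP W v) := by
  have hP : v ∉ D.PP W v := fun h => hv (D.mem_PP.mp h).1
  have h1 : D.EE (insert v W) =
      D.EE W ∪ ((D.PP W v).image (fun p => (v, p)) ∪ (D.PP W v).image (fun p => (p, v))) := by
    ext ⟨a, b⟩
    simp only [mem_EE, mem_union, mem_image, mem_PP, mem_insert, Prod.mk.injEq]
    constructor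
    · rintro ⟨h, ha, hb⟩
      have hab := D.adj_ne h
      rcases ha with rfl | ha
      · rcases hb with rfl | hb
        · exact absurd rfl hab
        · exact Or.inr (Or.inl ⟨b, ⟨hb, h⟩, rfl, rfl⟩)
      · rcases hb with rfl | hb
        · exact Or.inr (Or.inr ⟨a, ⟨ha, D.adj_symm _ _ h⟩, rfl, rfl⟩)
        · exact Or.inl ⟨h, ha, hb⟩
    · rintro (⟨h, ha, hb⟩ | ⟨p, ⟨hp, h⟩, rfl, rfl⟩ | ⟨p, ⟨hp, h⟩, rfl, rfl⟩)
      · exact ⟨h, Or.inr ha, Or.inr hb⟩
      · exact ⟨h, Or.inl rfl, Or.inr hp⟩
      · exact ⟨D.adj_symm _ _ h, Or.inr hp, Or.inl rfl⟩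
  have d1 : Disjoint ((D.PP W v).image (fun p => (v, p)))
      ((D.PP W v).image (fun p => (p, v))) := by
    rw [Finset.disjoint_left]
    rintro ⟨a, b⟩ h1 h2
    simp only [mem_image, Prod.mk.injEq] at h1 h2
    obtain ⟨p, hp, rfl, rfl⟩ := h1
    obtain ⟨q, hq, rfl, h⟩ := h2
    exact hP hq
  have d2 : Disjoint (D.EE W)
      ((D.PP W v).image (fun p => (v, p)) ∪ (D.PP W v).image (fun p => (p, v))) := by
    rw [Finset.disjoint_left]
    rintro ⟨a, b⟩ h1 h2
    simp only [mem_EE, mem_union, mem_image, Prod.mk.injEq] at h1 h2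
    rcases h2 with ⟨p, hp, rfl, rfl⟩ | ⟨p, hp, rfl, rfl⟩
    · exact hv h1.2.1
    · exact hv h1.2.2
  rw [h1, card_union_of_disjoint d2, card_union_of_disjoint d1,
    card_image_of_injective _ (fun a b h => (Prod.mk.inj h).2),
    card_image_of_injective _ (fun a b h => (Prod.mk.inj h).1)]
  ring

private theorem card_FF {W : Finset V} {v : V} (hv : v ∉ W) :
    #(D.FF (insert v W)) = #(D.FF W) + 3 * #(D.LL v (D.PP W v)) := by
  have hP : v ∉ D.PP W v := fun h => hv (D.mem_PP.mp h).1
  have h1 : D.FF (insert v W) =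
      D.FF W ∪ (D.LL v (D.PP W v) ∪ ((D.LL v (D.PP W v)).image (fun x => (v, x.1)) ∪
        (D.LL v (D.PP W v)).image (fun x => (x.2, v)))) := by
    ext ⟨a, b⟩
    simp only [mem_FF, mem_union, mem_image, mem_LL, mem_PP, mem_insert, Prod.mk.injEq,
      Prod.exists]
    constructor
    · rintro ⟨c, h, ha, hb, hc⟩
      have r1 := D.face_rot _ _ _ h
      have r2 := D.face_rot _ _ _ r1
      have ab := D.face_adj _ _ _ h
      have bc := D.face_adj _ _ _ r1
      have ca := D.face_adj _ _ _ r2
      rcases ha with rfl | ha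
      · have hb' : b ∈ W := hb.resolve_left (D.adj_ne ab).symm
        have hc' : c ∈ W := hc.resolve_left (D.adj_ne ca)
        exact Or.inr (Or.inr (Or.inl ⟨b, c, ⟨⟨⟨hb', ab⟩, ⟨hc', D.adj_symm _ _ ca⟩⟩, h⟩, rfl, rfl⟩))
      · rcases hb with rfl | hb
        · have hc' : c ∈ W := hc.resolve_left (D.adj_ne bc).symm
          exact Or.inr (Or.inr (Or.inr ⟨c, a, ⟨⟨⟨hc', bc⟩, ⟨ha, D.adj_symm _ _ ab⟩⟩, r1⟩, rfl, rfl⟩))
        · rcases hc with rfl | hc
          · exact Or.inr (Or.inl ⟨⟨⟨ha, ca⟩, ⟨hb, D.adj_symm _ _ bc⟩⟩, r2⟩)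
          · exact Or.inl ⟨c, h, ha, hb, hc⟩
    · rintro (⟨c, h, ha, hb, hc⟩ | ⟨⟨⟨ha, h1⟩, ⟨hb, h2⟩⟩, h⟩ | ⟨p, q, ⟨⟨⟨hp, h1⟩, ⟨hq, h2⟩⟩, h⟩, rfl, rfl⟩ |
        ⟨p, q, ⟨⟨⟨hp, h1⟩, ⟨hq, h2⟩⟩, h⟩, rfl, rfl⟩)
      · exact ⟨c, h, Or.inr ha, Or.inr hb, Or.inr hc⟩
      · exact ⟨v, D.face_rot _ _ _ h, Or.inr ha, Or.inr hb, Or.inl rfl⟩
      · exact ⟨q, h, Or.inl rfl, Or.inr hp, Or.inr hq⟩
      · exact ⟨p, D.face_rot _ _ _ (D.face_rot _ _ _ h), Or.inr hq, Or.inl rfl, Or.inr hp⟩
  have d1 : Disjoint ((D.LL v (D.PP W v)).image (fun x => (v, x.1)))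
      ((D.LL v (D.PP W v)).image (fun x => (x.2, v))) := by
    rw [Finset.disjoint_left]
    rintro ⟨a, b⟩ h1 h2
    simp only [mem_image, Prod.mk.injEq, mem_LL] at h1 h2
    obtain ⟨x, hx, rfl, rfl⟩ := h1
    obtain ⟨y, hy, h3, h4⟩ := h2
    exact hP (h3 ▸ hy.1.2)
  have d2 : Disjoint (D.LL v (D.PP W v)) ((D.LL v (D.PP W v)).image (fun x => (v, x.1)) ∪
        (D.LL v (D.PP W v)).image (fun x => (x.2, v))) := by
    rw [Finset.disjoint_left]
    rintro ⟨a, b⟩ h1 h2
    simp only [mem_union, mem_image, Prod.mk.injEq] at h2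
    rw [mem_LL] at h1
    rcases h2 with ⟨x, hx, rfl, rfl⟩ | ⟨x, hx, rfl, rfl⟩
    · exact hP h1.1.1
    · exact hP h1.1.2
  have d3 : Disjoint (D.FF W) (D.LL v (D.PP W v) ∪ ((D.LL v (D.PP W v)).image (fun x => (v, x.1)) ∪
        (D.LL v (D.PP W v)).image (fun x => (x.2, v)))) := by
    rw [Finset.disjoint_left]
    rintro ⟨a, b⟩ h1 h2
    simp only [mem_union, mem_image, Prod.mk.injEq, mem_LL] at h2
    rw [mem_FF] at h1
    obtain ⟨c, hc, ha, hb, hc'⟩ := h1
    rcases h2 with h | ⟨x, hx, rfl, rfl⟩ | ⟨x, hx, rfl, rfl⟩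
    · have := D.face_unique _ _ _ _ hc (D.face_rot _ _ _ h.2)
      exact hv (this ▸ hc')
    · exact hv ha
    · exact hv hb
  rw [h1, card_union_of_disjoint d3, card_union_of_disjoint d2, card_union_of_disjoint d1,
    card_image_of_injOn, card_image_of_injOn]
  · ring
  · rintro ⟨a, b⟩ hx ⟨a', b'⟩ hy h
    have hx' := (D.mem_LL.mp (mem_coe.mp hx)).2
    have hy' := (D.mem_LL.mp (mem_coe.mp hy)).2
    have hb : b = b' := (Prod.mk.inj h).1
    subst hb
    have r1 := D.face_rot _ _ _ (D.face_rot _ _ _ hx')
    have r2 := D.face_rot _ _ _ (D.face_rot _ _ _ hy')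
    have ha := D.face_unique _ _ _ _ r1 r2
    simp only at ha
    rw [ha]
  · rintro ⟨a, b⟩ hx ⟨a', b'⟩ hy h
    have hx' := (D.mem_LL.mp (mem_coe.mp hx)).2
    have hy' := (D.mem_LL.mp (mem_coe.mp hy)).2
    have hb : a = a' := (Prod.mk.inj h).2
    subst hb
    have ha := D.face_unique _ _ _ _ hx' hy'
    simp only at ha
    rw [ha]

private theorem forest_claim {W : Finset V} {v : V}
    (hx : (v = D.hA ∨ v = D.hB ∨ v = D.hC) ∨ ∃ x, D.adj v x ∧ x ∉ W) (f : V → ℕ)
    (hf : ∀ a b, D.adj a b → a ∈ W → b ∈ W → f a = f b) :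
    ∀ P : Finset V, P ⊆ D.PP W v → #(P.image f) + #(D.LL v P) ≤ #P := by
  intro P
  induction P using Finset.strongInduction with
  | H P ih =>
    intro hP
    rcases P.eq_empty_or_nonempty with rfl | hne
    · simp [LL]
    have hPW : ∀ p ∈ P, p ∈ W ∧ D.adj v p := fun p hp => D.mem_PP.mp (hP hp)
    obtain ⟨p, hp, hcard⟩ := D.forest v P hne (fun p hp => (hPW p hp).2) (by
      rcases hx with h | ⟨x, h1, h2⟩
      · exact Or.inl h
      · exact Or.inr ⟨x, h1, fun h => h2 (hPW x h).1⟩)
    have hlt : P.erase p ⊂ P := erase_ssubset hp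
    have h1 := ih _ hlt ((erase_subset p P).trans hP)
    have hc : #(P.erase p) + 1 = #P := card_erase_add_one hp
    set M : Finset V := {q ∈ P | D.face v p q ∨ D.face v q p} with hM
    have hL : D.LL v P ⊆ D.LL v (P.erase p) ∪
        M.image (fun q => if D.face v p q then (p, q) else (q, p)) := by
      rintro ⟨a, b⟩ hab
      rw [mem_LL] at hab
      obtain ⟨⟨ha, hb⟩, hface⟩ := hab
      simp only at ha hb hface
      rw [mem_union, mem_LL, mem_image]
      by_cases hap : a = p
      · subst hap
        right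
        refine ⟨b, ?_, ?_⟩
        · rw [hM, mem_filter]
          exact ⟨hb, Or.inl hface⟩
        · rw [if_pos hface]
      · by_cases hbp : b = p
        · subst hbp
          right
          refine ⟨a, ?_, ?_⟩
          · rw [hM, mem_filter]
            exact ⟨ha, Or.inr hface⟩
          · rw [if_neg]
            intro h
            -- face v a b and face v b a
            have e1 := D.face_rot _ _ _ hface
            have e2 := D.face_rot _ _ _ h
            exact D.face_asymm _ _ _ e1 e2
        · left
          exact ⟨⟨mem_erase.mpr ⟨hap, ha⟩, mem_erase.mpr ⟨hbp, hb⟩⟩, hface⟩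
    have hLc : #(D.LL v P) ≤ #(D.LL v (P.erase p)) + #M :=
      (card_le_card hL).trans ((card_union_le _ _).trans (Nat.add_le_add_left card_image_le _))
    have himg : P.image f ⊆ insert (f p) ((P.erase p).image f) := by
      intro y hy
      rw [mem_image] at hy
      obtain ⟨q, hq, rfl⟩ := hy
      by_cases hqp : q = p
      · rw [hqp]; exact mem_insert_self _ _
      · exact mem_insert_of_mem (mem_image_of_mem f (mem_erase.mpr ⟨hqp, hq⟩))
    rcases Nat.eq_zero_or_pos (#M) with h0 | h0
    · have := (card_le_card himg).trans (card_insert_le _ _)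
      omega
    · obtain ⟨q, hq⟩ := card_pos.mp h0
      rw [hM, mem_filter] at hq
      obtain ⟨hqP, hq⟩ := hq
      have hadj : D.adj p q := by
        rcases hq with h | h
        · exact D.face_adj _ _ _ (D.face_rot _ _ _ h)
        · exact D.adj_symm _ _ (D.face_adj _ _ _ (D.face_rot _ _ _ h))
      have hqp : q ≠ p := (D.adj_ne hadj).symm
      have hfpq : f p = f q := hf p q hadj (hPW p hp).1 (hPW q hqP).1
      have himg2 : P.image f ⊆ (P.erase p).image f := by
        refine himg.trans ?_
        rw [insert_subset_iff]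
        refine ⟨?_, Subset.rfl⟩
        rw [hfpq]
        exact mem_image_of_mem f (mem_erase.mpr ⟨hqp, hqP⟩)
      have := card_le_card himg2
      have hM1 : #M ≤ 1 := hcard
      omega

private theorem general {lev : V → ℕ} (hl : D.Lev lev) : ∀ (n : ℕ) (W : Finset V), #Wᶜ = n →
    (∀ v, v ∉ W → ∀ u, lev u < lev v → u ∉ W) → ∀ f : V → ℕ,
    (∀ a b, D.adj a b → a ∈ W → b ∈ W → f a = f b) →
    6 * (#(W.image f) : ℤ) ≤ D.XX W := by
  intro n
  induction n with
  | zero =>
    intro W hW _ f hf
    have hW' : W = univ := by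
      rw [card_eq_zero, compl_eq_empty_iff] at hW
      exact hW
    subst hW'
    have hconst := D.conn f (fun a b h => hf a b h (mem_univ _) (mem_univ _))
    have hcard : #((univ : Finset V).image f) ≤ 1 := by
      rw [card_le_one]
      intro a ha b hb
      rw [mem_image] at ha hb
      obtain ⟨x, _, rfl⟩ := ha
      obtain ⟨y, _, rfl⟩ := hb
      exact hconst x y
    have he := D.euler
    have e1 : D.EE univ = ({x : V × V | D.adj x.1 x.2} : Finset (V × V)) := by
      ext x; simp [EE]
    have e2 : D.FF univ = ({x : V × V | ∃ c, D.face x.1 x.2 c} : Finset (V × V)) := by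
      ext x; simp [FF]
    have hX : D.XX univ = 6 := by
      unfold XX
      rw [e1, e2, card_univ]
      have he' : (6 * (Fintype.card V : ℤ) + 2 * (#{x : V × V | ∃ c, D.face x.1 x.2 c} : ℤ)) =
          6 + 3 * (#{x : V × V | D.adj x.1 x.2} : ℤ) := by exact_mod_cast he
      linarith
    rw [hX]
    have : (#((univ : Finset V).image f) : ℤ) ≤ 1 := by exact_mod_cast hcard
    linarith
  | succ n ih =>
    intro W hW hdown f hf
    have hne : (Wᶜ).Nonempty := by
      rw [← card_pos, hW]; exact Nat.succ_pos _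
    obtain ⟨v, hvW, hmax⟩ := exists_max_image Wᶜ lev hne
    have hv : v ∉ W := mem_compl.mp hvW
    have hW1 : #(insert v W)ᶜ = n := by
      rw [compl_insert, card_erase_of_mem hvW, hW]
      rfl
    have hdown1 : ∀ w, w ∉ insert v W → ∀ u, lev u < lev w → u ∉ insert v W := by
      intro w hw u hu h
      rw [mem_insert, not_or] at hw
      rcases mem_insert.mp h with rfl | h
      · exact absurd (hmax w (mem_compl.mpr hw.2)) (not_le.mpr hu)
      · exact hdown w hw.2 u hu h
    have hforest : (v = D.hA ∨ v = D.hB ∨ v = D.hC) ∨ ∃ x, D.adj v x ∧ x ∉ W := by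
      rcases Nat.eq_zero_or_pos (lev v) with h0 | h0
      · exact Or.inl ((hl.zero v).mp h0)
      · obtain ⟨m, hm⟩ := Nat.exists_eq_succ_of_ne_zero h0.ne'
        obtain ⟨x, hx1, hx2⟩ := hl.down v m hm
        exact Or.inr ⟨x, hx1, hdown v hv x (by omega)⟩
    have hfc := D.forest_claim hforest f hf (D.PP W v) Subset.rfl
    have hX : D.XX (insert v W) = D.XX W + 6 - 6 * (#(D.PP W v) : ℤ) +
        6 * (#(D.LL v (D.PP W v)) : ℤ) := by
      unfold XX
      rw [D.card_EE hv, D.card_FF hv, card_insert_of_notMem hv]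
      push_cast
      ring
    obtain ⟨N, hN⟩ : ∃ N : ℕ, ∀ u, f u < N := by
      refine ⟨(univ.image f).sup id + 1, fun u => Nat.lt_succ_of_le ?_⟩
      exact le_sup (f := id) (mem_image_of_mem f (mem_univ u))
    set P := D.PP W v with hPdef
    rcases P.eq_empty_or_nonempty with hP | hP
    · have h1 := ih (insert v W) hW1 hdown1 (fun u => if u = v then N else f u) (by
        intro a b hab ha hb
        have hne := D.adj_ne hab
        by_cases hav : a = v
        · subst hav
          have hb' : b ∈ W := (mem_insert.mp hb).resolve_left hne.symm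
          have : b ∈ P := by rw [hPdef, mem_PP]; exact ⟨hb', hab⟩
          rw [hP] at this
          exact absurd this (notMem_empty _)
        · by_cases hbv : b = v
          · subst hbv
            have ha' : a ∈ W := (mem_insert.mp ha).resolve_left hne
            have : a ∈ P := by rw [hPdef, mem_PP]; exact ⟨ha', D.adj_symm _ _ hab⟩
            rw [hP] at this
            exact absurd this (notMem_empty _)
          · simp only [if_neg hav, if_neg hbv]
            exact hf a b hab ((mem_insert.mp ha).resolve_left hav)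
              ((mem_insert.mp hb).resolve_left hbv))
      have hsub : insert N (W.image f) ⊆
          (insert v W).image (fun u => if u = v then N else f u) := by
        intro y hy
        rcases mem_insert.mp hy with rfl | hy
        · rw [mem_image]
          exact ⟨v, mem_insert_self _ _, if_pos rfl⟩
        · rw [mem_image] at hy ⊢
          obtain ⟨u, hu, rfl⟩ := hy
          refine ⟨u, mem_insert_of_mem hu, if_neg ?_⟩
          rintro rfl
          exact hv hu
      have hNn : N ∉ W.image f := by
        intro h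
        rw [mem_image] at h
        obtain ⟨u, _, hu⟩ := h
        exact absurd hu (hN u).ne
      have hc := card_le_card hsub
      rw [card_insert_of_notMem hNn] at hc
      have hc' : (#(W.image f) : ℤ) + 1 ≤
          #((insert v W).image (fun u => if u = v then N else f u)) := by exact_mod_cast hc
      have hL0 : #(D.LL v P) = 0 := by
        rw [hP]; simp [LL]
      rw [hX, hL0, hP, card_empty] at h1
      push_cast at h1
      linarith
    · have h1 := ih (insert v W) hW1 hdown1
        (fun u => if u = v ∨ f u ∈ P.image f then N else f u) (by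
        intro a b hab ha hb
        have hne := D.adj_ne hab
        by_cases hav : a = v
        · subst hav
          have hb' : b ∈ W := (mem_insert.mp hb).resolve_left hne.symm
          have : b ∈ P := by rw [hPdef, mem_PP]; exact ⟨hb', hab⟩
          have hm := mem_image_of_mem f this
          simp only [hm, true_or, or_true, if_true]
        · by_cases hbv : b = v
          · subst hbv
            have ha' : a ∈ W := (mem_insert.mp ha).resolve_left hne
            have : a ∈ P := by rw [hPdef, mem_PP]; exact ⟨ha', D.adj_symm _ _ hab⟩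
            have hm := mem_image_of_mem f this
            simp only [hm, true_or, or_true, if_true]
          · have hab' := hf a b hab ((mem_insert.mp ha).resolve_left hav)
              ((mem_insert.mp hb).resolve_left hbv)
            simp only [hav, hbv, false_or, hab'])
      have hsub : insert N (W.image f \ P.image f) ⊆
          (insert v W).image (fun u => if u = v ∨ f u ∈ P.image f then N else f u) := by
        intro y hy
        rcases mem_insert.mp hy with rfl | hy
        · rw [mem_image]
          exact ⟨v, mem_insert_self _ _, if_pos (Or.inl rfl)⟩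
        · rw [mem_sdiff, mem_image] at hy
          obtain ⟨⟨u, hu, rfl⟩, hnot⟩ := hy
          rw [mem_image]
          refine ⟨u, mem_insert_of_mem hu, if_neg ?_⟩
          rintro (rfl | h)
          · exact hv hu
          · exact hnot h
      have hNn : N ∉ W.image f \ P.image f := by
        intro h
        rw [mem_sdiff, mem_image] at h
        obtain ⟨⟨u, _, hu⟩, _⟩ := h
        exact absurd hu (hN u).ne
      have hPW : P.image f ⊆ W.image f := by
        apply image_subset_image
        intro p hp
        rw [hPdef, mem_PP] at hp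
        exact hp.1
      have hc := card_le_card hsub
      rw [card_insert_of_notMem hNn, card_sdiff_of_subset hPW] at hc
      have hle := card_le_card hPW
      have hc' : (#(W.image f) : ℤ) - #(P.image f) + 1 ≤
          #((insert v W).image (fun u => if u = v ∨ f u ∈ P.image f then N else f u)) := by
        have : ((#(W.image f) - #(P.image f) + 1 : ℕ) : ℤ) ≤
          #((insert v W).image (fun u => if u = v ∨ f u ∈ P.image f then N else f u)) := by
          exact_mod_cast hc
        push_cast [Nat.cast_sub hle] at this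
        exact this
      have hfc' : (#(P.image f) : ℤ) + #(D.LL v P) ≤ #P := by exact_mod_cast hfc
      rw [hX] at h1
      linarith

/-- The subcomplex spanned by the vertices of level at least `i` has Euler characteristic at
least its number of components. -/
theorem label_le {lev : V → ℕ} (hl : D.Lev lev) (i : ℕ) (f : V → ℕ)
    (hf : ∀ a b, D.adj a b → i ≤ lev a → i ≤ lev b → f a = f b) :
    6 * (#(({v : V | i ≤ lev v} : Finset V).image f) : ℤ) ≤ D.chi lev i := by
  have h := D.general hl _ ({v : V | i ≤ lev v} : Finset V) rfl (by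
    intro v hv u hu hu'
    simp only [mem_filter, mem_univ, true_and] at hv hu'
    omega) f (by
    intro a b hab ha hb
    simp only [mem_filter, mem_univ, true_and] at ha hb
    exact hf a b hab ha hb)
  have e1 : D.EE ({v : V | i ≤ lev v} : Finset V) =
      ({x : V × V | D.adj x.1 x.2 ∧ i ≤ lev x.1 ∧ i ≤ lev x.2} : Finset (V × V)) := by
    ext x; simp [EE]
  have e2 : D.FF ({v : V | i ≤ lev v} : Finset V) =
      ({x : V × V | ∃ c, D.face x.1 x.2 c ∧ i ≤ lev x.1 ∧ i ≤ lev x.2 ∧ i ≤ lev c} :
        Finset (V × V)) := by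
    ext x; simp [FF]
  unfold XX at h
  rw [e1, e2] at h
  exact h

end Pool.Agent.Helper70.MD.Disc
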