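import Pool.Agent.Helper70.MD.B2a

/-!
MD-B2: Euler characteristic differences and degree sums of the layers.

All statements are immediate from B2a. `chi_zero`: for `i = 0` all level conditions are trivial, so
it is `euler`. `nv lev 0 = 3` (level 0 is exactly `{hA, hB, hC}`, three different vertices since they
are pairwise adjacent by `outer_edge` and `face_adj`, and `adj_irrefl`).
`chi_diff_zero`: `chi 0 - chi 1 = 6*3 - 3*(dir 0 0 + 2 dir 0 1) + 2*(cnt 0 0 0 + 3 cnt 0 0 1 +
3 cnt 0 1 1)`, insert `dir_same_zero` and `dir_up`. `chi_diff_succ` the same with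
`dir_same_succ`. The degree sums: `sum_deg_zero`, `sum_deg_succ` and the formulas for `dir`.
-/

set_option autoImplicit false

namespace Pool.Agent.Helper70.MD.Disc

open Finset

open scoped Classical

variable {V : Type} [Fintype V] (D : Disc V)

theorem outer_ne : D.hA ≠ D.hB ∧ D.hB ≠ D.hC ∧ D.hC ≠ D.hA := by
  obtain ⟨⟨c1, h1⟩, ⟨c2, h2⟩, ⟨c3, h3⟩⟩ := D.outer_edge
  refine ⟨fun h => ?_, fun h => ?_, fun h => ?_⟩
  · have := D.face_adj _ _ _ h1
    rw [h] at this
    exact D.adj_irrefl _ this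
  · have := D.face_adj _ _ _ h2
    rw [h] at this
    exact D.adj_irrefl _ this
  · have := D.face_adj _ _ _ h3
    rw [h] at this
    exact D.adj_irrefl _ this

theorem nv_zero {lev : V → ℕ} (hl : D.Lev lev) : nv lev 0 = 3 := by
  obtain ⟨h1, h2, h3⟩ := D.outer_ne
  have h4 : ({v : V | lev v = 0} : Finset V) = {D.hA, D.hB, D.hC} := by
    ext v
    simp only [mem_filter, mem_univ, true_and, mem_insert, mem_singleton]
    exact hl.zero v
  rw [nv, h4]
  rw [card_insert_of_notMem, card_insert_of_notMem, card_singleton]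
  · simpa using h2
  · simp only [mem_insert, mem_singleton, not_or]
    exact ⟨h1, h3.symm⟩

theorem chi_zero {lev : V → ℕ} (_hl : D.Lev lev) : D.chi lev 0 = 6 := by
  have h1 : nR lev 0 = Fintype.card V := by
    simp [nR]
  have h2 : D.eR lev 0 = #{x : V × V | D.adj x.1 x.2} := by
    simp [eR]
  have h3 : D.dR lev 0 = #{x : V × V | ∃ c, D.face x.1 x.2 c} := by
    simp [dR]
  have h4 := D.euler
  rw [chi, h1, h2, h3]
  omega

/-- Euler characteristic difference of consecutive subcomplexes. -/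
theorem chi_diff_zero {lev : V → ℕ} (hl : D.Lev lev) :
    D.chi lev 0 = D.chi lev 1 + 9 - D.cnt lev 0 0 0 - 3 * D.cnt lev 0 0 1 := by
  have h1 := nR_split (lev := lev) 0
  have h2 := D.eR_split hl 0
  have h3 := D.dR_split hl 0
  have h4 := D.nv_zero hl
  have h5 := D.dir_same_zero hl
  have h6 := D.dir_up hl 0
  simp only [zero_add] at h1 h2 h3 h6
  rw [chi, chi, h1, h2, h3, h4, h5, h6]
  push_cast
  ring

theorem chi_diff_succ {lev : V → ℕ} (hl : D.Lev lev) (i : ℕ) :
    D.chi lev (i + 1) = D.chi lev (i + 2) + 6 * (nv lev (i + 1) : ℤ) -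
      D.cnt lev (i + 1) (i + 1) (i + 1) - 3 * D.cnt lev (i + 1) (i + 1) (i + 2) -
      3 * D.cnt lev i (i + 1) (i + 1) := by
  have h1 := nR_split (lev := lev) (i + 1)
  have h2 := D.eR_split hl (i + 1)
  have h3 := D.dR_split hl (i + 1)
  have h5 := D.dir_same_succ hl i
  have h6 := D.dir_up hl (i + 1)
  simp only [add_assoc, Nat.reduceAdd] at h1 h2 h3 h5 h6
  rw [chi, chi, h1, h2, h3, h5, h6]
  push_cast
  ring

/-- Degree sums of the layers. -/
theorem deg_sum_zero {lev : V → ℕ} (hl : D.Lev lev) :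
    ∑ v ∈ ({v : V | lev v = 0} : Finset V), D.deg v =
      D.cnt lev 0 0 0 + 2 * D.cnt lev 0 0 1 + 3 + D.cnt lev 0 1 1 := by
  have h5 := D.dir_same_zero hl
  have h6 := D.dir_up hl 0
  simp only [zero_add] at h6
  rw [D.sum_deg_zero hl, h5, h6]
  ring

theorem deg_sum_succ {lev : V → ℕ} (hl : D.Lev lev) (i : ℕ) :
    ∑ v ∈ ({v : V | lev v = i + 1} : Finset V), D.deg v =
      D.cnt lev (i + 1) (i + 1) (i + 1) + 2 * D.cnt lev (i + 1) (i + 1) (i + 2) +
      2 * D.cnt lev i (i + 1) (i + 1) + D.cnt lev (i + 1) (i + 2) (i + 2) +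
      D.cnt lev i i (i + 1) := by
  have h5 := D.dir_same_succ hl i
  have h6 := D.dir_up hl (i + 1)
  have h7 := D.dir_up hl i
  simp only [add_assoc, Nat.reduceAdd] at h5 h6 h7
  rw [D.sum_deg_succ hl i, h5, h6, h7]
  ring

end Pool.Agent.Helper70.MD.Disc
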