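import Pool.Agent.Helper70.MD.BDefs

/-!
MD-B2a: counting directed edges and faces by levels.

Levels of adjacent vertices differ by at most one (`step` and `adj_symm`). `cnt` is invariant under
rotation (`cnt_rot`): `(a,b) ↦ (b,c)`, where `c` is the third vertex of the face on the left of
`(a,b)`, is a bijection (inverse by two rotations; `face_unique`).
`dir_same_zero`: the directed edges inside level `0`: the three pairs `(hB,hA)`, `(hC,hB)`,
`(hA,hC)` (different, since `hA`, `hB`, `hC` are pairwise adjacent by `outer_edge`, `face_adj`,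
`adj_irrefl`) have no face on the left (`outer_none`) and are adjacent; every other directed edge
inside level 0 has a face on its left by `face_exists`, whose third vertex has level `0` or `1`.
`dir_same_succ`: a directed edge inside level `i+1` is not one of the three exceptional ones in
`face_exists` (those have level 0 endpoints), so it has a face on its left, with third vertex of
level `i`, `i+1` or `i+2`; `cnt (i+1) (i+1) i = cnt i (i+1) (i+1)` by rotation.
`dir_up`: a directed edge from level `i` to level `i+1` has a face on its left, with third vertex of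
level `i` or `i+1` (the level of the third vertex is within one of both);
`cnt i (i+1) i = cnt i i (i+1)`.
`eR_split`, `dR_split`: split by the minimum of the levels; a directed edge inside
`{lev ≥ i}` which is not inside `{lev ≥ i+1}` is inside level `i`, or goes from level `i` to
`i+1`, or the reverse of that. For the faces: the levels of the three vertices are all `≥ i` and the
minimum is `i`, so all are in `{i, i+1}`; the possible level patterns of `(a, b, c)` are the
constant one, the three rotations of `(i,i,i+1)` and the three rotations of `(i,i+1,i+1)`.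
`eR_eq'`: a directed edge inside `{lev ≥ i+1}` has a face on its left (its endpoints are not of
level 0); its third vertex is of level `≥ i+1`, or of level `i` and then both endpoints have level
exactly `i+1`.
`sum_deg`: the sum of the degrees over level `j` counts directed edges starting at level `j`, the end
being at level `j-1`, `j` or `j+1`.
-/

set_option autoImplicit false

namespace Pool.Agent.Helper70.MD.Disc

open Finset

open scoped Classical

variable {V : Type} [Fintype V] (D : Disc V)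

/-- Number of directed edges from level `i` to level `j`. -/
noncomputable def dir (lev : V → ℕ) (i j : ℕ) : ℕ :=
  #{x : V × V | D.adj x.1 x.2 ∧ lev x.1 = i ∧ lev x.2 = j}

/-- Number of faces (with a marked first vertex) satisfying `P`. -/
noncomputable def FF (P : V → V → V → Prop) : ℕ :=
  #{t : V × V × V | D.face t.1 t.2.1 t.2.2 ∧ P t.1 t.2.1 t.2.2}

theorem FF_eq_sum (P : V → V → V → Prop) :
    D.FF P = ∑ t : V × V × V, if D.face t.1 t.2.1 t.2.2 ∧ P t.1 t.2.1 t.2.2 then 1 else 0 := by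
  rw [FF, Finset.card_filter]

/-- The faces are determined by their first two vertices. -/
theorem card_left (P : V → V → V → Prop) :
    #{x : V × V | ∃ c, D.face x.1 x.2 c ∧ P x.1 x.2 c} = D.FF P := by
  symm
  refine Finset.card_nbij (fun t => (t.1, t.2.1)) ?_ ?_ ?_
  · intro t ht
    simp only [Finset.coe_filter, Finset.mem_univ, true_and, Set.mem_ofPred_eq] at ht ⊢
    exact ⟨t.2.2, ht⟩
  · rintro ⟨a, b, c⟩ ht ⟨a', b', c'⟩ ht' h
    simp only [Finset.coe_filter, Finset.mem_univ, true_and, Set.mem_ofPred_eq] at ht ht'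
    simp only [Prod.mk.injEq] at h
    obtain ⟨rfl, rfl⟩ := h
    rw [D.face_unique a b c c' ht.1 ht'.1]
  · rintro ⟨a, b⟩ hx
    simp only [Finset.coe_filter, Finset.mem_univ, true_and, Set.mem_ofPred_eq] at hx
    obtain ⟨c, hc⟩ := hx
    refine ⟨(a, b, c), ?_, rfl⟩
    simpa using hc

theorem FF_rot (P : V → V → V → Prop) : D.FF P = D.FF (fun a b c => P c a b) := by
  refine Finset.card_nbij' (fun t => (t.2.1, t.2.2, t.1)) (fun t => (t.2.2, t.1, t.2.1)) ?_ ?_ ?_ ?_
  · rintro ⟨a, b, c⟩ ht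
    simp only [Finset.coe_filter, Finset.mem_univ, true_and, Set.mem_ofPred_eq] at ht ⊢
    exact ⟨D.face_rot _ _ _ ht.1, ht.2⟩
  · rintro ⟨a, b, c⟩ ht
    simp only [Finset.coe_filter, Finset.mem_univ, true_and, Set.mem_ofPred_eq] at ht ⊢
    exact ⟨D.face_rot _ _ _ (D.face_rot _ _ _ ht.1), ht.2⟩
  · rintro ⟨a, b, c⟩ _
    rfl
  · rintro ⟨a, b, c⟩ _
    rfl

theorem cnt_eq (lev : V → ℕ) (i j k : ℕ) :
    D.cnt lev i j k = D.FF (fun a b c => lev a = i ∧ lev b = j ∧ lev c = k) := by
  rw [← card_left, cnt]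
  congr 1
  ext x
  simp only [Finset.mem_filter]

theorem cnt_rot {lev : V → ℕ} (i j k : ℕ) : D.cnt lev i j k = D.cnt lev j k i := by
  rw [cnt_eq, cnt_eq, FF_rot]
  congr 1
  funext a b c
  exact propext (by tauto)

/-- Number of directed edges satisfying `R`. -/
noncomputable def EE (R : V → V → Prop) : ℕ := #{x : V × V | D.adj x.1 x.2 ∧ R x.1 x.2}

theorem EE_eq_sum (R : V → V → Prop) :
    D.EE R = ∑ x : V × V, if D.adj x.1 x.2 ∧ R x.1 x.2 then 1 else 0 := by
  rw [EE, Finset.card_filter]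

theorem EE_swap (R : V → V → Prop) : D.EE R = D.EE (fun a b => R b a) := by
  refine Finset.card_nbij' Prod.swap Prod.swap ?_ ?_ ?_ ?_
  · rintro ⟨a, b⟩ ht
    simp only [Finset.coe_filter, Finset.mem_univ, true_and, Set.mem_ofPred_eq, Prod.fst_swap,
      Prod.snd_swap] at ht ⊢
    exact ⟨D.adj_symm _ _ ht.1, ht.2⟩
  · rintro ⟨a, b⟩ ht
    simp only [Finset.coe_filter, Finset.mem_univ, true_and, Set.mem_ofPred_eq, Prod.fst_swap,
      Prod.snd_swap] at ht ⊢
    exact ⟨D.adj_symm _ _ ht.1, ht.2⟩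
  · intro x _
    rfl
  · intro x _
    rfl

theorem EE_eq_FF (R : V → V → Prop) (h : ∀ a b, D.adj a b → R a b → ∃ c, D.face a b c) :
    D.EE R = D.FF (fun a b _ => R a b) := by
  rw [← card_left, EE]
  congr 1
  ext x
  simp only [Finset.mem_filter, Finset.mem_univ, true_and]
  constructor
  · rintro ⟨h1, h2⟩
    obtain ⟨c, hc⟩ := h x.1 x.2 h1 h2
    exact ⟨c, hc, h2⟩
  · rintro ⟨c, hc, h2⟩
    exact ⟨D.face_adj _ _ _ hc, h2⟩

theorem dir_eq (lev : V → ℕ) (i j : ℕ) :
    D.dir lev i j = D.EE (fun a b => lev a = i ∧ lev b = j) := by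
  rw [dir, EE]
  congr 1
  ext x
  simp only [Finset.mem_filter]

theorem dir_symm {lev : V → ℕ} (i j : ℕ) : D.dir lev i j = D.dir lev j i := by
  rw [dir_eq, dir_eq, EE_swap]
  congr 1
  funext a b
  exact propext and_comm

/-- The levels of the vertices of a face. -/
theorem face_lev {lev : V → ℕ} (hl : D.Lev lev) {a b c : V} (h : D.face a b c) :
    lev a ≤ lev b + 1 ∧ lev b ≤ lev a + 1 ∧ lev b ≤ lev c + 1 ∧ lev c ≤ lev b + 1 ∧
      lev a ≤ lev c + 1 ∧ lev c ≤ lev a + 1 := by
  have h1 := D.face_adj _ _ _ h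
  have h2 := D.face_adj _ _ _ (D.face_rot _ _ _ h)
  have h3 := D.face_adj _ _ _ (D.face_rot _ _ _ (D.face_rot _ _ _ h))
  exact ⟨hl.step _ _ (D.adj_symm _ _ h1), hl.step _ _ h1, hl.step _ _ (D.adj_symm _ _ h2),
    hl.step _ _ h2, hl.step _ _ h3, hl.step _ _ (D.adj_symm _ _ h3)⟩

/-- A directed edge which is not inside level `0` has a face on its left. -/
theorem exists_face {lev : V → ℕ} (hl : D.Lev lev) {a b : V} (h : D.adj a b)
    (h0 : lev a ≠ 0 ∨ lev b ≠ 0) : ∃ c, D.face a b c := by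
  have hA : lev D.hA = 0 := (hl.zero _).2 (Or.inl rfl)
  have hB : lev D.hB = 0 := (hl.zero _).2 (Or.inr (Or.inl rfl))
  have hC : lev D.hC = 0 := (hl.zero _).2 (Or.inr (Or.inr rfl))
  rcases D.face_exists a b h with h1 | ⟨rfl, rfl⟩ | ⟨rfl, rfl⟩ | ⟨rfl, rfl⟩
  · exact h1
  · rcases h0 with h0 | h0
    · exact absurd hB h0
    · exact absurd hA h0
  · rcases h0 with h0 | h0
    · exact absurd hC h0
    · exact absurd hB h0
  · rcases h0 with h0 | h0
    · exact absurd hA h0
    · exact absurd hC h0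

theorem FF_split {P Q R : V → V → V → Prop}
    (h : ∀ a b c, D.face a b c → (P a b c ↔ Q a b c ∨ R a b c))
    (h' : ∀ a b c, Q a b c → ¬ R a b c) : D.FF P = D.FF Q + D.FF R := by
  rw [FF_eq_sum, FF_eq_sum, FF_eq_sum, ← Finset.sum_add_distrib]
  refine Finset.sum_congr rfl fun t _ => ?_
  by_cases hf : D.face t.1 t.2.1 t.2.2
  · have h1 := h _ _ _ hf
    have h2 := h' t.1 t.2.1 t.2.2
    simp only [hf, true_and]
    by_cases hQ : Q t.1 t.2.1 t.2.2
    · rw [if_pos (h1.2 (Or.inl hQ)), if_pos hQ, if_neg (h2 hQ)]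
    · by_cases hR : R t.1 t.2.1 t.2.2
      · rw [if_pos (h1.2 (Or.inr hR)), if_neg hQ, if_pos hR]
      · rw [if_neg (fun hP => (h1.1 hP).elim hQ hR), if_neg hQ, if_neg hR]
  · simp [hf]

theorem dir_same_zero {lev : V → ℕ} (hl : D.Lev lev) :
    D.dir lev 0 0 = D.cnt lev 0 0 0 + D.cnt lev 0 0 1 + 3 := by
  have hA : lev D.hA = 0 := (hl.zero _).2 (Or.inl rfl)
  have hB : lev D.hB = 0 := (hl.zero _).2 (Or.inr (Or.inl rfl))
  have hC : lev D.hC = 0 := (hl.zero _).2 (Or.inr (Or.inr rfl))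
  obtain ⟨⟨c1, h1⟩, ⟨c2, h2⟩, ⟨c3, h3⟩⟩ := D.outer_edge
  have aAB := D.face_adj _ _ _ h1
  have aBC := D.face_adj _ _ _ h2
  have aCA := D.face_adj _ _ _ h3
  have nAB : D.hA ≠ D.hB := fun h => D.adj_irrefl _ (h ▸ aAB)
  have nBC : D.hB ≠ D.hC := fun h => D.adj_irrefl _ (h ▸ aBC)
  have nCA : D.hC ≠ D.hA := fun h => D.adj_irrefl _ (h ▸ aCA)
  have hset : ({x : V × V | D.adj x.1 x.2 ∧ lev x.1 = 0 ∧ lev x.2 = 0} : Finset (V × V)) =
      ({x : V × V | ∃ c, D.face x.1 x.2 c ∧ (lev x.1 = 0 ∧ lev x.2 = 0)} : Finset (V × V)) ∪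
        {(D.hB, D.hA), (D.hC, D.hB), (D.hA, D.hC)} := by
    ext ⟨a, b⟩
    simp only [Finset.mem_filter, Finset.mem_univ, true_and, Finset.mem_union, Finset.mem_insert,
      Finset.mem_singleton, Prod.mk.injEq]
    constructor
    · rintro ⟨h, h0⟩
      rcases D.face_exists a b h with ⟨c, hc⟩ | h4
      · exact Or.inl ⟨c, hc, h0⟩
      · exact Or.inr h4
    · rintro (⟨c, hc, h0⟩ | ⟨rfl, rfl⟩ | ⟨rfl, rfl⟩ | ⟨rfl, rfl⟩)
      · exact ⟨D.face_adj _ _ _ hc, h0⟩
      · exact ⟨D.adj_symm _ _ aAB, hB, hA⟩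
      · exact ⟨D.adj_symm _ _ aBC, hC, hB⟩
      · exact ⟨D.adj_symm _ _ aCA, hA, hC⟩
  have hdisj : Disjoint
      ({x : V × V | ∃ c, D.face x.1 x.2 c ∧ (lev x.1 = 0 ∧ lev x.2 = 0)} : Finset (V × V))
      {(D.hB, D.hA), (D.hC, D.hB), (D.hA, D.hC)} := by
    rw [Finset.disjoint_left]
    rintro ⟨a, b⟩ hx hy
    simp only [Finset.mem_filter, Finset.mem_univ, true_and] at hx
    simp only [Finset.mem_insert, Finset.mem_singleton, Prod.mk.injEq] at hy
    obtain ⟨c, hc, _⟩ := hx
    rcases hy with ⟨rfl, rfl⟩ | ⟨rfl, rfl⟩ | ⟨rfl, rfl⟩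
    · exact (D.outer_none c).1 hc
    · exact (D.outer_none c).2.1 hc
    · exact (D.outer_none c).2.2 hc
  have hcard : #({(D.hB, D.hA), (D.hC, D.hB), (D.hA, D.hC)} : Finset (V × V)) = 3 := by
    rw [Finset.card_insert_of_notMem, Finset.card_insert_of_notMem, Finset.card_singleton]
    · simp only [Finset.mem_singleton, Prod.mk.injEq, not_and]
      intro h
      exact absurd h nCA
    · simp only [Finset.mem_insert, Finset.mem_singleton, Prod.mk.injEq, not_or, not_and]
      exact ⟨fun h => absurd h nBC, fun h => absurd h.symm nAB⟩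
  have hsum : D.dir lev 0 0 =
      #({x : V × V | ∃ c, D.face x.1 x.2 c ∧ (lev x.1 = 0 ∧ lev x.2 = 0)} : Finset (V × V)) + 3 := by
    rw [dir, hset, Finset.card_union_of_disjoint hdisj, hcard]
  have hleft : #({x : V × V | ∃ c, D.face x.1 x.2 c ∧ (lev x.1 = 0 ∧ lev x.2 = 0)} :
      Finset (V × V)) = D.FF (fun a b _ => lev a = 0 ∧ lev b = 0) := by
    rw [← card_left]
    congr 1
    ext x
    simp only [Finset.mem_filter]
  rw [hsum, hleft, cnt_eq, cnt_eq]
  congr 1
  apply D.FF_split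
  · intro a b c hf
    have := D.face_lev hl hf
    constructor
    · rintro ⟨ha, hb⟩
      omega
    · omega
  · intro a b c h
    omega

theorem dir_same_succ {lev : V → ℕ} (hl : D.Lev lev) (i : ℕ) :
    D.dir lev (i + 1) (i + 1) = D.cnt lev i (i + 1) (i + 1) +
      D.cnt lev (i + 1) (i + 1) (i + 1) + D.cnt lev (i + 1) (i + 1) (i + 2) := by
  rw [dir_eq, EE_eq_FF D _ (fun a b h hR => D.exists_face hl h (by omega)), cnt_rot, cnt_eq, cnt_eq,
    cnt_eq]
  rw [D.FF_split (P := fun a b _ => lev a = i + 1 ∧ lev b = i + 1)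
    (Q := fun a b c => (lev a = i + 1 ∧ lev b = i + 1) ∧ (lev c = i ∨ lev c = i + 1))
    (R := fun a b c => lev a = i + 1 ∧ lev b = i + 1 ∧ lev c = i + 2)
    (fun a b c hf => by have := D.face_lev hl hf; omega) (fun a b c h => by omega)]
  congr 1
  exact D.FF_split (fun a b c hf => by omega) (fun a b c h => by omega)

theorem dir_up {lev : V → ℕ} (hl : D.Lev lev) (i : ℕ) :
    D.dir lev i (i + 1) = D.cnt lev i i (i + 1) + D.cnt lev i (i + 1) (i + 1) := by
  rw [dir_eq, EE_eq_FF D _ (fun a b h hR => D.exists_face hl h (by omega)), D.cnt_rot i i (i + 1),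
    cnt_eq, cnt_eq]
  exact D.FF_split (fun a b c hf => by have := D.face_lev hl hf; omega) (fun a b c h => by omega)

theorem nR_split {lev : V → ℕ} (i : ℕ) : nR lev i = nR lev (i + 1) + nv lev i := by
  rw [nR, nR, nv, Finset.card_filter, Finset.card_filter, Finset.card_filter,
    ← Finset.sum_add_distrib]
  refine Finset.sum_congr rfl fun v _ => ?_
  split_ifs <;> omega

theorem eR_split {lev : V → ℕ} (hl : D.Lev lev) (i : ℕ) :
    D.eR lev i = D.eR lev (i + 1) + D.dir lev i i + 2 * D.dir lev i (i + 1) := by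
  have h1 : 2 * D.dir lev i (i + 1) = D.dir lev i (i + 1) + D.dir lev (i + 1) i := by
    rw [D.dir_symm (i + 1) i]
    ring
  rw [h1, eR, eR, dir, dir, dir, Finset.card_filter, Finset.card_filter, Finset.card_filter,
    Finset.card_filter, Finset.card_filter, ← Finset.sum_add_distrib, ← Finset.sum_add_distrib,
    ← Finset.sum_add_distrib]
  refine Finset.sum_congr rfl fun x _ => ?_
  by_cases ha : D.adj x.1 x.2
  · have h2 := hl.step _ _ ha
    have h3 := hl.step _ _ (D.adj_symm _ _ ha)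
    simp only [ha, true_and]
    split_ifs <;> omega
  · simp [ha]

omit [Fintype V] in
theorem split_aux (x y z i : ℕ) (h1 : x ≤ y + 1) (h2 : y ≤ x + 1) (h3 : y ≤ z + 1)
    (h4 : z ≤ y + 1) (h5 : x ≤ z + 1) (h6 : z ≤ x + 1) :
    (if i ≤ x ∧ i ≤ y ∧ i ≤ z then 1 else 0) =
      (if i + 1 ≤ x ∧ i + 1 ≤ y ∧ i + 1 ≤ z then 1 else 0) +
      (if x = i ∧ y = i ∧ z = i then 1 else 0) +
      ((if x = i ∧ y = i ∧ z = i + 1 then 1 else 0) +
        (if x = i ∧ y = i + 1 ∧ z = i then 1 else 0) +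
        (if x = i + 1 ∧ y = i ∧ z = i then 1 else 0)) +
      ((if x = i ∧ y = i + 1 ∧ z = i + 1 then 1 else 0) +
        (if x = i + 1 ∧ y = i + 1 ∧ z = i then 1 else 0) +
        (if x = i + 1 ∧ y = i ∧ z = i + 1 then 1 else 0)) := by
  by_cases hA : i + 1 ≤ x ∧ i + 1 ≤ y ∧ i + 1 ≤ z
  · simp (disch := omega) only [if_pos, if_neg]
  · by_cases hB : i ≤ x ∧ i ≤ y ∧ i ≤ z
    · obtain ⟨hx | hx, hy | hy, hz | hz⟩ :
        (x = i ∨ x = i + 1) ∧ (y = i ∨ y = i + 1) ∧ (z = i ∨ z = i + 1) := by omega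
      all_goals first | omega | simp (disch := omega) only [if_pos, if_neg]
    · simp (disch := omega) only [if_neg]

theorem dR_split {lev : V → ℕ} (hl : D.Lev lev) (i : ℕ) :
    D.dR lev i = D.dR lev (i + 1) + D.cnt lev i i i + 3 * D.cnt lev i i (i + 1) +
      3 * D.cnt lev i (i + 1) (i + 1) := by
  have h1 : 3 * D.cnt lev i i (i + 1) =
      D.cnt lev i i (i + 1) + D.cnt lev i (i + 1) i + D.cnt lev (i + 1) i i := by
    rw [D.cnt_rot (i + 1) i i, D.cnt_rot i (i + 1) i, D.cnt_rot (i + 1) i i]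
    ring
  have h2 : 3 * D.cnt lev i (i + 1) (i + 1) =
      D.cnt lev i (i + 1) (i + 1) + D.cnt lev (i + 1) (i + 1) i + D.cnt lev (i + 1) i (i + 1) := by
    rw [D.cnt_rot (i + 1) i (i + 1), D.cnt_rot (i + 1) (i + 1) i, D.cnt_rot (i + 1) i (i + 1)]
    have h3 := D.cnt_rot (lev := lev) i (i + 1) (i + 1)
    have h4 := D.cnt_rot (lev := lev) (i + 1) (i + 1) i
    have h5 := D.cnt_rot (lev := lev) (i + 1) i (i + 1)
    omega
  have h3 : ∀ j, D.dR lev j = D.FF (fun a b c => j ≤ lev a ∧ j ≤ lev b ∧ j ≤ lev c) := by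
    intro j
    rw [← card_left, dR]
    congr 1
    ext x
    simp only [Finset.mem_filter]
  rw [h1, h2, h3, h3]
  simp only [cnt_eq]
  simp only [FF_eq_sum]
  simp only [← Finset.sum_add_distrib]
  refine Finset.sum_congr rfl fun t _ => ?_
  by_cases hf : D.face t.1 t.2.1 t.2.2
  · obtain ⟨g1, g2, g3, g4, g5, g6⟩ := D.face_lev hl hf
    simp only [hf, true_and]
    exact split_aux _ _ _ i g1 g2 g3 g4 g5 g6
  · simp [hf]

/-- The number of directed edges inside the subcomplex. -/
theorem eR_eq {lev : V → ℕ} (hl : D.Lev lev) (i : ℕ) :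
    D.eR lev (i + 1) = D.dR lev (i + 1) + D.cnt lev i (i + 1) (i + 1) := by
  have h1 : D.eR lev (i + 1) = D.EE (fun a b => i + 1 ≤ lev a ∧ i + 1 ≤ lev b) := by
    rw [EE, eR]
    congr 1
    ext x
    simp only [Finset.mem_filter]
  have h3 : D.dR lev (i + 1) =
      D.FF (fun a b c => i + 1 ≤ lev a ∧ i + 1 ≤ lev b ∧ i + 1 ≤ lev c) := by
    rw [← card_left, dR]
    congr 1
    ext x
    simp only [Finset.mem_filter]
  rw [h1, h3, EE_eq_FF D _ (fun a b h hR => D.exists_face hl h (by omega)), cnt_rot, cnt_eq]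
  exact D.FF_split (fun a b c hf => by have := D.face_lev hl hf; omega) (fun a b c h => by omega)

theorem sum_deg (lev : V → ℕ) (j : ℕ) :
    ∑ v ∈ ({v : V | lev v = j} : Finset V), D.deg v = D.EE (fun a _ => lev a = j) := by
  rw [EE_eq_sum, Finset.sum_filter, Fintype.sum_prod_type]
  refine Finset.sum_congr rfl fun v _ => ?_
  rw [deg, Finset.card_filter]
  split_ifs with h
  · simp [h]
  · simp [h]

theorem sum_deg_zero {lev : V → ℕ} (hl : D.Lev lev) :
    ∑ v ∈ ({v : V | lev v = 0} : Finset V), D.deg v = D.dir lev 0 0 + D.dir lev 0 1 := by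
  rw [sum_deg, dir_eq, dir_eq]
  simp only [EE_eq_sum]
  rw [← Finset.sum_add_distrib]
  refine Finset.sum_congr rfl fun x _ => ?_
  by_cases ha : D.adj x.1 x.2
  · have h2 := hl.step _ _ ha
    simp only [ha, true_and]
    split_ifs <;> omega
  · simp [ha]

theorem sum_deg_succ {lev : V → ℕ} (hl : D.Lev lev) (i : ℕ) :
    ∑ v ∈ ({v : V | lev v = i + 1} : Finset V), D.deg v =
      D.dir lev i (i + 1) + D.dir lev (i + 1) (i + 1) + D.dir lev (i + 1) (i + 2) := by
  rw [D.dir_symm i (i + 1), sum_deg, dir_eq, dir_eq, dir_eq]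
  simp only [EE_eq_sum]
  rw [← Finset.sum_add_distrib, ← Finset.sum_add_distrib]
  refine Finset.sum_congr rfl fun x _ => ?_
  by_cases ha : D.adj x.1 x.2
  · have h2 := hl.step _ _ ha
    have h3 := hl.step _ _ (D.adj_symm _ _ ha)
    simp only [ha, true_and]
    split_ifs <;> omega
  · simp [ha]

end Pool.Agent.Helper70.MD.Disc
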