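import Pool.Agent.Helper70.MD.BDefs

/-!
MD-B3: links.

`closed_link`: let `Q` be a nonempty set of neighbours of `v` such that each `p ∈ Q` has a link
successor in `Q` (`face v p q`, `q ∈ Q`). The map `p ↦ q` on `Q` is injective (`face v p q` and
`face v p' q` rotate to `face q v p`, `face q v p'`, so `p = p'` by `face_unique`), so (finite) each
`q ∈ Q` also has a link predecessor in `Q`. Successor and predecessor of `p` are different: otherwise
`face v p q` and `face v q p`, i.e. `face p q v` and `face q p v`, against `face_asymm`. So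
`#{q ∈ Q | face v p q ∨ face v q p} ≥ 2` for all `p ∈ Q`. By `forest` the vertex `v` is not
`hA, hB, hC`, and there is no neighbour outside `Q`.

`exists_exit`: suppose there is no such pair. Let `Q` be the set of neighbours of `v` of level `i`,
nonempty by `Lev.down`. Each `p ∈ Q` has a link successor: `face_exists` for `(v,p)` gives a face
`v p q` (`v` has positive level, so `(v,p)` is not exceptional). The level of `q` is at least `i`
(from `v`) and at most `i+1` (from `p`); it is not `i+1` by assumption, so `q ∈ Q`. By `closed_link`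
all neighbours of `v` are in `Q`, contradicting `hn`. `exists_entry`: the mirror image: for `p ∈ Q`
`face_exists` for `(p,v)` gives `face p v q`, i.e. `face v q p`; if all these `q` are in `Q` then each
`p ∈ Q` has a link predecessor in `Q`, hence by finiteness also a link successor in `Q`, and
`closed_link` applies.
-/

set_option autoImplicit false

namespace Pool.Agent.Helper70.MD.Disc

open Finset

open scoped Classical

variable {V : Type} [Fintype V] (D : Disc V)

/-- A set of neighbours closed under the link successor is the set of all neighbours. -/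
theorem closed_link (v : V) (Q : Finset V) (hQ : Q.Nonempty) (hadj : ∀ p ∈ Q, D.adj v p)
    (hs : ∀ p ∈ Q, ∃ q ∈ Q, D.face v p q) :
    (v ≠ D.hA ∧ v ≠ D.hB ∧ v ≠ D.hC) ∧ ∀ x, D.adj v x → x ∈ Q := by
  choose! s hsQ hsf using hs
  let f : {x // x ∈ Q} → {x // x ∈ Q} := fun p => ⟨s p, hsQ p p.2⟩
  have hinj : Function.Injective f := by
    intro p p' h
    have h' : s p = s p' := congrArg Subtype.val h
    have h1 := D.face_rot _ _ _ (D.face_rot _ _ _ (hsf p p.2))
    have h2 := D.face_rot _ _ _ (D.face_rot _ _ _ (hsf p' p'.2))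
    rw [← h'] at h2
    exact Subtype.ext (D.face_unique _ _ _ _ h1 h2)
  have hsurj : Function.Surjective f := Finite.injective_iff_surjective.1 hinj
  have hcard : ∀ p ∈ Q, 2 ≤ #{q ∈ Q | D.face v p q ∨ D.face v q p} := by
    intro p hp
    obtain ⟨r, hr⟩ := hsurj ⟨p, hp⟩
    have hr' : s r = p := congrArg Subtype.val hr
    have h1 := hsf p hp
    have h2 := hsf r r.2
    rw [hr'] at h2
    have hne : s p ≠ (r : V) := by
      intro e
      rw [e] at h1
      exact D.face_asymm _ _ _ (D.face_rot _ _ _ h1) (D.face_rot _ _ _ h2)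
    have hsub : ({s p, (r : V)} : Finset V) ⊆ {q ∈ Q | D.face v p q ∨ D.face v q p} := by
      intro x hx
      rw [Finset.mem_insert, Finset.mem_singleton] at hx
      rw [Finset.mem_filter]
      rcases hx with rfl | rfl
      · exact ⟨hsQ p hp, Or.inl h1⟩
      · exact ⟨r.2, Or.inr h2⟩
    calc 2 = #({s p, (r : V)} : Finset V) := (Finset.card_pair hne).symm
      _ ≤ _ := Finset.card_le_card hsub
  have hno : ¬ ((v = D.hA ∨ v = D.hB ∨ v = D.hC) ∨ ∃ x, D.adj v x ∧ x ∉ Q) := by
    intro h
    obtain ⟨p, hp, hc⟩ := D.forest v Q hQ hadj h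
    have := hcard p hp
    omega
  push Not at hno
  exact ⟨⟨hno.1.1, hno.1.2.1, hno.1.2.2⟩, fun x hx => hno.2 x hx⟩

theorem lev_pos_ne {lev : V → ℕ} (hl : D.Lev lev) {v : V} {i : ℕ} (hv : lev v = i + 1) :
    v ≠ D.hA ∧ v ≠ D.hB ∧ v ≠ D.hC := by
  refine ⟨fun h => ?_, fun h => ?_, fun h => ?_⟩
  · have := (hl.zero v).2 (Or.inl h); omega
  · have := (hl.zero v).2 (Or.inr (Or.inl h)); omega
  · have := (hl.zero v).2 (Or.inr (Or.inr h)); omega

/-- A vertex of positive level with a neighbour of at least the same level has a face on the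
outer side of the edge to its successor. -/
theorem exists_exit {lev : V → ℕ} (hl : D.Lev lev) {v : V} {i : ℕ} (hv : lev v = i + 1)
    (hn : ∃ u, D.adj v u ∧ i + 1 ≤ lev u) :
    ∃ p q, D.face v p q ∧ lev p = i ∧ lev q = i + 1 := by
  by_contra hcon
  push Not at hcon
  obtain ⟨nA, nB, nC⟩ := D.lev_pos_ne hl hv
  obtain ⟨u, hu, hlu⟩ := hn
  set Q : Finset V := Finset.univ.filter (fun p => D.adj v p ∧ lev p = i) with hQ
  have hmem : ∀ p, p ∈ Q ↔ D.adj v p ∧ lev p = i := by intro p; rw [hQ]; simp
  have hne : Q.Nonempty := by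
    obtain ⟨b, hb, hb2⟩ := hl.down v i hv
    exact ⟨b, (hmem b).2 ⟨hb, hb2⟩⟩
  have hs : ∀ p ∈ Q, ∃ q ∈ Q, D.face v p q := by
    intro p hp
    obtain ⟨hp1, hp2⟩ := (hmem p).1 hp
    rcases D.face_exists v p hp1 with ⟨c, hc⟩ | h | h | h
    · refine ⟨c, ?_, hc⟩
      have a1 : D.adj p c := D.face_adj _ _ _ (D.face_rot _ _ _ hc)
      have a2 : D.adj c v := D.face_adj _ _ _ (D.face_rot _ _ _ (D.face_rot _ _ _ hc))
      have l1 := hl.step p c a1
      have l2 := hl.step c v a2
      have l3 := hcon p c hc hp2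
      rw [hmem]
      exact ⟨D.adj_symm _ _ a2, by omega⟩
    · exact absurd h.1 nB
    · exact absurd h.1 nC
    · exact absurd h.1 nA
  have h := (D.closed_link v Q hne (fun p hp => ((hmem p).1 hp).1) hs).2 u hu
  have := ((hmem u).1 h).2
  omega

theorem exists_entry {lev : V → ℕ} (hl : D.Lev lev) {v : V} {i : ℕ} (hv : lev v = i + 1)
    (hn : ∃ u, D.adj v u ∧ i + 1 ≤ lev u) :
    ∃ q p, D.face v q p ∧ lev p = i ∧ lev q = i + 1 := by
  by_contra hcon
  push Not at hcon
  obtain ⟨nA, nB, nC⟩ := D.lev_pos_ne hl hv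
  obtain ⟨u, hu, hlu⟩ := hn
  set Q : Finset V := Finset.univ.filter (fun p => D.adj v p ∧ lev p = i) with hQ
  have hmem : ∀ p, p ∈ Q ↔ D.adj v p ∧ lev p = i := by intro p; rw [hQ]; simp
  have hne : Q.Nonempty := by
    obtain ⟨b, hb, hb2⟩ := hl.down v i hv
    exact ⟨b, (hmem b).2 ⟨hb, hb2⟩⟩
  have hs : ∀ p ∈ Q, ∃ q ∈ Q, D.face v q p := by
    intro p hp
    obtain ⟨hp1, hp2⟩ := (hmem p).1 hp
    rcases D.face_exists p v (D.adj_symm _ _ hp1) with ⟨c, hc⟩ | h | h | h
    · have hc' : D.face v c p := D.face_rot _ _ _ hc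
      refine ⟨c, ?_, hc'⟩
      have a1 : D.adj v c := D.face_adj _ _ _ hc'
      have a2 : D.adj c p := D.face_adj _ _ _ (D.face_rot _ _ _ hc')
      have l1 := hl.step p c (D.adj_symm _ _ a2)
      have l2 := hl.step c v (D.adj_symm _ _ a1)
      have l3 := hcon c p hc' hp2
      rw [hmem]
      exact ⟨a1, by omega⟩
    · exact absurd h.2 nA
    · exact absurd h.2 nB
    · exact absurd h.2 nC
  choose! t htQ htf using hs
  let f : {x // x ∈ Q} → {x // x ∈ Q} := fun p => ⟨t p, htQ p p.2⟩
  have hinj : Function.Injective f := by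
    intro p p' h
    have h' : t p = t p' := congrArg Subtype.val h
    have h1 := htf p p.2
    have h2 := htf p' p'.2
    rw [← h'] at h2
    exact Subtype.ext (D.face_unique _ _ _ _ h1 h2)
  have hsurj : Function.Surjective f := Finite.injective_iff_surjective.1 hinj
  have hs' : ∀ p ∈ Q, ∃ q ∈ Q, D.face v p q := by
    intro p hp
    obtain ⟨r, hr⟩ := hsurj ⟨p, hp⟩
    have hr' : t r = p := congrArg Subtype.val hr
    have h2 := htf r r.2
    rw [hr'] at h2
    exact ⟨r, r.2, h2⟩
  have h := (D.closed_link v Q hne (fun p hp => ((hmem p).1 hp).1) hs').2 u hu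
  have := ((hmem u).1 h).2
  omega

end Pool.Agent.Helper70.MD.Disc
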