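import Pool.Agent.Helper70.MD.B1
import Pool.Agent.Helper70.MD.B2
import Pool.Agent.Helper70.MD.B3

/-!
MD-B4: growth of the layers and the extremal case.

Notation: `n i = nv lev i`, `t i = cnt i i i`, `a i = cnt i i (i+1)`, `b i = cnt i (i+1) (i+1)`,
`X i = chi i`, `q i` = number of vertices of level `i` without a neighbour of level `≥ i`.

(1) For `i ≥ 1`: `n i ≤ b (i-1) + q i`. A vertex `v` of level `i` which is not counted in `q i` has by
`exists_exit` a face `v p q'` with `lev p = i-1`, `lev q' = i`, i.e. the directed edge `(q', v)` has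
the face with third vertex `p` on its left; distinct `v` give distinct directed edges, so their
number is at most `cnt i i (i-1) = b (i-1)`.
(2) For `i ≥ 1`: if some vertex of `R_i = {lev ≥ i}` has a neighbour in `R_i` then
`X i ≥ 6 (q i + 1)`: apply `label_le` to the labelling which gives different labels to the `q i`
isolated vertices and one further label to all other vertices. Otherwise `R_i` consists of
isolated vertices of level `i` only (a vertex of level `> i` has a neighbour of the level just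
below), `q i = n i`, `X i = 6 n i`, `n (i+1) = 0`, `b i = 0`, `X (i+1) = 0`. (This includes the
case that `R_i` is empty.)
(3) For all `j ≥ 0`: `b j - a j + X (j+1) ≤ 12`. Induction. `j = 0`: the degree sum of level 0 is at
most `18`, so `t 0 + 2 a 0 + 3 + b 0 ≤ 18`, and `X 1 = X 0 - 9 + t 0 + 3 a 0 = t 0 + 3 a 0 - 3`. Add.
Step: the degree sum of level `j ≥ 1` is at most `6 n j`:
`t j + 2 a j + 2 b (j-1) + b j + a (j-1) ≤ 6 n j`, and
`X j = X (j+1) + 6 n j - t j - 3 a j - 3 b (j-1)`; hence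
`X j - X (j+1) ≥ b j - a j - (b (j-1) - a (j-1))`.
(4) For `i ≥ 1`: `3 b (i-1) ≤ 18 i + 21 - 2 X i`. Induction. `i = 1`: `b 0 ≤ 12 + a 0 - X 1` and
`3 a 0 ≤ X 1 + 3`. Step `j ≥ 1`, from `j` to `j + 1`: from `chi_diff_succ`
`3 a j ≤ 6 n j - 3 b (j-1) - X j + X (j+1)`, with (3)
`3 b j ≤ 36 - 3 X (j+1) + 3 a j ≤ 36 - 2 X (j+1) + 6 n j - 3 b (j-1) - X j`, with (1)
`6 n j - 3 b (j-1) ≤ 3 b (j-1) + 6 q j`, with the induction hypothesis
`3 b j ≤ 36 - 2 X (j+1) + 18 j + 21 - 3 X j + 6 q j`. In the first case of (2),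
`3 X j ≥ 18 q j + 18 ≥ 6 q j + 18` and we get `3 b j ≤ 18 (j+1) + 21 - 2 X (j+1)`. In the second case
`b j = 0`, `X (j+1) = 0` and the claim is trivial.
(5) `growth`: `i = 0`: `nv_zero`. `i ≥ 1`: `3 n i ≤ 3 b (i-1) + 3 q i ≤ 18 i + 21 - 2 X i + 3 q i`. In the
first case of (2) this is `≤ 18 i + 9 - 9 q i`, so `n i ≤ 6 i + 3`. In the second case, from (4) and
`b ≥ 0`: `12 n i = 2 X i ≤ 18 i + 21`, so `n i ≤ 6 i + 3`.

`growth_eq`. For `1 ≤ i ≤ M`, `n i = 6 i + 3`. The second case of (2) is impossible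
(`12 (6 i + 3) ≤ 18 i + 21` is false). So `18 i + 9 = 3 n i ≤ 3 b (i-1) + 3 q i ≤ 18 i + 21 - 2 X i + 3 q i
≤ 18 i + 9 - 9 q i`: so `q i = 0`, `X i = 6`, `b (i-1) = n i`. Also `X 0 = 6`. For `i = 0`:
`X 1 = 6` gives `t 0 + 3 a 0 = 9`; `b 0 = 9` and (3) give `a 0 ≥ 3`; so `a 0 = 3`, `t 0 = 0`; the degree
sum of level 0 is `6 + 3 + 9 = 18`, so all three degrees are `6`. For `1 ≤ i < M`: `X i = X (i+1) = 6`
gives `t i + 3 a i = 6 n i - 3 b (i-1) = 3 n i`; (3) gives `a i ≥ b i - 6 = n (i+1) - 6 = n i`; so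
`a i = n i`, `t i = 0`; the degree sum is `2 n i + 2 n i + n (i+1) + n (i-1) = 6 n i`, so all degrees
are `6`. `q i = 0` says that each vertex of level `i`, `1 ≤ i ≤ M`, has a neighbour of level `≥ i`.
Finally for `1 ≤ i ≤ M`, `X i = 6` and `eR_eq` (`eR i = dR i + b (i-1)`) give
`6 nR i - eR i - 2 (6 i + 3) = 6`.
-/

set_option autoImplicit false

namespace Pool.Agent.Helper70.MD.Disc

open Finset

open scoped Classical

variable {V : Type} [Fintype V] (D : Disc V)

/-- The vertices of level `i` without a neighbour of level at least `i`. -/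
private noncomputable def isoV (lev : V → ℕ) (i : ℕ) : Finset V :=
  {v : V | lev v = i ∧ ¬ ∃ u, D.adj v u ∧ i ≤ lev u}

private theorem b4_one {lev : V → ℕ} (hl : D.Lev lev) (i : ℕ) :
    nv lev (i + 1) ≤ D.cnt lev i (i + 1) (i + 1) + #(D.isoV lev (i + 1)) := by
  have h1 : ({v : V | lev v = i + 1} : Finset V) ⊆
      ({v : V | lev v = i + 1 ∧ ∃ u, D.adj v u ∧ i + 1 ≤ lev u} : Finset V) ∪
        D.isoV lev (i + 1) := by
    intro v hv
    simp only [mem_filter, mem_univ, true_and] at hv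
    simp only [isoV, mem_union, mem_filter, mem_univ, true_and]
    by_cases h : ∃ u, D.adj v u ∧ i + 1 ≤ lev u
    · exact Or.inl ⟨hv, h⟩
    · exact Or.inr ⟨hv, h⟩
  have h2 : nv lev (i + 1) ≤
      #({v : V | lev v = i + 1 ∧ ∃ u, D.adj v u ∧ i + 1 ≤ lev u} : Finset V) +
        #(D.isoV lev (i + 1)) := (card_le_card h1).trans (card_union_le _ _)
  have h3 : #({v : V | lev v = i + 1 ∧ ∃ u, D.adj v u ∧ i + 1 ≤ lev u} : Finset V) ≤
      D.cnt lev i (i + 1) (i + 1) := by
    rw [D.cnt_rot i (i + 1) (i + 1)]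
    have hex : ∀ v ∈ ({v : V | lev v = i + 1 ∧ ∃ u, D.adj v u ∧ i + 1 ≤ lev u} : Finset V),
        ∃ q : V, (q, v) ∈ ({x : V × V | ∃ c, D.face x.1 x.2 c ∧ lev x.1 = i + 1 ∧
          lev x.2 = i + 1 ∧ lev c = i} : Finset (V × V)) := by
      intro v hv
      simp only [mem_filter, mem_univ, true_and] at hv
      obtain ⟨p, q, hf, hp, hq⟩ := D.exists_exit hl hv.1 hv.2
      refine ⟨q, ?_⟩
      simp only [mem_filter, mem_univ, true_and]
      exact ⟨p, D.face_rot _ _ _ (D.face_rot _ _ _ hf), hq, hv.1, hp⟩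
    choose! g hg using hex
    unfold cnt
    refine card_le_card_of_injOn (fun v => (g v, v)) (fun v hv => hg v hv) ?_
    intro v _ w _ hvw
    exact (Prod.mk.inj hvw).2
  omega

private theorem b4_two_a {lev : V → ℕ} (hl : D.Lev lev) (i : ℕ)
    (h : ∃ a b, D.adj a b ∧ i ≤ lev a ∧ i ≤ lev b) :
    6 * ((#(D.isoV lev i) : ℤ) + 1) ≤ D.chi lev i := by
  obtain ⟨a, b, hab, ha, hb⟩ := h
  have hiso : ∀ a b, D.adj a b → i ≤ lev b → a ∉ D.isoV lev i := by
    intro a b hab hb ha
    simp only [isoV, mem_filter, mem_univ, true_and] at ha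
    exact ha.2 ⟨b, hab, hb⟩
  let f : V → ℕ := fun v => if v ∈ D.isoV lev i then (Fintype.equivFin V v : ℕ) + 1 else 0
  have hf : ∀ a b, D.adj a b → i ≤ lev a → i ≤ lev b → f a = f b := by
    intro a b hab ha hb
    have h1 := hiso a b hab hb
    have h2 := hiso b a (D.adj_symm _ _ hab) ha
    simp only [f, h1, h2, if_false]
  have hL := D.label_le hl i f hf
  have hsub : insert 0 ((D.isoV lev i).image f) ⊆
      (({v : V | i ≤ lev v} : Finset V).image f) := by
    intro x hx
    rw [mem_insert] at hx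
    rcases hx with rfl | hx
    · rw [mem_image]
      refine ⟨a, by simpa using ha, ?_⟩
      have h1 := hiso a b hab hb
      simp only [f, h1, if_false]
    · rw [mem_image] at hx
      obtain ⟨v, hv, rfl⟩ := hx
      rw [mem_image]
      refine ⟨v, ?_, rfl⟩
      simp only [isoV, mem_filter, mem_univ, true_and] at hv
      simp only [mem_filter, mem_univ, true_and]
      exact hv.1.ge
  have hcard : #(D.isoV lev i) + 1 ≤ #(({v : V | i ≤ lev v} : Finset V).image f) := by
    refine le_trans ?_ (card_le_card hsub)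
    rw [card_insert_of_notMem, card_image_of_injOn]
    · intro v hv w hw hvw
      simp only [mem_coe] at hv hw
      simp only [f, hv, hw, if_true, add_left_inj] at hvw
      exact (Fintype.equivFin V).injective (Fin.ext hvw)
    · intro h0
      rw [mem_image] at h0
      obtain ⟨v, hv, hv0⟩ := h0
      simp only [f, hv, if_true] at hv0
      omega
  have hcard' : ((#(D.isoV lev i) : ℤ) + 1) ≤
      (#(({v : V | i ≤ lev v} : Finset V).image f) : ℤ) := by exact_mod_cast hcard
  linarith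

private theorem b4_two_b {lev : V → ℕ} (hl : D.Lev lev) (i : ℕ)
    (h : ¬ ∃ a b, D.adj a b ∧ i ≤ lev a ∧ i ≤ lev b) :
    D.chi lev i = 6 * (nv lev i : ℤ) ∧ D.cnt lev i (i + 1) (i + 1) = 0 ∧
      D.chi lev (i + 1) = 0 := by
  have hlev : ∀ v, i ≤ lev v → lev v = i := by
    intro v hv
    by_contra hne
    obtain ⟨n, hn⟩ : ∃ n, lev v = n + 1 := ⟨lev v - 1, by omega⟩
    obtain ⟨b, hb, hbn⟩ := hl.down v n hn
    exact h ⟨v, b, hb, hv, by omega⟩
  have hnR : nR lev i = nv lev i := by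
    unfold nR nv
    congr 1
    ext v
    simp only [mem_filter, mem_univ, true_and]
    exact ⟨hlev v, fun h => h.ge⟩
  have hnR1 : nR lev (i + 1) = 0 := by
    unfold nR
    rw [card_eq_zero, filter_eq_empty_iff]
    intro v _ hv
    have := hlev v (by omega)
    omega
  have heR : ∀ j, i ≤ j → D.eR lev j = 0 := by
    intro j hj
    unfold eR
    rw [card_eq_zero, filter_eq_empty_iff]
    rintro x _ ⟨h1, h2, h3⟩
    exact h ⟨x.1, x.2, h1, by omega, by omega⟩
  have hdR : ∀ j, i ≤ j → D.dR lev j = 0 := by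
    intro j hj
    unfold dR
    rw [card_eq_zero, filter_eq_empty_iff]
    rintro x _ ⟨c, h1, h2, h3, h4⟩
    exact h ⟨x.1, x.2, D.face_adj _ _ _ h1, by omega, by omega⟩
  refine ⟨?_, ?_, ?_⟩
  · unfold chi
    rw [heR i le_rfl, hdR i le_rfl, hnR]
    simp
  · unfold cnt
    rw [card_eq_zero, filter_eq_empty_iff]
    rintro x _ ⟨c, h1, h2, h3, h4⟩
    exact h ⟨x.1, x.2, D.face_adj _ _ _ h1, by omega, by omega⟩
  · unfold chi
    rw [heR (i + 1) (by omega), hdR (i + 1) (by omega), hnR1]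
    simp

private theorem b4_degsum (lev : V → ℕ) (hdeg : ∀ v, D.deg v ≤ 6) (i : ℕ) :
    ∑ v ∈ ({v : V | lev v = i} : Finset V), D.deg v ≤ 6 * nv lev i := by
  have := sum_le_card_nsmul ({v : V | lev v = i} : Finset V) D.deg 6 (fun v _ => hdeg v)
  rw [smul_eq_mul, mul_comm] at this
  exact this

private theorem b4_three {lev : V → ℕ} (hl : D.Lev lev) (hdeg : ∀ v, D.deg v ≤ 6) (j : ℕ) :
    (D.cnt lev j (j + 1) (j + 1) : ℤ) - D.cnt lev j j (j + 1) + D.chi lev (j + 1) ≤ 12 := by
  induction j with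
  | zero =>
    have h1 := D.b4_degsum lev hdeg 0
    rw [D.deg_sum_zero hl, nv_zero D hl] at h1
    have h2 := D.chi_zero hl
    have h3 := D.chi_diff_zero hl
    simp only [zero_add]
    omega
  | succ j ih =>
    have h1 := D.b4_degsum lev hdeg (j + 1)
    rw [D.deg_sum_succ hl] at h1
    have h2 := D.chi_diff_succ hl j
    have e1 : j + 1 + 1 = j + 2 := rfl
    rw [e1]
    omega

private theorem b4_four {lev : V → ℕ} (hl : D.Lev lev) (hdeg : ∀ v, D.deg v ≤ 6) (j : ℕ) :
    3 * (D.cnt lev j (j + 1) (j + 1) : ℤ) ≤ 18 * ((j : ℤ) + 1) + 21 -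
      2 * D.chi lev (j + 1) := by
  induction j with
  | zero =>
    have h2 := D.chi_zero hl
    have h3 := D.chi_diff_zero hl
    have h4 := D.b4_three hl hdeg 0
    simp only [zero_add] at h4 ⊢
    push_cast
    omega
  | succ j ih =>
    have h1 := D.b4_one hl j
    have h2 := D.chi_diff_succ hl j
    have h3 := D.b4_three hl hdeg (j + 1)
    have e1 : j + 1 + 1 = j + 2 := rfl
    rw [e1] at h3 ⊢
    by_cases h : ∃ a b, D.adj a b ∧ j + 1 ≤ lev a ∧ j + 1 ≤ lev b
    · have h5 := D.b4_two_a hl (j + 1) h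
      push_cast at ih ⊢
      omega
    · obtain ⟨h5, h6, h7⟩ := D.b4_two_b hl (j + 1) h
      rw [e1] at h6 h7
      push_cast at ih ⊢
      omega

/-- Growth of the layers. -/
theorem growth {lev : V → ℕ} (hl : D.Lev lev) (hdeg : ∀ v, D.deg v ≤ 6) (i : ℕ) :
    nv lev i ≤ 6 * i + 3 := by
  cases i with
  | zero => rw [nv_zero D hl]
  | succ j =>
    have h1 := D.b4_one hl j
    have h4 := D.b4_four hl hdeg j
    by_cases h : ∃ a b, D.adj a b ∧ j + 1 ≤ lev a ∧ j + 1 ≤ lev b
    · have h5 := D.b4_two_a hl (j + 1) h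
      omega
    · obtain ⟨h5, h6, h7⟩ := D.b4_two_b hl (j + 1) h
      omega

private theorem b4_key {lev : V → ℕ} (hl : D.Lev lev) (hdeg : ∀ v, D.deg v ≤ 6) {M : ℕ}
    (hn : ∀ i ≤ M, nv lev i = 6 * i + 3) (j : ℕ) (hj : j < M) :
    #(D.isoV lev (j + 1)) = 0 ∧ D.chi lev (j + 1) = 6 ∧
      D.cnt lev j (j + 1) (j + 1) = 6 * (j + 1) + 3 := by
  have h1 := D.b4_one hl j
  have h4 := D.b4_four hl hdeg j
  have h2 := hn (j + 1) hj
  by_cases h : ∃ a b, D.adj a b ∧ j + 1 ≤ lev a ∧ j + 1 ≤ lev b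
  · have h5 := D.b4_two_a hl (j + 1) h
    refine ⟨?_, ?_, ?_⟩ <;> omega
  · obtain ⟨h5, h6, h7⟩ := D.b4_two_b hl (j + 1) h
    exfalso
    omega

/-- The extremal case. -/
theorem growth_eq {lev : V → ℕ} (hl : D.Lev lev) (hdeg : ∀ v, D.deg v ≤ 6) {M : ℕ} (hM : 1 ≤ M)
    (hn : ∀ i ≤ M, nv lev i = 6 * i + 3) (htop : ∀ v, lev v ≤ M) :
    (∀ i < M, D.cnt lev i (i + 1) (i + 1) = 6 * (i + 1) + 3) ∧
    (∀ i < M, D.cnt lev i i (i + 1) = 6 * i + 3) ∧
    (∀ i < M, D.cnt lev i i i = 0) ∧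
    (∀ v, lev v < M → D.deg v = 6) ∧
    (∀ i ≤ M, D.chi lev i = 6) ∧
    (∀ v, 1 ≤ lev v → ∃ u, D.adj v u ∧ lev v ≤ lev u) ∧
    (∀ i, 1 ≤ i → i ≤ M → D.eR lev i + 2 * (6 * i + 3) + 6 = 6 * nR lev i) := by
  have hb : ∀ i < M, D.cnt lev i (i + 1) (i + 1) = 6 * (i + 1) + 3 :=
    fun i hi => (D.b4_key hl hdeg hn i hi).2.2
  have hX : ∀ i ≤ M, D.chi lev i = 6 := by
    intro i hi
    cases i with
    | zero => exact D.chi_zero hl
    | succ j => exact (D.b4_key hl hdeg hn j hi).2.1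
  have hat : ∀ i < M, D.cnt lev i i (i + 1) = 6 * i + 3 ∧ D.cnt lev i i i = 0 := by
    intro i hi
    cases i with
    | zero =>
      have h1 := hb 0 hi
      have h2 := hX 1 hM
      have h3 := D.chi_diff_zero hl
      have h4 := D.b4_three hl hdeg 0
      have h5 := D.chi_zero hl
      simp only [zero_add] at h1 h4 ⊢
      constructor <;> omega
    | succ j =>
      have h1 := hb j (by omega)
      have h1' := hb (j + 1) hi
      have h2 := hX (j + 1) (by omega)
      have h2' := hX (j + 2) hi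
      have h3 := D.chi_diff_succ hl j
      have h4 := D.b4_three hl hdeg (j + 1)
      have h5 := hn (j + 1) (by omega)
      have e1 : j + 1 + 1 = j + 2 := rfl
      rw [e1] at h4 h1' ⊢
      constructor <;> omega
  have hdeg6 : ∀ v, lev v < M → D.deg v = 6 := by
    intro v hv
    have hs : ∑ v ∈ ({w : V | lev w = lev v} : Finset V), D.deg v =
        ∑ v ∈ ({w : V | lev w = lev v} : Finset V), 6 := by
      have hc : ∑ w ∈ ({w : V | lev w = lev v} : Finset V), 6 = 6 * nv lev (lev v) := by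
        rw [sum_const, smul_eq_mul, mul_comm]
        rfl
      rw [hc, hn _ hv.le]
      generalize lev v = i at hv
      cases i with
      | zero =>
        rw [D.deg_sum_zero hl]
        have h1 := hb 0 hv
        have h2 := hat 0 hv
        simp only [zero_add] at h1 h2
        omega
      | succ j =>
        rw [D.deg_sum_succ hl]
        have h1 := hb j (by omega)
        have h1' := hb (j + 1) hv
        have h2 := hat j (by omega)
        have h2' := hat (j + 1) hv
        have e1 : j + 1 + 1 = j + 2 := rfl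
        rw [e1] at h1' h2'
        omega
    exact (sum_eq_sum_iff_of_le (fun w _ => hdeg w)).1 hs v (by simp)
  refine ⟨hb, fun i hi => (hat i hi).1, fun i hi => (hat i hi).2, hdeg6, hX, ?_, ?_⟩
  · intro v hv
    by_contra hno
    obtain ⟨j, hj⟩ : ∃ j, lev v = j + 1 := ⟨lev v - 1, by omega⟩
    have hjM : j < M := by
      have := htop v
      omega
    have h0 := (D.b4_key hl hdeg hn j hjM).1
    rw [card_eq_zero] at h0
    have hmem : v ∈ D.isoV lev (j + 1) := by
      simp only [isoV, mem_filter, mem_univ, true_and]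
      refine ⟨hj, ?_⟩
      rw [← hj]
      exact hno
    rw [h0] at hmem
    exact absurd hmem (notMem_empty _)
  · intro i h1 h2
    obtain ⟨j, rfl⟩ : ∃ j, i = j + 1 := ⟨i - 1, by omega⟩
    have h3 := hX (j + 1) h2
    have h4 := D.eR_eq hl j
    have h5 := hb j h2
    unfold chi at h3
    omega

end Pool.Agent.Helper70.MD.Disc
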