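import Pool.Agent.Helper70.MD.B5a

/-!
MD-B5: the ring structure.

Take `succ`, `apex` from `rings` (B5a); write `i = lev v`.
Neighbours of the same level: for `1 ≤ lev v < M` the vertex `v` has exactly two neighbours of its own
level, `succ v` and the `w` with `succ w = v` (write `pred v`). They are neighbours
(`face_adj`), they are different (otherwise `succ (succ v) = v`). The total number of directed edges
inside level `i` is by `dir_same_succ` `cnt (i-1) i i + cnt i i i + cnt i i (i+1)
= (6 i + 3) + 0 + (6 i + 3) = 2 nv lev i`, and each vertex has at least two, so each has exactly two.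
Link of `v`, `1 ≤ lev v ≤ M`: `face v (apex v) (succ v)` and `face v (pred v) (apex (pred v))`.
Let `O v` be the set of neighbours of `v` of level `i-1` (`outer`), `I v` the set of those of level
`i+1` (`inner`). For `p ∈ O v`, the link successor of `p` exists and is in `O v` or is `succ v`, and
in the latter case `p = apex v` (uniqueness). Iterating the link successor from any `p ∈ O v` one
must reach `apex v` (otherwise the iterates form a closed set inside `O v`, contradicting
`closed_link` because `succ v` is a neighbour not in it). Likewise iterating the link predecessor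
from any `p ∈ O v` one reaches `apex (pred v)`.
Degrees: for `lev v < M` the degree is `6`; so `#(O v) + #(I v) = 4` for `1 ≤ lev v < M`, and for
`lev v = 0`: by `dir_same_zero`, `dir 0 0 = 0 + 3 + 3 = 6`, each hull vertex is adjacent to the two
others, so it has exactly `6 - 2 = 4` neighbours of level `1`.
Claim A: if `x`, `y` have level `j < M`, `w` has level `j+1` and `face x y w`, then for `j ≥ 1` we
have `y = succ x`. Indeed `y` is `succ x` or `pred x`; if `y = pred x` (`succ y = x`) then
`face (succ y) y (apex y)` is `face x y (apex y)`, so `w = apex y` by `face_unique`, but the levels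
differ. For `j = 0`: put `next hA = hB`, `next hB = hC`, `next hC = hA`; then `y = next x`, because
`outer_none` excludes `y = prev x`.
Claim B: `#(O v) ≤ 2` for all `v` with `1 ≤ lev v ≤ M`. Induction on the level `i`. Suppose
`#(O v) ≥ 3`. Iterating the link successor in `O v` from the element `apex (pred v)` we get pairwise
different `p1, p2, p3 ∈ O v` with `face v p1 p2`, `face v p2 p3` (take `p2 ∈ O v` different from
`apex v` and from `apex (pred v)`; it has a link successor `p3` and a link predecessor `p1` in
`O v`). By claim A for the faces `p1 p2 v`, `p2 p3 v`: `p2` is the successor of `p1`, `p3` of `p2`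
(in the sense `succ` or `next`). At `p2` we have `face p2 p3 v` and `face p2 v p1`. If the level
`j = i-1` of `p2` is `≥ 1`: the set `{p3, v, p1} ∪ O p2` is closed under link successor at `p2`: the
link successor of `p3 = succ p2` is `v`, that of `v` is `p1 = pred p2`, that of `p1` is
`apex p1` (as `face p2 p1 (apex p1)`), and that of an element of `O p2` is in `O p2` or is
`succ p2 = p3`. By `closed_link` this is everything, so `I p2 = {v}`, and
`#(O p2) = 4 - 1 = 3`, contradicting the induction hypothesis (`j < i`). If `j = 0`: let `z` be any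
neighbour of `p2` of level 1 different from `v`. Iterating the link successor at `p2` from `z` we
never reach `v` (its link predecessor is `p3`), `p3` (no link predecessor: `face p2 z' p3` is
`face p3 p2 z'`, excluded by `outer_none`), `p1` (its link predecessor is `v`); every vertex other
than `p1` has a link successor (`face_exists`; `(p2, p1)` is the exceptional one); so the iterates
form a nonempty closed set and `closed_link` says that `p2` is not a hull vertex, contradiction. So
`p2` has only one neighbour of level 1, contradicting the number 4 above.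
Conclusion 3: let `lev v ≥ 2`, `w = succ v`, so `v = pred w`. `apex v` is the starting
element of the arc `O w` and `apex w` is its last one. If they are different, then `O w` has
exactly these two elements, the link successor of `apex v` in the link of `w` is in
`O w ∪ {succ w}`, not `succ w` (that would force `apex v = apex w`), not itself, so it is
`apex w`: `face w (apex v) (apex w)`, which rotates to `face (apex v) (apex w) w`; by claim A
(level of `apex v` is `lev v - 1 ≥ 1`, and `< M`) `apex w = succ (apex v)`.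
Conclusion 4: `1 ≤ lev x < M`. `#(I x) = 4 - #(O x) ≥ 2` by claim B. There are `w1 ∈ I x` and
`w2 ∈ I x` with `face x w1 w2`: otherwise each element of `I x` has link successor of level
`lev x`, not `succ x` (the link predecessor of `succ x` is `apex x`), so it is
`pred x`; but the link successor is injective: `#(I x) ≤ 1`, contradiction. (The link successor of
an element of `I x` has level `lev x` or `lev x + 1`.) Then `face w1 w2 x`, so by the uniqueness in
`rings` `w1 = succ w2` and `x = apex w2`, `lev w2 = lev x + 1`.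
-/

set_option autoImplicit false

namespace Pool.Agent.Helper70.MD.Disc

open Finset

open scoped Classical

variable {V : Type} [Fintype V] (D : Disc V)

/-- The neighbours of level `j`. -/
noncomputable def b5N (lev : V → ℕ) (v : V) (j : ℕ) : Finset V :=
  {u : V | D.adj v u ∧ lev u = j}

theorem b5_mem {lev : V → ℕ} {v : V} {j : ℕ} {u : V} :
    u ∈ D.b5N lev v j ↔ D.adj v u ∧ lev u = j := by
  simp [b5N]

theorem b5_dir (lev : V → ℕ) (i : ℕ) :
    D.dir lev i i = ∑ v ∈ ({v : V | lev v = i} : Finset V), #(D.b5N lev v i) := by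
  rw [dir, card_eq_sum_card_fiberwise (f := Prod.fst) (t := ({v : V | lev v = i} : Finset V))]
  · refine sum_congr rfl fun v hv => ?_
    simp only [mem_filter, mem_univ, true_and] at hv
    refine card_nbij' Prod.snd (fun u => (v, u)) ?_ ?_ ?_ ?_
    · rintro ⟨a, b⟩ ht
      simp only [coe_filter, mem_filter, mem_univ, true_and, Set.mem_ofPred_eq] at ht
      obtain ⟨⟨h1, h2, h3⟩, rfl⟩ := ht
      rw [mem_coe, b5_mem]
      exact ⟨h1, h3⟩
    · intro u hu
      rw [mem_coe, b5_mem] at hu
      simp only [coe_filter, mem_filter, mem_univ, true_and, Set.mem_ofPred_eq]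
      exact ⟨⟨hu.1, hv, hu.2⟩, trivial⟩
    · rintro ⟨a, b⟩ ht
      simp only [coe_filter, mem_filter, mem_univ, true_and, Set.mem_ofPred_eq] at ht
      obtain ⟨_, rfl⟩ := ht
      rfl
    · intro u _
      rfl
  · rintro ⟨a, b⟩ ht
    simp only [coe_filter, mem_univ, true_and, Set.mem_ofPred_eq] at ht ⊢
    exact ht.2.1

theorem b5_deg_succ {lev : V → ℕ} (hl : D.Lev lev) {v : V} {j : ℕ} (hv : lev v = j + 1) :
    D.deg v = #(D.b5N lev v j) + #(D.b5N lev v (j + 1)) + #(D.b5N lev v (j + 2)) := by
  have h : ({u : V | D.adj v u} : Finset V) =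
      (D.b5N lev v j ∪ D.b5N lev v (j + 1)) ∪ D.b5N lev v (j + 2) := by
    ext u
    simp only [mem_filter, mem_univ, true_and, mem_union, b5_mem]
    constructor
    · intro hu
      have h1 := hl.step _ _ hu
      have h2 := hl.step _ _ (D.adj_symm _ _ hu)
      have h3 : lev u = j ∨ lev u = j + 1 ∨ lev u = j + 2 := by omega
      tauto
    · tauto
  rw [deg, h, card_union_of_disjoint, card_union_of_disjoint]
  · rw [disjoint_left]
    intro u h1 h2
    rw [b5_mem] at h1 h2
    omega
  · rw [disjoint_left]
    intro u h1 h2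
    rw [mem_union, b5_mem, b5_mem] at h1
    rw [b5_mem] at h2
    omega

theorem b5_deg_zero {lev : V → ℕ} (hl : D.Lev lev) {v : V} (hv : lev v = 0) :
    D.deg v = #(D.b5N lev v 0) + #(D.b5N lev v 1) := by
  have h : ({u : V | D.adj v u} : Finset V) = D.b5N lev v 0 ∪ D.b5N lev v 1 := by
    ext u
    simp only [mem_filter, mem_univ, true_and, mem_union, b5_mem]
    constructor
    · intro hu
      have h1 := hl.step _ _ hu
      have h3 : lev u = 0 ∨ lev u = 1 := by omega
      tauto
    · tauto
  rw [deg, h, card_union_of_disjoint]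
  rw [disjoint_left]
  intro u h1 h2
  rw [b5_mem] at h1 h2
  omega

/-- The rings with the predecessor. -/
structure B5R (lev : V → ℕ) (succ apex pred : V → V) : Prop where
  sa : ∀ v, 1 ≤ lev v → lev (succ v) = lev v ∧ lev (apex v) + 1 = lev v ∧
        D.face (succ v) v (apex v)
  uniq : ∀ v s u, 1 ≤ lev v → lev s = lev v → lev u + 1 = lev v → D.face s v u →
        s = succ v ∧ u = apex v
  pr : ∀ v, 1 ≤ lev v → lev (pred v) = lev v ∧ succ (pred v) = v
  ss : ∀ v, 1 ≤ lev v → succ (succ v) ≠ v
  inj : ∀ v w, 1 ≤ lev v → 1 ≤ lev w → succ v = succ w → v = w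

variable {D}

theorem B5R.rot2 {a b c : V} (h : D.face a b c) : D.face c a b := D.face_rot _ _ _ (D.face_rot _ _ _ h)

theorem B5R.adj13 {a b c : V} (h : D.face a b c) : D.adj a c :=
  D.adj_symm _ _ (D.face_adj _ _ _ (B5R.rot2 h))

theorem B5R.unique2 {a b b' c : V} (h : D.face a b c) (h' : D.face a b' c) : b = b' :=
  D.face_unique _ _ _ _ (B5R.rot2 h) (B5R.rot2 h')

theorem B5R.pr_ne {lev : V → ℕ} {succ apex pred : V → V} (R : D.B5R lev succ apex pred) {v : V}
    (hv : 1 ≤ lev v) : succ v ≠ pred v := by
  intro h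
  have h1 := (R.pr v hv).2
  rw [← h] at h1
  exact R.ss v hv h1

theorem B5R.pr_succ {lev : V → ℕ} {succ apex pred : V → V} (R : D.B5R lev succ apex pred) {v : V}
    (hv : 1 ≤ lev v) : pred (succ v) = v := by
  have h1 := (R.sa v hv).1
  have h2 := R.pr (succ v) (by omega)
  exact R.inj _ _ (by omega) hv h2.2

/-- `face v (pred v) (apex (pred v))`. -/
theorem B5R.face_pr {lev : V → ℕ} {succ apex pred : V → V} (R : D.B5R lev succ apex pred) {v : V}
    (hv : 1 ≤ lev v) : D.face v (pred v) (apex (pred v)) := by
  obtain ⟨h1, h2⟩ := R.pr v hv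
  have h3 := (R.sa (pred v) (by omega)).2.2
  rwa [h2] at h3

/-- `face v (apex v) (succ v)`. -/
theorem B5R.face_sa {lev : V → ℕ} {succ apex pred : V → V} (R : D.B5R lev succ apex pred) {v : V}
    (hv : 1 ≤ lev v) : D.face v (apex v) (succ v) := D.face_rot _ _ _ (R.sa v hv).2.2

theorem B5R.pair_sub {lev : V → ℕ} {succ apex pred : V → V} (R : D.B5R lev succ apex pred) {v : V}
    (hv : 1 ≤ lev v) : ({succ v, pred v} : Finset V) ⊆ D.b5N lev v (lev v) := by
  intro u hu
  rw [mem_insert, mem_singleton] at hu
  rw [b5_mem]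
  rcases hu with rfl | rfl
  · exact ⟨B5R.adj13 (R.face_sa hv), (R.sa v hv).1⟩
  · exact ⟨D.face_adj _ _ _ (R.face_pr hv), (R.pr v hv).1⟩

/-- The neighbours of the same level. -/
theorem B5R.same {lev : V → ℕ} {succ apex pred : V → V} (R : D.B5R lev succ apex pred)
    (hl : D.Lev lev) {M : ℕ} (hn : ∀ i ≤ M, nv lev i = 6 * i + 3)
    (hc1 : ∀ i < M, D.cnt lev i (i + 1) (i + 1) = 6 * (i + 1) + 3)
    (hc2 : ∀ i < M, D.cnt lev i i (i + 1) = 6 * i + 3)
    (hc3 : ∀ i < M, D.cnt lev i i i = 0) {v : V} (hv : 1 ≤ lev v) (hvM : lev v < M) :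
    D.b5N lev v (lev v) = {succ v, pred v} := by
  obtain ⟨i, hi⟩ : ∃ i, lev v = i + 1 := ⟨lev v - 1, by omega⟩
  have hge : ∀ w ∈ ({w : V | lev w = lev v} : Finset V), 2 ≤ #(D.b5N lev w (lev v)) := by
    intro w hw
    simp only [mem_filter, mem_univ, true_and] at hw
    have h1 := card_le_card (R.pair_sub (v := w) (by omega))
    rw [card_pair (R.pr_ne (by omega)), hw] at h1
    exact h1
  have hsum : ∑ w ∈ ({w : V | lev w = lev v} : Finset V), #(D.b5N lev w (lev v)) =
      2 * #({w : V | lev w = lev v} : Finset V) := by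
    rw [← b5_dir, hi, D.dir_same_succ hl, hc1 i (by omega), hc3 (i + 1) (by omega),
      hc2 (i + 1) (by omega)]
    have h1 := hn (i + 1) (by omega)
    rw [nv] at h1
    rw [h1]
    ring
  have hle : #(D.b5N lev v (lev v)) ≤ 2 := by
    by_contra hcon
    have h1 : ∑ w ∈ ({w : V | lev w = lev v} : Finset V), 2 <
        ∑ w ∈ ({w : V | lev w = lev v} : Finset V), #(D.b5N lev w (lev v)) :=
      sum_lt_sum hge ⟨v, by simp, by omega⟩
    rw [hsum, sum_const, smul_eq_mul] at h1
    omega
  symm
  apply eq_of_subset_of_card_le (R.pair_sub hv)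
  rw [card_pair (R.pr_ne hv)]
  exact hle

/-- The level 0 neighbours of a hull vertex. -/
theorem b5_zero {lev : V → ℕ} (hl : D.Lev lev) {v : V} (hv : lev v = 0) :
    #(D.b5N lev v 0) ≤ 2 := by
  have h1 : D.b5N lev v 0 ⊆ ({D.hA, D.hB, D.hC} : Finset V).erase v := by
    intro u hu
    rw [b5_mem] at hu
    rw [mem_erase]
    refine ⟨?_, ?_⟩
    · rintro rfl
      exact D.adj_irrefl _ hu.1
    · have := (hl.zero u).1 hu.2
      simp only [mem_insert, mem_singleton]
      exact this
  have h2 : v ∈ ({D.hA, D.hB, D.hC} : Finset V) := by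
    have := (hl.zero v).1 hv
    simp only [mem_insert, mem_singleton]
    exact this
  have h3 := card_le_card h1
  rw [card_erase_of_mem h2] at h3
  have h4 : #({D.hA, D.hB, D.hC} : Finset V) ≤ 3 := card_le_three
  omega

/-- Link successor of an outer neighbour. -/
theorem B5R.out_next {lev : V → ℕ} {succ apex pred : V → V} (R : D.B5R lev succ apex pred)
    (hl : D.Lev lev) {v p : V} (hp : D.adj v p) (hlp : lev p + 1 = lev v) :
    ∃ q, D.face v p q ∧ (lev q = lev p ∨ (q = succ v ∧ p = apex v)) := by
  obtain ⟨q, hq⟩ := D.exists_face hl hp (by omega)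
  have h1 := D.face_lev hl hq
  refine ⟨q, hq, ?_⟩
  by_cases h : lev q = lev p
  · exact Or.inl h
  · right
    exact R.uniq v q p (by omega) (by omega) hlp (B5R.rot2 hq)

/-- Link predecessor of an outer neighbour. -/
theorem B5R.out_prev {lev : V → ℕ} {succ apex pred : V → V} (R : D.B5R lev succ apex pred)
    (hl : D.Lev lev) {v p : V} (hp : D.adj v p) (hlp : lev p + 1 = lev v) :
    ∃ q, D.face v q p ∧ (lev q = lev p ∨ (q = pred v ∧ p = apex (pred v))) := by
  obtain ⟨q, hq⟩ := D.exists_face hl (D.adj_symm _ _ hp) (by omega)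
  have h1 := D.face_lev hl hq
  have hq' : D.face v q p := D.face_rot _ _ _ hq
  refine ⟨q, hq', ?_⟩
  by_cases h : lev q = lev p
  · exact Or.inl h
  · right
    have h2 : lev q = lev v := by omega
    obtain ⟨h3, h4⟩ := R.uniq q v p (by omega) h2.symm (by omega) hq'
    have h5 := R.pr v (by omega)
    have h6 : q = pred v := R.inj _ _ (by omega) (by omega) (by rw [h5.2, ← h3])
    exact ⟨h6, by rw [← h6]; exact h4⟩

/-- Claim A for positive levels. -/
theorem B5R.claimA {lev : V → ℕ} {succ apex pred : V → V} (R : D.B5R lev succ apex pred)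
    {x y w : V} (hx : 1 ≤ lev x) (hs : D.b5N lev x (lev x) = {succ x, pred x})
    (hy : lev y = lev x) (hw : lev w = lev x + 1) (hf : D.face x y w) : y = succ x := by
  have h1 : y ∈ D.b5N lev x (lev x) := by
    rw [b5_mem]
    exact ⟨D.face_adj _ _ _ hf, hy⟩
  rw [hs, mem_insert, mem_singleton] at h1
  rcases h1 with h1 | h1
  · exact h1
  · exfalso
    have h2 := R.face_pr hx
    rw [← h1] at h2
    have h3 := D.face_unique _ _ _ _ hf h2
    have h4 := (R.sa y (by omega)).2.1
    rw [← h3] at h4
    omega

/-- Claim A for level 0. -/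
theorem b5_claimA0 {lev : V → ℕ} (hl : D.Lev lev)
    {x y w : V} (hx : lev x = 0) (hy : lev y = 0) (hf : D.face x y w) :
    (x = D.hA ∧ y = D.hB) ∨ (x = D.hB ∧ y = D.hC) ∨ (x = D.hC ∧ y = D.hA) := by
  have h1 := (hl.zero x).1 hx
  have h2 := (hl.zero y).1 hy
  have h3 := D.outer_none w
  have h4 := D.adj_irrefl x
  have h5 := D.face_adj _ _ _ hf
  rcases h1 with rfl | rfl | rfl <;> rcases h2 with h2 | h2 | h2 <;> rw [h2] at hf h5 <;> tauto

theorem b5_claimA0' {lev : V → ℕ} (hl : D.Lev lev)
    {x y w : V} (hx : lev x = 0) (hy : lev y = 0) (hf : D.face x y w) (z : V) :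
    ¬ D.face y x z := by
  have h3 := D.outer_none z
  rcases b5_claimA0 hl hx hy hf with ⟨rfl, rfl⟩ | ⟨rfl, rfl⟩ | ⟨rfl, rfl⟩ <;> tauto

/-- Claim B: at most two outer neighbours. -/
theorem B5R.claimB {lev : V → ℕ} {succ apex pred : V → V} (R : D.B5R lev succ apex pred)
    (hl : D.Lev lev) {M : ℕ} (htop : ∀ v, lev v ≤ M)
    (hs : ∀ x, 1 ≤ lev x → lev x < M → D.b5N lev x (lev x) = {succ x, pred x})
    (hdeg : ∀ v, lev v < M → D.deg v = 6) (j : ℕ) :
    ∀ v, lev v = j + 1 → #(D.b5N lev v j) ≤ 2 := by
  induction j using Nat.strong_induction_on with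
  | _ j ih =>
  intro v hv
  have hjM : j < M := by
    have := htop v
    omega
  by_contra hcon
  obtain ⟨p2, hp2, hp2'⟩ : ∃ p ∈ D.b5N lev v j, p ∉ ({apex v, apex (pred v)} : Finset V) := by
    by_contra hcon2
    push Not at hcon2
    have h1 := card_le_card (show D.b5N lev v j ⊆ {apex v, apex (pred v)} from hcon2)
    have h2 : #({apex v, apex (pred v)} : Finset V) ≤ 2 := card_le_two
    omega
  rw [mem_insert, mem_singleton, not_or] at hp2'
  rw [b5_mem] at hp2
  obtain ⟨p3, hf3, hp3⟩ := R.out_next hl hp2.1 (by omega)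
  obtain ⟨p1, hf1, hp1⟩ := R.out_prev hl hp2.1 (by omega)
  have hl3 : lev p3 = j := by
    rcases hp3 with h | h
    · omega
    · exact absurd h.2 hp2'.1
  have hl1 : lev p1 = j := by
    rcases hp1 with h | h
    · omega
    · exact absurd h.2 hp2'.2
  -- faces at `p2`
  have g1 : D.face p1 p2 v := D.face_rot _ _ _ hf1
  have g2 : D.face p2 p3 v := D.face_rot _ _ _ hf3
  have g3 : D.face p2 v p1 := B5R.rot2 hf1
  rcases Nat.eq_zero_or_pos j with hj | hj
  · -- hull vertex
    subst hj
    have hd := hdeg p2 (by omega)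
    rw [D.b5_deg_zero hl hp2.2] at hd
    have h0 := b5_zero hl hp2.2
    obtain ⟨z, hz, hzv⟩ : ∃ z ∈ D.b5N lev p2 1, z ≠ v := by
      by_contra hcon2
      push Not at hcon2
      have h1 := card_le_card (show D.b5N lev p2 1 ⊆ {v} from fun z hz => by
        rw [mem_singleton]; exact hcon2 z hz)
      rw [card_singleton] at h1
      omega
    rw [b5_mem] at hz
    have hpair : ∀ x, D.adj p2 x → lev x = 0 → x = p1 ∨ x = p3 := by
      intro x hx hx0
      have e1 := b5_claimA0 hl hl1 hp2.2 g1
      have e2 := b5_claimA0 hl hp2.2 hl3 g2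
      have e3 := (hl.zero x).1 hx0
      have e4 := D.adj_irrefl p2
      obtain ⟨nAB, nBC, nCA⟩ := D.outer_ne
      have hne : x ≠ p2 := by
        rintro rfl
        exact e4 hx
      rcases e1 with ⟨a1, a2⟩ | ⟨a1, a2⟩ | ⟨a1, a2⟩ <;>
      rcases e2 with ⟨b1, b2⟩ | ⟨b1, b2⟩ | ⟨b1, b2⟩ <;>
      rcases e3 with c | c | c <;> simp_all
    have hcl := D.closed_link p2
      ({x : V | D.adj p2 x ∧ x ≠ v ∧ x ≠ p1 ∧ x ≠ p3} : Finset V)
      ⟨z, by
        simp only [mem_filter, mem_univ, true_and]
        refine ⟨hz.1, hzv, ?_, ?_⟩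
        · rintro rfl
          omega
        · rintro rfl
          omega⟩
      (fun x hx => by
        simp only [mem_filter, mem_univ, true_and] at hx
        exact hx.1)
      (fun x hx => by
        simp only [mem_filter, mem_univ, true_and] at hx
        obtain ⟨x1, x2, x3, x4⟩ := hx
        have hx0 : lev x ≠ 0 := by
          intro h
          rcases hpair x x1 h with h' | h'
          · exact x3 h'
          · exact x4 h'
        obtain ⟨y, hy⟩ := D.exists_face hl x1 (Or.inr hx0)
        refine ⟨y, ?_, hy⟩
        simp only [mem_filter, mem_univ, true_and]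
        refine ⟨B5R.adj13 hy, ?_, ?_, ?_⟩
        · rintro rfl
          exact x4 (B5R.unique2 hy g2)
        · rintro rfl
          exact x2 (B5R.unique2 hy g3)
        · rintro rfl
          exact b5_claimA0' hl hp2.2 hl3 g2 x (B5R.rot2 hy))
    have h1 := (hl.zero p2).1 hp2.2
    tauto
  · -- positive level
    have e1 : p2 = succ p1 := R.claimA (by omega) (hs p1 (by omega) (by omega)) (by omega)
      (by omega) g1
    have e2 : p3 = succ p2 := R.claimA (by omega) (hs p2 (by omega) (by omega)) (by omega)
      (by omega) g2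
    have hcl := D.closed_link p2 ({p3, v, p1} ∪ D.b5N lev p2 (j - 1))
      ⟨p3, by simp⟩
      (fun x hx => by
        simp only [mem_union, mem_insert, mem_singleton, b5_mem] at hx
        rcases hx with (rfl | rfl | rfl) | hx
        · exact D.face_adj _ _ _ g2
        · exact D.face_adj _ _ _ g3
        · exact D.adj_symm _ _ (D.face_adj _ _ _ g1)
        · exact hx.1)
      (fun x hx => by
        simp only [mem_union, mem_insert, mem_singleton, b5_mem] at hx
        rcases hx with (rfl | rfl | rfl) | hx
        · exact ⟨v, by simp, g2⟩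
        · exact ⟨p1, by simp, g3⟩
        · have h1 := R.sa x (by omega)
          rw [← e1] at h1
          refine ⟨apex x, ?_, h1.2.2⟩
          simp only [mem_union, mem_insert, mem_singleton, b5_mem]
          right
          exact ⟨B5R.adj13 h1.2.2, by omega⟩
        · obtain ⟨q, hq1, hq2⟩ := R.out_next hl hx.1 (by omega)
          refine ⟨q, ?_, hq1⟩
          simp only [mem_union, mem_insert, mem_singleton, b5_mem]
          rcases hq2 with h | h
          · right
            exact ⟨B5R.adj13 hq1, by omega⟩
          · left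
            left
            rw [h.1, e2])
    obtain ⟨k, hk⟩ : ∃ k, j = k + 1 := ⟨j - 1, by omega⟩
    have hI : D.b5N lev p2 (k + 2) ⊆ {v} := by
      intro x hx
      rw [b5_mem] at hx
      have h1 := hcl.2 x hx.1
      simp only [mem_union, mem_insert, mem_singleton, b5_mem] at h1
      rw [mem_singleton]
      rcases h1 with (rfl | rfl | rfl) | h1
      · omega
      · rfl
      · omega
      · omega
    have h1 := card_le_card hI
    rw [card_singleton] at h1
    have h2 := ih k (by omega) p2 (by omega)
    have h3 := hdeg p2 (by omega)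
    rw [D.b5_deg_succ hl (j := k) (by omega)] at h3
    have h4 := hs p2 (by omega) (by omega)
    have h5 : lev p2 = k + 1 := by omega
    rw [h5] at h4
    rw [h4, card_pair (R.pr_ne (by omega))] at h3
    omega

variable (D)

/-- The rings: successor on the rings and outer apexes of the ring edges. -/
theorem ring_structure {lev : V → ℕ} (hl : D.Lev lev) (hdeg : ∀ v, D.deg v ≤ 6) {M : ℕ}
    (hM : 1 ≤ M) (hn : ∀ i ≤ M, nv lev i = 6 * i + 3) (htop : ∀ v, lev v ≤ M) :
    ∃ succ apex : V → V,
      (∀ v, 1 ≤ lev v → lev (succ v) = lev v ∧ lev (apex v) + 1 = lev v ∧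
        D.face (succ v) v (apex v)) ∧
      (∀ v s u, 1 ≤ lev v → lev s = lev v → lev u + 1 = lev v → D.face s v u →
        s = succ v ∧ u = apex v) ∧
      (∀ v, 1 ≤ lev v → ∃ w, lev w = lev v ∧ succ w = v) ∧
      (∀ v, 2 ≤ lev v → apex (succ v) = apex v ∨
        (apex (succ v) = succ (apex v) ∧ D.face (apex v) (apex (succ v)) (succ v))) ∧
      (∀ x, 1 ≤ lev x → lev x < M → ∃ w, lev w = lev x + 1 ∧ apex w = x) := by
  obtain ⟨succ, apex, r1, r2, r3, r4, r5, r6⟩ := D.rings hl hdeg hM hn htop
  obtain ⟨hc1, hc2, hc3, hd6, _, _, _⟩ := D.growth_eq hl hdeg hM hn htop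
  have hP : ∀ v, ∃ w, 1 ≤ lev v → lev w = lev v ∧ succ w = v := by
    intro v
    by_cases hv : 1 ≤ lev v
    · obtain ⟨w, hw⟩ := r3 v hv
      exact ⟨w, fun _ => hw⟩
    · exact ⟨v, fun h => absurd h hv⟩
  choose pred hpred using hP
  have R : D.B5R lev succ apex pred := ⟨r1, r2, hpred, r4, r6⟩
  have hs : ∀ x, 1 ≤ lev x → lev x < M → D.b5N lev x (lev x) = {succ x, pred x} :=
    fun x h1 h2 => R.same hl hn hc1 hc2 hc3 h1 h2
  have hB := R.claimB hl htop hs hd6
  refine ⟨succ, apex, r1, r2, r3, ?_, ?_⟩
  · intro v hv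
    by_cases heq : apex (succ v) = apex v
    · exact Or.inl heq
    · right
      obtain ⟨s1, s2, s3⟩ := r1 v (by omega)
      obtain ⟨t1, t2, t3⟩ := r1 (succ v) (by omega)
      obtain ⟨j, hj⟩ : ∃ j, lev v = j + 1 := ⟨lev v - 1, by omega⟩
      have hsub : ({apex v, apex (succ v)} : Finset V) ⊆ D.b5N lev (succ v) j := by
        intro x hx
        rw [mem_insert, mem_singleton] at hx
        rw [b5_mem]
        rcases hx with rfl | rfl
        · exact ⟨B5R.adj13 s3, by omega⟩
        · exact ⟨D.face_adj _ _ _ (D.face_rot _ _ _ t3), by omega⟩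
      have hO : ({apex v, apex (succ v)} : Finset V) = D.b5N lev (succ v) j := by
        apply eq_of_subset_of_card_le hsub
        rw [card_pair (Ne.symm heq)]
        exact hB j (succ v) (by omega)
      obtain ⟨q, hq1, hq2⟩ := R.out_next hl (B5R.adj13 s3) (by omega)
      rcases hq2 with hq2 | hq2
      · have hq3 : q ∈ D.b5N lev (succ v) j := by
          rw [b5_mem]
          exact ⟨B5R.adj13 hq1, by omega⟩
        rw [← hO, mem_insert, mem_singleton] at hq3
        rcases hq3 with hq3 | hq3
        · exfalso
          have h1 := D.face_adj _ _ _ (D.face_rot _ _ _ hq1)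
          rw [hq3] at h1
          exact D.adj_irrefl _ h1
        · rw [hq3] at hq1
          have hf : D.face (apex v) (apex (succ v)) (succ v) := D.face_rot _ _ _ hq1
          have hlM := htop v
          refine ⟨?_, hf⟩
          exact R.claimA (by omega) (hs _ (by omega) (by omega)) (by omega) (by omega) hf
      · exact absurd hq2.2.symm heq
  · intro x hx hxM
    obtain ⟨j, hj⟩ : ∃ j, lev x = j + 1 := ⟨lev x - 1, by omega⟩
    have h1 := hB j x hj
    have h2 := hd6 x hxM
    rw [D.b5_deg_succ hl hj, ← hj, hs x hx hxM, card_pair (R.pr_ne hx)] at h2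
    have h3 : 1 < #(D.b5N lev x (j + 2)) := by omega
    obtain ⟨a, b, ha, hb, hab⟩ := (one_lt_card_iff.1 h3)
    have key : ∀ w ∈ D.b5N lev x (j + 2), (∃ w', D.face x w w' ∧ lev w' = j + 2) ∨
        D.face x w (pred x) := by
      intro w hw
      rw [b5_mem] at hw
      obtain ⟨q, hq⟩ := D.exists_face hl hw.1 (by omega)
      have h4 := D.face_lev hl hq
      by_cases h5 : lev q = j + 2
      · exact Or.inl ⟨q, hq, h5⟩
      · right
        have h6 : q ∈ D.b5N lev x (lev x) := by
          rw [b5_mem]
          exact ⟨B5R.adj13 hq, by omega⟩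
        rw [hs x hx hxM, mem_insert, mem_singleton] at h6
        rcases h6 with h6 | h6
        · exfalso
          rw [h6] at hq
          have h7 := B5R.unique2 hq (R.face_sa hx)
          have h8 := (R.sa x hx).2.1
          rw [h7] at hw
          omega
        · rwa [h6] at hq
    have fin : ∀ w w', D.face x w w' → lev w = j + 2 → lev w' = j + 2 →
        ∃ w, lev w = lev x + 1 ∧ apex w = x := by
      intro w w' hf h4 h5
      have h6 := r2 w' w x (by omega) (by omega) (by omega) (D.face_rot _ _ _ hf)
      exact ⟨w', by omega, h6.2.symm⟩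
    rcases key a ha with ⟨w', h4, h5⟩ | h4
    · exact fin a w' h4 ((D.b5_mem).1 ha).2 h5
    · rcases key b hb with ⟨w', h6, h7⟩ | h6
      · exact fin b w' h6 ((D.b5_mem).1 hb).2 h7
      · exact absurd (B5R.unique2 h4 h6) hab

end Pool.Agent.Helper70.MD.Disc
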