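import Pool.Agent.Helper70.MD.B4

/-!
MD-B5a: the rings.

Proof. Let `v` have level `i ≥ 1` (`i ≤ M` by `htop`). By `growth_eq` it has a neighbour of level
`≥ i`, so by `exists_exit` there are `p q` with `face v p q`, `lev p = i-1`, `lev q = i`, i.e.
`face q v p`. The number of directed edges `(s, v)` inside level `i` with a face on the left whose third
vertex has level `i-1` is `cnt i i (i-1) = cnt (i-1) i i = 6 i + 3 = nv lev i`, and by the above
the map `(s, v) ↦ v` from these directed edges to level `i` is surjective; hence it is injective. So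
for each `v` there is exactly one such `s`, call it `succ v`, and the third vertex `apex v` is unique
by `face_unique`. This is the first conclusion and the second. By `exists_entry` there are `q p`
with `face v q p`, `lev p = i-1`, `lev q = i`: so `v = succ q` by the uniqueness: third conclusion
(surjectivity on each level, hence bijectivity and injectivity).
Fourth conclusion: suppose `succ (succ v) = v`, let `q = succ v`; then `face q v (apex v)` and
`face v q (apex q)`. Let `i` be the level, `1 ≤ i`. The set `Q` consisting of `q` and of the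
neighbours of `v` of level `i-1` is closed under link successor at `v`: the link successor of `q` is
`apex q` (`face v q (apex q)`), of level `i-1`; for `p` of level `i-1` adjacent to `v` the link
successor exists (`face_exists`) and has level `i-1` or `i`, and if it is `i` then (second
conclusion applied to the rotated face `s v p`) it is `succ v = q`. By `closed_link` all neighbours
of `v` are in `Q`; so `q` is the only neighbour of `v` of level `≥ i`. By symmetry
(`succ q = v`) `v` is the only neighbour of `q` of level `≥ i`. The labelling with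
label 0 on `v` and `q` and label 1 elsewhere is constant along edges inside `{lev ≥ i}`, and takes
two values there (level `i` has `6 i + 3 ≥ 9` vertices), so `12 ≤ chi i` by `label_le`,
contradicting `chi i = 6` (`growth_eq`). Fifth: `succ v ≠ v` because `face (succ v) v (apex v)`.
-/

set_option autoImplicit false

namespace Pool.Agent.Helper70.MD.Disc

open Finset

open scoped Classical

variable {V : Type} [Fintype V] (D : Disc V)

theorem ring_exists {lev : V → ℕ} (hl : D.Lev lev)
    (hnb : ∀ v, 1 ≤ lev v → ∃ u, D.adj v u ∧ lev v ≤ lev u) (v : V) (hv : 1 ≤ lev v) :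
    ∃ s u, lev s = lev v ∧ lev u + 1 = lev v ∧ D.face s v u := by
  obtain ⟨i, hi⟩ : ∃ i, lev v = i + 1 := ⟨lev v - 1, by omega⟩
  obtain ⟨u, hu1, hu2⟩ := hnb v hv
  obtain ⟨p, q, h1, h2, h3⟩ := D.exists_exit hl hi ⟨u, hu1, by omega⟩
  exact ⟨q, p, by omega, by omega, D.face_rot _ _ _ (D.face_rot _ _ _ h1)⟩

theorem ring_unique {lev : V → ℕ} (hl : D.Lev lev) {M : ℕ}
    (hn : ∀ i ≤ M, nv lev i = 6 * i + 3) (htop : ∀ v, lev v ≤ M)
    (hcnt : ∀ i < M, D.cnt lev i (i + 1) (i + 1) = 6 * (i + 1) + 3)
    (hnb : ∀ v, 1 ≤ lev v → ∃ u, D.adj v u ∧ lev v ≤ lev u) (v s u s' u' : V)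
    (hs : lev s = lev v) (hu : lev u + 1 = lev v) (hf : D.face s v u)
    (hs' : lev s' = lev v) (hu' : lev u' + 1 = lev v) (hf' : D.face s' v u') :
    s = s' ∧ u = u' := by
  set i := lev u with hi
  have hiM : i < M := by
    have := htop v
    omega
  have hcard : #({x : V × V | ∃ c, D.face x.1 x.2 c ∧ lev x.1 = i + 1 ∧ lev x.2 = i + 1 ∧
      lev c = i} : Finset (V × V)) ≤ #({w : V | lev w = i + 1} : Finset V) := by
    have h1 := hcnt i hiM
    rw [D.cnt_rot] at h1
    have h2 := hn (i + 1) (by omega)
    rw [cnt] at h1
    rw [nv] at h2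
    rw [h1, h2]
  have hinj : Set.InjOn (fun x : V × V => x.2)
      (({x : V × V | ∃ c, D.face x.1 x.2 c ∧ lev x.1 = i + 1 ∧ lev x.2 = i + 1 ∧
      lev c = i} : Finset (V × V)) : Set (V × V)) := by
    apply Finset.injOn_of_surjOn_of_card_le (t := ({w : V | lev w = i + 1} : Finset V))
    · intro x hx
      simp only [coe_filter, mem_univ, true_and, Set.mem_ofPred_eq] at hx ⊢
      obtain ⟨c, hc⟩ := hx
      exact hc.2.2.1
    · intro w hw
      simp only [coe_filter, mem_univ, true_and, Set.mem_ofPred_eq] at hw
      obtain ⟨a, b, h1, h2, h3⟩ := D.ring_exists hl hnb w (by omega)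
      refine ⟨(a, w), ?_, rfl⟩
      simp only [coe_filter, mem_univ, true_and, Set.mem_ofPred_eq]
      exact ⟨b, h3, by omega, hw, by omega⟩
    · exact hcard
  have h1 : (s, v) = (s', v) := by
    apply hinj
    · simp only [coe_filter, mem_univ, true_and, Set.mem_ofPred_eq]
      exact ⟨u, hf, by omega, by omega, by omega⟩
    · simp only [coe_filter, mem_univ, true_and, Set.mem_ofPred_eq]
      exact ⟨u', hf', by omega, by omega, by omega⟩
    · rfl
  have h2 : s = s' := congrArg Prod.fst h1
  subst h2
  exact ⟨rfl, D.face_unique _ _ _ _ hf hf'⟩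

/-- If two vertices of a level are successors of each other they have no other neighbour of
at least the same level. -/
theorem ring_two {lev : V → ℕ} (hl : D.Lev lev) (v q a b : V) (hv : 1 ≤ lev v)
    (hq : lev q = lev v)
    (huniq : ∀ s u, lev s = lev v → lev u + 1 = lev v → D.face s v u → s = q)
    (ha : lev a + 1 = lev v) (hfa : D.face q v a) (hb : lev b + 1 = lev v) (hfb : D.face v q b)
    (x : V) (hx : D.adj v x) (hlx : lev v ≤ lev x) : x = q := by
  have hclosed := D.closed_link v (insert q ({p : V | D.adj v p ∧ lev p + 1 = lev v} : Finset V))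
    ⟨q, mem_insert_self _ _⟩ (by
      intro p hp
      rw [mem_insert] at hp
      rcases hp with rfl | hp
      · exact D.face_adj _ _ _ hfb
      · simp only [mem_filter, mem_univ, true_and] at hp
        exact hp.1) (by
      intro p hp
      rw [mem_insert] at hp
      rcases hp with rfl | hp
      · refine ⟨b, ?_, hfb⟩
        rw [mem_insert]
        right
        simp only [mem_filter, mem_univ, true_and]
        exact ⟨D.adj_symm _ _ (D.face_adj _ _ _ (D.face_rot _ _ _ (D.face_rot _ _ _ hfb))), hb⟩
      · simp only [mem_filter, mem_univ, true_and] at hp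
        obtain ⟨hp1, hp2⟩ := hp
        have hA : v ≠ D.hA := by
          intro h
          have := (hl.zero v).2 (Or.inl h)
          omega
        have hB : v ≠ D.hB := by
          intro h
          have := (hl.zero v).2 (Or.inr (Or.inl h))
          omega
        have hC : v ≠ D.hC := by
          intro h
          have := (hl.zero v).2 (Or.inr (Or.inr h))
          omega
        rcases D.face_exists v p hp1 with ⟨c, hc⟩ | ⟨h, _⟩ | ⟨h, _⟩ | ⟨h, _⟩
        · have h1 : D.face p c v := D.face_rot _ _ _ hc
          have h2 : D.face c v p := D.face_rot _ _ _ h1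
          have h3 := hl.step p c (D.face_adj _ _ _ h1)
          have h4 := hl.step c v (D.face_adj _ _ _ h2)
          refine ⟨c, ?_, hc⟩
          rw [mem_insert]
          by_cases h5 : lev c = lev v
          · left
            exact huniq c p h5 hp2 h2
          · right
            simp only [mem_filter, mem_univ, true_and]
            exact ⟨D.adj_symm _ _ (D.face_adj _ _ _ h2), by omega⟩
        · exact absurd h hB
        · exact absurd h hC
        · exact absurd h hA)
  have h1 := hclosed.2 x hx
  rw [mem_insert] at h1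
  rcases h1 with h1 | h1
  · exact h1
  · simp only [mem_filter, mem_univ, true_and] at h1
    omega

/-- The rings: successor and outer apex. -/
theorem rings {lev : V → ℕ} (hl : D.Lev lev) (hdeg : ∀ v, D.deg v ≤ 6) {M : ℕ}
    (hM : 1 ≤ M) (hn : ∀ i ≤ M, nv lev i = 6 * i + 3) (htop : ∀ v, lev v ≤ M) :
    ∃ succ apex : V → V,
      (∀ v, 1 ≤ lev v → lev (succ v) = lev v ∧ lev (apex v) + 1 = lev v ∧
        D.face (succ v) v (apex v)) ∧
      (∀ v s u, 1 ≤ lev v → lev s = lev v → lev u + 1 = lev v → D.face s v u →
        s = succ v ∧ u = apex v) ∧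
      (∀ v, 1 ≤ lev v → ∃ w, lev w = lev v ∧ succ w = v) ∧
      (∀ v, 1 ≤ lev v → succ (succ v) ≠ v) ∧
      (∀ v, 1 ≤ lev v → succ v ≠ v) ∧
      (∀ v w, 1 ≤ lev v → 1 ≤ lev w → succ v = succ w → v = w) := by
  obtain ⟨hcnt, _, _, _, hchi, hnb, _⟩ := D.growth_eq hl hdeg hM hn htop
  have hK : ∀ v, ∃ s u, 1 ≤ lev v → (lev s = lev v ∧ lev u + 1 = lev v ∧ D.face s v u) := by
    intro v
    by_cases hv : 1 ≤ lev v
    · obtain ⟨s, u, h⟩ := D.ring_exists hl hnb v hv
      exact ⟨s, u, fun _ => h⟩
    · exact ⟨v, v, fun h => absurd h hv⟩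
  choose succ apex hsa using hK
  have hU : ∀ v s u, 1 ≤ lev v → lev s = lev v → lev u + 1 = lev v → D.face s v u →
        s = succ v ∧ u = apex v := by
    intro v s u hv hs hu hf
    obtain ⟨h1, h2, h3⟩ := hsa v hv
    exact D.ring_unique hl hn htop hcnt hnb v s u (succ v) (apex v) hs hu hf h1 h2 h3
  have hsurj : ∀ v, 1 ≤ lev v → ∃ w, lev w = lev v ∧ succ w = v := by
    intro v hv
    obtain ⟨i, hi⟩ : ∃ i, lev v = i + 1 := ⟨lev v - 1, by omega⟩
    obtain ⟨u, hu1, hu2⟩ := hnb v hv
    obtain ⟨q, p, h1, h2, h3⟩ := D.exists_entry hl hi ⟨u, hu1, by omega⟩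
    refine ⟨q, by omega, ?_⟩
    exact ((hU q v p (by omega) (by omega) (by omega) h1).1).symm
  refine ⟨succ, apex, fun v hv => hsa v hv, hU, hsurj, ?_, ?_, ?_⟩
  · intro v hv hvv
    set q := succ v with hq
    obtain ⟨h1, h2, h3⟩ := hsa v hv
    rw [← hq] at h1 h3
    have hq1 : 1 ≤ lev q := by omega
    obtain ⟨g1, g2, g3⟩ := hsa q hq1
    rw [hvv] at g1 g3
    have hA : ∀ x, D.adj v x → lev v ≤ lev x → x = q := fun x hx hlx =>
      D.ring_two hl v q (apex v) (apex q) hv h1
        (fun s u hs hu hf => (hU v s u hv hs hu hf).1) h2 h3 (by omega) g3 x hx hlx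
    have hB : ∀ x, D.adj q x → lev v ≤ lev x → x = v := fun x hx hlx =>
      D.ring_two hl q v (apex q) (apex v) hq1 g1
        (fun s u hs hu hf => (hU q s u hq1 hs hu hf).1.trans hvv) g2 g3 (by omega) h3 x hx
        (by omega)
    let f : V → ℕ := fun u => if u = v ∨ u = q then 0 else 1
    have hf : ∀ a b, D.adj a b → lev v ≤ lev a → lev v ≤ lev b → f a = f b := by
      intro a b hab ha hb
      simp only [f]
      by_cases h4 : a = v
      · subst h4
        rw [hA b hab hb]
        simp
      · by_cases h5 : a = q
        · rw [h5] at hab ⊢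
          rw [hB b hab hb]
          simp
        · by_cases h6 : b = v
          · subst h6
            exact absurd (hA a (D.adj_symm _ _ hab) ha) h5
          · by_cases h7 : b = q
            · rw [h7] at hab
              exact absurd (hB a (D.adj_symm _ _ hab) ha) h4
            · simp [h4, h5, h6, h7]
    have h4 := D.label_le hl (lev v) f hf
    have h5 := hchi (lev v) (htop v)
    have h6 : ∃ u, lev u = lev v ∧ u ≠ v ∧ u ≠ q := by
      by_contra hcon
      push Not at hcon
      have h7 : ({u : V | lev u = lev v} : Finset V) ⊆ {v, q} := by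
        intro u hu
        simp only [mem_filter, mem_univ, true_and] at hu
        rw [mem_insert, mem_singleton]
        by_cases h8 : u = v
        · exact Or.inl h8
        · exact Or.inr (hcon u hu h8)
      have h8 := card_le_card h7
      have h9 := hn (lev v) (htop v)
      rw [nv] at h9
      have h10 : #({v, q} : Finset V) ≤ 2 := card_le_two
      omega
    obtain ⟨u, hu1, hu2, hu3⟩ := h6
    have h7 : ({0, 1} : Finset ℕ) ⊆ ({w : V | lev v ≤ lev w} : Finset V).image f := by
      intro k hk
      rw [mem_insert, mem_singleton] at hk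
      rw [mem_image]
      rcases hk with rfl | rfl
      · refine ⟨v, by simp, by simp [f]⟩
      · refine ⟨u, by simp [hu1], by simp [f, hu2, hu3]⟩
    have h8 := card_le_card h7
    have h9 : #({0, 1} : Finset ℕ) = 2 := rfl
    omega
  · intro v hv hvv
    obtain ⟨h1, h2, h3⟩ := hsa v hv
    rw [hvv] at h3
    exact D.adj_irrefl _ (D.face_adj _ _ _ h3)
  · intro v w hv hw h
    have h1 := (hsa v hv).1
    have h2 := (hsa w hw).1
    have h3 : lev v = lev w := by
      rw [← h1, ← h2, h]
    have hinj : Set.InjOn succ (({u : V | lev u = lev v} : Finset V) : Set V) := by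
      apply Finset.injOn_of_surjOn_of_card_le (t := ({u : V | lev u = lev v} : Finset V))
      · intro x hx
        simp only [coe_filter, mem_univ, true_and, Set.mem_ofPred_eq] at hx ⊢
        rw [(hsa x (by omega)).1, hx]
      · intro x hx
        simp only [coe_filter, mem_univ, true_and, Set.mem_ofPred_eq] at hx
        obtain ⟨y, hy1, hy2⟩ := hsurj x (by omega)
        refine ⟨y, ?_, hy2⟩
        simp only [coe_filter, mem_univ, true_and, Set.mem_ofPred_eq]
        omega
      · exact le_rfl
    apply hinj _ _ h
    · simp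
    · simp [h3]

end Pool.Agent.Helper70.MD.Disc
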