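import Pool.Agent.Helper70.MD.Disc

/-!
Euler characteristics of the subcomplexes of the layers.
-/

set_option autoImplicit false

namespace Pool.Agent.Helper70.MD.Disc

open Finset

open scoped Classical

variable {V : Type} [Fintype V] (D : Disc V)

/-- Six times the Euler characteristic of the subcomplex of the vertices of level at least `i`. -/
noncomputable def chi (lev : V → ℕ) (i : ℕ) : ℤ :=
  6 * (nR lev i : ℤ) - 3 * (D.eR lev i : ℤ) + 2 * (D.dR lev i : ℤ)

end Pool.Agent.Helper70.MD.Disc
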