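import Mathlib

/-!
Combinatorial triangulations of a triangle, their distance layers.
-/

set_option autoImplicit false

namespace Pool.Agent.Helper70.MD

open Finset

open scoped Classical

/-- The combinatorial data of a triangulated triangle with outer triangle `hA hB hC`
(counterclockwise). `face a b c` says that `a b c` is a triangular face, listed
counterclockwise. -/
structure Disc (V : Type) [Fintype V] where
  adj : V → V → Prop
  face : V → V → V → Prop
  hA : V
  hB : V
  hC : V
  adj_symm : ∀ a b, adj a b → adj b a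
  adj_irrefl : ∀ a, ¬ adj a a
  face_adj : ∀ a b c, face a b c → adj a b
  face_rot : ∀ a b c, face a b c → face b c a
  face_unique : ∀ a b c d, face a b c → face a b d → c = d
  face_asymm : ∀ a b c, face a b c → ¬ face b a c
  outer_edge : (∃ c, face hA hB c) ∧ (∃ c, face hB hC c) ∧ (∃ c, face hC hA c)
  outer_none : ∀ c, ¬ face hB hA c ∧ ¬ face hC hB c ∧ ¬ face hA hC c
  face_exists : ∀ a b, adj a b →
    (∃ c, face a b c) ∨ (a = hB ∧ b = hA) ∨ (a = hC ∧ b = hB) ∨ (a = hA ∧ b = hC)
  forest : ∀ (v : V) (P : Finset V), P.Nonempty → (∀ p ∈ P, adj v p) →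
    ((v = hA ∨ v = hB ∨ v = hC) ∨ ∃ x, adj v x ∧ x ∉ P) →
    ∃ p ∈ P, #{q ∈ P | face v p q ∨ face v q p} ≤ 1
  euler : 6 * Fintype.card V + 2 * #{x : V × V | ∃ c, face x.1 x.2 c} =
    6 + 3 * #{x : V × V | adj x.1 x.2}
  conn : ∀ f : V → ℕ, (∀ a b, adj a b → f a = f b) → ∀ a b, f a = f b

namespace Disc

variable {V : Type} [Fintype V] (D : Disc V)

/-- `lev` is the distance from the outer triangle. -/
structure Lev (lev : V → ℕ) : Prop where
  zero : ∀ a, lev a = 0 ↔ a = D.hA ∨ a = D.hB ∨ a = D.hC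
  step : ∀ a b, D.adj a b → lev b ≤ lev a + 1
  down : ∀ a n, lev a = n + 1 → ∃ b, D.adj a b ∧ lev b = n

/-- Degree. -/
noncomputable def deg (v : V) : ℕ := #{u : V | D.adj v u}

/-- Number of vertices of level `i`. -/
noncomputable def nv (lev : V → ℕ) (i : ℕ) : ℕ := #{v : V | lev v = i}

/-- Number of vertices of level at least `i`. -/
noncomputable def nR (lev : V → ℕ) (i : ℕ) : ℕ := #{v : V | i ≤ lev v}

/-- Number of directed edges between vertices of level at least `i`. -/
noncomputable def eR (lev : V → ℕ) (i : ℕ) : ℕ :=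
  #{x : V × V | D.adj x.1 x.2 ∧ i ≤ lev x.1 ∧ i ≤ lev x.2}

/-- Number of directed edges with left face, all three vertices of level at least `i`. -/
noncomputable def dR (lev : V → ℕ) (i : ℕ) : ℕ :=
  #{x : V × V | ∃ c, D.face x.1 x.2 c ∧ i ≤ lev x.1 ∧ i ≤ lev x.2 ∧ i ≤ lev c}

/-- Number of directed edges with left face, with prescribed levels. -/
noncomputable def cnt (lev : V → ℕ) (i j k : ℕ) : ℕ :=
  #{x : V × V | ∃ c, D.face x.1 x.2 c ∧ lev x.1 = i ∧ lev x.2 = j ∧ lev c = k}

end Disc

end Pool.Agent.Helper70.MD
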