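import Pool.Agent.Helper70.MD.A5
import Pool.Agent.Helper70.MD.A6
import Pool.Agent.Helper70.MD.Disc

/-!
MD-C1: the combinatorial disc of a triangulation of a point set whose convex hull is a triangle.

Proof. Put `adj a b := T.Adj a b`, `face a b c := Face S T a b c` (with the coercions), the three
corners `A, B, C`.
`adj_symm`, `adj_irrefl`: clear. `face_adj`: field `uv`. `face_rot`: `Face.rot`. `face_unique`:
`Face.unique`. `face_asymm`: `cr b a c = - cr a b c`.
`outer_edge`: the edge `A B` is in `T`: otherwise by `exists_crossing` (no point of `S` is in the open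
segment `A B`: such a point `p` has `cr A B p = 0`, so it is `A`, `B` or `C`, and `cr A B C > 0`, and
`A`, `B` are not in the open segment) there is an edge `c d` with `cr A B d < 0`, but all points of `S`
have `cr A B p ≥ 0`. By `exists_face` with the point `C` there is a face on its left. The same for
`B C` and `C A` (`cr` is invariant under rotation).
`outer_none`: a face `B A c` has `cr B A c > 0`, so `cr A B c < 0`, impossible.
`face_exists`: let `T.Adj a b`. If some `p ∈ S` has `cr a b p > 0`, use `exists_face`. Otherwise all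
`p ∈ S` have `cr a b p ≤ 0`. If `a` is not one of the corners then
`a` has the positive barycentric coordinates `cr B C a, cr C A a, cr A B a` (sum `cr A B C`), and
`cr B C a * cr a b A + cr C A a * cr a b B + cr A B a * cr a b C = cr A B C * cr a b a = 0`
(the function `cr a b` is affine), so `cr a b A = cr a b B = cr a b C = 0`, three points on one line
(`a ≠ b`), contradicting `cr A B C > 0`. So `a`, and in the same way `b`, is a corner. Of the six
ordered pairs of corners `(A,B)`, `(B,C)`, `(C,A)` have the third corner on the left; the other three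
are the exceptional ones.
`forest`: let `v`, `P` be given. If `x` is a neighbour of `v` not in `P`, use `IsTri.forest` with this `x`:
`hx` is `Face.cone`; `hdir`: `p` and `x` neighbours of `v` in the same direction from `v`
implies `p = x` (otherwise one of them is in the open segment from `v` to the other, `hT.1.empty`).
If `v = A`, use the point `x = (2 A.1 - B.1, 2 A.2 - B.2)`: for `p, q ∈ S` `cr A p x = cr A B p ≥ 0` and
`cr A x q = - cr A B q ≤ 0`, so `hx` holds; `hdir`: `cr A x p = - cr A B p = 0` with `p ∈ S`, `p ≠ A`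
implies `p = B`, for which the scalar product is negative. For `v = B`, `v = C` rotate the names.
(The statement `#{q ∈ P | ...} ≤ 1` for `P` a Finset of the subtype follows from the one for the
image of `P` in `Pt`.)
`euler`: `Fintype.card {p // p ∈ S} = #S`, the number of directed edges with a face on the left is
`d3 S T`, the number of directed edges is `e2 S T` (bijections through the coercion; endpoints of
edges and vertices of faces are in `S`); `IsTri.euler`. `conn`: extend `f` by `0` outside `S` and use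
`IsTri.conn`.
-/

set_option autoImplicit false

namespace Pool.Agent.Helper70.MD

open Finset

open scoped Classical

/-- The hypotheses of the module for the three corners. -/
structure C1.Hyp (S : Finset Pt) (T : SimpleGraph Pt) (A B C : Pt) : Prop where
  tri : IsTri S T
  hA : A ∈ S
  hB : B ∈ S
  hC : C ∈ S
  pos : 0 < cr A B C
  inn : ∀ p ∈ S, p ≠ A → p ≠ B → p ≠ C → 0 < cr A B p ∧ 0 < cr B C p ∧ 0 < cr C A p

namespace C1

variable {S : Finset Pt} {T : SimpleGraph Pt} {A B C : Pt}

theorem Hyp.rot (h : Hyp S T A B C) : Hyp S T B C A :=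
  ⟨h.tri, h.hB, h.hC, h.hA, by rw [a4_cr_rot]; exact h.pos,
    fun p hp h1 h2 h3 =>
      let k := h.inn p hp h3 h1 h2
      ⟨k.2.1, k.2.2, k.1⟩⟩

theorem cr_self_left (a b : Pt) : cr a b a = 0 := by
  unfold cr; ring

theorem cr_self_right (a b : Pt) : cr a b b = 0 := by
  unfold cr; ring

theorem Hyp.ne (h : Hyp S T A B C) : A ≠ B := by
  intro hab
  have h1 := h.pos
  rw [hab] at h1
  unfold cr at h1
  simp at h1

/-- All points are on the left of the side `A B`, strictly except for `A` and `B`. -/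
theorem Hyp.side_pos (h : Hyp S T A B C) {p : Pt} (hp : p ∈ S) (h1 : p ≠ A) (h2 : p ≠ B) :
    0 < cr A B p := by
  by_cases h3 : p = C
  · rw [h3]; exact h.pos
  · exact (h.inn p hp h1 h2 h3).1

theorem Hyp.side_nonneg (h : Hyp S T A B C) {p : Pt} (hp : p ∈ S) : 0 ≤ cr A B p := by
  by_cases h1 : p = A
  · rw [h1, cr_self_left]
  · by_cases h2 : p = B
    · rw [h2, cr_self_right]
    · exact (h.side_pos hp h1 h2).le

/-- The side `A B` is an edge. -/
theorem Hyp.adj (h : Hyp S T A B C) : T.Adj A B := by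
  by_contra hn
  have he : ∀ p ∈ S, p ∉ openSegment ℝ A B := by
    intro p hp hseg
    by_cases h1 : p = A
    · rw [h1, left_mem_openSegment_iff] at hseg
      exact h.ne hseg
    · by_cases h2 : p = B
      · rw [h2, right_mem_openSegment_iff] at hseg
        exact h.ne hseg
      · have h3 := h.side_pos hp h1 h2
        obtain ⟨s, t, hs, ht, hst, rfl⟩ := hseg
        have h4 : cr A B (s • A + t • B) = 0 := by
          have hs' : s = 1 - t := by linarith
          subst hs'
          unfold cr
          simp only [Prod.fst_add, Prod.smul_fst, Prod.snd_add, Prod.smul_snd, smul_eq_mul]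
          ring
        linarith
  obtain ⟨c, d, hcd, -, hd, -⟩ := h.tri.exists_crossing h.hA h.hB h.ne he hn
  have h5 := h.side_nonneg (h.tri.1.mem d c hcd.symm)
  linarith

theorem Hyp.outer_face (h : Hyp S T A B C) : ∃ w, Face S T A B w :=
  h.tri.exists_face h.adj ⟨C, h.hC, h.pos⟩

theorem Hyp.outer_none (h : Hyp S T A B C) (c : Pt) : ¬ Face S T B A c := by
  intro hf
  have h1 := h.side_nonneg (h.tri.1.mem c B hf.wu)
  have h2 := hf.pos
  have h3 : cr B A c = - cr A B c := by unfold cr; ring
  linarith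

/-- If no point is on the left of `a b`, then every point of `S` on the line `a b` is a corner. -/
theorem Hyp.corner (h : Hyp S T A B C) {a b : Pt} (hab : a ≠ b)
    (hle : ∀ p ∈ S, cr a b p ≤ 0) {r : Pt} (hr : r ∈ S) (h0 : cr a b r = 0) :
    r = A ∨ r = B ∨ r = C := by
  by_contra hcon
  push Not at hcon
  obtain ⟨h1, h2, h3⟩ := h.inn r hr hcon.1 hcon.2.1 hcon.2.2
  have hid : cr B C r * cr a b A + cr C A r * cr a b B + cr A B r * cr a b C =
      cr A B C * cr a b r := by
    unfold cr; ring
  rw [h0, mul_zero] at hid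
  have hA := hle A h.hA
  have hB := hle B h.hB
  have hC := hle C h.hC
  have k1 : cr B C r * cr a b A ≤ 0 := mul_nonpos_of_nonneg_of_nonpos h2.le hA
  have k2 : cr C A r * cr a b B ≤ 0 := mul_nonpos_of_nonneg_of_nonpos h3.le hB
  have k3 : cr A B r * cr a b C ≤ 0 := mul_nonpos_of_nonneg_of_nonpos h1.le hC
  have e1 : cr a b A = 0 := by
    have : cr B C r * cr a b A = 0 := by linarith
    exact (mul_eq_zero.mp this).resolve_left h2.ne'
  have e2 : cr a b B = 0 := by
    have : cr C A r * cr a b B = 0 := by linarith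
    exact (mul_eq_zero.mp this).resolve_left h3.ne'
  have e3 : cr a b C = 0 := by
    have : cr A B r * cr a b C = 0 := by linarith
    exact (mul_eq_zero.mp this).resolve_left h1.ne'
  have f1 : cr A B C * (b.1 - a.1) = 0 := by
    have : cr A B C * (b.1 - a.1) =
        (B.1 - A.1) * (cr a b C - cr a b A) - (C.1 - A.1) * (cr a b B - cr a b A) := by
      unfold cr; ring
    rw [this, e1, e2, e3]; ring
  have f2 : cr A B C * (b.2 - a.2) = 0 := by
    have : cr A B C * (b.2 - a.2) =
        (B.2 - A.2) * (cr a b C - cr a b A) - (C.2 - A.2) * (cr a b B - cr a b A) := by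
      unfold cr; ring
    rw [this, e1, e2, e3]; ring
  have g1 := (mul_eq_zero.mp f1).resolve_left h.pos.ne'
  have g2 := (mul_eq_zero.mp f2).resolve_left h.pos.ne'
  exact hab (Prod.ext (by linarith) (by linarith))

theorem Hyp.face_exists (h : Hyp S T A B C) {a b : Pt} (hab : T.Adj a b) :
    (∃ c, Face S T a b c) ∨ (a = B ∧ b = A) ∨ (a = C ∧ b = B) ∨ (a = A ∧ b = C) := by
  by_cases hp : ∃ p ∈ S, 0 < cr a b p
  · exact Or.inl (h.tri.exists_face hab hp)
  · right
    push Not at hp
    have ha : a ∈ S := h.tri.1.mem a b hab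
    have hb : b ∈ S := h.tri.1.mem b a hab.symm
    have h1 := h.corner hab.ne hp ha (cr_self_left a b)
    have h2 := h.corner hab.ne hp hb (cr_self_right a b)
    have hpA := hp A h.hA
    have hpB := hp B h.hB
    have hpC := hp C h.hC
    have hpos := h.pos
    rcases h1 with rfl | rfl | rfl
    · rcases h2 with rfl | rfl | rfl
      · exact absurd rfl hab.ne
      · exact absurd hpC (not_le.mpr hpos)
      · exact Or.inr (Or.inr ⟨rfl, rfl⟩)
    · rcases h2 with rfl | rfl | rfl
      · exact Or.inl ⟨rfl, rfl⟩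
      · exact absurd rfl hab.ne
      · rw [a4_cr_rot] at hpA
        exact absurd hpA (not_le.mpr hpos)
    · rcases h2 with rfl | rfl | rfl
      · rw [← a4_cr_rot] at hpB
        exact absurd hpB (not_le.mpr hpos)
      · exact Or.inr (Or.inl ⟨rfl, rfl⟩)
      · exact absurd rfl hab.ne

/-- The forest property at a corner. -/
theorem Hyp.forest (h : Hyp S T A B C) (P : Finset Pt) (hP : P.Nonempty)
    (hadj : ∀ p ∈ P, T.Adj A p) :
    ∃ p ∈ P, #{q ∈ P | Face S T A p q ∨ Face S T A q p} ≤ 1 := by
  have hne := h.ne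
  refine h.tri.forest (u := A) (x := (2 * A.1 - B.1, 2 * A.2 - B.2)) ?_ P hP hadj ?_ ?_
  · intro he
    have e1 := (Prod.ext_iff.mp he).1
    have e2 := (Prod.ext_iff.mp he).2
    simp only at e1 e2
    exact hne (Prod.ext (by linarith) (by linarith))
  · rintro p q hf ⟨-, h2⟩
    have h3 := h.side_nonneg (h.tri.1.mem q A hf.wu)
    have h4 : cr A (2 * A.1 - B.1, 2 * A.2 - B.2) q = - cr A B q := by
      unfold cr; simp only; ring
    linarith
  · rintro p hp ⟨h1, h2⟩
    have hpA : p ≠ A := (hadj p hp).ne'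
    have hpS : p ∈ S := h.tri.1.mem p A (hadj p hp).symm
    have h4 : cr A (2 * A.1 - B.1, 2 * A.2 - B.2) p = - cr A B p := by
      unfold cr; simp only; ring
    have hpB : p = B := by
      by_contra hpB
      have := h.side_pos hpS hpA hpB
      linarith
    subst hpB
    simp only at h2
    nlinarith [sq_nonneg (p.1 - A.1), sq_nonneg (p.2 - A.2)]

end C1

/-- The forest property at a vertex with a further neighbour. -/
theorem C1.forest_nbr {S : Finset Pt} {T : SimpleGraph Pt} (hT : IsTri S T) {u x : Pt}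
    (hux : T.Adj u x) (P : Finset Pt) (hP : P.Nonempty) (hadj : ∀ p ∈ P, T.Adj u p)
    (hx : x ∉ P) :
    ∃ p ∈ P, #{q ∈ P | Face S T u p q ∨ Face S T u q p} ≤ 1 := by
  refine hT.forest (u := u) (x := x) hux.ne' P hP hadj (fun p q hf => Face.cone hT.1 hf hux) ?_
  rintro p hp ⟨h1, h2⟩
  have hup := hadj p hp
  have hpS : p ∈ S := hT.1.mem p u hup.symm
  have hxS : x ∈ S := hT.1.mem x u hux.symm
  have hN : 0 < (x.1 - u.1) ^ 2 + (x.2 - u.2) ^ 2 := by
    by_contra hcon
    have a1 : (x.1 - u.1) = 0 := by nlinarith [sq_nonneg (x.1 - u.1), sq_nonneg (x.2 - u.2)]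
    have a2 : (x.2 - u.2) = 0 := by nlinarith [sq_nonneg (x.1 - u.1), sq_nonneg (x.2 - u.2)]
    exact hux.ne (Prod.ext (by linarith) (by linarith))
  obtain ⟨N, hNdef⟩ : ∃ N : ℝ, N = (x.1 - u.1) ^ 2 + (x.2 - u.2) ^ 2 := ⟨_, rfl⟩
  obtain ⟨D, hD⟩ : ∃ D : ℝ, D = (x.1 - u.1) * (p.1 - u.1) + (x.2 - u.2) * (p.2 - u.2) :=
    ⟨_, rfl⟩
  rw [← hNdef] at hN
  rw [← hD] at h2
  have e1 : N * (p.1 - u.1) = D * (x.1 - u.1) := by
    have : N * (p.1 - u.1) - D * (x.1 - u.1) = - cr u x p * (x.2 - u.2) := by
      rw [hNdef, hD]; unfold cr; ring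
    rw [h1] at this; linarith
  have e2 : N * (p.2 - u.2) = D * (x.2 - u.2) := by
    have : N * (p.2 - u.2) - D * (x.2 - u.2) = cr u x p * (x.1 - u.1) := by
      rw [hNdef, hD]; unfold cr; ring
    rw [h1] at this; linarith
  rcases lt_trichotomy D N with h3 | h3 | h3
  · refine hT.1.empty u x hux p hpS ⟨1 - D / N, D / N, ?_, div_pos h2 hN, by ring, ?_⟩
    · rw [sub_pos, div_lt_one hN]; exact h3
    · apply Prod.ext
      · simp only [Prod.fst_add, Prod.smul_fst, smul_eq_mul]
        field_simp
        linarith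
      · simp only [Prod.snd_add, Prod.smul_snd, smul_eq_mul]
        field_simp
        linarith
  · apply hx
    have : p = x := by
      apply Prod.ext
      · rw [h3] at e1
        have := mul_left_cancel₀ hN.ne' e1
        linarith
      · rw [h3] at e2
        have := mul_left_cancel₀ hN.ne' e2
        linarith
    rw [← this]; exact hp
  · refine hT.1.empty u p hup x hxS ⟨1 - N / D, N / D, ?_, div_pos hN h2, by ring, ?_⟩
    · rw [sub_pos, div_lt_one h2]; exact h3
    · apply Prod.ext
      · simp only [Prod.fst_add, Prod.smul_fst, smul_eq_mul]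
        field_simp
        linarith
      · simp only [Prod.snd_add, Prod.smul_snd, smul_eq_mul]
        field_simp
        linarith

/-- Counting pairs of points of `S` in the subtype. -/
theorem C1.card_pairs (S : Finset Pt) (Q : Pt → Pt → Prop) :
    #{x : {p // p ∈ S} × {p // p ∈ S} | Q x.1.1 x.2.1} = #{x ∈ S ×ˢ S | Q x.1 x.2} := by
  refine Finset.card_bij (fun x _ => (x.1.1, x.2.1)) ?_ ?_ ?_
  · intro x hx
    rw [Finset.mem_filter] at hx ⊢
    exact ⟨Finset.mem_product.mpr ⟨x.1.2, x.2.2⟩, hx.2⟩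
  · intro x _ y _ hxy
    have h1 := (Prod.ext_iff.mp hxy).1
    have h2 := (Prod.ext_iff.mp hxy).2
    exact Prod.ext (Subtype.ext h1) (Subtype.ext h2)
  · rintro ⟨p, q⟩ hx
    rw [Finset.mem_filter, Finset.mem_product] at hx
    exact ⟨(⟨p, hx.1.1⟩, ⟨q, hx.1.2⟩), Finset.mem_filter.mpr ⟨Finset.mem_univ _, hx.2⟩, rfl⟩

theorem IsTri.exists_disc {S : Finset Pt} {T : SimpleGraph Pt} (hT : IsTri S T) {A B C : Pt}
    (hA : A ∈ S) (hB : B ∈ S) (hC : C ∈ S) (hpos : 0 < cr A B C)
    (hin : ∀ p ∈ S, p ≠ A → p ≠ B → p ≠ C → 0 < cr A B p ∧ 0 < cr B C p ∧ 0 < cr C A p) :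
    ∃ D : Disc {p // p ∈ S}, (∀ a b, D.adj a b ↔ T.Adj a.1 b.1) ∧
      (∀ a b c, D.face a b c ↔ Face S T a.1 b.1 c.1) ∧
      D.hA = ⟨A, hA⟩ ∧ D.hB = ⟨B, hB⟩ ∧ D.hC = ⟨C, hC⟩ := by
  have h : C1.Hyp S T A B C := ⟨hT, hA, hB, hC, hpos, hin⟩
  have h' := h.rot
  have h'' := h'.rot
  refine ⟨{ adj := fun a b => T.Adj a.1 b.1
            face := fun a b c => Face S T a.1 b.1 c.1
            hA := ⟨A, hA⟩
            hB := ⟨B, hB⟩
            hC := ⟨C, hC⟩
            adj_symm := fun a b hab => hab.symm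
            adj_irrefl := fun a ha => ha.ne rfl
            face_adj := fun a b c hf => hf.uv
            face_rot := fun a b c hf => hf.rot
            face_unique := fun a b c d h1 h2 => Subtype.ext (Face.unique hT.1 h1 h2)
            face_asymm := ?_
            outer_edge := ?_
            outer_none := fun c => ⟨h.outer_none c.1, h'.outer_none c.1, h''.outer_none c.1⟩
            face_exists := ?_
            forest := ?_
            euler := ?_
            conn := ?_ }, fun a b => Iff.rfl, fun a b c => Iff.rfl, rfl, rfl, rfl⟩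
  · intro a b c h1 h2
    have k1 := h1.pos
    have k2 := h2.pos
    have k3 : cr b.1 a.1 c.1 = - cr a.1 b.1 c.1 := by unfold cr; ring
    linarith
  · refine ⟨?_, ?_, ?_⟩
    · obtain ⟨w, hw⟩ := h.outer_face
      exact ⟨⟨w, hT.1.mem _ _ hw.wu⟩, hw⟩
    · obtain ⟨w, hw⟩ := h'.outer_face
      exact ⟨⟨w, hT.1.mem _ _ hw.wu⟩, hw⟩
    · obtain ⟨w, hw⟩ := h''.outer_face
      exact ⟨⟨w, hT.1.mem _ _ hw.wu⟩, hw⟩
  · intro a b hab
    rcases h.face_exists hab with ⟨w, hw⟩ | ⟨h1, h2⟩ | ⟨h1, h2⟩ | ⟨h1, h2⟩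
    · exact Or.inl ⟨⟨w, hT.1.mem _ _ hw.wu⟩, hw⟩
    · exact Or.inr (Or.inl ⟨Subtype.ext h1, Subtype.ext h2⟩)
    · exact Or.inr (Or.inr (Or.inl ⟨Subtype.ext h1, Subtype.ext h2⟩))
    · exact Or.inr (Or.inr (Or.inr ⟨Subtype.ext h1, Subtype.ext h2⟩))
  · intro v P hP hadj hv
    have hP' : (P.image Subtype.val).Nonempty := hP.image _
    have hadj' : ∀ p ∈ P.image Subtype.val, T.Adj v.1 p := by
      intro p hp
      rw [Finset.mem_image] at hp
      obtain ⟨q, hq, rfl⟩ := hp
      exact hadj q hq
    have key : ∃ p ∈ P.image Subtype.val,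
        #{q ∈ P.image Subtype.val | Face S T v.1 p q ∨ Face S T v.1 q p} ≤ 1 := by
      rcases hv with (rfl | rfl | rfl) | ⟨x, hx, hxP⟩
      · exact h.forest _ hP' hadj'
      · exact h'.forest _ hP' hadj'
      · exact h''.forest _ hP' hadj'
      · refine C1.forest_nbr hT hx _ hP' hadj' fun hmem => ?_
        rw [Finset.mem_image] at hmem
        obtain ⟨q, hq, hqx⟩ := hmem
        rw [Subtype.ext hqx] at hq
        exact hxP hq
    obtain ⟨p, hp, hcard⟩ := key
    rw [Finset.mem_image] at hp
    obtain ⟨p', hp', rfl⟩ := hp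
    refine ⟨p', hp', le_trans ?_ hcard⟩
    refine Finset.card_le_card_of_injOn Subtype.val ?_ Subtype.val_injective.injOn
    intro q hq
    rw [Finset.mem_coe, Finset.mem_filter] at hq ⊢
    exact ⟨Finset.mem_image_of_mem _ hq.1, hq.2⟩
  · have h1 := hT.euler ⟨A, hA⟩
    unfold d3 e2 at h1
    rw [← C1.card_pairs S (fun a b => ∃ w, Face S T a b w),
      ← C1.card_pairs S (fun a b => T.Adj a b)] at h1
    have h2 : Fintype.card {p // p ∈ S} = #S := by simp
    have h3 : #{x : {p // p ∈ S} × {p // p ∈ S} | ∃ c : {p // p ∈ S}, Face S T x.1.1 x.2.1 c.1} =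
        #{x : {p // p ∈ S} × {p // p ∈ S} | ∃ c, Face S T x.1.1 x.2.1 c} := by
      congr 1
      ext x
      rw [Finset.mem_filter, Finset.mem_filter]
      refine and_congr_right fun _ => ⟨fun ⟨c, hc⟩ => ⟨c.1, hc⟩, fun ⟨c, hc⟩ => ?_⟩
      exact ⟨⟨c, hT.1.mem _ _ hc.wu⟩, hc⟩
    rw [h2, h3]
    exact h1
  · intro f hf a b
    have h1 := hT.conn (fun p => if hp : p ∈ S then f ⟨p, hp⟩ else 0) (by
      intro c d hcd
      have hc : c ∈ S := hT.1.mem c d hcd
      have hd : d ∈ S := hT.1.mem d c hcd.symm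
      simp only [hc, hd, dif_pos]
      exact hf ⟨c, hc⟩ ⟨d, hd⟩ hcd) a.1 a.2 b.1 b.2
    simpa using h1

end Pool.Agent.Helper70.MD
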