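import Pool.Agent.Helper70.MD.TDefs

/-!
The states in a cell (local coordinates).
-/

set_option autoImplicit false

namespace Pool.Agent.Helper70.MD

open Finset

open scoped Classical

/-- Facts about the states `r q ξ` of the rows `q = 1, ..., 7` of a cell. -/
structure Cell (r : ℕ → ℕ → St) (hit : Bool) : Prop where
  xA : (r 1 17 = .D ∧ r 1 18 = .A) ∨ (r 1 17 = .B ∧ r 1 18 = .D)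
  SB : (r 2 2 = .A ∧ r 2 3 = .A ∧ r 2 11 = .A ∧ r 2 12 = .A) ∨ r 2 12 = .D
  xB : (r 2 17 = .D ∧ r 2 18 = .A ∧ r 2 21 = .A ∧ r 2 22 = .A) ∨
    (r 2 17 = .B ∧ r 2 18 = .B ∧ r 2 22 = .D)
  SBr : (r 2 27 = .D ∧ r 2 28 = .A ∧ r 2 38 = .A ∧ r 2 39 = .A) ∨ r 2 27 = .B
  SC : (r 3 2 = .A ∧ r 3 3 = .A) ∨ (r 3 1 = .B ∧ r 3 2 = .B)
  aC : (hit = false ∧ r 3 11 = .D ∧ r 3 12 = .A) ∨ hit = true ∨ (r 3 13 = .B ∧ r 3 14 = .D)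
  aC' : r 3 14 = .A ∨ (r 3 13 = .B ∧ r 3 14 = .D)
  xC : (r 3 17 = .D ∧ r 3 18 = .A) ∨ (r 3 17 = .B ∧ r 3 18 = .D)
  dC : (r 3 21 = .D ∧ r 3 22 = .A) ∨ (r 3 21 = .B ∧ r 3 22 = .B)
  SCr : (r 3 27 = .D ∧ r 3 28 = .A) ∨ (r 3 27 = .B ∧ r 3 28 = .D)
  SCp : (r 3 38 = .D ∧ r 3 39 = .A) ∨ (r 3 38 = .B ∧ r 3 39 = .B)
  SD : ((r 4 1 = .D ∨ r 4 1 = .A) ∧ r 4 2 = .A) ∨ (r 4 1 = .B ∧ r 4 2 = .D)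
  bD : (r 4 9 = .A ∧ r 4 10 = .A) ∨ (r 4 5 = .B ∧ r 4 6 = .B)
  aD : (r 4 13 = .D ∧ r 4 14 = .A) ∨ (r 4 13 = .B ∧ r 4 14 = .B ∧ r 4 17 = .B ∧ r 4 18 = .D)
  dD : (r 4 21 = .D ∧ r 4 22 = .A) ∨ (r 4 21 = .B ∧ r 4 22 = .B ∧ r 4 27 = .B ∧ r 4 28 = .D)
  gD : (r 4 31 = .D ∧ r 4 32 = .A) ∨ (r 4 36 = .B ∧ r 4 37 = .B ∧ r 4 38 = .B ∧ r 4 39 = .D)
  bE : (r 5 1 = .D ∧ r 5 2 = .A ∧ r 5 5 = .A ∧ r 5 6 = .A) ∨ (r 5 5 = .B ∧ r 5 6 = .D)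
  X : (r 5 9 = .D ∧ r 5 10 = .A) ∨ (r 5 13 = .D ∧ r 5 14 = .A) ∨ (r 5 21 = .D ∧ r 5 22 = .A) ∨
    (r 5 31 = .D ∧ r 5 32 = .A)
  gE : (r 5 36 = .D ∧ r 5 37 = .A) ∨ (r 5 36 = .B ∧ r 5 37 = .D)
  xF : (r 6 5 = .D ∧ r 6 6 = .A) ∨ (r 6 7 = .B ∧ r 6 8 = .D)
  gF : (r 6 36 = .A ∧ r 6 37 = .A) ∨ (r 6 34 = .B ∧ r 6 35 = .B)
  xG : (r 7 17 = .A ∧ r 7 18 = .A) ∨ (r 7 7 = .B ∧ r 7 8 = .B ∧ r 7 34 = .B ∧ r 7 35 = .D)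

end Pool.Agent.Helper70.MD
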