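import Pool.Agent.Helper70.MD.DDefs
import Pool.Agent.Helper70.MD.C1
import Pool.Agent.Helper70.MD.B0
import Pool.Agent.Helper70.MD.B4

/-!
MD-D1: the level sets.

Proof. `Rings.inner` and `Rings.pos`, `Rings.zero` give the hypotheses of `IsTri.exists_disc` with the
corners `a, b, c` (all in `S`); take the disc `D` and `lev` from `exists_lev`. Levels are functions on
the subtype; put `V i = {p ∈ S | lev p = i}` (the image of the level set under the coercion), so
`nv lev i = #(V i)`. `D.deg v ≤ 6` because `deg v` is the number of neighbours of `v` in `T` (all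
neighbours are in `S`). By `growth`, `#(V i) ≤ 6 i + 3` for all `i`.
Key lemma: let `p ∈ S`, `1 ≤ i ≤ lev p`, and `g ≠ 0` with `lin g q < lin g p` for all `q ∈ S` with
`i ≤ lev q`, `q ≠ p`. Then `lev p = i`. Proof: `p` is not a corner (its level is positive), so it is in
the open triangle `a b c`, and one of the corners has `lin g` larger than `lin g p` (a barycentric
combination with positive coefficients: otherwise all three corners have `lin g = lin g p`, and
`g ≠ 0` makes them collinear). By `exists_nbr` `p` has a neighbour `w` with `lin g w > lin g p`; so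
`lev w < i` and `lev p ≤ lev w + 1 ≤ i`.
`V 0 = C 0` by `Lev.zero`. Let `1 ≤ i < i0` and `V j = C j` for all `j < i`. Then `lev q ≥ i` iff `q` is in
some `C l` with `l ≥ i` (for `q ∈ S`). By `Rings.ext` and the key lemma all points of `C i` have level
`i`: `C i ⊆ V i`, and `#(C i) = 6 i + 3 ≥ #(V i)`, so `V i = C i`.
Pair `i = i0 + 2 p`, `p < P`, assuming that `{q ∈ S | lev q < i}` is the union of the `C j`, `j < i`
(this is the induction hypothesis for the pairs). As before `C i ⊆ V i`. A point `q ∈ C (i+1)` with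
`q ∉ V i` has level `≥ i+1`, and all points of level `≥ i+1` are in the rings `C l`, `l ≥ i+1`; by
`Rings.ext` and the key lemma its level is `i+1`. So `C i ∪ C (i+1) ⊆ V i ∪ V (i+1)`, both unions are
disjoint, and `#(C i) + #(C (i+1)) = (6 i + 3) + (6 (i+1) + 3) ≥ #(V i) + #(V (i+1))`. So both sides
are equal, `#(V i) = 6 i + 3`, `#(V (i+1)) = 6 (i+1) + 3`, `V i ∪ V (i+1) = C i ∪ C (i+1)`, and
`V (i+1) ⊆ C (i+1)` because `C i ⊆ V i` is disjoint from `V (i+1)`.
Last ring `M = i0 + 2 P`: `C M ⊆ V M` and `#(C M) = 6 M + 3 ≥ #(V M)`; equality; all points of `S` are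
in the union of the `C j`, so all levels are `≤ M`.
-/

set_option autoImplicit false

namespace Pool.Agent.Helper70.MD

open Finset

open scoped Classical

/-- One of the corners of a triangle is above an interior point. -/
theorem exists_corner_lt {S : Finset Pt} {a b c p g : Pt} (ha : a ∈ S) (hb : b ∈ S) (hc : c ∈ S)
    (hpos : 0 < cr a b c) (hg : g ≠ 0) (k1 : 0 < cr a b p) (k2 : 0 < cr b c p)
    (k3 : 0 < cr c a p) : ∃ q ∈ S, lin g p < lin g q := by
  by_contra hcon
  push Not at hcon
  have h1 := hcon a ha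
  have h2 := hcon b hb
  have h3 := hcon c hc
  have hid : cr b c p * (lin g p - lin g a) + cr c a p * (lin g p - lin g b) +
      cr a b p * (lin g p - lin g c) = 0 := by
    unfold cr lin
    ring
  have e1 := mul_nonneg k2.le (sub_nonneg.mpr h1)
  have e2 := mul_nonneg k3.le (sub_nonneg.mpr h2)
  have e3 := mul_nonneg k1.le (sub_nonneg.mpr h3)
  have f1 : lin g p - lin g a = 0 := by
    have : cr b c p * (lin g p - lin g a) = 0 := by linarith
    rcases mul_eq_zero.mp this with h | h
    · exact absurd h k2.ne'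
    · exact h
  have f2 : lin g p - lin g b = 0 := by
    have : cr c a p * (lin g p - lin g b) = 0 := by linarith
    rcases mul_eq_zero.mp this with h | h
    · exact absurd h k3.ne'
    · exact h
  have f3 : lin g p - lin g c = 0 := by
    have : cr a b p * (lin g p - lin g c) = 0 := by linarith
    rcases mul_eq_zero.mp this with h | h
    · exact absurd h k1.ne'
    · exact h
  have g1 : g.1 * (b.1 - a.1) + g.2 * (b.2 - a.2) = 0 := by
    unfold lin at f1 f2
    linarith
  have g2 : g.1 * (c.1 - a.1) + g.2 * (c.2 - a.2) = 0 := by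
    unfold lin at f1 f3
    linarith
  have g3 : g.1 * cr a b c = 0 := by
    unfold cr
    linear_combination (c.2 - a.2) * g1 - (b.2 - a.2) * g2
  have g4 : g.2 * cr a b c = 0 := by
    unfold cr
    linear_combination (b.1 - a.1) * g2 - (c.1 - a.1) * g1
  apply hg
  ext
  · exact (mul_eq_zero.mp g3).resolve_right hpos.ne'
  · exact (mul_eq_zero.mp g4).resolve_right hpos.ne'

theorem Rings.levels {S : Finset Pt} {i0 P : ℕ} {C : ℕ → Finset Pt} {a b c : Pt}
    (hR : Rings S i0 P C a b c) {T : SimpleGraph Pt} (hT : IsTri S T) (hd : MaxDegLE T 6) :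
    ∃ (D : Disc {p // p ∈ S}) (lev : {p // p ∈ S} → ℕ) (V : ℕ → Finset Pt),
      (∀ x y, D.adj x y ↔ T.Adj x.1 y.1) ∧
      (∀ x y z, D.face x y z ↔ Face S T x.1 y.1 z.1) ∧
      D.Lev lev ∧ (∀ v, D.deg v ≤ 6) ∧ (∀ v, lev v ≤ i0 + 2 * P) ∧
      (∀ i, ∀ p : {p // p ∈ S}, p.1 ∈ V i ↔ lev p = i) ∧
      (∀ i, V i ⊆ S) ∧
      (∀ i ≤ i0 + 2 * P, Disc.nv lev i = 6 * i + 3) ∧
      (∀ i ≤ i0 + 2 * P, #(V i) = 6 * i + 3) ∧
      (∀ i < i0, V i = C i) ∧
      V (i0 + 2 * P) = C (i0 + 2 * P) ∧
      (∀ p < P, C (i0 + 2 * p) ⊆ V (i0 + 2 * p)) ∧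
      (∀ p < P, V (i0 + 2 * p + 1) ⊆ C (i0 + 2 * p + 1)) ∧
      (∀ p < P, V (i0 + 2 * p) ∪ V (i0 + 2 * p + 1) = C (i0 + 2 * p) ∪ C (i0 + 2 * p + 1)) := by
  have haS : a ∈ S := (hR.mem a).2 ⟨0, Nat.zero_le _, by rw [hR.zero]; simp⟩
  have hbS : b ∈ S := (hR.mem b).2 ⟨0, Nat.zero_le _, by rw [hR.zero]; simp⟩
  have hcS : c ∈ S := (hR.mem c).2 ⟨0, Nat.zero_le _, by rw [hR.zero]; simp⟩
  have hin : ∀ p ∈ S, p ≠ a → p ≠ b → p ≠ c → 0 < cr a b p ∧ 0 < cr b c p ∧ 0 < cr c a p := by
    intro p hp h1 h2 h3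
    obtain ⟨i, hi, hpi⟩ := (hR.mem p).1 hp
    rcases Nat.eq_zero_or_pos i with rfl | hi0
    · rw [hR.zero] at hpi
      simp only [mem_insert, mem_singleton] at hpi
      rcases hpi with h | h | h
      · exact absurd h h1
      · exact absurd h h2
      · exact absurd h h3
    · exact hR.inner i p hi0 hi hpi
  obtain ⟨D, hadj, hface, hDA, hDB, hDC⟩ := hT.exists_disc haS hbS hcS hR.pos hin
  obtain ⟨lev, hlev⟩ := D.exists_lev
  have hdeg : ∀ v, D.deg v ≤ 6 := by
    intro v
    have hfin : (T.neighborSet v.1).Finite := by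
      apply Set.Finite.subset S.finite_toSet
      intro w hw
      exact hT.1.mem w v.1 hw.symm
    have h1 : D.deg v = #(({u : {p // p ∈ S} | D.adj v u} : Finset {p // p ∈ S}).map
        (Function.Embedding.subtype _)) := by
      rw [card_map]
      rfl
    rw [h1, ← Set.ncard_coe_finset]
    refine le_trans (Set.ncard_le_ncard ?_ hfin) (hd v.1)
    intro w hw
    rw [mem_coe, mem_map] at hw
    obtain ⟨u, hu, rfl⟩ := hw
    rw [mem_filter] at hu
    exact (hadj v u).1 hu.2
  have hgr := D.growth hlev hdeg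
  -- the level sets
  let V : ℕ → Finset Pt := fun i =>
    (({p : {p // p ∈ S} | lev p = i} : Finset {p // p ∈ S}).map (Function.Embedding.subtype _))
  have hVmem : ∀ i, ∀ p : {p // p ∈ S}, p.1 ∈ V i ↔ lev p = i := by
    intro i p
    simp only [V, mem_map, mem_filter, mem_univ, true_and, Function.Embedding.subtype_apply]
    constructor
    · rintro ⟨q, hq, hqp⟩
      rwa [← Subtype.ext hqp]
    · intro h
      exact ⟨p, h, rfl⟩
  have hVS : ∀ i, V i ⊆ S := by
    intro i p hp
    simp only [V, mem_map, Function.Embedding.subtype_apply] at hp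
    obtain ⟨q, _, rfl⟩ := hp
    exact q.2
  have hVcard : ∀ i, #(V i) = Disc.nv lev i := by
    intro i
    simp only [V, card_map]
    rfl
  have hVle : ∀ i, #(V i) ≤ 6 * i + 3 := fun i => by rw [hVcard]; exact hgr i
  -- key lemma
  have key : ∀ (i : ℕ) (p : {p // p ∈ S}) (g : Pt), 1 ≤ i → i ≤ lev p → g ≠ 0 →
      (∀ q : {p // p ∈ S}, i ≤ lev q → q ≠ p → lin g q.1 < lin g p.1) → lev p = i := by
    intro i p g hi hip hg hq
    have hne : ¬ (p = D.hA ∨ p = D.hB ∨ p = D.hC) := by
      rw [← hlev.zero p]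
      omega
    rw [hDA, hDB, hDC] at hne
    have h1 : p.1 ≠ a := fun h => hne (Or.inl (Subtype.ext h))
    have h2 : p.1 ≠ b := fun h => hne (Or.inr (Or.inl (Subtype.ext h)))
    have h3 : p.1 ≠ c := fun h => hne (Or.inr (Or.inr (Subtype.ext h)))
    obtain ⟨k1, k2, k3⟩ := hin p.1 p.2 h1 h2 h3
    have hex : ∃ q ∈ S, lin g p.1 < lin g q := exists_corner_lt haS hbS hcS hR.pos hg k1 k2 k3
    obtain ⟨w, hw, hlw⟩ := hT.exists_nbr p.2 g hex
    have hwS : w ∈ S := hT.1.mem w p.1 hw.symm
    have hwi : lev ⟨w, hwS⟩ < i := by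
      by_contra hcon
      have h4 := hq ⟨w, hwS⟩ (by omega) (by
        intro h
        have h5 : w = p.1 := congrArg Subtype.val h
        rw [h5] at hlw
        exact lt_irrefl _ hlw)
      exact absurd hlw (not_lt.mpr h4.le)
    have h6 := hlev.step ⟨w, hwS⟩ p ((hadj _ _).2 hw.symm)
    omega
  -- induction property
  let M := i0 + 2 * P
  let Good : ℕ → Prop := fun i => ∀ q : {p // p ∈ S}, i ≤ lev q ↔ ∃ l, i ≤ l ∧ l ≤ M ∧ q.1 ∈ C l
  have good0 : Good 0 := by
    intro q
    constructor
    · intro _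
      obtain ⟨l, hl, hql⟩ := (hR.mem q.1).1 q.2
      exact ⟨l, Nat.zero_le _, hl, hql⟩
    · intro _
      exact Nat.zero_le _
  have hCS : ∀ i, i ≤ M → C i ⊆ S := fun i hi p hp => (hR.mem p).2 ⟨i, hi, hp⟩
  have hV0 : V 0 = C 0 := by
    ext x
    constructor
    · intro hx
      have hxS := hVS 0 hx
      have h0 := (hVmem 0 ⟨x, hxS⟩).1 hx
      rw [hlev.zero, hDA, hDB, hDC] at h0
      rw [hR.zero]
      simp only [mem_insert, mem_singleton]
      rcases h0 with h | h | h
      · exact Or.inl (congrArg Subtype.val h)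
      · exact Or.inr (Or.inl (congrArg Subtype.val h))
      · exact Or.inr (Or.inr (congrArg Subtype.val h))
    · intro hx
      have hxS := hCS 0 (Nat.zero_le _) hx
      refine (hVmem 0 ⟨x, hxS⟩).2 ?_
      rw [hlev.zero, hDA, hDB, hDC]
      rw [hR.zero] at hx
      simp only [mem_insert, mem_singleton] at hx
      rcases hx with h | h | h
      · exact Or.inl (Subtype.ext h)
      · exact Or.inr (Or.inl (Subtype.ext h))
      · exact Or.inr (Or.inr (Subtype.ext h))
  have good_step : ∀ i, i ≤ M → Good i → V i = C i → Good (i + 1) := by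
    intro i hiM hgi hVi q
    constructor
    · intro h
      obtain ⟨l, hl1, hl2, hl3⟩ := (hgi q).1 (by omega)
      refine ⟨l, ?_, hl2, hl3⟩
      by_contra hcon
      have hli : l = i := by omega
      rw [hli, ← hVi] at hl3
      have := (hVmem i q).1 hl3
      omega
    · rintro ⟨l, hl1, hl2, hl3⟩
      have h1 := (hgi q).2 ⟨l, by omega, hl2, hl3⟩
      have h2 : lev q ≠ i := by
        intro h
        have h3 := (hVmem i q).2 h
        rw [hVi] at h3
        have := hR.disj l i q.1 hl2 hiM hl3 h3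
        omega
      omega
  have sub : ∀ i, 1 ≤ i → i ≤ M → Good i → C i ⊆ V i := by
    intro i hi1 hiM hgi x hx
    have hxS := hCS i hiM hx
    obtain ⟨g, hg, hgl⟩ := hR.ext i x hi1 hiM hx
    refine (hVmem i ⟨x, hxS⟩).2 (key i ⟨x, hxS⟩ g hi1 ?_ hg ?_)
    · exact (hgi ⟨x, hxS⟩).2 ⟨i, le_rfl, hiM, hx⟩
    · intro q hq hne
      obtain ⟨l, hl1, hl2, hl3⟩ := (hgi q).1 hq
      exact hgl l q.1 hl1 hl2 hl3 (fun h => hne (Subtype.ext h))
  have low : ∀ i, i ≤ i0 → Good i ∧ ∀ j < i, V j = C j := by
    intro i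
    induction i with
    | zero => exact fun _ => ⟨good0, fun j hj => absurd hj (Nat.not_lt_zero j)⟩
    | succ i ih =>
      intro hi
      obtain ⟨hg, hV⟩ := ih (by omega)
      have hiM : i ≤ M := by
        change i ≤ i0 + 2 * P
        omega
      have hVi : V i = C i := by
        rcases Nat.eq_zero_or_pos i with rfl | hi0
        · exact hV0
        · symm
          apply eq_of_subset_of_card_le (sub i hi0 hiM hg)
          rw [hR.card_low i hi0 (by omega)]
          exact hVle i
      refine ⟨good_step i hiM hg hVi, ?_⟩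
      intro j hj
      rcases Nat.lt_succ_iff_lt_or_eq.mp hj with h | rfl
      · exact hV j h
      · exact hVi
  have pair : ∀ p < P, Good (i0 + 2 * p) →
      C (i0 + 2 * p) ⊆ V (i0 + 2 * p) ∧ V (i0 + 2 * p + 1) ⊆ C (i0 + 2 * p + 1) ∧
      V (i0 + 2 * p) ∪ V (i0 + 2 * p + 1) = C (i0 + 2 * p) ∪ C (i0 + 2 * p + 1) ∧
      #(V (i0 + 2 * p)) = 6 * (i0 + 2 * p) + 3 ∧
      #(V (i0 + 2 * p + 1)) = 6 * (i0 + 2 * p + 1) + 3 ∧ Good (i0 + 2 * (p + 1)) := by
    intro p hp hg
    have hi0 := hR.i0_pos
    have hcp := hR.card_pair p hp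
    have hMdef : M = i0 + 2 * P := rfl
    have e2 : i0 + 2 * (p + 1) = (i0 + 2 * p) + 2 := by ring
    rw [e2]
    have hiM : (i0 + 2 * p) + 1 ≤ M := by omega
    have hi1 : 1 ≤ i0 + 2 * p := by omega
    generalize i0 + 2 * p = i at *
    have hsub := sub i hi1 (by omega) hg
    have hsub2 : C (i + 1) ⊆ V i ∪ V (i + 1) := by
      intro x hx
      have hxS := hCS (i + 1) hiM hx
      rw [mem_union]
      by_cases hxi : x ∈ V i
      · exact Or.inl hxi
      · right
        have hlx : i + 1 ≤ lev ⟨x, hxS⟩ := by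
          have h1 := (hg ⟨x, hxS⟩).2 ⟨i + 1, by omega, hiM, hx⟩
          have h2 : lev ⟨x, hxS⟩ ≠ i := fun h => hxi ((hVmem i ⟨x, hxS⟩).2 h)
          omega
        obtain ⟨g, hg0, hgl⟩ := hR.ext (i + 1) x (by omega) hiM hx
        refine (hVmem (i + 1) ⟨x, hxS⟩).2 (key (i + 1) ⟨x, hxS⟩ g (by omega) hlx hg0 ?_)
        intro q hq hne
        obtain ⟨l, hl1, hl2, hl3⟩ := (hg q).1 (by omega)
        refine hgl l q.1 ?_ hl2 hl3 (fun h => hne (Subtype.ext h))
        by_contra hcon
        have hli : l = i := by omega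
        rw [hli] at hl3
        have := (hVmem i q).1 (hsub hl3)
        omega
    have hdC : Disjoint (C i) (C (i + 1)) := by
      rw [disjoint_left]
      intro x hx hx'
      have := hR.disj i (i + 1) x (by omega) hiM hx hx'
      omega
    have hdV : Disjoint (V i) (V (i + 1)) := by
      rw [disjoint_left]
      intro x hx hx'
      have hxS := hVS i hx
      have h1 := (hVmem i ⟨x, hxS⟩).1 hx
      have h2 := (hVmem (i + 1) ⟨x, hxS⟩).1 hx'
      omega
    have hcC := card_union_of_disjoint hdC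
    have hcV := card_union_of_disjoint hdV
    have h1 := hVle i
    have h2 := hVle (i + 1)
    have hun : C i ∪ C (i + 1) = V i ∪ V (i + 1) := by
      apply eq_of_subset_of_card_le
      · exact union_subset (hsub.trans subset_union_left) hsub2
      · omega
    have h3 : #(V i) + #(V (i + 1)) = (6 * i + 3) + (6 * (i + 1) + 3) := by
      rw [← hcV, ← hun, hcC, hcp]
    refine ⟨hsub, ?_, hun.symm, by omega, by omega, ?_⟩
    · intro x hx
      have hx' : x ∈ C i ∪ C (i + 1) := by
        rw [hun, mem_union]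
        exact Or.inr hx
      rcases mem_union.mp hx' with h | h
      · exact absurd hx (disjoint_left.mp hdV (hsub h))
      · exact h
    · intro q
      constructor
      · intro h
        obtain ⟨l, hl1, hl2, hl3⟩ := (hg q).1 (by omega)
        refine ⟨l, ?_, hl2, hl3⟩
        by_contra hcon
        have hq : q.1 ∈ V i ∪ V (i + 1) := by
          rw [← hun, mem_union]
          have : l = i ∨ l = i + 1 := by omega
          rcases this with rfl | rfl
          · exact Or.inl hl3
          · exact Or.inr hl3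
        rcases mem_union.mp hq with h' | h'
        · have := (hVmem i q).1 h'
          omega
        · have := (hVmem (i + 1) q).1 h'
          omega
      · rintro ⟨l, hl1, hl2, hl3⟩
        have h4 := (hg q).2 ⟨l, by omega, hl2, hl3⟩
        have h5 : q.1 ∉ V i ∪ V (i + 1) := by
          rw [← hun, mem_union]
          rintro (h | h)
          · have := hR.disj l i q.1 hl2 (by omega) hl3 h
            omega
          · have := hR.disj l (i + 1) q.1 hl2 hiM hl3 h
            omega
        rw [mem_union] at h5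
        have h6 : lev q ≠ i := fun h => h5 (Or.inl ((hVmem i q).2 h))
        have h7 : lev q ≠ i + 1 := fun h => h5 (Or.inr ((hVmem (i + 1) q).2 h))
        omega
  have goodp : ∀ p, p ≤ P → Good (i0 + 2 * p) := by
    intro p
    induction p with
    | zero => exact fun _ => (low i0 le_rfl).1
    | succ p ih => exact fun hp => (pair p (by omega) (ih (by omega))).2.2.2.2.2
  have hi0 := hR.i0_pos
  have hMdef : M = i0 + 2 * P := rfl
  have goodM := goodp P le_rfl
  have htop : V (i0 + 2 * P) = C (i0 + 2 * P) := by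
    symm
    apply eq_of_subset_of_card_le (sub (i0 + 2 * P) (by omega) le_rfl goodM)
    rw [hR.card_top]
    exact hVle _
  have hle : ∀ v, lev v ≤ i0 + 2 * P := by
    intro v
    by_contra hcon
    obtain ⟨l, hl1, hl2, hl3⟩ := (goodM v).1 (by omega)
    have hlM : l = i0 + 2 * P := by omega
    rw [hlM, ← htop] at hl3
    have := (hVmem _ v).1 hl3
    omega
  have hcard : ∀ i ≤ i0 + 2 * P, #(V i) = 6 * i + 3 := by
    intro i hi
    rcases lt_or_ge i i0 with h | h
    · rcases Nat.eq_zero_or_pos i with rfl | hi1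
      · rw [hVcard, Disc.nv_zero D hlev]
      · rw [(low i0 le_rfl).2 i h, hR.card_low i hi1 h]
    · rcases Nat.lt_or_ge i (i0 + 2 * P) with h2 | h2
      · have hp : (i - i0) / 2 < P := by omega
        obtain ⟨_, _, _, h4, h5, _⟩ := pair ((i - i0) / 2) hp (goodp _ hp.le)
        have : i = i0 + 2 * ((i - i0) / 2) ∨ i = i0 + 2 * ((i - i0) / 2) + 1 := by omega
        rcases this with h6 | h6
        · rw [← h6] at h4
          exact h4
        · rw [← h6] at h5
          exact h5
      · have : i = i0 + 2 * P := le_antisymm hi h2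
        rw [this, htop, hR.card_top]
  refine ⟨D, lev, V, hadj, hface, hlev, hdeg, hle, hVmem, hVS, ?_, hcard, ?_, htop, ?_, ?_, ?_⟩
  · intro i hi
    rw [← hVcard]
    exact hcard i hi
  · intro i hi
    exact (low i0 le_rfl).2 i hi
  · intro p hp
    exact (pair p hp (goodp p hp.le)).1
  · intro p hp
    exact (pair p hp (goodp p hp.le)).2.1
  · intro p hp
    exact (pair p hp (goodp p hp.le)).2.2.1

end Pool.Agent.Helper70.MD
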