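import Pool.Agent.Helper70.MD.D1
import Pool.Agent.Helper70.MD.A7
import Pool.Agent.Helper70.MD.B5

/-!
MD-D2: the facts about triangulations with degrees at most 6.

Proof. Take `D`, `lev`, `V` from `Rings.levels` and the functions `succ`, `apex` on the subtype from
`ring_structure` (with `M = i0 + 2 P ≥ 1`), extended to `Pt` arbitrarily outside `S`. `low`, `top`,
`even_sub`, `odd_sub`, `pair`, `card` are part of D1; `disj`: `p ∈ V i`, `p ∈ V j` give `lev p = i = j`.
`succ_mem`, `apex_mem`, `tri`, `walk`, `onto` are the conclusions of `ring_structure` (positivity of the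
face, field `pos`; for `walk` the face `(apex v) (apex (succ v)) (succ v)`).
`hull`: let `R = {q ∈ S | i ≤ lev q}`; as `i = M` or `i = i0 + 2 p + 1`, by `pair`, `top` (and `disj`)
every `q ∈ R` is in `V i` or in some `C l`, `i < l ≤ M`; and `V i ⊆ C i`. Every point of `V i` is a
boundary point of `R` (`Rings.ext`, since `V i ⊆ C i` and `R` is contained in the union of the `C l`,
`l ≥ i`). By `edge_bound` for the graph `inside R T` (plane on `R`), with
`e2 R (inside R T) = eR lev i` and the last conclusion of `growth_eq`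
(`eR lev i + 2 (6 i + 3) + 6 = 6 nR lev i`), the number of boundary points of `R` is at most
`6 i + 3 = #(V i)`. So (A): the boundary points of `R` are exactly the points of `V i`.
(B): every `q ∈ R`, `q ≠ v, v'`, satisfies `0 < cr v v' q`. For `q ∈ V i` this is the hypothesis. Let `m`
be the minimum of `cr v v'` on `R`, `m ≤ 0`. If `m < 0`, a point where it is attained is a boundary point
(the functional `g = (v'.2 - v.2, -(v'.1 - v.1))`, nonzero, has `lin g q = const - cr v v' q`), so by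
(A) in `V i`, but there `cr v v' ≥ 0`: contradiction. So `m = 0`, and any `q ∈ R` with
`cr v v' q = 0` is a boundary point, hence in `V i`, hence `v` or `v'`.
First: `T.Adj v v'`. Suppose not. Let `G` be the graph
`inside R T` with the additional edge `v v'`. It is plane on `R`: two edges of `T` are fine; the new
edge against an edge `c d` of `T` inside `R`, and against points of `R`: all points of `R` other than
`v, v'` are strictly to the left of the line `v v'`, so a point `x` of the segment `v v'` which is on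
the segment `c d` is an endpoint of `c d` (as `cr v v' x = 0`, a convex combination of nonnegative
numbers, so an endpoint with `cr = 0` or both), that is `x ∈ {c, d}` and this endpoint is `v` or
`v'` (if both `c, d` have `cr v v' = 0` then `{c, d} = {v, v'}`, but `v v'` is not an edge of `T`).
So by `edge_bound`: `e2 R G + 2 #{boundary points of R} + 6 ≤ 6 #R` with `e2 R G = eR lev i + 2`,
so `eR lev i + 2 + 2 (6 i + 3) + 6 ≤ 6 nR lev i`, contradicting the last conclusion of `growth_eq`.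
Second: the directed edge `(v', v)` has a face on its left (`face_exists`; the levels are positive),
with third vertex `c`, `cr v' v c > 0`, i.e. `cr v v' c < 0`, so by (B) `c ∉ R`, i.e. `lev c < i`, hence
`lev c + 1 = i`. The second conclusion of `ring_structure` gives `v' = succ v`.
-/

set_option autoImplicit false

namespace Pool.Agent.Helper70.MD

open Finset

open scoped Classical

/-- Points of a segment, in coordinates. -/
private theorem d2_seg {a b x : Pt} (h : x ∈ segment ℝ a b) :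
    ∃ t : ℝ, 0 ≤ t ∧ t ≤ 1 ∧ x.1 = a.1 + t * (b.1 - a.1) ∧ x.2 = a.2 + t * (b.2 - a.2) := by
  obtain ⟨s, t, hs, ht, hst, rfl⟩ := h
  refine ⟨t, ht, by linarith, ?_, ?_⟩
  · have hs' : s = 1 - t := by linarith
    simp only [Prod.fst_add, Prod.smul_fst, smul_eq_mul, hs']
    ring
  · have hs' : s = 1 - t := by linarith
    simp only [Prod.snd_add, Prod.smul_snd, smul_eq_mul, hs']
    ring

/-- `cr` on a segment. -/
private theorem d2_cr_seg {v v' a b x : Pt} {t : ℝ} (h1 : x.1 = a.1 + t * (b.1 - a.1))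
    (h2 : x.2 = a.2 + t * (b.2 - a.2)) :
    cr v v' x = (1 - t) * cr v v' a + t * cr v v' b := by
  unfold cr
  rw [h1, h2]
  ring

private theorem d2_cr_self1 (a b : Pt) : cr a b a = 0 := by
  unfold cr; ring

private theorem d2_cr_self2 (a b : Pt) : cr a b b = 0 := by
  unfold cr; ring

/-- The graph inside `R` is plane on `R`. -/
private theorem d2_inside {S R : Finset Pt} {T : SimpleGraph Pt} (hT : PlaneOn S T) (hR : R ⊆ S) :
    PlaneOn R (inside R T) where
  mem a b h := h.2.1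
  empty a b h p hp := hT.empty a b h.1 p (hR hp)
  disj a b c d h1 h2 hne x hx1 hx2 := hT.disj a b c d h1.1 h2.1 hne x hx1 hx2

/-- The graph with an additional edge. -/
private def addEdge (G : SimpleGraph Pt) (v v' : Pt) (hv : v ≠ v') : SimpleGraph Pt where
  Adj a b := G.Adj a b ∨ (a = v ∧ b = v') ∨ (a = v' ∧ b = v)
  symm := ⟨by
    rintro a b (h | ⟨h1, h2⟩ | ⟨h1, h2⟩)
    · exact Or.inl h.symm
    · exact Or.inr (Or.inr ⟨h2, h1⟩)
    · exact Or.inr (Or.inl ⟨h2, h1⟩)⟩
  loopless := ⟨by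
    rintro a (h | ⟨h1, h2⟩ | ⟨h1, h2⟩)
    · exact h.ne rfl
    · exact hv (h1.symm.trans h2)
    · exact hv (h2.symm.trans h1)⟩

/-- The disjointness of the new edge and an old one. -/
private theorem d2_disj {R : Finset Pt} {T : SimpleGraph Pt} {v v' : Pt}
    (hB : ∀ q ∈ R, q ≠ v → q ≠ v' → 0 < cr v v' q) (hn : ¬ T.Adj v v') {c d x : Pt}
    (hcd : (inside R T).Adj c d) (hx1 : x ∈ segment ℝ v v') (hx2 : x ∈ segment ℝ c d) :
    (x = v ∨ x = v') ∧ (x = c ∨ x = d) := by
  obtain ⟨s, hs0, hs1, e1, e2⟩ := d2_seg hx1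
  have hx0 : cr v v' x = 0 := by
    rw [d2_cr_seg e1 e2, d2_cr_self1, d2_cr_self2]
    ring
  obtain ⟨t, ht0, ht1, f1, f2⟩ := d2_seg hx2
  have hx3 := d2_cr_seg (v := v) (v' := v') f1 f2
  rw [hx0] at hx3
  have hnn : ∀ q ∈ R, 0 ≤ cr v v' q := by
    intro q hq
    by_cases h1 : q = v
    · rw [h1, d2_cr_self1]
    by_cases h2 : q = v'
    · rw [h2, d2_cr_self2]
    exact (hB q hq h1 h2).le
  have hc := hnn c hcd.2.1
  have hd := hnn d hcd.2.2
  have hz : ∀ q ∈ R, cr v v' q = 0 → q = v ∨ q = v' := by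
    intro q hq h0
    by_contra hcon
    push Not at hcon
    have := hB q hq hcon.1 hcon.2
    linarith
  rcases hc.lt_or_eq with hc' | hc'
  · -- `t = 1`
    have h1 : 0 ≤ (1 - t) * cr v v' c := mul_nonneg (by linarith) hc
    have h2 : 0 ≤ t * cr v v' d := mul_nonneg ht0 hd
    have h3 : (1 - t) * cr v v' c = 0 := by linarith
    have h4 : 1 - t = 0 := (mul_eq_zero.mp h3).resolve_right hc'.ne'
    have ht : t = 1 := by linarith
    have hxd : x = d := by
      subst ht
      exact Prod.ext (by linarith) (by linarith)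
    have hdz : cr v v' d = 0 := by rw [← hxd]; exact hx0
    refine ⟨?_, Or.inr hxd⟩
    rw [hxd]
    exact hz d hcd.2.2 hdz
  · rcases hd.lt_or_eq with hd' | hd'
    · have h1 : 0 ≤ (1 - t) * cr v v' c := mul_nonneg (by linarith) hc
      have h2 : 0 ≤ t * cr v v' d := mul_nonneg ht0 hd
      have h3 : t * cr v v' d = 0 := by linarith
      have h4 : t = 0 := (mul_eq_zero.mp h3).resolve_right hd'.ne'
      have hxc : x = c := by
        subst h4
        exact Prod.ext (by linarith) (by linarith)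
      refine ⟨?_, Or.inl hxc⟩
      rw [hxc]
      exact hz c hcd.2.1 hc'.symm
    · exfalso
      rcases hz c hcd.2.1 hc'.symm with h1 | h1
      · rcases hz d hcd.2.2 hd'.symm with h2 | h2
        · exact hcd.1.ne (h1.trans h2.symm)
        · exact hn (by rw [← h1, ← h2]; exact hcd.1)
      · rcases hz d hcd.2.2 hd'.symm with h2 | h2
        · exact hn (by rw [← h1, ← h2]; exact hcd.1.symm)
        · exact hcd.1.ne (h1.trans h2.symm)

/-- The graph with the additional edge is plane. -/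
private theorem d2_add {S R : Finset Pt} {T : SimpleGraph Pt} (hT : PlaneOn S T) (hR : R ⊆ S)
    {v v' : Pt} (hvR : v ∈ R) (hvR' : v' ∈ R) (hv : v ≠ v')
    (hB : ∀ q ∈ R, q ≠ v → q ≠ v' → 0 < cr v v' q) (hn : ¬ T.Adj v v') :
    PlaneOn R (addEdge (inside R T) v v' hv) := by
  have hin := d2_inside hT hR
  have hempty : ∀ p ∈ R, p ∉ openSegment ℝ v v' := by
    intro p hp hpo
    obtain ⟨t, ht0, ht1, f1, f2⟩ := d2_seg (openSegment_subset_segment ℝ v v' hpo)
    have h0 : cr v v' p = 0 := by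
      rw [d2_cr_seg f1 f2, d2_cr_self1, d2_cr_self2]
      ring
    by_cases h1 : p = v
    · rw [h1] at hpo
      exact hv (left_mem_openSegment_iff.mp hpo)
    by_cases h2 : p = v'
    · rw [h2] at hpo
      exact hv (right_mem_openSegment_iff.mp hpo)
    have := hB p hp h1 h2
    linarith
  constructor
  · rintro a b (h | ⟨rfl, rfl⟩ | ⟨rfl, rfl⟩)
    · exact h.2.1
    · exact hvR
    · exact hvR'
  · rintro a b (h | ⟨rfl, rfl⟩ | ⟨rfl, rfl⟩) p hp
    · exact hin.empty a b h p hp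
    · exact hempty p hp
    · rw [openSegment_symm]
      exact hempty p hp
  · rintro a b c d (h1 | ⟨rfl, rfl⟩ | ⟨rfl, rfl⟩) (h2 | ⟨rfl, rfl⟩ | ⟨rfl, rfl⟩) hne x hx1 hx2
    · exact hin.disj a b c d h1 h2 hne x hx1 hx2
    · exact (d2_disj hB hn h1 hx2 hx1).symm
    · rw [segment_symm] at hx2
      have := d2_disj hB hn h1 hx2 hx1
      exact ⟨this.2, this.1.symm⟩
    · exact d2_disj hB hn h2 hx1 hx2
    · exact absurd rfl hne
    · exact absurd Sym2.eq_swap hne
    · rw [segment_symm] at hx1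
      have := d2_disj hB hn h2 hx1 hx2
      exact ⟨this.1.symm, this.2⟩
    · exact absurd Sym2.eq_swap hne
    · exact absurd rfl hne

/-- The number of directed edges of the graph with the additional edge. -/
private theorem d2_e2 {R : Finset Pt} {G : SimpleGraph Pt} {v v' : Pt} (hv : v ≠ v')
    (hvR : v ∈ R) (hvR' : v' ∈ R) (hn : ¬ G.Adj v v') :
    e2 R G + 2 ≤ e2 R (addEdge G v v' hv) := by
  unfold e2
  have h1 : ({x ∈ R ×ˢ R | G.Adj x.1 x.2} : Finset (Pt × Pt)) ∪ {(v, v'), (v', v)} ⊆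
      ({x ∈ R ×ˢ R | (addEdge G v v' hv).Adj x.1 x.2} : Finset (Pt × Pt)) := by
    intro x hx
    rw [mem_union, mem_filter, mem_insert, mem_singleton] at hx
    rw [mem_filter, mem_product]
    rcases hx with ⟨h1, h2⟩ | rfl | rfl
    · exact ⟨mem_product.mp h1, Or.inl h2⟩
    · exact ⟨⟨hvR, hvR'⟩, Or.inr (Or.inl ⟨rfl, rfl⟩)⟩
    · exact ⟨⟨hvR', hvR⟩, Or.inr (Or.inr ⟨rfl, rfl⟩)⟩
  have h2 := card_le_card h1
  rw [card_union_of_disjoint, card_pair] at h2
  · exact h2
  · intro h
    exact hv (Prod.ext_iff.mp h).1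
  · rw [disjoint_left]
    intro x hx hx'
    rw [mem_filter] at hx
    rw [mem_insert, mem_singleton] at hx'
    rcases hx' with rfl | rfl
    · exact hn hx.2
    · exact hn hx.2.symm

/-- The hull part. -/
private theorem d2_hull {S : Finset Pt} {i0 P : ℕ} {C : ℕ → Finset Pt} {a b c : Pt}
    (hR : Rings S i0 P C a b c) {T : SimpleGraph Pt} (hT : IsTri S T)
    {D : Disc {p // p ∈ S}} {lev : {p // p ∈ S} → ℕ} {V : ℕ → Finset Pt}
    (hadj : ∀ x y, D.adj x y ↔ T.Adj x.1 y.1)
    (hface : ∀ x y z, D.face x y z ↔ Face S T x.1 y.1 z.1)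
    (hl : D.Lev lev) (hdeg : ∀ v, D.deg v ≤ 6) (htop : ∀ v, lev v ≤ i0 + 2 * P)
    (hV : ∀ i, ∀ p : {p // p ∈ S}, p.1 ∈ V i ↔ lev p = i)
    (hVS : ∀ i, V i ⊆ S)
    (hn : ∀ i ≤ i0 + 2 * P, Disc.nv lev i = 6 * i + 3)
    (hcard : ∀ i ≤ i0 + 2 * P, #(V i) = 6 * i + 3)
    (hlow : ∀ i < i0, V i = C i)
    (hVtop : V (i0 + 2 * P) = C (i0 + 2 * P))
    (hodd : ∀ p < P, V (i0 + 2 * p + 1) ⊆ C (i0 + 2 * p + 1))
    (hpair : ∀ p < P, V (i0 + 2 * p) ∪ V (i0 + 2 * p + 1) = C (i0 + 2 * p) ∪ C (i0 + 2 * p + 1))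
    {i : ℕ} {v v' : {p // p ∈ S}}
    (hi : i = i0 + 2 * P ∨ ∃ p < P, i = i0 + 2 * p + 1) (hv : lev v = i) (hv' : lev v' = i)
    (hne : v.1 ≠ v'.1) (hpos : ∀ q ∈ V i, q ≠ v.1 → q ≠ v'.1 → 0 < cr v.1 v'.1 q) :
    ∃ c, D.face v' v c ∧ lev c + 1 = i := by
  have hi1 : 1 ≤ i := by
    rcases hi with rfl | ⟨p, hp, rfl⟩
    · have := hR.i0_pos; omega
    · omega
  have hiM : i ≤ i0 + 2 * P := by
    rcases hi with rfl | ⟨p, hp, rfl⟩
    · exact le_refl _
    · omega
  have hM : 1 ≤ i0 + 2 * P := le_trans hi1 hiM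
  -- the set `R`
  obtain ⟨R, hRdef⟩ : ∃ R : Finset Pt,
      R = ({x : {p // p ∈ S} | i ≤ lev x} : Finset {p // p ∈ S}).map
        (Function.Embedding.subtype _) := ⟨_, rfl⟩
  have hmemR : ∀ x : {p // p ∈ S}, x.1 ∈ R ↔ i ≤ lev x := by
    intro x
    rw [hRdef, mem_map]
    constructor
    · rintro ⟨y, hy, hyx⟩
      have : y = x := Subtype.ext hyx
      rw [← this]
      simpa using hy
    · intro h
      exact ⟨x, by simpa using h, rfl⟩
  have hRS : R ⊆ S := by
    intro x hx
    rw [hRdef, mem_map] at hx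
    obtain ⟨y, -, rfl⟩ := hx
    exact y.2
  have hRcard : #R = Disc.nR lev i := by
    rw [hRdef, card_map]
    rfl
  -- `R` is in the union of the late rings
  have hVC : V i ⊆ C i := by
    rcases hi with rfl | ⟨p, hp, rfl⟩
    · rw [hVtop]
    · exact hodd p hp
  have hRC : ∀ q ∈ R, ∃ l, i ≤ l ∧ l ≤ i0 + 2 * P ∧ q ∈ C l := by
    intro q hq
    have hqS := hRS hq
    have hql : i ≤ lev ⟨q, hqS⟩ := (hmemR ⟨q, hqS⟩).mp hq
    obtain ⟨l, hl1, hl2⟩ := (hR.mem q).mp hqS
    rcases le_or_gt i l with h | h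
    · exact ⟨l, h, hl1, hl2⟩
    -- `l < i`: `q` is in `C l`, find its level
    exfalso
    have hkey : ∃ m, m < i ∧ q ∈ V m := by
      rcases lt_or_ge l i0 with h0 | h0
      · exact ⟨l, h, by rw [hlow l h0]; exact hl2⟩
      · -- `l = i0 + 2 p` or `i0 + 2 p + 1`
        obtain ⟨p, hp⟩ : ∃ p, l = i0 + 2 * p ∨ l = i0 + 2 * p + 1 :=
          ⟨(l - i0) / 2, by omega⟩
        have hpP : p < P := by
          rcases hp with hp | hp <;> omega
        have hmem : q ∈ C (i0 + 2 * p) ∪ C (i0 + 2 * p + 1) := by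
          rw [mem_union]
          rcases hp with hp | hp
          · left; rw [← hp]; exact hl2
          · right; rw [← hp]; exact hl2
        rw [← hpair p hpP, mem_union] at hmem
        by_cases hlast : i = i0 + 2 * p + 1
        · -- then `l = i0 + 2 p`
          have hle : l = i0 + 2 * p := by
            rcases hp with hp | hp <;> omega
          rcases hmem with h1 | h1
          · exact ⟨_, by omega, h1⟩
          · exfalso
            have h2 := hodd p hpP h1
            have h3 := hR.disj l (i0 + 2 * p + 1) q hl1 (by omega) hl2 h2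
            omega
        · have hlt : i0 + 2 * p + 1 < i := by
            rcases hi with hi | ⟨p', hp', hi⟩
            · rcases hp with hp | hp <;> omega
            · rcases hp with hp | hp <;> omega
          rcases hmem with h1 | h1
          · exact ⟨_, by omega, h1⟩
          · exact ⟨_, hlt, h1⟩
    obtain ⟨m, hm1, hm2⟩ := hkey
    have := (hV m ⟨q, hqS⟩).mp hm2
    omega
  -- the points of `V i` are boundary points
  have hbd : ∀ q ∈ V i, q ∈ R ∧ BdryPt R q := by
    intro q hq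
    have hqS := hVS i hq
    have hqR : q ∈ R := (hmemR ⟨q, hqS⟩).mpr (by rw [(hV i ⟨q, hqS⟩).mp hq])
    refine ⟨hqR, ?_⟩
    obtain ⟨g, hg, hgq⟩ := hR.ext i q hi1 hiM (hVC hq)
    refine ⟨g, hg, fun x hx => ?_⟩
    by_cases hxq : x = q
    · rw [hxq]
    obtain ⟨l, h1, h2, h3⟩ := hRC x hx
    exact (hgq l x h1 h2 h3 hxq).le
  -- the number of edges
  have he2 : e2 R (inside R T) = D.eR lev i := by
    unfold e2 Disc.eR
    refine (card_bij (fun (x : {p // p ∈ S} × {p // p ∈ S}) _ => (x.1.1, x.2.1)) ?_ ?_ ?_).symm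
    · intro x hx
      rw [mem_filter] at hx
      rw [mem_filter, mem_product]
      have h1 := (hmemR x.1).mpr hx.2.2.1
      have h2 := (hmemR x.2).mpr hx.2.2.2
      exact ⟨⟨h1, h2⟩, (hadj _ _).mp hx.2.1, h1, h2⟩
    · intro x _ y _ hxy
      rw [Prod.ext_iff] at hxy
      exact Prod.ext (Subtype.ext hxy.1) (Subtype.ext hxy.2)
    · intro y hy
      rw [mem_filter] at hy
      refine ⟨(⟨y.1, hRS hy.2.2.1⟩, ⟨y.2, hRS hy.2.2.2⟩), ?_, rfl⟩
      rw [mem_filter]
      exact ⟨mem_univ _, (hadj _ _).mpr hy.2.1, (hmemR _).mp hy.2.2.1, (hmemR _).mp hy.2.2.2⟩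
  have hgr := (D.growth_eq hl hdeg hM hn htop).2.2.2.2.2.2 i hi1 hiM
  have hR2 : 2 ≤ #R := by
    have h1 : #(V i) ≤ #R := card_le_card fun q hq => (hbd q hq).1
    have h2 := hcard i hiM
    omega
  have hbound := (d2_inside hT.1 hRS).edge_bound hR2
  rw [he2, hRcard] at hbound
  have hVsub : V i ⊆ {p ∈ R | BdryPt R p} := fun q hq =>
    mem_filter.mpr ⟨(hbd q hq).1, (hbd q hq).2⟩
  have hA : V i = {p ∈ R | BdryPt R p} := by
    refine eq_of_subset_of_card_le hVsub ?_
    rw [hcard i hiM]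
    omega
  -- (B)
  have hvV : v.1 ∈ V i := (hV i v).mpr hv
  have hvV' : v'.1 ∈ V i := (hV i v').mpr hv'
  have hvR : v.1 ∈ R := (hbd _ hvV).1
  have hvR' : v'.1 ∈ R := (hbd _ hvV').1
  have hVnn : ∀ q ∈ V i, 0 ≤ cr v.1 v'.1 q := by
    intro q hq
    by_cases h1 : q = v.1
    · rw [h1, d2_cr_self1]
    by_cases h2 : q = v'.1
    · rw [h2, d2_cr_self2]
    exact (hpos q hq h1 h2).le
  have hmin : ∀ q ∈ R, (∀ x ∈ R, cr v.1 v'.1 q ≤ cr v.1 v'.1 x) → q ∈ V i := by
    intro q hq hqm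
    rw [hA, mem_filter]
    refine ⟨hq, (v'.1.2 - v.1.2, -(v'.1.1 - v.1.1)), ?_, ?_⟩
    · intro h0
      have h1 := (Prod.ext_iff.mp h0).1
      have h2 := (Prod.ext_iff.mp h0).2
      simp only [Prod.fst_zero, Prod.snd_zero] at h1 h2
      exact hne (Prod.ext (by linarith) (by linarith))
    · intro x hx
      have h1 := hqm x hx
      unfold cr at h1
      simp only [lin]
      linarith
  have hBnn : ∀ q ∈ R, 0 ≤ cr v.1 v'.1 q := by
    obtain ⟨m, hm, hmm⟩ := exists_min_image R (fun q => cr v.1 v'.1 q) ⟨_, hvR⟩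
    have h1 := hVnn m (hmin m hm hmm)
    intro q hq
    exact le_trans h1 (hmm q hq)
  have hB : ∀ q ∈ R, q ≠ v.1 → q ≠ v'.1 → 0 < cr v.1 v'.1 q := by
    intro q hq h1 h2
    rcases (hBnn q hq).lt_or_eq with h | h
    · exact h
    · exfalso
      have hqV : q ∈ V i := hmin q hq (fun x hx => by rw [← h]; exact hBnn x hx)
      have := hpos q hqV h1 h2
      linarith
  -- adjacency
  have hTadj : T.Adj v.1 v'.1 := by
    by_contra hnadj
    have hplane := d2_add hT.1 hRS hvR hvR' hne hB hnadj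
    have h1 := hplane.edge_bound hR2
    have h2 := d2_e2 (G := inside R T) hne hvR hvR' (fun h => hnadj h.1)
    rw [he2] at h2
    rw [hRcard, ← hA, hcard i hiM] at h1
    omega
  -- the face
  obtain ⟨w, hw⟩ := D.exists_face hl ((hadj v' v).mpr hTadj.symm) (Or.inl (by omega))
  refine ⟨w, hw, ?_⟩
  have hfw := (hface _ _ _).mp hw
  have hneg : cr v.1 v'.1 w.1 < 0 := by
    have h1 := hfw.pos
    have h2 : cr v'.1 v.1 w.1 = - cr v.1 v'.1 w.1 := by unfold cr; ring
    linarith
  have hwR : w.1 ∉ R := fun h => by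
    have := hBnn w.1 h
    linarith
  rw [hmemR] at hwR
  have hstep := hl.step w v (by rw [hadj]; exact hfw.vw.symm)
  omega

theorem Rings.facts {S : Finset Pt} {i0 P : ℕ} {C : ℕ → Finset Pt} {a b c : Pt}
    (hR : Rings S i0 P C a b c) {T : SimpleGraph Pt} (hT : IsTri S T) (hd : MaxDegLE T 6) :
    ∃ (V : ℕ → Finset Pt) (succ apex : Pt → Pt), TriFacts i0 P C V succ apex := by
  obtain ⟨D, lev, V, hadj, hface, hl, hdeg, htop, hV, hVS, hn, hcard, hlow, hVtop, heven, hodd,
    hpair⟩ := hR.levels hT hd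
  have hM : 1 ≤ i0 + 2 * P := by
    have := hR.i0_pos
    omega
  obtain ⟨succ, apex, h1, h2, h3, h4, h5⟩ := D.ring_structure hl hdeg hM hn htop
  refine ⟨V, fun p => if h : p ∈ S then (succ ⟨p, h⟩).1 else p,
    fun p => if h : p ∈ S then (apex ⟨p, h⟩).1 else p, ?_⟩
  have hlift : ∀ {i : ℕ} {p : Pt}, p ∈ V i → ∃ x : {p // p ∈ S}, x.1 = p ∧ lev x = i := by
    intro i p hp
    exact ⟨⟨p, hVS i hp⟩, rfl, (hV i ⟨p, hVS i hp⟩).mp hp⟩
  have hs : ∀ x : {p // p ∈ S},
      (fun p => if h : p ∈ S then (succ ⟨p, h⟩).1 else p : Pt → Pt) x.1 = (succ x).1 := by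
    intro x
    simp only [dif_pos x.2]
  have ha : ∀ x : {p // p ∈ S},
      (fun p => if h : p ∈ S then (apex ⟨p, h⟩).1 else p : Pt → Pt) x.1 = (apex x).1 := by
    intro x
    simp only [dif_pos x.2]
  generalize (fun p => if h : p ∈ S then (succ ⟨p, h⟩).1 else p : Pt → Pt) = sc at hs ⊢
  generalize (fun p => if h : p ∈ S then (apex ⟨p, h⟩).1 else p : Pt → Pt) = ap at ha ⊢
  constructor
  · exact hlow
  · exact hVtop
  · exact heven
  · exact hodd
  · exact hpair
  · intro i j p _ _ hi hj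
    obtain ⟨x, rfl, hx⟩ := hlift hi
    rw [← hx]
    exact (hV j x).mp hj
  · exact hcard
  · intro i v hi1 hi2 hv
    obtain ⟨x, rfl, hx⟩ := hlift hv
    rw [hs, hV, (h1 x (by omega)).1, hx]
  · intro i v hi hv
    obtain ⟨x, rfl, hx⟩ := hlift hv
    rw [ha, hV]
    have := (h1 x (by omega)).2.1
    omega
  · intro i v hi1 hi2 hv
    obtain ⟨x, rfl, hx⟩ := hlift hv
    rw [hs, ha]
    exact ((hface _ _ _).mp (h1 x (by omega)).2.2).pos
  · intro i v hi1 hi2 hv
    obtain ⟨x, rfl, hx⟩ := hlift hv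
    rw [hs, ha, ha, hs]
    rcases h4 x (by omega) with h | ⟨h, h'⟩
    · left
      rw [h]
    · right
      exact ⟨by rw [h], ((hface _ _ _).mp h').pos⟩
  · intro i x hi1 hi2 hx
    obtain ⟨x, rfl, hx⟩ := hlift hx
    obtain ⟨w, hw1, hw2⟩ := h5 x (by omega) (by omega)
    refine ⟨w.1, ?_, ?_⟩
    · rw [hV]
      omega
    · rw [ha, hw2]
  · intro i v v' hi hv hv' hne hpos
    obtain ⟨x, rfl, hx⟩ := hlift hv
    obtain ⟨x', rfl, hx'⟩ := hlift hv'
    obtain ⟨w, hw1, hw2⟩ := d2_hull hR hT hadj hface hl hdeg htop hV hVS hn hcard hlow hVtop hodd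
      hpair hi hx hx' hne hpos
    have hi1 : 1 ≤ i := by omega
    have h6 := (h2 x x' w (by omega) (by omega) (by omega) hw1).1
    rw [hs, h6]

end Pool.Agent.Helper70.MD
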