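import Pool.Agent.Helper70.MD.Defs

/-!
Rings of a point set, and the structure forced on triangulations of degree at most 6.
-/

set_option autoImplicit false

namespace Pool.Agent.Helper70.MD

open Finset

open scoped Classical

/-- The point set `S` is the union of the rings `C 0`, ..., `C (i0 + 2 P)`; each point of a ring is
strictly extreme among the points of this and all later rings; the rings before `i0` and the last
one have the normal sizes, the others have the normal sizes in pairs. -/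
structure Rings (S : Finset Pt) (i0 P : ℕ) (C : ℕ → Finset Pt) (a b c : Pt) : Prop where
  i0_pos : 1 ≤ i0
  mem : ∀ p, p ∈ S ↔ ∃ i, i ≤ i0 + 2 * P ∧ p ∈ C i
  disj : ∀ i j p, i ≤ i0 + 2 * P → j ≤ i0 + 2 * P → p ∈ C i → p ∈ C j → i = j
  zero : C 0 = {a, b, c}
  pos : 0 < cr a b c
  inner : ∀ i p, 1 ≤ i → i ≤ i0 + 2 * P → p ∈ C i → 0 < cr a b p ∧ 0 < cr b c p ∧ 0 < cr c a p
  ext : ∀ i p, 1 ≤ i → i ≤ i0 + 2 * P → p ∈ C i → ∃ g : Pt, g ≠ 0 ∧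
    ∀ l q, i ≤ l → l ≤ i0 + 2 * P → q ∈ C l → q ≠ p → lin g q < lin g p
  card_low : ∀ i, 1 ≤ i → i < i0 → #(C i) = 6 * i + 3
  card_pair : ∀ p < P, #(C (i0 + 2 * p)) + #(C (i0 + 2 * p + 1)) =
    (6 * (i0 + 2 * p) + 3) + (6 * (i0 + 2 * p + 1) + 3)
  card_top : #(C (i0 + 2 * P)) = 6 * (i0 + 2 * P) + 3

/-- The structure of a triangulation with degrees at most 6: level sets `V i`, successor on the
rings, outer apex of the ring edge from `v` to `succ v`. -/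
structure TriFacts (i0 P : ℕ) (C V : ℕ → Finset Pt) (succ apex : Pt → Pt) : Prop where
  low : ∀ i < i0, V i = C i
  top : V (i0 + 2 * P) = C (i0 + 2 * P)
  even_sub : ∀ p < P, C (i0 + 2 * p) ⊆ V (i0 + 2 * p)
  odd_sub : ∀ p < P, V (i0 + 2 * p + 1) ⊆ C (i0 + 2 * p + 1)
  pair : ∀ p < P, V (i0 + 2 * p) ∪ V (i0 + 2 * p + 1) = C (i0 + 2 * p) ∪ C (i0 + 2 * p + 1)
  disj : ∀ i j p, i ≤ i0 + 2 * P → j ≤ i0 + 2 * P → p ∈ V i → p ∈ V j → i = j
  card : ∀ i ≤ i0 + 2 * P, #(V i) = 6 * i + 3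
  succ_mem : ∀ i v, 1 ≤ i → i ≤ i0 + 2 * P → v ∈ V i → succ v ∈ V i
  apex_mem : ∀ i v, i + 1 ≤ i0 + 2 * P → v ∈ V (i + 1) → apex v ∈ V i
  tri : ∀ i v, 1 ≤ i → i ≤ i0 + 2 * P → v ∈ V i → 0 < cr (succ v) v (apex v)
  walk : ∀ i v, 2 ≤ i → i ≤ i0 + 2 * P → v ∈ V i → apex (succ v) = apex v ∨
    (apex (succ v) = succ (apex v) ∧ 0 < cr (apex v) (apex (succ v)) (succ v))
  onto : ∀ i x, 1 ≤ i → i < i0 + 2 * P → x ∈ V i → ∃ w ∈ V (i + 1), apex w = x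
  hull : ∀ i v v', (i = i0 + 2 * P ∨ ∃ p < P, i = i0 + 2 * p + 1) → v ∈ V i → v' ∈ V i → v ≠ v' →
    (∀ q ∈ V i, q ≠ v → q ≠ v' → 0 < cr v v' q) → succ v = v'

end Pool.Agent.Helper70.MD
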