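import Mathlib

/-!
Minimum-maximum degree triangulations of planar point sets: basic definitions.
-/

set_option autoImplicit false

namespace Pool.Agent.Helper70.MD

open Finset

open scoped Classical

/-- The plane. -/
abbrev Pt : Type := ℝ × ℝ

/-- Orientation determinant: positive iff `c` lies strictly to the left of the line `a → b`. -/
def cr (a b c : Pt) : ℝ := (b.1 - a.1) * (c.2 - a.2) - (b.2 - a.2) * (c.1 - a.1)

/-- The linear functional with coefficients `g`. -/
def lin (g p : Pt) : ℝ := g.1 * p.1 + g.2 * p.2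

/-- `T` is a plane straight-line graph with vertex set `S`: every edge has both endpoints in `S`,
no edge contains a point of `S` in its relative interior, and two different edges meet at most
in a common endpoint. -/
structure PlaneOn (S : Finset Pt) (T : SimpleGraph Pt) : Prop where
  mem : ∀ a b, T.Adj a b → a ∈ S
  empty : ∀ a b, T.Adj a b → ∀ p ∈ S, p ∉ openSegment ℝ a b
  disj : ∀ a b c d, T.Adj a b → T.Adj c d → s(a, b) ≠ s(c, d) →
    ∀ x, x ∈ segment ℝ a b → x ∈ segment ℝ c d → (x = a ∨ x = b) ∧ (x = c ∨ x = d)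

/-- `T` is a triangulation of `S`: a maximal plane straight-line graph with vertex set `S`. -/
def IsTri (S : Finset Pt) (T : SimpleGraph Pt) : Prop :=
  PlaneOn S T ∧ ∀ T' : SimpleGraph Pt, PlaneOn S T' → T ≤ T' → T' = T

/-- All vertex degrees are at most `k`. -/
def MaxDegLE (T : SimpleGraph Pt) (k : ℕ) : Prop := ∀ v, (T.neighborSet v).ncard ≤ k

/-- `p` lies in the closed triangle `a b c` (given in counterclockwise order). -/
def InTri (a b c p : Pt) : Prop := 0 ≤ cr a b p ∧ 0 ≤ cr b c p ∧ 0 ≤ cr c a p

/-- `u v w` (in counterclockwise order) is a triangular face of the graph `T` on `S`. -/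
structure Face (S : Finset Pt) (T : SimpleGraph Pt) (u v w : Pt) : Prop where
  uv : T.Adj u v
  vw : T.Adj v w
  wu : T.Adj w u
  pos : 0 < cr u v w
  empty : ∀ p ∈ S, InTri u v w p → p = u ∨ p = v ∨ p = w

/-- Number of directed edges of `T` with both endpoints in `R`. -/
noncomputable def e2 (R : Finset Pt) (T : SimpleGraph Pt) : ℕ :=
  #{x ∈ R ×ˢ R | T.Adj x.1 x.2}

/-- Number of directed edges of `T` which have a face on their left. -/
noncomputable def d3 (S : Finset Pt) (T : SimpleGraph Pt) : ℕ :=
  #{x ∈ S ×ˢ S | ∃ w, Face S T x.1 x.2 w}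

/-- `p` is a strictly extreme point of `R`. -/
def StrictExt (R : Finset Pt) (p : Pt) : Prop := ∃ g : Pt, ∀ q ∈ R, q ≠ p → lin g q < lin g p

/-- `p` is a boundary point of `R`. -/
def BdryPt (R : Finset Pt) (p : Pt) : Prop := ∃ g : Pt, g ≠ 0 ∧ ∀ q ∈ R, lin g q ≤ lin g p

/-- The part of the graph `T` inside `R`. -/
def inside (R : Finset Pt) (T : SimpleGraph Pt) : SimpleGraph Pt where
  Adj a b := T.Adj a b ∧ a ∈ R ∧ b ∈ R
  symm := ⟨fun _ _ h => ⟨h.1.symm, h.2.2, h.2.1⟩⟩
  loopless := ⟨fun _ h => h.1.ne rfl⟩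

/-! ### The decision problem -/

/-- Instances: a list of points with rational coordinates and the degree bound. -/
structure Inst where
  pts : List (ℚ × ℚ)
  k : ℕ

/-- The point set of an instance. -/
noncomputable def Inst.set (I : Inst) : Finset Pt :=
  (I.pts.map (fun q => ((q.1 : ℝ), (q.2 : ℝ)))).toFinset

/-- The instances with answer yes. -/
def Inst.Yes (I : Inst) : Prop := ∃ T : SimpleGraph Pt, IsTri I.set T ∧ MaxDegLE T I.k

end Pool.Agent.Helper70.MD
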