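import Pool.Agent.Helper70.MD.FDefs

/-!
MD-E1: formulas and bounds.

`cr_par`: both sides are polynomials (`push_cast; ring`). `ori_scale`: `ring`. `Lam_even`, `Lam_odd`:
unfold `Lam`, `lam` (`min (i0 + d) i0 = i0`, `i0 + d - i0 = d`). `Lam_mono`: `Lam` is strictly
increasing: for `i < i0` the difference is `4 Xm^2 > 0` (plus nothing), for `i ≥ i0` it is
`nu^2 * 864` or `nu^2 * 346`. `K_le`: `K i ≤ 6 M` for `i ≤ M`; `K_md_le`: `K i + md i ≤ 6 i + 2` for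
`i ≥ 1` (for `i ≥ i0`, `d = i - i0`: `2 i0 + (5 d + 1) / 2 + Xr + 6 ≤ 6 (i0 + d) + 2` since
`Xr + 6 = i0 - 2`). The bounds for the clusters: `k < K i ≤ 6 M`, `i + k ≤ 7 M ≤ 10 (M+1)`,
`nu = 100 (M+1)`; `t < Rn i ≤ 6 M + 2`, `i + t ≤ 7 M + 1`. `CE_bounds`, `CO_bounds`: immediate from
the definitions and `|shift| ≤ 6`.
-/

set_option autoImplicit false

namespace Pool.Agent.Helper70.MD

open Finset

open scoped Classical

namespace Tab

variable {τ : Tab}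

theorem cr_par (x1 l1 x2 l2 x3 l3 : ℤ) :
    cr (par x1 l1) (par x2 l2) (par x3 l3) = ((ori x1 l1 x2 l2 x3 l3 : ℤ) : ℝ) := by
  simp only [cr, par, ori]
  push_cast
  ring

theorem ori_scale (n c x1 l1 x2 l2 x3 l3 : ℤ) :
    ori (n * x1) (c + n ^ 2 * l1) (n * x2) (c + n ^ 2 * l2) (n * x3) (c + n ^ 2 * l3) =
      n ^ 3 * ori x1 l1 x2 l2 x3 l3 := by
  simp only [ori]
  ring

theorem par_inj {X L X' L' : ℤ} (h : par X L = par X' L') : X = X' ∧ L = L' := by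
  simp only [par, Prod.mk.injEq] at h
  obtain ⟨h1, h2⟩ := h
  have h3 : X = X' := by exact_mod_cast h1
  refine ⟨h3, ?_⟩
  rw [h3] at h2
  have h4 : (L : ℝ) = L' := by linarith
  exact_mod_cast h4

theorem nu_pos : 100 ≤ τ.nu := by
  simp only [nu]
  have : (0 : ℤ) ≤ τ.M := Int.natCast_nonneg _
  linarith

theorem Xm_pos : 0 < τ.Xm := by
  simp only [Xm, Rc]
  have h1 := nu_pos (τ := τ)
  have h2 : (0 : ℤ) ≤ τ.Xr := Int.natCast_nonneg _
  have h3 : 0 < 24 * (τ.Xr : ℤ) + 108 + 108 := by linarith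
  exact mul_pos (by linarith) h3

private theorem e1_lam_even (p : ℕ) : lam (2 * p) = 1210 * p := by
  simp only [lam]
  rw [Nat.mul_div_cancel_left p (by norm_num), Nat.mul_mod_right]
  simp

private theorem e1_lam_odd (p : ℕ) : lam (2 * p + 1) = 1210 * p + 864 := by
  simp only [lam]
  have h1 : (2 * p + 1) / 2 = p := by omega
  have h2 : (2 * p + 1) % 2 = 1 := by omega
  rw [h1, h2]
  simp

private theorem e1_lam_zero : lam 0 = 0 := by
  simp [lam]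

private theorem e1_Lam_high (d : ℕ) :
    τ.Lam (τ.i0 + d) = 4 * τ.Xm ^ 2 * (τ.i0 : ℕ) + τ.nu ^ 2 * lam d := by
  simp only [Lam]
  rw [Nat.min_eq_right (by omega), Nat.add_sub_cancel_left]

private theorem e1_Lam_low' {i : ℕ} (h : i ≤ τ.i0) :
    τ.Lam i = 4 * τ.Xm ^ 2 * (i : ℕ) := by
  simp only [Lam]
  rw [Nat.min_eq_left h, Nat.sub_eq_zero_of_le h, e1_lam_zero, mul_zero, add_zero]

theorem Lam_even (p : ℕ) :
    τ.Lam (τ.i0 + 2 * p) = τ.Lam τ.i0 + τ.nu ^ 2 * (1210 * p) := by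
  rw [e1_Lam_high, e1_Lam_low' le_rfl, e1_lam_even]

theorem Lam_odd (p : ℕ) :
    τ.Lam (τ.i0 + 2 * p + 1) = τ.Lam τ.i0 + τ.nu ^ 2 * (1210 * p + 864) := by
  rw [add_assoc, e1_Lam_high, e1_Lam_low' le_rfl, e1_lam_odd]

theorem Lam_low {i : ℕ} (h : i < τ.i0) : τ.Lam (i + 1) = τ.Lam i + 4 * τ.Xm ^ 2 := by
  rw [e1_Lam_low' (Nat.succ_le_of_lt h), e1_Lam_low' h.le]
  push_cast
  ring

theorem Lam_strictMono {i j : ℕ} (h : i < j) : τ.Lam i < τ.Lam j := by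
  have hmono : StrictMono τ.Lam := by
    apply strictMono_nat_of_lt_succ
    intro n
    have hX := Xm_pos (τ := τ)
    have hn := nu_pos (τ := τ)
    have hn2 : 0 < τ.nu ^ 2 := by positivity
    rcases Nat.lt_or_ge n τ.i0 with h1 | h1
    · rw [Lam_low h1]
      have : 0 < τ.Xm ^ 2 := by positivity
      linarith
    · obtain ⟨d, rfl⟩ := Nat.exists_eq_add_of_le h1
      rw [add_assoc, e1_Lam_high, e1_Lam_high]
      have h2 : lam d < lam (d + 1) := by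
        rcases Nat.even_or_odd' d with ⟨p, hp | hp⟩
        · rw [hp, e1_lam_odd, e1_lam_even]
          linarith
        · rw [hp, e1_lam_odd, show 2 * p + 1 + 1 = 2 * (p + 1) by ring, e1_lam_even]
          push_cast
          linarith
      have h3 := mul_lt_mul_of_pos_left h2 hn2
      linarith
  exact hmono h

theorem Lam_nonneg (i : ℕ) : 0 ≤ τ.Lam i := by
  simp only [Lam, lam]
  positivity

theorem K_le {i : ℕ} (h : i ≤ τ.M) : τ.K i ≤ 6 * τ.M := by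
  simp only [K]
  have hM : τ.M = τ.i0 + 2 * τ.P := rfl
  split_ifs with h1
  · omega
  · omega

private theorem e1_K_md (i : ℕ) : τ.K i + τ.md i ≤ 6 * i + 2 := by
  simp only [K, md]
  have hi0 : τ.i0 = τ.Xr + 8 := rfl
  split_ifs with h1 h2
  · omega
  · omega
  · omega

theorem K_md_le {i : ℕ} (h : 1 ≤ i) : τ.K i + τ.md i + τ.Rn i = 6 * i + 2 := by
  have h1 := e1_K_md (τ := τ) i
  simp only [Rn]
  omega

/-- Left cluster. -/
theorem left_bounds {i k : ℕ} (hi : i ≤ τ.M) (hk : k < τ.K i) :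
    -108 * τ.nu ≤ -108 * τ.nu + i + k ∧ 10 * ((-108 * τ.nu + i + k) + 108 * τ.nu) ≤ τ.nu := by
  have h1 := K_le hi
  have h2 : τ.nu = 100 * ((τ.M : ℤ) + 1) := rfl
  have h3 : (k : ℤ) ≤ 6 * τ.M := by exact_mod_cast (by omega : k ≤ 6 * τ.M)
  have h4 : (i : ℤ) ≤ τ.M := by exact_mod_cast hi
  have h5 : (0 : ℤ) ≤ k := Int.natCast_nonneg _
  have h6 : (0 : ℤ) ≤ i := Int.natCast_nonneg _
  constructor
  · linarith
  · linarith

/-- Right cluster. -/
theorem right_bounds {i t : ℕ} (h1 : 1 ≤ i) (hi : i ≤ τ.M) (ht : t < τ.Rn i) :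
    τ.Rc * τ.nu - i - t ≤ τ.Rc * τ.nu ∧ 10 * (τ.Rc * τ.nu - (τ.Rc * τ.nu - i - t)) ≤ τ.nu := by
  have h0 : τ.Rn i ≤ 6 * i + 2 := by
    simp only [Rn]
    omega
  have h2 : τ.nu = 100 * ((τ.M : ℤ) + 1) := rfl
  have h3 : (t : ℤ) ≤ 6 * τ.M + 1 := by exact_mod_cast (by omega : t ≤ 6 * τ.M + 1)
  have h4 : (i : ℤ) ≤ τ.M := by exact_mod_cast hi
  have h5 : (0 : ℤ) ≤ t := Int.natCast_nonneg _
  have h6 : (0 : ℤ) ≤ i := Int.natCast_nonneg _
  have h7 : (0 : ℤ) ≤ τ.M := Int.natCast_nonneg _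
  constructor
  · linarith
  · have e : 10 * (τ.Rc * τ.nu - (τ.Rc * τ.nu - i - t)) = 10 * ((i : ℤ) + t) := by ring
    rw [e, h2]
    linarith

theorem CE_bounds {p : ℕ} {x : ℤ} (h : x ∈ τ.CE p) : -90 ≤ x ∧ x ≤ 24 * τ.Xr + 90 := by
  have h0 : (0 : ℤ) ≤ τ.Xr := Int.natCast_nonneg _
  simp only [CE, mem_union, mem_insert, mem_singleton, mem_image, mem_filter, mem_range] at h
  rcases h with (h | h | h | h | h | h) | ⟨k, ⟨hk, _⟩, rfl⟩ | ⟨k, ⟨hk, _⟩, rfl⟩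
  · omega
  · omega
  · omega
  · omega
  · omega
  · omega
  · omega
  · omega

theorem CO_bounds (hg : τ.Good) {p : ℕ} {x : ℤ} (h : x ∈ τ.CO p) :
    -72 ≤ x ∧ x ≤ 24 * τ.Xr + 72 := by
  have h0 : (0 : ℤ) ≤ τ.Xr := Int.natCast_nonneg _
  simp only [CO, mem_union, mem_insert, mem_singleton, mem_image, mem_filter, mem_range] at h
  rcases h with (h | h | h | h) | ⟨k, ⟨hk, _⟩, rfl⟩ | ⟨k, ⟨hk, hk2⟩, rfl⟩
  · omega
  · omega
  · omega
  · omega
  · omega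
  · have h1 : -6 ≤ τ.shift p k ∧ τ.shift p k ≤ 6 := by
      obtain ⟨s, hs⟩ := Option.ne_none_iff_exists'.1 hk2
      have h2 := hg.bound p k s hs
      simp only [shift, hs, Option.getD_some]
      exact h2
    omega

/-- All abscissas of all rings. -/
theorem Xs_bounds (hg : τ.Good) {i : ℕ} (h1 : 1 ≤ i) (hi : i ≤ τ.M) {X : ℤ} (h : X ∈ τ.Xs i) :
    -108 * τ.nu ≤ X ∧ X ≤ τ.Rc * τ.nu := by
  have hn := nu_pos (τ := τ)
  have hX : (0 : ℤ) ≤ τ.Xr := Int.natCast_nonneg _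
  have hRc : τ.Rc = 24 * (τ.Xr : ℤ) + 108 := rfl
  have hRn : 0 ≤ τ.Rc * τ.nu := mul_nonneg (by rw [hRc]; linarith) (by linarith)
  have hmid : ∀ x : ℤ, -90 ≤ x → x ≤ 24 * τ.Xr + 90 →
      -108 * τ.nu ≤ τ.nu * x ∧ τ.nu * x ≤ τ.Rc * τ.nu := by
    intro x hx1 hx2
    constructor
    · have := mul_le_mul_of_nonneg_left (by linarith : (-108 : ℤ) ≤ x) (by linarith : 0 ≤ τ.nu)
      linarith
    · rw [mul_comm τ.Rc]
      exact mul_le_mul_of_nonneg_left (by rw [hRc]; linarith) (by linarith)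
  simp only [Xs, mem_union, mem_image, mem_range] at h
  rcases h with ⟨k, hk, rfl⟩ | ⟨x, hx, rfl⟩ | ⟨t, ht, rfl⟩
  · have h2 := left_bounds hi hk
    constructor
    · exact h2.1
    · linarith [h2.2]
  · simp only [Cm] at hx
    split_ifs at hx with h2 h3
    · simp at hx
    · have := CE_bounds hx
      exact hmid x this.1 this.2
    · have := CO_bounds hg hx
      exact hmid x (by linarith [this.1]) (by linarith [this.2])
  · have h2 := right_bounds h1 hi ht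
    constructor
    · linarith [h2.2]
    · exact h2.1

theorem H_big : 16 * τ.Xm * (τ.Lam τ.M + τ.Xm ^ 2) = τ.H ∧ (τ.M : ℤ) ≤ τ.Xm ∧ 1000 ≤ τ.Xm := by
  have hX : (0 : ℤ) ≤ τ.Xr := Int.natCast_nonneg _
  have hM : (0 : ℤ) ≤ τ.M := Int.natCast_nonneg _
  have h1 : τ.Xm = 100 * ((τ.M : ℤ) + 1) * (24 * (τ.Xr : ℤ) + 108 + 108) := rfl
  have h2 : 100 * ((τ.M : ℤ) + 1) * 216 ≤ τ.Xm := by
    rw [h1]
    exact mul_le_mul_of_nonneg_left (by linarith) (by linarith)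
  refine ⟨rfl, by linarith, by linarith⟩

end Tab

end Pool.Agent.Helper70.MD
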