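import Pool.Agent.Helper70.MD.E1

/-!
MD-E2: sizes of the rings.

`card_CE_CO`: `CE p` consists of the six margin positions, the `24 h + 12` for the columns `h < Xr`
not in a loop, the `24 k` for interior `k < Xr`; these are pairwise different (the residues modulo 24
are `12` and `0`; the margin positions are negative or `≥ 24 Xr + 18`, the others in
`[0, 24 Xr)`). `CO p` consists of the four margin positions, the `24 k` for non-interior `k ≤ Xr` and
the `24 h + 12 + shift` for the loop columns, pairwise different because `|shift| ≤ 6`. So the total is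
`6 + #{h < Xr, not in a loop} + #{k < Xr, interior} + 4 + #{k ≤ Xr, not interior} + #{h < Xr, in a loop}
= 10 + Xr + (Xr + 1)` (`Xr` is not interior by `none_right`). `card_CE_P`: row `P` has no loops.
`card_Xs`: the three parts are disjoint: the left cluster is `≤ -107 nu`, the middle part in
`[-90 nu, (24 Xr + 90) nu]`, the right cluster `≥ (24 Xr + 107) nu` (E1 bounds); each part is an
injective image. `card_C`: `top i` is not on the parabola (`H - i` is not `Lam i`: `H` is larger than
`Lam M + M`) and `par` is injective.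
The last three statements: `Cm i = ∅` for `i < i0`, so `#(C i) = 1 + K i + 0 + Rn i` with
`K i + md i + Rn i = 6 i + 2` (`K_md_le`), `md i = 0`; for the pair: `md` is `Xr + 6` and `Xr + 5`; and for
the last ring `#(CE P) = Xr + 6 = md M`.
-/

set_option autoImplicit false

namespace Pool.Agent.Helper70.MD

open Finset

open scoped Classical

namespace Tab

variable {τ : Tab}

theorem shift_bounds (hg : τ.Good) (p h : ℕ) : -6 ≤ τ.shift p h ∧ τ.shift p h ≤ 6 := by
  unfold shift
  rcases hs : τ.sh p h with _ | s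
  · simp
  · simpa using hg.bound p h s hs

theorem card_CE (hg : τ.Good) (p : ℕ) :
    #(τ.CE p) = 6 + (#({h ∈ range τ.Xr | ¬ τ.inL p h} : Finset ℕ) +
      #({k ∈ range τ.Xr | τ.intr p k} : Finset ℕ)) := by
  have hX := hg.Xr_ge
  unfold CE
  rw [card_union_of_disjoint, card_union_of_disjoint, card_image_of_injective,
    card_image_of_injective]
  · congr 1
    rw [card_insert_of_notMem, card_insert_of_notMem, card_insert_of_notMem,
      card_insert_of_notMem, card_insert_of_notMem, card_singleton]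
    all_goals
      simp only [mem_insert, mem_singleton, not_or]
      refine ?_
      omega
  · intro a b hab
    simp only at hab
    omega
  · intro a b hab
    simp only at hab
    omega
  · rw [disjoint_left]
    intro x hx hy
    rw [mem_image] at hx hy
    obtain ⟨a, ha, rfl⟩ := hx
    obtain ⟨b, hb, hab⟩ := hy
    omega
  · rw [disjoint_left]
    intro x hx hy
    simp only [mem_insert, mem_singleton] at hx
    simp only [mem_union, mem_image, mem_filter, mem_range] at hy
    rcases hy with ⟨a, ⟨ha, _⟩, rfl⟩ | ⟨a, ⟨ha, _⟩, rfl⟩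
    · omega
    · omega

theorem card_CO (hg : τ.Good) (p : ℕ) :
    #(τ.CO p) = 4 + (#({k ∈ range (τ.Xr + 1) | ¬ τ.intr p k} : Finset ℕ) +
      #({h ∈ range τ.Xr | τ.inL p h} : Finset ℕ)) := by
  have hX := hg.Xr_ge
  unfold CO
  rw [card_union_of_disjoint, card_union_of_disjoint, card_image_of_injective,
    card_image_of_injective]
  · congr 1
    rw [card_insert_of_notMem, card_insert_of_notMem, card_insert_of_notMem, card_singleton]
    all_goals
      simp only [mem_insert, mem_singleton, not_or]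
      refine ?_
      omega
  · intro a b hab
    have h1 := shift_bounds hg p a
    have h2 := shift_bounds hg p b
    simp only at hab
    omega
  · intro a b hab
    simp only at hab
    omega
  · rw [disjoint_left]
    intro x hx hy
    rw [mem_image] at hx hy
    obtain ⟨a, ha, rfl⟩ := hx
    obtain ⟨b, hb, hab⟩ := hy
    have h2 := shift_bounds hg p b
    omega
  · rw [disjoint_left]
    intro x hx hy
    simp only [mem_insert, mem_singleton] at hx
    simp only [mem_union, mem_image, mem_filter, mem_range] at hy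
    rcases hy with ⟨a, ⟨ha, _⟩, rfl⟩ | ⟨a, ⟨ha, _⟩, rfl⟩
    · omega
    · have h2 := shift_bounds hg p a
      omega

theorem card_CE_CO (hg : τ.Good) (p : ℕ) : #(τ.CE p) + #(τ.CO p) = 2 * τ.Xr + 11 := by
  rw [card_CE hg, card_CO hg]
  have h1 : #({h ∈ range τ.Xr | τ.inL p h} : Finset ℕ) +
      #({h ∈ range τ.Xr | ¬ τ.inL p h} : Finset ℕ) = τ.Xr := by
    rw [card_filter_add_card_filter_not, card_range]
  have h2 : #({k ∈ range (τ.Xr + 1) | τ.intr p k} : Finset ℕ) +
      #({k ∈ range (τ.Xr + 1) | ¬ τ.intr p k} : Finset ℕ) = τ.Xr + 1 := by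
    rw [card_filter_add_card_filter_not, card_range]
  have h3 : ({k ∈ range (τ.Xr + 1) | τ.intr p k} : Finset ℕ) =
      ({k ∈ range τ.Xr | τ.intr p k} : Finset ℕ) := by
    ext k
    simp only [mem_filter, mem_range]
    constructor
    · rintro ⟨hk, hi⟩
      refine ⟨?_, hi⟩
      by_contra hcon
      have hkX : k = τ.Xr := by omega
      rw [hkX] at hi
      exact hi.2 (hg.none_right p τ.Xr (by omega))
    · rintro ⟨hk, hi⟩
      exact ⟨by omega, hi⟩
  rw [h3] at h2
  omega

theorem card_CE_P (hg : τ.Good) : #(τ.CE τ.P) = τ.Xr + 6 := by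
  rw [card_CE hg]
  have h0 : ∀ h, ¬ τ.inL τ.P h := fun h hc => hc (hg.none_row τ.P h le_rfl)
  have h1 : ({h ∈ range τ.Xr | ¬ τ.inL τ.P h} : Finset ℕ) = range τ.Xr := by
    rw [filter_eq_self]
    intro h _
    exact h0 h
  have h2 : ({k ∈ range τ.Xr | τ.intr τ.P k} : Finset ℕ) = ∅ := by
    rw [filter_eq_empty_iff]
    intro k _ hk
    exact h0 k hk.2
  rw [h1, h2, card_range, card_empty]
  omega

theorem Cm_bounds (hg : τ.Good) {i : ℕ} {x : ℤ} (h : x ∈ τ.Cm i) :
    -90 ≤ x ∧ x ≤ 24 * τ.Xr + 90 := by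
  unfold Cm at h
  split_ifs at h with h1 h2
  · exact absurd h (notMem_empty x)
  · exact CE_bounds h
  · have := CO_bounds hg h
    omega

theorem card_Xs (hg : τ.Good) {i : ℕ} (h1 : 1 ≤ i) (hi : i ≤ τ.M) :
    #(τ.Xs i) = τ.K i + #(τ.Cm i) + τ.Rn i := by
  have hnu := τ.nu_pos
  have hX := hg.Xr_ge
  have hmid : ∀ x ∈ τ.Cm i, -90 * τ.nu ≤ τ.nu * x ∧ τ.nu * x ≤ 24 * (τ.Xr * τ.nu) + 90 * τ.nu := by
    intro x hx
    obtain ⟨h2, h3⟩ := Cm_bounds hg hx
    constructor
    · nlinarith
    · nlinarith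
  have hRc : τ.Rc * τ.nu = 24 * (τ.Xr * τ.nu) + 108 * τ.nu := by
    unfold Rc
    ring
  have hXn : 0 ≤ (τ.Xr : ℤ) * τ.nu := by positivity
  unfold Xs
  rw [card_union_of_disjoint, card_union_of_disjoint, card_image_of_injective,
    card_image_of_injective, card_image_of_injective, card_range, card_range]
  · ring
  · intro a b hab
    simp only at hab
    omega
  · intro a b hab
    simp only at hab
    exact mul_left_cancel₀ (by omega) hab
  · intro a b hab
    simp only at hab
    omega
  · rw [disjoint_left]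
    intro x hx hy
    rw [mem_image] at hx hy
    obtain ⟨a, ha, rfl⟩ := hx
    obtain ⟨t, ht, hab⟩ := hy
    have h2 := hmid a ha
    have h3 := right_bounds h1 hi (mem_range.mp ht)
    rw [hab, hRc] at h3
    omega
  · rw [disjoint_left]
    intro x hx hy
    rw [mem_image] at hx
    rw [mem_union, mem_image, mem_image] at hy
    obtain ⟨k, hk, rfl⟩ := hx
    have h2 := left_bounds hi (mem_range.mp hk)
    rcases hy with ⟨a, ha, hab⟩ | ⟨t, ht, hab⟩
    · have h3 := hmid a ha
      omega
    · have h3 := right_bounds h1 hi (mem_range.mp ht)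
      rw [hab, hRc] at h3
      omega

theorem card_C (hg : τ.Good) {i : ℕ} (h1 : 1 ≤ i) (hi : i ≤ τ.M) :
    #(τ.C i) = 1 + #(τ.Xs i) := by
  unfold C
  rw [if_neg (by omega), card_insert_of_notMem, card_image_of_injective, add_comm]
  · intro a b hab
    exact (par_inj hab).1
  · intro hmem
    rw [mem_image] at hmem
    obtain ⟨X, _, hX⟩ := hmem
    have e1 : (X : ℝ) = 0 := congrArg Prod.fst hX
    have e2 : (X : ℝ) ^ 2 + (τ.Lam i : ℝ) = (τ.H : ℝ) - (i : ℝ) := congrArg Prod.snd hX
    rw [e1] at e2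
    have e3 : τ.Lam i = τ.H - (i : ℤ) := by
      have : (τ.Lam i : ℝ) = ((τ.H - (i : ℤ) : ℤ) : ℝ) := by
        push_cast
        linarith
      exact_mod_cast this
    obtain ⟨k1, k2, k3⟩ := τ.H_big
    have k4 : τ.Lam i ≤ τ.Lam τ.M := by
      rcases Nat.lt_or_ge i τ.M with h | h
      · exact (Lam_strictMono h).le
      · rw [le_antisymm hi h]
    have k5 := τ.Lam_nonneg τ.M
    have k6 : (i : ℤ) ≤ τ.M := by exact_mod_cast hi
    rw [← k1] at e3
    generalize τ.Lam τ.M = A at *
    generalize τ.Lam i = B at *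
    generalize τ.Xm = Z at *
    have k7 : A ≤ Z * A := le_mul_of_one_le_left k5 (by omega)
    have k8 : Z ≤ Z * Z ^ 2 := by nlinarith [sq_nonneg (Z - 1)]
    have k9 : 16 * Z * (A + Z ^ 2) = 16 * (Z * A) + 16 * (Z * Z ^ 2) := by ring
    rw [k9] at e3
    generalize Z * A = C1 at *
    generalize Z * Z ^ 2 = C2 at *
    omega

theorem i0_le_M : τ.i0 ≤ τ.M := by
  unfold M
  omega

theorem card_low (hg : τ.Good) {i : ℕ} (h1 : 1 ≤ i) (hi : i < τ.i0) : #(τ.C i) = 6 * i + 3 := by
  have hM := τ.i0_le_M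
  rw [card_C hg h1 (by omega), card_Xs hg h1 (by omega)]
  have h2 := τ.K_md_le h1
  have h3 : τ.md i = 0 := by
    unfold md
    rw [if_pos hi]
  have h4 : τ.Cm i = ∅ := by
    unfold Cm
    rw [if_pos hi]
  rw [h4, card_empty]
  omega

theorem Cm_even (p : ℕ) : τ.Cm (τ.i0 + 2 * p) = τ.CE p := by
  unfold Cm
  rw [if_neg (by omega), if_pos (by omega)]
  congr 1
  omega

theorem Cm_odd (p : ℕ) : τ.Cm (τ.i0 + 2 * p + 1) = τ.CO p := by
  unfold Cm
  rw [if_neg (by omega), if_neg (by omega)]
  congr 1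
  omega

theorem md_even (p : ℕ) : τ.md (τ.i0 + 2 * p) = τ.Xr + 6 := by
  unfold md
  rw [if_neg (by omega), if_pos (by omega)]

theorem md_odd (p : ℕ) : τ.md (τ.i0 + 2 * p + 1) = τ.Xr + 5 := by
  unfold md
  rw [if_neg (by omega), if_neg (by omega)]

theorem card_pair (hg : τ.Good) {p : ℕ} (hp : p < τ.P) :
    #(τ.C (τ.i0 + 2 * p)) + #(τ.C (τ.i0 + 2 * p + 1)) =
      (6 * (τ.i0 + 2 * p) + 3) + (6 * (τ.i0 + 2 * p + 1) + 3) := by
  have hi0 : τ.i0 = τ.Xr + 8 := rfl
  have hM : τ.M = τ.i0 + 2 * τ.P := rfl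
  rw [card_C hg (by omega) (by omega), card_Xs hg (by omega) (by omega),
    card_C hg (by omega) (by omega), card_Xs hg (by omega) (by omega), Cm_even, Cm_odd]
  have h1 := τ.K_md_le (i := τ.i0 + 2 * p) (by omega)
  have h2 := τ.K_md_le (i := τ.i0 + 2 * p + 1) (by omega)
  rw [md_even] at h1
  rw [md_odd] at h2
  have h3 := card_CE_CO hg p
  omega

theorem card_top (hg : τ.Good) : #(τ.C (τ.i0 + 2 * τ.P)) = 6 * (τ.i0 + 2 * τ.P) + 3 := by
  have hi0 : τ.i0 = τ.Xr + 8 := rfl
  have hM : τ.M = τ.i0 + 2 * τ.P := rfl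
  rw [card_C hg (by omega) (by omega), card_Xs hg (by omega) (by omega), Cm_even]
  have h1 := τ.K_md_le (i := τ.i0 + 2 * τ.P) (by omega)
  rw [md_even] at h1
  have h3 := card_CE_P hg
  omega

end Tab

end Pool.Agent.Helper70.MD
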