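import Pool.Agent.Helper70.MD.E2

/-!
MD-E3: the explicit set consists of rings.

`i0_pos`: `i0 = Xr + 8`. `mem`: definition of `S` (`M = i0 + 2 P`). `zero`: definition.
`pos`: `cr ca cb cc = 6 H^2 > 0`.
`inner`: a point of ring `i ≥ 1` is `top i = (0, H - i)` or `(X, X^2 + L)` with `|X| ≤ Xm`
(`Xs_bounds`, `Xm = nu (Rc + 108)`), `0 ≤ X^2 + L ≤ Xm^2 + Lam M ≤ H / 16`. The three conditions are
(for a point `(x, y)`) `y > -3 x - H`, `y > 3 x - H`, `y < 2 H` up to positive factors: for example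
`cr ca cb (x,y) = H (y - 2H) + 3 H (x + H) = H (y + 3 x + H)`,
`cr cb cc (x,y) = H (y + H) - 3 H x = H (y + H - 3 x)`, `cr cc ca (x,y) = -2 H (y - 2 H)`; they
follow from `|x| ≤ Xm`, `16 Xm ≤ H`, `0 ≤ y`, and for `top i`: `0 < H - i < 2 H`.
`ext`: for `par X (Lam i)` take `g = (2 X, -1)`: `lin g (x, y) = 2 X x - y`; for `par X' (Lam l)`,
`l ≥ i`, the value is `X^2 - (X - X')^2 - Lam l`, which is smaller than `X^2 - Lam i` unless
`X' = X` and `l = i`; for `top l` the value is `-(H - l)`, smaller than `X^2 - Lam i` because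
`H - l > Lam M`. For `top i` take `g = (0, 1)`: the value `H - i` is larger than `H - l` (`l > i`)
and than the second coordinates `X'^2 + Lam l ≤ Xm^2 + Lam M`.
`disj`: for `i ≥ 1`, `j ≥ 1`: `par X (Lam i) = par X' (Lam j)` forces `Lam i = Lam j`, so `i = j`; tops are
different from each other and from the parabola points (second coordinates); the corners are
different from all of them (strict inequalities of `inner`, or second coordinates `2 H`, `-H`).
`card_*`: E2.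
-/

set_option autoImplicit false

namespace Pool.Agent.Helper70.MD

open Finset

open scoped Classical

namespace Tab

variable {τ : Tab}

/-- `H` is large. -/
private theorem e3_H : (0 : ℝ) ≤ (τ.Lam τ.M : ℝ) ∧ (0 : ℝ) ≤ (τ.M : ℝ) ∧ (1000 : ℝ) ≤ (τ.Xm : ℝ) ∧
    (τ.Lam τ.M : ℝ) + (τ.Xm : ℝ) ^ 2 + (τ.M : ℝ) + 3 * (τ.Xm : ℝ) < (τ.H : ℝ) := by
  obtain ⟨k1, k2, k3⟩ := τ.H_big
  have k5 := τ.Lam_nonneg τ.M
  have k6 : (0 : ℤ) ≤ τ.M := Int.natCast_nonneg _
  have key : τ.Lam τ.M + τ.Xm ^ 2 + (τ.M : ℤ) + 3 * τ.Xm < τ.H := by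
    rw [← k1]
    generalize τ.Lam τ.M = A at *
    generalize τ.Xm = Z at *
    generalize (τ.M : ℤ) = m at *
    have k7 : A ≤ Z * A := le_mul_of_one_le_left k5 (by omega)
    have k8 : Z ^ 2 ≤ Z * Z ^ 2 := le_mul_of_one_le_left (sq_nonneg Z) (by omega)
    have k9 : Z * 1000 ≤ Z ^ 2 := by nlinarith
    have k10 : 16 * Z * (A + Z ^ 2) = 16 * (Z * A) + 16 * (Z * Z ^ 2) := by ring
    rw [k10]
    generalize Z * A = C1 at *
    generalize Z * Z ^ 2 = C2 at *
    generalize Z ^ 2 = C3 at *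
    omega
  refine ⟨by exact_mod_cast k5, by exact_mod_cast k6, by exact_mod_cast k3, by exact_mod_cast key⟩

/-- Abscissas. -/
private theorem e3_X (hg : τ.Good) {i : ℕ} (h1 : 1 ≤ i) (hi : i ≤ τ.M) {X : ℤ} (h : X ∈ τ.Xs i) :
    -(τ.Xm : ℝ) ≤ (X : ℝ) ∧ (X : ℝ) ≤ (τ.Xm : ℝ) ∧ (X : ℝ) ^ 2 ≤ (τ.Xm : ℝ) ^ 2 := by
  have h2 := Xs_bounds hg h1 hi h
  have hn := τ.nu_pos
  have hX0 : (0 : ℤ) ≤ τ.Xr := Int.natCast_nonneg _
  have hRn : 0 ≤ τ.Rc * τ.nu := mul_nonneg (by unfold Rc; linarith) (by linarith)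
  have hZ : τ.Xm = τ.Rc * τ.nu + 108 * τ.nu := by unfold Xm; ring
  have ha : -τ.Xm ≤ X := by linarith [h2.1]
  have hb : X ≤ τ.Xm := by linarith [h2.2]
  have ha' : -(τ.Xm : ℝ) ≤ (X : ℝ) := by exact_mod_cast ha
  have hb' : (X : ℝ) ≤ (τ.Xm : ℝ) := by exact_mod_cast hb
  exact ⟨ha', hb', sq_le_sq' ha' hb'⟩

private theorem e3_Lam_le {i j : ℕ} (h : i ≤ j) : (τ.Lam i : ℝ) ≤ (τ.Lam j : ℝ) := by
  rcases h.lt_or_eq with h | h
  · exact_mod_cast (Lam_strictMono h).le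
  · rw [h]

private theorem e3_Lam_lt {i j : ℕ} (h : i < j) : (τ.Lam i : ℝ) < (τ.Lam j : ℝ) := by
  exact_mod_cast Lam_strictMono h

private theorem e3_Lam_nonneg (i : ℕ) : (0 : ℝ) ≤ (τ.Lam i : ℝ) := by
  exact_mod_cast τ.Lam_nonneg i

/-- Points of the rings. -/
private theorem e3_mem {i : ℕ} (h1 : 1 ≤ i) {p : Pt} (h : p ∈ τ.C i) :
    p = τ.top i ∨ ∃ X ∈ τ.Xs i, p = par X (τ.Lam i) := by
  unfold C at h
  rw [if_neg (by omega), mem_insert, mem_image] at h
  rcases h with h | ⟨X, hX, h⟩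
  · exact Or.inl h
  · exact Or.inr ⟨X, hX, h.symm⟩

private theorem e3_inner (hg : τ.Good) {i : ℕ} (h1 : 1 ≤ i) (hi : i ≤ τ.M) {p : Pt}
    (h : p ∈ τ.C i) : 0 < cr τ.ca τ.cb p ∧ 0 < cr τ.cb τ.cc p ∧ 0 < cr τ.cc τ.ca p := by
  obtain ⟨hL, hM, hZ, hH⟩ := e3_H (τ := τ)
  have hi' : (i : ℝ) ≤ (τ.M : ℝ) := by exact_mod_cast hi
  have hi0 : (0 : ℝ) ≤ (i : ℝ) := Nat.cast_nonneg i
  have hZ2 : 0 ≤ (τ.Xm : ℝ) ^ 2 := sq_nonneg _
  have hHpos : 0 < (τ.H : ℝ) := by linarith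
  have e1 : cr τ.ca τ.cb p = (τ.H : ℝ) * (p.2 + 3 * p.1 + (τ.H : ℝ)) := by
    simp only [cr, ca, cb]
    ring
  have e2 : cr τ.cb τ.cc p = (τ.H : ℝ) * (p.2 + (τ.H : ℝ) - 3 * p.1) := by
    simp only [cr, cb, cc]
    ring
  have e3 : cr τ.cc τ.ca p = (τ.H : ℝ) * (2 * (2 * (τ.H : ℝ) - p.2)) := by
    simp only [cr, cc, ca]
    ring
  rw [e1, e2, e3]
  rcases e3_mem h1 h with rfl | ⟨X, hX, rfl⟩
  · simp only [top]
    refine ⟨mul_pos hHpos ?_, mul_pos hHpos ?_, mul_pos hHpos ?_⟩ <;> linarith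
  · obtain ⟨b1, b2, b3⟩ := e3_X hg h1 hi hX
    have hLi := e3_Lam_le (τ := τ) hi
    have hLi0 := e3_Lam_nonneg (τ := τ) i
    have hX2 : 0 ≤ (X : ℝ) ^ 2 := sq_nonneg _
    simp only [par]
    refine ⟨mul_pos hHpos ?_, mul_pos hHpos ?_, mul_pos hHpos ?_⟩ <;> linarith

private theorem e3_ext (hg : τ.Good) {i : ℕ} (h1 : 1 ≤ i) (hi : i ≤ τ.M) {p : Pt}
    (h : p ∈ τ.C i) : ∃ g : Pt, g ≠ 0 ∧
      ∀ l q, i ≤ l → l ≤ τ.M → q ∈ τ.C l → q ≠ p → lin g q < lin g p := by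
  obtain ⟨hL, hM, hZ, hH⟩ := e3_H (τ := τ)
  have hi' : (i : ℝ) ≤ (τ.M : ℝ) := by exact_mod_cast hi
  rcases e3_mem h1 h with rfl | ⟨X, hX, rfl⟩
  · refine ⟨(0, 1), ?_, ?_⟩
    · intro h0
      have := congrArg Prod.snd h0
      simp at this
    · intro l q hl1 hl2 hq hne
      have hl' : (l : ℝ) ≤ (τ.M : ℝ) := by exact_mod_cast hl2
      rcases e3_mem (le_trans h1 hl1) hq with rfl | ⟨X', hX', rfl⟩
      · have hlt : i < l := by
          rcases hl1.lt_or_eq with h | h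
          · exact h
          · exact absurd (by rw [h]) hne
        have hlt' : (i : ℝ) < (l : ℝ) := by exact_mod_cast hlt
        simp only [lin, top]
        linarith
      · obtain ⟨b1, b2, b3⟩ := e3_X hg (le_trans h1 hl1) hl2 hX'
        have hLl := e3_Lam_le (τ := τ) hl2
        simp only [lin, top, par]
        linarith
  · refine ⟨(2 * (X : ℝ), -1), ?_, ?_⟩
    · intro h0
      have := congrArg Prod.snd h0
      simp at this
    · intro l q hl1 hl2 hq hne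
      have hl' : (l : ℝ) ≤ (τ.M : ℝ) := by exact_mod_cast hl2
      have hX2 : 0 ≤ (X : ℝ) ^ 2 := sq_nonneg _
      rcases e3_mem (le_trans h1 hl1) hq with rfl | ⟨X', hX', rfl⟩
      · have hLi := e3_Lam_le (τ := τ) hi
        simp only [lin, top, par]
        linarith [sq_nonneg (τ.Xm : ℝ)]
      · simp only [lin, par]
        rcases hl1.lt_or_eq with h | h
        · have h3 := e3_Lam_lt (τ := τ) h
          nlinarith [sq_nonneg ((X : ℝ) - X')]
        · subst h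
          have hXX : X' ≠ X := by
            intro hc
            exact hne (by rw [hc])
          have h4 : (X : ℝ) - X' ≠ 0 := by
            intro hc
            apply hXX
            have : (X' : ℝ) = X := by linarith
            exact_mod_cast this
          have h5 : 0 < ((X : ℝ) - X') ^ 2 := by positivity
          nlinarith

private theorem e3_disj (hg : τ.Good) {i j : ℕ} {p : Pt} (hi : i ≤ τ.M) (hj : j ≤ τ.M)
    (h : p ∈ τ.C i) (h' : p ∈ τ.C j) : i = j := by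
  obtain ⟨hL, hM, hZ, hH⟩ := e3_H (τ := τ)
  have hi' : (i : ℝ) ≤ (τ.M : ℝ) := by exact_mod_cast hi
  have hj' : (j : ℝ) ≤ (τ.M : ℝ) := by exact_mod_cast hj
  have hcorner : ∀ {k : ℕ}, 1 ≤ k → k ≤ τ.M → p ∈ τ.C k → p ∈ τ.C 0 → False := by
    intro k hk1 hk2 hk hk0
    obtain ⟨a1, a2, a3⟩ := e3_inner hg hk1 hk2 hk
    unfold C at hk0
    rw [if_pos rfl, mem_insert, mem_insert, mem_singleton] at hk0
    rcases hk0 with rfl | rfl | rfl
    · have : cr τ.ca τ.cb τ.ca = 0 := by unfold cr; ring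
      linarith
    · have : cr τ.ca τ.cb τ.cb = 0 := by unfold cr; ring
      linarith
    · have : cr τ.cb τ.cc τ.cc = 0 := by unfold cr; ring
      linarith
  rcases Nat.eq_zero_or_pos i with rfl | hi1
  · rcases Nat.eq_zero_or_pos j with rfl | hj1
    · rfl
    · exact (hcorner hj1 hj h' h).elim
  rcases Nat.eq_zero_or_pos j with rfl | hj1
  · exact (hcorner hi1 hi h h').elim
  rcases e3_mem hi1 h with rfl | ⟨X, hX, rfl⟩
  · rcases e3_mem hj1 h' with h2 | ⟨X', hX', h2⟩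
    · have h3 := congrArg Prod.snd h2
      simp only [top] at h3
      have h4 : (i : ℝ) = (j : ℝ) := by linarith
      exact_mod_cast h4
    · exfalso
      have h3 := congrArg Prod.snd h2
      simp only [top, par] at h3
      obtain ⟨b1, b2, b3⟩ := e3_X hg hj1 hj hX'
      have hLj := e3_Lam_le (τ := τ) hj
      linarith
  · rcases e3_mem hj1 h' with h2 | ⟨X', hX', h2⟩
    · exfalso
      have h3 := congrArg Prod.snd h2
      simp only [top, par] at h3
      obtain ⟨b1, b2, b3⟩ := e3_X hg hi1 hi hX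
      have hLi := e3_Lam_le (τ := τ) hi
      linarith
    · have h3 := (par_inj h2).2
      rcases lt_trichotomy i j with h4 | h4 | h4
      · have := Lam_strictMono (τ := τ) h4
        omega
      · exact h4
      · have := Lam_strictMono (τ := τ) h4
        omega

theorem rings (hg : τ.Good) : Rings τ.S τ.i0 τ.P τ.C τ.ca τ.cb τ.cc := by
  have hMdef : τ.i0 + 2 * τ.P = τ.M := rfl
  constructor
  · unfold i0
    omega
  · intro p
    rw [hMdef]
    unfold S
    rw [mem_biUnion]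
    constructor
    · rintro ⟨i, hi, hp⟩
      exact ⟨i, by rw [mem_range] at hi; omega, hp⟩
    · rintro ⟨i, hi, hp⟩
      exact ⟨i, by rw [mem_range]; omega, hp⟩
  · intro i j p hi hj h h'
    exact e3_disj hg hi hj h h'
  · unfold C
    rw [if_pos rfl]
  · obtain ⟨hL, hM, hZ, hH⟩ := e3_H (τ := τ)
    have hHpos : 0 < (τ.H : ℝ) := by linarith [sq_nonneg (τ.Xm : ℝ)]
    have e : cr τ.ca τ.cb τ.cc = 6 * (τ.H : ℝ) ^ 2 := by
      simp only [cr, ca, cb, cc]
      ring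
    rw [e]
    exact mul_pos (by norm_num) (pow_pos hHpos 2)
  · intro i p h1 hi h
    exact e3_inner hg h1 hi h
  · intro i p h1 hi h
    exact e3_ext hg h1 hi h
  · intro i h1 hi
    exact card_low hg h1 hi
  · intro p hp
    exact card_pair hg hp
  · exact card_top hg

end Tab

end Pool.Agent.Helper70.MD
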