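import Pool.Agent.Helper70.MD.DDefs

/-!
The explicit point sets.

Middle positions of the rings are integers in units of `1/24` of a column. Even rings have spacing
points between columns, odd rings on column boundaries; a loop changes some columns.
-/

set_option autoImplicit false

namespace Pool.Agent.Helper70.MD

open Finset

open scoped Classical

/-- A table of loops: `sh p h = some s` if column `h` of row `p` belongs to a loop, with shift `s`. -/
structure Tab where
  /-- number of columns -/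
  Xr : ℕ
  /-- number of rows -/
  P : ℕ
  /-- shifts of the loop columns -/
  sh : ℕ → ℕ → Option ℤ

/-- States of the columns. -/
inductive St
  | S
  | B
  | D
  | A
  deriving DecidableEq

/-- Allowed states of neighbouring columns. -/
def okPair : St → St → Prop
  | .S, .S => True
  | .S, .B => True
  | .S, .D => True
  | .B, .B => True
  | .B, .D => True
  | .D, .A => True
  | .D, .S => True
  | .A, .A => True
  | .A, .S => True
  | _, _ => False

/-- Orientation polynomial of three points `(x, x^2 + l)`. -/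
def ori (x1 l1 x2 l2 x3 l3 : ℤ) : ℤ :=
  (x2 - x1) * (x3 - x1) * (x3 - x2) + (x2 - x1) * (l3 - l1) - (x3 - x1) * (l2 - l1)

/-- Additional level of a deep point. -/
def St.dl : St → ℤ
  | .D => 864
  | _ => 0

namespace Tab

variable (τ : Tab)

/-- Column `h` of row `p` is in a loop. -/
def inL (p h : ℕ) : Prop := τ.sh p h ≠ none

/-- Position `k` of row `p` is interior to a loop. -/
def intr (p k : ℕ) : Prop := τ.inL p (k - 1) ∧ τ.inL p k

/-- The shift. -/
def shift (p h : ℕ) : ℤ := (τ.sh p h).getD 0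

/-- Conditions on tables. -/
structure Good : Prop where
  Xr_ge : 24 ≤ τ.Xr
  P_pos : 1 ≤ τ.P
  none_row : ∀ p h, τ.P ≤ p → τ.sh p h = none
  none_left : ∀ p h, h < 8 → τ.sh p h = none
  none_right : ∀ p h, τ.Xr ≤ h + 8 → τ.sh p h = none
  bound : ∀ p h s, τ.sh p h = some s → -6 ≤ s ∧ s ≤ 6
  start : ∀ p h s, τ.sh p (h + 1) = some s → τ.sh p h = none →
    -2 ≤ s ∧ s ≤ 2 ∧ τ.sh p (h + 2) ≠ none
  stop : ∀ p h s, τ.sh p h = some s → τ.sh p (h + 1) = none → -2 ≤ s ∧ s ≤ 2

/-- Even position of column `h`. -/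
def ev (st : ℕ → ℕ → St) (p h : ℕ) : ℤ :=
  match st p h with
  | .S => 24 * h + 12
  | .B => 24 * h + 24
  | .A => 24 * h
  | .D => 24 * h + 12 + τ.shift p h

/-- Odd position at the column boundary `k`. -/
noncomputable def od (st : ℕ → ℕ → St) (p k : ℕ) : ℤ :=
  if τ.intr p k then
    (if st p (k - 1) = .B then 24 * ((k : ℤ) - 1) + 12 + τ.shift p (k - 1)
     else 24 * k + 12 + τ.shift p k)
  else 24 * k

/-- First check between odd row `p` and even row `p + 1`. -/
def Chk1 (st : ℕ → ℕ → St) (p k : ℕ) : Prop :=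
  0 < ori (τ.ev st (p + 1) k) (346 + (st (p + 1) k).dl)
    (τ.ev st (p + 1) (k - 1)) (346 + (st (p + 1) (k - 1)).dl) (τ.od st p k) 0

/-- Second check. -/
def Chk2 (st : ℕ → ℕ → St) (p k : ℕ) : Prop :=
  0 < ori (τ.od st p k) 0 (τ.od st p (k + 1)) 0
    (τ.ev st (p + 1) k) (346 + (st (p + 1) k).dl)

/-- States which describe the loops of the table. -/
def OkSt (st : ℕ → ℕ → St) : Prop :=
  (∀ p h, st p h = .S ↔ ¬ τ.inL p h) ∧ ∀ p h, okPair (st p h) (st p (h + 1))

/-- The loop system is satisfiable. -/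
def LoopSat : Prop :=
  ∃ st : ℕ → ℕ → St, τ.OkSt st ∧ ∀ p < τ.P, ∀ k, 1 ≤ k → k < τ.Xr → τ.Chk1 st p k ∧ τ.Chk2 st p k

/-! ### The point set -/

/-- First ring with a middle part. -/
def i0 : ℕ := τ.Xr + 8

/-- Last ring. -/
def M : ℕ := τ.i0 + 2 * τ.P

/-- Scale. -/
def nu : ℤ := 100 * (τ.M + 1)

/-- Position of the right cluster. -/
def Rc : ℤ := 24 * τ.Xr + 108

/-- Bound for the horizontal extent. -/
def Xm : ℤ := τ.nu * (τ.Rc + 108)

/-- Levels of the double rows. -/
def lam (d : ℕ) : ℤ := 1210 * (d / 2 : ℕ) + 864 * (d % 2 : ℕ)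

/-- Height of the parabola of ring `i`. -/
def Lam (i : ℕ) : ℤ := 4 * τ.Xm ^ 2 * (min i τ.i0 : ℕ) + τ.nu ^ 2 * lam (i - τ.i0)

/-- Size of the outer triangle. -/
def H : ℤ := 16 * τ.Xm * (τ.Lam τ.M + τ.Xm ^ 2)

/-- Size of the left cluster. -/
def K (i : ℕ) : ℕ := if i < τ.i0 then 6 * i else 2 * τ.i0 + (5 * (i - τ.i0) + 1) / 2

/-- Size of the middle part of the layer `i`. -/
def md (i : ℕ) : ℕ := if i < τ.i0 then 0 else if (i - τ.i0) % 2 = 0 then τ.Xr + 6 else τ.Xr + 5

/-- Size of the right cluster. -/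
def Rn (i : ℕ) : ℕ := 6 * i + 2 - τ.K i - τ.md i

/-- Middle positions of the even ring of row `p`. -/
noncomputable def CE (p : ℕ) : Finset ℤ :=
  {-90, -54, -18, 24 * (τ.Xr : ℤ) + 18, 24 * (τ.Xr : ℤ) + 54, 24 * (τ.Xr : ℤ) + 90} ∪
    (({h ∈ range τ.Xr | ¬ τ.inL p h} : Finset ℕ).image (fun h : ℕ => 24 * (h : ℤ) + 12) ∪
     ({k ∈ range τ.Xr | τ.intr p k} : Finset ℕ).image (fun k : ℕ => 24 * (k : ℤ)))

/-- Middle positions of the odd ring of row `p`. -/
noncomputable def CO (p : ℕ) : Finset ℤ :=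
  {-72, -36, 24 * (τ.Xr : ℤ) + 36, 24 * (τ.Xr : ℤ) + 72} ∪
    (({k ∈ range (τ.Xr + 1) | ¬ τ.intr p k} : Finset ℕ).image (fun k : ℕ => 24 * (k : ℤ)) ∪
     ({h ∈ range τ.Xr | τ.inL p h} : Finset ℕ).image (fun h : ℕ => 24 * (h : ℤ) + 12 + τ.shift p h))

/-- Middle positions of ring `i`. -/
noncomputable def Cm (i : ℕ) : Finset ℤ :=
  if i < τ.i0 then ∅ else
    if (i - τ.i0) % 2 = 0 then τ.CE ((i - τ.i0) / 2) else τ.CO ((i - τ.i0) / 2)

/-- The point of the parabola of height `L` with abscissa `X`. -/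
noncomputable def par (X L : ℤ) : Pt := ((X : ℝ), (X : ℝ) ^ 2 + (L : ℝ))

/-- The top point of ring `i`. -/
noncomputable def top (i : ℕ) : Pt := (0, (τ.H : ℝ) - (i : ℝ))

/-- The corners. -/
noncomputable def ca : Pt := (-(τ.H : ℝ), 2 * (τ.H : ℝ))
/-- The corners. -/
noncomputable def cb : Pt := (0, -(τ.H : ℝ))
/-- The corners. -/
noncomputable def cc : Pt := ((τ.H : ℝ), 2 * (τ.H : ℝ))

/-- Abscissas of ring `i` (without the top point). -/
noncomputable def Xs (i : ℕ) : Finset ℤ :=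
  (range (τ.K i)).image (fun k : ℕ => -108 * τ.nu + i + k) ∪
    ((τ.Cm i).image (fun x => τ.nu * x) ∪
     (range (τ.Rn i)).image (fun t : ℕ => τ.Rc * τ.nu - i - t))

/-- Ring `i`. -/
noncomputable def C (i : ℕ) : Finset Pt :=
  if i = 0 then {τ.ca, τ.cb, τ.cc} else
    insert (τ.top i) ((τ.Xs i).image (fun X => par X (τ.Lam i)))

/-- The point set. -/
noncomputable def S : Finset Pt := (range (τ.M + 1)).biUnion τ.C

end Tab

end Pool.Agent.Helper70.MD
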