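import Pool.Agent.Helper70.MD.E3

/-!
MD-F1: the successor on the odd layers and on the last layer; apexes.

Notation: `i = i0 + 2 p + 1`; a point of `V i` is in `C i`, so it is `top i` or `par X (Lam i)` with
`X ∈ Xs i`, which is `nu x` with `x ∈ CO p`, or in the left cluster (`X ≤ -107 nu`) or in the right
cluster (`X ≥ (24 Xr + 107) nu`) by the bounds of E1.
`succ_odd`: apply `F.hull` to `po p v`, `po p v'`. For `q = par X (Lam i)` in `V i`, different from both,
`cr (po p v) (po p v') q = (nu v' - nu v) (X - nu v) (X - nu v')` (`cr_par`) is positive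
because `X` is not in `[nu v, nu v']` (for `X = nu x`, `x ∈ CO p`, by the hypothesis; for the clusters by
the bounds). For `q = top i` it is positive because `H` is large: with `a = nu v`, `b = nu v'`, `a < b`,
`cr = (b - a) (H - i - a^2 - Lam i) - (b^2 - a^2) (0 - a) = (b - a) (H - i - Lam i + a b)` and
`|a b| ≤ Xm^2`.
`succ_top`: the same for the ring `M = i0 + 2 P` with `V M = C M` and consecutive positions of
`CE P`.
`vis_odd`: let `q = apex (po p v)`, `q ∈ V (i0 + 2 p)`, which is contained in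
`C (i0 + 2p) ∪ C (i0 + 2p+1)` (`F.pair`); `F.tri` gives `0 < cr (po p v') (po p v) q` (using the
hypothesis on `succ`). `q` is not `top`: by the formula above `cr (po p v) (po p v') (top j) > 0` for
`j ∈ {i0 + 2 p, i0 + 2 p + 1}`. If `q = par Y (Lam (i0 + 2 p))` then `cr_par` and `Lam_odd`,
`Lam_even` give `(nu v - nu v') ((Y - nu v') (Y - nu v) - 864 nu^2) > 0`, i.e.
`(Y - nu v) (Y - nu v') < 864 nu^2`. If `q = par Y (Lam (i0 + 2p+1))` then
`(nu v - nu v') (Y - nu v') (Y - nu v) > 0`, so `nu v < Y < nu v'`; by the bounds `Y` is then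
`nu y` with `y ∈ CO p` (clusters are outside `[nu v, nu v']` because `v, v' ∈ CO p` are in
`[-72, 24 Xr + 72]`). In the first case, if `Y` is in the left cluster, `Y ≤ -107 nu`, then (as
`v ≥ -72`, `v' > v`) `(Y - nu v)(Y - nu v') ≥ (35 nu) * (nu (v' + 107))` and this is `≥ 864 nu^2` if
`v' ≥ -36`, which holds because `v < v'` are both in `CO p` and the smallest element of `CO p` is
`-72`, the second smallest is `-36`; symmetric for the right cluster. So `Y = nu y` with
`y ∈ CE p`.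
`vis_even`: the same for an edge `(u, u')` of the even ring `p + 1` which is not deep, i.e.
`u, u' ∈ CE (p+1)`, with the apex in `V (i0 + 2p+1) ⊆ C (i0 + 2p+1)`: it is not `top`, and
`Lam (i0 + 2 (p+1)) - Lam (i0 + 2p+1) = 346 nu^2`; for `X` in the left cluster, `X ≤ -107 nu`,
`u ≥ -90`, `u' ≥ -54` (assumption `-54 ≤ u` makes it simpler): `(X - nu u)(X - nu u') ≥ 53 * 53 nu^2`.
-/

set_option autoImplicit false

namespace Pool.Agent.Helper70.MD

open Finset

open scoped Classical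

namespace Tab

variable {τ : Tab} {V : ℕ → Finset Pt} {succ apex : Pt → Pt}

private theorem f1_Xs_cases {i : ℕ} (h1 : 1 ≤ i) (hi : i ≤ τ.M) {X : ℤ} (h : X ∈ τ.Xs i) :
    X ≤ -107 * τ.nu ∨ (24 * (τ.Xr : ℤ) + 107) * τ.nu ≤ X ∨ ∃ x ∈ τ.Cm i, X = τ.nu * x := by
  have hn := nu_pos (τ := τ)
  have hRc : τ.Rc * τ.nu = (24 * (τ.Xr : ℤ) + 107) * τ.nu + τ.nu := by
    unfold Rc
    ring
  simp only [Xs, mem_union, mem_image, mem_range] at h
  rcases h with ⟨k, hk, rfl⟩ | ⟨x, hx, rfl⟩ | ⟨t, ht, rfl⟩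
  · left
    have h2 := left_bounds hi hk
    omega
  · right
    right
    exact ⟨x, hx, rfl⟩
  · right
    left
    have h2 := right_bounds h1 hi ht
    omega

private theorem f1_cases {i : ℕ} (h1 : 1 ≤ i) (hi : i ≤ τ.M) {q : Pt} (hq : q ∈ τ.C i) :
    q = τ.top i ∨ ∃ X : ℤ, q = par X (τ.Lam i) ∧
      (X ≤ -107 * τ.nu ∨ (24 * (τ.Xr : ℤ) + 107) * τ.nu ≤ X ∨ ∃ x ∈ τ.Cm i, X = τ.nu * x) := by
  unfold C at hq
  rw [if_neg (by omega), mem_insert, mem_image] at hq
  rcases hq with h | ⟨X, hX, h⟩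
  · exact Or.inl h
  · exact Or.inr ⟨X, h.symm, f1_Xs_cases h1 hi hX⟩

private theorem f1_mid {x : ℤ} (h1 : -90 ≤ x) (h2 : x ≤ 24 * τ.Xr + 90) :
    -τ.Xm ≤ τ.nu * x ∧ τ.nu * x ≤ τ.Xm := by
  have hn := nu_pos (τ := τ)
  have hXr : (0 : ℤ) ≤ τ.Xr := Int.natCast_nonneg _
  have hXm : τ.Xm = τ.nu * (24 * (τ.Xr : ℤ) + 216) := by
    unfold Xm Rc
    ring
  rw [hXm]
  constructor
  · have := mul_le_mul_of_nonneg_left (by linarith : -(24 * (τ.Xr : ℤ) + 216) ≤ x)
      (by linarith : 0 ≤ τ.nu)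
    linarith
  · exact mul_le_mul_of_nonneg_left (by linarith) (by linarith)

private theorem f1_arith {Z A Hh a b L j m : ℤ} (k1 : 16 * Z * (A + Z ^ 2) = Hh) (k2 : m ≤ Z)
    (k3 : 1000 ≤ Z) (k5 : 0 ≤ A) (hL : L ≤ A) (hj : j ≤ m) (ha1 : -Z ≤ a) (ha2 : a ≤ Z)
    (hb1 : -Z ≤ b) (hb2 : b ≤ Z) : 0 < Hh - j - L + a * b := by
  have hZ2 : Z ≤ Z ^ 2 := by nlinarith
  have hab2 : -Z ^ 2 ≤ a * b := by
    have h1 := mul_nonneg (by linarith : 0 ≤ Z + a) (by linarith : 0 ≤ Z + b)
    have h2 := mul_nonneg (by linarith : 0 ≤ Z - a) (by linarith : 0 ≤ Z - b)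
    have e1 : (Z + a) * (Z + b) = Z ^ 2 + Z * b + a * Z + a * b := by ring
    have e2 : (Z - a) * (Z - b) = Z ^ 2 - Z * b - a * Z + a * b := by ring
    rw [e1] at h1
    rw [e2] at h2
    linarith
  have hsum : 0 ≤ A + Z ^ 2 := by
    have := sq_nonneg Z
    linarith
  have hH : 16 * (A + Z ^ 2) ≤ Hh := by
    rw [← k1]
    exact mul_le_mul_of_nonneg_right (by linarith : (16 : ℤ) ≤ 16 * Z) hsum
  linarith

private theorem f1_top {a b L : ℤ} {j : ℕ} (hL : L ≤ τ.Lam τ.M) (hj : j ≤ τ.M)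
    (ha1 : -τ.Xm ≤ a) (ha2 : a ≤ τ.Xm) (hb1 : -τ.Xm ≤ b) (hb2 : b ≤ τ.Xm) (hab : a < b) :
    0 < cr (par a L) (par b L) (τ.top j) := by
  obtain ⟨k1, k2, k3⟩ := τ.H_big
  have k5 := τ.Lam_nonneg τ.M
  have hj' : (j : ℤ) ≤ τ.M := by exact_mod_cast hj
  have e : cr (par a L) (par b L) (τ.top j) =
      (((b - a) * (τ.H - (j : ℤ) - L + a * b) : ℤ) : ℝ) := by
    simp only [cr, par, top]
    push_cast
    ring
  rw [e]
  have h3 : 0 < τ.H - (j : ℤ) - L + a * b :=
    f1_arith k1 k2 k3 k5 hL hj' ha1 ha2 hb1 hb2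
  exact_mod_cast mul_pos (sub_pos.2 hab) h3

private theorem f1_Lam_le {i : ℕ} (hi : i ≤ τ.M) : τ.Lam i ≤ τ.Lam τ.M := by
  rcases Nat.lt_or_ge i τ.M with h | h
  · exact (Lam_strictMono h).le
  · rw [le_antisymm hi h]

/-- common part of `succ_odd` and `succ_top` -/
private theorem f1_succ {i : ℕ} (h1 : 1 ≤ i) (hi : i ≤ τ.M) {v v' : ℤ}
    (hv1 : -90 ≤ v) (hv2 : v ≤ 24 * τ.Xr + 90) (hv1' : -90 ≤ v') (hv2' : v' ≤ 24 * τ.Xr + 90)
    (hlt : v < v') {q : Pt} (hq : q ∈ τ.C i) (hqv : q ≠ par (τ.nu * v) (τ.Lam i))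
    (hqv' : q ≠ par (τ.nu * v') (τ.Lam i))
    (hno : ∀ x ∈ τ.Cm i, v < x → x < v' → q ≠ par (τ.nu * x) (τ.Lam i)) :
    0 < cr (par (τ.nu * v) (τ.Lam i)) (par (τ.nu * v') (τ.Lam i)) q := by
  have hn := nu_pos (τ := τ)
  have hn0 : 0 < τ.nu := by linarith
  have hlt' : τ.nu * v < τ.nu * v' := mul_lt_mul_of_pos_left hlt hn0
  rcases f1_cases h1 hi hq with h | ⟨X, hX, h⟩
  · rw [h]
    have m1 := f1_mid hv1 hv2
    have m2 := f1_mid hv1' hv2'
    exact f1_top (f1_Lam_le hi) hi m1.1 m1.2 m2.1 m2.2 hlt'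
  · rw [hX, cr_par]
    have e : ori (τ.nu * v) (τ.Lam i) (τ.nu * v') (τ.Lam i) X (τ.Lam i) =
        (τ.nu * v' - τ.nu * v) * ((X - τ.nu * v) * (X - τ.nu * v')) := by
      simp only [ori]
      ring
    rw [e]
    have h5 : X < τ.nu * v ∨ τ.nu * v' < X := by
      rcases h with h | h | ⟨x, hx, h⟩
      · left
        have := mul_le_mul_of_nonneg_left hv1 hn0.le
        linarith
      · right
        have := mul_le_mul_of_nonneg_left hv2' hn0.le
        linarith
      · rcases lt_trichotomy x v with h6 | h6 | h6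
        · left
          rw [h]
          exact mul_lt_mul_of_pos_left h6 hn0
        · exfalso
          apply hqv
          rw [hX, h, h6]
        · rcases lt_trichotomy x v' with h7 | h7 | h7
          · exfalso
            apply hno x hx h6 h7
            rw [hX, h]
          · exfalso
            apply hqv'
            rw [hX, h, h7]
          · right
            rw [h]
            exact mul_lt_mul_of_pos_left h7 hn0
    have h6 : 0 < (X - τ.nu * v) * (X - τ.nu * v') := by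
      rcases h5 with h5 | h5
      · exact mul_pos_of_neg_of_neg (by linarith) (by linarith)
      · exact mul_pos (by linarith) (by linarith)
    exact_mod_cast mul_pos (sub_pos.2 hlt') h6

private theorem f1_par_ne {v v' L : ℤ} (h : v < v') :
    (par (τ.nu * v) L : Pt) ≠ par (τ.nu * v') L := by
  intro hcon
  have hn := nu_pos (τ := τ)
  have h1 := (par_inj hcon).1
  have := mul_left_cancel₀ (by linarith : τ.nu ≠ 0) h1
  linarith

theorem succ_odd (hg : τ.Good) (F : TriFacts τ.i0 τ.P τ.C V succ apex) {p : ℕ} (hp : p < τ.P)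
    {v v' : ℤ} (hv : v ∈ τ.CO p) (hv' : v' ∈ τ.CO p) (hvV : τ.po p v ∈ V (τ.i0 + 2 * p + 1))
    (hvV' : τ.po p v' ∈ V (τ.i0 + 2 * p + 1)) (hlt : v < v')
    (hno : ∀ x ∈ τ.CO p, v < x → x < v' → τ.po p x ∉ V (τ.i0 + 2 * p + 1)) :
    succ (τ.po p v) = τ.po p v' := by
  have hM : τ.M = τ.i0 + 2 * τ.P := rfl
  have b1 := CO_bounds hg hv
  have b2 := CO_bounds hg hv'
  refine F.hull (τ.i0 + 2 * p + 1) (τ.po p v) (τ.po p v') (Or.inr ⟨p, hp, rfl⟩) hvV hvV'
    (f1_par_ne hlt) ?_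
  intro q hq hqv hqv'
  refine f1_succ (by omega) (by omega) (by linarith) (by linarith) (by linarith) (by linarith) hlt
    (F.odd_sub p hp hq) hqv hqv' ?_
  intro x hx h1 h2 h3
  rw [Cm_odd] at hx
  apply hno x hx h1 h2
  rw [h3] at hq
  exact hq

theorem succ_top (hg : τ.Good) (F : TriFacts τ.i0 τ.P τ.C V succ apex)
    {v v' : ℤ} (hv : v ∈ τ.CE τ.P) (hv' : v' ∈ τ.CE τ.P) (hlt : v < v')
    (hno : ∀ x ∈ τ.CE τ.P, v < x → x < v' → False) :
    succ (τ.pe τ.P v) = τ.pe τ.P v' := by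
  have hM : τ.M = τ.i0 + 2 * τ.P := rfl
  have hi0 : τ.i0 = τ.Xr + 8 := rfl
  have b1 := CE_bounds hv
  have b2 := CE_bounds hv'
  have hmem : ∀ x ∈ τ.CE τ.P, τ.pe τ.P x ∈ V (τ.i0 + 2 * τ.P) := by
    intro x hx
    rw [F.top]
    unfold C
    rw [if_neg (by omega), mem_insert, mem_image]
    right
    refine ⟨τ.nu * x, ?_, rfl⟩
    unfold Xs
    rw [mem_union, mem_union]
    right
    left
    rw [mem_image, Cm_even]
    exact ⟨x, hx, rfl⟩
  refine F.hull (τ.i0 + 2 * τ.P) (τ.pe τ.P v) (τ.pe τ.P v') (Or.inl rfl) (hmem v hv)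
    (hmem v' hv') (f1_par_ne hlt) ?_
  intro q hq hqv hqv'
  rw [F.top] at hq
  refine f1_succ (by omega) (by omega) (by linarith) (by linarith) (by linarith) (by linarith) hlt
    hq hqv hqv' ?_
  intro x hx h1 h2 _
  rw [Cm_even] at hx
  exact hno x hx h1 h2

/-- visibility condition for a point of another parabola -/
private theorem f1_vis {a b L L' Y D : ℤ} (hab : a < b) (hL : L' = L - D)
    (h : 0 < cr (par b L) (par a L) (par Y L')) : (Y - a) * (Y - b) < D := by
  rw [cr_par] at h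
  have h' : 0 < ori b L a L Y L' := by exact_mod_cast h
  have e : ori b L a L Y L' = (b - a) * (D - (Y - a) * (Y - b)) := by
    simp only [ori, hL]
    ring
  rw [e] at h'
  have := pos_of_mul_pos_right h' (sub_pos.2 hab).le
  linarith

private theorem f1_not_top {a b L : ℤ} {j : ℕ} (hL : L ≤ τ.Lam τ.M) (hj : j ≤ τ.M)
    (ha1 : -τ.Xm ≤ a) (ha2 : a ≤ τ.Xm) (hb1 : -τ.Xm ≤ b) (hb2 : b ≤ τ.Xm) (hab : a < b)
    (h : 0 < cr (par b L) (par a L) (τ.top j)) : False := by
  have h1 := f1_top hL hj ha1 ha2 hb1 hb2 hab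
  have h2 : cr (par b L) (par a L) (τ.top j) = - cr (par a L) (par b L) (τ.top j) := by
    simp only [cr]
    ring
  rw [h2] at h
  linarith

private theorem f1_CO_gap (hg : τ.Good) {p : ℕ} {x : ℤ} (h : x ∈ τ.CO p) :
    (x = -72 ∨ -36 ≤ x) ∧ (x = 24 * τ.Xr + 72 ∨ x ≤ 24 * τ.Xr + 36) := by
  have hX := hg.Xr_ge
  simp only [CO, mem_union, mem_insert, mem_singleton, mem_image, mem_filter, mem_range] at h
  rcases h with (h | h | h | h) | ⟨k, ⟨hk, _⟩, rfl⟩ | ⟨k, ⟨hk, hk2⟩, rfl⟩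
  · omega
  · omega
  · omega
  · omega
  · omega
  · have h1 := shift_bounds hg p k
    omega

/-- The apex of an edge of the odd ring. -/
theorem vis_odd (hg : τ.Good) (F : TriFacts τ.i0 τ.P τ.C V succ apex) {p : ℕ} (hp : p < τ.P)
    {v v' : ℤ} (hv : v ∈ τ.CO p) (hv' : v' ∈ τ.CO p) (hvV : τ.po p v ∈ V (τ.i0 + 2 * p + 1))
    (hlt : v < v') (hs : succ (τ.po p v) = τ.po p v') :
    (∃ y ∈ τ.CE p, apex (τ.po p v) = τ.pe p y ∧ (y - v) * (y - v') < 864) ∨
    (∃ y ∈ τ.CO p, apex (τ.po p v) = τ.po p y ∧ τ.po p y ∈ V (τ.i0 + 2 * p) ∧ v < y ∧ y < v') := by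
  have hM : τ.M = τ.i0 + 2 * τ.P := rfl
  have hi0 : τ.i0 = τ.Xr + 8 := rfl
  have hn := nu_pos (τ := τ)
  have hn0 : 0 < τ.nu := by linarith
  have hn2 : 0 < τ.nu ^ 2 := by positivity
  have b1 := CO_bounds hg hv
  have b2 := CO_bounds hg hv'
  have g1 := f1_CO_gap hg hv
  have g2 := f1_CO_gap hg hv'
  have m1 := f1_mid (τ := τ) (x := v) (by linarith) (by linarith)
  have m2 := f1_mid (τ := τ) (x := v') (by linarith) (by linarith)
  have hlt' : τ.nu * v < τ.nu * v' := mul_lt_mul_of_pos_left hlt hn0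
  have hLle : τ.Lam (τ.i0 + 2 * p + 1) ≤ τ.Lam τ.M := f1_Lam_le (by omega)
  have hv'36 : -36 ≤ v' := by omega
  have hv36 : v ≤ 24 * τ.Xr + 36 := by omega
  have hapex := F.apex_mem (τ.i0 + 2 * p) (τ.po p v) (by omega) hvV
  have htri := F.tri (τ.i0 + 2 * p + 1) (τ.po p v) (by omega) (by omega) hvV
  rw [hs] at htri
  have hC : apex (τ.po p v) ∈ τ.C (τ.i0 + 2 * p) ∪ τ.C (τ.i0 + 2 * p + 1) := by
    rw [← F.pair p hp]
    exact mem_union_left _ hapex
  rw [mem_union] at hC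
  rcases hC with hC | hC
  · left
    rcases f1_cases (by omega) (by omega) hC with h | ⟨Y, hY, h⟩
    · exfalso
      rw [h] at htri
      exact f1_not_top hLle (by omega) m1.1 m1.2 m2.1 m2.2 hlt' htri
    · have hvis : (Y - τ.nu * v) * (Y - τ.nu * v') < 864 * τ.nu ^ 2 := by
        refine f1_vis hlt' (L := τ.Lam (τ.i0 + 2 * p + 1)) (L' := τ.Lam (τ.i0 + 2 * p)) ?_ ?_
        · rw [Lam_even, Lam_odd]
          ring
        · rw [hY] at htri
          exact htri
      rcases h with h | h | ⟨y, hy, h⟩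
      · exfalso
        have h1 : 35 * τ.nu ≤ τ.nu * v - Y := by
          have := mul_le_mul_of_nonneg_left b1.1 hn0.le
          linarith
        have h2 : 71 * τ.nu ≤ τ.nu * v' - Y := by
          have := mul_le_mul_of_nonneg_left hv'36 hn0.le
          linarith
        have h3 := mul_le_mul h1 h2 (by positivity) (by linarith)
        nlinarith
      · exfalso
        have h1 : 71 * τ.nu ≤ Y - τ.nu * v := by
          have := mul_le_mul_of_nonneg_left hv36 hn0.le
          linarith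
        have h2 : 35 * τ.nu ≤ Y - τ.nu * v' := by
          have := mul_le_mul_of_nonneg_left b2.2 hn0.le
          linarith
        have h3 := mul_le_mul h1 h2 (by positivity) (by linarith)
        nlinarith
      · rw [Cm_even] at hy
        refine ⟨y, hy, ?_, ?_⟩
        · rw [hY, h]
          rfl
        · rw [h] at hvis
          have e : (τ.nu * y - τ.nu * v) * (τ.nu * y - τ.nu * v') =
              ((y - v) * (y - v')) * τ.nu ^ 2 := by ring
          rw [e] at hvis
          exact lt_of_mul_lt_mul_right hvis hn2.le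
  · right
    rcases f1_cases (by omega) (by omega) hC with h | ⟨Y, hY, h⟩
    · exfalso
      rw [h] at htri
      exact f1_not_top hLle (by omega) m1.1 m1.2 m2.1 m2.2 hlt' htri
    · have hvis : (Y - τ.nu * v) * (Y - τ.nu * v') < 0 := by
        refine f1_vis hlt' (L := τ.Lam (τ.i0 + 2 * p + 1)) (L' := τ.Lam (τ.i0 + 2 * p + 1)) ?_ ?_
        · ring
        · rw [hY] at htri
          exact htri
      have hY1 : τ.nu * v < Y := by
        by_contra hcon
        push Not at hcon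
        have := mul_nonneg_of_nonpos_of_nonpos (by linarith : Y - τ.nu * v ≤ 0)
          (by linarith : Y - τ.nu * v' ≤ 0)
        linarith
      have hY2 : Y < τ.nu * v' := by
        by_contra hcon
        push Not at hcon
        have := mul_nonneg (by linarith : 0 ≤ Y - τ.nu * v) (by linarith : 0 ≤ Y - τ.nu * v')
        linarith
      rcases h with h | h | ⟨y, hy, h⟩
      · exfalso
        have := mul_le_mul_of_nonneg_left b1.1 hn0.le
        linarith
      · exfalso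
        have := mul_le_mul_of_nonneg_left b2.2 hn0.le
        linarith
      · rw [Cm_odd] at hy
        have hq : apex (τ.po p v) = τ.po p y := by
          rw [hY, h]
          rfl
        refine ⟨y, hy, hq, ?_, ?_, ?_⟩
        · rw [← hq]
          exact hapex
        · rw [h] at hY1
          exact lt_of_mul_lt_mul_left hY1 hn0.le
        · rw [h] at hY2
          exact lt_of_mul_lt_mul_left hY2 hn0.le

/-- The apex of an edge of the even ring. -/
theorem vis_even (hg : τ.Good) (F : TriFacts τ.i0 τ.P τ.C V succ apex) {p : ℕ} (hp : p < τ.P)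
    {u u' : ℤ} (hu : u ∈ τ.CE (p + 1)) (hu' : u' ∈ τ.CE (p + 1))
    (huV : τ.pe (p + 1) u ∈ V (τ.i0 + 2 * (p + 1)))
    (hlt : u < u') (hu1 : -54 ≤ u) (hu2 : u' ≤ 24 * τ.Xr + 54)
    (hs : succ (τ.pe (p + 1) u) = τ.pe (p + 1) u') :
    ∃ x ∈ τ.CO p, apex (τ.pe (p + 1) u) = τ.po p x ∧ τ.po p x ∈ V (τ.i0 + 2 * p + 1) ∧
      (x - u) * (x - u') < 346 := by
  have hM : τ.M = τ.i0 + 2 * τ.P := rfl
  have hi0 : τ.i0 = τ.Xr + 8 := rfl
  have hn := nu_pos (τ := τ)
  have hn0 : 0 < τ.nu := by linarith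
  have hn2 : 0 < τ.nu ^ 2 := by positivity
  have b1 := CE_bounds hu
  have b2 := CE_bounds hu'
  have m1 := f1_mid (τ := τ) (x := u) (by linarith) (by linarith)
  have m2 := f1_mid (τ := τ) (x := u') (by linarith) (by linarith)
  have hlt' : τ.nu * u < τ.nu * u' := mul_lt_mul_of_pos_left hlt hn0
  have hLle : τ.Lam (τ.i0 + 2 * (p + 1)) ≤ τ.Lam τ.M := f1_Lam_le (by omega)
  have hapex : apex (τ.pe (p + 1) u) ∈ V (τ.i0 + 2 * p + 1) :=
    F.apex_mem (τ.i0 + 2 * p + 1) (τ.pe (p + 1) u) (by omega) huV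
  have htri := F.tri (τ.i0 + 2 * (p + 1)) (τ.pe (p + 1) u) (by omega) (by omega) huV
  rw [hs] at htri
  have hC := F.odd_sub p hp hapex
  rcases f1_cases (by omega) (by omega) hC with h | ⟨Y, hY, h⟩
  · exfalso
    rw [h] at htri
    exact f1_not_top hLle (by omega) m1.1 m1.2 m2.1 m2.2 hlt' htri
  · have hvis : (Y - τ.nu * u) * (Y - τ.nu * u') < 346 * τ.nu ^ 2 := by
      refine f1_vis hlt' (L := τ.Lam (τ.i0 + 2 * (p + 1))) (L' := τ.Lam (τ.i0 + 2 * p + 1)) ?_ ?_
      · rw [Lam_even, Lam_odd]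
        push_cast
        ring
      · rw [hY] at htri
        exact htri
    rcases h with h | h | ⟨y, hy, h⟩
    · exfalso
      have h1 : 53 * τ.nu ≤ τ.nu * u - Y := by
        have := mul_le_mul_of_nonneg_left hu1 hn0.le
        linarith
      have h2 : 53 * τ.nu ≤ τ.nu * u' - Y := by linarith
      have h3 := mul_le_mul h1 h2 (by positivity) (by linarith)
      nlinarith
    · exfalso
      have h2 : 53 * τ.nu ≤ Y - τ.nu * u' := by
        have := mul_le_mul_of_nonneg_left hu2 hn0.le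
        linarith
      have h1 : 53 * τ.nu ≤ Y - τ.nu * u := by linarith
      have h3 := mul_le_mul h1 h2 (by positivity) (by linarith)
      nlinarith
    · rw [Cm_odd] at hy
      have hq : apex (τ.pe (p + 1) u) = τ.po p y := by
        rw [hY, h]
        rfl
      refine ⟨y, hy, hq, ?_, ?_⟩
      · rw [← hq]
        exact hapex
      · rw [h] at hvis
        have e : (τ.nu * y - τ.nu * u) * (τ.nu * y - τ.nu * u') =
            ((y - u) * (y - u')) * τ.nu ^ 2 := by ring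
        rw [e] at hvis
        exact lt_of_mul_lt_mul_right hvis hn2.le

end Tab

end Pool.Agent.Helper70.MD
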