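import Pool.Agent.Helper70.MD.F1

/-!
MD-F2: every middle vertex of an even layer is an apex of a middle edge.

Preliminaries. Let `i = i0 + 2 p + 1`. Write the points of `V i` other than `top i` as
`par X (Lam i)`, `X ∈ Xs i`. General successor rule: if `X < X'` are such that `par X (Lam i)` and
`par X' (Lam i)` are in `V i` and there is no `X''` strictly between with `par X'' (Lam i) ∈ V i`, then
`succ (par X (Lam i)) = par X' (Lam i)` (same proof as `succ_odd`). If `X` is the largest abscissa in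
`V i` then `succ (par X (Lam i))` is `top i` if `top i ∈ V i` (by `F.hull`: for `q = par Y (Lam i)`,
`Y < X`, `cr (par X (Lam i)) (top i) q > 0`, as `H` is large) and otherwise `par X0 (Lam i)` with the
smallest `X0` (by `F.hull`: `cr (par X) (par X0) (par Y) = (X0 - X)(Y - X)(Y - X0) > 0`). Similarly
`succ (top i) = par X0 (Lam i)`.
Which edges can have an apex `q = par Y L`, `L ∈ {Lam (i-1), Lam i}`, `Y = nu y`, `-90 < y < 24 Xr + 90`
(so `-89 nu ≤ Y ≤ (24 Xr + 89) nu`)? By `F.tri`, `0 < cr (succ v) v q`. If `v` is the last vertex (largest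
`X`) or `v = top i`: not possible. For `v = par X`, `succ v = top i`, `X > Y` (the largest abscissa is in
the right cluster or at least `> Y`: see below) the point `q` is on the left of the edge from `v` to
`top i`, as `H` is large; for `v = top i` symmetric; for `v = par X`, `succ v = par X0`,
`X0 < Y < X`: `cr (par X0 L0) (par X L0) q = (X - X0) ((Y - X0)(Y - X) + (L - L0))` with
`L ≤ L0 = Lam i` and `(Y - X0)(Y - X) < 0`, so it is negative. (The smallest abscissa of `V i` is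
smaller than `Y` and the largest is larger: `#(V i) = 6 i + 3`, so not all of the cluster points can be
missing: at most `#(C i) - #(V i) ≤ Xr + 1` points of `C i` are missing in `V i`, because
`#(C (i-1)) + #(C i) = (6 (i-1) + 3) + (6 i + 3)` and `#(C (i-1)) ≥ 6 (i-1) + 3 - (Xr + 6) + 6`;
whereas the left cluster has `K i ≥ 2 i0 > Xr + 1` points and the right cluster has
`Rn i ≥ 3 Xr + 20 > Xr + 1` points.) So `v = par X (Lam i)`, `succ v = par X' (Lam i)`, `X < X'`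
consecutive in `V i`.
`onto_dent`: the dent `q = po p y` has `L = Lam i = L0`, and `0 < cr (par X') (par X) q` means
`X < nu y < X'`. If moreover `v0 < v0'` are the consecutive vertices around it then
`X = nu v0`, `X' = nu v0'`. By `F.onto` (level `i0 + 2 p`, `q ∈ V (i0 + 2p)`) such `v` exists. So
`apex (po p v0) = po p y`.
`onto_shallow`: for `q = pe p e` take `v` from `F.onto`; `X < X'` consecutive in `V i` and
`(nu e - X)(nu e - X') < 864 nu^2`. If some `X'' ∈ Xs i` is strictly between `X` and `X'`, then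
`par X'' (Lam i)` is not in `V i`, so it is in `V (i-1)` (`F.pair`), and by `F.onto` it is the apex of an
edge; that edge is the edge `X X'` by the argument above (note that the argument of `onto_dent` works
for every abscissa `X''` of `Xs i` strictly between two abscissas of `V i`), but the apex of this edge is
`q`, contradiction. So `X`, `X'` are consecutive in `Xs i`. If `X` is in the left cluster, then `X'` is in
the left cluster or `X' = -72 nu`; both factors: `nu e - X ≥ (e + 107) nu ≥ 53 nu` and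
`nu e - X' ≥ (e + 72) nu ≥ 18 nu`, product `≥ 954 nu^2`: contradiction. In the same way `X'` is not in
the right cluster. So `X = nu v`, `X' = nu v'` with `v, v'` consecutive in `CO p`.
-/

set_option autoImplicit false

namespace Pool.Agent.Helper70.MD

open Finset

open scoped Classical

namespace Tab

variable {τ : Tab} {V : ℕ → Finset Pt} {succ apex : Pt → Pt}

private theorem cr_rot_F2 (a b c : Pt) : cr a b c = cr b c a := by
  unfold cr; ring

private theorem cr_swap_F2 (a b c : Pt) : cr a b c = -cr b a c := by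
  unfold cr; ring

private theorem cr_top_F2 (X l Y l' : ℤ) (i : ℕ) :
    cr (par X l) (par Y l') (τ.top i) =
      (((Y - X) * (τ.H - i - l + X * Y) + X * (l' - l) : ℤ) : ℝ) := by
  unfold cr par top
  push_cast
  ring

private theorem Q_pos_F2 {X Y l : ℤ} {i : ℕ} (hX : |X| ≤ τ.Xm) (hY : |Y| ≤ τ.Xm) (hl0 : 0 ≤ l)
    (hl : l ≤ τ.Lam τ.M) (hi : i ≤ τ.M) : τ.Xm * τ.Lam τ.M < τ.H - i - l + X * Y := by
  obtain ⟨h1, h2, h3⟩ := H_big (τ := τ)
  have h4 : -(τ.Xm ^ 2) ≤ X * Y := by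
    have h5 : |X * Y| ≤ τ.Xm * τ.Xm := by
      rw [abs_mul]
      exact mul_le_mul hX hY (abs_nonneg _) (by linarith)
    have h6 := neg_abs_le (X * Y)
    nlinarith
  have h5 : (i : ℤ) ≤ τ.M := by exact_mod_cast hi
  have hL : 0 ≤ τ.Lam τ.M := hl0.trans hl
  have h6 : 1000 * τ.Lam τ.M ≤ τ.Xm * τ.Lam τ.M := mul_le_mul_of_nonneg_right h3 hL
  have h7 : 1000 * τ.Xm ≤ τ.Xm * τ.Xm := mul_le_mul_of_nonneg_right h3 (by linarith)
  have h8 : 1000 * (τ.Xm * τ.Xm) ≤ τ.Xm * (τ.Xm * τ.Xm) :=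
    mul_le_mul_of_nonneg_right h3 (by nlinarith)
  have h9 : τ.H = 16 * (τ.Xm * τ.Lam τ.M) + 16 * (τ.Xm * (τ.Xm * τ.Xm)) := by
    rw [← h1]; ring
  rw [pow_two] at h4
  nlinarith

private theorem top_pos_F2 {X Y l l' : ℤ} {i : ℕ} (hX : |X| ≤ τ.Xm) (hY : |Y| ≤ τ.Xm)
    (hl0 : 0 ≤ l) (hl : l ≤ τ.Lam τ.M) (hl0' : 0 ≤ l') (hl' : l' ≤ τ.Lam τ.M) (hi : i ≤ τ.M)
    (hXY : X < Y) : 0 < cr (par X l) (par Y l') (τ.top i) := by
  rw [cr_top_F2]
  have h1 := Q_pos_F2 hX hY hl0 hl hi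
  have h2 : |X * (l' - l)| ≤ τ.Xm * τ.Lam τ.M := by
    rw [abs_mul]
    refine mul_le_mul hX ?_ (abs_nonneg _) ((abs_nonneg _).trans hX)
    rw [abs_le]
    constructor <;> linarith
  have h3 := neg_abs_le (X * (l' - l))
  have h4 : 1 * (τ.H - i - l + X * Y) ≤ (Y - X) * (τ.H - i - l + X * Y) := by
    refine mul_le_mul_of_nonneg_right (by linarith) ?_
    have h5 := abs_nonneg (X * (l' - l))
    linarith
  have h6 : 0 < (Y - X) * (τ.H - i - l + X * Y) + X * (l' - l) := by linarith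
  exact_mod_cast h6

private theorem par_ne_top_F2 {X l : ℤ} {i : ℕ} (hl0 : 0 ≤ l)
    (hl : l ≤ τ.Lam τ.M) (hi : i ≤ τ.M) : par X l ≠ τ.top i := by
  intro h
  have h1 := congrArg Prod.fst h
  have h2 := congrArg Prod.snd h
  simp only [par, top] at h1 h2
  have hX : X = 0 := by exact_mod_cast h1
  subst hX
  have h3 : (l : ℤ) = τ.H - i := by
    have : (l : ℝ) = (τ.H : ℝ) - i := by
      rw [← h2]; simp
    exact_mod_cast this
  obtain ⟨_, _, h6⟩ := H_big (τ := τ)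
  have h4 := Q_pos_F2 (τ := τ) (X := 0) (Y := 0) (i := i) (by simp; linarith) (by simp; linarith)
    hl0 hl hi
  have h5 : 0 ≤ τ.Xm * τ.Lam τ.M := mul_nonneg (by linarith) (hl0.trans hl)
  linarith

private theorem ori_same_F2 (X X' Y l l' : ℤ) :
    ori X l X' l Y l' = (X' - X) * ((Y - X) * (Y - X') + (l' - l)) := by
  unfold ori; ring

private theorem cr_same_F2 (X X' Y l l' : ℤ) :
    cr (par X l) (par X' l) (par Y l') =
      (((X' - X) * ((Y - X) * (Y - X') + (l' - l)) : ℤ) : ℝ) := by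
  rw [cr_par, ori_same_F2]

private theorem i_le_F2 {p : ℕ} (hp : p < τ.P) : τ.i0 + 2 * p + 1 ≤ τ.M := by
  unfold M; omega

private theorem Cm_odd_F2 (p : ℕ) : τ.Cm (τ.i0 + 2 * p + 1) = τ.CO p := by
  unfold Cm
  rw [if_neg (by omega), if_neg (by omega)]
  congr 1
  omega

private theorem Cm_even_F2 (p : ℕ) : τ.Cm (τ.i0 + 2 * p) = τ.CE p := by
  unfold Cm
  rw [if_neg (by omega), if_pos (by omega)]
  congr 1
  omega

private theorem mem_C_F2 {i : ℕ} (hi : 1 ≤ i) (q : Pt) :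
    q ∈ τ.C i ↔ q = τ.top i ∨ ∃ X ∈ τ.Xs i, par X (τ.Lam i) = q := by
  unfold C
  rw [if_neg (by omega), mem_insert, mem_image]

private theorem Xs_cases_F2 {p : ℕ} (hp : p < τ.P) {X : ℤ}
    (hX : X ∈ τ.Xs (τ.i0 + 2 * p + 1)) :
    X ≤ -107 * τ.nu ∨ (∃ x ∈ τ.CO p, X = τ.nu * x) ∨ (24 * τ.Xr + 107) * τ.nu ≤ X := by
  have hM := i_le_F2 hp
  have hnu := nu_pos (τ := τ)
  unfold Xs at hX
  rw [Cm_odd_F2] at hX
  simp only [mem_union, mem_image, mem_range] at hX
  rcases hX with ⟨k, hk, rfl⟩ | ⟨x, hx, rfl⟩ | ⟨t, ht, rfl⟩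
  · left
    have := left_bounds hM hk
    linarith [this.2]
  · exact Or.inr (Or.inl ⟨x, hx, rfl⟩)
  · right; right
    have := (right_bounds (by omega) hM ht).2
    have hRc : τ.Rc = 24 * (τ.Xr : ℤ) + 108 := rfl
    rw [hRc] at this ⊢
    nlinarith

private theorem CO_mem_Xs_F2 {p : ℕ} {x : ℤ} (hx : x ∈ τ.CO p) :
    τ.nu * x ∈ τ.Xs (τ.i0 + 2 * p + 1) := by
  unfold Xs
  rw [Cm_odd_F2]
  simp only [mem_union, mem_image]
  exact Or.inr (Or.inl ⟨x, hx, rfl⟩)

private theorem Xs_abs_F2 (hg : τ.Good) {i : ℕ} (h1 : 1 ≤ i) (hi : i ≤ τ.M) {X : ℤ}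
    (h : X ∈ τ.Xs i) : |X| ≤ τ.Xm := by
  obtain ⟨h2, h3⟩ := Xs_bounds hg h1 hi h
  have hnu := nu_pos (τ := τ)
  have hRc : τ.Rc = 24 * (τ.Xr : ℤ) + 108 := rfl
  have hXm : τ.Xm = τ.nu * (τ.Rc + 108) := rfl
  have hXr : (0 : ℤ) ≤ τ.Xr := Int.natCast_nonneg _
  have h4 : 0 ≤ τ.nu * τ.Xr := mul_nonneg (by linarith) hXr
  rw [hRc] at h3
  rw [hXm, hRc, abs_le]
  constructor <;> nlinarith

/-- The key statement: the edge with the apex `par Y L` is an edge between consecutive abscissas. -/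
private theorem key_F2 (hg : τ.Good) (F : TriFacts τ.i0 τ.P τ.C V succ apex) {p : ℕ}
    (hp : p < τ.P) {Y L : ℤ} (hL0 : 0 ≤ L) (hL : L ≤ τ.Lam (τ.i0 + 2 * p + 1))
    (hY : |Y| ≤ τ.Xm) (hq : par Y L ∈ V (τ.i0 + 2 * p)) {Z Z' : ℤ}
    (hZ : Z ∈ τ.Xs (τ.i0 + 2 * p + 1))
    (hZV : par Z (τ.Lam (τ.i0 + 2 * p + 1)) ∈ V (τ.i0 + 2 * p + 1)) (hZY : Z < Y)
    (hZ' : Z' ∈ τ.Xs (τ.i0 + 2 * p + 1))
    (hZV' : par Z' (τ.Lam (τ.i0 + 2 * p + 1)) ∈ V (τ.i0 + 2 * p + 1)) (hZY' : Y < Z') :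
    ∃ X ∈ τ.Xs (τ.i0 + 2 * p + 1), ∃ X' ∈ τ.Xs (τ.i0 + 2 * p + 1), X < X' ∧
      par X (τ.Lam (τ.i0 + 2 * p + 1)) ∈ V (τ.i0 + 2 * p + 1) ∧
      par X' (τ.Lam (τ.i0 + 2 * p + 1)) ∈ V (τ.i0 + 2 * p + 1) ∧
      (∀ X'' ∈ τ.Xs (τ.i0 + 2 * p + 1),
        par X'' (τ.Lam (τ.i0 + 2 * p + 1)) ∈ V (τ.i0 + 2 * p + 1) → X < X'' → X'' < X' → False) ∧
      succ (par X (τ.Lam (τ.i0 + 2 * p + 1))) = par X' (τ.Lam (τ.i0 + 2 * p + 1)) ∧
      apex (par X (τ.Lam (τ.i0 + 2 * p + 1))) = par Y L ∧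
      (Y - X) * (Y - X') < τ.Lam (τ.i0 + 2 * p + 1) - L := by
  have hM := i_le_F2 hp
  have hMdef : τ.M = τ.i0 + 2 * τ.P := rfl
  obtain ⟨w, hw, haw⟩ := F.onto (τ.i0 + 2 * p) _ (by unfold i0; omega) (by omega) hq
  have hsub := F.odd_sub p hp
  have htri := F.tri (τ.i0 + 2 * p + 1) w (by omega) (by omega) hw
  rw [haw] at htri
  have hhull := fun v v' => F.hull (τ.i0 + 2 * p + 1) v v' (Or.inr ⟨p, hp, rfl⟩)
  set i := τ.i0 + 2 * p + 1 with hi
  have hi1 : 1 ≤ i := by omega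
  have hLi0 : 0 ≤ τ.Lam i := Lam_nonneg i
  have hLiM : τ.Lam i ≤ τ.Lam τ.M := by
    rcases Nat.lt_or_ge i τ.M with h | h
    · exact (Lam_strictMono h).le
    · rw [le_antisymm hM h]
  set A : Finset ℤ := (τ.Xs i).filter (fun X => par X (τ.Lam i) ∈ V i) with hA
  have hmemA : ∀ X, X ∈ A ↔ X ∈ τ.Xs i ∧ par X (τ.Lam i) ∈ V i := fun X => mem_filter
  have hVA : ∀ q ∈ V i, q = τ.top i ∨ ∃ X ∈ A, par X (τ.Lam i) = q := by
    intro q hq
    rcases (mem_C_F2 hi1 q).1 (hsub hq) with h | ⟨X, hX, rfl⟩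
    · exact Or.inl h
    · exact Or.inr ⟨X, (hmemA X).2 ⟨hX, hq⟩, rfl⟩
  have habs : ∀ X ∈ A, |X| ≤ τ.Xm := fun X hX => Xs_abs_F2 hg hi1 hM ((hmemA X).1 hX).1
  have hne : A.Nonempty := ⟨Z, (hmemA Z).2 ⟨hZ, hZV⟩⟩
  have h0A := A.min'_mem hne
  have hnA := A.max'_mem hne
  set X0 := A.min' hne with hX0
  set Xn := A.max' hne with hXn
  have h0le : ∀ X ∈ A, X0 ≤ X := fun X hX => A.min'_le X hX
  have hnge : ∀ X ∈ A, X ≤ Xn := fun X hX => A.le_max' X hX
  have h0Y : X0 < Y := (h0le Z ((hmemA Z).2 ⟨hZ, hZV⟩)).trans_lt hZY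
  have hnY : Y < Xn := hZY'.trans_le (hnge Z' ((hmemA Z').2 ⟨hZ', hZV'⟩))
  have hpt : ∀ X : ℤ, par X (τ.Lam i) ≠ τ.top i := fun X => par_ne_top_F2 hLi0 hLiM hM
  rcases hVA w hw with rfl | ⟨X, hX, rfl⟩
  · -- `w` is the top point
    exfalso
    have hs : succ (τ.top i) = par X0 (τ.Lam i) := by
      refine hhull _ _ hw ((hmemA X0).1 h0A).2 (hpt X0).symm fun q hq hq1 hq2 => ?_
      rcases hVA q hq with rfl | ⟨U, hU, rfl⟩
      · exact absurd rfl hq1
      · rw [cr_rot_F2]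
        refine top_pos_F2 (habs _ h0A) (habs _ hU) hLi0 hLiM hLi0 hLiM hM ?_
        refine lt_of_le_of_ne (h0le U hU) fun h => hq2 ?_
        rw [h]
    have h1 := top_pos_F2 (l' := L) (habs _ h0A) hY hLi0 hLiM hL0 (hL.trans hLiM) hM h0Y
    have h2 : cr (par X0 (τ.Lam i)) (τ.top i) (par Y L) =
        -cr (par X0 (τ.Lam i)) (par Y L) (τ.top i) := by
      unfold cr; ring
    rw [hs, h2] at htri
    linarith
  · have hXle : X ≤ Xn := hnge X hX
    rcases hXle.eq_or_lt with hXn' | hXn'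
    · -- `w` has the largest abscissa
      exfalso
      subst hXn'
      by_cases ht : τ.top i ∈ V i
      · have hs : succ (par Xn (τ.Lam i)) = τ.top i := by
          refine hhull _ _ hw ht (hpt Xn) fun q hq hq1 hq2 => ?_
          rcases hVA q hq with rfl | ⟨U, hU, rfl⟩
          · exact absurd rfl hq2
          · have h3 : cr (par Xn (τ.Lam i)) (τ.top i) (par U (τ.Lam i)) =
                cr (par U (τ.Lam i)) (par Xn (τ.Lam i)) (τ.top i) := by
              unfold cr; ring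
            rw [h3]
            refine top_pos_F2 (habs _ hU) (habs _ hX) hLi0 hLiM hLi0 hLiM hM ?_
            refine lt_of_le_of_ne (hnge U hU) fun h => hq1 ?_
            rw [h]
        have h1 := top_pos_F2 (l' := τ.Lam i) hY (habs _ hX) hL0 (hL.trans hLiM) hLi0 hLiM hM hnY
        have h2 : cr (τ.top i) (par Xn (τ.Lam i)) (par Y L) =
            -cr (par Y L) (par Xn (τ.Lam i)) (τ.top i) := by
          unfold cr; ring
        rw [hs, h2] at htri
        linarith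
      · have h0X : X0 < Xn := h0Y.trans hnY
        have hs : succ (par Xn (τ.Lam i)) = par X0 (τ.Lam i) := by
          refine hhull _ _ hw ((hmemA X0).1 h0A).2 (fun h => h0X.ne' (par_inj h).1)
            fun q hq hq1 hq2 => ?_
          rcases hVA q hq with rfl | ⟨U, hU, rfl⟩
          · exact absurd hq ht
          · rw [cr_same_F2]
            have hU1 : U < Xn := lt_of_le_of_ne (hnge U hU) fun h => hq1 (by rw [h])
            have hU2 : X0 < U := lt_of_le_of_ne (h0le U hU) fun h => hq2 (by rw [h])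
            have h3 : 0 < (X0 - Xn) * ((U - Xn) * (U - X0) + (τ.Lam i - τ.Lam i)) := by
              have h4 : 0 < (Xn - U) * (U - X0) := mul_pos (by linarith) (by linarith)
              have h5 : 0 < (Xn - X0) * ((Xn - U) * (U - X0)) := mul_pos (by linarith) h4
              nlinarith
            exact_mod_cast h3
        rw [hs, cr_same_F2] at htri
        have h6 : 0 < (Xn - X0) * ((Y - X0) * (Y - Xn) + (L - τ.Lam i)) := by exact_mod_cast htri
        have h7 : (Y - X0) * (Y - Xn) + (L - τ.Lam i) < 0 := by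
          have h8 : 0 < (Y - X0) * (Xn - Y) := mul_pos (by linarith) (by linarith)
          nlinarith
        have h9 : (Xn - X0) * ((Y - X0) * (Y - Xn) + (L - τ.Lam i)) < 0 :=
          mul_neg_of_pos_of_neg (by linarith) h7
        linarith
    · -- consecutive abscissas
      have hBne : (A.filter (fun U => X < U)).Nonempty := ⟨Xn, mem_filter.2 ⟨hnA, hXn'⟩⟩
      have hX'B := (A.filter (fun U => X < U)).min'_mem hBne
      set X' := (A.filter (fun U => X < U)).min' hBne with hX'def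
      obtain ⟨hX'A, hXX'⟩ := mem_filter.1 hX'B
      have hcons : ∀ U ∈ A, X < U → X' ≤ U := fun U hU hXU =>
        (A.filter (fun U => X < U)).min'_le U (mem_filter.2 ⟨hU, hXU⟩)
      have hs : succ (par X (τ.Lam i)) = par X' (τ.Lam i) := by
        refine hhull _ _ hw ((hmemA X').1 hX'A).2 (fun h => hXX'.ne (par_inj h).1)
          fun q hq hq1 hq2 => ?_
        rcases hVA q hq with rfl | ⟨U, hU, rfl⟩
        · exact top_pos_F2 (habs _ hX) (habs _ hX'A) hLi0 hLiM hLi0 hLiM hM hXX'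
        · rw [cr_same_F2]
          have hU1 : U ≠ X := fun h => hq1 (by rw [h])
          have hU2 : U ≠ X' := fun h => hq2 (by rw [h])
          have h3 : 0 < (U - X) * (U - X') := by
            rcases lt_or_gt_of_ne hU1 with h | h
            · exact mul_pos_of_neg_of_neg (by linarith) (by linarith)
            · have h4 : X' < U := lt_of_le_of_ne (hcons U hU h) (Ne.symm hU2)
              exact mul_pos (by linarith) (by linarith)
          have h5 : 0 < (X' - X) * ((U - X) * (U - X') + (τ.Lam i - τ.Lam i)) :=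
            mul_pos (by linarith) (by linarith)
          exact_mod_cast h5
      refine ⟨X, ((hmemA X).1 hX).1, X', ((hmemA X').1 hX'A).1, hXX', hw,
        ((hmemA X').1 hX'A).2, fun U hU hUV h1 h2 => ?_, hs, haw, ?_⟩
      · exact absurd (hcons U ((hmemA U).2 ⟨hU, hUV⟩) h1) (not_le.2 h2)
      · rw [hs, cr_same_F2] at htri
        have h6 : 0 < (X - X') * ((Y - X') * (Y - X) + (L - τ.Lam i)) := by exact_mod_cast htri
        by_contra h7
        push Not at h7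
        have h8 : 0 ≤ (Y - X') * (Y - X) + (L - τ.Lam i) := by nlinarith
        have h9 : (X - X') * ((Y - X') * (Y - X) + (L - τ.Lam i)) ≤ 0 :=
          mul_nonpos_of_nonpos_of_nonneg (by linarith) h8
        linarith

/-- A dent between two consecutive vertices is the apex of their edge. -/
theorem onto_dent (hg : τ.Good) (F : TriFacts τ.i0 τ.P τ.C V succ apex) {p : ℕ} (hp : p < τ.P)
    {v v' y : ℤ} (hv : v ∈ τ.CO p) (hv' : v' ∈ τ.CO p) (hy : y ∈ τ.CO p)
    (hvV : τ.po p v ∈ V (τ.i0 + 2 * p + 1)) (hvV' : τ.po p v' ∈ V (τ.i0 + 2 * p + 1))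
    (h1 : v < y) (h2 : y < v')
    (hno : ∀ x ∈ τ.CO p, v < x → x < v' → τ.po p x ∉ V (τ.i0 + 2 * p + 1)) :
    τ.po p y ∈ V (τ.i0 + 2 * p) ∧ apex (τ.po p v) = τ.po p y := by
  have hnu := nu_pos (τ := τ)
  have hnu0 : 0 < τ.nu := by linarith
  have hM := i_le_F2 hp
  have hyC : τ.po p y ∈ τ.C (τ.i0 + 2 * p + 1) :=
    (mem_C_F2 (by omega) _).2 (Or.inr ⟨τ.nu * y, CO_mem_Xs_F2 hy, rfl⟩)
  have hyV : τ.po p y ∈ V (τ.i0 + 2 * p) := by
    have h3 : τ.po p y ∈ V (τ.i0 + 2 * p) ∪ V (τ.i0 + 2 * p + 1) := by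
      rw [F.pair p hp]
      exact mem_union_right _ hyC
    rcases mem_union.1 h3 with h | h
    · exact h
    · exact absurd h (hno y hy h1 h2)
  refine ⟨hyV, ?_⟩
  have hvy : τ.nu * v < τ.nu * y := mul_lt_mul_of_pos_left h1 hnu0
  have hyv' : τ.nu * y < τ.nu * v' := mul_lt_mul_of_pos_left h2 hnu0
  obtain ⟨X, hX, X', hX', hXX', hXV, hXV', hc, hs, ha, hlt⟩ :=
    key_F2 hg F hp (Lam_nonneg _) le_rfl (Xs_abs_F2 hg (by omega) hM (CO_mem_Xs_F2 hy)) hyV
      (CO_mem_Xs_F2 hv) hvV hvy (CO_mem_Xs_F2 hv') hvV' hyv'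
  rw [sub_self] at hlt
  have h3 : X < τ.nu * y ∧ τ.nu * y < X' := by
    rcases mul_neg_iff.1 hlt with ⟨h4, h5⟩ | ⟨h4, h5⟩
    · constructor <;> linarith
    · exfalso; linarith
  have h4 : X = τ.nu * v := by
    rcases lt_trichotomy X (τ.nu * v) with h | h | h
    · exact (hc _ (CO_mem_Xs_F2 hv) hvV h (hvy.trans h3.2)).elim
    · exact h
    · exfalso
      obtain ⟨hb1, hb2⟩ := CO_bounds hg hv
      obtain ⟨hb3, hb4⟩ := CO_bounds hg hv'
      rcases Xs_cases_F2 hp hX with h5 | ⟨x, hx, rfl⟩ | h5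
      · have : τ.nu * v ≥ τ.nu * (-72) := mul_le_mul_of_nonneg_left hb1 hnu0.le
        linarith
      · have h6 : v < x := lt_of_mul_lt_mul_left h hnu0.le
        have h7 : x < v' := lt_of_mul_lt_mul_left (h3.1.trans hyv') hnu0.le
        exact hno x hx h6 h7 hXV
      · have : τ.nu * v' ≤ τ.nu * (24 * τ.Xr + 72) := mul_le_mul_of_nonneg_left hb4 hnu0.le
        nlinarith [h3.1, hyv']
  rw [h4] at ha
  exact ha

private theorem count_F2 (hg : τ.Good) (F : TriFacts τ.i0 τ.P τ.C V succ apex) {p : ℕ}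
    (hp : p < τ.P) (T : Finset ℤ) (hT : T ⊆ τ.Xs (τ.i0 + 2 * p + 1))
    (hTV : ∀ X ∈ T, par X (τ.Lam (τ.i0 + 2 * p + 1)) ∉ V (τ.i0 + 2 * p + 1)) :
    #T ≤ τ.Xr + 6 := by
  have hM := i_le_F2 hp
  have hMdef : τ.M = τ.i0 + 2 * τ.P := rfl
  have h1 : #(T.image fun X => par X (τ.Lam (τ.i0 + 2 * p + 1))) = #T :=
    card_image_of_injective _ fun X X' h => (par_inj h).1
  have h2 : Disjoint (V (τ.i0 + 2 * p + 1))
      (T.image fun X => par X (τ.Lam (τ.i0 + 2 * p + 1))) := by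
    rw [disjoint_left]
    intro q hq hq2
    obtain ⟨X, hX, rfl⟩ := mem_image.1 hq2
    exact hTV X hX hq
  have h3 : V (τ.i0 + 2 * p + 1) ∪ (T.image fun X => par X (τ.Lam (τ.i0 + 2 * p + 1))) ⊆
      τ.C (τ.i0 + 2 * p + 1) := by
    refine union_subset (F.odd_sub p hp) fun q hq => ?_
    obtain ⟨X, hX, rfl⟩ := mem_image.1 hq
    exact (mem_C_F2 (by omega) _).2 (Or.inr ⟨X, hT hX, rfl⟩)
  have h4 := card_le_card h3
  rw [card_union_of_disjoint h2, h1, F.card _ (by omega), card_C hg (by omega) hM,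
    card_Xs hg (by omega) hM, Cm_odd_F2] at h4
  have h5 := card_CE_CO hg p
  have h6 := K_md_le (τ := τ) (i := τ.i0 + 2 * p + 1) (by omega)
  have h7 : τ.md (τ.i0 + 2 * p + 1) = τ.Xr + 5 := by
    unfold md
    rw [if_neg (by omega), if_neg (by omega)]
  omega

private theorem count_left_F2 (hg : τ.Good) (F : TriFacts τ.i0 τ.P τ.C V succ apex) {p : ℕ}
    (hp : p < τ.P) : ∃ Z ∈ τ.Xs (τ.i0 + 2 * p + 1),
      par Z (τ.Lam (τ.i0 + 2 * p + 1)) ∈ V (τ.i0 + 2 * p + 1) ∧ Z ≤ -107 * τ.nu := by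
  by_contra hcon
  push Not at hcon
  have hM := i_le_F2 hp
  set i := τ.i0 + 2 * p + 1 with hi
  have h1 := count_F2 hg F hp ((range (τ.K i)).image fun k : ℕ => -108 * τ.nu + i + k) (by
    intro X hX
    unfold Xs
    exact mem_union_left _ hX) (by
    intro X hX hXV
    have hX' : X ∈ τ.Xs i := by
      unfold Xs
      exact mem_union_left _ hX
    have h2 := hcon X hX' hXV
    obtain ⟨k, hk, rfl⟩ := mem_image.1 hX
    have h3 := (left_bounds hM (mem_range.1 hk)).2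
    have hnu := nu_pos (τ := τ)
    linarith)
  rw [card_image_of_injective _ (fun k k' h => by
    have h' : -108 * τ.nu + (i : ℤ) + (k : ℤ) = -108 * τ.nu + i + k' := h
    have : (k : ℤ) = k' := by linarith
    exact_mod_cast this), card_range] at h1
  have h2 : τ.K i = 2 * τ.i0 + (5 * (i - τ.i0) + 1) / 2 := by
    unfold K
    rw [if_neg (by omega)]
  have h3 : τ.i0 = τ.Xr + 8 := rfl
  omega

private theorem count_right_F2 (hg : τ.Good) (F : TriFacts τ.i0 τ.P τ.C V succ apex) {p : ℕ}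
    (hp : p < τ.P) : ∃ Z ∈ τ.Xs (τ.i0 + 2 * p + 1),
      par Z (τ.Lam (τ.i0 + 2 * p + 1)) ∈ V (τ.i0 + 2 * p + 1) ∧
        (24 * τ.Xr + 107) * τ.nu ≤ Z := by
  by_contra hcon
  push Not at hcon
  have hM := i_le_F2 hp
  set i := τ.i0 + 2 * p + 1 with hi
  have h1 := count_F2 hg F hp ((range (τ.Rn i)).image fun t : ℕ => τ.Rc * τ.nu - i - t) (by
    intro X hX
    unfold Xs
    exact mem_union_right _ (mem_union_right _ hX)) (by
    intro X hX hXV
    have hX' : X ∈ τ.Xs i := by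
      unfold Xs
      exact mem_union_right _ (mem_union_right _ hX)
    have h2 := hcon X hX' hXV
    obtain ⟨t, ht, rfl⟩ := mem_image.1 hX
    have h3 := (right_bounds (by omega) hM (mem_range.1 ht)).2
    have hnu := nu_pos (τ := τ)
    have hRc : τ.Rc = 24 * (τ.Xr : ℤ) + 108 := rfl
    rw [hRc] at h3 h2
    nlinarith)
  rw [card_image_of_injective _ (fun k k' h => by
    have h' : τ.Rc * τ.nu - (i : ℤ) - (k : ℤ) = τ.Rc * τ.nu - i - k' := h
    have : (k : ℤ) = k' := by linarith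
    exact_mod_cast this), card_range] at h1
  have h2 : τ.K i = 2 * τ.i0 + (5 * (i - τ.i0) + 1) / 2 := by
    unfold K
    rw [if_neg (by omega)]
  have h3 : τ.i0 = τ.Xr + 8 := rfl
  have h6 := K_md_le (τ := τ) (i := i) (by omega)
  have h7 : τ.md i = τ.Xr + 5 := by
    unfold md
    rw [if_neg (by omega), if_neg (by omega)]
  omega

/-- A shallow vertex is the apex of an edge between consecutive positions. -/
theorem onto_shallow (hg : τ.Good) (F : TriFacts τ.i0 τ.P τ.C V succ apex) {p : ℕ} (hp : p < τ.P)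
    {e : ℤ} (he : e ∈ τ.CE p) (h1 : -54 ≤ e) (h2 : e ≤ 24 * τ.Xr + 54) :
    ∃ v ∈ τ.CO p, ∃ v' ∈ τ.CO p, v < v' ∧ (∀ x ∈ τ.CO p, ¬ (v < x ∧ x < v')) ∧
      τ.po p v ∈ V (τ.i0 + 2 * p + 1) ∧ τ.po p v' ∈ V (τ.i0 + 2 * p + 1) ∧
      succ (τ.po p v) = τ.po p v' ∧
      apex (τ.po p v) = τ.pe p e ∧ (e - v) * (e - v') < 864 := by
  have hnu := nu_pos (τ := τ)
  have hnu0 : 0 < τ.nu := by linarith
  have hM := i_le_F2 hp
  have hXr : (0 : ℤ) ≤ τ.Xr := Int.natCast_nonneg _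
  have heC : τ.nu * e ∈ τ.Xs (τ.i0 + 2 * p) := by
    unfold Xs
    rw [Cm_even_F2]
    exact mem_union_right _ (mem_union_left _ (mem_image.2 ⟨e, he, rfl⟩))
  have hqV : τ.pe p e ∈ V (τ.i0 + 2 * p) := by
    refine F.even_sub p hp ((mem_C_F2 (by unfold i0; omega) _).2 (Or.inr ⟨τ.nu * e, heC, rfl⟩))
  have hLlt : τ.Lam (τ.i0 + 2 * p) < τ.Lam (τ.i0 + 2 * p + 1) := Lam_strictMono (by omega)
  have hLd : τ.Lam (τ.i0 + 2 * p + 1) - τ.Lam (τ.i0 + 2 * p) = 864 * τ.nu ^ 2 := by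
    rw [Lam_odd, Lam_even]; ring
  obtain ⟨Z, hZ, hZV, hZ1⟩ := count_left_F2 hg F hp
  obtain ⟨Z', hZ', hZV', hZ1'⟩ := count_right_F2 hg F hp
  have hne1 : τ.nu * (-54) ≤ τ.nu * e := mul_le_mul_of_nonneg_left h1 hnu0.le
  have hne2 : τ.nu * e ≤ τ.nu * (24 * τ.Xr + 54) := mul_le_mul_of_nonneg_left h2 hnu0.le
  obtain ⟨X, hX, X', hX', hXX', hXV, hXV', hc, hs, ha, hlt⟩ :=
    key_F2 hg F hp (Lam_nonneg _) hLlt.le
      (Xs_abs_F2 hg (by unfold i0; omega) (by omega) heC) hqV hZ hZV (by linarith) hZ' hZV'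
      (by nlinarith)
  rw [hLd] at hlt
  -- no abscissa between
  have hcons : ∀ U ∈ τ.Xs (τ.i0 + 2 * p + 1), ¬ (X < U ∧ U < X') := by
    rintro U hU ⟨hU1, hU2⟩
    have hUC : par U (τ.Lam (τ.i0 + 2 * p + 1)) ∈ τ.C (τ.i0 + 2 * p + 1) :=
      (mem_C_F2 (by omega) _).2 (Or.inr ⟨U, hU, rfl⟩)
    have hUV : par U (τ.Lam (τ.i0 + 2 * p + 1)) ∈ V (τ.i0 + 2 * p) := by
      have h3 : par U (τ.Lam (τ.i0 + 2 * p + 1)) ∈ V (τ.i0 + 2 * p) ∪ V (τ.i0 + 2 * p + 1) := by
        rw [F.pair p hp]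
        exact mem_union_right _ hUC
      rcases mem_union.1 h3 with h | h
      · exact h
      · exact (hc U hU h hU1 hU2).elim
    obtain ⟨X1, hX1, X1', hX1', _, hXV1, hXV1', hc1, _, ha1, hlt1⟩ :=
      key_F2 hg F hp (Lam_nonneg _) le_rfl (Xs_abs_F2 hg (by omega) hM hU) hUV
        hX hXV hU1 hX' hXV' hU2
    rw [sub_self] at hlt1
    have h3 : X1 < U ∧ U < X1' := by
      rcases mul_neg_iff.1 hlt1 with ⟨h4, h5⟩ | ⟨h4, h5⟩
      · constructor <;> linarith
      · exfalso; linarith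
    have h4 : X1 = X := by
      rcases lt_trichotomy X1 X with h | h | h
      · exact (hc1 _ hX hXV h (hU1.trans h3.2)).elim
      · exact h
      · exact (hc _ hX1 hXV1 h (h3.1.trans hU2)).elim
    rw [h4, ha] at ha1
    exact hLlt.ne (par_inj ha1).2
  have hm72 : (-72 : ℤ) ∈ τ.CO p := by
    unfold CO
    simp
  have hp72 : (24 * (τ.Xr : ℤ) + 72) ∈ τ.CO p := by
    unfold CO
    simp
  -- not in the clusters
  have hXl : ¬ X ≤ -107 * τ.nu := by
    intro hXl
    have h3 : X' ≤ τ.nu * (-72) := by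
      by_contra h4
      push Not at h4
      exact hcons _ (CO_mem_Xs_F2 hm72) ⟨by linarith, h4⟩
    have h5 : 53 * τ.nu ≤ τ.nu * e - X := by linarith
    have h6 : 18 * τ.nu ≤ τ.nu * e - X' := by linarith
    have h7 : 53 * τ.nu * (18 * τ.nu) ≤ (τ.nu * e - X) * (τ.nu * e - X') :=
      mul_le_mul h5 h6 (by linarith) (by linarith)
    nlinarith
  have hXr' : ¬ (24 * τ.Xr + 107) * τ.nu ≤ X' := by
    intro hXr'
    have h3 : τ.nu * (24 * τ.Xr + 72) ≤ X := by
      by_contra h4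
      push Not at h4
      refine hcons _ (CO_mem_Xs_F2 hp72) ⟨h4, ?_⟩
      nlinarith
    have h5 : 53 * τ.nu ≤ X' - τ.nu * e := by nlinarith
    have h6 : 18 * τ.nu ≤ X - τ.nu * e := by nlinarith
    have h7 : 18 * τ.nu * (53 * τ.nu) ≤ (X - τ.nu * e) * (X' - τ.nu * e) :=
      mul_le_mul h6 h5 (by linarith) (by linarith)
    nlinarith
  rcases Xs_cases_F2 hp hX with h3 | ⟨v, hv, rfl⟩ | h3
  · exact absurd h3 hXl
  · rcases Xs_cases_F2 hp hX' with h4 | ⟨v', hv', rfl⟩ | h4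
    · exact absurd (hXX'.le.trans h4) hXl
    · refine ⟨v, hv, v', hv', lt_of_mul_lt_mul_left hXX' hnu0.le, ?_, hXV, hXV', hs, ha, ?_⟩
      · rintro x hx ⟨h5, h6⟩
        exact hcons _ (CO_mem_Xs_F2 hx)
          ⟨mul_lt_mul_of_pos_left h5 hnu0, mul_lt_mul_of_pos_left h6 hnu0⟩
      · have h5 : τ.nu ^ 2 * ((e - v) * (e - v')) < τ.nu ^ 2 * 864 := by
          calc τ.nu ^ 2 * ((e - v) * (e - v')) =
              (τ.nu * e - τ.nu * v) * (τ.nu * e - τ.nu * v') := by ring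
            _ < 864 * τ.nu ^ 2 := hlt
            _ = τ.nu ^ 2 * 864 := by ring
        exact lt_of_mul_lt_mul_left h5 (by positivity)
    · exact absurd h4 hXr'
  · exact absurd (h3.trans hXX'.le) hXr'

end Tab

end Pool.Agent.Helper70.MD
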