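import Pool.Agent.Helper70.MD.F2

/-!
MD-F3: the margins.

Near the left end the elements of `CO p` are `-72, -36, 0, 24, 48, ...` (columns `h < 8` are not in
loops) and those of `CE p` are `-90, -54, -18, 12, 36, 60, ...`.
(1) `e = -54` in `onto_shallow`: consecutive `v < v'` in `CO p` with `(-54 - v)(-54 - v') < 864`: only
`(-72, -36)` (`(-36, 0)`: `18 * 54 = 972`; further pairs are larger). So `-72` and `-36` are vertices and
`apex (po p (-72)) = pe p (-54)`.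
(2) `e = -18`: the pairs `(-36, 0)` (value `-324`) and `(0, 24)` (`756`) are possible, `(-72, -36)` (`972`)
and `(24, 48)` (`42 * 66`) and the later ones are not. In both cases `0` is a vertex.
So `succ (po p (-36)) = po p 0` by `succ_odd`, and by `vis_odd` the apex of `po p (-36)` is
`pe p y`, `(y + 36) y < 864` with `y ∈ CE p` (no element of `CO p` is strictly between), so
`y ∈ {-18, 12}` (`-54`: `972`; `36`: `72 * 36`). Suppose `y = 12`. Then the vertex found for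
`e = -18` is not `-36`, so it is `0`: `apex (po p 0) = pe p (-18)`. `F.walk` at `po p (-36)`:
`apex (po p 0) = apex (po p (-36))` is false, so `0 < cr (pe p 12) (pe p (-18)) (po p 0)`; by
`cr_par` and `ori_scale` the sign is that of `ori 12 0 (-18) 0 0 864`
`= (-30) * (-12) * 18 + (-30) * 864 < 0`: contradiction. So `apex (po p (-36)) = pe p (-18)`.
The right end is the mirror image (`x ↦ 24 Xr - x`): `CO p` ends with
`24 Xr - 48, 24 Xr - 24, 24 Xr, 24 Xr + 36, 24 Xr + 72` and `CE p` with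
`24 Xr - 36, 24 Xr - 12, 24 Xr + 18, 24 Xr + 54, 24 Xr + 90`. `e = 24 Xr + 54` gives that
`24 Xr + 36` and `24 Xr + 72` are vertices with `apex (po p (24 Xr + 36)) = pe p (24 Xr + 54)`;
`e = 24 Xr + 18`: pairs `(24 Xr, 24 Xr + 36)` or `(24 Xr - 24, 24 Xr)`, so `24 Xr` is a vertex;
the apex of `po p (24 Xr)` is `pe p y` with `y ∈ {24 Xr + 18, 24 Xr - 12}`; if
`y = 24 Xr - 12` then `apex (po p (24 Xr - 24)) = pe p (24 Xr + 18)` with `24 Xr - 24` a vertex and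
`F.walk` at `po p (24 Xr - 24)` gives `0 < cr (pe p (24 Xr + 18)) (pe p (24 Xr - 12)) (po p (24 Xr))`,
whose sign is that of `ori 18 0 (-12) 0 0 864 = (-30) * (-18) * 12 + (-30) * 864 < 0`.
-/

set_option autoImplicit false

namespace Pool.Agent.Helper70.MD

open Finset

open scoped Classical

namespace Tab

variable {τ : Tab} {V : ℕ → Finset Pt} {succ apex : Pt → Pt}

private theorem f3_inL (hg : τ.Good) {p h : ℕ} (hL : τ.inL p h) : 8 ≤ h ∧ h + 8 < τ.Xr := by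
  constructor
  · by_contra hcon
    exact hL (hg.none_left p h (by omega))
  · by_contra hcon
    exact hL (hg.none_right p h (by omega))

private theorem f3_CO (hg : τ.Good) {p : ℕ} {x : ℤ} (h : x ∈ τ.CO p) :
    x = -72 ∨ x = -36 ∨ x = 24 * τ.Xr + 36 ∨ x = 24 * τ.Xr + 72 ∨
      (∃ k : ℕ, k ≤ τ.Xr ∧ x = 24 * k) ∨ (198 ≤ x ∧ x ≤ 24 * τ.Xr - 198) := by
  unfold CO at h
  simp only [Finset.mem_union, Finset.mem_insert, Finset.mem_singleton, Finset.mem_image,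
    Finset.mem_filter, Finset.mem_range] at h
  rcases h with (h | h | h | h) | (⟨k, ⟨hk, -⟩, rfl⟩ | ⟨l, ⟨hl, hL⟩, rfl⟩)
  · exact Or.inl h
  · exact Or.inr (Or.inl h)
  · exact Or.inr (Or.inr (Or.inl h))
  · exact Or.inr (Or.inr (Or.inr (Or.inl h)))
  · exact Or.inr (Or.inr (Or.inr (Or.inr (Or.inl ⟨k, by omega, rfl⟩))))
  · refine Or.inr (Or.inr (Or.inr (Or.inr (Or.inr ?_))))
    obtain ⟨h1, h2⟩ := f3_inL hg hL
    obtain ⟨s, hs⟩ := Option.ne_none_iff_exists'.1 hL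
    have hb := hg.bound p l s hs
    have hsh : τ.shift p l = s := by
      unfold shift
      rw [hs]
      rfl
    rw [hsh]
    omega

private theorem f3_CE (hg : τ.Good) {p : ℕ} {x : ℤ} (h : x ∈ τ.CE p) :
    x = -90 ∨ x = -54 ∨ x = -18 ∨ x = 24 * τ.Xr + 18 ∨ x = 24 * τ.Xr + 54 ∨ x = 24 * τ.Xr + 90 ∨
      (∃ k : ℕ, k < τ.Xr ∧ x = 24 * k + 12) ∨ (192 ≤ x ∧ x ≤ 24 * τ.Xr - 192) := by
  unfold CE at h
  simp only [Finset.mem_union, Finset.mem_insert, Finset.mem_singleton, Finset.mem_image,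
    Finset.mem_filter, Finset.mem_range] at h
  rcases h with (h | h | h | h | h | h) | (⟨k, ⟨hk, -⟩, rfl⟩ | ⟨l, ⟨hl, hL⟩, rfl⟩)
  · exact Or.inl h
  · exact Or.inr (Or.inl h)
  · exact Or.inr (Or.inr (Or.inl h))
  · exact Or.inr (Or.inr (Or.inr (Or.inl h)))
  · exact Or.inr (Or.inr (Or.inr (Or.inr (Or.inl h))))
  · exact Or.inr (Or.inr (Or.inr (Or.inr (Or.inr (Or.inl h)))))
  · exact Or.inr (Or.inr (Or.inr (Or.inr (Or.inr (Or.inr (Or.inl ⟨k, hk, rfl⟩))))))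
  · refine Or.inr (Or.inr (Or.inr (Or.inr (Or.inr (Or.inr (Or.inr ?_))))))
    obtain ⟨h1, h2⟩ := f3_inL hg hL.2
    omega

private theorem f3_CO_ends (p : ℕ) : (-72 : ℤ) ∈ τ.CO p ∧ (-36 : ℤ) ∈ τ.CO p ∧
    (24 * (τ.Xr : ℤ) + 36) ∈ τ.CO p ∧ (24 * (τ.Xr : ℤ) + 72) ∈ τ.CO p := by
  unfold CO
  simp

private theorem f3_CE_ends (p : ℕ) : (-54 : ℤ) ∈ τ.CE p ∧ (-18 : ℤ) ∈ τ.CE p ∧
    (24 * (τ.Xr : ℤ) + 18) ∈ τ.CE p ∧ (24 * (τ.Xr : ℤ) + 54) ∈ τ.CE p := by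
  unfold CE
  simp

private theorem f3_CO_mid {p k : ℕ} (hk : k ≤ τ.Xr) (h : ¬ τ.intr p k) :
    (24 * (k : ℤ)) ∈ τ.CO p := by
  unfold CO
  refine Finset.mem_union_right _ (Finset.mem_union_left _ ?_)
  rw [Finset.mem_image]
  exact ⟨k, Finset.mem_filter.2 ⟨Finset.mem_range.2 (by omega), h⟩, rfl⟩

private theorem f3_zero (hg : τ.Good) (p : ℕ) : (0 : ℤ) ∈ τ.CO p := by
  have := f3_CO_mid (τ := τ) (p := p) (k := 0) (by omega) (fun h => by
    have := f3_inL hg h.2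
    omega)
  simpa using this

private theorem f3_Xr (hg : τ.Good) (p : ℕ) : (24 * (τ.Xr : ℤ)) ∈ τ.CO p :=
  f3_CO_mid le_rfl (fun h => by
    have := f3_inL hg h.2
    omega)

private theorem f3_Xr1 (hg : τ.Good) (p : ℕ) : (24 * (τ.Xr : ℤ) - 24) ∈ τ.CO p := by
  have hX := hg.Xr_ge
  have := f3_CO_mid (τ := τ) (p := p) (k := τ.Xr - 1) (by omega) (fun h => by
    have := f3_inL hg h.2
    omega)
  have e : (24 * ((τ.Xr - 1 : ℕ) : ℤ)) = 24 * (τ.Xr : ℤ) - 24 := by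
    have : ((τ.Xr - 1 : ℕ) : ℤ) = (τ.Xr : ℤ) - 1 := by omega
    rw [this]
    ring
  rwa [e] at this

private theorem f3_pe_ne {p : ℕ} {x y : ℤ} (h : x ≠ y) : τ.pe p x ≠ τ.pe p y := by
  intro he
  have h1 := (par_inj he).1
  have h2 := nu_pos (τ := τ)
  exact h (mul_left_cancel₀ (by omega) h1)

/-- the orientation of two even points and an odd point of the same row -/
private theorem f3_cr {p : ℕ} {x y z : ℤ} (h : 0 < cr (τ.pe p x) (τ.pe p y) (τ.po p z)) :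
    0 < ori x 0 y 0 z 864 := by
  unfold pe po at h
  rw [cr_par] at h
  have h1 : 0 < ori (τ.nu * x) (τ.Lam (τ.i0 + 2 * p)) (τ.nu * y) (τ.Lam (τ.i0 + 2 * p)) (τ.nu * z)
      (τ.Lam (τ.i0 + 2 * p + 1)) := by exact_mod_cast h
  have e1 : τ.Lam (τ.i0 + 2 * p) = (τ.Lam τ.i0 + τ.nu ^ 2 * (1210 * p)) + τ.nu ^ 2 * 0 := by
    rw [Lam_even]
    ring
  have e2 : τ.Lam (τ.i0 + 2 * p + 1) =
      (τ.Lam τ.i0 + τ.nu ^ 2 * (1210 * p)) + τ.nu ^ 2 * 864 := by
    rw [Lam_odd]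
    ring
  rw [e1, e2, ori_scale] at h1
  have h2 : 0 < τ.nu ^ 3 := pow_pos (by have := nu_pos (τ := τ); omega) 3
  exact pos_of_mul_pos_right h1 h2.le

theorem margin_left (hg : τ.Good) (F : TriFacts τ.i0 τ.P τ.C V succ apex) {p : ℕ} (hp : p < τ.P) :
    τ.po p (-72) ∈ V (τ.i0 + 2 * p + 1) ∧ τ.po p (-36) ∈ V (τ.i0 + 2 * p + 1) ∧
    τ.po p 0 ∈ V (τ.i0 + 2 * p + 1) ∧
    apex (τ.po p (-72)) = τ.pe p (-54) ∧ apex (τ.po p (-36)) = τ.pe p (-18) := by
  have hX : (24 : ℤ) ≤ τ.Xr := by exact_mod_cast hg.Xr_ge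
  obtain ⟨m72, m36, mr36, mr72⟩ := f3_CO_ends (τ := τ) p
  obtain ⟨m54, m18, -, -⟩ := f3_CE_ends (τ := τ) p
  have m0 := f3_zero hg p
  have hi2 : 2 ≤ τ.i0 + 2 * p + 1 := by unfold i0; omega
  -- the vertex which sees `-54`
  have s1 : τ.po p (-72) ∈ V (τ.i0 + 2 * p + 1) ∧ τ.po p (-36) ∈ V (τ.i0 + 2 * p + 1) ∧
      apex (τ.po p (-72)) = τ.pe p (-54) := by
    obtain ⟨v, hv, v', hv', hlt, hno, h1, h2, -, h3, h4⟩ :=
      onto_shallow hg F hp m54 (by omega) (by omega)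
    have hva : v = -72 := by
      by_contra hne
      have hv2 : -36 ≤ v := by
        rcases f3_CO hg hv with h | h | h | h | ⟨k, -, h⟩ | h <;> omega
      have hv'2 : 0 ≤ v' := by
        rcases f3_CO hg hv' with h | h | h | h | ⟨k, -, h⟩ | h <;> omega
      nlinarith [mul_nonneg (by omega : 0 ≤ v + 36) (by omega : 0 ≤ v' + 54)]
    subst hva
    have hv'a : v' = -36 := by
      have := hno (-36) m36
      rcases f3_CO hg hv' with h | h | h | h | ⟨k, -, h⟩ | h <;> omega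
    subst hv'a
    exact ⟨h1, h2, h3⟩
  obtain ⟨a1, a2, a3⟩ := s1
  -- the vertex which sees `-18`
  have s2 : τ.po p 0 ∈ V (τ.i0 + 2 * p + 1) ∧
      (apex (τ.po p (-36)) = τ.pe p (-18) ∨ apex (τ.po p 0) = τ.pe p (-18)) := by
    obtain ⟨v, hv, v', hv', hlt, hno, h1, h2, -, h3, h4⟩ :=
      onto_shallow hg F hp m18 (by omega) (by omega)
    have hv72 : v ≠ -72 := by
      rintro rfl
      have hv'a : v' = -36 := by
        have := hno (-36) m36
        rcases f3_CO hg hv' with h | h | h | h | ⟨k, -, h⟩ | h <;> omega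
      subst hv'a
      omega
    by_cases hv36 : v = -36
    · subst hv36
      have hv'a : v' = 0 := by
        have := hno 0 m0
        rcases f3_CO hg hv' with h | h | h | h | ⟨k, -, h⟩ | h <;> omega
      subst hv'a
      exact ⟨h2, Or.inl h3⟩
    · have hv0 : v = 0 := by
        by_contra hne
        have hv2 : 24 ≤ v := by
          rcases f3_CO hg hv with h | h | h | h | ⟨k, -, h⟩ | h <;> omega
        nlinarith [mul_nonneg (by omega : 0 ≤ v - 24) (by omega : 0 ≤ v' + 18)]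
      subst hv0
      exact ⟨h1, Or.inr h3⟩
  obtain ⟨b1, b2⟩ := s2
  refine ⟨a1, a2, b1, a3, ?_⟩
  rcases b2 with b2 | b2
  · exact b2
  have hbetween : ∀ x ∈ τ.CO p, -36 < x → x < 0 → False := by
    intro x hx h1 h2
    rcases f3_CO hg hx with h | h | h | h | ⟨k, -, h⟩ | h <;> omega
  have hs : succ (τ.po p (-36)) = τ.po p 0 :=
    succ_odd hg F hp m36 m0 a2 b1 (by omega) (fun x hx h1 h2 => (hbetween x hx h1 h2).elim)
  rcases vis_odd hg F hp m36 m0 a2 (by omega) hs with ⟨y, hy, hap, hlt⟩ | ⟨y, hy, -, -, h1, h2⟩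
  swap
  · exact (hbetween y hy h1 h2).elim
  by_cases hy18 : y = -18
  · rw [hap, hy18]
  exfalso
  have hy12 : y = 12 := by
    rcases f3_CE hg hy with h | h | h | h | h | h | ⟨k, hk, h⟩ | h
    · subst h; omega
    · subst h; omega
    · exact absurd h hy18
    · nlinarith [mul_nonneg (by omega : 0 ≤ y - 100) (by omega : 0 ≤ y)]
    · nlinarith [mul_nonneg (by omega : 0 ≤ y - 100) (by omega : 0 ≤ y)]
    · nlinarith [mul_nonneg (by omega : 0 ≤ y - 100) (by omega : 0 ≤ y)]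
    · by_contra hne
      nlinarith [mul_nonneg (by omega : 0 ≤ y - 36) (by omega : 0 ≤ y)]
    · nlinarith [mul_nonneg (by omega : 0 ≤ y - 100) (by omega : 0 ≤ y)]
  subst hy12
  rcases F.walk (τ.i0 + 2 * p + 1) (τ.po p (-36)) hi2 (by omega) a2 with hw | ⟨-, hw⟩
  · rw [hs, b2, hap] at hw
    exact f3_pe_ne (by omega) hw
  · rw [hs, b2, hap] at hw
    have := f3_cr hw
    unfold ori at this
    omega

theorem margin_right (hg : τ.Good) (F : TriFacts τ.i0 τ.P τ.C V succ apex) {p : ℕ} (hp : p < τ.P) :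
    τ.po p (24 * τ.Xr) ∈ V (τ.i0 + 2 * p + 1) ∧
    τ.po p (24 * τ.Xr + 36) ∈ V (τ.i0 + 2 * p + 1) ∧
    τ.po p (24 * τ.Xr + 72) ∈ V (τ.i0 + 2 * p + 1) ∧
    apex (τ.po p (24 * τ.Xr)) = τ.pe p (24 * τ.Xr + 18) ∧
    apex (τ.po p (24 * τ.Xr + 36)) = τ.pe p (24 * τ.Xr + 54) := by
  have hX : (24 : ℤ) ≤ τ.Xr := by exact_mod_cast hg.Xr_ge
  obtain ⟨m72, m36, mr36, mr72⟩ := f3_CO_ends (τ := τ) p
  obtain ⟨-, -, m18, m54⟩ := f3_CE_ends (τ := τ) p
  have m0 := f3_Xr hg p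
  have m1 := f3_Xr1 hg p
  have hi2 : 2 ≤ τ.i0 + 2 * p + 1 := by unfold i0; omega
  -- the vertex which sees `24 Xr + 54`
  have s1 : τ.po p (24 * τ.Xr + 36) ∈ V (τ.i0 + 2 * p + 1) ∧
      τ.po p (24 * τ.Xr + 72) ∈ V (τ.i0 + 2 * p + 1) ∧
      apex (τ.po p (24 * τ.Xr + 36)) = τ.pe p (24 * τ.Xr + 54) := by
    obtain ⟨v, hv, v', hv', hlt, hno, h1, h2, -, h3, h4⟩ :=
      onto_shallow hg F hp m54 (by omega) (by omega)
    have hva : v' = 24 * τ.Xr + 72 := by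
      by_contra hne
      have hv'2 : v' ≤ 24 * τ.Xr + 36 := by
        rcases f3_CO hg hv' with h | h | h | h | ⟨k, hk, h⟩ | h <;> omega
      have hv2 : v ≤ 24 * τ.Xr := by
        rcases f3_CO hg hv with h | h | h | h | ⟨k, hk, h⟩ | h <;> omega
      nlinarith [mul_nonneg (by omega : 0 ≤ 24 * (τ.Xr : ℤ) + 36 - v')
        (by omega : 0 ≤ 24 * (τ.Xr : ℤ) + 54 - v)]
    subst hva
    have hv'a : v = 24 * τ.Xr + 36 := by
      have := hno _ mr36
      rcases f3_CO hg hv with h | h | h | h | ⟨k, hk, h⟩ | h <;> omega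
    subst hv'a
    exact ⟨h1, h2, h3⟩
  obtain ⟨a1, a2, a3⟩ := s1
  -- the vertex which sees `24 Xr + 18`
  have s2 : τ.po p (24 * τ.Xr) ∈ V (τ.i0 + 2 * p + 1) ∧
      (apex (τ.po p (24 * τ.Xr)) = τ.pe p (24 * τ.Xr + 18) ∨
        (τ.po p (24 * τ.Xr - 24) ∈ V (τ.i0 + 2 * p + 1) ∧
          succ (τ.po p (24 * τ.Xr - 24)) = τ.po p (24 * τ.Xr) ∧
          apex (τ.po p (24 * τ.Xr - 24)) = τ.pe p (24 * τ.Xr + 18))) := by
    obtain ⟨v, hv, v', hv', hlt, hno, h1, h2, hsc, h3, h4⟩ :=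
      onto_shallow hg F hp m18 (by omega) (by omega)
    have hv72 : v' ≠ 24 * τ.Xr + 72 := by
      rintro rfl
      have hv'a : v = 24 * τ.Xr + 36 := by
        have := hno _ mr36
        rcases f3_CO hg hv with h | h | h | h | ⟨k, hk, h⟩ | h <;> omega
      subst hv'a
      have e : (24 * (τ.Xr : ℤ) + 18 - (24 * τ.Xr + 36)) * (24 * τ.Xr + 18 - (24 * τ.Xr + 72)) =
        972 := by ring
      omega
    by_cases hv36 : v' = 24 * τ.Xr + 36
    · subst hv36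
      have hv'a : v = 24 * τ.Xr := by
        have := hno _ m0
        rcases f3_CO hg hv with h | h | h | h | ⟨k, hk, h⟩ | h <;> omega
      subst hv'a
      exact ⟨h1, Or.inl h3⟩
    · have hv0 : v' = 24 * τ.Xr := by
        by_contra hne
        have hv2 : v' ≤ 24 * τ.Xr - 24 := by
          rcases f3_CO hg hv' with h | h | h | h | ⟨k, hk, h⟩ | h <;> omega
        nlinarith [mul_nonneg (by omega : 0 ≤ 24 * (τ.Xr : ℤ) - 24 - v')
          (by omega : 0 ≤ 24 * (τ.Xr : ℤ) + 18 - v)]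
      subst hv0
      have hv'a : v = 24 * τ.Xr - 24 := by
        have := hno _ m1
        rcases f3_CO hg hv with h | h | h | h | ⟨k, hk, h⟩ | h <;> omega
      subst hv'a
      exact ⟨h2, Or.inr ⟨h1, hsc, h3⟩⟩
  obtain ⟨b1, b2⟩ := s2
  refine ⟨b1, a1, a2, ?_, a3⟩
  rcases b2 with b2 | ⟨b2, b3, b4⟩
  · exact b2
  have hbetween : ∀ x ∈ τ.CO p, 24 * (τ.Xr : ℤ) < x → x < 24 * τ.Xr + 36 → False := by
    intro x hx h1 h2
    rcases f3_CO hg hx with h | h | h | h | ⟨k, hk, h⟩ | h <;> omega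
  have hs : succ (τ.po p (24 * τ.Xr)) = τ.po p (24 * τ.Xr + 36) :=
    succ_odd hg F hp m0 mr36 b1 a1 (by omega) (fun x hx h1 h2 => (hbetween x hx h1 h2).elim)
  rcases vis_odd hg F hp m0 mr36 b1 (by omega) hs with ⟨y, hy, hap, hlt⟩ | ⟨y, hy, -, -, h1, h2⟩
  swap
  · exact (hbetween y hy h1 h2).elim
  by_cases hy18 : y = 24 * τ.Xr + 18
  · rw [hap, hy18]
  exfalso
  have hy12 : y = 24 * τ.Xr - 12 := by
    rcases f3_CE hg hy with h | h | h | h | h | h | ⟨k, hk, h⟩ | h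
    · nlinarith [mul_nonneg (by omega : 0 ≤ 24 * (τ.Xr : ℤ) - y - 100)
        (by omega : 0 ≤ 24 * (τ.Xr : ℤ) - y)]
    · nlinarith [mul_nonneg (by omega : 0 ≤ 24 * (τ.Xr : ℤ) - y - 100)
        (by omega : 0 ≤ 24 * (τ.Xr : ℤ) - y)]
    · nlinarith [mul_nonneg (by omega : 0 ≤ 24 * (τ.Xr : ℤ) - y - 100)
        (by omega : 0 ≤ 24 * (τ.Xr : ℤ) - y)]
    · exact absurd h hy18
    · subst h
      have e : (24 * (τ.Xr : ℤ) + 54 - 24 * τ.Xr) * (24 * τ.Xr + 54 - (24 * τ.Xr + 36)) = 972 := by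
        ring
      omega
    · subst h
      have e : (24 * (τ.Xr : ℤ) + 90 - 24 * τ.Xr) * (24 * τ.Xr + 90 - (24 * τ.Xr + 36)) =
        4860 := by ring
      omega
    · by_contra hne
      nlinarith [mul_nonneg (by omega : 0 ≤ 24 * (τ.Xr : ℤ) - 36 - y)
        (by omega : 0 ≤ 24 * (τ.Xr : ℤ) - y)]
    · nlinarith [mul_nonneg (by omega : 0 ≤ 24 * (τ.Xr : ℤ) - y - 100)
        (by omega : 0 ≤ 24 * (τ.Xr : ℤ) - y)]
  subst hy12
  rcases F.walk (τ.i0 + 2 * p + 1) (τ.po p (24 * τ.Xr - 24)) hi2 (by omega) b2 with hw | ⟨-, hw⟩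
  · rw [b3, b4, hap] at hw
    exact f3_pe_ne (by omega) hw
  · rw [b3, b4, hap] at hw
    have h5 := f3_cr hw
    have e : ori (24 * (τ.Xr : ℤ) + 18) 0 (24 * τ.Xr - 12) 0 (24 * τ.Xr) 864 = -19440 := by
      unfold ori
      ring
    rw [e] at h5
    omega

end Tab

end Pool.Agent.Helper70.MD
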