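import Pool.Agent.Helper70.MD.F3

/-!
MD-F4: enumeration of the odd layers, and the paths between consecutive layers.

`exists_enum`. Let `W = {x ∈ CO p | po p x ∈ V (i0 + 2p+1)}`. Its smallest elements are `-72, -36, 0` and
its largest are `24 Xr, 24 Xr + 36, 24 Xr + 72` (they are in `W` by F3, and `CO p` has no other
elements `≤ 0` or `≥ 24 Xr`). Let `w` enumerate `W` increasingly, `#W = n + 4`. `succ_w`: `succ_odd`.
`n_ge`: put `j = i0 + 2 p`. For `x ∈ CO p`, `x ∉ W` the point `po p x` is in `V j` and not in `C j`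
(`F.pair`, disjointness of the rings (`rings`, field `disj`)). `#(V j) = 6 j + 3` and
`#(C j) = 1 + K j + #(CE p) + Rn j = 6 j + 3 - (Xr + 6) + #(CE p)` (`K_md_le`). So
`#(CO p) - (n + 4) ≤ Xr + 6 - #(CE p)`, and with `card_CE_CO`: `n ≥ Xr + 1`.

`row_ends`: `F.walk` at `po p (-72)` (level `i0 + 2p+1 ≥ 2`): `apex (succ (po p (-72))) =
apex (po p (-36)) = pe p (-18)` is not `apex (po p (-72)) = pe p (-54)`, so it is
`succ (pe p (-54))`. In the same way at `po p (24 Xr)`:
`succ (pe p (24 Xr + 18)) = pe p (24 Xr + 54)`.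
`row_path`: the sequence `f i = apex (po p (w i))`, `1 ≤ i ≤ n + 1` starts at `pe p (-18)`, ends at
`pe p (24 Xr + 18)` and by `F.walk` each step stays or applies `succ`; there are `n` steps.
`top_ends`, `top_path`: `succ_top` (the elements of `CE P` are
`-90, -54, -18, 12, 36, ..., 24 Xr - 12, 24 Xr + 18, 24 Xr + 54, 24 Xr + 90`).
`n_le_path`: the apex of `pe (p+1) (-54)` is by `vis_even` `po p x` with `(x + 54)(x + 18) < 346`,
`x ∈ CO p`: `x = -36` (`-72` and `0` give `972`); in the same way the apex of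
`pe (p+1) (24 Xr + 18)` is `po p (24 Xr + 36)`. Let `g 0 = apex (pe (p+1) (-54)) = po p (w 1)` and
`g (j+1) = apex (succ^[j] (pe (p+1) (-18)))`. By `F.walk` (at `pe (p+1) (-54)` and at
`succ^[j] (pe (p+1) (-18))`, level `i0 + 2(p+1)`; all these points are in that layer by
`F.succ_mem`) `g (j+1) = g j` or `g (j+1) = succ (g j)`. `g (t+1) = po p (w (n+2))`. By induction for
`j ≤ min (t+1) (n+2)` there is `m ≤ j` with `g j = po p (w (1 + m))` (`succ_w`). If `t < n` then at
`j = t + 1` `w (1 + m) = w (n + 2)` with `1 + m ≤ n + 1`: contradiction to strict monotonicity. If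
`t = n` then at `j = n + 1` we have `m = n + 1 = j`, and since the index grows by at most one at each
step (the indices are determined by injectivity) it is `j` at each step: `g j = po p (w (1 + j))` for
`j ≤ n + 1`.
-/

set_option autoImplicit false

namespace Pool.Agent.Helper70.MD

open Finset

open scoped Classical

namespace Tab

variable {τ : Tab} {V : ℕ → Finset Pt} {succ apex : Pt → Pt}

/-! ### membership -/

theorem f4_CO_cases (hg : τ.Good) {p : ℕ} {x : ℤ} (hx : x ∈ τ.CO p) :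
    (x = -72 ∨ x = -36 ∨ 0 ≤ x) ∧
      (x ≤ 24 * τ.Xr ∨ x = 24 * τ.Xr + 36 ∨ x = 24 * τ.Xr + 72) := by
  have hX := hg.Xr_ge
  unfold CO at hx
  rcases mem_union.1 hx with h | h
  · simp only [mem_insert, mem_singleton] at h
    rcases h with h | h | h | h <;> omega
  · rcases mem_union.1 h with h | h
    · obtain ⟨k, hk, rfl⟩ := mem_image.1 h
      have := (mem_filter.1 hk).1
      rw [mem_range] at this
      omega
    · obtain ⟨k, hk, rfl⟩ := mem_image.1 h
      obtain ⟨h1, h2⟩ := mem_filter.1 hk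
      rw [mem_range] at h1
      have h3 : 8 ≤ k := by
        by_contra h3
        exact h2 (hg.none_left p k (by omega))
      have h4 : k + 8 < τ.Xr := by
        by_contra h4
        exact h2 (hg.none_right p k (by omega))
      obtain ⟨s, hs⟩ := Option.ne_none_iff_exists'.1 h2
      have h5 : τ.shift p k = s := by
        unfold shift
        rw [hs]
        rfl
      have h6 := hg.bound p k s hs
      rw [h5]
      omega

theorem f4_CO_margin {p : ℕ} : (-72 : ℤ) ∈ τ.CO p ∧ (-36 : ℤ) ∈ τ.CO p ∧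
    (24 * (τ.Xr : ℤ) + 36) ∈ τ.CO p ∧ (24 * (τ.Xr : ℤ) + 72) ∈ τ.CO p := by
  unfold CO
  refine ⟨?_, ?_, ?_, ?_⟩ <;> exact mem_union_left _ (by simp)

theorem f4_CE_margin {p : ℕ} : (-54 : ℤ) ∈ τ.CE p ∧ (-18 : ℤ) ∈ τ.CE p ∧
    (24 * (τ.Xr : ℤ) + 18) ∈ τ.CE p ∧ (24 * (τ.Xr : ℤ) + 54) ∈ τ.CE p := by
  unfold CE
  refine ⟨?_, ?_, ?_, ?_⟩ <;> exact mem_union_left _ (by simp)

theorem f4_CO_zero (hg : τ.Good) {p : ℕ} : (0 : ℤ) ∈ τ.CO p := by
  unfold CO
  refine mem_union_right _ (mem_union_left _ (mem_image.2 ⟨0, mem_filter.2 ⟨by simp, ?_⟩, by simp⟩))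
  rintro ⟨-, h⟩
  exact h (hg.none_left p 0 (by norm_num))

theorem f4_CO_last (hg : τ.Good) {p : ℕ} : (24 * (τ.Xr : ℤ)) ∈ τ.CO p := by
  unfold CO
  refine mem_union_right _ (mem_union_left _ (mem_image.2 ⟨τ.Xr, mem_filter.2 ⟨by simp, ?_⟩, rfl⟩))
  rintro ⟨-, h⟩
  exact h (hg.none_right p τ.Xr (by omega))

theorem f4_Cm_even (p : ℕ) : τ.Cm (τ.i0 + 2 * p) = τ.CE p := by
  unfold Cm
  rw [if_neg (by omega), if_pos (by omega)]
  congr 1
  omega

theorem f4_Cm_odd (p : ℕ) : τ.Cm (τ.i0 + 2 * p + 1) = τ.CO p := by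
  unfold Cm
  rw [if_neg (by omega), if_neg (by omega)]
  congr 1
  omega

theorem f4_i0_pos : 8 ≤ τ.i0 := by
  unfold i0
  omega

theorem f4_po_mem {p : ℕ} {x : ℤ} (hx : x ∈ τ.CO p) : τ.po p x ∈ τ.C (τ.i0 + 2 * p + 1) := by
  unfold C
  rw [if_neg (by omega)]
  refine mem_insert_of_mem (mem_image.2 ⟨τ.nu * x, ?_, rfl⟩)
  unfold Xs
  refine mem_union_right _ (mem_union_left _ (mem_image.2 ⟨x, ?_, rfl⟩))
  rw [f4_Cm_odd]
  exact hx

theorem f4_pe_mem {p : ℕ} {x : ℤ} (hx : x ∈ τ.CE p) : τ.pe p x ∈ τ.C (τ.i0 + 2 * p) := by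
  have := f4_i0_pos (τ := τ)
  unfold C
  rw [if_neg (by omega)]
  refine mem_insert_of_mem (mem_image.2 ⟨τ.nu * x, ?_, rfl⟩)
  unfold Xs
  refine mem_union_right _ (mem_union_left _ (mem_image.2 ⟨x, ?_, rfl⟩))
  rw [f4_Cm_even]
  exact hx

theorem f4_po_inj {p : ℕ} {x y : ℤ} (h : τ.po p x = τ.po p y) : x = y := by
  have h1 := (par_inj h).1
  have h2 := nu_pos (τ := τ)
  exact mul_left_cancel₀ (by omega) h1

theorem f4_pe_inj {p : ℕ} {x y : ℤ} (h : τ.pe p x = τ.pe p y) : x = y := by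
  have h1 := (par_inj h).1
  have h2 := nu_pos (τ := τ)
  exact mul_left_cancel₀ (by omega) h1

theorem f4_pe_memV (F : TriFacts τ.i0 τ.P τ.C V succ apex) {p : ℕ} (hp : p ≤ τ.P) {x : ℤ}
    (hx : x ∈ τ.CE p) : τ.pe p x ∈ V (τ.i0 + 2 * p) := by
  rcases Nat.lt_or_ge p τ.P with h | h
  · exact F.even_sub p h (f4_pe_mem hx)
  · have h1 : p = τ.P := le_antisymm hp h
    subst h1
    rw [F.top]
    exact f4_pe_mem hx

/-- increasing enumeration of a finite set of integers -/
theorem f4_enum (W : Finset ℤ) : ∃ w : ℕ → ℤ, (∀ i < #W, w i ∈ W) ∧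
    (∀ i j, i < j → j < #W → w i < w j) ∧
    ∀ x ∈ W, #{y ∈ W | y < x} < #W ∧ w #{y ∈ W | y < x} = x := by
  refine ⟨fun i => if h : i < #W then W.orderEmbOfFin rfl ⟨i, h⟩ else 0, ?_, ?_, ?_⟩
  · intro i hi
    simp only [dif_pos hi]
    exact W.orderEmbOfFin_mem rfl _
  · intro i j hij hj
    simp only [dif_pos hj, dif_pos (hij.trans hj)]
    exact (W.orderEmbOfFin rfl).strictMono hij
  · intro x hx
    have h1 : x ∈ Set.range (W.orderEmbOfFin rfl) := by
      rw [Finset.range_orderEmbOfFin]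
      exact hx
    obtain ⟨i, rfl⟩ := h1
    have h2 : #{y ∈ W | y < W.orderEmbOfFin rfl i} = i.1 := by
      have h3 : ({y ∈ W | y < W.orderEmbOfFin rfl i} : Finset ℤ) =
          (Finset.univ.filter (fun j => j < i)).image (W.orderEmbOfFin rfl) := by
        ext y
        simp only [mem_filter, mem_image, mem_univ, true_and]
        constructor
        · rintro ⟨hy, hlt⟩
          have h4 : y ∈ Set.range (W.orderEmbOfFin rfl) := by
            rw [Finset.range_orderEmbOfFin]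
            exact hy
          obtain ⟨j, rfl⟩ := h4
          exact ⟨j, (W.orderEmbOfFin rfl).lt_iff_lt.1 hlt, rfl⟩
        · rintro ⟨j, hj, rfl⟩
          exact ⟨W.orderEmbOfFin_mem rfl _, (W.orderEmbOfFin rfl).strictMono hj⟩
      rw [h3, card_image_of_injective _ (W.orderEmbOfFin rfl).injective]
      have h5 : (Finset.univ.filter (fun j : Fin #W => j < i)) = Finset.Iio i := by
        ext j
        simp
      rw [h5, Fin.card_Iio]
    rw [h2]
    exact ⟨i.2, by simp [i.2]⟩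

theorem exists_enum (hg : τ.Good) (F : TriFacts τ.i0 τ.P τ.C V succ apex) {p : ℕ} (hp : p < τ.P) :
    ∃ n w, τ.Enum V succ p n w := by
  obtain ⟨ml1, ml2, ml3, ml4, ml5⟩ := margin_left hg F hp
  obtain ⟨mr1, mr2, mr3, mr4, mr5⟩ := margin_right hg F hp
  obtain ⟨c1, c2, c3, c4⟩ := f4_CO_margin (τ := τ) (p := p)
  have hX := hg.Xr_ge
  set W : Finset ℤ := {x ∈ τ.CO p | τ.po p x ∈ V (τ.i0 + 2 * p + 1)} with hW
  have hWm : ∀ x, x ∈ W ↔ x ∈ τ.CO p ∧ τ.po p x ∈ V (τ.i0 + 2 * p + 1) := fun x => mem_filter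
  obtain ⟨w, hw1, hw2, hw3⟩ := f4_enum W
  have m1 : (-72 : ℤ) ∈ W := (hWm _).2 ⟨c1, ml1⟩
  have m2 : (-36 : ℤ) ∈ W := (hWm _).2 ⟨c2, ml2⟩
  have m3 : (0 : ℤ) ∈ W := (hWm _).2 ⟨f4_CO_zero hg, ml3⟩
  have m4 : (24 * (τ.Xr : ℤ)) ∈ W := (hWm _).2 ⟨f4_CO_last hg, mr1⟩
  have m5 : (24 * (τ.Xr : ℤ) + 36) ∈ W := (hWm _).2 ⟨c3, mr2⟩
  have m6 : (24 * (τ.Xr : ℤ) + 72) ∈ W := (hWm _).2 ⟨c4, mr3⟩
  have hcase : ∀ x ∈ W, (x = -72 ∨ x = -36 ∨ 0 ≤ x) ∧
      (x ≤ 24 * τ.Xr ∨ x = 24 * τ.Xr + 36 ∨ x = 24 * τ.Xr + 72) := fun x hx =>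
    f4_CO_cases hg ((hWm x).1 hx).1
  -- the size
  have hcard : τ.Xr + 5 ≤ #W := by
    have k1 : ∀ x ∈ τ.CO p \ W, τ.po p x ∈ V (τ.i0 + 2 * p) \ τ.C (τ.i0 + 2 * p) := by
      intro x hx
      obtain ⟨hx1, hx2⟩ := mem_sdiff.1 hx
      have h1 : τ.po p x ∉ V (τ.i0 + 2 * p + 1) := fun h => hx2 ((hWm x).2 ⟨hx1, h⟩)
      have h2 : τ.po p x ∈ V (τ.i0 + 2 * p) ∪ V (τ.i0 + 2 * p + 1) := by
        rw [F.pair p hp]
        exact mem_union_right _ (f4_po_mem hx1)
      refine mem_sdiff.2 ⟨(mem_union.1 h2).resolve_right h1, ?_⟩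
      intro h3
      have := (rings hg).disj (τ.i0 + 2 * p) (τ.i0 + 2 * p + 1) _ (by omega) (by omega) h3
        (f4_po_mem hx1)
      omega
    have k2 : #(τ.CO p \ W) ≤ #(V (τ.i0 + 2 * p) \ τ.C (τ.i0 + 2 * p)) := by
      apply card_le_card_of_injOn (τ.po p)
      · intro x hx
        exact k1 x hx
      · intro x _ y _ hxy
        exact f4_po_inj hxy
    have k3 : W ⊆ τ.CO p := filter_subset _ _
    have k4 := card_sdiff_of_subset k3
    have k5 := card_sdiff_of_subset (F.even_sub p hp)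
    have k6 := F.card (τ.i0 + 2 * p) (by omega)
    have k7 := card_C hg (i := τ.i0 + 2 * p) (by have := f4_i0_pos (τ := τ); omega)
      (by unfold M; omega)
    have k8 := card_Xs hg (i := τ.i0 + 2 * p) (by have := f4_i0_pos (τ := τ); omega)
      (by unfold M; omega)
    rw [f4_Cm_even] at k8
    have k9 := K_md_le (τ := τ) (i := τ.i0 + 2 * p) (by have := f4_i0_pos (τ := τ); omega)
    have k10 : τ.md (τ.i0 + 2 * p) = τ.Xr + 6 := by
      unfold md
      rw [if_neg (by omega), if_pos (by omega)]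
    have k11 := card_CE_CO hg p
    have k12 := card_le_card k3
    have k13 := card_le_card (F.even_sub p hp)
    omega
  obtain ⟨n, hn⟩ : ∃ n, #W = n + 4 := ⟨#W - 4, by omega⟩
  have hpos : ∀ x ∈ W, ∀ i, #{y ∈ W | y < x} = i → w i = x := by
    intro x hx i hi
    rw [← hi]
    exact (hw3 x hx).2
  have low0 : ({y ∈ W | y < -72} : Finset ℤ) = ∅ := by
    ext y
    simp only [mem_filter, notMem_empty, iff_false, not_and, not_lt]
    intro hy
    have := hcase y hy
    omega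
  have low1 : ({y ∈ W | y < -36} : Finset ℤ) = {-72} := by
    ext y
    simp only [mem_filter, mem_singleton]
    constructor
    · rintro ⟨hy, h⟩
      have := hcase y hy
      omega
    · rintro rfl
      exact ⟨m1, by norm_num⟩
  have low2 : ({y ∈ W | y < 0} : Finset ℤ) = {-72, -36} := by
    ext y
    simp only [mem_filter, mem_singleton, mem_insert]
    constructor
    · rintro ⟨hy, h⟩
      have := hcase y hy
      omega
    · rintro (rfl | rfl)
      · exact ⟨m1, by norm_num⟩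
      · exact ⟨m2, by norm_num⟩
  have high3 : ({y ∈ W | y < 24 * (τ.Xr : ℤ) + 72} : Finset ℤ) =
      W \ {24 * (τ.Xr : ℤ) + 72} := by
    ext y
    simp only [mem_filter, mem_sdiff, mem_singleton]
    constructor
    · rintro ⟨hy, h⟩
      exact ⟨hy, by omega⟩
    · rintro ⟨hy, h⟩
      have := hcase y hy
      exact ⟨hy, by omega⟩
  have high2 : ({y ∈ W | y < 24 * (τ.Xr : ℤ) + 36} : Finset ℤ) =
      W \ {24 * (τ.Xr : ℤ) + 36, 24 * (τ.Xr : ℤ) + 72} := by
    ext y
    simp only [mem_filter, mem_sdiff, mem_singleton, mem_insert]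
    constructor
    · rintro ⟨hy, h⟩
      exact ⟨hy, by omega⟩
    · rintro ⟨hy, h⟩
      have := hcase y hy
      exact ⟨hy, by omega⟩
  have high1 : ({y ∈ W | y < 24 * (τ.Xr : ℤ)} : Finset ℤ) =
      W \ {24 * (τ.Xr : ℤ), 24 * (τ.Xr : ℤ) + 36, 24 * (τ.Xr : ℤ) + 72} := by
    ext y
    simp only [mem_filter, mem_sdiff, mem_singleton, mem_insert]
    constructor
    · rintro ⟨hy, h⟩
      exact ⟨hy, by omega⟩
    · rintro ⟨hy, h⟩
      have := hcase y hy
      exact ⟨hy, by omega⟩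
  have hlt3 : ∀ i < n + 3, w i < w (i + 1) := fun i hi => hw2 i (i + 1) (by omega) (by omega)
  have hmemW : ∀ i ≤ n + 3, w i ∈ W := fun i hi => hw1 i (by omega)
  have hsurj : ∀ x ∈ W, ∃ i ≤ n + 3, w i = x := by
    intro x hx
    obtain ⟨h1, h2⟩ := hw3 x hx
    exact ⟨_, by omega, h2⟩
  refine ⟨n, w, ?_⟩
  refine ⟨hlt3, fun i hi => ((hWm _).1 (hmemW i hi)).1, fun i hi => ((hWm _).1 (hmemW i hi)).2,
    fun x hx hxV => hsurj x ((hWm x).2 ⟨hx, hxV⟩), ?_, ?_, ?_, ?_, ?_, ?_, ?_, by omega⟩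
  · exact hpos _ m1 0 (by rw [low0]; simp)
  · exact hpos _ m2 1 (by rw [low1]; simp)
  · exact hpos _ m3 2 (by rw [low2]; rfl)
  · apply hpos _ m4
    rw [high1, card_sdiff_of_subset (by
      intro y hy
      simp only [mem_insert, mem_singleton] at hy
      rcases hy with rfl | rfl | rfl
      · exact m4
      · exact m5
      · exact m6), hn, card_insert_of_notMem (by simp), card_insert_of_notMem (by simp),
      card_singleton]
    rfl
  · apply hpos _ m5
    rw [high2, card_sdiff_of_subset (by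
      intro y hy
      simp only [mem_insert, mem_singleton] at hy
      rcases hy with rfl | rfl
      · exact m5
      · exact m6), hn, card_insert_of_notMem (by simp), card_singleton]
    rfl
  · apply hpos _ m6
    rw [high3, card_sdiff_of_subset (by
      intro y hy
      rw [mem_singleton] at hy
      rw [hy]
      exact m6), hn, card_singleton]
    rfl
  · intro i hi
    have a1 := (hWm _).1 (hmemW i (by omega))
    have a2 := (hWm _).1 (hmemW (i + 1) (by omega))
    apply succ_odd hg F hp a1.1 a2.1 a1.2 a2.2 (hlt3 i hi)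
    intro x hx h1 h2 hxV
    obtain ⟨h3, h4⟩ := hw3 x ((hWm x).2 ⟨hx, hxV⟩)
    set j := #{y ∈ W | y < x} with hj
    rw [← h4] at h1 h2
    rcases Nat.lt_or_ge j (i + 1) with h5 | h5
    · rcases Nat.lt_or_ge j i with h6 | h6
      · have := hw2 j i h6 (by omega)
        omega
      · have : j = i := by omega
        rw [this] at h1
        omega
    · rcases Nat.lt_or_ge (i + 1) j with h6 | h6
      · have := hw2 (i + 1) j h6 h3
        omega
      · have : j = i + 1 := by omega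
        rw [this] at h2
        omega

theorem row_ends (hg : τ.Good) (F : TriFacts τ.i0 τ.P τ.C V succ apex) {p : ℕ} (hp : p < τ.P) :
    succ (τ.pe p (-54)) = τ.pe p (-18) ∧
    succ (τ.pe p (24 * τ.Xr + 18)) = τ.pe p (24 * τ.Xr + 54) := by
  obtain ⟨ml1, ml2, ml3, ml4, ml5⟩ := margin_left hg F hp
  obtain ⟨mr1, mr2, mr3, mr4, mr5⟩ := margin_right hg F hp
  obtain ⟨c1, c2, c3, c4⟩ := f4_CO_margin (τ := τ) (p := p)
  have hi0 := f4_i0_pos (τ := τ)
  constructor
  · have h1 : succ (τ.po p (-72)) = τ.po p (-36) := by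
      apply succ_odd hg F hp c1 c2 ml1 ml2 (by norm_num)
      intro x hx h1 h2
      have := f4_CO_cases hg hx
      omega
    have h2 := F.walk (τ.i0 + 2 * p + 1) (τ.po p (-72)) (by omega) (by omega) ml1
    rw [h1, ml4, ml5] at h2
    rcases h2 with h2 | h2
    · have := f4_pe_inj h2
      omega
    · exact h2.1.symm
  · have h1 : succ (τ.po p (24 * τ.Xr)) = τ.po p (24 * τ.Xr + 36) := by
      apply succ_odd hg F hp (f4_CO_last hg) c3 mr1 mr2 (by omega)
      intro x hx h1 h2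
      have := f4_CO_cases hg hx
      omega
    have h2 := F.walk (τ.i0 + 2 * p + 1) (τ.po p (24 * τ.Xr)) (by omega) (by omega) mr1
    rw [h1, mr4, mr5] at h2
    rcases h2 with h2 | h2
    · have := f4_pe_inj h2
      omega
    · exact h2.1.symm

theorem row_path (hg : τ.Good) (F : TriFacts τ.i0 τ.P τ.C V succ apex) {p : ℕ} (hp : p < τ.P)
    {n : ℕ} {w : ℕ → ℤ} (hw : τ.Enum V succ p n w) :
    ∃ t ≤ n, succ^[t] (τ.pe p (-18)) = τ.pe p (24 * τ.Xr + 18) := by
  obtain ⟨ml1, ml2, ml3, ml4, ml5⟩ := margin_left hg F hp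
  obtain ⟨mr1, mr2, mr3, mr4, mr5⟩ := margin_right hg F hp
  have hi0 := f4_i0_pos (τ := τ)
  have key : ∀ i ≤ n, ∃ t ≤ i, succ^[t] (τ.pe p (-18)) = apex (τ.po p (w (i + 1))) := by
    intro i
    induction i with
    | zero =>
      intro _
      refine ⟨0, le_rfl, ?_⟩
      rw [zero_add, hw.w1, ml5]
      rfl
    | succ i ih =>
      intro hi
      obtain ⟨t, ht, h⟩ := ih (by omega)
      have h2 := F.walk (τ.i0 + 2 * p + 1) (τ.po p (w (i + 1))) (by omega) (by omega)
        (hw.memV (i + 1) (by omega))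
      rw [hw.succ_w (i + 1) (by omega)] at h2
      rcases h2 with h2 | h2
      · exact ⟨t, by omega, by rw [h2, h]⟩
      · refine ⟨t + 1, by omega, ?_⟩
        rw [Function.iterate_succ_apply', h, h2.1]
  obtain ⟨t, ht, h⟩ := key n le_rfl
  refine ⟨t, ht, ?_⟩
  rw [h, hw.wn1, mr4]

theorem f4_CE_P (hg : τ.Good) {x : ℤ} (hx : x ∈ τ.CE τ.P) :
    x = -90 ∨ x = -54 ∨ x = -18 ∨ x = 24 * τ.Xr + 18 ∨ x = 24 * τ.Xr + 54 ∨
      x = 24 * τ.Xr + 90 ∨ ∃ h : ℕ, h < τ.Xr ∧ x = 24 * h + 12 := by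
  unfold CE at hx
  rcases mem_union.1 hx with h | h
  · simp only [mem_insert, mem_singleton] at h
    rcases h with h | h | h | h | h | h <;> simp [h]
  · rcases mem_union.1 h with h | h
    · obtain ⟨k, hk, rfl⟩ := mem_image.1 h
      have := (mem_filter.1 hk).1
      rw [mem_range] at this
      right; right; right; right; right; right
      exact ⟨k, this, rfl⟩
    · obtain ⟨k, hk, rfl⟩ := mem_image.1 h
      exact absurd (hg.none_row τ.P k le_rfl) (mem_filter.1 hk).2.2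

theorem f4_CE_P_mem (hg : τ.Good) {h : ℕ} (hh : h < τ.Xr) : (24 * (h : ℤ) + 12) ∈ τ.CE τ.P := by
  unfold CE
  refine mem_union_right _ (mem_union_left _ (mem_image.2 ⟨h, mem_filter.2 ⟨mem_range.2 hh, ?_⟩,
    rfl⟩))
  intro h1
  exact h1 (hg.none_row τ.P h le_rfl)

theorem top_ends (hg : τ.Good) (F : TriFacts τ.i0 τ.P τ.C V succ apex) :
    succ (τ.pe τ.P (-54)) = τ.pe τ.P (-18) ∧
    succ (τ.pe τ.P (24 * τ.Xr + 18)) = τ.pe τ.P (24 * τ.Xr + 54) := by
  obtain ⟨c1, c2, c3, c4⟩ := f4_CE_margin (τ := τ) (p := τ.P)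
  have hX := hg.Xr_ge
  constructor
  · apply succ_top hg F c1 c2 (by norm_num)
    intro x hx h1 h2
    rcases f4_CE_P hg hx with h | h | h | h | h | h | ⟨k, hk, h⟩ <;> omega
  · apply succ_top hg F c3 c4 (by omega)
    intro x hx h1 h2
    rcases f4_CE_P hg hx with h | h | h | h | h | h | ⟨k, hk, h⟩ <;> omega

theorem top_path (hg : τ.Good) (F : TriFacts τ.i0 τ.P τ.C V succ apex) :
    (∀ i < τ.Xr, succ^[i + 1] (τ.pe τ.P (-18)) = τ.pe τ.P (24 * i + 12)) ∧
    succ^[τ.Xr + 1] (τ.pe τ.P (-18)) = τ.pe τ.P (24 * τ.Xr + 18) := by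
  obtain ⟨c1, c2, c3, c4⟩ := f4_CE_margin (τ := τ) (p := τ.P)
  have hX := hg.Xr_ge
  have key : ∀ i < τ.Xr, succ^[i + 1] (τ.pe τ.P (-18)) = τ.pe τ.P (24 * i + 12) := by
    intro i
    induction i with
    | zero =>
      intro h0
      rw [zero_add, Function.iterate_one]
      apply succ_top hg F c2 (f4_CE_P_mem hg h0) (by norm_num)
      intro x hx h1 h2
      rcases f4_CE_P hg hx with h | h | h | h | h | h | ⟨k, hk, h⟩ <;> push_cast at * <;> omega
    | succ i ih =>
      intro hi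
      rw [Function.iterate_succ_apply', ih (by omega)]
      apply succ_top hg F (f4_CE_P_mem hg (by omega)) (f4_CE_P_mem hg hi) (by push_cast; omega)
      intro x hx h1 h2
      rcases f4_CE_P hg hx with h | h | h | h | h | h | ⟨k, hk, h⟩ <;> push_cast at * <;> omega
  refine ⟨key, ?_⟩
  obtain ⟨m, hm⟩ : ∃ m, τ.Xr = m + 1 := ⟨τ.Xr - 1, by omega⟩
  have h0 := key m (by omega)
  rw [Function.iterate_succ_apply']
  have h1 : succ^[τ.Xr] (τ.pe τ.P (-18)) = τ.pe τ.P (24 * m + 12) := by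
    rw [hm]
    exact h0
  rw [h1]
  apply succ_top hg F (f4_CE_P_mem hg (by omega)) c3 (by omega)
  intro x hx h1 h2
  rcases f4_CE_P hg hx with h | h | h | h | h | h | ⟨k, hk, h⟩ <;> omega

theorem n_le_path (hg : τ.Good) (F : TriFacts τ.i0 τ.P τ.C V succ apex) {p : ℕ} (hp : p < τ.P)
    {n : ℕ} {w : ℕ → ℤ} (hw : τ.Enum V succ p n w)
    (h1 : succ (τ.pe (p + 1) (-54)) = τ.pe (p + 1) (-18))
    (h2 : succ (τ.pe (p + 1) (24 * τ.Xr + 18)) = τ.pe (p + 1) (24 * τ.Xr + 54)) {t : ℕ}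
    (ht : succ^[t] (τ.pe (p + 1) (-18)) = τ.pe (p + 1) (24 * τ.Xr + 18)) :
    n ≤ t ∧ (t = n → ∀ i ≤ n, apex (succ^[i] (τ.pe (p + 1) (-18))) = τ.po p (w (i + 2))) := by
  obtain ⟨c1, c2, c3, c4⟩ := f4_CE_margin (τ := τ) (p := p + 1)
  have hX := hg.Xr_ge
  have hi0 := f4_i0_pos (τ := τ)
  have v1 := f4_pe_memV F (by omega : p + 1 ≤ τ.P) c1
  have v2 := f4_pe_memV F (by omega : p + 1 ≤ τ.P) c2
  have v3 := f4_pe_memV F (by omega : p + 1 ≤ τ.P) c3
  -- strict monotonicity
  have hmono : ∀ i j, i < j → j ≤ n + 3 → w i < w j := by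
    intro i j hij
    induction j with
    | zero => omega
    | succ j ih =>
      intro hj
      rcases Nat.lt_or_ge i j with h | h
      · exact (ih h (by omega)).trans (hw.mono j (by omega))
      · have : i = j := by omega
        rw [this]
        exact hw.mono j (by omega)
  have a1 : apex (τ.pe (p + 1) (-54)) = τ.po p (-36) := by
    obtain ⟨x, hx, hax, hxV, hlt⟩ := vis_even hg F hp c1 c2 v1 (by norm_num) (by norm_num)
      (by omega) h1
    have hc := f4_CO_cases hg hx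
    have : x = -36 := by
      rcases hc.1 with h | h | h
      · rw [h] at hlt
        norm_num at hlt
      · exact h
      · nlinarith
    rw [hax, this]
  have a2 : apex (τ.pe (p + 1) (24 * τ.Xr + 18)) = τ.po p (24 * τ.Xr + 36) := by
    obtain ⟨x, hx, hax, hxV, hlt⟩ := vis_even hg F hp c3 c4 v3 (by omega) (by omega)
      (by omega) h2
    have hc := f4_CO_cases hg hx
    have : x = 24 * τ.Xr + 36 := by
      rcases hc.2 with h | h | h
      · nlinarith
      · exact h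
      · rw [h] at hlt
        ring_nf at hlt
        omega
    rw [hax, this]
  have hmemV : ∀ j, succ^[j] (τ.pe (p + 1) (-18)) ∈ V (τ.i0 + 2 * (p + 1)) := by
    intro j
    induction j with
    | zero => exact v2
    | succ j ih =>
      rw [Function.iterate_succ_apply']
      exact F.succ_mem _ _ (by omega) (by omega) ih
  obtain ⟨g, hg0', hg1⟩ : ∃ g : ℕ → Pt, g 0 = apex (τ.pe (p + 1) (-54)) ∧
      ∀ j, g (j + 1) = apex (succ^[j] (τ.pe (p + 1) (-18))) :=
    ⟨fun j => Nat.casesOn (motive := fun _ => Pt) j (apex (τ.pe (p + 1) (-54)))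
      (fun j => apex (succ^[j] (τ.pe (p + 1) (-18)))), rfl, fun _ => rfl⟩
  have hg0 : g 0 = τ.po p (-36) := hg0'.trans a1
  have hstep : ∀ j, g (j + 1) = g j ∨ g (j + 1) = succ (g j) := by
    intro j
    rcases j with _ | j
    · have h3 := F.walk (τ.i0 + 2 * (p + 1)) _ (by omega) (by omega) v1
      rw [h1] at h3
      rw [hg1, hg0']
      rcases h3 with h3 | h3
      · left
        exact h3
      · right
        exact h3.1
    · have h3 := F.walk (τ.i0 + 2 * (p + 1)) _ (by omega) (by omega) (hmemV j)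
      rw [← Function.iterate_succ_apply' succ] at h3
      rw [hg1, hg1]
      rcases h3 with h3 | h3
      · left
        exact h3
      · right
        exact h3.1
  have hgt : g (t + 1) = τ.po p (w (n + 2)) := by
    rw [hg1, ht, a2, hw.wn2]
  obtain ⟨m, hm0, hms⟩ : ∃ m : ℕ → ℕ, m 0 = 0 ∧ ∀ j, (g (j + 1) = g j → m (j + 1) = m j) ∧
      (g (j + 1) ≠ g j → m (j + 1) = m j + 1) := by
    refine ⟨fun j => Nat.rec (motive := fun _ => ℕ) 0 (fun (j : ℕ) (r : ℕ) =>
      @ite ℕ (g (j + 1) = g j) (Classical.propDecidable _) r (r + 1)) j, rfl, fun j => ⟨?_, ?_⟩⟩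
    · intro h
      exact if_pos h
    · intro h
      exact if_neg h
  have hm1 : ∀ j, m (j + 1) ≤ m j + 1 := by
    intro j
    rcases Classical.em (g (j + 1) = g j) with h | h
    · rw [(hms j).1 h]
      omega
    · rw [(hms j).2 h]
  have hm : ∀ j ≤ n + 2, m j ≤ j ∧ g j = τ.po p (w (1 + m j)) := by
    intro j
    induction j with
    | zero =>
      intro _
      refine ⟨hm0.le, ?_⟩
      rw [hm0, hg0, hw.w1]
    | succ j ih =>
      intro hj
      obtain ⟨i1, i2⟩ := ih (by omega)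
      rcases Classical.em (g (j + 1) = g j) with h | h
      · have h5 : m (j + 1) = m j := (hms j).1 h
        rw [h5]
        exact ⟨by omega, h.trans i2⟩
      · have h5 : m (j + 1) = m j + 1 := (hms j).2 h
        rw [h5]
        refine ⟨by omega, ?_⟩
        rw [(hstep j).resolve_left h, i2, hw.succ_w _ (by omega)]
        rfl
  have hnt : n ≤ t := by
    by_contra hlt
    obtain ⟨i1, i2⟩ := hm (t + 1) (by omega)
    rw [hgt] at i2
    have i3 := f4_po_inj i2
    have i4 := hmono (1 + m (t + 1)) (n + 2) (by omega) (by omega)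
    omega
  refine ⟨hnt, ?_⟩
  intro htn i hi
  subst htn
  obtain ⟨i1, i2⟩ := hm (t + 1) (by omega)
  rw [hgt] at i2
  have i3 := f4_po_inj i2
  have i4 : m (t + 1) = t + 1 := by
    by_contra hne
    have := hmono (1 + m (t + 1)) (t + 2) (by omega) (by omega)
    omega
  have i5 : ∀ d j, j + d = t + 1 → m (t + 1) ≤ m j + d := by
    intro d
    induction d with
    | zero =>
      intro j hj
      rw [← hj]
      simp
    | succ d ih =>
      intro j hj
      have k1 := ih (j + 1) (by omega)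
      have k2 := hm1 j
      omega
  have i6 := i5 (t - i) (i + 1) (by omega)
  obtain ⟨i7, i8⟩ := hm (i + 1) (by omega)
  rw [← hg1, i8]
  congr 2
  omega

end Tab

end Pool.Agent.Helper70.MD
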