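import Pool.Agent.Helper70.MD.F4

/-!
MD-F5: the chain argument.

Proof. For each `p < P` take `n p`, `w p` from `exists_enum`. For `p + 1 = P` the path has `t = Xr + 1`
steps (`top_path`, `top_ends`), so `n p ≤ Xr + 1` by `n_le_path`, and with `n_ge` `n p = Xr + 1 = t`. For
`p + 1 < P`, `row_path` for the row `p + 1` gives `t ≤ n (p+1)`, and `n_le_path` (with `row_ends`)
gives `n p ≤ t ≤ n (p+1)`; by induction (from the last row downwards) `n p = t = n (p+1) = Xr + 1`.
In all cases `t = n p`, which gives the last conclusion.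
Injectivity: put `f i = apex (po p (w i))`, `1 ≤ i ≤ Xr + 2`. Every `x ∈ CE p`, `-18 ≤ x ≤ 24 Xr + 18`
is such that `pe p x = f i` for some `i` in this range: by `onto_shallow` `pe p x = apex (po p v)` with
`v = w i` (`surj`), and `i ≠ 0`, `i < n + 2 = Xr + 3` because `f 0 = pe p (-54)`, and
`f (Xr + 3) = pe p (24 Xr + 54)`, and `v` has a successor in `CO p`. Every `y ∈ CO p` with
`po p y ∉ V (i0 + 2p+1)` is such that `po p y = f i` for some `i` in this range: such a `y` lies strictly
between some `w i` and `w (i+1)`, `2 ≤ i ≤ Xr + 1` (as the margins, `0` and `24 Xr` are vertices),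
and `onto_dent` applies. The number of such `x` is `#(CE p) - 4`, of such `y` it is
`#(CO p) - (Xr + 5)`; together `2 Xr + 11 - 4 - Xr - 5 = Xr + 2`, all the points `pe p x`, `po p y` are
different, so the map `i ↦ f i` from a set of `Xr + 2` elements has an image with at least `Xr + 2`
elements, so it is injective. Third conclusion: by `F.walk`, `f (i+1) = f i` or
`f (i+1) = succ (f i)` (`succ_w`); the first is excluded; `f 1 = pe p (-18)`.
-/

set_option autoImplicit false

namespace Pool.Agent.Helper70.MD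

open Finset

open scoped Classical

namespace Tab

variable {τ : Tab} {V : ℕ → Finset Pt} {succ apex : Pt → Pt}

/-- The paths in the even rows have at most `Xr + 1` steps. -/
theorem chain_path (hg : τ.Good) (F : TriFacts τ.i0 τ.P τ.C V succ apex) :
    ∀ k p, p + k = τ.P → ∃ t ≤ τ.Xr + 1,
      succ^[t] (τ.pe p (-18)) = τ.pe p (24 * τ.Xr + 18) ∧
      succ (τ.pe p (-54)) = τ.pe p (-18) ∧
      succ (τ.pe p (24 * τ.Xr + 18)) = τ.pe p (24 * τ.Xr + 54) := by
  intro k
  induction k with
  | zero =>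
    intro p hp
    have hp' : p = τ.P := by omega
    subst hp'
    exact ⟨τ.Xr + 1, le_refl _, (top_path hg F).2, (top_ends hg F).1, (top_ends hg F).2⟩
  | succ k ih =>
    intro p hp
    have hlt : p < τ.P := by omega
    obtain ⟨t, ht, h0, h1, h2⟩ := ih (p + 1) (by omega)
    obtain ⟨n, w, hw⟩ := exists_enum hg F hlt
    obtain ⟨hn, -⟩ := n_le_path hg F hlt hw h1 h2 h0
    obtain ⟨t', ht', h0'⟩ := row_path hg F hlt hw
    have hn' : t' ≤ τ.Xr + 1 := by omega
    exact ⟨t', hn', h0', (row_ends hg F hlt).1, (row_ends hg F hlt).2⟩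

theorem pe_inj {p : ℕ} {x y : ℤ} (h : τ.pe p x = τ.pe p y) : x = y := by
  have h1 := (par_inj h).1
  have h2 : (τ.nu : ℤ) ≠ 0 := by
    have := nu_pos (τ := τ)
    omega
  exact mul_left_cancel₀ h2 h1

theorem po_inj {p : ℕ} {x y : ℤ} (h : τ.po p x = τ.po p y) : x = y := by
  have h1 := (par_inj h).1
  have h2 : (τ.nu : ℤ) ≠ 0 := by
    have := nu_pos (τ := τ)
    omega
  exact mul_left_cancel₀ h2 h1

theorem pe_ne_po {p : ℕ} {x y : ℤ} : τ.pe p x ≠ τ.po p y := by
  intro h
  have h1 := (par_inj h).2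
  have h2 := Lam_strictMono (τ := τ) (i := τ.i0 + 2 * p) (j := τ.i0 + 2 * p + 1) (by omega)
  omega

theorem card_mid (p : ℕ) :
    #(τ.CE p) ≤ #{x ∈ τ.CE p | -18 ≤ x ∧ x ≤ 24 * (τ.Xr : ℤ) + 18} + 4 := by
  have h1 : τ.CE p ⊆ {x ∈ τ.CE p | -18 ≤ x ∧ x ≤ 24 * (τ.Xr : ℤ) + 18} ∪
      ({-90, -54, 24 * (τ.Xr : ℤ) + 54, 24 * (τ.Xr : ℤ) + 90} : Finset ℤ) := by
    intro x hx
    rw [Finset.mem_union, Finset.mem_filter]
    by_cases hm : -18 ≤ x ∧ x ≤ 24 * (τ.Xr : ℤ) + 18
    · exact Or.inl ⟨hx, hm⟩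
    · right
      simp only [CE, Finset.mem_union, Finset.mem_insert, Finset.mem_singleton, Finset.mem_image,
        Finset.mem_filter, Finset.mem_range] at hx ⊢
      rcases hx with hx | ⟨h, ⟨h1, -⟩, rfl⟩ | ⟨h, ⟨h1, -⟩, rfl⟩
      · omega
      · omega
      · omega
  calc #(τ.CE p) ≤ _ := Finset.card_le_card h1
    _ ≤ _ := Finset.card_union_le _ _
    _ ≤ _ := by
      have := Finset.card_le_four (a := (-90 : ℤ)) (b := -54) (c := 24 * (τ.Xr : ℤ) + 54)
        (d := 24 * (τ.Xr : ℤ) + 90)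
      omega

theorem Enum.lt_of_lt {p n : ℕ} {w : ℕ → ℤ} (hw : τ.Enum V succ p n w) {i j : ℕ} (hij : i < j)
    (hj : j ≤ n + 3) : w i < w j := by
  obtain ⟨k, rfl⟩ : ∃ k, j = i + 1 + k := ⟨j - (i + 1), by omega⟩
  clear hij
  induction k with
  | zero => exact hw.mono i (by omega)
  | succ k ih => exact (ih (by omega)).trans (hw.mono (i + 1 + k) (by omega))

theorem Enum.card {p n : ℕ} {w : ℕ → ℤ} (hw : τ.Enum V succ p n w) :
    #(τ.CO p) ≤ #{y ∈ τ.CO p | τ.po p y ∉ V (τ.i0 + 2 * p + 1)} + (n + 4) := by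
  have h1 : τ.CO p ⊆ {y ∈ τ.CO p | τ.po p y ∉ V (τ.i0 + 2 * p + 1)} ∪
      (Finset.range (n + 4)).image w := by
    intro x hx
    rw [Finset.mem_union, Finset.mem_filter]
    by_cases hm : τ.po p x ∈ V (τ.i0 + 2 * p + 1)
    · right
      obtain ⟨i, hi, rfl⟩ := hw.surj x hx hm
      exact Finset.mem_image_of_mem _ (Finset.mem_range.mpr (by omega))
    · exact Or.inl ⟨hx, hm⟩
  calc #(τ.CO p) ≤ _ := Finset.card_le_card h1
    _ ≤ _ := Finset.card_union_le _ _
    _ ≤ _ := by
      have := Finset.card_image_le (s := Finset.range (n + 4)) (f := w)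
      rw [Finset.card_range] at this
      omega

/-- Every point which has to be an apex is the apex of a middle edge. -/
theorem mem_apex (hg : τ.Good) (F : TriFacts τ.i0 τ.P τ.C V succ apex) {p : ℕ} (hp : p < τ.P)
    {w : ℕ → ℤ} (hw : τ.Enum V succ p (τ.Xr + 1) w) :
    ({x ∈ τ.CE p | -18 ≤ x ∧ x ≤ 24 * (τ.Xr : ℤ) + 18} : Finset ℤ).image (τ.pe p) ∪
      ({y ∈ τ.CO p | τ.po p y ∉ V (τ.i0 + 2 * p + 1)} : Finset ℤ).image (τ.po p) ⊆
      (Finset.Icc 1 (τ.Xr + 2)).image (fun i => apex (τ.po p (w i))) := by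
  obtain ⟨-, -, -, ml, -⟩ := margin_left hg F hp
  obtain ⟨-, -, -, -, mr⟩ := margin_right hg F hp
  have hn2 : w (τ.Xr + 3) = 24 * τ.Xr + 36 := hw.wn2
  have hn3 : w (τ.Xr + 4) = 24 * τ.Xr + 72 := hw.wn3
  intro q hq
  rw [Finset.mem_union, Finset.mem_image, Finset.mem_image] at hq
  rw [Finset.mem_image]
  rcases hq with ⟨x, hx, rfl⟩ | ⟨y, hy, rfl⟩
  · rw [Finset.mem_filter] at hx
    obtain ⟨hx, hx1, hx2⟩ := hx
    obtain ⟨v, hv, v', hv', hvv, hno, hV, hV', hs, hap, -⟩ :=
      onto_shallow hg F hp hx (by omega) (by omega)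
    obtain ⟨i, hi, rfl⟩ := hw.surj v hv hV
    refine ⟨i, ?_, hap⟩
    rw [Finset.mem_Icc]
    have h0 : i ≠ 0 := by
      rintro rfl
      rw [hw.w0, ml] at hap
      have := pe_inj hap
      omega
    have h3 : i ≠ τ.Xr + 3 := by
      rintro rfl
      rw [hn2, mr] at hap
      have := pe_inj hap
      omega
    have h4 : i ≠ τ.Xr + 4 := by
      rintro rfl
      rw [hn3] at hvv
      have := (CO_bounds hg hv').2
      omega
    omega
  · rw [Finset.mem_filter] at hy
    obtain ⟨hy, hyV⟩ := hy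
    have hb := CO_bounds hg hy
    have hne : ∀ i ≤ τ.Xr + 4, w i ≠ y := by
      intro i hi h
      exact hyV (h ▸ hw.memV i hi)
    have hex : ∃ i ≤ τ.Xr + 3, w i < y ∧ y < w (i + 1) := by
      by_contra hcon
      push Not at hcon
      have hall : ∀ i ≤ τ.Xr + 4, w i < y := by
        intro i
        induction i with
        | zero =>
          intro _
          have h1 := hne 0 (by omega)
          have h2 := hw.w0
          omega
        | succ i ih =>
          intro hi
          have h1 := hcon i (by omega) (ih (by omega))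
          have h2 := hne (i + 1) hi
          omega
      have := hall (τ.Xr + 4) le_rfl
      omega
    obtain ⟨i, hi, h1, h2⟩ := hex
    have hap := (onto_dent hg F hp (hw.mem i (by omega)) (hw.mem (i + 1) (by omega)) hy
      (hw.memV i (by omega)) (hw.memV (i + 1) (by omega)) h1 h2 (by
        intro x hx hx1 hx2 hxV
        obtain ⟨j, hj, rfl⟩ := hw.surj x hx hxV
        rcases lt_trichotomy j i with h | h | h
        · have := hw.lt_of_lt h (by omega)
          omega
        · rw [h] at hx1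
          omega
        · rcases Nat.lt_or_ge (i + 1) j with h' | h'
          · have := hw.lt_of_lt h' hj
            omega
          · have : j = i + 1 := by omega
            rw [this] at hx2
            omega)).2
    refine ⟨i, ?_, hap⟩
    rw [Finset.mem_Icc]
    have h0 : i ≠ 0 := by
      rintro rfl
      rw [hw.w0, ml] at hap
      exact pe_ne_po hap
    have h3 : i ≠ τ.Xr + 3 := by
      rintro rfl
      rw [hn2, mr] at hap
      exact pe_ne_po hap
    omega

theorem chain (hg : τ.Good) (F : TriFacts τ.i0 τ.P τ.C V succ apex) {p : ℕ} (hp : p < τ.P) :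
    ∃ w, τ.Enum V succ p (τ.Xr + 1) w ∧
      (∀ i j, 1 ≤ i → i ≤ τ.Xr + 2 → 1 ≤ j → j ≤ τ.Xr + 2 →
        apex (τ.po p (w i)) = apex (τ.po p (w j)) → i = j) ∧
      (∀ i ≤ τ.Xr + 1, apex (τ.po p (w (i + 1))) = succ^[i] (τ.pe p (-18))) ∧
      (∀ i ≤ τ.Xr + 1, apex (succ^[i] (τ.pe (p + 1) (-18))) = τ.po p (w (i + 2))) := by
  obtain ⟨t, ht, h0, h1, h2⟩ := chain_path hg F (τ.P - (p + 1)) (p + 1) (by omega)
  obtain ⟨n, w, hw⟩ := exists_enum hg F hp
  obtain ⟨hn, h4⟩ := n_le_path hg F hp hw h1 h2 h0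
  have hn' : n = τ.Xr + 1 := by
    have := hw.n_ge
    omega
  subst hn'
  have ht' : t = τ.Xr + 1 := by omega
  have hinj : ∀ i j, 1 ≤ i → i ≤ τ.Xr + 2 → 1 ≤ j → j ≤ τ.Xr + 2 →
        apex (τ.po p (w i)) = apex (τ.po p (w j)) → i = j := by
    have hc : #(Finset.Icc 1 (τ.Xr + 2)) ≤
        #((Finset.Icc 1 (τ.Xr + 2)).image (fun i => apex (τ.po p (w i)))) := by
      have hsub := Finset.card_le_card (mem_apex hg F hp hw)
      rw [Finset.card_union_of_disjoint, Finset.card_image_of_injective,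
        Finset.card_image_of_injective] at hsub
      · have c1 := card_mid (τ := τ) p
        have c2 := hw.card
        have c3 := card_CE_CO hg p
        rw [Nat.card_Icc]
        omega
      · intro x y h
        exact po_inj h
      · intro x y h
        exact pe_inj h
      · rw [Finset.disjoint_left]
        intro q hq hq'
        rw [Finset.mem_image] at hq hq'
        obtain ⟨x, -, rfl⟩ := hq
        obtain ⟨y, -, hy⟩ := hq'
        exact pe_ne_po hy.symm
    have hinj' : Set.InjOn (fun i => apex (τ.po p (w i)))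
        ((Finset.Icc 1 (τ.Xr + 2) : Finset ℕ) : Set ℕ) :=
      Finset.card_image_iff.mp (le_antisymm Finset.card_image_le hc)
    intro i j hi1 hi2 hj1 hj2 hij
    exact hinj' (by simp only [Finset.coe_Icc, Set.mem_Icc]; omega)
      (by simp only [Finset.coe_Icc, Set.mem_Icc]; omega) hij
  refine ⟨w, hw, hinj, ?_, h4 ht'⟩
  obtain ⟨-, -, -, -, ml⟩ := margin_left hg F hp
  intro i
  induction i with
  | zero =>
    intro _
    rw [zero_add, hw.w1, ml]
    rfl
  | succ i ih =>
    intro hi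
    rw [Function.iterate_succ_apply', ← ih (by omega)]
    have hwalk := F.walk (τ.i0 + 2 * p + 1) (τ.po p (w (i + 1))) (by
        have : τ.i0 = τ.Xr + 8 := rfl
        omega) (by omega) (hw.memV (i + 1) (by omega))
    rw [hw.succ_w (i + 1) (by omega)] at hwalk
    rcases hwalk with h | h
    · have := hinj (i + 1 + 1) (i + 1) (by omega) (by omega) (by omega) (by omega) h
      omega
    · exact h.1

end Tab

end Pool.Agent.Helper70.MD
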