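import Pool.Agent.Helper70.MD.F5

/-!
MD-F6: the one-dimensional system.

Proof. Take `w p` from `chain` for `p < P`. For `p < P` and `1 ≤ i ≤ Xr + 2` apply `vis_odd` to
`w p i`, `w p (i+1)`: `apex (po p (w p i))` is `pe p y` with `y ∈ CE p` (then `¬ dp p i`, `e p i = y`)
or `po p y` with `y ∈ CO p`, `w p i < y < w p (i+1)` (then `dp p i`, `e p i = y`). For `p = P` put
`e P 1 = -18`, `e P (h + 2) = 24 h + 12` for `h < Xr`, `e P (Xr + 2) = 24 Xr + 18`, never deep. Define
the point `Q p i` to be `po p (e p i)` if `dp p i` and `pe p (e p i)` otherwise (for `p ≤ P`).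
Then by `chain` and `top_path`, for `p ≤ P` and `1 ≤ i ≤ Xr + 2`:
`Q p i = succ^[i - 1] (pe p (-18))` and for `p < P` also `Q p i = apex (po p (w p i))`, and for
`p < P`: `apex (Q (p+1) i) = po p (w p (i + 1))`.
`w_mono`, `w_mem`, `w_ends`: `Enum`. `cover`: if `po p x` is in the odd layer use `surj`; otherwise let `i`
be the largest index with `w p i < x`; as `0` and `24 Xr` are vertices, `2 ≤ i ≤ Xr + 1`.
`gap`: `x` is not a vertex (strict monotonicity and `surj`), so `onto_dent` gives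
`apex (po p (w p i)) = po p x`, so `dp p i` and `e p i = x` (`pe` and `po` points are different: levels).
`deep`, `shallow`, `o1`: `vis_odd`. `e_ends`: F3 (`w p 1 = -36`, `w p (Xr + 2) = 24 Xr`), and the definition
for `p = P`. `e_cover`: `onto_shallow` as in F5. `e_inj`: injectivity in `chain`. `top`: definition.
`o2`: `F.walk` at `po p (w p i)`: `apex (po p (w p (i+1))) ≠ apex (po p (w p i))` by injectivity, so
`0 < cr (Q p i) (Q p (i+1)) (po p (w p (i+1)))`, which by `cr_par`, `ori_scale`, `Lam_even`, `Lam_odd`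
means, with `a = e p i`, `b = e p (i+1)`, `v = w p (i+1)`:
`0 < ori a 0 b 0 v 864 = (b - a) ((v - a)(v - b) + 864)`. Let `v0 = w p i`, `v2 = w p (i+2)`;
`(a - v0)(a - v) < 864` and `(b - v)(b - v2) < 864` by `o1`. `b = a` is excluded. Suppose `b < a`. Then
`(v - a)(v - b) < -864`, so `b < v < a` and `(a - v)(v - b) > 864`. But
`(a - v)^2 < (a - v0)(a - v) < 864` and `(v - b)^2 < (b - v)(b - v2) < 864`, so
`((a - v)(v - b))^2 < 864^2`: contradiction.
`o3`: `F.tri` at `v = Q (p+1) i` (level `i0 + 2(p+1)`): `0 < cr (succ v) v (apex v)` with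
`succ v = Q (p+1) (i+1)`, `apex v = po p (w p (i+1))`; the levels of
`po p`, `pe (p+1)`, `po (p+1)` differ by `346 nu^2` and `864 nu^2` (`Lam_even`, `Lam_odd`), and
`ori_scale`. `o4`: `F.walk` at `v = Q (p+1) i`: `apex (succ v) = po p (w p (i+2))` is different from
`apex v`, so `0 < cr (po p (w p (i+1))) (po p (w p (i+2))) (Q (p+1) (i+1))`.
-/

set_option autoImplicit false

namespace Pool.Agent.Helper70.MD

open Finset

open scoped Classical

namespace Tab

variable {τ : Tab} {V : ℕ → Finset Pt} {succ apex : Pt → Pt}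

private theorem f6_pe (p : ℕ) (x : ℤ) :
    τ.pe p x = par (τ.nu * x) (τ.Lam τ.i0 + τ.nu ^ 2 * (1210 * p)) := by
  unfold pe; rw [Lam_even]

private theorem f6_po (p : ℕ) (x : ℤ) :
    τ.po p x = par (τ.nu * x) (τ.Lam τ.i0 + τ.nu ^ 2 * (1210 * p + 864)) := by
  unfold po; rw [Lam_odd]

private theorem f6_nu_cancel {x y : ℤ} (h : τ.nu * x = τ.nu * y) : x = y := by
  have hn : 100 ≤ τ.nu := nu_pos
  exact mul_left_cancel₀ (by omega) h

private theorem f6_pe_inj {p : ℕ} {x y : ℤ} (h : τ.pe p x = τ.pe p y) : x = y :=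
  f6_nu_cancel (par_inj h).1

private theorem f6_po_inj {p : ℕ} {x y : ℤ} (h : τ.po p x = τ.po p y) : x = y :=
  f6_nu_cancel (par_inj h).1

private theorem f6_pe_ne_po {p : ℕ} {x y : ℤ} : τ.pe p x ≠ τ.po p y := by
  intro h
  have h2 := (par_inj h).2
  have h3 : τ.Lam (τ.i0 + 2 * p) < τ.Lam (τ.i0 + 2 * p + 1) := Lam_strictMono (by omega)
  omega

private theorem f6_cr {c x1 l1 x2 l2 x3 l3 : ℤ}
    (h : 0 < cr (par (τ.nu * x1) (c + τ.nu ^ 2 * l1)) (par (τ.nu * x2) (c + τ.nu ^ 2 * l2))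
      (par (τ.nu * x3) (c + τ.nu ^ 2 * l3))) : 0 < ori x1 l1 x2 l2 x3 l3 := by
  rw [cr_par, ori_scale] at h
  have h2 : (0 : ℤ) < τ.nu ^ 3 * ori x1 l1 x2 l2 x3 l3 := by exact_mod_cast h
  have hn : 100 ≤ τ.nu := nu_pos
  have hn3 : 0 < τ.nu ^ 3 := by positivity
  exact (pos_iff_pos_of_mul_pos h2).mp hn3

private theorem f6_mono {n : ℕ} {p : ℕ} {w : ℕ → ℤ} (hw : τ.Enum V succ p n w) {i j : ℕ}
    (hij : i < j) (hj : j ≤ n + 3) : w i < w j := by
  induction j, hij using Nat.le_induction with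
  | base => exact hw.mono i (by omega)
  | succ j hj' ih => exact (ih (by omega)).trans (hw.mono j (by omega))

private theorem f6_no {n : ℕ} {p : ℕ} {w : ℕ → ℤ} (hw : τ.Enum V succ p n w) {i : ℕ}
    (hi : i < n + 3) : ∀ x ∈ τ.CO p, w i < x → x < w (i + 1) → τ.po p x ∉ V (τ.i0 + 2 * p + 1) := by
  intro x hx h1 h2 hV
  obtain ⟨j, hj, rfl⟩ := hw.surj x hx hV
  rcases lt_trichotomy j i with h | h | h
  · have := f6_mono hw h (by omega)
    omega
  · subst h; omega
  · rcases Nat.lt_or_ge (i + 1) j with h' | h'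
    · have := f6_mono hw h' hj
      omega
    · have : j = i + 1 := by omega
      subst this; omega

/-- Arithmetic of `o2`. -/
private theorem f6_arith {a b v0 v v2 : ℤ} (h : 0 < ori a 0 b 0 v 864) (h0 : v0 < v) (h2 : v < v2)
    (ha : (a - v0) * (a - v) < 864) (hb : (b - v) * (b - v2) < 864) : a < b := by
  unfold ori at h
  by_contra hle
  push Not at hle
  rcases hle.lt_or_eq with hlt | heq
  · have h1 : (v - a) * (v - b) < -864 := by
      by_contra hc
      push Not at hc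
      have : (b - a) * ((v - a) * (v - b) + 864) ≤ 0 :=
        mul_nonpos_of_nonpos_of_nonneg (by omega) (by omega)
      nlinarith
    have hbv : b < v := by
      by_contra hc
      push Not at hc
      nlinarith [mul_nonneg (show 0 ≤ a - v by omega) (show 0 ≤ b - v by omega)]
    have hva : v < a := by
      by_contra hc
      push Not at hc
      nlinarith [mul_nonneg (show 0 ≤ v - a by omega) (show 0 ≤ v - b by omega)]
    have h3 : (a - v) ^ 2 < 864 := by nlinarith
    have h4 : (v - b) ^ 2 < 864 := by nlinarith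
    have h5 : (a - v) * (v - b) > 864 := by nlinarith
    nlinarith [mul_self_nonneg ((a - v) - (v - b))]
  · subst heq; simp at h

private theorem f6_mem_C {p : ℕ} {x : ℤ} (hx : x ∈ τ.CE p) :
    τ.pe p x ∈ τ.C (τ.i0 + 2 * p) := by
  have h0 : τ.i0 + 2 * p ≠ 0 := by unfold i0; omega
  unfold C
  rw [if_neg h0]
  refine mem_insert_of_mem (mem_image.2 ⟨τ.nu * x, ?_, rfl⟩)
  unfold Xs
  refine mem_union_right _ (mem_union_left _ (mem_image.2 ⟨x, ?_, rfl⟩))
  unfold Cm
  rw [if_neg (by omega), if_pos (by omega)]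
  have : (τ.i0 + 2 * p - τ.i0) / 2 = p := by omega
  rw [this]; exact hx

private theorem f6_start (F : TriFacts τ.i0 τ.P τ.C V succ apex) {p : ℕ} (hp : p ≤ τ.P) (i : ℕ) :
    succ^[i] (τ.pe p (-18)) ∈ V (τ.i0 + 2 * p) := by
  have h0 : 1 ≤ τ.i0 + 2 * p := by unfold i0; omega
  induction i with
  | zero =>
    have hC : τ.pe p (-18) ∈ τ.C (τ.i0 + 2 * p) := f6_mem_C (by unfold CE; simp)
    rcases hp.lt_or_eq with h | h
    · exact F.even_sub p h hC
    · subst h; rw [F.top]; exact hC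
  | succ i ih =>
    rw [Function.iterate_succ_apply']
    exact F.succ_mem _ _ h0 (by omega) ih

theorem exists_rowSys (hg : τ.Good) (F : TriFacts τ.i0 τ.P τ.C V succ apex) :
    ∃ w e dp, τ.RowSys w e dp := by
  have hX := hg.Xr_ge
  have hch : ∀ p, ∃ w, p < τ.P → (τ.Enum V succ p (τ.Xr + 1) w ∧
      (∀ i j, 1 ≤ i → i ≤ τ.Xr + 2 → 1 ≤ j → j ≤ τ.Xr + 2 →
        apex (τ.po p (w i)) = apex (τ.po p (w j)) → i = j) ∧
      (∀ i ≤ τ.Xr + 1, apex (τ.po p (w (i + 1))) = succ^[i] (τ.pe p (-18))) ∧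
      (∀ i ≤ τ.Xr + 1, apex (succ^[i] (τ.pe (p + 1) (-18))) = τ.po p (w (i + 2)))) := by
    intro p
    by_cases hp : p < τ.P
    · obtain ⟨w, hw⟩ := chain hg F hp
      exact ⟨w, fun _ => hw⟩
    · exact ⟨fun _ => 0, fun h => absurd h hp⟩
  choose w hw using hch
  have hE : ∀ {p}, p < τ.P → τ.Enum V succ p (τ.Xr + 1) (w p) := fun hp => (hw _ hp).1
  have hinj := fun {p : ℕ} (hp : p < τ.P) => (hw p hp).2.1
  have hup := fun {p : ℕ} (hp : p < τ.P) => (hw p hp).2.2.1
  have hdn := fun {p : ℕ} (hp : p < τ.P) => (hw p hp).2.2.2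
  have hQ : ∀ p i, ∃ y : ℤ, ∃ d : Prop, p ≤ τ.P → 1 ≤ i → i ≤ τ.Xr + 2 →
      (d → succ^[i - 1] (τ.pe p (-18)) = τ.po p y ∧ (p < τ.P → y ∈ τ.CO p ∧ w p i < y ∧
        y < w p (i + 1))) ∧
      (¬ d → succ^[i - 1] (τ.pe p (-18)) = τ.pe p y ∧ y ∈ τ.CE p ∧
        (p < τ.P → (y - w p i) * (y - w p (i + 1)) < 864)) := by
    intro p i
    by_cases hp : p ≤ τ.P
    swap
    · exact ⟨0, True, fun h => absurd h hp⟩
    by_cases hi : 1 ≤ i ∧ i ≤ τ.Xr + 2
    swap
    · exact ⟨0, True, fun _ h1 h2 => absurd ⟨h1, h2⟩ hi⟩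
    obtain ⟨hi1, hi2⟩ := hi
    obtain ⟨j, rfl⟩ : ∃ j, i = j + 1 := ⟨i - 1, by omega⟩
    rw [Nat.add_sub_cancel]
    rcases hp.lt_or_eq with hlt | rfl
    · have e := hE hlt
      have hu := hup hlt j (by omega)
      rcases vis_odd hg F hlt (e.mem (j + 1) (by omega)) (e.mem (j + 1 + 1) (by omega))
        (e.memV (j + 1) (by omega)) (e.mono (j + 1) (by omega)) (e.succ_w (j + 1) (by omega)) with
        ⟨y, hy, h1, h2⟩ | ⟨y, hy, h1, _, h2, h3⟩
      · refine ⟨y, False, fun _ _ _ => ⟨False.elim, fun _ => ⟨?_, hy, fun _ => h2⟩⟩⟩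
        rw [← hu, h1]
      · refine ⟨y, True, fun _ _ _ => ⟨fun _ => ⟨?_, fun _ => ⟨hy, h2, h3⟩⟩,
          fun h => absurd trivial h⟩⟩
        rw [← hu, h1]
    · obtain ⟨ht1, ht2⟩ := top_path hg F
      rcases Nat.eq_zero_or_pos j with rfl | hj
      · refine ⟨-18, False, fun _ _ _ => ⟨False.elim, fun _ => ⟨rfl, by unfold CE; simp,
          fun h => absurd h (lt_irrefl _)⟩⟩⟩
      · obtain ⟨h, rfl⟩ : ∃ h, j = h + 1 := ⟨j - 1, by omega⟩
        rcases Nat.lt_or_ge h τ.Xr with hh | hh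
        · refine ⟨24 * h + 12, False, fun _ _ _ => ⟨False.elim, fun _ => ⟨ht1 h hh, ?_,
            fun h => absurd h (lt_irrefl _)⟩⟩⟩
          unfold CE
          refine mem_union_right _ (mem_union_left _ (mem_image.2 ⟨h, ?_, rfl⟩))
          rw [mem_filter, mem_range]
          refine ⟨hh, ?_⟩
          unfold inL
          rw [hg.none_row _ h le_rfl]
          simp
        · have : h = τ.Xr := by omega
          subst this
          exact ⟨24 * τ.Xr + 18, False, fun _ _ _ => ⟨False.elim, fun _ => ⟨ht2, by unfold CE; simp,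
            fun h => absurd h (lt_irrefl _)⟩⟩⟩
  choose e dp hQ using hQ
  have hdp := fun {p i : ℕ} (hp : p ≤ τ.P) (h1 : 1 ≤ i) (h2 : i ≤ τ.Xr + 2) =>
    (hQ p i hp h1 h2).1
  have hnd := fun {p i : ℕ} (hp : p ≤ τ.P) (h1 : 1 ≤ i) (h2 : i ≤ τ.Xr + 2) =>
    (hQ p i hp h1 h2).2
  -- recognition of points
  have hrE : ∀ {p i : ℕ} {y : ℤ}, p ≤ τ.P → 1 ≤ i → i ≤ τ.Xr + 2 →
      succ^[i - 1] (τ.pe p (-18)) = τ.pe p y → e p i = y ∧ ¬ dp p i := by
    intro p i y hp h1 h2 h
    by_cases hd : dp p i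
    · exact absurd (h.symm.trans (hdp hp h1 h2 hd).1) f6_pe_ne_po
    · exact ⟨(f6_pe_inj (h.symm.trans (hnd hp h1 h2 hd).1)).symm, hd⟩
  have hrO : ∀ {p i : ℕ} {y : ℤ}, p ≤ τ.P → 1 ≤ i → i ≤ τ.Xr + 2 →
      succ^[i - 1] (τ.pe p (-18)) = τ.po p y → dp p i ∧ e p i = y := by
    intro p i y hp h1 h2 h
    by_cases hd : dp p i
    · exact ⟨hd, (f6_po_inj (h.symm.trans (hdp hp h1 h2 hd).1)).symm⟩
    · exact absurd ((hnd hp h1 h2 hd).1.symm.trans h) f6_pe_ne_po
  have hQw : ∀ {p i : ℕ}, p < τ.P → 1 ≤ i → i ≤ τ.Xr + 2 →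
      apex (τ.po p (w p i)) = succ^[i - 1] (τ.pe p (-18)) := by
    intro p i hp h1 h2
    have h3 := hup hp (i - 1) (by omega)
    rwa [show i - 1 + 1 = i by omega] at h3
  -- levels of the points of the even layer of row `p + 1`
  have hlev : ∀ {p i : ℕ} {l : ℤ}, p < τ.P → 1 ≤ i → i ≤ τ.Xr + 2 →
      (dp (p + 1) i → l = 864) → (¬ dp (p + 1) i → l = 0) →
      succ^[i - 1] (τ.pe (p + 1) (-18)) = par (τ.nu * e (p + 1) i)
        ((τ.Lam τ.i0 + τ.nu ^ 2 * (1210 * p + 864)) + τ.nu ^ 2 * (346 + l)) := by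
    intro p i l hp h1 h2 hl1 hl2
    by_cases hd : dp (p + 1) i
    · rw [(hdp (show p + 1 ≤ τ.P by omega) h1 h2 hd).1, f6_po, hl1 hd]
      congr 1
      push_cast
      ring
    · rw [(hnd (show p + 1 ≤ τ.P by omega) h1 h2 hd).1, f6_pe, hl2 hd]
      congr 1
      push_cast
      ring
  have hpo0 : ∀ (p : ℕ) (x : ℤ), τ.po p x = par (τ.nu * x)
      ((τ.Lam τ.i0 + τ.nu ^ 2 * (1210 * p + 864)) + τ.nu ^ 2 * 0) := by
    intro p x
    rw [f6_po, mul_zero, add_zero]
  refine ⟨w, e, dp, ?_⟩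
  refine
    { w_mono := fun p hp i hi => (hE hp).mono i (by omega)
      w_mem := fun p hp i hi => (hE hp).mem i (by omega)
      w_ends := fun p hp => ⟨(hE hp).w0, (hE hp).w1, (hE hp).w2, (hE hp).wn1, (hE hp).wn2,
        (hE hp).wn3⟩
      cover := ?_
      gap := ?_
      deep := fun p hp i h1 h2 hd => (hdp hp.le h1 h2 hd).2 hp
      shallow := fun p hp i h1 h2 hd => (hnd hp h1 h2 hd).2.1
      e_ends := ?_
      e_cover := ?_
      e_inj := ?_
      top := ?_
      o1 := fun p hp i h1 h2 hd => (hnd hp.le h1 h2 hd).2.2 hp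
      o2 := ?_
      o3 := ?_
      o4 := ?_ }
  · -- cover
    intro p hp x hx hx0 hx1
    have E := hE hp
    have hw2 := E.w2
    have hwn := E.wn1
    obtain ⟨i, hi⟩ : ∃ i, i ≤ τ.Xr ∧ w p (i + 2) ≤ x ∧
        ∀ j, j ≤ τ.Xr → w p (j + 2) ≤ x → j ≤ i := by
      have hne : ({j ∈ range (τ.Xr + 1) | w p (j + 2) ≤ x} : Finset ℕ).Nonempty :=
        ⟨0, by rw [mem_filter, mem_range]; exact ⟨by omega, by rw [hw2]; exact hx0⟩⟩
      refine ⟨({j ∈ range (τ.Xr + 1) | w p (j + 2) ≤ x} : Finset ℕ).max' hne, ?_, ?_, ?_⟩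
      · have := Finset.max'_mem _ hne
        rw [mem_filter, mem_range] at this
        omega
      · have := Finset.max'_mem _ hne
        rw [mem_filter, mem_range] at this
        exact this.2
      · intro j hj hjx
        exact Finset.le_max' _ _ (by rw [mem_filter, mem_range]; exact ⟨by omega, hjx⟩)
    obtain ⟨hi1, hi2, hi3⟩ := hi
    rcases hi2.lt_or_eq with hlt | heq
    · right
      have hne : i ≠ τ.Xr := by
        rintro rfl
        have : w p (τ.Xr + 2) = 24 * τ.Xr := hwn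
        omega
      refine ⟨i + 2, by omega, by omega, hlt, ?_⟩
      by_contra hc
      push Not at hc
      have := hi3 (i + 1) (by omega) hc
      omega
    · exact Or.inl ⟨i + 2, by omega, by omega, heq⟩
  · -- gap
    intro p hp i h1 h2 x hx hx1 hx2
    have E := hE hp
    have h3 := (onto_dent hg F hp (E.mem i (by omega)) (E.mem (i + 1) (by omega)) hx
      (E.memV i (by omega)) (E.memV (i + 1) (by omega)) hx1 hx2 (f6_no E (by omega))).2
    exact hrO hp.le h1 h2 ((hQw hp h1 h2).symm.trans h3)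
  · -- e_ends
    intro p hp
    have h1 : e p 1 = -18 ∧ ¬ dp p 1 := hrE hp le_rfl (by omega) rfl
    have h2 : e p (τ.Xr + 2) = 24 * τ.Xr + 18 ∧ ¬ dp p (τ.Xr + 2) := by
      refine hrE hp (by omega) le_rfl ?_
      rcases hp.lt_or_eq with hlt | rfl
      · rw [← hQw hlt (by omega) le_rfl]
        have : w p (τ.Xr + 2) = 24 * τ.Xr := (hE hlt).wn1
        rw [this]
        exact (margin_right hg F hlt).2.2.2.1
      · exact (top_path hg F).2
    exact ⟨h1.1, h1.2, h2.1, h2.2⟩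
  · -- e_cover
    intro p hp x hx hx1 hx2
    have E := hE hp
    obtain ⟨v, hv, v', hv', hlt, hno, hvV, hvV', hs, ha, hlt2⟩ :=
      onto_shallow hg F hp hx (by omega) (by omega)
    obtain ⟨i, hi, rfl⟩ := E.surj v hv hvV
    obtain ⟨-, -, -, hm1, -⟩ := margin_left hg F hp
    obtain ⟨-, -, -, -, hm2⟩ := margin_right hg F hp
    have hi0 : i ≠ 0 := by
      rintro rfl
      rw [E.w0, hm1] at ha
      have := f6_pe_inj ha
      omega
    have hi3 : i ≠ τ.Xr + 3 := by
      rintro rfl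
      have : w p (τ.Xr + 3) = 24 * τ.Xr + 36 := E.wn2
      rw [this, hm2] at ha
      have := f6_pe_inj ha
      omega
    have hi4 : i ≠ τ.Xr + 4 := by
      rintro rfl
      obtain ⟨j, hj, rfl⟩ := E.surj v' hv' hvV'
      rcases Nat.lt_or_ge j (τ.Xr + 4) with h | h
      · have := f6_mono E h (by omega)
        omega
      · have : j = τ.Xr + 4 := by omega
        subst this
        omega
    have h5 := hrE (y := x) hp.le (i := i) (by omega) (by omega)
      ((hQw hp (by omega) (by omega)).symm.trans ha)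
    exact ⟨i, by omega, by omega, h5.2, h5.1⟩
  · -- e_inj
    intro p hp i j hi1 hi2 hj1 hj2 hdi hdj hij
    refine hinj hp i j hi1 hi2 hj1 hj2 ?_
    rw [hQw hp hi1 hi2, hQw hp hj1 hj2, (hnd hp.le hi1 hi2 hdi).1, (hnd hp.le hj1 hj2 hdj).1, hij]
  · -- top
    intro h hh
    exact hrE le_rfl (by omega) (by omega) ((top_path hg F).1 h hh)
  · -- o2
    intro p hp i h1 h2 hd hd'
    have E := hE hp
    have hwalk := F.walk (τ.i0 + 2 * p + 1) (τ.po p (w p i)) (by unfold i0; omega) (by omega)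
      (E.memV i (by omega))
    rw [E.succ_w i (by omega)] at hwalk
    rcases hwalk with hwalk | ⟨-, hwalk⟩
    · have := hinj hp (i + 1) i (by omega) (by omega) h1 (by omega) hwalk
      omega
    · rw [hQw hp h1 (by omega), hQw hp (show 1 ≤ i + 1 by omega) (by omega),
        (hnd hp.le h1 (by omega) hd).1, (hnd hp.le (by omega) (by omega) hd').1, f6_pe, f6_pe,
        f6_po] at hwalk
      have h3 : 0 < ori (e p i) 0 (e p (i + 1)) 0 (w p (i + 1)) 864 := by
        refine f6_cr (τ := τ) (c := τ.Lam τ.i0 + τ.nu ^ 2 * (1210 * p)) ?_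
        rw [mul_zero, add_zero]
        convert hwalk using 2
        ring_nf
      exact f6_arith h3 (E.mono i (by omega)) (E.mono (i + 1) (by omega))
        ((hnd hp.le h1 (by omega) hd).2.2 hp) ((hnd hp.le (by omega) (by omega) hd').2.2 hp)
  · -- o3
    intro p hp i h1 h2 l l' hl1 hl0 hl1' hl0'
    have htri := F.tri (τ.i0 + 2 * (p + 1)) (succ^[i - 1] (τ.pe (p + 1) (-18)))
      (by unfold i0; omega) (by omega) (f6_start F (by omega) _)
    rw [← Function.iterate_succ_apply' succ, hdn hp (i - 1) (by omega),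
      show (i - 1).succ = i + 1 - 1 by omega, show i - 1 + 2 = i + 1 by omega,
      hlev hp (by omega) (by omega) hl1' hl0', hlev hp h1 (by omega) hl1 hl0, hpo0] at htri
    exact f6_cr htri
  · -- o4
    intro p hp i h1 h2 l' hl1' hl0'
    have E := hE hp
    have hwalk := F.walk (τ.i0 + 2 * (p + 1)) (succ^[i - 1] (τ.pe (p + 1) (-18)))
      (by unfold i0; omega) (by omega) (f6_start F (by omega) _)
    rw [← Function.iterate_succ_apply' succ, hdn hp (i - 1) (by omega),
      show (i - 1).succ = i by omega, show i - 1 + 2 = i + 1 by omega, hdn hp i (by omega)] at hwalk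
    rcases hwalk with hwalk | ⟨-, hwalk⟩
    · have h3 := f6_po_inj hwalk
      have h4 := E.mono (i + 1) (by omega)
      have h5 : w p (i + 1 + 1) = w p (i + 2) := rfl
      omega
    · have h6 := hlev hp (show 1 ≤ i + 1 by omega) (by omega) hl1' hl0'
      rw [show i + 1 - 1 = i by omega] at h6
      rw [h6, hpo0, hpo0] at hwalk
      exact f6_cr hwalk

end Tab

end Pool.Agent.Helper70.MD
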