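import Pool.Agent.Helper70.MD.FDefs

/-!
MD-F7: from the one-dimensional system to a solution of the loop system.

Define `st p h = S` if `¬ inL p h`; otherwise `D` if `dp p (h+2)`; otherwise `B` if
`e p (h+2) = 24 h + 24`; otherwise `A`. Fix `p < P` and drop it. Write `s h = shift p h`. Elements of `CO`
in `[0, 24 Xr]`: the `24 k` with `k` not interior (`intr`), and `24 h + 12 + s h` for loop columns `h`.
`Good` gives `|s| ≤ 6`, and `|s| ≤ 2` for the first and last column of a loop, loops have at
least two columns, columns `h < 8` and `h ≥ Xr - 8` are not in loops.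
Claim J(h) for `h ≤ Xr`: (1) `e (2 + h') = ev st p h'` and (`dp (2 + h') ↔ st p h' = D`) for `h' < h`;
(2) `w (2 + k) = od st p k` for `k ≤ h`; (3) `okPair (st p h') (st p (h'+1))` for `h' + 1 < h`; (4) if
`1 ≤ h` and `st p (h-1) = B` then `inL p h`.
J(0): `w 2 = 0 = od 0`. Step from `h` to `h+1`, `h < Xr`. An element of `CO` between two consecutive
`w` is a dent, deep, and the only one in its gap (`gap`). For a shallow index (`o1`):
`(e i - w i)(e i - w (i+1)) < 864`. Different shallow indices have different `e` (`e_inj`), and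
`e 1 = -18`, `e (Xr + 2) = 24 Xr + 18` are shallow.

Case 1: column `h` not in a loop. Then `st (h-1) ≠ B` (by (4)), `w (2+h) = 24 h`, `24 (h+1) ∈ CO` is
the next element of `CO`, `24 h + 12 ∈ CE`.
1a: `24(h+1)` is not a vertex (not `w (3+h)`). Then `h + 1 < Xr`, and it is in the gap after
`w (2+h)`, `dp (2+h)`. By `e_cover` `24 h + 12 = e j`, `j` shallow; `j ≠ 1`, `j ≥ 3 + h` (for
`h' < h` `ev h' ≤ 24 h`, or not equal to `24 h + 12`). Then `w j ≥ w (3+h) >` `24 (h+1)`, so `w j` is at
least the next element of `CO` after `24 (h+1)` and `w (j+1)` at least the second next: if `h+1` is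
not in a loop: `w j ≥ 24 h + 48`, `w (j+1) ≥ 24 h + 58`, product of the distances `≥ 36 * 46`; if
`h+1` is in a loop it is a first column and `w j ≥ 24 h + 34`, `w (j+1) ≥ 24 h + 54`, product
`≥ 22 * 42 = 924 ≥ 864`. Contradiction with `o1`.
1b: `w (3+h) = 24 (h+1)`. There is no element of `CO` between, so `2+h` is shallow;
`e = e (2+h)` satisfies `(e - 24 h)(e - 24 h - 24) < 864`, i.e. `|e - 24 h - 12| ≤ 31`. Elements of
`CE` in this range: `24 h + 12`; `24 h - 12` if column `h-1` is not in a loop (`h ≥ 1`), but this is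
`e (1+h)`; `-18` if `h = 0`, this is `e 1`; `24 h + 36` if `h + 1 < Xr` is not in a loop;
`24 Xr + 18` if `h + 1 = Xr`, this is `e (Xr+2)`. (Multiples of 24 in this range are `24 h`,
`24 (h+1)`, not interior.) Suppose `e = 24 h + 36`. `24 h + 12 = e j`, `j` shallow,
`j ≥ 3 + h` as in 1a. `j = 3 + h` contradicts `o2` at `2 + h`. `j ≥ 4 + h`: `w j ≥ 24 h + 48`,
`w (j+1) ≥ 24 h + 58`: contradiction. So `e (2+h) = 24 h + 12 = ev h`, `st h = S`,
`w (3+h) = 24(h+1) = od (h+1)`; (3): `okPair (st (h-1)) S` as `st (h-1) ≠ B`.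

Case 2: column `h` in a loop, first column (`h-1` not in a loop). `w (2+h) = 24 h`,
`y = 24 h + 12 + s h` is the next element of `CO`, `|s h| ≤ 2`, column `h+1` is in the loop, `h + 1` is
interior, `24 (h+1) ∈ CE`, and the element of `CO` after `y` is `y' = 24 h + 36 + s (h+1)`.
2a: `y` is a dent: `dp (2+h)`, `e (2+h) = y = ev h` with `st h = D`. `w (3+h) ≥ y'`, and `y'` is not in
the same gap, so `w (3+h) = y' = od (h+1)`. 2b: `w (3+h) = y`, index `2+h` is shallow;
`u = e (2+h) - 24 h` satisfies `u (u - 12 - s h) < 864`. Elements of `CE`: `u = 24` is possible;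
`u = -12` is `e (1+h)`; `u = 36` is not in `CE` (column `h+1` is in a loop); `u = 48` or more:
`48 * 34 > 864`; `u = -36` or less: `36 * 46 > 864`; `u = 0`, `u = -24` are not interior. So
`e (2+h) = 24 (h+1)`, `st h = B`, `od (h+1) = y` (`h+1` interior, `st h = B`). (4) holds as
column `h+1` is in the loop.

Case 3: columns `h-1`, `h` in the loop, `st (h-1) = B`. `w (2+h) = 24 (h-1) + 12 + s (h-1)`,
`y = 24 h + 12 + s h` the next element of `CO`. 3a: `y` a dent: as 2a; the next element `y'` of `CO`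
after `y` is `24 h + 36 + s (h+1)` if `h+1` is in the loop, otherwise `24 (h+1)`; it is `w (3+h)` and
equals `od (h+1)` with `st h = D`. 3b: `w (3+h) = y`, `2+h` shallow. Let `e = e (2+h)`:
`(e - 24 h + 12 - s (h-1)) (e - 24 h - 12 - s h) < 864`. Elements of `CE`: `24 h` is `e (1+h)`
(`st (h-1) = B`). `24 (h-1)`, if interior, is `e h` (then column `h-2` is in the loop and
`st (h-2) = B` because of (3)). `24 (h-1) - 12` if column `h-2` is not in a loop: then `h-1` is a first
column and the product is `(24 + s (h-1)) (48 + s h) ≥ 22 * 42`. Smaller ones are farther: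
`≥ 30 * 54`. `24 h + 36` if `h+1` is not in a loop: then `h` is a last column and the product is
`(48 - s (h-1)) (24 - s h) ≥ 42 * 22`. `24 (h+2)` or larger: `≥ 54 * 30`. So
`e (2+h) = 24 (h+1)` and it is in `CE`, so `h+1` is interior, column `h+1` is in the loop: (4). `st h = B`,
`od (h+1) = y`.

Case 4: columns `h-1`, `h` in the loop, `st (h-1) ∈ {D, A}`. `w (2+h) = od h = 24 h + 12 + s h`; `24 h` is
interior, in `CE`. By `e_cover` `24 h = e j`, `j` shallow. `j ≥ 2 + h`: for `h' < h`, `ev h' = 24 h` only if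
`h' = h-1` and `st (h-1) = B`. Suppose `j ≥ 3 + h`. If `h+1` is in the loop then
`w j ≥ 24 h + 30`, `w (j+1) ≥ 24 h + 48`: contradiction with `o1`. Otherwise `w j ≥ 24 h + 24`,
`w (j+1) ≥ 24 h + 48` (column `h+1` is not in a loop): `24 * 48 > 864`, contradiction. So
`e (2+h) = 24 h`, shallow, `st h = A` (`24 h ≠ 24 h + 24`). As `2+h` is shallow there is no dent in its gap and
`w (3+h)` is the next element of `CO`, which is `24 h + 36 + s (h+1)` if `h+1` is in the loop, else
`24 (h+1)`; in both cases `od (h+1)`.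

(In all cases one checks `st h` computed from its definition agrees: for instance in case 4,
`e (h+2) = 24 h`.) `OkSt`: for `p ≥ P` all states are `S`; for `p < P` and `h ≥ Xr` (no loops) also; the pair
`(Xr - 1, Xr)` is `(S, S)`. The last column `Xr - 1` is not in a loop.
Checks: for `p < P`, `1 ≤ k < Xr`: `Chk1` is `o3` with `i = k + 1`, `Chk2` is `o4` with
`i = k + 1`, using for row `p`: `w p (k + 2) = od st p k`, `w p (k + 3) = od st p (k+1)`, and for row
`p + 1` (by the claim if `p + 1 < P`, by `top` if `p + 1 = P`, where all states are `S`):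
`e (p+1) (k+2) = ev st (p+1) k`, `e (p+1) (k+1) = ev st (p+1) (k-1)`, `dp (p+1) (h+2) ↔ st (p+1) h = D`.
-/

set_option autoImplicit false

namespace Pool.Agent.Helper70.MD

open Finset

open scoped Classical

namespace F7

/-- Membership in `CO`. -/
def CO (N : ℕ) (L : ℕ → Prop) (s : ℕ → ℤ) (x : ℤ) : Prop :=
  x = -72 ∨ x = -36 ∨ x = 24 * (N : ℤ) + 36 ∨ x = 24 * (N : ℤ) + 72 ∨
    (∃ k : ℕ, k ≤ N ∧ ¬ (L (k - 1) ∧ L k) ∧ x = 24 * (k : ℤ)) ∨
    (∃ h : ℕ, h < N ∧ L h ∧ x = 24 * (h : ℤ) + 12 + s h)

/-- Membership in `CE`. -/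
def CE (N : ℕ) (L : ℕ → Prop) (x : ℤ) : Prop :=
  x = -90 ∨ x = -54 ∨ x = -18 ∨ x = 24 * (N : ℤ) + 18 ∨ x = 24 * (N : ℤ) + 54 ∨
    x = 24 * (N : ℤ) + 90 ∨
    (∃ h : ℕ, h < N ∧ ¬ L h ∧ x = 24 * (h : ℤ) + 12) ∨
    (∃ k : ℕ, k < N ∧ (L (k - 1) ∧ L k) ∧ x = 24 * (k : ℤ))

/-- One row of the system. -/
structure Row (N : ℕ) (L : ℕ → Prop) (s : ℕ → ℤ) (w e : ℕ → ℤ) (dp : ℕ → Prop) : Prop where
  Nge : 24 ≤ N
  left : ∀ h, h < 8 → ¬ L h
  right : ∀ h, N ≤ h + 8 → ¬ L h
  bd : ∀ h, L h → -6 ≤ s h ∧ s h ≤ 6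
  first : ∀ h, L (h + 1) → ¬ L h → -2 ≤ s (h + 1) ∧ s (h + 1) ≤ 2 ∧ L (h + 2)
  last : ∀ h, L h → ¬ L (h + 1) → -2 ≤ s h ∧ s h ≤ 2
  wmono : ∀ i, i < N + 4 → w i < w (i + 1)
  wmem : ∀ i, i ≤ N + 4 → CO N L s (w i)
  w2 : w 2 = 0
  wN : w (N + 2) = 24 * (N : ℤ)
  gap : ∀ i, 1 ≤ i → i ≤ N + 2 → ∀ x, CO N L s x → w i < x → x < w (i + 1) → dp i ∧ e i = x
  deep : ∀ i, 1 ≤ i → i ≤ N + 2 → dp i → CO N L s (e i) ∧ w i < e i ∧ e i < w (i + 1)
  shallow : ∀ i, 1 ≤ i → i ≤ N + 2 → ¬ dp i → CE N L (e i)
  e1 : e 1 = -18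
  d1 : ¬ dp 1
  eN : e (N + 2) = 24 * (N : ℤ) + 18
  dN : ¬ dp (N + 2)
  cov : ∀ x, CE N L x → -18 ≤ x → x ≤ 24 * (N : ℤ) + 18 →
    ∃ i, 1 ≤ i ∧ i ≤ N + 2 ∧ ¬ dp i ∧ e i = x
  inj : ∀ i j, 1 ≤ i → i ≤ N + 2 → 1 ≤ j → j ≤ N + 2 → ¬ dp i → ¬ dp j → e i = e j → i = j
  o1 : ∀ i, 1 ≤ i → i ≤ N + 2 → ¬ dp i → (e i - w i) * (e i - w (i + 1)) < 864
  o2 : ∀ i, 1 ≤ i → i ≤ N + 1 → ¬ dp i → ¬ dp (i + 1) → e i < e (i + 1)

/-- Even positions. -/
def evv (s : ℕ → ℤ) (st : ℕ → St) (h : ℕ) : ℤ :=
  match st h with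
  | .S => 24 * h + 12
  | .B => 24 * h + 24
  | .A => 24 * h
  | .D => 24 * h + 12 + s h

/-- Odd positions. -/
noncomputable def odv (L : ℕ → Prop) (s : ℕ → ℤ) (st : ℕ → St) (k : ℕ) : ℤ :=
  if L (k - 1) ∧ L k then
    (if st (k - 1) = .B then 24 * ((k : ℤ) - 1) + 12 + s (k - 1)
     else 24 * k + 12 + s k)
  else 24 * k

/-- The definition of the states. -/
structure IsSt (L : ℕ → Prop) (e : ℕ → ℤ) (dp : ℕ → Prop) (st : ℕ → St) : Prop where
  s : ∀ h, ¬ L h → st h = .S
  d : ∀ h, L h → dp (h + 2) → st h = .D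
  b : ∀ h, L h → ¬ dp (h + 2) → e (h + 2) = 24 * (h : ℤ) + 24 → st h = .B
  a : ∀ h, L h → ¬ dp (h + 2) → e (h + 2) ≠ 24 * (h : ℤ) + 24 → st h = .A

/-- The claim. -/
structure J (L : ℕ → Prop) (s : ℕ → ℤ) (w e : ℕ → ℤ) (dp : ℕ → Prop) (st : ℕ → St)
    (h : ℕ) : Prop where
  ev : ∀ h' < h, e (h' + 2) = evv s st h' ∧ (dp (h' + 2) ↔ st h' = .D)
  od : ∀ k ≤ h, w (k + 2) = odv L s st k
  ok : ∀ h', h' + 1 < h → okPair (st h') (st (h' + 1))
  b : ∀ g, h = g + 1 → st g = .B → L h

/-- What has to be proved in a step. -/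
def StepR (L : ℕ → Prop) (s : ℕ → ℤ) (w e : ℕ → ℤ) (dp : ℕ → Prop) (st : ℕ → St)
    (h : ℕ) : Prop :=
  e (h + 2) = evv s st h ∧ (dp (h + 2) ↔ st h = .D) ∧ w (h + 3) = odv L s st (h + 1) ∧
    (∀ g, h = g + 1 → okPair (st g) (st h)) ∧ (st h = .B → L (h + 1))

theorem far_r {e w w' a b : ℤ} (h1 : a ≤ w - e) (h2 : b ≤ w' - e) (ha : 0 ≤ a) (hb : 0 ≤ b) :
    a * b ≤ (e - w) * (e - w') := by
  have h3 := mul_le_mul h1 h2 hb (ha.trans h1)
  have h4 : (e - w) * (e - w') = (w - e) * (w' - e) := by ring
  rw [h4]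
  exact h3

theorem far_l {e w w' a b : ℤ} (h1 : a ≤ e - w) (h2 : b ≤ e - w') (ha : 0 ≤ a) (hb : 0 ≤ b) :
    a * b ≤ (e - w) * (e - w') := mul_le_mul h1 h2 hb (ha.trans h1)

section

variable {N : ℕ} {L : ℕ → Prop} {s : ℕ → ℤ} {w e : ℕ → ℤ} {dp : ℕ → Prop} {st : ℕ → St}

theorem Row.N1 (R : Row N L s w e dp) {h : ℕ} (hh : h < N) (hL : ¬ L h) {x : ℤ}
    (hx : CO N L s x) (hgt : 24 * (h : ℤ) < x) : 24 * (h : ℤ) + 24 ≤ x := by
  rcases hx with rfl | rfl | rfl | rfl | ⟨k, hk, _, rfl⟩ | ⟨h', hh', hL', rfl⟩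
  · omega
  · omega
  · omega
  · omega
  · omega
  · have hb := R.bd h' hL'
    have hne : h' ≠ h := fun h => hL (h ▸ hL')
    omega

theorem Row.N2 (R : Row N L s w e dp) {h : ℕ} (hL : L h) {x : ℤ}
    (hx : CO N L s x) (hgt : 24 * (h : ℤ) < x) : 24 * (h : ℤ) + 12 + s h ≤ x := by
  have hb0 := R.bd h hL
  have hN : h + 8 < N := by
    by_contra hcon
    exact R.right h (by omega) hL
  rcases hx with rfl | rfl | rfl | rfl | ⟨k, hk, _, rfl⟩ | ⟨h', hh', hL', rfl⟩
  · omega
  · omega
  · omega
  · omega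
  · omega
  · have hb := R.bd h' hL'
    by_cases hne : h' = h
    · rw [hne]
    · omega

theorem Row.N3a (R : Row N L s w e dp) {h : ℕ} (hL : L h) (hL1 : L (h + 1)) {x : ℤ}
    (hx : CO N L s x) (hgt : 24 * (h : ℤ) + 12 + s h < x) :
    24 * ((h : ℤ) + 1) + 12 + s (h + 1) ≤ x := by
  have hb0 := R.bd h hL
  have hb1 := R.bd (h + 1) hL1
  have hN : h + 8 < N := by
    by_contra hcon
    exact R.right h (by omega) hL
  rcases hx with rfl | rfl | rfl | rfl | ⟨k, hk, hint, rfl⟩ | ⟨h', hh', hL', rfl⟩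
  · omega
  · omega
  · omega
  · omega
  · have hne : k ≠ h + 1 := by
      rintro rfl
      exact hint ⟨by simpa using hL, hL1⟩
    omega
  · have hb := R.bd h' hL'
    by_cases hne : h' = h
    · rw [hne] at hgt
      omega
    · by_cases hne1 : h' = h + 1
      · rw [hne1]
        push_cast
        omega
      · omega

theorem Row.N3b (R : Row N L s w e dp) {h : ℕ} (hL : L h) (hL1 : ¬ L (h + 1)) {x : ℤ}
    (hx : CO N L s x) (hgt : 24 * (h : ℤ) + 12 + s h < x) :
    24 * (h : ℤ) + 24 ≤ x := by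
  have hb0 := R.bd h hL
  have hN : h + 8 < N := by
    by_contra hcon
    exact R.right h (by omega) hL
  rcases hx with rfl | rfl | rfl | rfl | ⟨k, hk, hint, rfl⟩ | ⟨h', hh', hL', rfl⟩
  · omega
  · omega
  · omega
  · omega
  · omega
  · have hb := R.bd h' hL'
    by_cases hne : h' = h
    · rw [hne] at hgt
      omega
    · have hne1 : h' ≠ h + 1 := fun h => hL1 (h ▸ hL')
      omega

theorem CO_mul {k : ℕ} (hk : k ≤ N) (h : ¬ (L (k - 1) ∧ L k)) : CO N L s (24 * (k : ℤ)) :=
  Or.inr (Or.inr (Or.inr (Or.inr (Or.inl ⟨k, hk, h, rfl⟩))))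

theorem Row.lt_N (R : Row N L s w e dp) {h : ℕ} (hL : L h) : h + 8 < N := by
  by_contra hcon
  exact R.right h (by omega) hL

theorem Row.ge_8 (R : Row N L s w e dp) {h : ℕ} (hL : L h) : 8 ≤ h := by
  by_contra hcon
  exact R.left h (by omega) hL

theorem Row.CO_y (R : Row N L s w e dp) {h : ℕ} (hL : L h) :
    CO N L s (24 * (h : ℤ) + 12 + s h) :=
  Or.inr (Or.inr (Or.inr (Or.inr (Or.inr ⟨h, by have := R.lt_N hL; omega, hL, rfl⟩))))

/-- The next vertex: either the next element of `CO`, or this element is a dent. -/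
theorem Row.next_eq (R : Row N L s w e dp) {i : ℕ} (h1 : 1 ≤ i) (hi : i ≤ N + 2) {y : ℤ}
    (hy : CO N L s y) (hwy : w i < y) (hmin : ∀ x, CO N L s x → w i < x → y ≤ x) :
    (w (i + 1) = y ∧ ¬ dp i) ∨ (dp i ∧ e i = y ∧ y < w (i + 1)) := by
  have h2 := hmin _ (R.wmem (i + 1) (by omega)) (R.wmono i (by omega))
  rcases eq_or_lt_of_le h2 with h3 | h3
  · left
    refine ⟨h3.symm, fun hd => ?_⟩
    obtain ⟨h4, h5, h6⟩ := R.deep i h1 hi hd
    have := hmin _ h4 h5
    omega
  · right
    obtain ⟨h4, h5⟩ := R.gap i h1 hi y hy hwy h3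
    exact ⟨h4, h5, h3⟩

theorem Row.next2_eq (R : Row N L s w e dp) {i : ℕ} (h1 : 1 ≤ i) (hi : i ≤ N + 2) {y y' : ℤ}
    (hw : w i < y) (hey : e i = y) (hlt : y < w (i + 1)) (hy' : CO N L s y') (hyy : y < y')
    (hmin : ∀ x, CO N L s x → y < x → y' ≤ x) : w (i + 1) = y' := by
  have h2 := hmin _ (R.wmem (i + 1) (by omega)) hlt
  rcases eq_or_lt_of_le h2 with h3 | h3
  · exact h3.symm
  · obtain ⟨_, h5⟩ := R.gap i h1 hi y' hy' (hw.trans hyy) h3
    omega

theorem Row.next1_eq (R : Row N L s w e dp) {i : ℕ} (h1 : 1 ≤ i) (hi : i ≤ N + 2) {y : ℤ}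
    (hd : ¬ dp i) (hy : CO N L s y) (hwy : w i < y)
    (hmin : ∀ x, CO N L s x → w i < x → y ≤ x) : w (i + 1) = y := by
  rcases R.next_eq h1 hi hy hwy hmin with h | h
  · exact h.1
  · exact absurd h.1 hd

theorem Row.w_le (R : Row N L s w e dp) {a b : ℕ} (hab : a ≤ b) (hb : b ≤ N + 4) :
    w a ≤ w b := by
  induction b with
  | zero =>
    have : a = 0 := by omega
    rw [this]
  | succ b ih =>
    rcases eq_or_lt_of_le hab with h | h
    · rw [h]
    · exact (ih (by omega) (by omega)).trans (R.wmono b (by omega)).le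

/-- The shallow even positions with small index. -/
theorem before (R : Row N L s w e dp) {h : ℕ} (hJ : J L s w e dp st h) {j : ℕ} (h1 : 1 ≤ j)
    (hj : j < h + 2) (hd : ¬ dp j) :
    e j = -18 ∨ ∃ h' < h, j = h' + 2 ∧ ((e j = 24 * (h' : ℤ) + 12 ∧ st h' = .S) ∨
      (e j = 24 * (h' : ℤ) + 24 ∧ st h' = .B) ∨ (e j = 24 * (h' : ℤ) ∧ st h' = .A)) := by
  rcases Nat.lt_or_ge j 2 with h2 | h2
  · left
    have : j = 1 := by omega
    rw [this]
    exact R.e1
  · right
    obtain ⟨h', rfl⟩ : ∃ h', j = h' + 2 := ⟨j - 2, by omega⟩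
    refine ⟨h', by omega, rfl, ?_⟩
    obtain ⟨h3, h4⟩ := hJ.ev h' (by omega)
    rw [h3]
    unfold evv
    rcases hs : st h' with _ | _ | _ | _
    · left; exact ⟨rfl, rfl⟩
    · right; left; exact ⟨rfl, rfl⟩
    · exact absurd (h4.2 hs) hd
    · right; right; exact ⟨rfl, rfl⟩

theorem case1 (R : Row N L s w e dp) (hst : IsSt L e dp st) {h : ℕ} (hJ : J L s w e dp st h)
    (hh : h < N) (hL : ¬ L h) : StepR L s w e dp st h := by
  have hS : st h = .S := hst.s h hL
  have hw : w (h + 2) = 24 * (h : ℤ) := by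
    rw [hJ.od h le_rfl]
    unfold odv
    rw [if_neg (fun hc => hL hc.2)]
  have hni : ¬ (L (h + 1 - 1) ∧ L (h + 1)) := fun hc => hL (by simpa using hc.1)
  have hyC : CO N L s (24 * ((h + 1 : ℕ) : ℤ)) := CO_mul (by omega) hni
  have hCE : CE N L (24 * (h : ℤ) + 12) :=
    Or.inr (Or.inr (Or.inr (Or.inr (Or.inr (Or.inr (Or.inl ⟨h, hh, hL, rfl⟩))))))
  obtain ⟨j, hj1, hjN, hjd, hje⟩ := R.cov _ hCE (by omega) (by omega)
  have hj2 : h + 2 ≤ j := by
    by_contra hcon
    rcases before R hJ hj1 (by omega) hjd with h3 | ⟨h', hh', _, h4⟩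
    · omega
    · rcases h4 with ⟨h5, _⟩ | ⟨h5, _⟩ | ⟨h5, _⟩ <;> omega
  rcases R.next_eq (i := h + 2) (by omega) (by omega) hyC (by rw [hw]; push_cast; omega)
    (fun x hx hgt => by
      rw [hw] at hgt
      have := R.N1 hh hL hx hgt
      push_cast
      omega) with ⟨hw3, hnd⟩ | ⟨hd, hey, hlt⟩
  · -- the next boundary is a vertex
    have hw3' : w (h + 3) = 24 * (h : ℤ) + 24 := by
      have : w (h + 3) = 24 * ((h + 1 : ℕ) : ℤ) := hw3
      rw [this]; push_cast; ring
    have ho := R.o1 (h + 2) (by omega) (by omega) hnd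
    have hw3'' : w (h + 2 + 1) = 24 * (h : ℤ) + 24 := hw3'
    rw [hw, hw3''] at ho
    have hu1 : e (h + 2) < 24 * (h : ℤ) + 44 := by
      by_contra hcon
      have := far_l (e := e (h + 2)) (w := 24 * (h : ℤ)) (w' := 24 * (h : ℤ) + 24) (a := 44)
        (b := 20) (by omega) (by omega) (by norm_num) (by norm_num)
      linarith
    have hu2 : 24 * (h : ℤ) - 20 < e (h + 2) := by
      by_contra hcon
      have := far_r (e := e (h + 2)) (w := 24 * (h : ℤ)) (w' := 24 * (h : ℤ) + 24) (a := 20)
        (b := 44) (by omega) (by omega) (by norm_num) (by norm_num)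
      linarith
    have he : e (h + 2) = 24 * (h : ℤ) + 12 := by
      rcases R.shallow (h + 2) (by omega) (by omega) hnd with hc | hc | hc | hc | hc | hc |
        ⟨h', hh', hL', hc⟩ | ⟨k, hk, hint, hc⟩
      · omega
      · omega
      · have := R.inj 1 (h + 2) le_rfl (by omega) (by omega) (by omega) R.d1 hnd
          (by rw [R.e1, hc])
        omega
      · have := R.inj (N + 2) (h + 2) (by omega) (by omega) (by omega) (by omega) R.dN hnd
          (by rw [R.eN, hc])
        omega
      · omega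
      · omega
      · rcases Nat.lt_trichotomy h' h with h6 | h6 | h6
        · have h7 : h' + 1 = h := by omega
          have hSh' : st h' = .S := hst.s h' hL'
          obtain ⟨h8, h9⟩ := hJ.ev h' h6
          have h10 : ¬ dp (h' + 2) := by
            rw [h9, hSh']
            simp
          have h11 : e (h' + 2) = 24 * (h' : ℤ) + 12 := by
            rw [h8]
            unfold evv
            rw [hSh']
          have := R.inj (h' + 2) (h + 2) (by omega) (by omega) (by omega) (by omega) h10 hnd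
            (by rw [h11, hc])
          omega
        · rw [hc, h6]
        · exfalso
          have h7 : h' = h + 1 := by omega
          subst h7
          have hj3 : j ≠ h + 2 := by
            rintro rfl
            push_cast at hc
            omega
          have hj4 : j ≠ h + 3 := by
            rintro rfl
            have := R.o2 (h + 2) (by omega) (by omega) hnd hjd
            have hje' : e (h + 2 + 1) = 24 * (h : ℤ) + 12 := hje
            push_cast at hc
            omega
          have h12 : w (h + 4) ≤ w j := R.w_le (by omega) (by omega)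
          have h13 := R.wmono (h + 3) (by omega)
          have h14 := R.N1 hh' hL' (R.wmem (h + 4) (by omega)) (by
            have : w (h + 3) < w (h + 4) := h13
            push_cast
            omega)
          have h15 := R.wmono j (by omega)
          have h16 := R.o1 j hj1 hjN hjd
          rw [hje] at h16
          push_cast at h14
          have h17 := far_r (e := 24 * (h : ℤ) + 12) (w := w j) (w' := w (j + 1)) (a := 36)
            (b := 37) (by omega) (by omega) (by norm_num) (by norm_num)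
          linarith
      · exfalso
        rcases Nat.lt_trichotomy k h with h6 | h6 | h6
        · omega
        · exact hL (h6 ▸ hint.2)
        · have h7 : k = h + 1 := by omega
          subst h7
          exact hL (by simpa using hint.1)
    refine ⟨?_, ?_, ?_, ?_, ?_⟩
    · rw [he]
      unfold evv
      rw [hS]
    · rw [hS]
      simp [hnd]
    · rw [hw3']
      unfold odv
      rw [if_neg hni]
      push_cast
      ring
    · intro g hg
      have hgB : st g ≠ .B := fun hB => hL (hJ.b g hg hB)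
      rw [hS]
      rcases hs : st g with _ | _ | _ | _
      · trivial
      · exact absurd hs hgB
      · trivial
      · trivial
    · intro hB
      rw [hS] at hB
      exact absurd hB (by decide)
  · -- the next boundary is a dent: contradiction
    exfalso
    have hlt' : 24 * (h : ℤ) + 24 < w (h + 3) := by
      have : 24 * ((h + 1 : ℕ) : ℤ) < w (h + 3) := hlt
      push_cast at this
      omega
    have hN1 : h + 1 < N := by
      by_contra hcon
      have h3 : h + 1 = N := by omega
      have h4 : w (h + 3) = 24 * (N : ℤ) := by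
        have h5 : h + 3 = N + 2 := by omega
        rw [h5]
        exact R.wN
      rw [h4, ← h3] at hlt'
      push_cast at hlt'
      omega
    have hj3 : j ≠ h + 2 := by
      rintro rfl
      exact hjd hd
    have h12 : w (h + 3) ≤ w j := R.w_le (by omega) (by omega)
    have h15 := R.wmono j (by omega)
    have h16 := R.o1 j hj1 hjN hjd
    rw [hje] at h16
    by_cases hL1 : L (h + 1)
    · obtain ⟨hs1, hs2, hL2⟩ := R.first h hL1 hL
      have h17 := R.N2 hL1 (R.wmem j (by omega)) (by push_cast; omega)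
      have h18 := R.N3a hL1 hL2 (R.wmem (j + 1) (by omega)) (by omega)
      have hb2 := R.bd (h + 2) hL2
      have e2 : h + 1 + 1 = h + 2 := rfl
      rw [e2] at h18
      push_cast at h17 h18
      have h19 := far_r (e := 24 * (h : ℤ) + 12) (w := w j) (w' := w (j + 1)) (a := 22)
        (b := 42) (by omega) (by omega) (by norm_num) (by norm_num)
      linarith
    · have h17 := R.N1 hN1 hL1 (R.wmem j (by omega)) (by push_cast; omega)
      push_cast at h17
      have h19 := far_r (e := 24 * (h : ℤ) + 12) (w := w j) (w' := w (j + 1)) (a := 36)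
        (b := 37) (by omega) (by omega) (by norm_num) (by norm_num)
      linarith

theorem IsSt.ne_S (hst : IsSt L e dp st) {h : ℕ} (hL : L h) : st h ≠ .S := by
  intro hS
  by_cases hd : dp (h + 2)
  · rw [hst.d h hL hd] at hS
    exact absurd hS (by decide)
  · by_cases he : e (h + 2) = 24 * (h : ℤ) + 24
    · rw [hst.b h hL hd he] at hS
      exact absurd hS (by decide)
    · rw [hst.a h hL hd he] at hS
      exact absurd hS (by decide)

/-- The common part: a dent in a loop column, and the next vertex. -/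
theorem dent_step (R : Row N L s w e dp) (hst : IsSt L e dp st) {h : ℕ} (hL : L h)
    (hw : w (h + 2) < 24 * (h : ℤ) + 12 + s h) (hd : dp (h + 2))
    (hey : e (h + 2) = 24 * (h : ℤ) + 12 + s h) (hlt : 24 * (h : ℤ) + 12 + s h < w (h + 2 + 1))
    (hok : ∀ g, h = g + 1 → okPair (st g) .D) : StepR L s w e dp st h := by
  have hN := R.lt_N hL
  have hD : st h = .D := hst.d h hL hd
  refine ⟨?_, ?_, ?_, ?_, ?_⟩
  · rw [hey]
    unfold evv
    rw [hD]
  · rw [hD]
    simp [hd]
  · by_cases hL1 : L (h + 1)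
    · have h1 := R.next2_eq (i := h + 2) (by omega) (by omega) hw hey hlt (R.CO_y hL1)
        (by
          have hb := R.bd h hL
          have hb1 := R.bd (h + 1) hL1
          push_cast
          omega)
        (fun x hx hgt => by
          have := R.N3a hL hL1 hx hgt
          push_cast
          omega)
      show w (h + 2 + 1) = _
      rw [h1]
      unfold odv
      rw [if_pos ⟨by simpa using hL, hL1⟩, Nat.add_sub_cancel, hD, if_neg (by decide)]
    · have hni : ¬ (L (h + 1 - 1) ∧ L (h + 1)) := fun hc => hL1 hc.2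
      have h1 := R.next2_eq (i := h + 2) (by omega) (by omega) hw hey hlt
        (CO_mul (k := h + 1) (by omega) hni)
        (by
          have hb := R.bd h hL
          push_cast
          omega)
        (fun x hx hgt => by
          have := R.N3b hL hL1 hx hgt
          push_cast
          omega)
      show w (h + 2 + 1) = _
      rw [h1]
      unfold odv
      rw [if_neg hni]
  · intro g hg
    rw [hD]
    exact hok g hg
  · intro hB
    rw [hD] at hB
    exact absurd hB (by decide)

/-- The common part: the shallow position at the right boundary. -/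
theorem right_step (R : Row N L s w e dp) (hst : IsSt L e dp st) {h : ℕ} (hL : L h)
    (hL1 : L (h + 1)) (hnd : ¬ dp (h + 2)) (he : e (h + 2) = 24 * (h : ℤ) + 24)
    (hw3 : w (h + 2 + 1) = 24 * (h : ℤ) + 12 + s h)
    (hok : ∀ g, h = g + 1 → okPair (st g) .B) : StepR L s w e dp st h := by
  have hB : st h = .B := hst.b h hL hnd he
  refine ⟨?_, ?_, ?_, ?_, ?_⟩
  · rw [he]
    unfold evv
    rw [hB]
  · rw [hB]
    simp [hnd]
  · show w (h + 2 + 1) = _
    rw [hw3]
    unfold odv
    rw [if_pos ⟨by simpa using hL, hL1⟩, Nat.add_sub_cancel, hB, if_pos rfl]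
    push_cast
    ring
  · intro g hg
    rw [hB]
    exact hok g hg
  · intro _
    exact hL1

theorem case2 (R : Row N L s w e dp) (hst : IsSt L e dp st) {h g : ℕ} (hg : h = g + 1)
    (hJ : J L s w e dp st h) (hL : L h) (hLg : ¬ L g) : StepR L s w e dp st h := by
  have hN := R.lt_N hL
  have h8 := R.ge_8 hL
  have hh1 : h - 1 = g := by omega
  have hSg : st g = .S := hst.s g hLg
  obtain ⟨hs1, hs2, hL1⟩ : -2 ≤ s h ∧ s h ≤ 2 ∧ L (h + 1) := by
    have := R.first g (hg ▸ hL) hLg
    rw [hg]
    exact this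
  have hw : w (h + 2) = 24 * (h : ℤ) := by
    rw [hJ.od h le_rfl]
    unfold odv
    rw [hh1, if_neg (fun hc => hLg hc.1)]
  have hokS : ∀ x : St, (x = .D ∨ x = .B) → ∀ g', h = g' + 1 → okPair (st g') x := by
    intro x hx g' hg'
    have : g' = g := by omega
    rw [this, hSg]
    rcases hx with rfl | rfl <;> trivial
  rcases R.next_eq (i := h + 2) (by omega) (by omega) (R.CO_y hL) (by rw [hw]; omega)
    (fun x hx hgt => by
      rw [hw] at hgt
      exact R.N2 hL hx hgt) with ⟨hw3, hnd⟩ | ⟨hd, hey, hlt⟩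
  · have ho := R.o1 (h + 2) (by omega) (by omega) hnd
    rw [hw, hw3] at ho
    have hu1 : e (h + 2) < 24 * (h : ℤ) + 38 := by
      by_contra hcon
      have := far_l (e := e (h + 2)) (w := 24 * (h : ℤ)) (w' := 24 * (h : ℤ) + 12 + s h) (a := 38)
        (b := 24) (by omega) (by omega) (by norm_num) (by norm_num)
      linarith
    have hu2 : 24 * (h : ℤ) - 25 < e (h + 2) := by
      by_contra hcon
      have := far_r (e := e (h + 2)) (w := 24 * (h : ℤ)) (w' := 24 * (h : ℤ) + 12 + s h) (a := 25)
        (b := 35) (by omega) (by omega) (by norm_num) (by norm_num)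
      linarith
    have he : e (h + 2) = 24 * (h : ℤ) + 24 := by
      rcases R.shallow (h + 2) (by omega) (by omega) hnd with hc | hc | hc | hc | hc | hc |
        ⟨h', hh', hL', hc⟩ | ⟨k, hk, hint, hc⟩
      · omega
      · omega
      · omega
      · omega
      · omega
      · omega
      · exfalso
        rcases Nat.lt_trichotomy h' h with h6 | h6 | h6
        · have h7 : h' = g := by omega
          subst h7
          obtain ⟨h8', h9⟩ := hJ.ev h' h6
          have h10 : ¬ dp (h' + 2) := by
            rw [h9, hSg]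
            simp
          have h11 : e (h' + 2) = 24 * (h' : ℤ) + 12 := by
            rw [h8']
            unfold evv
            rw [hSg]
          have := R.inj (h' + 2) (h + 2) (by omega) (by omega) (by omega) (by omega) h10 hnd
            (by rw [h11, hc])
          omega
        · exact hL' (h6 ▸ hL)
        · have h7 : h' = h + 1 := by omega
          exact hL' (h7 ▸ hL1)
      · rcases Nat.lt_trichotomy k h with h6 | h6 | h6
        · have h7 : k = g := by omega
          exact absurd hint.2 (h7 ▸ hLg)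
        · have h7 : k - 1 = g := by omega
          rw [h7] at hint
          exact absurd hint.1 hLg
        · omega
    exact right_step R hst hL hL1 hnd he hw3 (hokS .B (Or.inr rfl))
  · exact dent_step R hst hL (by rw [hw]; omega) hd hey hlt (hokS .D (Or.inl rfl))

theorem case3 (R : Row N L s w e dp) (hst : IsSt L e dp st) {h g : ℕ} (hg : h = g + 1)
    (hJ : J L s w e dp st h) (hL : L h) (hLg : L g) (hBg : st g = .B) :
    StepR L s w e dp st h := by
  have hN := R.lt_N hL
  have h8 := R.ge_8 hLg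
  have hh1 : h - 1 = g := by omega
  have hb := R.bd h hL
  have hbg := R.bd g hLg
  have hw : w (h + 2) = 24 * (h : ℤ) - 12 + s g := by
    rw [hJ.od h le_rfl]
    unfold odv
    rw [hh1, if_pos ⟨hLg, hL⟩, hBg, if_pos rfl]
    ring
  have hokB : ∀ x : St, (x = .D ∨ x = .B) → ∀ g', h = g' + 1 → okPair (st g') x := by
    intro x hx g' hg'
    have : g' = g := by omega
    rw [this, hBg]
    rcases hx with rfl | rfl <;> trivial
  have hevg := hJ.ev g (by omega)
  have hdg : ¬ dp (g + 2) := by
    rw [hevg.2, hBg]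
    decide
  have heg : e (g + 2) = 24 * (g : ℤ) + 24 := by
    rw [hevg.1]
    unfold evv
    rw [hBg]
  have hLg1 : L (g + 1) := hg ▸ hL
  rcases R.next_eq (i := h + 2) (by omega) (by omega) (R.CO_y hL) (by rw [hw]; omega)
    (fun x hx hgt => by
      rw [hw] at hgt
      have h3 := R.N3a hLg hLg1 hx (by omega)
      rw [← hg] at h3
      omega) with ⟨hw3, hnd⟩ | ⟨hd, hey, hlt⟩
  · have ho := R.o1 (h + 2) (by omega) (by omega) hnd
    rw [hw, hw3] at ho
    have hu1 : e (h + 2) < 24 * (h : ℤ) + 38 := by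
      by_contra hcon
      have := far_l (e := e (h + 2)) (w := 24 * (h : ℤ) - 12 + s g)
        (w' := 24 * (h : ℤ) + 12 + s h) (a := 44)
        (b := 20) (by omega) (by omega) (by norm_num) (by norm_num)
      linarith
    have hu2 : 24 * (h : ℤ) - 38 < e (h + 2) := by
      by_contra hcon
      have := far_r (e := e (h + 2)) (w := 24 * (h : ℤ) - 12 + s g)
        (w' := 24 * (h : ℤ) + 12 + s h) (a := 20)
        (b := 44) (by omega) (by omega) (by norm_num) (by norm_num)
      linarith
    have he : e (h + 2) = 24 * (h : ℤ) + 24 ∧ L (h + 1) := by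
      rcases R.shallow (h + 2) (by omega) (by omega) hnd with hc | hc | hc | hc | hc | hc |
        ⟨h', hh', hL', hc⟩ | ⟨k, hk, hint, hc⟩
      · omega
      · omega
      · omega
      · omega
      · omega
      · omega
      · exfalso
        rcases Nat.lt_trichotomy h' h with h6 | h6 | h6
        · have h7 : h' ≠ g := fun h => hL' (h ▸ hLg)
          have h9 : g = h' + 1 := by omega
          obtain ⟨hs1, hs2, -⟩ := R.first h' (h9 ▸ hLg) hL'
          rw [← h9] at hs1 hs2
          have := far_r (e := e (h + 2)) (w := 24 * (h : ℤ) - 12 + s g)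
            (w' := 24 * (h : ℤ) + 12 + s h) (a := 22)
            (b := 42) (by omega) (by omega) (by norm_num) (by norm_num)
          linarith
        · exact hL' (h6 ▸ hL)
        · have h7 : h' = h + 1 := by omega
          obtain ⟨hs1, hs2⟩ := R.last h hL (h7 ▸ hL')
          have := far_l (e := e (h + 2)) (w := 24 * (h : ℤ) - 12 + s g)
            (w' := 24 * (h : ℤ) + 12 + s h) (a := 42)
            (b := 22) (by omega) (by omega) (by norm_num) (by norm_num)
          linarith
      · rcases Nat.lt_trichotomy k h with h6 | h6 | h6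
        · exfalso
          have h7 : k = g := by omega
          subst h7
          obtain ⟨f, hf⟩ : ∃ f, k = f + 1 := ⟨k - 1, by omega⟩
          have hf1 : k - 1 = f := by omega
          rw [hf1] at hint
          have hok := hJ.ok f (by omega)
          rw [← hf, hBg] at hok
          have hne := hst.ne_S hint.1
          have hBf : st f = .B := by
            rcases hsf : st f with _ | _ | _ | _
            · exact absurd hsf hne
            · rfl
            · rw [hsf] at hok
              exact hok.elim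
            · rw [hsf] at hok
              exact hok.elim
          have hevf := hJ.ev f (by omega)
          have hdf : ¬ dp (f + 2) := by
            rw [hevf.2, hBf]
            decide
          have hef : e (f + 2) = 24 * (f : ℤ) + 24 := by
            rw [hevf.1]
            unfold evv
            rw [hBf]
          have := R.inj (f + 2) (h + 2) (by omega) (by omega) (by omega) (by omega) hdf hnd
            (by rw [hef, hc]; omega)
          omega
        · exfalso
          have := R.inj (g + 2) (h + 2) (by omega) (by omega) (by omega) (by omega) hdg hnd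
            (by rw [heg, hc]; omega)
          omega
        · have h7 : k = h + 1 := by omega
          refine ⟨by omega, ?_⟩
          rw [← h7]
          exact hint.2
    exact right_step R hst hL he.2 hnd he.1 hw3 (hokB .B (Or.inr rfl))
  · exact dent_step R hst hL (by rw [hw]; omega) hd hey hlt (hokB .D (Or.inl rfl))

theorem case4 (R : Row N L s w e dp) (hst : IsSt L e dp st) {h g : ℕ} (hg : h = g + 1)
    (hJ : J L s w e dp st h) (hL : L h) (hLg : L g) (hBg : st g ≠ .B) :
    StepR L s w e dp st h := by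
  have hN := R.lt_N hL
  have h8 := R.ge_8 hLg
  have hh1 : h - 1 = g := by omega
  have hb := R.bd h hL
  have hw : w (h + 2) = 24 * (h : ℤ) + 12 + s h := by
    rw [hJ.od h le_rfl]
    unfold odv
    rw [hh1, if_pos ⟨hLg, hL⟩, if_neg hBg]
  have hCE : CE N L (24 * (h : ℤ)) :=
    Or.inr (Or.inr (Or.inr (Or.inr (Or.inr (Or.inr (Or.inr
      ⟨h, by omega, ⟨by rw [hh1]; exact hLg, hL⟩, rfl⟩))))))
  obtain ⟨j, hj1, hjN, hjd, hje⟩ := R.cov _ hCE (by omega) (by omega)
  have hj2 : h + 2 ≤ j := by
    by_contra hcon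
    rcases before R hJ hj1 (by omega) hjd with h3 | ⟨h', hh', _, h4⟩
    · omega
    · rcases h4 with ⟨h5, _⟩ | ⟨h5, h6⟩ | ⟨h5, _⟩
      · omega
      · have h7 : h' = g := by omega
        rw [h7] at h6
        exact hBg h6
      · omega
  have hwlt : w (h + 2) < w (h + 2 + 1) := R.wmono (h + 2) (by omega)
  rw [hw] at hwlt
  have hj3 : j = h + 2 := by
    by_contra hne
    have h12 : w (h + 2 + 1) ≤ w j := R.w_le (by omega) (by omega)
    have h15 := R.wmono j (by omega)
    have h16 := R.o1 j hj1 hjN hjd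
    rw [hje] at h16
    by_cases hL1 : L (h + 1)
    · have hb1 := R.bd (h + 1) hL1
      have h17 := R.N3a hL hL1 (R.wmem (h + 2 + 1) (by omega)) hwlt
      have h19 := far_r (e := 24 * (h : ℤ)) (w := w j) (w' := w (j + 1)) (a := 30)
        (b := 31) (by omega) (by omega) (by norm_num) (by norm_num)
      linarith
    · have h17 := R.N3b hL hL1 (R.wmem (h + 2 + 1) (by omega)) hwlt
      have h18 := R.N1 (h := h + 1) (by omega) hL1 (R.wmem (j + 1) (by omega))
        (by push_cast; omega)
      push_cast at h18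
      have h19 := far_r (e := 24 * (h : ℤ)) (w := w j) (w' := w (j + 1)) (a := 24)
        (b := 48) (by omega) (by omega) (by norm_num) (by norm_num)
      linarith
  subst hj3
  have hA : st h = .A := hst.a h hL hjd (by rw [hje]; omega)
  refine ⟨?_, ?_, ?_, ?_, ?_⟩
  · rw [hje]
    unfold evv
    rw [hA]
  · rw [hA]
    simp [hjd]
  · show w (h + 2 + 1) = _
    by_cases hL1 : L (h + 1)
    · have h1 := R.next1_eq (i := h + 2) (by omega) (by omega) hjd (R.CO_y hL1)
        (by
          have hb1 := R.bd (h + 1) hL1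
          rw [hw]
          push_cast
          omega)
        (fun x hx hgt => by
          rw [hw] at hgt
          have := R.N3a hL hL1 hx hgt
          push_cast
          omega)
      rw [h1]
      unfold odv
      rw [if_pos ⟨by simpa using hL, hL1⟩, Nat.add_sub_cancel, hA, if_neg (by decide)]
    · have hni : ¬ (L (h + 1 - 1) ∧ L (h + 1)) := fun hc => hL1 hc.2
      have h1 := R.next1_eq (i := h + 2) (by omega) (by omega) hjd
        (CO_mul (k := h + 1) (by omega) hni)
        (by
          rw [hw]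
          push_cast
          omega)
        (fun x hx hgt => by
          rw [hw] at hgt
          have := R.N3b hL hL1 hx hgt
          push_cast
          omega)
      rw [h1]
      unfold odv
      rw [if_neg hni]
  · intro g' hg'
    have hgg : g' = g := by omega
    rw [hA, hgg]
    rcases hs : st g with _ | _ | _ | _
    · exact absurd hs (hst.ne_S hLg)
    · exact absurd hs hBg
    · trivial
    · trivial
  · intro hB
    rw [hA] at hB
    exact absurd hB (by decide)

theorem J_zero (R : Row N L s w e dp) : J L s w e dp st 0 := by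
  refine ⟨fun h' hh' => by omega, ?_, fun h' hh' => by omega, fun g hg => by omega⟩
  intro k hk
  have hk0 : k = 0 := by omega
  subst hk0
  have h0 : ¬ L 0 := R.left 0 (by norm_num)
  unfold odv
  rw [if_neg (fun hc => h0 hc.2)]
  have := R.w2
  simpa using this

theorem J_step {h : ℕ} (hJ : J L s w e dp st h) (hs : StepR L s w e dp st h) :
    J L s w e dp st (h + 1) := by
  obtain ⟨h1, h2, h3, h4, h5⟩ := hs
  refine ⟨?_, ?_, ?_, ?_⟩
  · intro h' hh'
    rcases Nat.lt_or_ge h' h with h6 | h6
    · exact hJ.ev h' h6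
    · have : h' = h := by omega
      subst this
      exact ⟨h1, h2⟩
  · intro k hk
    rcases Nat.lt_or_ge h k with h6 | h6
    · have : k = h + 1 := by omega
      subst this
      exact h3
    · exact hJ.od k h6
  · intro h' hh'
    rcases Nat.lt_or_ge (h' + 1) h with h6 | h6
    · exact hJ.ok h' h6
    · have h7 : h = h' + 1 := by omega
      have := h4 h' h7
      rw [← h7]
      exact this
  · intro g hg hB
    have : g = h := by omega
    subst this
    exact h5 hB

theorem J_all (R : Row N L s w e dp) (hst : IsSt L e dp st) :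
    ∀ h, h ≤ N → J L s w e dp st h := by
  intro h
  induction h with
  | zero => exact fun _ => J_zero R
  | succ h ih =>
    intro hh
    have hJ := ih (by omega)
    apply J_step hJ
    by_cases hL : L h
    · obtain ⟨g, hg⟩ : ∃ g, h = g + 1 := ⟨h - 1, by have := R.ge_8 hL; omega⟩
      by_cases hLg : L g
      · by_cases hB : st g = .B
        · exact case3 R hst hg hJ hL hLg hB
        · exact case4 R hst hg hJ hL hLg hB
      · exact case2 R hst hg hJ hL hLg
    · exact case1 R hst hJ (by omega) hL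

end

end F7

namespace Tab

variable {τ : Tab}

theorem RowSys.loopSat (hg : τ.Good) {w e : ℕ → ℕ → ℤ} {dp : ℕ → ℕ → Prop}
    (h : τ.RowSys w e dp) : τ.LoopSat := by
  let st : ℕ → ℕ → St := fun p h =>
    if ¬ τ.inL p h then .S else
      if dp p (h + 2) then .D else
        if e p (h + 2) = 24 * (h : ℤ) + 24 then .B else .A
  have hst : ∀ p, F7.IsSt (τ.inL p) (e p) (dp p) (st p) := by
    intro p
    refine ⟨?_, ?_, ?_, ?_⟩
    · intro h hL
      simp only [st]
      rw [if_pos hL]
    · intro h hL hd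
      simp only [st]
      rw [if_neg (not_not.mpr hL), if_pos hd]
    · intro h hL hd he
      simp only [st]
      rw [if_neg (not_not.mpr hL), if_neg hd, if_pos he]
    · intro h hL hd he
      simp only [st]
      rw [if_neg (not_not.mpr hL), if_neg hd, if_neg he]
  have hsome : ∀ p h, τ.inL p h → τ.sh p h = some (τ.shift p h) := by
    intro p h hL
    unfold shift
    unfold inL at hL
    rcases hs : τ.sh p h with _ | s
    · exact absurd hs hL
    · rfl
  have hnone : ∀ p h, ¬ τ.inL p h → τ.sh p h = none := by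
    intro p h hL
    unfold inL at hL
    exact not_not.mp hL
  have hCO : ∀ p x, x ∈ τ.CO p ↔ F7.CO τ.Xr (τ.inL p) (τ.shift p) x := by
    intro p x
    unfold CO F7.CO intr
    simp only [mem_union, mem_insert, mem_singleton, mem_image, mem_filter, mem_range]
    constructor
    · rintro ((h | h | h | h) | ⟨k, ⟨hk, hi⟩, rfl⟩ | ⟨k, ⟨hk, hi⟩, rfl⟩)
      · exact Or.inl h
      · exact Or.inr (Or.inl h)
      · exact Or.inr (Or.inr (Or.inl h))
      · exact Or.inr (Or.inr (Or.inr (Or.inl h)))
      · exact Or.inr (Or.inr (Or.inr (Or.inr (Or.inl ⟨k, by omega, hi, rfl⟩))))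
      · exact Or.inr (Or.inr (Or.inr (Or.inr (Or.inr ⟨k, hk, hi, rfl⟩))))
    · rintro (h | h | h | h | ⟨k, hk, hi, rfl⟩ | ⟨k, hk, hi, rfl⟩)
      · exact Or.inl (Or.inl h)
      · exact Or.inl (Or.inr (Or.inl h))
      · exact Or.inl (Or.inr (Or.inr (Or.inl h)))
      · exact Or.inl (Or.inr (Or.inr (Or.inr h)))
      · exact Or.inr (Or.inl ⟨k, ⟨by omega, hi⟩, rfl⟩)
      · exact Or.inr (Or.inr ⟨k, ⟨hk, hi⟩, rfl⟩)
  have hCE : ∀ p x, x ∈ τ.CE p ↔ F7.CE τ.Xr (τ.inL p) x := by
    intro p x
    unfold CE F7.CE intr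
    simp only [mem_union, mem_insert, mem_singleton, mem_image, mem_filter, mem_range]
    constructor
    · rintro ((h | h | h | h | h | h) | ⟨k, ⟨hk, hi⟩, rfl⟩ | ⟨k, ⟨hk, hi⟩, rfl⟩)
      · exact Or.inl h
      · exact Or.inr (Or.inl h)
      · exact Or.inr (Or.inr (Or.inl h))
      · exact Or.inr (Or.inr (Or.inr (Or.inl h)))
      · exact Or.inr (Or.inr (Or.inr (Or.inr (Or.inl h))))
      · exact Or.inr (Or.inr (Or.inr (Or.inr (Or.inr (Or.inl h)))))
      · exact Or.inr (Or.inr (Or.inr (Or.inr (Or.inr (Or.inr (Or.inl ⟨k, hk, hi, rfl⟩))))))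
      · exact Or.inr (Or.inr (Or.inr (Or.inr (Or.inr (Or.inr (Or.inr ⟨k, hk, hi, rfl⟩))))))
    · rintro (h | h | h | h | h | h | ⟨k, hk, hi, rfl⟩ | ⟨k, hk, hi, rfl⟩)
      · exact Or.inl (Or.inl h)
      · exact Or.inl (Or.inr (Or.inl h))
      · exact Or.inl (Or.inr (Or.inr (Or.inl h)))
      · exact Or.inl (Or.inr (Or.inr (Or.inr (Or.inl h))))
      · exact Or.inl (Or.inr (Or.inr (Or.inr (Or.inr (Or.inl h)))))
      · exact Or.inl (Or.inr (Or.inr (Or.inr (Or.inr (Or.inr h)))))
      · exact Or.inr (Or.inl ⟨k, ⟨hk, hi⟩, rfl⟩)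
      · exact Or.inr (Or.inr ⟨k, ⟨hk, hi⟩, rfl⟩)
  have hrow : ∀ p < τ.P, F7.Row τ.Xr (τ.inL p) (τ.shift p) (w p) (e p) (dp p) := by
    intro p hp
    obtain ⟨w0, w1, w2, wn, -, -⟩ := h.w_ends p hp
    obtain ⟨e1, d1, en, dn⟩ := h.e_ends p hp.le
    refine ⟨hg.Xr_ge, ?_, ?_, ?_, ?_, ?_, h.w_mono p hp, ?_, w2, wn, ?_, ?_, ?_, e1, d1, en, dn,
      ?_, h.e_inj p hp, h.o1 p hp, h.o2 p hp⟩
    · intro k hk hL
      exact hL (hg.none_left p k hk)
    · intro k hk hL
      exact hL (hg.none_right p k hk)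
    · intro k hL
      exact hg.bound p k _ (hsome p k hL)
    · intro k hL hL'
      exact hg.start p k _ (hsome p (k + 1) hL) (hnone p k hL')
    · intro k hL hL'
      exact hg.stop p k _ (hsome p k hL) (hnone p (k + 1) hL')
    · intro i hi
      exact (hCO p _).mp (h.w_mem p hp i hi)
    · intro i h1 h2 x hx h3 h4
      exact h.gap p hp i h1 h2 x ((hCO p x).mpr hx) h3 h4
    · intro i h1 h2 hd
      obtain ⟨h3, h4⟩ := h.deep p hp i h1 h2 hd
      exact ⟨(hCO p _).mp h3, h4⟩
    · intro i h1 h2 hd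
      exact (hCE p _).mp (h.shallow p hp.le i h1 h2 hd)
    · intro x hx h1 h2
      exact h.e_cover p hp x ((hCE p x).mpr hx) h1 h2
  have hJ : ∀ p < τ.P, F7.J (τ.inL p) (τ.shift p) (w p) (e p) (dp p) (st p) τ.Xr :=
    fun p hp => F7.J_all (hrow p hp) (hst p) τ.Xr le_rfl
  have hev : ∀ p k, τ.ev st p k = F7.evv (τ.shift p) (st p) k := by
    intro p k
    unfold ev F7.evv
    rcases st p k with _ | _ | _ | _ <;> rfl
  have hod : ∀ p k, τ.od st p k = F7.odv (τ.inL p) (τ.shift p) (st p) k := by
    intro p k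
    unfold od F7.odv
    by_cases hi : τ.intr p k
    · have hi' : τ.inL p (k - 1) ∧ τ.inL p k := hi
      rw [if_pos hi, if_pos hi']
    · have hi' : ¬ (τ.inL p (k - 1) ∧ τ.inL p k) := hi
      rw [if_neg hi, if_neg hi']
  have hSiff : ∀ p k, st p k = .S ↔ ¬ τ.inL p k := by
    intro p k
    constructor
    · intro hS hL
      exact (hst p).ne_S hL hS
    · exact (hst p).s k
  refine ⟨st, ⟨hSiff, ?_⟩, ?_⟩
  · intro p k
    by_cases hp : p < τ.P
    · by_cases hk : k + 1 < τ.Xr
      · exact (hJ p hp).ok k hk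
      · have h1 : st p k = .S := (hSiff p k).mpr (fun hL => hL (hg.none_right p k (by omega)))
        have h2 : st p (k + 1) = .S :=
          (hSiff p (k + 1)).mpr (fun hL => hL (hg.none_right p (k + 1) (by omega)))
        rw [h1, h2]
        trivial
    · have h1 : st p k = .S := (hSiff p k).mpr (fun hL => hL (hg.none_row p k (by omega)))
      have h2 : st p (k + 1) = .S :=
        (hSiff p (k + 1)).mpr (fun hL => hL (hg.none_row p (k + 1) (by omega)))
      rw [h1, h2]
      trivial
  · intro p hp k hk1 hk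
    -- even positions of the next row
    have heven : ∀ j < τ.Xr, e (p + 1) (j + 2) = τ.ev st (p + 1) j ∧
        (dp (p + 1) (j + 2) ↔ st (p + 1) j = .D) := by
      intro j hj
      by_cases hp1 : p + 1 < τ.P
      · rw [hev]
        exact (hJ (p + 1) hp1).ev j hj
      · have hpP : p + 1 = τ.P := by omega
        have hS : st (p + 1) j = .S :=
          (hSiff _ j).mpr (fun hL => hL (hg.none_row _ j (by omega)))
        obtain ⟨h1, h2⟩ := h.top j hj
        rw [← hpP] at h1 h2
        constructor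
        · rw [h1]
          unfold ev
          rw [hS]
        · rw [hS]
          simp [h2]
    have hw : ∀ j ≤ τ.Xr, w p (j + 2) = τ.od st p j := by
      intro j hj
      rw [hod]
      exact (hJ p hp).od j hj
    have hdl : ∀ j < τ.Xr, (dp (p + 1) (j + 2) → (st (p + 1) j).dl = 864) ∧
        (¬ dp (p + 1) (j + 2) → (st (p + 1) j).dl = 0) := by
      intro j hj
      obtain ⟨-, h2⟩ := heven j hj
      constructor
      · intro hd
        rw [h2.mp hd]
        rfl
      · intro hd
        rcases hs : st (p + 1) j with _ | _ | _ | _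
        · rfl
        · rfl
        · exact absurd (h2.mpr hs) hd
        · rfl
    obtain ⟨g, rfl⟩ : ∃ g, k = g + 1 := ⟨k - 1, by omega⟩
    obtain ⟨a1, -⟩ := heven (g + 1) hk
    obtain ⟨a2, -⟩ := heven g (by omega)
    obtain ⟨b1, b2⟩ := hdl (g + 1) hk
    obtain ⟨b3, b4⟩ := hdl g (by omega)
    have c1 := hw (g + 1) (by omega)
    have c2 := hw (g + 1 + 1) (by omega)
    constructor
    · have h3 := h.o3 p hp (g + 2) (by omega) (by omega) _ _ b3 b4 b1 b2
      unfold Chk1
      rw [Nat.add_sub_cancel, ← a1, ← a2, ← c1]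
      exact h3
    · have h3 := h.o4 p hp (g + 2) (by omega) (by omega) _ b1 b2
      unfold Chk2
      rw [← a1, ← c1, ← c2]
      exact h3

end Tab

end Pool.Agent.Helper70.MD
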