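import Pool.Agent.Helper70.MD.F6
import Pool.Agent.Helper70.MD.F7
import Pool.Agent.Helper70.MD.D2

/-!
MD-F8: soundness.
-/

set_option autoImplicit false

namespace Pool.Agent.Helper70.MD

open Finset

open scoped Classical

namespace Tab

variable {τ : Tab}

/-- If the explicit set has a triangulation of degree at most 6 then the loop system is
satisfiable. -/
theorem sound (hg : τ.Good) {T : SimpleGraph Pt} (hT : IsTri τ.S T) (hd : MaxDegLE T 6) :
    τ.LoopSat := by
  obtain ⟨V, succ, apex, F⟩ := (rings hg).facts hT hd
  obtain ⟨w, e, dp, h⟩ := exists_rowSys hg F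
  exact h.loopSat hg

end Tab

end Pool.Agent.Helper70.MD
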