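import Pool.Agent.Helper70.MD.EDefs

/-!
Definitions for the soundness part.
-/

set_option autoImplicit false

namespace Pool.Agent.Helper70.MD

open Finset

open scoped Classical

namespace Tab

variable (τ : Tab)

/-- Point of the even ring of row `p`. -/
noncomputable def pe (p : ℕ) (x : ℤ) : Pt := par (τ.nu * x) (τ.Lam (τ.i0 + 2 * p))

/-- Point of the odd ring of row `p`. -/
noncomputable def po (p : ℕ) (x : ℤ) : Pt := par (τ.nu * x) (τ.Lam (τ.i0 + 2 * p + 1))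

/-- Enumeration of the vertices of the odd layer of row `p` in the middle region. -/
structure Enum (V : ℕ → Finset Pt) (succ : Pt → Pt) (p n : ℕ) (w : ℕ → ℤ) : Prop where
  mono : ∀ i, i < n + 3 → w i < w (i + 1)
  mem : ∀ i ≤ n + 3, w i ∈ τ.CO p
  memV : ∀ i ≤ n + 3, τ.po p (w i) ∈ V (τ.i0 + 2 * p + 1)
  surj : ∀ x ∈ τ.CO p, τ.po p x ∈ V (τ.i0 + 2 * p + 1) → ∃ i ≤ n + 3, w i = x
  w0 : w 0 = -72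
  w1 : w 1 = -36
  w2 : w 2 = 0
  wn1 : w (n + 1) = 24 * τ.Xr
  wn2 : w (n + 2) = 24 * τ.Xr + 36
  wn3 : w (n + 3) = 24 * τ.Xr + 72
  succ_w : ∀ i < n + 3, succ (τ.po p (w i)) = τ.po p (w (i + 1))
  n_ge : τ.Xr + 1 ≤ n

/-- The one-dimensional system of positions: `w p` odd positions, `e p` even positions,
`dp p i` says that `e p i` is deep. -/
structure RowSys (w e : ℕ → ℕ → ℤ) (dp : ℕ → ℕ → Prop) : Prop where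
  w_mono : ∀ p < τ.P, ∀ i < τ.Xr + 4, w p i < w p (i + 1)
  w_mem : ∀ p < τ.P, ∀ i ≤ τ.Xr + 4, w p i ∈ τ.CO p
  w_ends : ∀ p < τ.P, w p 0 = -72 ∧ w p 1 = -36 ∧ w p 2 = 0 ∧ w p (τ.Xr + 2) = 24 * τ.Xr ∧
    w p (τ.Xr + 3) = 24 * τ.Xr + 36 ∧ w p (τ.Xr + 4) = 24 * τ.Xr + 72
  cover : ∀ p < τ.P, ∀ x ∈ τ.CO p, 0 ≤ x → x ≤ 24 * τ.Xr →
    (∃ i, 2 ≤ i ∧ i ≤ τ.Xr + 2 ∧ w p i = x) ∨
      ∃ i, 2 ≤ i ∧ i ≤ τ.Xr + 1 ∧ w p i < x ∧ x < w p (i + 1)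
  gap : ∀ p < τ.P, ∀ i, 1 ≤ i → i ≤ τ.Xr + 2 → ∀ x ∈ τ.CO p, w p i < x → x < w p (i + 1) →
    dp p i ∧ e p i = x
  deep : ∀ p < τ.P, ∀ i, 1 ≤ i → i ≤ τ.Xr + 2 → dp p i →
    e p i ∈ τ.CO p ∧ w p i < e p i ∧ e p i < w p (i + 1)
  shallow : ∀ p ≤ τ.P, ∀ i, 1 ≤ i → i ≤ τ.Xr + 2 → ¬ dp p i → e p i ∈ τ.CE p
  e_ends : ∀ p ≤ τ.P, e p 1 = -18 ∧ ¬ dp p 1 ∧ e p (τ.Xr + 2) = 24 * τ.Xr + 18 ∧
    ¬ dp p (τ.Xr + 2)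
  e_cover : ∀ p < τ.P, ∀ x ∈ τ.CE p, -18 ≤ x → x ≤ 24 * τ.Xr + 18 →
    ∃ i, 1 ≤ i ∧ i ≤ τ.Xr + 2 ∧ ¬ dp p i ∧ e p i = x
  e_inj : ∀ p < τ.P, ∀ i j, 1 ≤ i → i ≤ τ.Xr + 2 → 1 ≤ j → j ≤ τ.Xr + 2 → ¬ dp p i → ¬ dp p j →
    e p i = e p j → i = j
  top : ∀ h < τ.Xr, e τ.P (h + 2) = 24 * h + 12 ∧ ¬ dp τ.P (h + 2)
  o1 : ∀ p < τ.P, ∀ i, 1 ≤ i → i ≤ τ.Xr + 2 →
    (¬ dp p i → (e p i - w p i) * (e p i - w p (i + 1)) < 864)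
  o2 : ∀ p < τ.P, ∀ i, 1 ≤ i → i ≤ τ.Xr + 1 → ¬ dp p i → ¬ dp p (i + 1) → e p i < e p (i + 1)
  o3 : ∀ p < τ.P, ∀ i, 1 ≤ i → i ≤ τ.Xr + 1 → ∀ l l' : ℤ,
    (dp (p + 1) i → l = 864) → (¬ dp (p + 1) i → l = 0) →
    (dp (p + 1) (i + 1) → l' = 864) → (¬ dp (p + 1) (i + 1) → l' = 0) →
    0 < ori (e (p + 1) (i + 1)) (346 + l') (e (p + 1) i) (346 + l) (w p (i + 1)) 0
  o4 : ∀ p < τ.P, ∀ i, 1 ≤ i → i ≤ τ.Xr + 1 → ∀ l' : ℤ,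
    (dp (p + 1) (i + 1) → l' = 864) → (¬ dp (p + 1) (i + 1) → l' = 0) →
    0 < ori (w p (i + 1)) 0 (w p (i + 2)) 0 (e (p + 1) (i + 1)) (346 + l')

end Tab

end Pool.Agent.Helper70.MD
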