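import Pool.Agent.Helper70.MD.GDefs

/-!
MD-G1a: the crossing function.

`xf_swap`: case distinction on the order of `a.1`, `b.1` (if `a.1 = b.1` both are zero; `cr b a y` and
`cr a b y` in the two definitions match up).
`wind`: let `u v w` be counterclockwise, `0 < cr u v w`, and
`s = xf u v y + xf v w y + xf w u y`. An edge `a → b` of the triangle is active if `y.1` is in the
half-open interval between `a.1` and `b.1` (closed at the smaller end), forward if `a.1 < b.1`,
backward if `b.1 < a.1`; `xf` is `1` for an active forward edge with `y` strictly above, `-1` for an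
active backward edge with `y` strictly above (`0 < cr b a y`), else `0`. If `y.1` is less than all three
abscissas or at least the largest, no edge is active. Otherwise exactly one forward and exactly
one backward edge are active: the set of vertices with abscissa `≤ y.1` and its complement are
both nonempty, and the active edges are the two edges between these two sets, traversed in
opposite directions. Key claim: if `y` is strictly above the active backward edge then it is
strictly above the active forward edge (so `s ∈ {0, 1}`). The two edges share a vertex. Say the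
forward edge is `a → b` and the backward edge is `b → c` (common right end `b`, `a.1 ≤ y.1`,
`c.1 ≤ y.1 < b.1`), `(a, b, c)` a rotation of `(u, v, w)`, `0 < cr a b c`. With
`λ = (b.1 - y.1) / (b.1 - c.1) ∈ (0, 1]` the point `m = λ c + (1 - λ) b` has abscissa `y.1`, and
`cr a b m = λ cr a b c > 0`, `y` above the edge means `m.2 < y.2`
(`cr c b y = (b.1 - c.1) (y.2 - m.2)`), and
`cr a b y = cr a b m + (b.1 - a.1) (y.2 - m.2) > 0`. The other case, forward edge `a → b`, backward
edge `c → a` (common left end `a`, `a.1 ≤ y.1`, `y.1 < b.1`, `y.1 < c.1`), is the same with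
`m` on the segment `a c` (`m = a` possible: then `cr a b y = (b.1 - a.1)(y.2 - m.2)` is
still positive). If `y` is in the open triangle: then `y.1` is strictly between the smallest and the
largest abscissa (otherwise, e.g. `y.1 ≤` all three: `y` is a convex combination of the vertices with
positive coefficients), the active forward edge contributes `1` (`0 < cr a b y`), the active backward
edge `a → b` contributes `0` because `0 < cr a b y` excludes `0 < cr b a y`. So `s = 1`.
-/

set_option autoImplicit false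

namespace Pool.Agent.Helper70.MD

open Finset

open scoped Classical

theorem xf_swap (a b y : Pt) : xf b a y = - xf a b y := by
  unfold xf
  by_cases h1 : a.1 ≤ y.1 ∧ y.1 < b.1 ∧ 0 < cr a b y
  · have h2 : ¬ (b.1 ≤ y.1 ∧ y.1 < a.1 ∧ 0 < cr b a y) := fun h => by linarith [h1.2.1, h.1]
    rw [if_neg h2, if_pos h1, if_pos h1]
  · by_cases h2 : b.1 ≤ y.1 ∧ y.1 < a.1 ∧ 0 < cr b a y
    · rw [if_pos h2, if_neg h1, if_pos h2]
      rfl
    · rw [if_neg h2, if_neg h1, if_neg h1, if_neg h2]
      rfl

theorem cr_swap_neg (a b y : Pt) : cr b a y = - cr a b y := by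
  unfold cr
  ring

theorem cr_rot1 (a b c : Pt) : cr b c a = cr a b c := by
  unfold cr
  ring

/-- inactive edge, both ends to the left -/
theorem xf_le {a b y : Pt} (ha : a.1 ≤ y.1) (hb : b.1 ≤ y.1) : xf a b y = 0 := by
  unfold xf
  rw [if_neg (fun h => absurd h.2.1 (not_lt.mpr hb)), if_neg (fun h => absurd h.2.1 (not_lt.mpr ha))]

/-- inactive edge, both ends to the right -/
theorem xf_gt {a b y : Pt} (ha : y.1 < a.1) (hb : y.1 < b.1) : xf a b y = 0 := by
  unfold xf
  rw [if_neg (fun h => absurd h.1 (not_le.mpr ha)), if_neg (fun h => absurd h.1 (not_le.mpr hb))]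

/-- forward edge -/
theorem xf_fwd {a b y : Pt} (ha : a.1 ≤ y.1) (hb : y.1 < b.1) :
    xf a b y = if 0 < cr a b y then 1 else 0 := by
  unfold xf
  by_cases h : 0 < cr a b y
  · rw [if_pos ⟨ha, hb, h⟩, if_pos h]
  · rw [if_neg (fun h' => h h'.2.2), if_neg (fun h' => absurd h'.2.1 (not_lt.mpr ha)), if_neg h]

/-- backward edge -/
theorem xf_bwd {a b y : Pt} (ha : y.1 < a.1) (hb : b.1 ≤ y.1) :
    xf a b y = if 0 < cr b a y then -1 else 0 := by
  rw [xf_swap b a y, xf_fwd hb ha]
  split_ifs
  · rfl
  · rfl

theorem key_right {a b c y : Pt} (ha : a.1 ≤ y.1) (hc : c.1 ≤ y.1) (hb : y.1 < b.1)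
    (hp : 0 < cr a b c) (h : 0 < cr c b y) : 0 < cr a b y := by
  have hid : (b.1 - c.1) * cr a b y = (b.1 - y.1) * cr a b c + (b.1 - a.1) * cr c b y := by
    unfold cr
    ring
  have h1 : 0 < (b.1 - c.1) * cr a b y := by
    rw [hid]
    have e1 : 0 < b.1 - y.1 := by linarith
    have e2 : 0 < b.1 - a.1 := by linarith
    positivity
  exact (mul_pos_iff_of_pos_left (by linarith)).mp h1

theorem key_left {a b c y : Pt} (ha : a.1 ≤ y.1) (hb : y.1 < b.1) (hc : y.1 < c.1)
    (hp : 0 < cr a b c) (h : 0 < cr a c y) : 0 < cr a b y := by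
  have hid : (c.1 - a.1) * cr a b y = (y.1 - a.1) * cr a b c + (b.1 - a.1) * cr a c y := by
    unfold cr
    ring
  have h1 : 0 < (c.1 - a.1) * cr a b y := by
    rw [hid]
    have e1 : 0 ≤ y.1 - a.1 := by linarith
    have e2 : 0 < b.1 - a.1 := by linarith
    positivity
  exact (mul_pos_iff_of_pos_left (by linarith)).mp h1

theorem wind_right {a b c y : Pt} (ha : a.1 ≤ y.1) (hb : y.1 < b.1) (hc : c.1 ≤ y.1)
    (hp : 0 < cr a b c) :
    xf a b y + xf b c y + xf c a y = 0 ∨ xf a b y + xf b c y + xf c a y = 1 := by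
  rw [xf_fwd ha hb, xf_bwd hb hc, xf_le hc ha]
  by_cases h : 0 < cr c b y
  · rw [if_pos h, if_pos (key_right ha hc hb hp h)]
    left
    rfl
  · rw [if_neg h]
    by_cases h' : 0 < cr a b y
    · rw [if_pos h']
      right
      rfl
    · rw [if_neg h']
      left
      rfl

theorem wind_left {a b c y : Pt} (ha : a.1 ≤ y.1) (hb : y.1 < b.1) (hc : y.1 < c.1)
    (hp : 0 < cr a b c) :
    xf a b y + xf b c y + xf c a y = 0 ∨ xf a b y + xf b c y + xf c a y = 1 := by
  rw [xf_fwd ha hb, xf_gt hb hc, xf_bwd hc ha]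
  by_cases h : 0 < cr a c y
  · rw [if_pos h, if_pos (key_left ha hb hc hp h)]
    left
    rfl
  · rw [if_neg h]
    by_cases h' : 0 < cr a b y
    · rw [if_pos h']
      right
      rfl
    · rw [if_neg h']
      left
      rfl

theorem wind_mem {u v w : Pt} (h : 0 < cr u v w) (y : Pt) :
    xf u v y + xf v w y + xf w u y = 0 ∨ xf u v y + xf v w y + xf w u y = 1 := by
  have h' : 0 < cr v w u := by rw [cr_rot1]; exact h
  have h'' : 0 < cr w u v := by rw [cr_rot1]; exact h'
  have r1 : xf v w y + xf w u y + xf u v y = xf u v y + xf v w y + xf w u y := by ring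
  have r2 : xf w u y + xf u v y + xf v w y = xf u v y + xf v w y + xf w u y := by ring
  rcases le_or_gt u.1 y.1 with hu | hu <;> rcases le_or_gt v.1 y.1 with hv | hv <;>
    rcases le_or_gt w.1 y.1 with hw | hw
  · left
    rw [xf_le hu hv, xf_le hv hw, xf_le hw hu]
    rfl
  · -- `w` right
    have := wind_right hv hw hu h'
    rwa [r1] at this
  · exact wind_right hu hv hw h
  · exact wind_left hu hv hw h
  · -- `u` right
    have := wind_right hw hu hv h''
    rwa [r2] at this
  · -- `v` left
    have := wind_left hv hw hu h'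
    rwa [r1] at this
  · -- `w` left
    have := wind_left hw hu hv h''
    rwa [r2] at this
  · left
    rw [xf_gt hu hv, xf_gt hv hw, xf_gt hw hu]
    rfl

theorem wind_right1 {a b c y : Pt} (ha : a.1 ≤ y.1) (hb : y.1 < b.1) (hc : c.1 ≤ y.1)
    (h : InOpen a b c y) : xf a b y + xf b c y + xf c a y = 1 := by
  rw [xf_fwd ha hb, xf_bwd hb hc, xf_le hc ha, if_pos h.1, if_neg]
  · rfl
  · rw [cr_swap_neg]
    linarith [h.2.1]

theorem wind_left1 {a b c y : Pt} (ha : a.1 ≤ y.1) (hb : y.1 < b.1) (hc : y.1 < c.1)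
    (h : InOpen a b c y) : xf a b y + xf b c y + xf c a y = 1 := by
  rw [xf_fwd ha hb, xf_gt hb hc, xf_bwd hc ha, if_pos h.1, if_neg]
  · rfl
  · rw [cr_swap_neg]
    linarith [h.2.2]

theorem wind_open {u v w y : Pt} (h : InOpen u v w y) :
    xf u v y + xf v w y + xf w u y = 1 := by
  have h' : InOpen v w u y := ⟨h.2.1, h.2.2, h.1⟩
  have h'' : InOpen w u v y := ⟨h.2.2, h.1, h.2.1⟩
  have r1 : xf v w y + xf w u y + xf u v y = xf u v y + xf v w y + xf w u y := by ring
  have r2 : xf w u y + xf u v y + xf v w y = xf u v y + xf v w y + xf w u y := by ring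
  have hid : cr v w y * (u.1 - y.1) + cr w u y * (v.1 - y.1) + cr u v y * (w.1 - y.1) = 0 := by
    unfold cr
    ring
  obtain ⟨k1, k2, k3⟩ := h
  rcases le_or_gt u.1 y.1 with hu | hu <;> rcases le_or_gt v.1 y.1 with hv | hv <;>
    rcases le_or_gt w.1 y.1 with hw | hw
  · exfalso
    have e1 : cr v w y * (u.1 - y.1) ≤ 0 := mul_nonpos_of_nonneg_of_nonpos k2.le (by linarith)
    have e2 : cr w u y * (v.1 - y.1) ≤ 0 := mul_nonpos_of_nonneg_of_nonpos k3.le (by linarith)
    have e3 : cr u v y * (w.1 - y.1) ≤ 0 := mul_nonpos_of_nonneg_of_nonpos k1.le (by linarith)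
    have f1 : u.1 - y.1 = 0 :=
      (mul_eq_zero.mp (by linarith : cr v w y * (u.1 - y.1) = 0)).resolve_left k2.ne'
    have f2 : v.1 - y.1 = 0 :=
      (mul_eq_zero.mp (by linarith : cr w u y * (v.1 - y.1) = 0)).resolve_left k3.ne'
    have hz : cr u v y = 0 := by
      unfold cr
      rw [show v.1 - u.1 = 0 by linarith, show y.1 - u.1 = 0 by linarith]
      ring
    linarith
  · have := wind_right1 hv hw hu h'
    rwa [r1] at this
  · exact wind_right1 hu hv hw ⟨k1, k2, k3⟩
  · exact wind_left1 hu hv hw ⟨k1, k2, k3⟩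
  · have := wind_right1 hw hu hv h''
    rwa [r2] at this
  · have := wind_left1 hv hw hu h'
    rwa [r1] at this
  · have := wind_left1 hw hu hv h''
    rwa [r2] at this
  · exfalso
    have e1 : 0 < cr v w y * (u.1 - y.1) := mul_pos k2 (by linarith)
    have e2 : 0 < cr w u y * (v.1 - y.1) := mul_pos k3 (by linarith)
    have e3 : 0 < cr u v y * (w.1 - y.1) := mul_pos k1 (by linarith)
    linarith

end Pool.Agent.Helper70.MD
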