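import Pool.Agent.Helper70.MD.G1a

/-!
MD-G1b: two different triangles of a face system have disjoint interiors.

Proof. `F` is finite (contained in `S × S × S`: `mem` and `rot`); let `F` be this finite set (`Set.Finite.toFinset`).
Let `D` be the set of pairs `(u,v)` with `(u,v,w) ∈ F` for some `w`. By `unique` the projection from
`F` to `D` is a bijection. Consider `Σ = ∑ (u,v,w) ∈ F, (xf u v y + xf v w y + xf w u y)`. By `rot` (a
permutation of `F` of order three) `Σ = 3 ∑ (u,v,w) ∈ F, xf u v y = 3 ∑ (u,v) ∈ D, xf u v y`. In the last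
sum the pairs `(u,v)` with `(v,u) ∈ D` cancel (`xf_swap`; the involution `(u,v) ↦ (v,u)` on this subset;
`Finset.sum_involution` or: the sum equals its negative), what remains by `rev` is a subset of
`{(A,B), (B,C), (C,A)}`; these three are in `D`, and their reversals are not: `(B,A,w) ∈ F` would give
`cr B A w > 0` with `w ∈ S` (`mem`, `rot`), but all points of `S` satisfy `cr A B w ≥ 0` (`hull`, and for
corners directly). So `Σ = 3 (xf A B y + xf B C y + xf C A y) ≤ 3` by `wind_mem`. Every term of `Σ` is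
`≥ 0`. Suppose `y` is in the open triangles `(u,v,w)` and `(u',v',w')`, both in `F`, and the second is not
a rotation of the first. The six triples obtained by rotating both are pairwise different
(the three rotations of a triple are different because `u, v, w` are different, `pos`), all in
`F`, each contributes `1` by `wind_open`: `Σ ≥ 6`, contradiction.
-/

set_option autoImplicit false

namespace Pool.Agent.Helper70.MD

open Finset

open scoped Classical

theorem FaceSys.mem3 {S : Finset Pt} {F : Set (Pt × Pt × Pt)} {A B C : Pt}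
    (h : FaceSys S F A B C) {u v w : Pt} (h1 : (u, v, w) ∈ F) : u ∈ S ∧ v ∈ S ∧ w ∈ S :=
  ⟨h.mem _ _ _ h1, h.mem _ _ _ (h.rot _ _ _ h1), h.mem _ _ _ (h.rot _ _ _ (h.rot _ _ _ h1))⟩

theorem FaceSys.sides {S : Finset Pt} {F : Set (Pt × Pt × Pt)} {A B C : Pt}
    (h : FaceSys S F A B C) {p : Pt} (hp : p ∈ S) :
    0 ≤ cr A B p ∧ 0 ≤ cr B C p ∧ 0 ≤ cr C A p := by
  have ht := h.tri
  have e1 : cr B C A = cr A B C := by simp only [cr]; ring
  have e2 : cr C A B = cr A B C := by simp only [cr]; ring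
  have e3 : cr A B A = 0 := by simp only [cr]; ring
  have e4 : cr A B B = 0 := by simp only [cr]; ring
  have e5 : cr B C B = 0 := by simp only [cr]; ring
  have e6 : cr B C C = 0 := by simp only [cr]; ring
  have e7 : cr C A C = 0 := by simp only [cr]; ring
  have e8 : cr C A A = 0 := by simp only [cr]; ring
  by_cases hA : p = A
  · subst hA
    refine ⟨?_, ?_, ?_⟩
    · rw [e3]
    · rw [e1]; exact ht.le
    · rw [e8]
  by_cases hB : p = B
  · subst hB
    refine ⟨?_, ?_, ?_⟩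
    · rw [e4]
    · rw [e5]
    · rw [e2]; exact ht.le
  by_cases hC : p = C
  · subst hC
    refine ⟨?_, ?_, ?_⟩
    · exact ht.le
    · rw [e6]
    · rw [e7]
  have := h.hull p hp hA hB hC
  exact ⟨this.1.le, this.2.1.le, this.2.2.le⟩

/-- The total of the crossing function over all triangles. -/
theorem FaceSys.sum_xf {S : Finset Pt} {F : Set (Pt × Pt × Pt)} {A B C : Pt}
    (h : FaceSys S F A B C) (Fs : Finset (Pt × Pt × Pt)) (hFs : ∀ x, x ∈ Fs ↔ x ∈ F) (y : Pt) :
    ∑ x ∈ Fs, xf x.1 x.2.1 y = xf A B y + xf B C y + xf C A y := by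
  set D : Finset (Pt × Pt) := Fs.image (fun x => (x.1, x.2.1)) with hD
  have hmD : ∀ a b : Pt, (a, b) ∈ D ↔ ∃ w, (a, b, w) ∈ F := by
    intro a b
    rw [hD, Finset.mem_image]
    constructor
    · rintro ⟨⟨u, v, w⟩, hx, he⟩
      simp only [Prod.mk.injEq] at he
      obtain ⟨rfl, rfl⟩ := he
      exact ⟨w, (hFs _).mp hx⟩
    · rintro ⟨w, hw⟩
      exact ⟨(a, b, w), (hFs _).mpr hw, rfl⟩
  have e1 : ∑ x ∈ Fs, xf x.1 x.2.1 y = ∑ d ∈ D, xf d.1 d.2 y := by
    rw [hD, Finset.sum_image]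
    rintro ⟨u, v, w⟩ hx ⟨u', v', w'⟩ hx' he
    simp only [Prod.mk.injEq] at he
    obtain ⟨rfl, rfl⟩ := he
    have := h.unique u v w w' ((hFs _).mp hx) ((hFs _).mp hx')
    rw [this]
  rw [e1, ← Finset.sum_filter_add_sum_filter_not D (fun d => (d.2, d.1) ∈ D)]
  have e2 : ∑ d ∈ D with (d.2, d.1) ∈ D, xf d.1 d.2 y = 0 := by
    have e3 : ∑ d ∈ D with (d.2, d.1) ∈ D, xf d.1 d.2 y =
        ∑ d ∈ D with (d.2, d.1) ∈ D, xf d.2 d.1 y := by
      apply Finset.sum_nbij' (fun d => (d.2, d.1)) (fun d => (d.2, d.1))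
      · intro d hd
        rw [Finset.mem_filter] at hd ⊢
        exact ⟨hd.2, hd.1⟩
      · intro d hd
        rw [Finset.mem_filter] at hd ⊢
        exact ⟨hd.2, hd.1⟩
      · intro d _
        rfl
      · intro d _
        rfl
      · intro d _
        rfl
    have e4 : ∑ d ∈ D with (d.2, d.1) ∈ D, xf d.2 d.1 y =
        - ∑ d ∈ D with (d.2, d.1) ∈ D, xf d.1 d.2 y := by
      rw [← Finset.sum_neg_distrib]
      apply Finset.sum_congr rfl
      intro d _
      exact xf_swap _ _ _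
    rw [e4] at e3
    omega
  rw [e2, zero_add]
  have ht := h.tri
  have hsw : ∀ a b c : Pt, cr b a c = - cr a b c := by
    intro a b c
    simp only [cr]
    ring
  have hAB : A ≠ B := by
    rintro rfl
    simp [cr] at ht
  have hBC : B ≠ C := by
    rintro rfl
    have : cr A B B = 0 := by simp only [cr]; ring
    rw [this] at ht
    exact lt_irrefl _ ht
  have hAC : A ≠ C := by
    rintro rfl
    have : cr A B A = 0 := by simp only [cr]; ring
    rw [this] at ht
    exact lt_irrefl _ ht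
  have hno : ∀ a b, (∀ p ∈ S, 0 ≤ cr a b p) → (b, a) ∉ D := by
    intro a b hab hm
    obtain ⟨w, hw⟩ := (hmD b a).mp hm
    have h1 := h.pos _ _ _ hw
    have h2 := hab w (h.mem3 hw).2.2
    rw [hsw] at h1
    linarith
  have hfil : D.filter (fun d => ¬ (d.2, d.1) ∈ D) = {(A, B), (B, C), (C, A)} := by
    ext ⟨a, b⟩
    rw [Finset.mem_filter]
    simp only [Finset.mem_insert, Finset.mem_singleton, Prod.mk.injEq]
    constructor
    · rintro ⟨h1, h2⟩
      obtain ⟨w, hw⟩ := (hmD a b).mp h1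
      rcases h.rev _ _ _ hw with h3 | h3 | h3 | h3
      · exact absurd ((hmD b a).mpr h3) h2
      · exact Or.inl h3
      · exact Or.inr (Or.inl h3)
      · exact Or.inr (Or.inr h3)
    · rintro (⟨rfl, rfl⟩ | ⟨rfl, rfl⟩ | ⟨rfl, rfl⟩)
      · exact ⟨(hmD _ _).mpr h.cornerAB, hno _ _ (fun p hp => (h.sides hp).1)⟩
      · exact ⟨(hmD _ _).mpr h.cornerBC, hno _ _ (fun p hp => (h.sides hp).2.1)⟩
      · exact ⟨(hmD _ _).mpr h.cornerCA, hno _ _ (fun p hp => (h.sides hp).2.2)⟩
  rw [hfil, Finset.sum_insert, Finset.sum_insert, Finset.sum_singleton]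
  · ring
  · simp only [Finset.mem_singleton, Prod.mk.injEq, not_and]
    intro h1
    exact absurd h1 hBC
  · simp only [Finset.mem_insert, Finset.mem_singleton, Prod.mk.injEq, not_or, not_and]
    exact ⟨fun h1 => absurd h1 hAB, fun h1 => absurd h1 hAC⟩

theorem FaceSys.interior {S : Finset Pt} {F : Set (Pt × Pt × Pt)} {A B C : Pt}
    (h : FaceSys S F A B C) {u v w u' v' w' y : Pt} (h1 : (u, v, w) ∈ F) (h2 : (u', v', w') ∈ F)
    (hy : InOpen u v w y) (hy' : InOpen u' v' w' y) :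
    (u' = u ∧ v' = v ∧ w' = w) ∨ (u' = v ∧ v' = w ∧ w' = u) ∨ (u' = w ∧ v' = u ∧ w' = v) := by
  by_contra hcon
  set Fs : Finset (Pt × Pt × Pt) := (S ×ˢ S ×ˢ S).filter (fun x => x ∈ F) with hFs'
  have hFs : ∀ x, x ∈ Fs ↔ x ∈ F := by
    rintro ⟨a, b, c⟩
    rw [hFs', Finset.mem_filter, Finset.mem_product, Finset.mem_product]
    constructor
    · exact fun hx => hx.2
    · exact fun hx => ⟨h.mem3 hx, hx⟩
  have s1 := h.sum_xf Fs hFs y
  have s2 : ∑ x ∈ Fs, xf x.2.1 x.2.2 y = ∑ x ∈ Fs, xf x.1 x.2.1 y := by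
    apply Finset.sum_nbij' (fun x => (x.2.1, x.2.2, x.1)) (fun x => (x.2.2, x.1, x.2.1))
    · rintro ⟨a, b, c⟩ hx
      exact (hFs _).mpr (h.rot _ _ _ ((hFs _).mp hx))
    · rintro ⟨a, b, c⟩ hx
      exact (hFs _).mpr (h.rot _ _ _ (h.rot _ _ _ ((hFs _).mp hx)))
    · intro x _
      rfl
    · intro x _
      rfl
    · intro x _
      rfl
  have s3 : ∑ x ∈ Fs, xf x.2.2 x.1 y = ∑ x ∈ Fs, xf x.1 x.2.1 y := by
    apply Finset.sum_nbij' (fun x => (x.2.2, x.1, x.2.1)) (fun x => (x.2.1, x.2.2, x.1))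
    · rintro ⟨a, b, c⟩ hx
      exact (hFs _).mpr (h.rot _ _ _ (h.rot _ _ _ ((hFs _).mp hx)))
    · rintro ⟨a, b, c⟩ hx
      exact (hFs _).mpr (h.rot _ _ _ ((hFs _).mp hx))
    · intro x _
      rfl
    · intro x _
      rfl
    · intro x _
      rfl
  set t : Pt × Pt × Pt → ℤ := fun x => xf x.1 x.2.1 y + xf x.2.1 x.2.2 y + xf x.2.2 x.1 y with ht
  have s4 : ∑ x ∈ Fs, t x ≤ 3 := by
    rw [ht]
    simp only [Finset.sum_add_distrib]
    rw [s2, s3, s1]
    have := wind_mem h.tri y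
    omega
  have hcr : ∀ a b c : Pt, 0 < cr a b c → a ≠ b ∧ b ≠ c ∧ a ≠ c := by
    intro a b c hp
    refine ⟨?_, ?_, ?_⟩
    · rintro rfl
      simp [cr] at hp
    · rintro rfl
      have : cr a b b = 0 := by simp only [cr]; ring
      rw [this] at hp
      exact lt_irrefl _ hp
    · rintro rfl
      have : cr a b a = 0 := by simp only [cr]; ring
      rw [this] at hp
      exact lt_irrefl _ hp
  obtain ⟨huv, hvw, huw⟩ := hcr _ _ _ (h.pos _ _ _ h1)
  have hsub : ({(u', v', w'), (u, v, w), (v, w, u), (w, u, v)} : Finset (Pt × Pt × Pt)) ⊆ Fs := by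
    intro x hx
    simp only [Finset.mem_insert, Finset.mem_singleton] at hx
    rw [hFs]
    rcases hx with rfl | rfl | rfl | rfl
    · exact h2
    · exact h1
    · exact h.rot _ _ _ h1
    · exact h.rot _ _ _ (h.rot _ _ _ h1)
  have s5 : ∑ x ∈ ({(u', v', w'), (u, v, w), (v, w, u), (w, u, v)} : Finset (Pt × Pt × Pt)), t x ≤
      ∑ x ∈ Fs, t x := by
    apply Finset.sum_le_sum_of_subset_of_nonneg hsub
    rintro ⟨a, b, c⟩ hx _
    have := wind_mem (h.pos a b c ((hFs _).mp hx)) y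
    simp only [ht]
    omega
  have hy1 : InOpen v w u y := ⟨hy.2.1, hy.2.2, hy.1⟩
  have hy2 : InOpen w u v y := ⟨hy.2.2, hy.1, hy.2.1⟩
  rw [Finset.sum_insert, Finset.sum_insert, Finset.sum_insert, Finset.sum_singleton] at s5
  · have t1 : t (u', v', w') = 1 := wind_open hy'
    have t2 : t (u, v, w) = 1 := wind_open hy
    have t3 : t (v, w, u) = 1 := wind_open hy1
    have t4 : t (w, u, v) = 1 := wind_open hy2
    rw [t1, t2, t3, t4] at s5
    omega
  · simp only [Finset.mem_singleton, Prod.mk.injEq, not_and]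
    intro h3
    exact absurd h3 hvw
  · simp only [Finset.mem_insert, Finset.mem_singleton, Prod.mk.injEq, not_or, not_and]
    exact ⟨fun h3 => absurd h3 huv, fun h3 => absurd h3 huw⟩
  · simp only [Finset.mem_insert, Finset.mem_singleton, Prod.mk.injEq]
    exact hcon

end Pool.Agent.Helper70.MD
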