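import Pool.Agent.Helper70.MD.G1b

/-!
MD-G1c: the graph of a face system is plane, its triangles are empty.

`near_edge`: let `(a,b,w) ∈ F`, `x` in the open segment `a b`, `(c,d,e) ∈ F` and `x` in the closed triangle
`c d e`. Choose `y` in the open triangle `c d e` with `cr a b y ≠ 0`: the three points with barycentric
weights `(1/2,1/4,1/4)`, `(1/4,1/2,1/4)`, `(1/4,1/4,1/2)` are in the open triangle, and if `cr a b`
vanished at all three of them it would vanish at `c`, `d`, `e`, which are not on one line. For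
`0 < ε ≤ 1` the point `y_ε = x + ε (y - x)` is in the open triangle `c d e`. If `cr a b y > 0`, then
for small `ε > 0` it is also in the open triangle `a b w`: `cr a b y_ε = ε cr a b y > 0`, and
`cr b w x > 0`, `cr w a x > 0` (as `x` is in the open segment `a b`), so
`cr b w y_ε > 0`, `cr w a y_ε > 0` for small `ε`. By `interior` `(c,d,e)` is a rotation of
`(a,b,w)`. If `cr a b y < 0`: if `(b,a,w') ∈ F` for some `w'` then in the same way `(c,d,e)` is a
rotation of `(b,a,w')`. Otherwise by `rev` `(a,b)` is `(A,B)`, `(B,C)` or `(C,A)`; all points of `S` have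
`cr a b ≥ 0` (`hull`), so `cr a b y ≥ 0` (`y` is a convex combination of `c, d, e ∈ S`), contradiction.
`empty_face`: let `(u,v,w) ∈ F`, `p ∈ S` in the closed triangle. `p` is the first vertex of some
`(p,v',w') ∈ F` (`vertex`). If `p` is in the open triangle `u v w`, take `y = ` centroid of `p v' w'`; for
small `ε` the point `p + ε (y - p)` is in both open triangles, so by `interior` `(p,v',w')` is a
rotation of `(u,v,w)` and `p ∈ {u,v,w}`. If `p` is not in the open triangle and not a vertex, it is in one of the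
open edges, say of `u v` after rotation, and `near_edge` (with `x = p`, `(c,d,e) = (p,v',w')`) says that
`(p,v',w')` is a rotation of `(u,v,w)` or of `(v,u,w'')`; so `p ∈ {u, v}` (excluded), or `p = w`
(excluded, as `cr u v w > 0`, `cr u v p = 0`) or `p = w''` (excluded, `cr v u w'' > 0`).
`plane`: `mem`: by `mem` and `rot`. `empty`: an edge `a b` has `(a,b,w) ∈ F` or `(b,a,w) ∈ F`; a point
`p ∈ S` in the open segment is in the closed triangle and is not a vertex of it (`cr a b w ≠ 0`):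
`empty_face`. `disj`: let `a b`, `c d` be edges, `s(a,b) ≠ s(c,d)`, `x` in both closed segments. Suppose
`x ≠ a, b`. Then `x` is in the open segment `a b`. Let `(a,b,w) ∈ F` (or `(b,a,w)`, rename) and
`(c,d,e) ∈ F` (or `(d,c,e)`, rename). By `near_edge` `(c,d,e)` is a rotation of `(a,b,w)` or `(b,a,w')`. As
`x` is on the segment `c d`, which is an edge of that triangle, and `x` is in the open segment
`a b` (so `cr b w x > 0`, `cr w a x > 0`; `x` is not on the other two edges), `{c,d} = {a,b}`,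
contradiction. So `x = a ∨ x = b`, and symmetrically `x = c ∨ x = d`.
-/

set_option autoImplicit false

namespace Pool.Agent.Helper70.MD

open Finset

open scoped Classical

/-! ### the determinant -/

private theorem g_rot (a b c : Pt) : cr b c a = cr a b c := by
  unfold cr; ring

private theorem g_swap (a b c : Pt) : cr b a c = -cr a b c := by
  unfold cr; ring

private theorem g_left (a b : Pt) : cr a b a = 0 := by
  unfold cr; ring

private theorem g_right (a b : Pt) : cr a b b = 0 := by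
  unfold cr; ring

/-- barycentric coordinates -/
private theorem g_bary (c d e a b y : Pt) :
    cr c d e * cr a b y = cr d e y * cr a b c + cr e c y * cr a b d + cr c d y * cr a b e := by
  unfold cr; ring

private theorem g_comb (a b x y : Pt) (ε : ℝ) :
    cr a b ((1 - ε) • x + ε • y) = (1 - ε) * cr a b x + ε * cr a b y := by
  unfold cr
  simp only [Prod.fst_add, Prod.snd_add, Prod.smul_fst, Prod.smul_snd, smul_eq_mul]
  ring

private theorem g_comb' (a b x y : Pt) {s t : ℝ} (hst : s + t = 1) :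
    cr a b (s • x + t • y) = s * cr a b x + t * cr a b y := by
  have h : s = 1 - t := by linarith
  subst h
  exact g_comb a b x y t

/-- positivity near a point -/
private theorem g_small {u : ℝ} (hu : 0 < u) (v : ℝ) :
    ∃ ε0 : ℝ, 0 < ε0 ∧ ε0 ≤ 1 ∧ ∀ ε : ℝ, 0 < ε → ε ≤ ε0 → 0 < (1 - ε) * u + ε * v := by
  have hv := abs_nonneg v
  have hd : 0 < u + |v| + 1 := by linarith
  refine ⟨u / (u + |v| + 1), div_pos hu hd, ?_, ?_⟩
  · rw [div_le_one hd]; linarith
  · intro ε h0 h1
    rw [le_div_iff₀ hd] at h1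
    have h2 : -|v| ≤ v := neg_abs_le v
    have h3 : ε * (-|v|) ≤ ε * v := mul_le_mul_of_nonneg_left h2 h0.le
    nlinarith

private theorem g_open {a b w x : Pt} (hw : 0 < cr a b w) (hx : x ∈ openSegment ℝ a b) :
    cr a b x = 0 ∧ 0 < cr b w x ∧ 0 < cr w a x := by
  obtain ⟨s, t, hs, ht, hst, rfl⟩ := hx
  refine ⟨?_, ?_, ?_⟩
  · rw [g_comb' _ _ _ _ hst, g_left, g_right]; ring
  · rw [g_comb' _ _ _ _ hst, g_left, g_rot]; nlinarith
  · rw [g_comb' _ _ _ _ hst, g_right, g_rot, g_rot]; nlinarith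

private theorem g_seg {a b w x : Pt} (hw : 0 < cr a b w) (hx : x ∈ segment ℝ a b) :
    cr a b x = 0 ∧ 0 ≤ cr b w x ∧ 0 ≤ cr w a x := by
  obtain ⟨s, t, hs, ht, hst, rfl⟩ := hx
  refine ⟨?_, ?_, ?_⟩
  · rw [g_comb' _ _ _ _ hst, g_left, g_right]; ring
  · rw [g_comb' _ _ _ _ hst, g_left, g_rot]
    have := mul_nonneg hs hw.le
    linarith
  · rw [g_comb' _ _ _ _ hst, g_right, g_rot, g_rot]
    have := mul_nonneg ht hw.le
    linarith

private theorem g_exists_open {c d e : Pt} (h : 0 < cr c d e) {a b w : Pt} (hw : 0 < cr a b w) :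
    ∃ y, InOpen c d e y ∧ cr a b y ≠ 0 := by
  have key : ∀ r s t : ℝ, 0 < r → 0 < s → 0 < t → r + s + t = 1 →
      InOpen c d e (r * c.1 + s * d.1 + t * e.1, r * c.2 + s * d.2 + t * e.2) ∧
      cr a b (r * c.1 + s * d.1 + t * e.1, r * c.2 + s * d.2 + t * e.2) =
        r * cr a b c + s * cr a b d + t * cr a b e := by
    intro r s t hr hs ht hrst
    have hr' : r = 1 - s - t := by linarith
    refine ⟨⟨?_, ?_, ?_⟩, ?_⟩
    · have h1 : cr c d (r * c.1 + s * d.1 + t * e.1, r * c.2 + s * d.2 + t * e.2) =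
          t * cr c d e := by
        subst hr'; unfold cr; ring
      rw [h1]; exact mul_pos ht h
    · have h1 : cr d e (r * c.1 + s * d.1 + t * e.1, r * c.2 + s * d.2 + t * e.2) =
          r * cr c d e := by
        subst hr'; unfold cr; ring
      rw [h1]; exact mul_pos hr h
    · have h1 : cr e c (r * c.1 + s * d.1 + t * e.1, r * c.2 + s * d.2 + t * e.2) =
          s * cr c d e := by
        subst hr'; unfold cr; ring
      rw [h1]; exact mul_pos hs h
    · subst hr'; unfold cr; ring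
  obtain ⟨o1, e1⟩ := key (1 / 2) (1 / 4) (1 / 4) (by norm_num) (by norm_num) (by norm_num)
    (by norm_num)
  obtain ⟨o2, e2⟩ := key (1 / 4) (1 / 2) (1 / 4) (by norm_num) (by norm_num) (by norm_num)
    (by norm_num)
  obtain ⟨o3, e3⟩ := key (1 / 4) (1 / 4) (1 / 2) (by norm_num) (by norm_num) (by norm_num)
    (by norm_num)
  by_contra hcon
  push Not at hcon
  have f1 := hcon _ o1
  have f2 := hcon _ o2
  have f3 := hcon _ o3
  rw [e1] at f1
  rw [e2] at f2
  rw [e3] at f3
  have g1 : cr a b c = 0 := by linarith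
  have g2 : cr a b d = 0 := by linarith
  have g3 : cr a b e = 0 := by linarith
  have g4 := g_bary c d e a b w
  rw [g1, g2, g3] at g4
  have g5 := mul_pos h hw
  linarith

private theorem g_shift_open {c d e x y : Pt} (hx : InTri c d e x) (hy : InOpen c d e y) {ε : ℝ}
    (h0 : 0 < ε) (h1 : ε ≤ 1) : InOpen c d e ((1 - ε) • x + ε • y) := by
  obtain ⟨a1, a2, a3⟩ := hx
  obtain ⟨b1, b2, b3⟩ := hy
  have h2 : 0 ≤ 1 - ε := by linarith
  refine ⟨?_, ?_, ?_⟩
  · rw [g_comb]
    have := mul_nonneg h2 a1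
    have := mul_pos h0 b1
    linarith
  · rw [g_comb]
    have := mul_nonneg h2 a2
    have := mul_pos h0 b2
    linarith
  · rw [g_comb]
    have := mul_nonneg h2 a3
    have := mul_pos h0 b3
    linarith

private theorem g_near {S : Finset Pt} {F : Set (Pt × Pt × Pt)} {A B C : Pt}
    (h : FaceSys S F A B C) {a b w c d e x y : Pt} (h1 : (a, b, w) ∈ F) (h2 : (c, d, e) ∈ F)
    (hx : x ∈ openSegment ℝ a b) (hx' : InTri c d e x) (hy : InOpen c d e y)
    (hpos : 0 < cr a b y) :
    (c = a ∧ d = b ∧ e = w) ∨ (c = b ∧ d = w ∧ e = a) ∨ (c = w ∧ d = a ∧ e = b) := by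
  obtain ⟨k1, k2, k3⟩ := g_open (h.pos _ _ _ h1) hx
  obtain ⟨ε1, p1, q1, r1⟩ := g_small k2 (cr b w y)
  obtain ⟨ε2, p2, q2, r2⟩ := g_small k3 (cr w a y)
  have hε0 : 0 < min ε1 ε2 := lt_min p1 p2
  have hε1 : min ε1 ε2 ≤ 1 := (min_le_left _ _).trans q1
  refine h.interior h1 h2 (y := (1 - min ε1 ε2) • x + min ε1 ε2 • y) ⟨?_, ?_, ?_⟩
    (g_shift_open hx' hy hε0 hε1)
  · rw [g_comb, k1]
    have := mul_pos hε0 hpos
    linarith
  · rw [g_comb]
    exact r1 _ hε0 (min_le_left _ _)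
  · rw [g_comb]
    exact r2 _ hε0 (min_le_right _ _)

private theorem g_mem {S : Finset Pt} {F : Set (Pt × Pt × Pt)} {A B C : Pt}
    (h : FaceSys S F A B C) {c d e : Pt} (h2 : (c, d, e) ∈ F) : c ∈ S ∧ d ∈ S ∧ e ∈ S :=
  ⟨h.mem _ _ _ h2, h.mem _ _ _ (h.rot _ _ _ h2), h.mem _ _ _ (h.rot _ _ _ (h.rot _ _ _ h2))⟩

private theorem g_side {S : Finset Pt} {F : Set (Pt × Pt × Pt)} {A B C : Pt}
    (h : FaceSys S F A B C) {p : Pt} (hp : p ∈ S) :
    0 ≤ cr A B p ∧ 0 ≤ cr B C p ∧ 0 ≤ cr C A p := by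
  have ht := h.tri
  by_cases h1 : p = A
  · subst h1
    refine ⟨(g_left _ _).ge, ?_, (g_right _ _).ge⟩
    rw [g_rot]; exact ht.le
  · by_cases h2 : p = B
    · subst h2
      refine ⟨(g_right _ _).ge, (g_left _ _).ge, ?_⟩
      rw [g_rot, g_rot]; exact ht.le
    · by_cases h3 : p = C
      · subst h3
        exact ⟨ht.le, (g_right _ _).ge, (g_left _ _).ge⟩
      · obtain ⟨k1, k2, k3⟩ := h.hull p hp h1 h2 h3
        exact ⟨k1.le, k2.le, k3.le⟩

private theorem g_nonneg {a b c d e y : Pt} (hpos : 0 < cr c d e) (hy : InOpen c d e y)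
    (h1 : 0 ≤ cr a b c) (h2 : 0 ≤ cr a b d) (h3 : 0 ≤ cr a b e) : 0 ≤ cr a b y := by
  obtain ⟨k1, k2, k3⟩ := hy
  have h4 := g_bary c d e a b y
  have h5 := mul_nonneg k2.le h1
  have h6 := mul_nonneg k3.le h2
  have h7 := mul_nonneg k1.le h3
  by_contra hn
  push Not at hn
  have h8 := mul_neg_of_pos_of_neg hpos hn
  linarith

theorem FaceSys.near_edge {S : Finset Pt} {F : Set (Pt × Pt × Pt)} {A B C : Pt}
    (h : FaceSys S F A B C) {a b w c d e x : Pt} (h1 : (a, b, w) ∈ F) (h2 : (c, d, e) ∈ F)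
    (hx : x ∈ openSegment ℝ a b) (hx' : InTri c d e x) :
    ((c = a ∧ d = b ∧ e = w) ∨ (c = b ∧ d = w ∧ e = a) ∨ (c = w ∧ d = a ∧ e = b)) ∨
    ∃ w', (b, a, w') ∈ F ∧
      ((c = b ∧ d = a ∧ e = w') ∨ (c = a ∧ d = w' ∧ e = b) ∨ (c = w' ∧ d = b ∧ e = a)) := by
  obtain ⟨y, hy, hne⟩ := g_exists_open (h.pos _ _ _ h2) (h.pos _ _ _ h1)
  rcases lt_or_gt_of_ne hne with hlt | hgt
  · right
    have hgt : 0 < cr b a y := by rw [g_swap]; linarith
    have hx2 : x ∈ openSegment ℝ b a := by rw [openSegment_symm]; exact hx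
    rcases h.rev _ _ _ h1 with ⟨w', hw'⟩ | hcorner
    · refine ⟨w', hw', ?_⟩
      exact g_near h hw' h2 hx2 hx' hy hgt
    · exfalso
      obtain ⟨m1, m2, m3⟩ := g_mem h h2
      have s1 := g_side h m1
      have s2 := g_side h m2
      have s3 := g_side h m3
      have hc := h.pos _ _ _ h2
      rcases hcorner with ⟨rfl, rfl⟩ | ⟨rfl, rfl⟩ | ⟨rfl, rfl⟩
      · have := g_nonneg hc hy s1.1 s2.1 s3.1
        linarith
      · have := g_nonneg hc hy s1.2.1 s2.2.1 s3.2.1
        linarith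
      · have := g_nonneg hc hy s1.2.2 s2.2.2 s3.2.2
        linarith
  · left
    exact g_near h h1 h2 hx hx' hy hgt

private theorem g_coord {u v w p : Pt} :
    cr u v w * p.1 = cr v w p * u.1 + cr w u p * v.1 + cr u v p * w.1 ∧
    cr u v w * p.2 = cr v w p * u.2 + cr w u p * v.2 + cr u v p * w.2 ∧
    cr u v p + cr v w p + cr w u p = cr u v w := by
  refine ⟨?_, ?_, ?_⟩ <;> unfold cr <;> ring

private theorem g_vertex {u v w p : Pt} (hpos : 0 < cr u v w) (h1 : cr u v p = 0)
    (h2 : cr v w p = 0) : p = v := by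
  obtain ⟨k1, k2, k3⟩ := g_coord (u := u) (v := v) (w := w) (p := p)
  rw [h1, h2] at k1 k2 k3
  have h4 : cr w u p = cr u v w := by linarith
  rw [h4] at k1 k2
  refine Prod.ext ?_ ?_
  · exact mul_left_cancel₀ hpos.ne' (by linarith)
  · exact mul_left_cancel₀ hpos.ne' (by linarith)

private theorem g_on_edge {u v w p : Pt} (hpos : 0 < cr u v w) (h1 : cr u v p = 0)
    (h2 : 0 < cr v w p) (h3 : 0 < cr w u p) : p ∈ openSegment ℝ u v := by
  obtain ⟨k1, k2, k3⟩ := g_coord (u := u) (v := v) (w := w) (p := p)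
  rw [h1] at k1 k2 k3
  refine ⟨cr v w p / cr u v w, cr w u p / cr u v w, div_pos h2 hpos, div_pos h3 hpos, ?_, ?_⟩
  · rw [← add_div, div_eq_one_iff_eq hpos.ne']
    linarith
  · refine Prod.ext ?_ ?_
    · simp only [Prod.fst_add, Prod.smul_fst, smul_eq_mul]
      field_simp
      linarith
    · simp only [Prod.snd_add, Prod.smul_snd, smul_eq_mul]
      field_simp
      linarith

/-- the case of a point on the line of the first side -/
private theorem g_side_case {S : Finset Pt} {F : Set (Pt × Pt × Pt)} {A B C : Pt}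
    (h : FaceSys S F A B C) {u v w p : Pt} (h1 : (u, v, w) ∈ F) (hp : p ∈ S)
    (k1 : cr u v p = 0) (k2 : 0 ≤ cr v w p) (k3 : 0 ≤ cr w u p) : p = u ∨ p = v ∨ p = w := by
  have hpos := h.pos _ _ _ h1
  rcases k2.eq_or_lt with e2 | k2
  · exact Or.inr (Or.inl (g_vertex hpos k1 e2.symm))
  · rcases k3.eq_or_lt with e3 | k3
    · left
      refine g_vertex (u := w) (v := u) (w := v) ?_ e3.symm k1
      rw [← g_rot, g_rot, g_rot, g_rot]; exact hpos
    · have hseg := g_on_edge hpos k1 k2 k3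
      obtain ⟨v', w', h2⟩ := h.vertex p hp
      have htri : InTri p v' w' p := by
        refine ⟨(g_left _ _).ge, ?_, (g_right _ _).ge⟩
        rw [g_rot]
        exact (h.pos _ _ _ h2).le
      rcases h.near_edge h1 h2 hseg htri with (⟨e1, -, -⟩ | ⟨e1, -, -⟩ | ⟨e1, -, -⟩) |
        ⟨w'', h3, (⟨e1, -, -⟩ | ⟨e1, -, -⟩ | ⟨e1, -, -⟩)⟩
      · exact Or.inl e1
      · exact Or.inr (Or.inl e1)
      · exact Or.inr (Or.inr e1)
      · exact Or.inr (Or.inl e1)
      · exact Or.inl e1
      · exfalso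
        have h4 := h.pos _ _ _ h3
        rw [← e1, g_swap] at h4
        linarith

theorem FaceSys.empty_face {S : Finset Pt} {F : Set (Pt × Pt × Pt)} {A B C : Pt}
    (h : FaceSys S F A B C) {u v w p : Pt} (h1 : (u, v, w) ∈ F) (hp : p ∈ S)
    (hin : InTri u v w p) : p = u ∨ p = v ∨ p = w := by
  obtain ⟨k1, k2, k3⟩ := hin
  rcases k1.eq_or_lt with e1 | k1
  · exact g_side_case h h1 hp e1.symm k2 k3
  rcases k2.eq_or_lt with e2 | k2
  · rcases g_side_case h (h.rot _ _ _ h1) hp e2.symm k3 k1.le with h2 | h2 | h2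
    · exact Or.inr (Or.inl h2)
    · exact Or.inr (Or.inr h2)
    · exact Or.inl h2
  rcases k3.eq_or_lt with e3 | k3
  · rcases g_side_case h (h.rot _ _ _ (h.rot _ _ _ h1)) hp e3.symm k1.le k2.le with h2 | h2 | h2
    · exact Or.inr (Or.inr h2)
    · exact Or.inl h2
    · exact Or.inr (Or.inl h2)
  obtain ⟨v', w', h2⟩ := h.vertex p hp
  obtain ⟨y, hy, -⟩ := g_exists_open (h.pos _ _ _ h2) (h.pos _ _ _ h1)
  have htri : InTri p v' w' p := by
    refine ⟨(g_left _ _).ge, ?_, (g_right _ _).ge⟩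
    rw [g_rot]
    exact (h.pos _ _ _ h2).le
  obtain ⟨ε1, p1, q1, r1⟩ := g_small k1 (cr u v y)
  obtain ⟨ε2, p2, q2, r2⟩ := g_small k2 (cr v w y)
  obtain ⟨ε3, p3, q3, r3⟩ := g_small k3 (cr w u y)
  have hε0 : 0 < min ε1 (min ε2 ε3) := lt_min p1 (lt_min p2 p3)
  have hε1 : min ε1 (min ε2 ε3) ≤ 1 := (min_le_left _ _).trans q1
  have hc := h.interior h1 h2
    (y := (1 - min ε1 (min ε2 ε3)) • p + min ε1 (min ε2 ε3) • y)
    ⟨by rw [g_comb]; exact r1 _ hε0 (min_le_left _ _),
     by rw [g_comb]; exact r2 _ hε0 ((min_le_right _ _).trans (min_le_left _ _)),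
     by rw [g_comb]; exact r3 _ hε0 ((min_le_right _ _).trans (min_le_right _ _))⟩
    (g_shift_open htri hy hε0 hε1)
  rcases hc with ⟨e1, -, -⟩ | ⟨e1, -, -⟩ | ⟨e1, -, -⟩
  · exact Or.inl e1
  · exact Or.inr (Or.inl e1)
  · exact Or.inr (Or.inr e1)

private theorem g_disj {S : Finset Pt} {F : Set (Pt × Pt × Pt)} {A B C : Pt}
    (h : FaceSys S F A B C) {a b w c d e x : Pt} (h1 : (a, b, w) ∈ F) (h2 : (c, d, e) ∈ F)
    (hx : x ∈ openSegment ℝ a b) (hx' : x ∈ segment ℝ c d) : s(a, b) = s(c, d) := by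
  obtain ⟨k1, k2, k3⟩ := g_open (h.pos _ _ _ h1) hx
  have hs := g_seg (h.pos _ _ _ h2) hx'
  have htri : InTri c d e x := ⟨hs.1.ge, hs.2.1, hs.2.2⟩
  rcases h.near_edge h1 h2 hx htri with (⟨e1, e2, -⟩ | ⟨e1, e2, -⟩ | ⟨e1, e2, -⟩) |
        ⟨w'', h3, (⟨e1, e2, -⟩ | ⟨e1, e2, -⟩ | ⟨e1, e2, -⟩)⟩
  · rw [e1, e2]
  · exfalso
    have := hs.1
    rw [e1, e2] at this
    linarith
  · exfalso
    have := hs.1
    rw [e1, e2] at this
    linarith
  · rw [e1, e2, Sym2.eq_swap]
  · exfalso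
    have hx2 : x ∈ openSegment ℝ b a := by rw [openSegment_symm]; exact hx
    obtain ⟨l1, l2, l3⟩ := g_open (h.pos _ _ _ h3) hx2
    have := hs.1
    rw [e1, e2] at this
    linarith
  · exfalso
    have hx2 : x ∈ openSegment ℝ b a := by rw [openSegment_symm]; exact hx
    obtain ⟨l1, l2, l3⟩ := g_open (h.pos _ _ _ h3) hx2
    have := hs.1
    rw [e1, e2] at this
    linarith

private theorem g_disj' {S : Finset Pt} {F : Set (Pt × Pt × Pt)} {A B C : Pt}
    (h : FaceSys S F A B C) {a b c d x : Pt} (h1 : (faceGraph F).Adj a b)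
    (h2 : (faceGraph F).Adj c d)
    (hx : x ∈ openSegment ℝ a b) (hx' : x ∈ segment ℝ c d) : s(a, b) = s(c, d) := by
  obtain ⟨-, w, h1⟩ := h1
  obtain ⟨-, e, h2⟩ := h2
  have hx2 : x ∈ openSegment ℝ b a := by rw [openSegment_symm]; exact hx
  have hx3 : x ∈ segment ℝ d c := by rw [segment_symm]; exact hx'
  rcases h1 with h1 | h1 <;> rcases h2 with h2 | h2
  · exact g_disj h h1 h2 hx hx'
  · rw [g_disj h h1 h2 hx hx3, Sym2.eq_swap]
  · rw [Sym2.eq_swap, g_disj h h1 h2 hx2 hx']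
  · rw [Sym2.eq_swap, g_disj h h1 h2 hx2 hx3, Sym2.eq_swap]

private theorem g_cases {a b x : Pt} (hx : x ∈ segment ℝ a b) :
    x = a ∨ x = b ∨ x ∈ openSegment ℝ a b := by
  obtain ⟨s, t, hs, ht, hst, rfl⟩ := hx
  rcases hs.eq_or_lt with e | hs
  · right; left
    have : t = 1 := by linarith
    rw [← e, this, zero_smul, one_smul, zero_add]
  · rcases ht.eq_or_lt with e | ht
    · left
      have : s = 1 := by linarith
      rw [← e, this, zero_smul, one_smul, add_zero]
    · right; right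
      exact ⟨s, t, hs, ht, hst, rfl⟩

theorem FaceSys.plane {S : Finset Pt} {F : Set (Pt × Pt × Pt)} {A B C : Pt}
    (h : FaceSys S F A B C) : PlaneOn S (faceGraph F) := by
  refine ⟨?_, ?_, ?_⟩
  · rintro a b ⟨-, w, hw | hw⟩
    · exact (g_mem h hw).1
    · exact (g_mem h hw).2.1
  · have key : ∀ a b w, (a, b, w) ∈ F → ∀ p ∈ S, p ∉ openSegment ℝ a b := by
      intro a b w hw p hp hseg
      obtain ⟨k1, k2, k3⟩ := g_open (h.pos _ _ _ hw) hseg
      rcases h.empty_face hw hp ⟨k1.ge, k2.le, k3.le⟩ with e | e | e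
      · rw [e, g_right] at k3
        exact lt_irrefl _ k3
      · rw [e, g_left] at k2
        exact lt_irrefl _ k2
      · rw [e, g_right] at k2
        exact lt_irrefl _ k2
    rintro a b ⟨-, w, hw | hw⟩ p hp
    · exact key a b w hw p hp
    · rw [openSegment_symm]
      exact key b a w hw p hp
  · intro a b c d hab hcd hne x hx hx'
    constructor
    · rcases g_cases hx with e | e | e
      · exact Or.inl e
      · exact Or.inr e
      · exact absurd (g_disj' h hab hcd e hx') hne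
    · rcases g_cases hx' with e | e | e
      · exact Or.inl e
      · exact Or.inr e
      · exact absurd (g_disj' h hcd hab e hx).symm hne

end Pool.Agent.Helper70.MD
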