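import Pool.Agent.Helper70.MD.G1c
import Pool.Agent.Helper70.MD.C1
import Pool.Agent.Helper70.MD.A1b
import Pool.Agent.Helper70.MD.B3

/-!
MD-G1d: the graph of a face system is a triangulation.

Proof. Plane: `plane`. Maximality: let `PlaneOn S T'`, `T := faceGraph F ≤ T'`. By `exists_tri` there is a
triangulation `T''` of `S` with `T' ≤ T''`. It is enough to show `T'' ≤ T`. Corners: `A, B, C ∈ S`
(`cornerAB`, ... and `mem`). Take the disc `D` of `T''` from `IsTri.exists_disc` (C1). For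
`(u,v,w) ∈ F` we have `Face S T'' u v w` (edges in `T ≤ T''`, `pos`, `empty_face`). Let `T''.Adj a b`. If both
`a` and `b` are corners, then `a b` is an edge of `T` by `cornerAB`, `cornerBC`, `cornerCA`. Otherwise let `a` be
the one which is not a corner (symmetry). Let `Q` be the set of `v ∈ S` with `T.Adj a v`. It is nonempty
(`vertex`). For `v ∈ Q` there is `w` with `(a,v,w) ∈ F`: either directly or `(v,a,w') ∈ F` and `rev`
(the exceptional cases of `rev` have `a` a corner); then `Face S T'' a v w`, and `w ∈ Q`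
(`(w,a,v) ∈ F` by rotation). So `Q` is closed in the sense of `closed_link` (B3) for the disc `D`, and
every neighbour of `a` in `T''`, in particular `b`, is in `Q`: `T.Adj a b`.
-/

set_option autoImplicit false

namespace Pool.Agent.Helper70.MD

open Finset

open scoped Classical

theorem FaceSys.isTri {S : Finset Pt} {F : Set (Pt × Pt × Pt)} {A B C : Pt}
    (h : FaceSys S F A B C) : IsTri S (faceGraph F) := by
  refine ⟨h.plane, fun T' hT' hle => ?_⟩
  obtain ⟨T, hT, hle'⟩ := hT'.exists_tri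
  have hne : ∀ u v w, (u, v, w) ∈ F → u ≠ v := by
    intro u v w huv e
    have h1 := h.pos u v w huv
    rw [e] at h1
    unfold cr at h1
    simp at h1
  have hFadj : ∀ u v w, (u, v, w) ∈ F → (faceGraph F).Adj u v := fun u v w huv =>
    ⟨hne u v w huv, w, Or.inl huv⟩
  have hF : ∀ u v w, (u, v, w) ∈ F → Face S T u v w := by
    intro u v w huv
    have h1 := h.rot _ _ _ huv
    have h2 := h.rot _ _ _ h1
    exact ⟨hle' (hle (hFadj _ _ _ huv)), hle' (hle (hFadj _ _ _ h1)), hle' (hle (hFadj _ _ _ h2)),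
      h.pos _ _ _ huv, fun p hp hin => h.empty_face huv hp hin⟩
  obtain ⟨wA, hwA⟩ := h.cornerAB
  obtain ⟨wB, hwB⟩ := h.cornerBC
  obtain ⟨wC, hwC⟩ := h.cornerCA
  have hA : A ∈ S := h.mem _ _ _ hwA
  have hB : B ∈ S := h.mem _ _ _ hwB
  have hC : C ∈ S := h.mem _ _ _ hwC
  have hAB := hFadj _ _ _ hwA
  have hBC := hFadj _ _ _ hwB
  have hCA := hFadj _ _ _ hwC
  obtain ⟨D, hadj, hface, hDA, hDB, hDC⟩ := hT.exists_disc hA hB hC h.tri h.hull
  have main : ∀ a b, T.Adj a b → a ≠ A → a ≠ B → a ≠ C → (faceGraph F).Adj a b := by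
    intro a b hab hnA hnB hnC
    have ha : a ∈ S := hT.1.mem a b hab
    have hb : b ∈ S := hT.1.mem b a hab.symm
    set Q : Finset {p // p ∈ S} := Finset.univ.filter (fun v => (faceGraph F).Adj a v.1) with hQ
    have hmem : ∀ v : {p // p ∈ S}, v ∈ Q ↔ (faceGraph F).Adj a v.1 := by
      intro v; rw [hQ]; simp
    have hQne : Q.Nonempty := by
      obtain ⟨v, w, hvw⟩ := h.vertex a ha
      exact ⟨⟨v, h.mem _ _ _ (h.rot _ _ _ hvw)⟩, (hmem _).2 (hFadj _ _ _ hvw)⟩
    have hQadj : ∀ p ∈ Q, D.adj ⟨a, ha⟩ p := by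
      intro p hp
      rw [hadj]
      exact hle' (hle ((hmem p).1 hp))
    have hQs : ∀ p ∈ Q, ∃ q ∈ Q, D.face ⟨a, ha⟩ p q := by
      intro p hp
      have key : ∃ w, (a, p.1, w) ∈ F := by
        obtain ⟨_, w, hw | hw⟩ := (hmem p).1 hp
        · exact ⟨w, hw⟩
        · rcases h.rev _ _ _ hw with ⟨w', hw'⟩ | h1 | h1 | h1
          · exact ⟨w', hw'⟩
          · exact absurd h1.2 hnB
          · exact absurd h1.2 hnC
          · exact absurd h1.2 hnA
      obtain ⟨w, hw⟩ := key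
      have h3 := h.rot _ _ _ (h.rot _ _ _ hw)
      refine ⟨⟨w, h.mem _ _ _ h3⟩, (hmem _).2 (hFadj _ _ _ h3).symm, ?_⟩
      rw [hface]
      exact hF _ _ _ hw
    have h4 := (D.closed_link ⟨a, ha⟩ Q hQne hQadj hQs).2 ⟨b, hb⟩ ((hadj _ _).2 hab)
    exact (hmem _).1 h4
  refine le_antisymm (fun a b hab' => ?_) hle
  have hab : T.Adj a b := hle' hab'
  by_cases h1 : a ≠ A ∧ a ≠ B ∧ a ≠ C
  · exact main a b hab h1.1 h1.2.1 h1.2.2
  by_cases h2 : b ≠ A ∧ b ≠ B ∧ b ≠ C
  · exact (main b a hab.symm h2.1 h2.2.1 h2.2.2).symm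
  have h3 : a = A ∨ a = B ∨ a = C := by tauto
  have h4 : b = A ∨ b = B ∨ b = C := by tauto
  have hnab := hab.ne
  rcases h3 with rfl | rfl | rfl <;> rcases h4 with rfl | rfl | rfl
  · exact absurd rfl hnab
  · exact hAB
  · exact hCA.symm
  · exact hAB.symm
  · exact absurd rfl hnab
  · exact hBC
  · exact hCA
  · exact hBC.symm
  · exact absurd rfl hnab

end Pool.Agent.Helper70.MD
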