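import Pool.Agent.Helper70.MD.GDefs

/-!
MD-G2a: a ring system gives a face system.

Write `R u v w` for `RFace M W vert l u v w`. The points `vert i k` (`i ≤ M`) determine `i` and `k` modulo
`W i` (`inj`), `W i ≥ 3`.
Classification of the directed edges. By `rot` (applied at most twice; `rot` three times is the
identity) `R u v w` holds iff `(u,v,w)` is a rotation of a basic triple; first prove this as a
lemma: `R u v w ↔ base u v w ∨ base v w u ∨ base w u v` where `base` is the union of the four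
families. Nine possibilities for `(u,v ; w)`:
(a) `(vert (i+1) (e+1), vert (i+1) e ; vert i k)`, `l i k ≤ e < l i (k+1)`;
(b) `(vert (i+1) e, vert i k ; vert (i+1) (e+1))`, same condition;
(c) `(vert i k, vert (i+1) (e+1) ; vert (i+1) e)`, same condition;
(d) `(vert i k, vert i (k+1) ; vert (i+1) (l i (k+1)))`;
(e) `(vert i (k+1), vert (i+1) (l i (k+1)) ; vert i k)`;
(f) `(vert (i+1) (l i (k+1)), vert i k ; vert i (k+1))`;
and the rotations of `ZA`, `ZB`, inside ring `M`, with directed edges (write `j` for `vert M j`)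
`j → j+1` (`1 ≤ j`, `2j+1 < W M`), `j+1 → -j`, `-j → j` from `ZA j`, and `j+1 → -j-1`,
`-j-1 → -j`, `-j → j+1` (`0 ≤ j`, `2j+2 < W M`) from `ZB j`. `W M = 2 m + 1`, `m ≥ 1`; `ZA j`:
`1 ≤ j ≤ m-1`; `ZB j`: `0 ≤ j ≤ m-1`.
`unique`: for the edges between ring `i+1` and ring `i` (outward: (b) and (f)): an outward edge
`(vert (i+1) x, vert i k)`; shift the index `x` by a multiple of `W (i+1)` and `k` by the same multiple of
`W i` (`l_per`) so that `k` is fixed; the condition of (b) is `l i k ≤ x < l i (k+1)`, the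
condition of (f) is `x = l i (k+1)`; as `l i (k+1) - l i k ≤ W (i+1) - 2 < W (i+1)` (strict
monotonicity over the other `W i - 1 ≥ 2` steps of a period), the values `l i k, ..., l i (k+1)` are
pairwise different modulo `W (i+1)`, so `x` is unique and (b), (f) exclude each other. Inward edges: (c)
`(vert i k, vert (i+1) x)` with `l i k < x ≤ l i (k+1)` and (e) with `x = l i k`: the same. Edges
inside a ring: (a) goes backward (`x+1 → x`), (d) forward, these are different because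
`W ≥ 3`; in (a) the apex is determined: the intervals `[l i k, l i (k+1))` partition `ℤ`, and shifting
by a period changes `k` by `W i`. In ring `M`: (a) is backward; the edges from `ZA`, `ZB` are: forward ring
edges `j → j+1` (`1 ≤ j ≤ m-1`), `-j-1 → -j` (`0 ≤ j ≤ m-1`), `0 → 1` (`ZB 0`), `m → -m = m + 1`
(`ZB (m-1)`), all different modulo `W M`; and the diagonals `j+1 → -j` and `-j → j+1`
(`1 ≤ j ≤ m-1`), `-j → j` and `j → -j` (`1 ≤ j ≤ m-1`), all different from each other and not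
between ring neighbours.
`rev`: (a) reversed is `vert (i+1) e → vert (i+1) (e+1)`: (d) if `i + 1 < M`, and for `i + 1 = M` every
forward ring edge occurs in the list above. (d) reversed is (a) for `i ≥ 1` (every integer is in
some interval `[l k, l (k+1))`, by `l_mono` and `l_per` `l` is unbounded in both directions), and for `i = 0` it is one
of the three exceptional edges. (b) reversed: `(vert i k, vert (i+1) e)`, `l i k ≤ e < l i (k+1)`: (c) with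
`e - 1` if `l i k < e`, (e) if `e = l i k`. (c) reversed: `(vert (i+1) (e+1), vert i k)`: (b) with
`e+1` if `e + 1 < l i (k+1)`, (f) if `e + 1 = l i (k+1)`. (e) reversed
`(vert (i+1) (l i (k+1)), vert i (k+1))`: (b) with `k+1`. (f) reversed `(vert i k, vert (i+1) (l i (k+1)))`:
(c) with `e = l i (k+1) - 1`. The ring `M` edges from `ZA`, `ZB`: forward ring edges reversed are (a)
with `i + 1 = M` (`M ≥ 1`); the diagonals occur in both directions: `j+1 → -j` (`ZA j`) and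
`-j → j+1` (`ZB j`), `1 ≤ j ≤ m-1`; `-j → j` (`ZA j`) and `j → -j` (`ZB (j-1)`), `1 ≤ j ≤ m-1`.
`pos`: `posU`, `posL`, `posT` with `cr` invariant under rotation (`ZA j`: `-j < j < j+1 < -j + W M`;
`ZB j`: `-j-1 < -j < j+1 < -j-1 + W M`). `cornerAB`, ...: (d) with `i = 0`, `k = 0, 1, 2`
(`vert 0 3 = vert 0 0`). `vertex`: (d) for `i < M`, (a) for `i = M`. `mem`: clear. `hull`: each `p ∈ S` is
`vert i k`; `i = 0` gives a corner (`k` modulo 3). The statement has `S` as a hypothesis with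
its membership property.
-/

set_option autoImplicit false

namespace Pool.Agent.Helper70.MD

open Finset

open scoped Classical

namespace G2a

/-- the directed edges and apices of the triangulation of the innermost ring (indices) -/
def Zt (n p q r : ℤ) : Prop := ∃ j : ℤ,
  (1 ≤ j ∧ 2 * j + 1 < n ∧ ((p = j ∧ q = j + 1 ∧ r = -j) ∨ (p = j + 1 ∧ q = -j ∧ r = j) ∨
    (p = -j ∧ q = j ∧ r = j + 1))) ∨
  (0 ≤ j ∧ 2 * j + 2 < n ∧ ((p = j + 1 ∧ q = -j - 1 ∧ r = -j) ∨ (p = -j - 1 ∧ q = -j ∧ r = j + 1) ∨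
    (p = -j ∧ q = j + 1 ∧ r = -j - 1)))

/-- explicit form of the triangles -/
def Ed (M : ℕ) (W : ℕ → ℕ) (vert : ℕ → ℤ → Pt) (l : ℕ → ℤ → ℤ) (u v w : Pt) : Prop :=
  (∃ (i : ℕ) (k e : ℤ), i < M ∧ l i k ≤ e ∧ e < l i (k + 1) ∧
    ((u = vert (i + 1) (e + 1) ∧ v = vert (i + 1) e ∧ w = vert i k) ∨
     (u = vert (i + 1) e ∧ v = vert i k ∧ w = vert (i + 1) (e + 1)) ∨
     (u = vert i k ∧ v = vert (i + 1) (e + 1) ∧ w = vert (i + 1) e))) ∨
  (∃ (i : ℕ) (k : ℤ), i < M ∧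
    ((u = vert i k ∧ v = vert i (k + 1) ∧ w = vert (i + 1) (l i (k + 1))) ∨
     (u = vert i (k + 1) ∧ v = vert (i + 1) (l i (k + 1)) ∧ w = vert i k) ∨
     (u = vert (i + 1) (l i (k + 1)) ∧ v = vert i k ∧ w = vert i (k + 1)))) ∨
  (∃ p q r : ℤ, Zt (W M) p q r ∧ u = vert M p ∧ v = vert M q ∧ w = vert M r)

lemma zt_rot {n p q r : ℤ} (h : Zt n p q r) : Zt n q r p := by
  obtain ⟨j, ⟨h1, h2, h | h | h⟩ | ⟨h1, h2, h | h | h⟩⟩ := h
  · exact ⟨j, Or.inl ⟨h1, h2, Or.inr (Or.inl ⟨h.2.1, h.2.2, h.1⟩)⟩⟩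
  · exact ⟨j, Or.inl ⟨h1, h2, Or.inr (Or.inr ⟨h.2.1, h.2.2, h.1⟩)⟩⟩
  · exact ⟨j, Or.inl ⟨h1, h2, Or.inl ⟨h.2.1, h.2.2, h.1⟩⟩⟩
  · exact ⟨j, Or.inr ⟨h1, h2, Or.inr (Or.inl ⟨h.2.1, h.2.2, h.1⟩)⟩⟩
  · exact ⟨j, Or.inr ⟨h1, h2, Or.inr (Or.inr ⟨h.2.1, h.2.2, h.1⟩)⟩⟩
  · exact ⟨j, Or.inr ⟨h1, h2, Or.inl ⟨h.2.1, h.2.2, h.1⟩⟩⟩

section
variable {M : ℕ} {W : ℕ → ℕ} {vert : ℕ → ℤ → Pt} {l : ℕ → ℤ → ℤ}

lemma ed_rot {u v w : Pt} (h : Ed M W vert l u v w) : Ed M W vert l v w u := by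
  rcases h with ⟨i, k, e, hi, h1, h2, h | h | h⟩ | ⟨i, k, hi, h | h | h⟩ | ⟨p, q, r, hz, h⟩
  · exact Or.inl ⟨i, k, e, hi, h1, h2, Or.inr (Or.inl ⟨h.2.1, h.2.2, h.1⟩)⟩
  · exact Or.inl ⟨i, k, e, hi, h1, h2, Or.inr (Or.inr ⟨h.2.1, h.2.2, h.1⟩)⟩
  · exact Or.inl ⟨i, k, e, hi, h1, h2, Or.inl ⟨h.2.1, h.2.2, h.1⟩⟩
  · exact Or.inr (Or.inl ⟨i, k, hi, Or.inr (Or.inl ⟨h.2.1, h.2.2, h.1⟩)⟩)
  · exact Or.inr (Or.inl ⟨i, k, hi, Or.inr (Or.inr ⟨h.2.1, h.2.2, h.1⟩)⟩)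
  · exact Or.inr (Or.inl ⟨i, k, hi, Or.inl ⟨h.2.1, h.2.2, h.1⟩⟩)
  · exact Or.inr (Or.inr ⟨q, r, p, zt_rot hz, h.2.1, h.2.2, h.1⟩)

lemma ed_of_face {u v w : Pt} (h : RFace M W vert l u v w) : Ed M W vert l u v w := by
  induction h with
  | U i k e hi h1 h2 => exact Or.inl ⟨i, k, e, hi, h1, h2, Or.inl ⟨rfl, rfl, rfl⟩⟩
  | L i k hi => exact Or.inr (Or.inl ⟨i, k, hi, Or.inl ⟨rfl, rfl, rfl⟩⟩)
  | ZA j h1 h2 => exact Or.inr (Or.inr ⟨j, j + 1, -j,
      ⟨j, Or.inl ⟨h1, h2, Or.inl ⟨rfl, rfl, rfl⟩⟩⟩, rfl, rfl, rfl⟩)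
  | ZB j h1 h2 => exact Or.inr (Or.inr ⟨j + 1, -j - 1, -j,
      ⟨j, Or.inr ⟨h1, h2, Or.inl ⟨rfl, rfl, rfl⟩⟩⟩, rfl, rfl, rfl⟩)
  | rot u v w _ ih => exact ed_rot ih

lemma rot2 {u v w : Pt} (h : RFace M W vert l u v w) : RFace M W vert l w u v :=
  RFace.rot _ _ _ (RFace.rot _ _ _ h)

lemma face_of_ed {u v w : Pt} (h : Ed M W vert l u v w) : RFace M W vert l u v w := by
  rcases h with ⟨i, k, e, hi, h1, h2, ⟨rfl, rfl, rfl⟩ | ⟨rfl, rfl, rfl⟩ | ⟨rfl, rfl, rfl⟩⟩ |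
    ⟨i, k, hi, ⟨rfl, rfl, rfl⟩ | ⟨rfl, rfl, rfl⟩ | ⟨rfl, rfl, rfl⟩⟩ |
    ⟨p, q, r, ⟨j, ⟨h1, h2, h⟩ | ⟨h1, h2, h⟩⟩, rfl, rfl, rfl⟩
  · exact RFace.U i k e hi h1 h2
  · exact RFace.rot _ _ _ (RFace.U i k e hi h1 h2)
  · exact rot2 (RFace.U i k e hi h1 h2)
  · exact RFace.L i k hi
  · exact RFace.rot _ _ _ (RFace.L i k hi)
  · exact rot2 (RFace.L i k hi)
  · have := RFace.ZA (M := M) (W := W) (vert := vert) (l := l) j h1 h2
    rcases h with ⟨rfl, rfl, rfl⟩ | ⟨rfl, rfl, rfl⟩ | ⟨rfl, rfl, rfl⟩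
    · exact this
    · exact RFace.rot _ _ _ this
    · exact rot2 this
  · have := RFace.ZB (M := M) (W := W) (vert := vert) (l := l) j h1 h2
    rcases h with ⟨rfl, rfl, rfl⟩ | ⟨rfl, rfl, rfl⟩ | ⟨rfl, rfl, rfl⟩
    · exact this
    · exact RFace.rot _ _ _ this
    · exact rot2 this

lemma smono (h : RingSys M W vert l) {i : ℕ} (hi : i < M) : StrictMono (l i) :=
  strictMono_int_of_lt_succ (h.l_mono i hi)

lemma per (h : RingSys M W vert l) {i : ℕ} (hi : i < M) (k n : ℤ) :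
    l i (k + n * W i) = l i k + n * W (i + 1) := by
  induction n using Int.induction_on with
  | zero => simp
  | succ n ih =>
    have e1 : k + ((n : ℤ) + 1) * W i = (k + n * W i) + W i := by ring
    rw [e1, h.l_per i hi, ih]
    ring
  | pred n ih =>
    have e1 : k + (-(n : ℤ)) * W i = (k + (-(n : ℤ) - 1) * W i) + W i := by ring
    rw [e1, h.l_per i hi] at ih
    linarith

lemma gap (h : RingSys M W vert l) {i : ℕ} (hi : i < M) (k : ℤ) :
    l i (k + 1) < l i k + W (i + 1) := by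
  rw [← h.l_per i hi k]
  apply smono h hi
  have := h.W_ge i
  omega

lemma slope (h : RingSys M W vert l) {i : ℕ} (hi : i < M) : Monotone fun k => l i k - k := by
  apply monotone_int_of_le_succ
  intro k
  have := h.l_mono i hi k
  show l i k - k ≤ l i (k + 1) - (k + 1)
  omega

lemma exists_step (h : RingSys M W vert l) {i : ℕ} (hi : i < M) (e : ℤ) :
    ∃ k, l i k ≤ e ∧ e < l i (k + 1) := by
  obtain ⟨k, hk, hk2⟩ := Int.exists_greatest_of_bdd (P := fun k => l i k ≤ e)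
    ⟨max 0 (e - l i 0), fun k hk => by
      by_contra hcon
      push Not at hcon
      have h1 : 0 ≤ k := (le_max_left _ _).trans hcon.le
      have h2 := slope h hi h1
      simp only at h2
      have h3 : e - l i 0 < k := (le_max_right _ _).trans_lt hcon
      omega⟩
    ⟨min 0 (e - l i 0), by
      have h2 := slope h hi (min_le_left 0 (e - l i 0))
      simp only at h2
      have h3 := min_le_right 0 (e - l i 0)
      omega⟩
  refine ⟨k, hk, ?_⟩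
  by_contra hcon
  have := hk2 (k + 1) (not_lt.mp hcon)
  omega

lemma mul_step {a b w : ℤ} (hw : 0 < w) (h : a * w < b * w) : a * w + w ≤ b * w := by
  have h1 : a < b := lt_of_mul_lt_mul_right h hw.le
  have h2 : (a + 1) * w ≤ b * w := mul_le_mul_of_nonneg_right h1 hw.le
  linarith

lemma Wpos (h : RingSys M W vert l) (i : ℕ) : (3 : ℤ) ≤ W i := by exact_mod_cast h.W_ge i

lemma down (h : RingSys M W vert l) {i : ℕ} (hi : i < M) {k x : ℤ} {w : Pt}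
    (hE : Ed M W vert l (vert (i + 1) x) (vert i k) w) :
    ∃ n : ℤ, (l i k + n * W (i + 1) ≤ x ∧ x < l i (k + 1) + n * W (i + 1) ∧
      w = vert (i + 1) (x + 1)) ∨ (x = l i (k + 1) + n * W (i + 1) ∧ w = vert i (k + 1)) := by
  rcases hE with ⟨i', k', e, hi', h1, h2, ⟨hu, hv, hw⟩ | ⟨hu, hv, hw⟩ | ⟨hu, hv, hw⟩⟩ |
    ⟨i', k', hi', ⟨hu, hv, hw⟩ | ⟨hu, hv, hw⟩ | ⟨hu, hv, hw⟩⟩ | ⟨p, q, r, hz, hu, hv, hw⟩
  · have e1 := ((h.inj _ _ _ _ (by omega) (by omega)).1 hu).1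
    have e2 := ((h.inj _ _ _ _ (by omega) (by omega)).1 hv).1
    omega
  · obtain ⟨e1, a, ha⟩ := (h.inj _ _ _ _ (by omega) (by omega)).1 hu
    obtain ⟨e2, b, hb⟩ := (h.inj _ _ _ _ (by omega) (by omega)).1 hv
    subst e2
    have hk : k = k' + b * W i := by linarith
    have p1 := per h hi k' b
    have p2 := per h hi (k' + 1) b
    have e3 : k + 1 = k' + 1 + b * W i := by rw [hk]; ring
    refine ⟨a - b, Or.inl ⟨?_, ?_, ?_⟩⟩
    · rw [hk, p1]; linarith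
    · rw [e3, p2]; linarith
    · rw [hw]
      refine (h.inj _ _ _ _ (by omega) (by omega)).2 ⟨rfl, -a, ?_⟩
      linarith
  · have e1 := ((h.inj _ _ _ _ (by omega) (by omega)).1 hu).1
    have e2 := ((h.inj _ _ _ _ (by omega) (by omega)).1 hv).1
    omega
  · have e1 := ((h.inj _ _ _ _ (by omega) (by omega)).1 hu).1
    have e2 := ((h.inj _ _ _ _ (by omega) (by omega)).1 hv).1
    omega
  · have e1 := ((h.inj _ _ _ _ (by omega) (by omega)).1 hu).1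
    have e2 := ((h.inj _ _ _ _ (by omega) (by omega)).1 hv).1
    omega
  · obtain ⟨e1, a, ha⟩ := (h.inj _ _ _ _ (by omega) (by omega)).1 hu
    obtain ⟨e2, b, hb⟩ := (h.inj _ _ _ _ (by omega) (by omega)).1 hv
    subst e2
    have p2 := per h hi (k' + 1) b
    have e3 : k + 1 = k' + 1 + b * W i := by linarith
    refine ⟨a - b, Or.inr ⟨?_, ?_⟩⟩
    · rw [e3, p2]; linarith
    · rw [hw]
      refine (h.inj _ _ _ _ (by omega) (by omega)).2 ⟨rfl, -b, ?_⟩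
      linarith
  · have e1 := ((h.inj _ _ _ _ (by omega) (by omega)).1 hu).1
    have e2 := ((h.inj _ _ _ _ (by omega) (by omega)).1 hv).1
    omega

lemma up (h : RingSys M W vert l) {i : ℕ} (hi : i < M) {k x : ℤ} {w : Pt}
    (hE : Ed M W vert l (vert i k) (vert (i + 1) x) w) :
    ∃ n : ℤ, (l i k + n * W (i + 1) < x ∧ x ≤ l i (k + 1) + n * W (i + 1) ∧
      w = vert (i + 1) (x - 1)) ∨ (x = l i k + n * W (i + 1) ∧ w = vert i (k - 1)) := by
  rcases hE with ⟨i', k', e, hi', h1, h2, ⟨hu, hv, hw⟩ | ⟨hu, hv, hw⟩ | ⟨hu, hv, hw⟩⟩ |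
    ⟨i', k', hi', ⟨hu, hv, hw⟩ | ⟨hu, hv, hw⟩ | ⟨hu, hv, hw⟩⟩ | ⟨p, q, r, hz, hu, hv, hw⟩
  · have e1 := ((h.inj _ _ _ _ (by omega) (by omega)).1 hu).1
    have e2 := ((h.inj _ _ _ _ (by omega) (by omega)).1 hv).1
    omega
  · have e1 := ((h.inj _ _ _ _ (by omega) (by omega)).1 hu).1
    have e2 := ((h.inj _ _ _ _ (by omega) (by omega)).1 hv).1
    omega
  · obtain ⟨e1, b, hb⟩ := (h.inj _ _ _ _ (by omega) (by omega)).1 hu
    obtain ⟨e2, a, ha⟩ := (h.inj _ _ _ _ (by omega) (by omega)).1 hv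
    subst e1
    have hk : k = k' + b * W i := by linarith
    have p1 := per h hi k' b
    have p2 := per h hi (k' + 1) b
    have e3 : k + 1 = k' + 1 + b * W i := by rw [hk]; ring
    refine ⟨a - b, Or.inl ⟨?_, ?_, ?_⟩⟩
    · rw [hk, p1]; linarith
    · rw [e3, p2]
      have : e + 1 ≤ l i (k' + 1) := h2
      linarith
    · rw [hw]
      refine (h.inj _ _ _ _ (by omega) (by omega)).2 ⟨rfl, -a, ?_⟩
      linarith
  · have e1 := ((h.inj _ _ _ _ (by omega) (by omega)).1 hu).1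
    have e2 := ((h.inj _ _ _ _ (by omega) (by omega)).1 hv).1
    omega
  · obtain ⟨e1, b, hb⟩ := (h.inj _ _ _ _ (by omega) (by omega)).1 hu
    obtain ⟨e2, a, ha⟩ := (h.inj _ _ _ _ (by omega) (by omega)).1 hv
    subst e1
    have p2 := per h hi (k' + 1) b
    have e3 : k = k' + 1 + b * W i := by linarith
    refine ⟨a - b, Or.inr ⟨?_, ?_⟩⟩
    · rw [e3, p2]; linarith
    · rw [hw]
      refine (h.inj _ _ _ _ (by omega) (by omega)).2 ⟨rfl, -b, ?_⟩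
      linarith
  · have e1 := ((h.inj _ _ _ _ (by omega) (by omega)).1 hu).1
    have e2 := ((h.inj _ _ _ _ (by omega) (by omega)).1 hv).1
    omega
  · have e1 := ((h.inj _ _ _ _ (by omega) (by omega)).1 hu).1
    have e2 := ((h.inj _ _ _ _ (by omega) (by omega)).1 hv).1
    omega

lemma same (h : RingSys M W vert l) {i : ℕ} (hi : i ≤ M) {x y : ℤ} {w : Pt}
    (hE : Ed M W vert l (vert i x) (vert i y) w) :
    (∃ (i' : ℕ) (k : ℤ), i = i' + 1 ∧ (W i : ℤ) ∣ x - 1 - y ∧ l i' k ≤ x - 1 ∧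
      x - 1 < l i' (k + 1) ∧ w = vert i' k) ∨
    (i < M ∧ (W i : ℤ) ∣ x + 1 - y ∧ w = vert (i + 1) (l i (x + 1))) ∨
    (i = M ∧ ∃ p q r : ℤ, Zt (W M) p q r ∧ (W M : ℤ) ∣ x - p ∧ (W M : ℤ) ∣ y - q ∧
      w = vert M r) := by
  rcases hE with ⟨i', k', e, hi', h1, h2, ⟨hu, hv, hw⟩ | ⟨hu, hv, hw⟩ | ⟨hu, hv, hw⟩⟩ |
    ⟨i', k', hi', ⟨hu, hv, hw⟩ | ⟨hu, hv, hw⟩ | ⟨hu, hv, hw⟩⟩ | ⟨p, q, r, hz, hu, hv, hw⟩
  · obtain ⟨e1, a, ha⟩ := (h.inj _ _ _ _ (by omega) (by omega)).1 hu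
    obtain ⟨e2, b, hb⟩ := (h.inj _ _ _ _ (by omega) (by omega)).1 hv
    subst e1
    have p1 := per h hi' k' a
    have p2 := per h hi' (k' + 1) a
    have e3 : k' + a * W i' + 1 = k' + 1 + a * W i' := by ring
    refine Or.inl ⟨i', k' + a * W i', rfl, ⟨a - b, ?_⟩, ?_, ?_, ?_⟩
    · rw [mul_sub]; linarith
    · rw [p1]; linarith
    · rw [e3, p2]; linarith
    · rw [hw]
      refine (h.inj _ _ _ _ (by omega) (by omega)).2 ⟨rfl, -a, ?_⟩
      ring
  · have e1 := ((h.inj _ _ _ _ (by omega) (by omega)).1 hu).1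
    have e2 := ((h.inj _ _ _ _ (by omega) (by omega)).1 hv).1
    omega
  · have e1 := ((h.inj _ _ _ _ (by omega) (by omega)).1 hu).1
    have e2 := ((h.inj _ _ _ _ (by omega) (by omega)).1 hv).1
    omega
  · obtain ⟨e1, a, ha⟩ := (h.inj _ _ _ _ (by omega) (by omega)).1 hu
    obtain ⟨e2, b, hb⟩ := (h.inj _ _ _ _ (by omega) (by omega)).1 hv
    subst e1
    have p2 := per h hi' (k' + 1) a
    have e3 : x + 1 = k' + 1 + a * W i := by linarith
    refine Or.inr (Or.inl ⟨hi', ⟨a - b, ?_⟩, ?_⟩)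
    · rw [mul_sub]; linarith
    · rw [hw, e3, p2]
      refine (h.inj _ _ _ _ (by omega) (by omega)).2 ⟨rfl, -a, ?_⟩
      ring
  · have e1 := ((h.inj _ _ _ _ (by omega) (by omega)).1 hu).1
    have e2 := ((h.inj _ _ _ _ (by omega) (by omega)).1 hv).1
    omega
  · have e1 := ((h.inj _ _ _ _ (by omega) (by omega)).1 hu).1
    have e2 := ((h.inj _ _ _ _ (by omega) (by omega)).1 hv).1
    omega
  · obtain ⟨e1, h1⟩ := (h.inj _ _ _ _ (by omega) (by omega)).1 hu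
    obtain ⟨e2, h2⟩ := (h.inj _ _ _ _ (by omega) (by omega)).1 hv
    subst e1
    exact Or.inr (Or.inr ⟨rfl, p, q, r, hz, h1, h2, hw⟩)

lemma rings {u v w : Pt} (hE : Ed M W vert l u v w) :
    (∃ i ≤ M, ∃ x y : ℤ, u = vert i x ∧ v = vert i y) ∨
    (∃ i < M, ∃ x k : ℤ, u = vert (i + 1) x ∧ v = vert i k) ∨
    (∃ i < M, ∃ k x : ℤ, u = vert i k ∧ v = vert (i + 1) x) := by
  rcases hE with ⟨i, k, e, hi, h1, h2, ⟨hu, hv, hw⟩ | ⟨hu, hv, hw⟩ | ⟨hu, hv, hw⟩⟩ |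
    ⟨i, k, hi, ⟨hu, hv, hw⟩ | ⟨hu, hv, hw⟩ | ⟨hu, hv, hw⟩⟩ | ⟨p, q, r, hz, hu, hv, hw⟩
  · exact Or.inl ⟨i + 1, hi, _, _, hu, hv⟩
  · exact Or.inr (Or.inl ⟨i, hi, _, _, hu, hv⟩)
  · exact Or.inr (Or.inr ⟨i, hi, _, _, hu, hv⟩)
  · exact Or.inl ⟨i, hi.le, _, _, hu, hv⟩
  · exact Or.inr (Or.inr ⟨i, hi, _, _, hu, hv⟩)
  · exact Or.inr (Or.inl ⟨i, hi, _, _, hu, hv⟩)
  · exact Or.inl ⟨M, le_rfl, _, _, hu, hv⟩

lemma zt_bound {n m p q r : ℤ} (hn : n = 2 * m + 1) (hz : Zt n p q r) :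
    -m ≤ p ∧ p ≤ m ∧ -m ≤ q ∧ q ≤ m := by
  obtain ⟨j, ⟨h1, h2, h | h | h⟩ | ⟨h1, h2, h | h | h⟩⟩ := hz <;> omega

lemma dvd_cases {n z : ℤ} (hn : 0 < n) (h : n ∣ z) (h1 : -n ≤ z) (h2 : z < n) :
    z = 0 ∨ z = -n := by
  obtain ⟨c, rfl⟩ := h
  have hc1 : -1 ≤ c := by
    by_contra hcon
    push Not at hcon
    have : n * c ≤ n * (-2) := mul_le_mul_of_nonneg_left (by omega) hn.le
    omega
  have hc2 : c < 1 := by
    by_contra hcon
    push Not at hcon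
    have : n * 1 ≤ n * c := mul_le_mul_of_nonneg_left hcon hn.le
    omega
  have : c = -1 ∨ c = 0 := by omega
  rcases this with rfl | rfl
  · right; ring
  · left; ring

lemma zt_unique {n m p q r p' q' r' : ℤ} (hn : n = 2 * m + 1) (hz : Zt n p q r)
    (hz' : Zt n p' q' r') (h1 : n ∣ p - p') (h2 : n ∣ q - q') : r = r' := by
  have b1 := zt_bound hn hz
  have b2 := zt_bound hn hz'
  have e1 : p = p' := by
    rcases dvd_cases (by omega) h1 (by omega) (by omega) with h | h <;> omega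
  have e2 : q = q' := by
    rcases dvd_cases (by omega) h2 (by omega) (by omega) with h | h <;> omega
  obtain ⟨j, ⟨a1, a2, h | h | h⟩ | ⟨a1, a2, h | h | h⟩⟩ := hz <;>
  obtain ⟨j', ⟨a1', a2', h' | h' | h'⟩ | ⟨a1', a2', h' | h' | h'⟩⟩ := hz' <;> omega

lemma zt_not_back {n m p q r : ℤ} (hn : n = 2 * m + 1) (hm : 1 ≤ m) (hz : Zt n p q r)
    (h : n ∣ p - 1 - q) : False := by
  have b := zt_bound hn hz
  rcases dvd_cases (by omega) h (by omega) (by omega) with h | h <;>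
  obtain ⟨j, ⟨a1, a2, h' | h' | h'⟩ | ⟨a1, a2, h' | h' | h'⟩⟩ := hz <;> omega

lemma zt_rev {n m p q r : ℤ} (hn : n = 2 * m + 1) (hz : Zt n p q r) :
    (∃ r', Zt n q p r') ∨ n ∣ q - (p + 1) := by
  obtain ⟨j, ⟨a1, a2, ⟨h1, h2, h3⟩ | ⟨h1, h2, h3⟩ | ⟨h1, h2, h3⟩⟩ |
    ⟨a1, a2, ⟨h1, h2, h3⟩ | ⟨h1, h2, h3⟩ | ⟨h1, h2, h3⟩⟩⟩ := hz
  · right
    refine ⟨0, ?_⟩
    omega
  · left
    exact ⟨-j - 1, j, Or.inr ⟨by omega, by omega,
      Or.inr (Or.inr ⟨by omega, by omega, rfl⟩)⟩⟩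
  · left
    exact ⟨-(j - 1), j - 1, Or.inr ⟨by omega, by omega, Or.inl ⟨by omega, by omega, rfl⟩⟩⟩
  · by_cases hj : 2 * j + 3 < n
    · left
      exact ⟨j + 1 + 1, j + 1, Or.inl ⟨by omega, by omega,
        Or.inr (Or.inr ⟨by omega, by omega, rfl⟩)⟩⟩
    · right
      refine ⟨-1, ?_⟩
      omega
  · right
    refine ⟨0, ?_⟩
    omega
  · by_cases hj : 1 ≤ j
    · left
      exact ⟨j, j, Or.inl ⟨hj, by omega, Or.inr (Or.inl ⟨by omega, by omega, rfl⟩)⟩⟩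
    · right
      refine ⟨0, ?_⟩
      omega

lemma zt_fwd {n m : ℤ} (hn : n = 2 * m + 1) (hm : 1 ≤ m) (e : ℤ) :
    ∃ p q r, Zt n p q r ∧ n ∣ e - p ∧ n ∣ e + 1 - q := by
  have hn0 : 0 < n := by omega
  obtain ⟨t, ht1, ht2, c, hc⟩ : ∃ t : ℤ, -m ≤ t ∧ t ≤ m ∧ n ∣ e - t := by
    have h1 := Int.emod_nonneg e hn0.ne'
    have h2 := Int.emod_lt_of_pos e hn0
    have h3 : n ∣ e - e % n := Int.dvd_self_sub_emod
    by_cases h : e % n ≤ m
    · exact ⟨e % n, by omega, h, h3⟩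
    · refine ⟨e % n - n, by omega, by omega, ?_⟩
      have : e - (e % n - n) = (e - e % n) + n := by ring
      rw [this]
      exact dvd_add h3 dvd_rfl
  by_cases h1 : 1 ≤ t
  · by_cases h2 : t ≤ m - 1
    · exact ⟨t, t + 1, -t, ⟨t, Or.inl ⟨h1, by omega, Or.inl ⟨rfl, rfl, rfl⟩⟩⟩, ⟨c, hc⟩,
        ⟨c, by linarith⟩⟩
    · have : t = m := by omega
      subst this
      refine ⟨t - 1 + 1, -(t - 1) - 1, -(t - 1), ⟨t - 1, Or.inr ⟨by omega, by omega,
        Or.inl ⟨rfl, rfl, rfl⟩⟩⟩, ⟨c, by linarith⟩, ⟨c + 1, ?_⟩⟩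
      rw [mul_add, ← hc, hn]
      ring
  · by_cases h2 : t = 0
    · subst h2
      exact ⟨-0, 0 + 1, -0 - 1, ⟨0, Or.inr ⟨le_rfl, by omega, Or.inr (Or.inr ⟨rfl, rfl, rfl⟩)⟩⟩,
        ⟨c, by linarith⟩, ⟨c, by linarith⟩⟩
    · exact ⟨-(-t - 1) - 1, -(-t - 1), -t - 1 + 1, ⟨-t - 1, Or.inr ⟨by omega, by omega,
        Or.inr (Or.inl ⟨rfl, rfl, rfl⟩)⟩⟩, ⟨c, by linarith⟩, ⟨c, by linarith⟩⟩

lemma top (h : RingSys M W vert l) : ∃ m : ℤ, (W M : ℤ) = 2 * m + 1 ∧ 1 ≤ m := by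
  obtain ⟨m, hm⟩ := h.W_top
  have := h.W_ge M
  exact ⟨m, by exact_mod_cast hm, by omega⟩

lemma unique (h : RingSys M W vert l) {u v w w' : Pt} (hE : Ed M W vert l u v w)
    (hE' : Ed M W vert l u v w') : w = w' := by
  rcases rings hE with ⟨i, hi, x, y, rfl, rfl⟩ | ⟨i, hi, x, k, rfl, rfl⟩ | ⟨i, hi, k, x, rfl, rfl⟩
  · have h3 := Wpos h i
    rcases same h hi hE with ⟨i', k, e1, d1, b1, b2, hw⟩ | ⟨lt1, d1, hw⟩ | ⟨e1, p, q, r, hz, d1, d2, hw⟩
    · rcases same h hi hE' with ⟨i'', k', e1', d1', b1', b2', hw'⟩ | ⟨lt1', d1', hw'⟩ |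
        ⟨e1', p', q', r', hz', d1', d2', hw'⟩
      · have : i' = i'' := by omega
        subst this
        have hm := smono h (show i' < M by omega)
        have k1 : k < k' + 1 := hm.lt_iff_lt.mp (b1.trans_lt b2')
        have k2 : k' < k + 1 := hm.lt_iff_lt.mp (b1'.trans_lt b2)
        have : k = k' := by omega
        rw [hw, hw', this]
      · exfalso
        have := dvd_sub d1' d1
        have e : x + 1 - y - (x - 1 - y) = 2 := by ring
        rw [e] at this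
        have := Int.le_of_dvd (by norm_num) this
        omega
      · exfalso
        subst e1'
        obtain ⟨m, hm, hm1⟩ := top h
        refine zt_not_back hm hm1 hz' ?_
        have := dvd_add (dvd_sub d1 d1') d2'
        have e : x - 1 - y - (x - p') + (y - q') = p' - 1 - q' := by ring
        rwa [e] at this
    · rcases same h hi hE' with ⟨i'', k', e1', d1', b1', b2', hw'⟩ | ⟨lt1', d1', hw'⟩ |
        ⟨e1', p', q', r', hz', d1', d2', hw'⟩
      · exfalso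
        have := dvd_sub d1 d1'
        have e : x + 1 - y - (x - 1 - y) = 2 := by ring
        rw [e] at this
        have := Int.le_of_dvd (by norm_num) this
        omega
      · rw [hw, hw']
      · omega
    · rcases same h hi hE' with ⟨i'', k', e1', d1', b1', b2', hw'⟩ | ⟨lt1', d1', hw'⟩ |
        ⟨e1', p', q', r', hz', d1', d2', hw'⟩
      · exfalso
        subst e1
        obtain ⟨m, hm, hm1⟩ := top h
        refine zt_not_back hm hm1 hz ?_
        have := dvd_add (dvd_sub d1' d1) d2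
        have e : x - 1 - y - (x - p) + (y - q) = p - 1 - q := by ring
        rwa [e] at this
      · omega
      · obtain ⟨m, hm, hm1⟩ := top h
        have e2 : r = r' := by
          refine zt_unique hm hz hz' ?_ ?_
          · have := dvd_sub d1' d1
            have e : x - p' - (x - p) = p - p' := by ring
            rwa [e] at this
          · have := dvd_sub d2' d2
            have e : y - q' - (y - q) = q - q' := by ring
            rwa [e] at this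
        rw [hw, hw', e2]
  · have hW := Wpos h (i + 1)
    obtain ⟨n, ⟨b1, b2, hw⟩ | ⟨b1, hw⟩⟩ := down h hi hE
    · obtain ⟨n', ⟨b1', b2', hw'⟩ | ⟨b1', hw'⟩⟩ := down h hi hE'
      · rw [hw, hw']
      · exfalso
        have hg := gap h hi k
        have := mul_step (a := n') (b := n) (w := W (i + 1)) (by omega) (by linarith)
        linarith
    · obtain ⟨n', ⟨b1', b2', hw'⟩ | ⟨b1', hw'⟩⟩ := down h hi hE'
      · exfalso
        have hg := gap h hi k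
        have := mul_step (a := n) (b := n') (w := W (i + 1)) (by omega) (by linarith)
        linarith
      · rw [hw, hw']
  · have hW := Wpos h (i + 1)
    obtain ⟨n, ⟨b1, b2, hw⟩ | ⟨b1, hw⟩⟩ := up h hi hE
    · obtain ⟨n', ⟨b1', b2', hw'⟩ | ⟨b1', hw'⟩⟩ := up h hi hE'
      · rw [hw, hw']
      · exfalso
        have hg := gap h hi k
        have := mul_step (a := n) (b := n') (w := W (i + 1)) (by omega) (by linarith)
        linarith
    · obtain ⟨n', ⟨b1', b2', hw'⟩ | ⟨b1', hw'⟩⟩ := up h hi hE'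
      · exfalso
        have hg := gap h hi k
        have := mul_step (a := n') (b := n) (w := W (i + 1)) (by omega) (by linarith)
        linarith
      · rw [hw, hw']

lemma three (h : RingSys M W vert l) (k : ℤ) :
    (vert 0 k = vert 0 0 ∧ vert 0 (k + 1) = vert 0 1) ∨
    (vert 0 k = vert 0 1 ∧ vert 0 (k + 1) = vert 0 2) ∨
    (vert 0 k = vert 0 2 ∧ vert 0 (k + 1) = vert 0 0) := by
  have hinj : ∀ a b : ℤ, (3 : ℤ) ∣ a - b → vert 0 a = vert 0 b := by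
    intro a b hab
    refine (h.inj 0 0 a b (Nat.zero_le _) (Nat.zero_le _)).2 ⟨rfl, ?_⟩
    rw [h.W_zero]
    exact_mod_cast hab
  have h3 : k % 3 = 0 ∨ k % 3 = 1 ∨ k % 3 = 2 := by omega
  rcases h3 with h3 | h3 | h3
  · exact Or.inl ⟨hinj _ _ (by omega), hinj _ _ (by omega)⟩
  · exact Or.inr (Or.inl ⟨hinj _ _ (by omega), hinj _ _ (by omega)⟩)
  · exact Or.inr (Or.inr ⟨hinj _ _ (by omega), hinj _ _ (by omega)⟩)

lemma back (h : RingSys M W vert l) {i : ℕ} (hi : i < M) (e : ℤ) :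
    ∃ w', Ed M W vert l (vert (i + 1) (e + 1)) (vert (i + 1) e) w' := by
  obtain ⟨k, h1, h2⟩ := exists_step h hi e
  exact ⟨_, Or.inl ⟨i, k, e, hi, h1, h2, Or.inl ⟨rfl, rfl, rfl⟩⟩⟩

lemma fwd (h : RingSys M W vert l) {i : ℕ} (hi : i ≤ M) (e : ℤ) :
    ∃ w', Ed M W vert l (vert i e) (vert i (e + 1)) w' := by
  rcases Nat.lt_or_ge i M with hlt | hge
  · exact ⟨_, Or.inr (Or.inl ⟨i, e, hlt, Or.inl ⟨rfl, rfl, rfl⟩⟩)⟩
  · have : i = M := le_antisymm hi hge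
    subst this
    obtain ⟨m, hm, hm1⟩ := top h
    obtain ⟨p, q, r, hz, h1, h2⟩ := zt_fwd hm hm1 e
    refine ⟨vert i r, Or.inr (Or.inr ⟨p, q, r, hz, ?_, ?_, rfl⟩)⟩
    · exact (h.inj _ _ _ _ le_rfl le_rfl).2 ⟨rfl, h1⟩
    · exact (h.inj _ _ _ _ le_rfl le_rfl).2 ⟨rfl, h2⟩

lemma rev (h : RingSys M W vert l) {u v w : Pt} (hE : Ed M W vert l u v w) :
    (∃ w', Ed M W vert l v u w') ∨ (u = vert 0 0 ∧ v = vert 0 1) ∨
      (u = vert 0 1 ∧ v = vert 0 2) ∨ (u = vert 0 2 ∧ v = vert 0 0) := by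
  rcases hE with ⟨i, k, e, hi, h1, h2, ⟨rfl, rfl, rfl⟩ | ⟨rfl, rfl, rfl⟩ | ⟨rfl, rfl, rfl⟩⟩ |
    ⟨i, k, hi, ⟨rfl, rfl, rfl⟩ | ⟨rfl, rfl, rfl⟩ | ⟨rfl, rfl, rfl⟩⟩ | ⟨p, q, r, hz, rfl, rfl, rfl⟩
  · left
    exact fwd h hi e
  · left
    by_cases he : l i k < e
    · exact ⟨_, Or.inl ⟨i, k, e - 1, hi, by omega, by omega, Or.inr (Or.inr
        ⟨rfl, by rw [sub_add_cancel], rfl⟩)⟩⟩
    · have he' : e = l i (k - 1 + 1) := by rw [sub_add_cancel]; omega
      exact ⟨_, Or.inr (Or.inl ⟨i, k - 1, hi, Or.inr (Or.inl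
        ⟨by rw [sub_add_cancel], by rw [he'], rfl⟩)⟩)⟩
  · left
    by_cases he : e + 1 < l i (k + 1)
    · exact ⟨_, Or.inl ⟨i, k, e + 1, hi, by omega, he, Or.inr (Or.inl ⟨rfl, rfl, rfl⟩)⟩⟩
    · have he' : e + 1 = l i (k + 1) := by omega
      exact ⟨_, Or.inr (Or.inl ⟨i, k, hi, Or.inr (Or.inr ⟨by rw [he'], rfl, rfl⟩)⟩)⟩
  · rcases Nat.eq_zero_or_pos i with hi0 | hi0
    · subst hi0
      right
      exact three h k
    · left
      obtain ⟨i', rfl⟩ : ∃ i', i = i' + 1 := ⟨i - 1, by omega⟩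
      exact back h (by omega) k
  · left
    have hm := h.l_mono i hi (k + 1)
    exact ⟨_, Or.inl ⟨i, k + 1, l i (k + 1), hi, le_rfl, hm, Or.inr (Or.inl ⟨rfl, rfl, rfl⟩)⟩⟩
  · left
    have hm := h.l_mono i hi k
    exact ⟨_, Or.inl ⟨i, k, l i (k + 1) - 1, hi, by omega, by omega, Or.inr (Or.inr
      ⟨rfl, by rw [sub_add_cancel], rfl⟩)⟩⟩
  · left
    obtain ⟨m, hm, hm1⟩ := top h
    rcases zt_rev hm hz with ⟨r', hz'⟩ | hd
    · exact ⟨_, Or.inr (Or.inr ⟨q, p, r', hz', rfl, rfl, rfl⟩)⟩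
    · have hM := h.M_pos
      obtain ⟨w', hw'⟩ := back h (show M - 1 < M by omega) p
      have e1 : M - 1 + 1 = M := by omega
      rw [e1] at hw'
      have e2 : vert M (p + 1) = vert M q := by
        refine (h.inj _ _ _ _ le_rfl le_rfl).2 ⟨rfl, ?_⟩
        have := (dvd_neg).mpr hd
        have e : -(q - (p + 1)) = p + 1 - q := by ring
        rwa [e] at this
      rw [e2] at hw'
      exact ⟨w', hw'⟩

lemma cr_rot (u v w : Pt) : cr v w u = cr u v w := by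
  unfold cr; ring

lemma pos (h : RingSys M W vert l) {u v w : Pt} (hR : RFace M W vert l u v w) : 0 < cr u v w := by
  induction hR with
  | U i k e hi h1 h2 => exact h.posU i hi k e h1 h2
  | L i k hi => exact h.posL i hi k
  | ZA j h1 h2 =>
    have := h.posT (-j) j (j + 1) (by omega) (by omega) (by omega)
    rwa [← cr_rot] at this
  | ZB j h1 h2 =>
    have := h.posT (-j - 1) (-j) (j + 1) (by omega) (by omega) (by omega)
    rwa [← cr_rot, ← cr_rot] at this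
  | rot u v w _ ih => rwa [cr_rot]

lemma fst_mem {u v w : Pt} (hE : Ed M W vert l u v w) : ∃ i ≤ M, ∃ k : ℤ, u = vert i k := by
  rcases rings hE with ⟨i, hi, x, y, h1, h2⟩ | ⟨i, hi, x, k, h1, h2⟩ | ⟨i, hi, k, x, h1, h2⟩
  · exact ⟨i, hi, x, h1⟩
  · exact ⟨i + 1, hi, x, h1⟩
  · exact ⟨i, hi.le, k, h1⟩

end

end G2a

open G2a in
theorem RingSys.faceSys {M : ℕ} {W : ℕ → ℕ} {vert : ℕ → ℤ → Pt} {l : ℕ → ℤ → ℤ}
    (h : RingSys M W vert l) {S : Finset Pt} (hS : ∀ p, p ∈ S ↔ ∃ i ≤ M, ∃ k : ℤ, p = vert i k) :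
    FaceSys S (rfaces M W vert l) (vert 0 0) (vert 0 1) (vert 0 2) := by
  have hM := h.M_pos
  refine
    { mem := ?_, pos := ?_, rot := ?_, unique := ?_, rev := ?_, cornerAB := ?_, cornerBC := ?_,
      cornerCA := ?_, vertex := ?_, tri := h.tri, hull := ?_ }
  · intro u v w hR
    exact (hS u).2 (fst_mem (ed_of_face hR))
  · intro u v w hR
    exact G2a.pos h hR
  · intro u v w hR
    exact RFace.rot _ _ _ hR
  · intro u v w w' hR hR'
    exact G2a.unique h (ed_of_face hR) (ed_of_face hR')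
  · intro u v w hR
    rcases G2a.rev h (ed_of_face hR) with ⟨w', hw'⟩ | h1
    · exact Or.inl ⟨w', face_of_ed hw'⟩
    · exact Or.inr h1
  · exact ⟨_, RFace.L 0 0 hM⟩
  · exact ⟨_, RFace.L 0 1 hM⟩
  · have e : vert 0 (2 + 1) = vert 0 0 := by
      refine (h.inj 0 0 _ _ (Nat.zero_le _) (Nat.zero_le _)).2 ⟨rfl, ?_⟩
      rw [h.W_zero]
      norm_num
    have := RFace.L (W := W) (vert := vert) (l := l) 0 2 hM
    rw [e] at this
    exact ⟨_, this⟩
  · intro p hp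
    obtain ⟨i, hi, k, rfl⟩ := (hS p).1 hp
    obtain ⟨w, hw⟩ := fwd h hi k
    exact ⟨_, w, face_of_ed hw⟩
  · intro p hp h0 h1 h2
    obtain ⟨i, hi, k, rfl⟩ := (hS p).1 hp
    rcases Nat.eq_zero_or_pos i with hi0 | hi0
    · subst hi0
      rcases three h k with h3 | h3 | h3
      · exact absurd h3.1 h0
      · exact absurd h3.1 h1
      · exact absurd h3.1 h2
    · exact h.hull i k hi0 hi

end Pool.Agent.Helper70.MD
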