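import Pool.Agent.Helper70.MD.GDefs

/-!
MD-G2b: degrees in a ring system.

Proof. First classify the neighbours as in MD-G2a (nine kinds of directed edges (a)-(f) and the
rotations of `ZA`, `ZB`). Neighbours in `faceGraph` of `vert i k` (`p` is a neighbour of `vert i k` if
`R (vert i k) p w` or `R p (vert i k) w`):
for `i < M`: inside the ring `vert i (k+1)` and `vert i (k-1)`; in ring `i+1` the points
`vert (i+1) e` with `l i k ≤ e ≤ l i (k+1)`; in ring `i-1` (`i ≥ 1`) the points `vert (i-1) k'` with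
`l (i-1) k' ≤ k ≤ l (i-1) (k'+1)` (after shifting `k'` by a multiple of `W (i-1)`, `l_per`).
For `i = 0`: `2 + 4 = 6` by `h0`. For `1 ≤ i < M`: by strict monotonicity of `l (i-1)` there are at most
two such `k'`, and two only if `k = l (i-1) k''` for some `k''` (then `k' = k''` and `k' = k''-1`). By
`h1` the number of `e` is two or three, and if it is three then there is only one `k'`. Total `≤ 6`.
For `i = M`: two ring neighbours, at most two in ring `M-1`, and at most two by diagonals: with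
`W M = 2 m + 1` every vertex is `vert M j` with `-m ≤ j ≤ m`; the diagonals are
`{j+1, -j}` and `{j, -j}` for `1 ≤ j ≤ m-1`; `vert M j` for `j > 0` is on `{j, -j}` and
`{j, -(j-1)}` only, `vert M (-j)` on `{j, -j}` and `{j+1, -j}` only, `vert M 0` on none. Total `≤ 6`.
For points which are not of the form `vert i k`, `i ≤ M`, the degree is 0. Use
`Set.ncard_le_ncard` with an explicit finite set (for example the image of a Finset of size
`≤ 6`, or `{a, b} ∪ {c, d} ∪ {e, f}`) and `Set.ncard_insert_le`.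
-/

set_option autoImplicit false

namespace Pool.Agent.Helper70.MD

open Finset

open scoped Classical

/-- oriented pairs of neighbours -/
private def g2RE (M : ℕ) (vert : ℕ → ℤ → Pt) (l : ℕ → ℤ → ℤ) (p q : Pt) : Prop :=
  (∃ i ≤ M, ∃ k : ℤ, p = vert i k ∧ q = vert i (k + 1)) ∨
  (∃ i < M, ∃ k e : ℤ, l i k ≤ e ∧ e ≤ l i (k + 1) ∧ p = vert i k ∧ q = vert (i + 1) e) ∨
  (∃ x y : ℤ, (x + y = 0 ∨ x + y = 1) ∧ p = vert M x ∧ q = vert M y)

/-- pairs of neighbours -/
private def g2RS (M : ℕ) (vert : ℕ → ℤ → Pt) (l : ℕ → ℤ → ℤ) (p q : Pt) : Prop :=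
  g2RE M vert l p q ∨ g2RE M vert l q p

private theorem g2_face {M : ℕ} {W : ℕ → ℕ} {vert : ℕ → ℤ → Pt} {l : ℕ → ℤ → ℤ}
    (hl : ∀ i < M, ∀ k, l i k < l i (k + 1)) {u v w : Pt} (h : RFace M W vert l u v w) :
    g2RS M vert l u v ∧ g2RS M vert l v w ∧ g2RS M vert l w u := by
  induction h with
  | U i k e hi h1 h2 =>
    refine ⟨Or.inr (Or.inl ⟨i + 1, by omega, e, rfl, rfl⟩),
      Or.inr (Or.inr (Or.inl ⟨i, hi, k, e, h1, h2.le, rfl, rfl⟩)),
      Or.inl (Or.inr (Or.inl ⟨i, hi, k, e + 1, by omega, by omega, rfl, rfl⟩))⟩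
  | L i k hi =>
    refine ⟨Or.inl (Or.inl ⟨i, hi.le, k, rfl, rfl⟩),
      Or.inl (Or.inr (Or.inl ⟨i, hi, k + 1, l i (k + 1), le_rfl, (hl i hi (k + 1)).le, rfl, rfl⟩)),
      Or.inr (Or.inr (Or.inl ⟨i, hi, k, l i (k + 1), (hl i hi k).le, le_rfl, rfl, rfl⟩))⟩
  | ZA j h1 h2 =>
    refine ⟨Or.inl (Or.inl ⟨M, le_rfl, j, rfl, rfl⟩),
      Or.inl (Or.inr (Or.inr ⟨j + 1, -j, Or.inr (by ring), rfl, rfl⟩)),
      Or.inl (Or.inr (Or.inr ⟨-j, j, Or.inl (by ring), rfl, rfl⟩))⟩
  | ZB j h1 h2 =>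
    refine ⟨Or.inl (Or.inr (Or.inr ⟨j + 1, -j - 1, Or.inl (by ring), rfl, rfl⟩)),
      Or.inl (Or.inl ⟨M, le_rfl, -j - 1, rfl, by congr 1; ring⟩),
      Or.inl (Or.inr (Or.inr ⟨-j, j + 1, Or.inr (by ring), rfl, rfl⟩))⟩
  | rot u v w _ ih => exact ⟨ih.2.1, ih.2.2, ih.1⟩

private theorem g2_per {M : ℕ} {W : ℕ → ℕ} {vert : ℕ → ℤ → Pt} {l : ℕ → ℤ → ℤ}
    (h : RingSys M W vert l) {i : ℕ} (hi : i < M) (k t : ℤ) :
    l i (k + t * W i) = l i k + t * W (i + 1) := by
  induction t using Int.induction_on with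
  | zero => simp
  | succ n ih =>
    have e : k + ((n : ℤ) + 1) * W i = (k + (n : ℤ) * W i) + W i := by ring
    rw [e, h.l_per i hi, ih]
    ring
  | pred n ih =>
    have e : k + (-(n : ℤ)) * W i = (k + (-(n : ℤ) - 1) * W i) + W i := by ring
    rw [e, h.l_per i hi] at ih
    linarith

private theorem g2_nb {M : ℕ} {W : ℕ → ℕ} {vert : ℕ → ℤ → Pt} {l : ℕ → ℤ → ℤ}
    (h : RingSys M W vert l) {i : ℕ} (hi : i ≤ M) (k : ℤ) {q : Pt}
    (hq : g2RS M vert l (vert i k) q) :
    q = vert i (k + 1) ∨ q = vert i (k - 1) ∨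
    (i < M ∧ ∃ e, l i k ≤ e ∧ e ≤ l i (k + 1) ∧ q = vert (i + 1) e) ∨
    (∃ a, i = a + 1 ∧ ∃ k', l a k' ≤ k ∧ k ≤ l a (k' + 1) ∧ q = vert a k') ∨
    (i = M ∧ (q = vert M (-k) ∨ q = vert M (1 - k))) := by
  have hper : ∀ a ≤ M, ∀ x y : ℤ, (W a : ℤ) ∣ x - y → vert a x = vert a y :=
    fun a ha x y hd => (h.inj a a x y ha ha).2 ⟨rfl, hd⟩
  rcases hq with (⟨a, ha, b, h1, h2⟩ | ⟨a, ha, b, e, h3, h4, h1, h2⟩ | ⟨x, y, h3, h1, h2⟩) |
    (⟨a, ha, b, h1, h2⟩ | ⟨a, ha, b, e, h3, h4, h1, h2⟩ | ⟨x, y, h3, h1, h2⟩)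
  · -- ring edge, first vertex
    obtain ⟨rfl, hd⟩ := (h.inj i a k b hi ha).1 h1
    left
    rw [h2]
    refine hper i hi _ _ ?_
    have e : b + 1 - (k + 1) = -(k - b) := by ring
    rw [e]
    exact (dvd_neg).2 hd
  · obtain ⟨rfl, t, ht⟩ := (h.inj i a k b hi ha.le).1 h1
    right; right; left
    have hk : k = b + t * W i := by linarith [mul_comm (W i : ℤ) t]
    refine ⟨ha, e + t * W (i + 1), ?_, ?_, ?_⟩
    · rw [hk, g2_per h ha]
      linarith
    · have e2 : k + 1 = (b + 1) + t * W i := by rw [hk]; ring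
      rw [e2, g2_per h ha]
      linarith
    · rw [h2]
      refine hper (i + 1) (by omega) _ _ ⟨-t, by ring⟩
  · obtain ⟨rfl, hd⟩ := (h.inj i M k x hi le_rfl).1 h1
    right; right; right; right
    refine ⟨rfl, ?_⟩
    rcases h3 with h3 | h3
    · left
      rw [h2]
      refine hper i hi _ _ ?_
      have e : y - -k = k - x := by linarith
      rw [e]
      exact hd
    · right
      rw [h2]
      refine hper i hi _ _ ?_
      have e : y - (1 - k) = k - x := by linarith
      rw [e]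
      exact hd
  · obtain ⟨rfl, hd⟩ := (h.inj i a k (b + 1) hi ha).1 h2
    right; left
    rw [h1]
    refine hper i hi _ _ ?_
    have e : b - (k - 1) = -(k - (b + 1)) := by ring
    rw [e]
    exact (dvd_neg).2 hd
  · obtain ⟨rfl, t, ht⟩ := (h.inj i (a + 1) k e hi (by omega)).1 h2
    right; right; right; left
    have hk : k = e + t * W (a + 1) := by linarith [mul_comm (W (a + 1) : ℤ) t]
    refine ⟨a, rfl, b + t * W a, ?_, ?_, ?_⟩
    · rw [g2_per h ha, hk]
      linarith
    · have e2 : b + t * W a + 1 = (b + 1) + t * W a := by ring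
      rw [e2, g2_per h ha, hk]
      linarith
    · rw [h1]
      exact hper a ha.le _ _ ⟨-t, by ring⟩
  · obtain ⟨rfl, hd⟩ := (h.inj i M k y hi le_rfl).1 h2
    right; right; right; right
    refine ⟨rfl, ?_⟩
    rcases h3 with h3 | h3
    · left
      rw [h1]
      refine hper i hi _ _ ?_
      have e : x - -k = k - y := by linarith
      rw [e]
      exact hd
    · right
      rw [h1]
      refine hper i hi _ _ ?_
      have e : x - (1 - k) = k - y := by linarith
      rw [e]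
      exact hd

/-- the positions of the inner neighbours -/
private def g2K (f : ℤ → ℤ) (k : ℤ) : Set ℤ := {x | f x ≤ k ∧ k ≤ f (x + 1)}

private theorem g2K_two {f : ℤ → ℤ} (hf : StrictMono f) {k x y : ℤ} (hx : x ∈ g2K f k)
    (hy : y ∈ g2K f k) (hlt : x < y) : y = x + 1 ∧ f y = k := by
  have h1 : f (x + 1) ≤ f y := hf.monotone (by omega)
  have h2 : f (x + 1) = f y := le_antisymm h1 (hy.1.trans hx.2)
  exact ⟨(hf.injective h2).symm, le_antisymm hy.1 (h2 ▸ hx.2)⟩

private theorem g2K_sub {f : ℤ → ℤ} (hf : StrictMono f) (k : ℤ) :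
    ∃ b : ℤ, g2K f k ⊆ ({b, b + 1} : Set ℤ) := by
  by_cases hne : ∃ b, b ∈ g2K f k
  · obtain ⟨b, hb⟩ := hne
    by_cases hb1 : b - 1 ∈ g2K f k
    · refine ⟨b - 1, fun y hy => ?_⟩
      rcases lt_trichotomy y b with h | h | h
      · have := (g2K_two hf hy hb h).1
        left; omega
      · right
        rw [h]; simp
      · have h1 := (g2K_two hf hb hy h).1
        have h2 := (g2K_two hf hb1 hy (by omega)).1
        omega
    · refine ⟨b, fun y hy => ?_⟩
      rcases lt_trichotomy y b with h | h | h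
      · have := (g2K_two hf hy hb h).1
        have e : b - 1 = y := by omega
        exact absurd (e ▸ hy) hb1
      · left; exact h
      · right; exact (g2K_two hf hb hy h).1
  · exact ⟨0, fun y hy => absurd ⟨y, hy⟩ hne⟩

private theorem g2K_sub1 {f : ℤ → ℤ} (hf : StrictMono f) (k : ℤ) (hk : ∀ x, f x ≠ k) :
    ∃ b : ℤ, g2K f k ⊆ ({b} : Set ℤ) := by
  by_cases hne : ∃ b, b ∈ g2K f k
  · obtain ⟨b, hb⟩ := hne
    refine ⟨b, fun y hy => ?_⟩
    rcases lt_trichotomy y b with h | h | h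
    · exact absurd (g2K_two hf hy hb h).2 (hk _)
    · exact h
    · exact absurd (g2K_two hf hb hy h).2 (hk _)
  · exact ⟨0, fun y hy => absurd ⟨y, hy⟩ hne⟩

private theorem g2_pair (x y : Pt) : ({x, y} : Set Pt).ncard ≤ 2 := by
  refine (Set.ncard_insert_le _ _).trans ?_
  rw [Set.ncard_singleton]

private theorem g2_down {f : ℤ → ℤ} (hf : StrictMono f) (k : ℤ) (g : ℤ → Pt) :
    (g '' g2K f k).Finite ∧ (g '' g2K f k).ncard ≤ 2 ∧
      ((∀ x, f x ≠ k) → (g '' g2K f k).ncard ≤ 1) := by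
  obtain ⟨b, hb⟩ := g2K_sub hf k
  have h1 : g '' g2K f k ⊆ ({g b, g (b + 1)} : Set Pt) := by
    rintro _ ⟨x, hx, rfl⟩
    rcases hb hx with h | h
    · left; rw [h]
    · right
      rw [Set.mem_singleton_iff] at h ⊢
      rw [h]
  have hfin : ({g b, g (b + 1)} : Set Pt).Finite := (Set.finite_singleton _).insert _
  refine ⟨hfin.subset h1, (Set.ncard_le_ncard h1 hfin).trans (g2_pair _ _), fun hk => ?_⟩
  obtain ⟨c, hc⟩ := g2K_sub1 hf k hk
  have h2 : g '' g2K f k ⊆ ({g c} : Set Pt) := by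
    rintro _ ⟨x, hx, rfl⟩
    have := hc hx
    rw [Set.mem_singleton_iff] at this ⊢
    rw [this]
  refine (Set.ncard_le_ncard h2 (Set.finite_singleton _)).trans ?_
  rw [Set.ncard_singleton]

private theorem g2_up (a b : ℤ) (g : ℤ → Pt) {n : ℕ} (h : b + 1 - a ≤ n) :
    (g '' Set.Icc a b).Finite ∧ (g '' Set.Icc a b).ncard ≤ n := by
  have hfin : (Set.Icc a b).Finite := Set.finite_Icc a b
  refine ⟨hfin.image g, (Set.ncard_image_le hfin).trans ?_⟩
  rw [← Finset.coe_Icc, Set.ncard_coe_finset, Int.card_Icc]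
  omega

theorem RingSys.maxDeg {M : ℕ} {W : ℕ → ℕ} {vert : ℕ → ℤ → Pt} {l : ℕ → ℤ → ℤ}
    (h : RingSys M W vert l) (h0 : ∀ k, l 0 (k + 1) = l 0 k + 3)
    (h1 : ∀ i k, 1 ≤ i → i < M → l i (k + 1) ≤ l i k + 2 ∧
      (l i (k + 1) = l i k + 2 → ∀ k', l (i - 1) k' ≠ k)) :
    MaxDegLE (faceGraph (rfaces M W vert l)) 6 := by
  have hmono : ∀ i < M, StrictMono (l i) := fun i hi => strictMono_int_of_lt_succ (h.l_mono i hi)
  intro v
  have hRS : ∀ q ∈ (faceGraph (rfaces M W vert l)).neighborSet v, g2RS M vert l v q := by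
    intro q hq
    obtain ⟨-, w, hw | hw⟩ := hq
    · exact (g2_face h.l_mono hw).1
    · exact (g2_face h.l_mono hw).1.symm
  by_cases hv : ∃ i ≤ M, ∃ k : ℤ, v = vert i k
  swap
  · have hempty : (faceGraph (rfaces M W vert l)).neighborSet v = ∅ := by
      rw [Set.eq_empty_iff_forall_notMem]
      intro q hq
      apply hv
      rcases hRS q hq with (⟨a, ha, b, h1, h2⟩ | ⟨a, ha, b, e, -, -, h1, h2⟩ | ⟨x, y, -, h1, h2⟩) |
        (⟨a, ha, b, h1, h2⟩ | ⟨a, ha, b, e, -, -, h1, h2⟩ | ⟨x, y, -, h1, h2⟩)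
      · exact ⟨a, ha, b, h1⟩
      · exact ⟨a, ha.le, b, h1⟩
      · exact ⟨M, le_rfl, x, h1⟩
      · exact ⟨a, ha, b + 1, h2⟩
      · exact ⟨a + 1, ha, e, h2⟩
      · exact ⟨M, le_rfl, y, h2⟩
    rw [hempty, Set.ncard_empty]
    omega
  obtain ⟨i, hi, k, rfl⟩ := hv
  have hMp := h.M_pos
  rcases Nat.eq_zero_or_pos i with hi0 | hi0
  · -- the outer ring
    subst hi0
    obtain ⟨u1, u2⟩ := g2_up (l 0 k) (l 0 (k + 1)) (vert 1) (n := 4) (by
      have := h0 k
      push_cast
      omega)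
    have hsub : (faceGraph (rfaces M W vert l)).neighborSet (vert 0 k) ⊆
        ({vert 0 (k + 1), vert 0 (k - 1)} : Set Pt) ∪ vert 1 '' Set.Icc (l 0 k) (l 0 (k + 1)) := by
      intro q hq
      rcases g2_nb h hi k (hRS q hq) with h1 | h1 | ⟨-, e, h2, h3, h4⟩ | ⟨a, h2, -⟩ | ⟨h2, -⟩
      · left; left; exact h1
      · left; right; exact h1
      · right; exact ⟨e, ⟨h2, h3⟩, h4.symm⟩
      · omega
      · omega
    refine (Set.ncard_le_ncard hsub (((Set.finite_singleton _).insert _).union u1)).trans ?_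
    refine (Set.ncard_union_le _ _).trans ?_
    have := g2_pair (vert 0 (k + 1)) (vert 0 (k - 1))
    omega
  · obtain ⟨a, rfl⟩ : ∃ a, i = a + 1 := ⟨i - 1, by omega⟩
    obtain ⟨d1, d2, d3⟩ := g2_down (hmono a (by omega)) k (vert a)
    rcases Nat.lt_or_ge (a + 1) M with hM | hM
    · -- the rings between
      have hb := h1 (a + 1) k (by omega) hM
      have hsub : (faceGraph (rfaces M W vert l)).neighborSet (vert (a + 1) k) ⊆
          ({vert (a + 1) (k + 1), vert (a + 1) (k - 1)} : Set Pt) ∪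
            (vert (a + 1 + 1) '' Set.Icc (l (a + 1) k) (l (a + 1) (k + 1)) ∪
              vert a '' g2K (l a) k) := by
        intro q hq
        rcases g2_nb h hi k (hRS q hq) with h1 | h1 | ⟨-, e, h2, h3, h4⟩ |
          ⟨a', h2, k', h3, h4, h5⟩ | ⟨h2, -⟩
        · left; left; exact h1
        · left; right; exact h1
        · right; left; exact ⟨e, ⟨h2, h3⟩, h4.symm⟩
        · right; right
          obtain rfl : a = a' := by omega
          exact ⟨k', ⟨h3, h4⟩, h5.symm⟩
        · omega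
      have hp := g2_pair (vert (a + 1) (k + 1)) (vert (a + 1) (k - 1))
      by_cases heq : l (a + 1) (k + 1) = l (a + 1) k + 2
      · obtain ⟨u1, u2⟩ := g2_up (l (a + 1) k) (l (a + 1) (k + 1)) (vert (a + 1 + 1)) (n := 3)
          (by push_cast; omega)
        have hd := d3 (fun x hx => hb.2 heq x hx)
        refine (Set.ncard_le_ncard hsub
          (((Set.finite_singleton _).insert _).union (u1.union d1))).trans ?_
        refine (Set.ncard_union_le _ _).trans ?_
        have := Set.ncard_union_le (vert (a + 1 + 1) '' Set.Icc (l (a + 1) k) (l (a + 1) (k + 1)))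
          (vert a '' g2K (l a) k)
        omega
      · obtain ⟨u1, u2⟩ := g2_up (l (a + 1) k) (l (a + 1) (k + 1)) (vert (a + 1 + 1)) (n := 2)
          (by push_cast; omega)
        refine (Set.ncard_le_ncard hsub
          (((Set.finite_singleton _).insert _).union (u1.union d1))).trans ?_
        refine (Set.ncard_union_le _ _).trans ?_
        have := Set.ncard_union_le (vert (a + 1 + 1) '' Set.Icc (l (a + 1) k) (l (a + 1) (k + 1)))
          (vert a '' g2K (l a) k)
        omega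
    · -- the last ring
      have hMe : M = a + 1 := by omega
      have hsub : (faceGraph (rfaces M W vert l)).neighborSet (vert (a + 1) k) ⊆
          ({vert (a + 1) (k + 1), vert (a + 1) (k - 1)} : Set Pt) ∪
            (({vert M (-k), vert M (1 - k)} : Set Pt) ∪ vert a '' g2K (l a) k) := by
        intro q hq
        rcases g2_nb h hi k (hRS q hq) with h1 | h1 | ⟨h2, -⟩ |
          ⟨a', h2, k', h3, h4, h5⟩ | ⟨-, h2 | h2⟩
        · left; left; exact h1
        · left; right; exact h1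
        · omega
        · right; right
          obtain rfl : a = a' := by omega
          exact ⟨k', ⟨h3, h4⟩, h5.symm⟩
        · right; left; left; exact h2
        · right; left; right; exact h2
      have hp := g2_pair (vert (a + 1) (k + 1)) (vert (a + 1) (k - 1))
      have hp2 := g2_pair (vert M (-k)) (vert M (1 - k))
      refine (Set.ncard_le_ncard hsub (((Set.finite_singleton _).insert _).union
        (((Set.finite_singleton _).insert _).union d1))).trans ?_
      refine (Set.ncard_union_le _ _).trans ?_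
      have := Set.ncard_union_le ({vert M (-k), vert M (1 - k)} : Set Pt) (vert a '' g2K (l a) k)
      omega

end Pool.Agent.Helper70.MD
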