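import Pool.Agent.Helper70.MD.HDefs

/-!
MD-G3a: the middle positions of the layers and of the rings.

Let `τ.Good`, `τ.OkSt st`. In a loop (a maximal interval `[a, b)` of columns with `inL`, `a ≥ 8`,
`b ≤ Xr - 8`) the states are `B, ..., B, D, A, ..., A` with exactly one `D` at a column `d`
(`okPair`, and `S` exactly outside the loops): `B` on `[a, d)`, `A` on `(d, b)`. Local consequences which
are enough: (i) `st h = B` implies `inL (h+1)` and `st (h+1) ∈ {B, D}`; (ii) `st h = A` implies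
`inL (h-1)`, `st (h-1) ∈ {D, A}`; (iii) `st h = D` implies `st (h+1) ∈ {A, S}`, `st (h-1) ∈ {S, B}`;
(iv) `intr k` implies `st (k-1) ≠ S`, `st k ≠ S`, and exactly one of: `st (k-1) = B`, `st k = A`
(because `okPair`: `B → B, D`; `D → A`; `A → A`); (v) `¬ intr k`: `st (k-1) ≠ B`, `st k ≠ A`
(`k ≥ 1`).
`mem_CE`: `x = 24 h + 12` with `h` not in a loop is `evm (h + 3)`, state `S`. `x = 24 k`, `k` interior: by
(iv) either `st (k-1) = B`, `x = ev (k-1)`, or `st k = A`, `x = ev k`. Conversely the shallow `ev h` are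
`24 h + 12` (`S`), `24 (h+1)` with `h+1` interior (`B`, (i)), `24 h` with `h` interior (`A`, (ii)).
`mem_CO`: `x = 24 k`, `k ≤ Xr`, `¬ intr k`: `od k`. `x = 24 h + 12 + shift h`, `h` in a loop: if
`st h = D` it is the deep point `ev h`; if `st h = B`: `h + 1` is interior and `x = od (h+1)`; if
`st h = A`: `h` is interior, `st (h-1) ≠ B`, `x = od h`. Conversely `od k` is in `CO`, and a deep point is
`24 h + 12 + shift h`.
`od_ne_deep`: `od k = 24 h + 12 + shift h` with `st h = D`: by `|shift| ≤ 6` (the positions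
`24 h + 12 + shift h` lie in `(24 h, 24 h + 24)`) either `k = h + 1`, `intr k`, `st h = B`: no; or `k = h`,
`intr h`, `st (h-1) ≠ B`: by (iii) `st (h-1) ∈ {S, B}`, so `S`, but `intr h` says that `h-1` is in the
loop: no.
`evm_mono`: consecutive states: `(S,S)`: `+24`; `(S,B)`: `24 h + 12 → 24 h + 48`; `(S,D)`:
`24 h + 12 → 24 h + 36 + s`; `(B,B)`: `+24`; `(B,D)`: `24 h + 24 → 24 h + 36 + s`; `(D,A)`:
`24 h + 12 + s → 24 h + 24`; `(D,S)`: `→ 24 h + 36`; `(A,A)`; `(A,S)`: `24 h → 24 h + 36`; all steps are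
`≥ 6` as `|s| ≤ 6`; the margin steps are clear (states near the ends are `S`). `odm_mono`:
`od k ∈ {24 k, 24 k - 12 + s (k-1), 24 k + 12 + s k}`, the second if `st (k-1) = B`, the third if
`intr k` and `st (k-1) ∈ {D, A}`. If `od k = 24 k + 12 + s k` (so `st k = A` by (iv)) then `od (k+1)` is
`24 (k+1)` or `24 (k+1) + 12 + s (k+1)` (`st k = A ≠ B`), so larger. If `od (k+1) = 24 k + 12 + s k`
(`st k = B`) then `st (k-1) ≠ D, A`, so `od k ∈ {24 k, 24 k - 12 + s (k-1)}`, smaller. Otherwise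
`od k ≤ 24 k < 24 (k+1) ≤ od (k+1)`.
-/

set_option autoImplicit false

namespace Pool.Agent.Helper70.MD

open Finset

open scoped Classical

namespace Tab

variable {τ : Tab} {st : ℕ → ℕ → St}

theorem shift_bd (hg : τ.Good) (p h : ℕ) : -6 ≤ τ.shift p h ∧ τ.shift p h ≤ 6 := by
  unfold shift
  rcases hh : τ.sh p h with _ | s
  · simp
  · simpa using hg.bound p h s hh

theorem inL_iff (hs : τ.OkSt st) (p h : ℕ) : τ.inL p h ↔ st p h ≠ .S := by
  have := hs.1 p h
  tauto

theorem st_row (hg : τ.Good) (hs : τ.OkSt st) {p : ℕ} (h : ℕ) (hp : τ.P ≤ p) : st p h = .S := by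
  rw [hs.1]
  intro h1
  exact h1 (hg.none_row p h hp)

theorem st_left (hg : τ.Good) (hs : τ.OkSt st) (p : ℕ) {h : ℕ} (hh : h < 8) : st p h = .S := by
  rw [hs.1]
  intro h1
  exact h1 (hg.none_left p h hh)

theorem st_right (hg : τ.Good) (hs : τ.OkSt st) (p : ℕ) {h : ℕ} (hh : τ.Xr ≤ h + 8) :
    st p h = .S := by
  rw [hs.1]
  intro h1
  exact h1 (hg.none_right p h hh)

theorem ne_S_bd (hg : τ.Good) (hs : τ.OkSt st) {p h : ℕ} (hh : st p h ≠ .S) :
    8 ≤ h ∧ h + 8 < τ.Xr := by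
  constructor
  · by_contra hcon
    exact hh (st_left hg hs p (by omega))
  · by_contra hcon
    exact hh (st_right hg hs p (by omega))

theorem ev_S {p h : ℕ} (hh : st p h = .S) : τ.ev st p h = 24 * h + 12 := by
  simp only [ev, hh]

theorem ev_B {p h : ℕ} (hh : st p h = .B) : τ.ev st p h = 24 * h + 24 := by
  simp only [ev, hh]

theorem ev_A {p h : ℕ} (hh : st p h = .A) : τ.ev st p h = 24 * h := by
  simp only [ev, hh]

theorem ev_D {p h : ℕ} (hh : st p h = .D) : τ.ev st p h = 24 * h + 12 + τ.shift p h := by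
  simp only [ev, hh]

/-- The possible pairs of neighbouring states. -/
theorem pairs (hs : τ.OkSt st) (p h : ℕ) :
    (st p h = .S ∧ (st p (h + 1) = .S ∨ st p (h + 1) = .B ∨ st p (h + 1) = .D)) ∨
    (st p h = .B ∧ (st p (h + 1) = .B ∨ st p (h + 1) = .D)) ∨
    (st p h = .D ∧ (st p (h + 1) = .A ∨ st p (h + 1) = .S)) ∨
    (st p h = .A ∧ (st p (h + 1) = .A ∨ st p (h + 1) = .S)) := by
  have := hs.2 p h
  rcases h1 : st p h with _ | _ | _ | _ <;> rcases h2 : st p (h + 1) with _ | _ | _ | _ <;>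
    simp_all [okPair]

/-- Interior positions. -/
theorem intr_succ (hs : τ.OkSt st) (p h : ℕ) :
    τ.intr p (h + 1) ↔ st p h ≠ .S ∧ st p (h + 1) ≠ .S := by
  unfold intr
  rw [inL_iff hs, inL_iff hs]
  rfl

theorem not_intr_zero (hg : τ.Good) (hs : τ.OkSt st) (p : ℕ) : ¬ τ.intr p 0 := by
  intro h
  exact (inL_iff hs p 0).mp h.2 (st_left hg hs p (by norm_num))

/-- The odd positions: cases. -/
theorem od_cases (hg : τ.Good) (hs : τ.OkSt st) (p k : ℕ) :
    (¬ τ.intr p k ∧ τ.od st p k = 24 * k) ∨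
    (∃ h, k = h + 1 ∧ τ.intr p k ∧ st p h = .B ∧ (st p (h + 1) = .B ∨ st p (h + 1) = .D) ∧
      τ.od st p k = 24 * h + 12 + τ.shift p h) ∨
    (∃ h, k = h + 1 ∧ τ.intr p k ∧ (st p h = .D ∨ st p h = .A) ∧ st p (h + 1) = .A ∧
      τ.od st p k = 24 * k + 12 + τ.shift p k) := by
  by_cases hi : τ.intr p k
  · right
    rcases k with _ | h
    · exact absurd hi (not_intr_zero hg hs p)
    · have hi' := (intr_succ hs p h).mp hi
      rcases pairs hs p h with ⟨h1, -⟩ | ⟨h1, h2⟩ | ⟨h1, h2⟩ | ⟨h1, h2⟩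
      · exact absurd h1 hi'.1
      · left
        refine ⟨h, rfl, hi, h1, h2, ?_⟩
        unfold od
        rw [if_pos hi, if_pos (by simpa using h1)]
        simp
      · right
        have h2' : st p (h + 1) = .A := by
          rcases h2 with h2 | h2
          · exact h2
          · exact absurd h2 hi'.2
        refine ⟨h, rfl, hi, Or.inl h1, h2', ?_⟩
        unfold od
        rw [if_pos hi, if_neg (by simp [h1])]
      · right
        have h2' : st p (h + 1) = .A := by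
          rcases h2 with h2 | h2
          · exact h2
          · exact absurd h2 hi'.2
        refine ⟨h, rfl, hi, Or.inr h1, h2', ?_⟩
        unfold od
        rw [if_pos hi, if_neg (by simp [h1])]
  · left
    refine ⟨hi, ?_⟩
    unfold od
    rw [if_neg hi]

theorem evm_mid (p : ℕ) {h : ℕ} (hh : h < τ.Xr) : τ.evm st p (h + 3) = τ.ev st p h := by
  unfold evm
  rw [if_neg (by omega), if_neg (by omega), if_neg (by omega), if_pos (by omega)]
  rfl

theorem dlm_mid (p : ℕ) {h : ℕ} (hh : h < τ.Xr) : τ.dlm st p (h + 3) = (st p h).dl := by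
  unfold dlm
  rw [if_pos (by omega)]
  rfl

theorem odm_mid (p : ℕ) {k : ℕ} (hh : k < τ.Xr + 1) : τ.odm st p (k + 2) = τ.od st p k := by
  unfold odm
  rw [if_neg (by omega), if_neg (by omega), if_pos (by omega)]
  rfl

theorem evm_0 (p : ℕ) : τ.evm st p 0 = -90 := rfl
theorem evm_1 (p : ℕ) : τ.evm st p 1 = -54 := rfl
theorem evm_2 (p : ℕ) : τ.evm st p 2 = -18 := rfl
theorem evm_r0 (p : ℕ) : τ.evm st p (τ.Xr + 3) = 24 * τ.Xr + 18 := by
  unfold evm
  rw [if_neg (by omega), if_neg (by omega), if_neg (by omega), if_neg (by omega), if_pos rfl]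
theorem evm_r1 (p : ℕ) : τ.evm st p (τ.Xr + 4) = 24 * τ.Xr + 54 := by
  unfold evm
  rw [if_neg (by omega), if_neg (by omega), if_neg (by omega), if_neg (by omega),
    if_neg (by omega), if_pos rfl]
theorem evm_r2 (p : ℕ) : τ.evm st p (τ.Xr + 5) = 24 * τ.Xr + 90 := by
  unfold evm
  rw [if_neg (by omega), if_neg (by omega), if_neg (by omega), if_neg (by omega),
    if_neg (by omega), if_neg (by omega)]
theorem dlm_l (p : ℕ) {j : ℕ} (hj : j < 3) : τ.dlm st p j = 0 := by
  unfold dlm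
  rw [if_neg (by omega)]
theorem dlm_r (p : ℕ) {j : ℕ} (hj : τ.Xr + 3 ≤ j) : τ.dlm st p j = 0 := by
  unfold dlm
  rw [if_neg (by omega)]
theorem odm_0 (p : ℕ) : τ.odm st p 0 = -72 := rfl
theorem odm_1 (p : ℕ) : τ.odm st p 1 = -36 := rfl
theorem odm_r0 (p : ℕ) : τ.odm st p (τ.Xr + 3) = 24 * τ.Xr + 36 := by
  unfold odm
  rw [if_neg (by omega), if_neg (by omega), if_neg (by omega), if_pos rfl]
theorem odm_r1 (p : ℕ) : τ.odm st p (τ.Xr + 4) = 24 * τ.Xr + 72 := by
  unfold odm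
  rw [if_neg (by omega), if_neg (by omega), if_neg (by omega), if_neg (by omega)]

/-- Cases for indices of the even layers. -/
theorem ev_idx {j : ℕ} (h : j < τ.Xr + 6) :
    j = 0 ∨ j = 1 ∨ j = 2 ∨ (∃ h < τ.Xr, j = h + 3) ∨ j = τ.Xr + 3 ∨ j = τ.Xr + 4 ∨
      j = τ.Xr + 5 := by
  rcases Nat.lt_or_ge j 3 with h1 | h1
  · omega
  · rcases Nat.lt_or_ge j (τ.Xr + 3) with h2 | h2
    · exact Or.inr (Or.inr (Or.inr (Or.inl ⟨j - 3, by omega, by omega⟩)))
    · omega

/-- Cases for indices of the odd layers. -/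
theorem od_idx {j : ℕ} (h : j < τ.Xr + 5) :
    j = 0 ∨ j = 1 ∨ (∃ k < τ.Xr + 1, j = k + 2) ∨ j = τ.Xr + 3 ∨ j = τ.Xr + 4 := by
  rcases Nat.lt_or_ge j 2 with h1 | h1
  · omega
  · rcases Nat.lt_or_ge j (τ.Xr + 3) with h2 | h2
    · exact Or.inr (Or.inr (Or.inl ⟨j - 2, by omega, by omega⟩))
    · omega

/-- Deep positions. -/
theorem deep_idx {p j : ℕ} (hd : τ.dlm st p j = 864) :
    ∃ h < τ.Xr, j = h + 3 ∧ st p h = .D ∧ τ.evm st p j = 24 * h + 12 + τ.shift p h := by
  by_cases hj : 3 ≤ j ∧ j < τ.Xr + 3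
  · obtain ⟨h, rfl⟩ : ∃ h, j = h + 3 := ⟨j - 3, by omega⟩
    have hh : h < τ.Xr := by omega
    rw [dlm_mid p hh] at hd
    have hD : st p h = .D := by
      rcases h1 : st p h with _ | _ | _ | _ <;> rw [h1] at hd <;> simp [St.dl] at hd ⊢
    exact ⟨h, hh, rfl, hD, by rw [evm_mid p hh, ev_D hD]⟩
  · unfold dlm at hd
    rw [if_neg hj] at hd
    omega

theorem mem_CE (hg : τ.Good) (hs : τ.OkSt st) {p : ℕ} (hp : p ≤ τ.P) (x : ℤ) :
    x ∈ τ.CE p ↔ ∃ j < τ.Xr + 6, τ.dlm st p j = 0 ∧ τ.evm st p j = x := by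
  have hXr := hg.Xr_ge
  simp only [CE, Finset.mem_union, Finset.mem_insert, Finset.mem_singleton, Finset.mem_image,
    Finset.mem_filter, Finset.mem_range]
  constructor
  · rintro ((rfl | rfl | rfl | rfl | rfl | rfl) | ⟨h, ⟨h1, h2⟩, rfl⟩ | ⟨k, ⟨h1, h2⟩, rfl⟩)
    · exact ⟨0, by omega, dlm_l p (by omega), evm_0 p⟩
    · exact ⟨1, by omega, dlm_l p (by omega), evm_1 p⟩
    · exact ⟨2, by omega, dlm_l p (by omega), evm_2 p⟩
    · exact ⟨τ.Xr + 3, by omega, dlm_r p (by omega), evm_r0 p⟩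
    · exact ⟨τ.Xr + 4, by omega, dlm_r p (by omega), evm_r1 p⟩
    · exact ⟨τ.Xr + 5, by omega, dlm_r p (by omega), evm_r2 p⟩
    · have hS := (hs.1 p h).mpr h2
      refine ⟨h + 3, by omega, ?_, ?_⟩
      · rw [dlm_mid p h1, hS]; rfl
      · rw [evm_mid p h1, ev_S hS]
    · rcases k with _ | h
      · exact absurd h2 (not_intr_zero hg hs p)
      · have hi' := (intr_succ hs p h).mp h2
        rcases pairs hs p h with ⟨h3, -⟩ | ⟨h3, -⟩ | ⟨h3, h4⟩ | ⟨h3, h4⟩
        · exact absurd h3 hi'.1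
        · refine ⟨h + 3, by omega, ?_, ?_⟩
          · rw [dlm_mid p (by omega), h3]; rfl
          · rw [evm_mid p (by omega), ev_B h3]; push_cast; ring
        · have h4' : st p (h + 1) = .A := by
            rcases h4 with h4 | h4
            · exact h4
            · exact absurd h4 hi'.2
          refine ⟨h + 1 + 3, by omega, ?_, ?_⟩
          · rw [dlm_mid p (by omega), h4']; rfl
          · rw [evm_mid p (by omega), ev_A h4']
        · have h4' : st p (h + 1) = .A := by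
            rcases h4 with h4 | h4
            · exact h4
            · exact absurd h4 hi'.2
          refine ⟨h + 1 + 3, by omega, ?_, ?_⟩
          · rw [dlm_mid p (by omega), h4']; rfl
          · rw [evm_mid p (by omega), ev_A h4']
  · rintro ⟨j, hj, hd, rfl⟩
    rcases ev_idx hj with rfl | rfl | rfl | ⟨h, hh, rfl⟩ | rfl | rfl | rfl
    · left; rw [evm_0]; tauto
    · left; rw [evm_1]; tauto
    · left; rw [evm_2]; tauto
    · right
      rw [dlm_mid p hh] at hd
      rw [evm_mid p hh]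
      rcases h1 : st p h with _ | _ | _ | _
      · left
        exact ⟨h, ⟨hh, (hs.1 p h).mp h1⟩, (ev_S h1).symm⟩
      · right
        have h2 : st p (h + 1) ≠ .S := by
          rcases pairs hs p h with ⟨h3, -⟩ | ⟨h3, h4⟩ | ⟨h3, h4⟩ | ⟨h3, h4⟩
          · rw [h1] at h3; exact absurd h3 (by decide)
          · rcases h4 with h4 | h4 <;> rw [h4] <;> decide
          · rw [h1] at h3; exact absurd h3 (by decide)
          · rw [h1] at h3; exact absurd h3 (by decide)
        have h3 := ne_S_bd hg hs h2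
        refine ⟨h + 1, ⟨by omega, (intr_succ hs p h).mpr ⟨by rw [h1]; decide, h2⟩⟩, ?_⟩
        rw [ev_B h1]; push_cast; ring
      · rw [h1] at hd
        simp [St.dl] at hd
      · right
        have h0 := ne_S_bd hg hs (p := p) (h := h) (by rw [h1]; decide)
        obtain ⟨g, rfl⟩ : ∃ g, h = g + 1 := ⟨h - 1, by omega⟩
        have h2 : st p g ≠ .S := by
          rcases pairs hs p g with ⟨h3, h4⟩ | ⟨h3, h4⟩ | ⟨h3, h4⟩ | ⟨h3, h4⟩
          · rw [h1] at h4; rcases h4 with h4 | h4 | h4 <;> exact absurd h4 (by decide)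
          · rw [h3]; decide
          · rw [h3]; decide
          · rw [h3]; decide
        refine ⟨g + 1, ⟨hh, (intr_succ hs p g).mpr ⟨h2, by rw [h1]; decide⟩⟩, ?_⟩
        rw [ev_A h1]
    · left; rw [evm_r0]; tauto
    · left; rw [evm_r1]; tauto
    · left; rw [evm_r2]; tauto

theorem mem_CO (hg : τ.Good) (hs : τ.OkSt st) {p : ℕ} (hp : p < τ.P) (x : ℤ) :
    x ∈ τ.CO p ↔ (∃ j < τ.Xr + 5, τ.odm st p j = x) ∨
      ∃ j < τ.Xr + 6, τ.dlm st p j = 864 ∧ τ.evm st p j = x := by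
  have hXr := hg.Xr_ge
  simp only [CO, Finset.mem_union, Finset.mem_insert, Finset.mem_singleton, Finset.mem_image,
    Finset.mem_filter, Finset.mem_range]
  constructor
  · rintro ((rfl | rfl | rfl | rfl) | ⟨k, ⟨h1, h2⟩, rfl⟩ | ⟨h, ⟨h1, h2⟩, rfl⟩)
    · exact Or.inl ⟨0, by omega, odm_0 p⟩
    · exact Or.inl ⟨1, by omega, odm_1 p⟩
    · exact Or.inl ⟨τ.Xr + 3, by omega, odm_r0 p⟩
    · exact Or.inl ⟨τ.Xr + 4, by omega, odm_r1 p⟩
    · left
      refine ⟨k + 2, by omega, ?_⟩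
      rw [odm_mid p h1]
      rcases od_cases hg hs p k with ⟨-, h3⟩ | ⟨h, -, h3, -⟩ | ⟨h, -, h3, -⟩
      · exact h3
      · exact absurd h3 h2
      · exact absurd h3 h2
    · have hne := (inL_iff hs p h).mp h2
      have h0 := ne_S_bd hg hs hne
      rcases h3 : st p h with _ | _ | _ | _
      · exact absurd h3 hne
      · left
        have h4 : st p (h + 1) ≠ .S := by
          rcases pairs hs p h with ⟨h5, -⟩ | ⟨h5, h6⟩ | ⟨h5, h6⟩ | ⟨h5, h6⟩
          · rw [h3] at h5; exact absurd h5 (by decide)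
          · rcases h6 with h6 | h6 <;> rw [h6] <;> decide
          · rw [h3] at h5; exact absurd h5 (by decide)
          · rw [h3] at h5; exact absurd h5 (by decide)
        have hi : τ.intr p (h + 1) := (intr_succ hs p h).mpr ⟨hne, h4⟩
        refine ⟨h + 1 + 2, by omega, ?_⟩
        rw [odm_mid p (by omega)]
        rcases od_cases hg hs p (h + 1) with ⟨h5, -⟩ | ⟨g, h5, -, -, -, h6⟩ | ⟨g, h5, -, h6, -, -⟩
        · exact absurd hi h5
        · have : g = h := by omega
          rw [h6, this]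
        · have : g = h := by omega
          rw [this, h3] at h6
          rcases h6 with h6 | h6 <;> exact absurd h6 (by decide)
      · right
        refine ⟨h + 3, by omega, ?_, ?_⟩
        · rw [dlm_mid p h1, h3]; rfl
        · rw [evm_mid p h1, ev_D h3]
      · left
        obtain ⟨g, rfl⟩ : ∃ g, h = g + 1 := ⟨h - 1, by omega⟩
        have h4 : st p g = .D ∨ st p g = .A := by
          rcases pairs hs p g with ⟨h5, h6⟩ | ⟨h5, h6⟩ | ⟨h5, h6⟩ | ⟨h5, h6⟩
          · rw [h3] at h6; rcases h6 with h6 | h6 | h6 <;> exact absurd h6 (by decide)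
          · rw [h3] at h6; rcases h6 with h6 | h6 <;> exact absurd h6 (by decide)
          · exact Or.inl h5
          · exact Or.inr h5
        have hi : τ.intr p (g + 1) := (intr_succ hs p g).mpr
          ⟨by rcases h4 with h4 | h4 <;> rw [h4] <;> decide, hne⟩
        refine ⟨g + 1 + 2, by omega, ?_⟩
        rw [odm_mid p (by omega)]
        rcases od_cases hg hs p (g + 1) with ⟨h5, -⟩ | ⟨g', h5, -, h6, -⟩ | ⟨g', h5, -, -, -, h6⟩
        · exact absurd hi h5
        · have : g' = g := by omega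
          rw [this] at h6
          rw [h6] at h4
          rcases h4 with h4 | h4 <;> exact absurd h4 (by decide)
        · rw [h6]
  · rintro (⟨j, hj, rfl⟩ | ⟨j, hj, hd, rfl⟩)
    · rcases od_idx hj with rfl | rfl | ⟨k, hk, rfl⟩ | rfl | rfl
      · left; rw [odm_0]; tauto
      · left; rw [odm_1]; tauto
      · right
        rw [odm_mid p hk]
        rcases od_cases hg hs p k with ⟨h1, h2⟩ | ⟨h, h1, h2, h3, -, h4⟩ | ⟨h, h1, h2, h3, h5, h4⟩
        · exact Or.inl ⟨k, ⟨hk, h1⟩, h2.symm⟩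
        · right
          refine ⟨h, ⟨by omega, (inL_iff hs p h).mpr (by rw [h3]; decide)⟩, h4.symm⟩
        · right
          have h6 : st p k ≠ .S := by rw [h1, h5]; decide
          have h7 := ne_S_bd hg hs h6
          exact ⟨k, ⟨by omega, (inL_iff hs p k).mpr h6⟩, h4.symm⟩
      · left; rw [odm_r0]; tauto
      · left; rw [odm_r1]; tauto
    · right; right
      obtain ⟨h, hh, -, hD, he⟩ := deep_idx hd
      exact ⟨h, ⟨hh, (inL_iff hs p h).mpr (by rw [hD]; decide)⟩, he.symm⟩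

theorem odm_ne_deep (hg : τ.Good) (hs : τ.OkSt st) {p j j' : ℕ} (hp : p < τ.P)
    (h : j < τ.Xr + 5) (h' : j' < τ.Xr + 6) (hd : τ.dlm st p j' = 864) :
    τ.odm st p j ≠ τ.evm st p j' := by
  obtain ⟨g, hg', -, hD, he⟩ := deep_idx hd
  rw [he]
  have hb := shift_bd hg p g
  have hbd := ne_S_bd hg hs (p := p) (h := g) (by rw [hD]; decide)
  rcases od_idx h with rfl | rfl | ⟨k, hk, rfl⟩ | rfl | rfl
  · rw [odm_0]; omega
  · rw [odm_1]; omega
  · rw [odm_mid p hk]
    have hbk := shift_bd hg p k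
    rcases od_cases hg hs p k with ⟨h1, h2⟩ | ⟨f, h1, h2, h3, -, h4⟩ | ⟨f, h1, h2, h3, h5, h4⟩
    · rw [h2]; omega
    · have hbf := shift_bd hg p f
      rw [h4]
      intro hcon
      have : f = g := by omega
      rw [this, hD] at h3
      exact absurd h3 (by decide)
    · rw [h4]
      intro hcon
      have : k = g := by omega
      rw [← h1, this, hD] at h5
      exact absurd h5 (by decide)
  · rw [odm_r0]; omega
  · rw [odm_r1]; omega

theorem dlm_cases (p j : ℕ) : τ.dlm st p j = 0 ∨ τ.dlm st p j = 864 := by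
  unfold dlm
  split_ifs
  · rcases st p (j - 3) with _ | _ | _ | _
    · exact Or.inl rfl
    · exact Or.inl rfl
    · exact Or.inr rfl
    · exact Or.inl rfl
  · exact Or.inl rfl

theorem dlm_top (hg : τ.Good) (hs : τ.OkSt st) (j : ℕ) : τ.dlm st τ.P j = 0 := by
  unfold dlm
  rw [st_row hg hs _ le_rfl]
  split_ifs <;> rfl

theorem ev_mono (hg : τ.Good) (hs : τ.OkSt st) (p h : ℕ) :
    τ.ev st p h + 6 ≤ τ.ev st p (h + 1) := by
  have b1 := shift_bd hg p h
  have b2 := shift_bd hg p (h + 1)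
  rcases pairs hs p h with ⟨h1, h2 | h2 | h2⟩ | ⟨h1, h2 | h2⟩ | ⟨h1, h2 | h2⟩ | ⟨h1, h2 | h2⟩
  · rw [ev_S h1, ev_S h2]; push_cast; omega
  · rw [ev_S h1, ev_B h2]; push_cast; omega
  · rw [ev_S h1, ev_D h2]; push_cast; omega
  · rw [ev_B h1, ev_B h2]; push_cast; omega
  · rw [ev_B h1, ev_D h2]; push_cast; omega
  · rw [ev_D h1, ev_A h2]; push_cast; omega
  · rw [ev_D h1, ev_S h2]; push_cast; omega
  · rw [ev_A h1, ev_A h2]; push_cast; omega
  · rw [ev_A h1, ev_S h2]; push_cast; omega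

theorem od_mono (hg : τ.Good) (hs : τ.OkSt st) (p k : ℕ) :
    τ.od st p k + 6 ≤ τ.od st p (k + 1) := by
  have b1 := shift_bd hg p k
  have b2 := shift_bd hg p (k + 1)
  rcases od_cases hg hs p (k + 1) with ⟨g1, g2⟩ | ⟨f', g1, g2, g3, g6, g4⟩ | ⟨f', g1, g2, g3, g5, g4⟩ <;>
  rcases od_cases hg hs p k with ⟨h1, h2⟩ | ⟨f, h1, h2, h3, h6, h4⟩ | ⟨f, h1, h2, h3, h5, h4⟩
  · rw [g2, h2]; push_cast; omega
  · have b3 := shift_bd hg p f
    rw [g2, h4]; push_cast; omega
  · rw [g2, h4]; push_cast; omega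
  · have : f' = k := by omega
    subst this
    rw [g4, h2]; omega
  · have : f' = k := by omega
    subst this
    have b3 := shift_bd hg p f
    rw [g4, h4]; omega
  · have : f' = k := by omega
    subst this
    rw [← h1, g3] at h5
    exact absurd h5 (by decide)
  · have : f' = k := by omega
    subst this
    rw [g4, h2]; push_cast; omega
  · have : f' = k := by omega
    subst this
    have b3 := shift_bd hg p f
    rw [g4, h4]; push_cast; omega
  · rw [g4, h4]; push_cast; omega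

theorem evm_mono (hg : τ.Good) (hs : τ.OkSt st) {p j : ℕ} (hp : p ≤ τ.P) (h : j < τ.Xr + 5) :
    τ.evm st p j + 6 ≤ τ.evm st p (j + 1) := by
  have hXr := hg.Xr_ge
  rcases ev_idx (τ := τ) (j := j) (by omega) with rfl | rfl | rfl | ⟨h', hh, rfl⟩ | rfl | rfl | rfl
  · rw [evm_0, zero_add, evm_1]; omega
  · rw [evm_1, show 1 + 1 = 2 from rfl, evm_2]; omega
  · rw [evm_2, show 2 + 1 = 0 + 3 from rfl, evm_mid p (by omega),
      ev_S (st_left hg hs p (by norm_num))]
    omega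
  · rcases Nat.lt_or_ge (h' + 1) τ.Xr with h1 | h1
    · rw [evm_mid p hh, show h' + 3 + 1 = (h' + 1) + 3 from by omega, evm_mid p h1]
      exact ev_mono hg hs p h'
    · have h2 : τ.Xr = h' + 1 := by omega
      rw [evm_mid p hh, show h' + 3 + 1 = τ.Xr + 3 from by omega, evm_r0,
        ev_S (st_right hg hs p (by omega))]
      omega
  · rw [evm_r0, show τ.Xr + 3 + 1 = τ.Xr + 4 from rfl, evm_r1]; omega
  · rw [evm_r1, show τ.Xr + 4 + 1 = τ.Xr + 5 from rfl, evm_r2]; omega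
  · omega

theorem odm_mono (hg : τ.Good) (hs : τ.OkSt st) {p j : ℕ} (hp : p < τ.P) (h : j < τ.Xr + 4) :
    τ.odm st p j + 6 ≤ τ.odm st p (j + 1) := by
  have hXr := hg.Xr_ge
  rcases od_idx (τ := τ) (j := j) (by omega) with rfl | rfl | ⟨k, hk, rfl⟩ | rfl | rfl
  · rw [odm_0, zero_add, odm_1]; omega
  · rw [odm_1, show 1 + 1 = 0 + 2 from rfl, odm_mid p (by omega)]
    rcases od_cases hg hs p 0 with ⟨-, h2⟩ | ⟨h, h1, -⟩ | ⟨h, h1, -⟩
    · rw [h2]; omega
    · omega
    · omega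
  · rcases Nat.lt_or_ge k τ.Xr with h1 | h1
    · rw [odm_mid p hk, show k + 2 + 1 = (k + 1) + 2 from by omega, odm_mid p (by omega)]
      exact od_mono hg hs p k
    · have h2 : k = τ.Xr := by omega
      subst h2
      rw [odm_mid p hk, show τ.Xr + 2 + 1 = τ.Xr + 3 from rfl, odm_r0]
      have hS := st_right hg hs p (h := τ.Xr) (by omega)
      rcases od_cases hg hs p τ.Xr with ⟨-, h2⟩ | ⟨h, h1, -, h3, h4, -⟩ | ⟨h, h1, -, h3, h4, -⟩
      · rw [h2]; omega
      · rw [← h1, hS] at h4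
        rcases h4 with h4 | h4 <;> exact absurd h4 (by decide)
      · rw [← h1, hS] at h4
        exact absurd h4 (by decide)
  · rw [odm_r0, show τ.Xr + 3 + 1 = τ.Xr + 4 from rfl, odm_r1]; omega
  · omega

theorem evm_bounds (hg : τ.Good) (hs : τ.OkSt st) {p j : ℕ} (hp : p ≤ τ.P) (h : j < τ.Xr + 6) :
    -90 ≤ τ.evm st p j ∧ τ.evm st p j ≤ 24 * τ.Xr + 90 := by
  rcases ev_idx h with rfl | rfl | rfl | ⟨h', hh, rfl⟩ | rfl | rfl | rfl
  · rw [evm_0]; omega
  · rw [evm_1]; omega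
  · rw [evm_2]; omega
  · rw [evm_mid p hh]
    have b := shift_bd hg p h'
    rcases h1 : st p h' with _ | _ | _ | _
    · rw [ev_S h1]; omega
    · rw [ev_B h1]; omega
    · rw [ev_D h1]; omega
    · rw [ev_A h1]; omega
  · rw [evm_r0]; omega
  · rw [evm_r1]; omega
  · rw [evm_r2]; omega

theorem odm_bounds (hg : τ.Good) (hs : τ.OkSt st) {p j : ℕ} (hp : p < τ.P) (h : j < τ.Xr + 5) :
    -72 ≤ τ.odm st p j ∧ τ.odm st p j ≤ 24 * τ.Xr + 72 := by
  rcases od_idx h with rfl | rfl | ⟨k, hk, rfl⟩ | rfl | rfl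
  · rw [odm_0]; omega
  · rw [odm_1]; omega
  · rw [odm_mid p hk]
    have b := shift_bd hg p k
    rcases od_cases hg hs p k with ⟨-, h2⟩ | ⟨g, h1, -, -, -, h2⟩ | ⟨g, h1, -, -, -, h2⟩
    · rw [h2]; omega
    · have b' := shift_bd hg p g
      rw [h2]; omega
    · rw [h2]; omega
  · rw [odm_r0]; omega
  · rw [odm_r1]; omega

end Tab

end Pool.Agent.Helper70.MD
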