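import Pool.Agent.Helper70.MD.G3a
import Pool.Agent.Helper70.MD.E3

/-!
MD-G3b: the layer vertices are the points of the set, without repetition.

`xv_mono`: inside the clusters the step is 1; inside the middle `evm_mono`, `odm_mono` times `nu`; the
steps between the parts from the bounds (left cluster `≤ -107 nu`, middle in
`[-90 nu, (24 Xr + 90) nu]`, right cluster `≥ (24 Xr + 107) nu`).
`vp_eq`: definition (`k % (6 i + 3) ≠ 0`).
`vert_mem`: for `i ≥ 1` the vertex `vp st i k` is `top i ∈ C i`, or a cluster point of `C i`, or a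
middle point, which is in `C i` if it is shallow or in an odd ring (`mem_CE`, `mem_CO`) and in
`C (i+1)` if it is deep (`i = i0 + 2 p`, `Lam i + 864 nu^2 = Lam (i+1)`, `mem_CO`; then `p < P` by
`dlm_top`, so `i + 1 ≤ M`).
`mem_S`: `→`: a point of `C i`: ring 0: `vert 0 0, vert 0 1, vert 0 2`. `top i = vert i 0`. Left cluster
`k < K i`: `vert i (k+1)`; right cluster `t < Rn i`: `vert i (6 i + 2 - t)` (`K_md_le`). Middle of an even
ring, `x ∈ CE p`: `mem_CE` gives `j` with `dlm = 0`, vertex `K i + 1 + j`. Middle of an odd ring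
`i = i0 + 2 p + 1`: `mem_CO`: either `odm`, vertex `K i + 1 + j` of layer `i`, or deep: vertex
`K (i-1) + 1 + j` of layer `i-1`. `←`: `vert_mem`.
`vert_inj`: `←` periodicity. `→`: reduce to `0 ≤ k < 6 i + 3`, `0 ≤ k' < 6 j + 3`. Corners, tops and
parabola points are different from each other (`rings`: `disj`, or coordinates: the second
coordinate of `top i` is larger than that of parabola points). Two parabola points
`par (xv i k) (lv i k) = par (xv j k') (lv j k')`: the abscissas and the levels agree (`par_inj`). The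
levels are `Lam i`, or `Lam (i+1)` for deep points of even layers `i = i0 + 2p`, `p < P`. If both are not
deep: `i = j` and `xv_mono` gives `k = k'`. If both are deep the same. If the first is deep and the second is
not: `j = i + 1`, odd layer, both abscissas in the middle: `nu evm = nu odm` contradicts
`odm_ne_deep`; a cluster abscissa is not in the middle range.
-/

set_option autoImplicit false

namespace Pool.Agent.Helper70.MD

open Finset

open scoped Classical

namespace Tab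

variable {τ : Tab} {st : ℕ → ℕ → St}

private theorem g3_left {i k : ℕ} (hk : k ≤ τ.K i) :
    τ.xv st i k = -108 * τ.nu + i + ((k : ℤ) - 1) := by
  unfold xv
  rw [if_pos hk]

private theorem g3_left_lv {i k : ℕ} (hk : k ≤ τ.K i) : τ.lv st i k = τ.Lam i := by
  unfold lv
  rw [if_neg (by omega)]

private theorem g3_even (p j : ℕ) (hj : j < τ.Xr + 6) :
    τ.xv st (τ.i0 + 2 * p) (τ.K (τ.i0 + 2 * p) + 1 + j) = τ.nu * τ.evm st p j := by
  have e1 : (τ.i0 + 2 * p - τ.i0) / 2 = p := by omega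
  have e2 : τ.K (τ.i0 + 2 * p) + 1 + j - τ.K (τ.i0 + 2 * p) - 1 = j := by omega
  unfold xv
  rw [if_neg (by omega), if_pos (by rw [md_even]; omega), if_pos (by omega), e1, e2]

private theorem g3_even_lv (p j : ℕ) (hj : j < τ.Xr + 6) :
    τ.lv st (τ.i0 + 2 * p) (τ.K (τ.i0 + 2 * p) + 1 + j) =
      τ.Lam (τ.i0 + 2 * p) + τ.nu ^ 2 * τ.dlm st p j := by
  have e1 : (τ.i0 + 2 * p - τ.i0) / 2 = p := by omega
  have e2 : τ.K (τ.i0 + 2 * p) + 1 + j - τ.K (τ.i0 + 2 * p) - 1 = j := by omega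
  have e3 := md_even (τ := τ) p
  unfold lv
  rw [if_pos (by omega), e1, e2]

private theorem g3_odd (p j : ℕ) (hj : j < τ.Xr + 5) :
    τ.xv st (τ.i0 + 2 * p + 1) (τ.K (τ.i0 + 2 * p + 1) + 1 + j) = τ.nu * τ.odm st p j := by
  have e1 : (τ.i0 + 2 * p + 1 - τ.i0) / 2 = p := by omega
  have e2 : τ.K (τ.i0 + 2 * p + 1) + 1 + j - τ.K (τ.i0 + 2 * p + 1) - 1 = j := by omega
  unfold xv
  rw [if_neg (by omega), if_pos (by rw [md_odd]; omega), if_neg (by omega), e1, e2]

private theorem g3_odd_lv (p k : ℕ) :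
    τ.lv st (τ.i0 + 2 * p + 1) k = τ.Lam (τ.i0 + 2 * p + 1) := by
  unfold lv
  rw [if_neg (by omega)]

private theorem g3_right {i k : ℕ} (hk : τ.K i + τ.md i < k) :
    τ.xv st i k = τ.Rc * τ.nu - i - (6 * (i : ℤ) + 2 - k) := by
  unfold xv
  rw [if_neg (by omega), if_neg (by omega)]

private theorem g3_right_lv {i k : ℕ} (hk : τ.K i + τ.md i < k) : τ.lv st i k = τ.Lam i := by
  unfold lv
  rw [if_neg (by omega)]

/-- the four kinds of parabola vertices -/
private theorem g3_cases (i k : ℕ) (h1 : 1 ≤ i) (hi : i ≤ τ.M) (hk : 1 ≤ k)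
    (hk' : k ≤ 6 * i + 2) :
    (k ≤ τ.K i) ∨
    (∃ p j, p ≤ τ.P ∧ i = τ.i0 + 2 * p ∧ j < τ.Xr + 6 ∧ k = τ.K i + 1 + j) ∨
    (∃ p j, p < τ.P ∧ i = τ.i0 + 2 * p + 1 ∧ j < τ.Xr + 5 ∧ k = τ.K i + 1 + j) ∨
    (∃ t, t < τ.Rn i ∧ k + t = 6 * i + 2 ∧ τ.K i + τ.md i < k) := by
  have hM : τ.M = τ.i0 + 2 * τ.P := rfl
  rcases Nat.lt_or_ge (τ.K i) k with h2 | h2
  · rcases Nat.lt_or_ge (τ.K i + τ.md i) k with h3 | h3
    · right; right; right
      have h4 := K_md_le (τ := τ) h1
      exact ⟨6 * i + 2 - k, by omega, by omega, h3⟩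
    · have hi0 : τ.i0 ≤ i := by
        by_contra hcon
        have : τ.md i = 0 := by
          unfold md
          rw [if_pos (by omega)]
        omega
      rcases Nat.even_or_odd' (i - τ.i0) with ⟨p, hp | hp⟩
      · right; left
        have e : i = τ.i0 + 2 * p := by omega
        have h5 : τ.md i = τ.Xr + 6 := by
          rw [e]
          exact md_even p
        exact ⟨p, k - τ.K i - 1, by omega, e, by omega, by omega⟩
      · right; right; left
        have e : i = τ.i0 + 2 * p + 1 := by omega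
        have h5 : τ.md i = τ.Xr + 5 := by
          rw [e]
          exact md_odd p
        exact ⟨p, k - τ.K i - 1, by omega, e, by omega, by omega⟩
  · left
    exact h2

private theorem g3_Rc : τ.Rc * τ.nu = τ.nu * (24 * (τ.Xr : ℤ)) + 108 * τ.nu := by
  unfold Rc
  ring

private theorem g3_Xrnu : 0 ≤ τ.nu * (24 * (τ.Xr : ℤ)) := by
  have := nu_pos (τ := τ)
  positivity

/-- bounds in the left cluster -/
private theorem g3_left_b {i k : ℕ} (hi : i ≤ τ.M) (h1 : 1 ≤ k) (hk : k ≤ τ.K i) :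
    -108 * τ.nu ≤ τ.xv st i k ∧ 10 * τ.xv st i k ≤ -1079 * τ.nu := by
  have h2 := left_bounds (τ := τ) (i := i) (k := k - 1) hi (by omega)
  rw [g3_left hk]
  have h3 : ((k - 1 : ℕ) : ℤ) = (k : ℤ) - 1 := by omega
  rw [h3] at h2
  constructor
  · exact h2.1
  · linarith [h2.2]

private theorem g3_even_b (hg : τ.Good) (hs : τ.OkSt st) {p j : ℕ} (hp : p ≤ τ.P)
    (hj : j < τ.Xr + 6) : -90 * τ.nu ≤ τ.nu * τ.evm st p j ∧
      τ.nu * τ.evm st p j ≤ τ.Rc * τ.nu - 18 * τ.nu := by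
  have h1 := evm_bounds hg hs hp hj
  have h2 := nu_pos (τ := τ)
  have h3 := mul_le_mul_of_nonneg_left h1.1 (by linarith : 0 ≤ τ.nu)
  have h4 := mul_le_mul_of_nonneg_left h1.2 (by linarith : 0 ≤ τ.nu)
  rw [g3_Rc]
  constructor
  · linarith
  · linarith

private theorem g3_odd_b (hg : τ.Good) (hs : τ.OkSt st) {p j : ℕ} (hp : p < τ.P)
    (hj : j < τ.Xr + 5) : -90 * τ.nu ≤ τ.nu * τ.odm st p j ∧
      τ.nu * τ.odm st p j ≤ τ.Rc * τ.nu - 18 * τ.nu := by
  have h1 := odm_bounds hg hs hp hj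
  have h2 := nu_pos (τ := τ)
  have h3 := mul_le_mul_of_nonneg_left h1.1 (by linarith : 0 ≤ τ.nu)
  have h4 := mul_le_mul_of_nonneg_left h1.2 (by linarith : 0 ≤ τ.nu)
  rw [g3_Rc]
  constructor
  · linarith
  · linarith

private theorem g3_right_b {i k : ℕ} (h1 : 1 ≤ i) (hi : i ≤ τ.M) (hk : τ.K i + τ.md i < k)
    (hk' : k ≤ 6 * i + 2) : τ.xv st i k ≤ τ.Rc * τ.nu ∧
      10 * (τ.Rc * τ.nu) - τ.nu ≤ 10 * τ.xv st i k := by
  have h4 := K_md_le (τ := τ) h1
  have h2 := right_bounds (τ := τ) (i := i) (t := 6 * i + 2 - k) h1 hi (by omega)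
  have h3 : ((6 * i + 2 - k : ℕ) : ℤ) = 6 * (i : ℤ) + 2 - k := by omega
  rw [h3] at h2
  rw [g3_right hk]
  constructor
  · exact h2.1
  · linarith [h2.2]

theorem xv_mono (hg : τ.Good) (hs : τ.OkSt st) {i k : ℕ} (h1 : 1 ≤ i) (hi : i ≤ τ.M) (hk : 1 ≤ k)
    (hk' : k < 6 * i + 2) : τ.xv st i k < τ.xv st i (k + 1) := by
  have hnu := nu_pos (τ := τ)
  have hXr := g3_Xrnu (τ := τ)
  have hRc := g3_Rc (τ := τ)
  rcases g3_cases (τ := τ) i (k + 1) h1 hi (by omega) (by omega) with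
    h2 | ⟨p, j, hp, he, hj, h2⟩ | ⟨p, j, hp, he, hj, h2⟩ | ⟨t, ht, ht2, h2⟩
  · rw [g3_left h2, g3_left (by omega)]
    push_cast
    linarith
  · rcases Nat.eq_zero_or_pos j with hj0 | hj0
    · have h3 := (g3_left_b (st := st) hi hk (by omega)).2
      rw [h2, he, g3_even p j hj, ← he]
      have h4 := (g3_even_b hg hs hp hj).1
      linarith
    · obtain ⟨l, rfl⟩ : ∃ l, j = l + 1 := ⟨j - 1, by omega⟩
      have hk2 : k = τ.K i + 1 + l := by omega
      rw [h2, hk2, he, g3_even p (l + 1) hj, g3_even p l (by omega)]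
      have h4 := evm_mono hg hs hp (j := l) (by omega)
      exact mul_lt_mul_of_pos_left (by linarith) (by linarith)
  · rcases Nat.eq_zero_or_pos j with hj0 | hj0
    · have h3 := (g3_left_b (st := st) hi hk (by omega)).2
      rw [h2, he, g3_odd p j hj, ← he]
      have h4 := (g3_odd_b hg hs hp hj).1
      linarith
    · obtain ⟨l, rfl⟩ : ∃ l, j = l + 1 := ⟨j - 1, by omega⟩
      have hk2 : k = τ.K i + 1 + l := by omega
      rw [h2, hk2, he, g3_odd p (l + 1) hj, g3_odd p l (by omega)]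
      have h4 := odm_mono hg hs hp (j := l) (by omega)
      exact mul_lt_mul_of_pos_left (by linarith) (by linarith)
  · have h5 := (g3_right_b (st := st) h1 hi h2 (by omega)).2
    rcases g3_cases (τ := τ) i k h1 hi hk (by omega) with
      h3 | ⟨p, j, hp, he, hj, h3⟩ | ⟨p, j, hp, he, hj, h3⟩ | ⟨t', ht', ht2', h3⟩
    · have h4 := (g3_left_b (st := st) hi hk h3).2
      linarith
    · have h4 := (g3_even_b hg hs hp hj).2
      have h6 : τ.xv st i k = τ.nu * τ.evm st p j := by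
        rw [h3, he, g3_even p j hj]
      rw [h6]
      linarith
    · have h4 := (g3_odd_b hg hs hp hj).2
      have h6 : τ.xv st i k = τ.nu * τ.odm st p j := by
        rw [h3, he, g3_odd p j hj]
      rw [h6]
      linarith
    · rw [g3_right h2, g3_right h3]
      push_cast
      linarith

theorem xv_bounds (hg : τ.Good) (hs : τ.OkSt st) {i k : ℕ} (h1 : 1 ≤ i) (hi : i ≤ τ.M)
    (hk : 1 ≤ k) (hk' : k ≤ 6 * i + 2) :
    -108 * τ.nu ≤ τ.xv st i k ∧ τ.xv st i k ≤ τ.Rc * τ.nu := by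
  have hnu := nu_pos (τ := τ)
  have hXr := g3_Xrnu (τ := τ)
  have hRc := g3_Rc (τ := τ)
  rcases g3_cases (τ := τ) i k h1 hi hk hk' with
    h3 | ⟨p, j, hp, he, hj, h3⟩ | ⟨p, j, hp, he, hj, h3⟩ | ⟨t', ht', ht2', h3⟩
  · have h4 := g3_left_b (st := st) hi hk h3
    exact ⟨h4.1, by linarith [h4.2]⟩
  · have h4 := g3_even_b hg hs hp hj
    have h6 : τ.xv st i k = τ.nu * τ.evm st p j := by
      rw [h3, he, g3_even p j hj]
    rw [h6]
    exact ⟨by linarith [h4.1], by linarith [h4.2]⟩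
  · have h4 := g3_odd_b hg hs hp hj
    have h6 : τ.xv st i k = τ.nu * τ.odm st p j := by
      rw [h3, he, g3_odd p j hj]
    rw [h6]
    exact ⟨by linarith [h4.1], by linarith [h4.2]⟩
  · have h4 := g3_right_b (st := st) h1 hi h3 hk'
    exact ⟨by linarith [h4.2], h4.1⟩

theorem vp_eq {i k : ℕ} (h1 : 1 ≤ i) (hk : 1 ≤ k) (hk' : k ≤ 6 * i + 2) :
    τ.vp st i k = par (τ.xv st i k) (τ.lv st i k) := by
  unfold vp
  rw [if_neg (by omega), if_neg]
  rw [Nat.mod_eq_of_lt (by omega)]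
  omega

private theorem g3_vp_zero {i : ℕ} (h1 : 1 ≤ i) : τ.vp st i 0 = τ.top i := by
  unfold vp
  rw [if_neg (by omega), if_pos (Nat.zero_mod _)]

private theorem g3_Lam_succ (p : ℕ) :
    τ.Lam (τ.i0 + 2 * p) + τ.nu ^ 2 * 864 = τ.Lam (τ.i0 + 2 * p + 1) := by
  rw [Lam_even, Lam_odd]
  ring

private theorem g3_mem_C {i : ℕ} (h1 : 1 ≤ i) {X : ℤ} (hX : X ∈ τ.Xs i) :
    par X (τ.Lam i) ∈ τ.C i := by
  unfold C
  rw [if_neg (by omega)]
  exact mem_insert_of_mem (mem_image_of_mem _ hX)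

private theorem g3_mem_mid {i : ℕ} {x : ℤ} (hx : x ∈ τ.Cm i) : τ.nu * x ∈ τ.Xs i := by
  unfold Xs
  exact mem_union_right _ (mem_union_left _ (mem_image_of_mem _ hx))

/-- level and membership of the parabola vertices -/
private theorem g3_vp_mem (hg : τ.Good) (hs : τ.OkSt st) {i k : ℕ} (h1 : 1 ≤ i) (hi : i ≤ τ.M)
    (hk : 1 ≤ k) (hk' : k ≤ 6 * i + 2) :
    (τ.lv st i k = τ.Lam i ∧ τ.xv st i k ∈ τ.Xs i) ∨
    (∃ p j, p < τ.P ∧ i = τ.i0 + 2 * p ∧ j < τ.Xr + 6 ∧ τ.dlm st p j = 864 ∧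
      τ.xv st i k = τ.nu * τ.evm st p j ∧ τ.lv st i k = τ.Lam (i + 1) ∧
      τ.xv st i k ∈ τ.Xs (i + 1)) := by
  rcases g3_cases (τ := τ) i k h1 hi hk hk' with
    h3 | ⟨p, j, hp, he, hj, h3⟩ | ⟨p, j, hp, he, hj, h3⟩ | ⟨t', ht', ht2', h3⟩
  · left
    refine ⟨g3_left_lv h3, ?_⟩
    rw [g3_left h3]
    unfold Xs
    apply mem_union_left
    rw [mem_image]
    refine ⟨k - 1, mem_range.2 (by omega), ?_⟩
    have h4 : ((k - 1 : ℕ) : ℤ) = (k : ℤ) - 1 := by omega
    simp only [h4]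
  · have h6 : τ.xv st i k = τ.nu * τ.evm st p j := by
      rw [h3, he, g3_even p j hj]
    have h7 : τ.lv st i k = τ.Lam (τ.i0 + 2 * p) + τ.nu ^ 2 * τ.dlm st p j := by
      rw [h3, he, g3_even_lv p j hj]
    rcases dlm_cases (τ := τ) (st := st) p j with hd | hd
    · left
      constructor
      · rw [h7, hd, he]
        ring
      · rw [h6]
        apply g3_mem_mid
        rw [he, Cm_even, mem_CE hg hs hp]
        exact ⟨j, hj, hd, rfl⟩
    · right
      have hpP : p < τ.P := by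
        rcases Nat.lt_or_ge p τ.P with h | h
        · exact h
        · exfalso
          have : p = τ.P := le_antisymm hp h
          rw [this, dlm_top hg hs j] at hd
          norm_num at hd
      refine ⟨p, j, hpP, he, hj, hd, h6, ?_, ?_⟩
      · rw [h7, hd, he, g3_Lam_succ]
      · rw [h6]
        apply g3_mem_mid
        rw [he, Cm_odd, mem_CO hg hs hpP]
        exact Or.inr ⟨j, hj, hd, rfl⟩
  · left
    have h6 : τ.xv st i k = τ.nu * τ.odm st p j := by
      rw [h3, he, g3_odd p j hj]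
    constructor
    · rw [he, g3_odd_lv]
    · rw [h6]
      apply g3_mem_mid
      rw [he, Cm_odd, mem_CO hg hs hp]
      exact Or.inl ⟨j, hj, rfl⟩
  · left
    refine ⟨g3_right_lv h3, ?_⟩
    rw [g3_right h3]
    unfold Xs
    apply mem_union_right
    apply mem_union_right
    rw [mem_image]
    refine ⟨t', mem_range.2 ht', ?_⟩
    have h4 : (t' : ℤ) = 6 * (i : ℤ) + 2 - k := by omega
    rw [h4]

private theorem g3_mod_lt (i : ℕ) (k : ℤ) : (k % (6 * (i : ℤ) + 3)).toNat < 6 * i + 3 := by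
  have h1 : (0 : ℤ) < 6 * (i : ℤ) + 3 := by positivity
  have h2 := Int.emod_nonneg k h1.ne'
  have h3 := Int.emod_lt_of_pos k h1
  omega

theorem vert_mem (hg : τ.Good) (hs : τ.OkSt st) {i : ℕ} (h1 : 1 ≤ i) (hi : i ≤ τ.M) (k : ℤ) :
    ∃ j, 1 ≤ j ∧ j ≤ τ.M ∧ τ.vert st i k ∈ τ.C j := by
  have hM : τ.M = τ.i0 + 2 * τ.P := rfl
  unfold vert
  have hr := g3_mod_lt i k
  generalize (k % (6 * (i : ℤ) + 3)).toNat = r at hr ⊢
  rcases Nat.eq_zero_or_pos r with rfl | hr0
  · refine ⟨i, h1, hi, ?_⟩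
    rw [g3_vp_zero h1]
    unfold C
    rw [if_neg (by omega)]
    exact mem_insert_self _ _
  · rw [vp_eq h1 hr0 (by omega)]
    rcases g3_vp_mem hg hs h1 hi hr0 (by omega) with ⟨h2, h3⟩ | ⟨p, j, hp, he, hj, hd, h2, h3, h4⟩
    · refine ⟨i, h1, hi, ?_⟩
      rw [h2]
      exact g3_mem_C h1 h3
    · refine ⟨i + 1, by omega, by omega, ?_⟩
      rw [h3]
      exact g3_mem_C (by omega) h4

private theorem g3_vert_nat {i r : ℕ} (hr : r < 6 * i + 3) :
    τ.vert st i (r : ℤ) = τ.vp st i r := by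
  unfold vert
  have h1 : ((r : ℤ) % (6 * (i : ℤ) + 3)).toNat = r := by
    rw [Int.emod_eq_of_lt (by omega) (by omega)]
    omega
  rw [h1]

theorem mem_S (hg : τ.Good) (hs : τ.OkSt st) (q : Pt) :
    q ∈ τ.S ↔ ∃ i ≤ τ.M, ∃ k : ℤ, q = τ.vert st i k := by
  have hM : τ.M = τ.i0 + 2 * τ.P := rfl
  have hi0 : τ.i0 = τ.Xr + 8 := rfl
  constructor
  · intro hq
    unfold S at hq
    rw [mem_biUnion] at hq
    obtain ⟨i, hi, hq⟩ := hq
    rw [mem_range] at hi
    have hi' : i ≤ τ.M := by omega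
    rcases Nat.eq_zero_or_pos i with rfl | h1
    · unfold C at hq
      rw [if_pos rfl] at hq
      simp only [mem_insert, mem_singleton] at hq
      rcases hq with rfl | rfl | rfl
      · refine ⟨0, hi', ((0 : ℕ) : ℤ), ?_⟩
        rw [g3_vert_nat (by norm_num)]
        simp [vp]
      · refine ⟨0, hi', ((1 : ℕ) : ℤ), ?_⟩
        rw [g3_vert_nat (by norm_num)]
        simp [vp]
      · refine ⟨0, hi', ((2 : ℕ) : ℤ), ?_⟩
        rw [g3_vert_nat (by norm_num)]
        simp [vp]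
    · unfold C at hq
      rw [if_neg (by omega), mem_insert, mem_image] at hq
      rcases hq with rfl | ⟨X, hX, rfl⟩
      · refine ⟨i, hi', ((0 : ℕ) : ℤ), ?_⟩
        rw [g3_vert_nat (by omega), g3_vp_zero h1]
      · have hKR := K_md_le (τ := τ) h1
        unfold Xs at hX
        rw [mem_union, mem_union, mem_image, mem_image, mem_image] at hX
        rcases hX with ⟨k, hk, rfl⟩ | ⟨x, hx, rfl⟩ | ⟨t, ht, rfl⟩
        · rw [mem_range] at hk
          refine ⟨i, hi', ((k + 1 : ℕ) : ℤ), ?_⟩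
          rw [g3_vert_nat (by omega), vp_eq h1 (by omega) (by omega), g3_left (by omega),
            g3_left_lv (by omega)]
          congr 1
          push_cast
          ring
        · unfold Cm at hx
          split_ifs at hx with h2 h3
          · exact absurd hx (notMem_empty x)
          · obtain ⟨p, hp⟩ : ∃ p, i = τ.i0 + 2 * p := ⟨(i - τ.i0) / 2, by omega⟩
            have e1 : (i - τ.i0) / 2 = p := by omega
            rw [e1, mem_CE hg hs (by omega)] at hx
            obtain ⟨j, hj, hd, rfl⟩ := hx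
            have hmd : τ.md i = τ.Xr + 6 := by
              rw [hp]
              exact md_even p
            refine ⟨i, hi', ((τ.K i + 1 + j : ℕ) : ℤ), ?_⟩
            rw [g3_vert_nat (by omega), vp_eq h1 (by omega) (by omega), hp, g3_even p j hj,
              g3_even_lv p j hj, hd, mul_zero, add_zero]
          · obtain ⟨p, hp⟩ : ∃ p, i = τ.i0 + 2 * p + 1 := ⟨(i - τ.i0) / 2, by omega⟩
            have e1 : (i - τ.i0) / 2 = p := by omega
            have hpP : p < τ.P := by omega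
            rw [e1, mem_CO hg hs hpP] at hx
            rcases hx with ⟨j, hj, rfl⟩ | ⟨j, hj, hd, rfl⟩
            · have hmd : τ.md i = τ.Xr + 5 := by
                rw [hp]
                exact md_odd p
              refine ⟨i, hi', ((τ.K i + 1 + j : ℕ) : ℤ), ?_⟩
              rw [g3_vert_nat (by omega), vp_eq h1 (by omega) (by omega), hp, g3_odd p j hj,
                g3_odd_lv]
            · have hmd := md_even (τ := τ) p
              have hKR' := K_md_le (τ := τ) (i := τ.i0 + 2 * p) (by omega)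
              refine ⟨τ.i0 + 2 * p, by omega, ((τ.K (τ.i0 + 2 * p) + 1 + j : ℕ) : ℤ), ?_⟩
              rw [g3_vert_nat (by omega), vp_eq (by omega) (by omega) (by omega),
                g3_even p j hj, g3_even_lv p j hj, hd, g3_Lam_succ, hp]
        · rw [mem_range] at ht
          refine ⟨i, hi', ((6 * i + 2 - t : ℕ) : ℤ), ?_⟩
          have h5 : ((6 * i + 2 - t : ℕ) : ℤ) = 6 * (i : ℤ) + 2 - t := by omega
          rw [g3_vert_nat (by omega), vp_eq h1 (by omega) (by omega), g3_right (by omega),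
            g3_right_lv (by omega), h5]
          congr 1
          ring
  · rintro ⟨i, hi, k, rfl⟩
    unfold S
    rw [mem_biUnion]
    rcases Nat.eq_zero_or_pos i with rfl | h1
    · refine ⟨0, mem_range.2 (by omega), ?_⟩
      unfold vert vp C
      rw [if_pos rfl, if_pos rfl]
      simp only [mem_insert, mem_singleton]
      split_ifs
      · exact Or.inl rfl
      · exact Or.inr (Or.inl rfl)
      · exact Or.inr (Or.inr rfl)
    · obtain ⟨j, _, hj2, hj3⟩ := vert_mem hg hs h1 hi k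
      exact ⟨j, mem_range.2 (by omega), hj3⟩

/-- the parabola points are low -/
private theorem g3_low (hg : τ.Good) (hs : τ.OkSt st) {i k : ℕ} (h1 : 1 ≤ i) (hi : i ≤ τ.M)
    (hk : 1 ≤ k) (hk' : k ≤ 6 * i + 2) :
    0 ≤ τ.xv st i k ^ 2 + τ.lv st i k ∧ τ.xv st i k ^ 2 + τ.lv st i k < τ.H - τ.M := by
  have hM : τ.M = τ.i0 + 2 * τ.P := rfl
  obtain ⟨k1, k2, k3⟩ := H_big (τ := τ)
  have hnu := nu_pos (τ := τ)
  have hLM := Lam_nonneg (τ := τ) τ.M
  have hmono : ∀ l, l ≤ τ.M → τ.Lam l ≤ τ.Lam τ.M := by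
    intro l hl
    rcases Nat.lt_or_ge l τ.M with h | h
    · exact (Lam_strictMono h).le
    · rw [le_antisymm hl h]
  have hlv : 0 ≤ τ.lv st i k ∧ τ.lv st i k ≤ τ.Lam τ.M := by
    rcases g3_vp_mem hg hs h1 hi hk hk' with ⟨h2, _⟩ | ⟨p, j, hp, he, hj, hd, h2, h3, h4⟩
    · rw [h2]
      exact ⟨Lam_nonneg i, hmono i hi⟩
    · rw [h3]
      exact ⟨Lam_nonneg _, hmono _ (by omega)⟩
  have hb := xv_bounds hg hs h1 hi hk hk'
  have hXm : τ.Xm = τ.Rc * τ.nu + 108 * τ.nu := by
    unfold Xm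
    ring
  have hRn : 0 ≤ τ.Rc * τ.nu := by
    rw [g3_Rc]
    have := g3_Xrnu (τ := τ)
    linarith
  have hX2 : τ.xv st i k ^ 2 ≤ τ.Xm ^ 2 := by
    apply sq_le_sq'
    · linarith [hb.1]
    · linarith [hb.2]
  constructor
  · have := sq_nonneg (τ.xv st i k)
    linarith [hlv.1]
  · have hZ : 1 ≤ τ.Lam τ.M + τ.Xm ^ 2 := by
      have : 1 ≤ τ.Xm ^ 2 := one_le_pow₀ (by linarith only [k3])
      linarith
    have h5 : τ.xv st i k ^ 2 + τ.lv st i k ≤ τ.Lam τ.M + τ.Xm ^ 2 := by linarith [hlv.2]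
    generalize τ.Lam τ.M + τ.Xm ^ 2 = Z at *
    have h6 : τ.Xm * 1 ≤ τ.Xm * Z := mul_le_mul_of_nonneg_left hZ (by linarith)
    have h7 : 1000 * Z ≤ τ.Xm * Z := mul_le_mul_of_nonneg_right k3 (by linarith)
    have h8 : 16 * τ.Xm * Z = 16 * (τ.Xm * Z) := by ring
    rw [h8] at k1
    linarith

private theorem g3_strict (hg : τ.Good) (hs : τ.OkSt st) {i : ℕ} (h1 : 1 ≤ i) (hi : i ≤ τ.M)
    {k : ℕ} (hk : 1 ≤ k) (d : ℕ) (hd : k + 1 + d ≤ 6 * i + 2) :
    τ.xv st i k < τ.xv st i (k + 1 + d) := by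
  induction d with
  | zero => exact xv_mono hg hs h1 hi hk (by omega)
  | succ d ih =>
    refine (ih (by omega)).trans ?_
    have := xv_mono hg hs h1 hi (k := k + 1 + d) (by omega) (by omega)
    exact this

private theorem g3_inj (hg : τ.Good) (hs : τ.OkSt st) {i : ℕ} (h1 : 1 ≤ i) (hi : i ≤ τ.M)
    {k k' : ℕ} (hk : 1 ≤ k) (hk2 : k ≤ 6 * i + 2) (hk' : 1 ≤ k') (hk2' : k' ≤ 6 * i + 2)
    (h : τ.xv st i k = τ.xv st i k') : k = k' := by
  rcases Nat.lt_trichotomy k k' with hlt | heq | hlt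
  · exfalso
    have := g3_strict hg hs h1 hi hk (k' - k - 1) (by omega)
    rw [show k + 1 + (k' - k - 1) = k' by omega] at this
    omega
  · exact heq
  · exfalso
    have := g3_strict hg hs h1 hi hk' (k - k' - 1) (by omega)
    rw [show k' + 1 + (k - k' - 1) = k by omega] at this
    omega

private theorem g3_Lam_inj {i j : ℕ} (h : τ.Lam i = τ.Lam j) : i = j := by
  rcases Nat.lt_trichotomy i j with hlt | heq | hlt
  · have := Lam_strictMono (τ := τ) hlt
    omega
  · exact heq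
  · have := Lam_strictMono (τ := τ) hlt
    omega

/-- a deep vertex is different from a vertex of the next layer -/
private theorem g3_deep_ne (hg : τ.Good) (hs : τ.OkSt st) {p j k' : ℕ} (hp : p < τ.P)
    (hj : j < τ.Xr + 6) (hd : τ.dlm st p j = 864) (hk' : 1 ≤ k')
    (hk2' : k' ≤ 6 * (τ.i0 + 2 * p + 1) + 2)
    (h : τ.nu * τ.evm st p j = τ.xv st (τ.i0 + 2 * p + 1) k') : False := by
  have hM : τ.M = τ.i0 + 2 * τ.P := rfl
  have hnu := nu_pos (τ := τ)
  have hb := g3_even_b hg hs (st := st) hp.le hj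
  rcases g3_cases (τ := τ) (τ.i0 + 2 * p + 1) k' (by omega) (by omega) hk' hk2' with
    h3 | ⟨p', j', hp', he, hj', h3⟩ | ⟨p', j', hp', he, hj', h3⟩ | ⟨t', ht', ht2', h3⟩
  · have h4 := (g3_left_b (st := st) (by omega) hk' h3).2
    rw [← h] at h4
    linarith [hb.1]
  · omega
  · have hpp : p' = p := by omega
    subst hpp
    rw [h3, g3_odd p' j' hj'] at h
    have h5 : τ.evm st p' j = τ.odm st p' j' := mul_left_cancel₀ (by omega) h
    exact odm_ne_deep hg hs hp hj' hj hd h5.symm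
  · have h4 := (g3_right_b (st := st) (by omega) (by omega) h3 hk2').2
    rw [← h] at h4
    linarith [hb.2]

private theorem g3_par_inj (hg : τ.Good) (hs : τ.OkSt st) {i j k k' : ℕ} (h1 : 1 ≤ i)
    (hi : i ≤ τ.M) (h1' : 1 ≤ j) (hj : j ≤ τ.M) (hk : 1 ≤ k) (hk2 : k ≤ 6 * i + 2)
    (hk' : 1 ≤ k') (hk2' : k' ≤ 6 * j + 2)
    (h : par (τ.xv st i k) (τ.lv st i k) = par (τ.xv st j k') (τ.lv st j k')) :
    i = j ∧ k = k' := by
  obtain ⟨hx, hl⟩ := par_inj h
  rcases g3_vp_mem hg hs h1 hi hk hk2 with ⟨a2, a3⟩ | ⟨p, l, hp, he, hl1, hd, a2, a3, a4⟩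
  · rcases g3_vp_mem hg hs h1' hj hk' hk2' with ⟨b2, b3⟩ | ⟨p', l', hp', he', hl', hd', b2, b3, b4⟩
    · rw [a2, b2] at hl
      have hij := g3_Lam_inj hl
      subst hij
      exact ⟨rfl, g3_inj hg hs h1 hi hk hk2 hk' hk2' hx⟩
    · exfalso
      rw [a2, b3] at hl
      have hij := g3_Lam_inj hl
      have hi2 : i = τ.i0 + 2 * p' + 1 := by omega
      rw [b2, hi2] at hx
      exact g3_deep_ne hg hs hp' hl' hd' hk (by omega) hx.symm
  · rcases g3_vp_mem hg hs h1' hj hk' hk2' with ⟨b2, b3⟩ | ⟨p', l', hp', he', hl', hd', b2, b3, b4⟩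
    · exfalso
      rw [a3, b2] at hl
      have hij := g3_Lam_inj hl
      have hj2 : j = τ.i0 + 2 * p + 1 := by omega
      rw [a2, hj2] at hx
      exact g3_deep_ne hg hs hp hl1 hd hk' (by omega) hx
    · rw [a3, b3] at hl
      have hij := g3_Lam_inj hl
      have hij' : i = j := by omega
      subst hij'
      exact ⟨rfl, g3_inj hg hs h1 hi hk hk2 hk' hk2' hx⟩

private theorem g3_vp_inj (hg : τ.Good) (hs : τ.OkSt st) {i j k k' : ℕ} (hi : i ≤ τ.M)
    (hj : j ≤ τ.M) (hk : k < 6 * i + 3) (hk' : k' < 6 * j + 3)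
    (h : τ.vp st i k = τ.vp st j k') : i = j ∧ k = k' := by
  have hM : τ.M = τ.i0 + 2 * τ.P := rfl
  obtain ⟨k1, k2, k3⟩ := H_big (τ := τ)
  have hHM : (τ.M : ℤ) < τ.H := by
    have hLM := Lam_nonneg (τ := τ) τ.M
    have hZ : 1 ≤ τ.Lam τ.M + τ.Xm ^ 2 := by
      have : 1 ≤ τ.Xm ^ 2 := one_le_pow₀ (by linarith only [k3])
      linarith
    generalize τ.Lam τ.M + τ.Xm ^ 2 = Z at k1 hZ
    have h6 : τ.Xm * 1 ≤ τ.Xm * Z := mul_le_mul_of_nonneg_left hZ (by linarith)
    have h8 : 16 * τ.Xm * Z = 16 * (τ.Xm * Z) := by ring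
    rw [h8] at k1
    linarith
  have hM0 : (0 : ℤ) ≤ τ.M := Int.natCast_nonneg _
  have hHM' : (τ.M : ℝ) < (τ.H : ℝ) := by exact_mod_cast hHM
  have hM0' : (0 : ℝ) ≤ (τ.M : ℝ) := Nat.cast_nonneg _
  have hcorner : ∀ k, k < 3 → (τ.vp st 0 k = τ.ca ∧ k = 0) ∨ (τ.vp st 0 k = τ.cb ∧ k = 1) ∨
      (τ.vp st 0 k = τ.cc ∧ k = 2) := by
    intro k hk
    interval_cases k
    · left; exact ⟨by simp [vp], rfl⟩
    · right; left; exact ⟨by simp [vp], rfl⟩
    · right; right; exact ⟨by simp [vp], rfl⟩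
  -- second coordinates of the other vertices
  have hsec : ∀ i k, 1 ≤ i → i ≤ τ.M → k < 6 * i + 3 →
      0 ≤ (τ.vp st i k).2 ∧ (τ.vp st i k).2 < (τ.H : ℝ) := by
    intro i k h1 hi hk
    rcases Nat.eq_zero_or_pos k with rfl | hk0
    · rw [g3_vp_zero h1]
      simp only [top]
      have h2 : (i : ℝ) ≤ τ.M := by exact_mod_cast hi
      have h3 : (1 : ℝ) ≤ i := by exact_mod_cast h1
      constructor
      · linarith
      · linarith
    · rw [vp_eq h1 hk0 (by omega)]
      have h2 := g3_low hg hs h1 hi hk0 (by omega : k ≤ 6 * i + 2)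
      have h3 : (0 : ℝ) ≤ (τ.xv st i k : ℝ) ^ 2 + (τ.lv st i k : ℝ) := by exact_mod_cast h2.1
      have h4 : (τ.xv st i k : ℝ) ^ 2 + (τ.lv st i k : ℝ) < (τ.H : ℝ) - (τ.M : ℝ) := by
        exact_mod_cast h2.2
      simp only [par]
      constructor
      · exact h3
      · linarith
  have hcn : ∀ i k k', 1 ≤ i → i ≤ τ.M → k < 6 * i + 3 → k' < 3 →
      τ.vp st i k ≠ τ.vp st 0 k' := by
    intro i k k' h1 hi hk hk' heq
    have h2 := hsec i k h1 hi hk
    rw [heq] at h2
    rcases hcorner k' hk' with ⟨h3, _⟩ | ⟨h3, _⟩ | ⟨h3, _⟩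
    · rw [h3] at h2
      simp only [ca] at h2
      linarith [h2.2]
    · rw [h3] at h2
      simp only [cb] at h2
      linarith [h2.1]
    · rw [h3] at h2
      simp only [cc] at h2
      linarith [h2.2]
  rcases Nat.eq_zero_or_pos i with rfl | h1
  · rcases Nat.eq_zero_or_pos j with rfl | h1'
    · refine ⟨rfl, ?_⟩
      have hne1 : τ.ca ≠ τ.cb := by
        intro he
        have := congrArg Prod.fst he
        simp only [ca, cb] at this
        linarith
      have hne2 : τ.ca ≠ τ.cc := by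
        intro he
        have := congrArg Prod.fst he
        simp only [ca, cc] at this
        linarith
      have hne3 : τ.cb ≠ τ.cc := by
        intro he
        have := congrArg Prod.fst he
        simp only [cb, cc] at this
        linarith
      rcases hcorner k (by omega) with ⟨a, a'⟩ | ⟨a, a'⟩ | ⟨a, a'⟩ <;>
        rcases hcorner k' (by omega) with ⟨b, b'⟩ | ⟨b, b'⟩ | ⟨b, b'⟩ <;>
        rw [a, b] at h
      · omega
      · exact absurd h hne1
      · exact absurd h hne2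
      · exact absurd h.symm hne1
      · omega
      · exact absurd h hne3
      · exact absurd h.symm hne2
      · exact absurd h.symm hne3
      · omega
    · exact absurd h.symm (hcn j k' k h1' hj hk' (by omega))
  · rcases Nat.eq_zero_or_pos j with rfl | h1'
    · exact absurd h (hcn i k k' h1 hi hk (by omega))
    · have htn : ∀ i j k', 1 ≤ i → i ≤ τ.M → 1 ≤ j → j ≤ τ.M → 1 ≤ k' → k' ≤ 6 * j + 2 →
          τ.top i ≠ τ.vp st j k' := by
        intro i j k' h1 hi h1' hj hk0' hk' heq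
        rw [vp_eq h1' hk0' hk'] at heq
        have h2 := g3_low hg hs h1' hj hk0' hk'
        have h4 : (τ.xv st j k' : ℝ) ^ 2 + (τ.lv st j k' : ℝ) < (τ.H : ℝ) - (τ.M : ℝ) := by
          exact_mod_cast h2.2
        have h5 := congrArg Prod.snd heq
        simp only [top, par] at h5
        have h6 : (i : ℝ) ≤ τ.M := by exact_mod_cast hi
        linarith
      rcases Nat.eq_zero_or_pos k with rfl | hk0
      · rcases Nat.eq_zero_or_pos k' with rfl | hk0'
        · rw [g3_vp_zero h1, g3_vp_zero h1'] at h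
          have h5 := congrArg Prod.snd h
          simp only [top] at h5
          have h6 : (i : ℝ) = j := by linarith
          exact ⟨by exact_mod_cast h6, rfl⟩
        · rw [g3_vp_zero h1] at h
          exact absurd h (htn i j k' h1 hi h1' hj hk0' (by omega))
      · rcases Nat.eq_zero_or_pos k' with rfl | hk0'
        · rw [g3_vp_zero h1'] at h
          exact absurd h.symm (htn j i k h1' hj h1 hi hk0 (by omega))
        · rw [vp_eq h1 hk0 (by omega), vp_eq h1' hk0' (by omega)] at h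
          exact g3_par_inj hg hs h1 hi h1' hj hk0 (by omega) hk0' (by omega) h

theorem vert_inj (hg : τ.Good) (hs : τ.OkSt st) {i j : ℕ} (k k' : ℤ) (hi : i ≤ τ.M)
    (hj : j ≤ τ.M) : τ.vert st i k = τ.vert st j k' ↔ i = j ∧ (6 * (i : ℤ) + 3) ∣ k - k' := by
  constructor
  · intro h
    unfold vert at h
    obtain ⟨h1, h2⟩ := g3_vp_inj hg hs hi hj (g3_mod_lt i k) (g3_mod_lt j k') h
    refine ⟨h1, ?_⟩
    subst h1
    have h3 : (0 : ℤ) < 6 * (i : ℤ) + 3 := by positivity
    have h4 := Int.emod_nonneg k h3.ne'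
    have h5 := Int.emod_nonneg k' h3.ne'
    have h6 : k % (6 * (i : ℤ) + 3) = k' % (6 * (i : ℤ) + 3) := by omega
    exact Int.ModEq.dvd (Int.ModEq.symm h6)
  · rintro ⟨rfl, h⟩
    unfold vert
    have h6 : k % (6 * (i : ℤ) + 3) = k' % (6 * (i : ℤ) + 3) :=
      (Int.ModEq.symm ((Int.modEq_iff_dvd).2 h))
    rw [h6]

end Tab

end Pool.Agent.Helper70.MD
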