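import Pool.Agent.Helper70.MD.HDefs

/-!
MD-G3c: the middle checks.

`int1`, `int2` (checks inside a row, from `OkSt` and `|shift| ≤ 6` only). Write `E j = evm st p j`,
`O j = odm st p j`. `ori (O j) 864 (O (j-1)) 864 (E j) d`
`= (O (j-1) - O j) ((E j - O j) (E j - O (j-1)) + (d - 864))`, so for `d = 0` the claim `int1` is
`(E j - O (j-1)) (E j - O j) < 864` together with `O (j-1) < O j`, and for `d = 864` it is
`O (j-1) < E j < O j`. For `3 ≤ j < Xr + 3`, `h = j - 3`: `E j = ev h`, `O (j-1) = od h`,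
`O j = od (h+1)`. By the state of `h` (all from `OkSt`):
`S`: `ev h = 24 h + 12`, `od h = 24 h` (not interior), `od (h+1) = 24 (h+1)`: product `-144`.
`B`: `ev h = 24 h + 24`, `od h ∈ {24 h, 24 h - 12 + s (h-1)}` (`24 h` if `h` is not interior;
otherwise `st (h-1) = B`, since `st (h-1) ∈ {S, B}`), `od (h+1) = 24 h + 12 + s h`: the product is at
most `(36 + 6) (12 + 6) = 756`.
`A`: `ev h = 24 h`, `od h = 24 h + 12 + s h` (interior, `st (h-1) ∈ {D, A}`), `od (h+1) ∈ {24 h + 24,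
24 h + 36 + s (h+1)}`: product at most `18 * 42 = 756`.
`D`: `ev h = 24 h + 12 + s h`, deep, `od h ∈ {24 h, 24 h - 12 + s (h-1)}`, `od (h+1) ∈ {24 h + 24,
24 h + 36 + s (h+1)}`: strictly between.
The margins (`j = 1, 2, Xr + 3, Xr + 4`; the columns near the ends have state `S`): numbers.
`int2`: `0 < ori (E j) d (E (j+1)) d' (O j) 864`. For `h = j - 3` and states `(st h, st (h+1))`, with
`O j = od (h+1)`: both shallow: `(E (j+1) - E j) ((O j - E j) (O j - E (j+1)) + 864)`, and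
`(O j - E j)(O j - E (j+1)) > -864` because: `(S,S)`: `12 * (-12)`; `(S,B)`: `E = 24 h + 12`,
`E' = 24 h + 48`, `O = 24 h + 24`: `12 * (-24)`; `(B,B)`: `E = 24 h + 24`, `E' = 24 h + 48`,
`O = 24 h + 12 + s h`: `(-12 + s)(-36 + s) > 0`; `(A,A)`: `E = 24 h`, `E' = 24 h + 24`,
`O = 24 h + 36 + s`: positive; `(A,S)`: `E = 24 h`, `E' = 24 h + 36`, `O = 24 h + 24`: `24 * (-12)`.
One deep: use the formula for `ori` directly and `nlinarith` or a case check on the finitely many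
values of the shifts (`interval_cases` on `s`): `(S,D)`: `E = 24 h + 12` (level 0),
`E' = 24 h + 36 + s'` (864), `O = 24 h + 24` (864): with `x = E' - E = 24 + s'`, `y = O - E = 12`:
`x y (y - x) + 864 x - 864 y = (x - y) (864 - x y)`, `x y ≤ 30 * 12`. `(B,D)`: `E = 24 h + 24` (0),
`E' = 24 h + 36 + s'` (864), `O = 24 h + 12 + s` (864): `x = 12 + s'`, `y = -12 + s`: the same formula
`(x - y)(864 - x y)`, `x > 0 > y`. `(D,A)`: `E = 24 h + 12 + s` (864), `E' = 24 h + 24` (0),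
`O = 24 h + 36 + s'` (864): `x = E' - E = 12 - s`, `y = O - E = 24 + s' - s`:
`x y (y - x) + x * 0 - y * (-864) = y (864 + x (y - x))`, positive. `(D,S)`: `E' = 24 h + 36` (0),
`O = 24 h + 24` (864): `x = 24 - s`, `y = 12 - s`: `y (864 + x (y - x)) = y (864 - 12 x)`,
positive. Margins: numbers.
`ext1`, `ext2`: for `3 ≤ j` in the middle they are `Chk1`, `Chk2` with `k = j - 2`, respectively
(`O j = od k`, `evm' j = ev' (k-1)`, `evm' (j+1) = ev' k`): these are assumed for `1 ≤ k < Xr`. The remaining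
`j` (`j ≤ 2` and `j ≥ Xr + 2`) involve only states near the ends, all `S`: numbers. For example `j = 0`:
`ori (-54) 346 (-90) 346 (-72) 0`.
-/

set_option autoImplicit false

namespace Pool.Agent.Helper70.MD

open Finset

open scoped Classical

namespace Tab

variable {τ : Tab} {st : ℕ → ℕ → St}

private lemma c3_tr (x1 l1 x2 l2 x3 l3 t : ℤ) :
    ori (x1 + t) l1 (x2 + t) l2 (x3 + t) l3 = ori x1 l1 x2 l2 x3 l3 := by
  unfold ori
  ring

/-- Even position. -/
private def c3ev (b : St) (h s : ℤ) : ℤ :=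
  match b with
  | .S => 24 * h + 12
  | .B => 24 * h + 24
  | .A => 24 * h
  | .D => 24 * h + 12 + s

/-- Odd position. -/
private def c3od (a b : St) (k s t : ℤ) : ℤ :=
  match a, b with
  | .S, _ => 24 * k
  | _, .S => 24 * k
  | .B, _ => 24 * (k - 1) + 12 + s
  | _, _ => 24 * k + 12 + t

private lemma c3_ev_eq (p h : ℕ) : τ.ev st p h = c3ev (st p h) h (τ.shift p h) := by
  unfold ev c3ev
  cases st p h <;> rfl

private lemma c3_od_eq (hs : τ.OkSt st) (p k : ℕ) :
    τ.od st p k = c3od (st p (k - 1)) (st p k) k (τ.shift p (k - 1)) (τ.shift p k) := by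
  unfold od
  have h1 := hs.1 p (k - 1)
  have h2 := hs.1 p k
  by_cases hi : τ.intr p k
  · rw [if_pos hi]
    obtain ⟨i1, i2⟩ := hi
    have g1 : st p (k - 1) ≠ .S := fun e => (h1.1 e) i1
    have g2 : st p k ≠ .S := fun e => (h2.1 e) i2
    revert g1 g2
    generalize st p (k - 1) = a
    generalize st p k = b
    intro g1 g2
    cases a <;> cases b <;> simp_all [c3od]
  · rw [if_neg hi]
    have g : st p (k - 1) = .S ∨ st p k = .S := by
      by_contra hcon
      push Not at hcon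
      apply hi
      refine ⟨?_, ?_⟩
      · by_contra h3
        exact hcon.1 (h1.2 h3)
      · by_contra h3
        exact hcon.2 (h2.2 h3)
    rcases g with g | g
    · rw [g]
      rfl
    · rw [g]
      cases st p (k - 1) <;> rfl

private lemma c3_ev_t (b : St) (h s : ℤ) : c3ev b h s = c3ev b 0 s + 24 * h := by
  cases b <;> simp only [c3ev] <;> ring

private lemma c3_od_t (a b : St) (k s t : ℤ) : c3od a b k s t = c3od a b 0 s t + 24 * k := by
  cases a <;> cases b <;> simp only [c3od] <;> ring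

private lemma c3_od_t1 (a b : St) (k s t : ℤ) :
    c3od a b (k + 1) s t = c3od a b 1 s t + 24 * k := by
  cases a <;> cases b <;> simp only [c3od] <;> ring

private lemma c3_ev_t1 (b : St) (h s : ℤ) : c3ev b (h + 1) s = c3ev b 1 s + 24 * h := by
  cases b <;> simp only [c3ev] <;> ring

private lemma c3_shift (hg : τ.Good) (p h : ℕ) : -6 ≤ τ.shift p h ∧ τ.shift p h ≤ 6 := by
  unfold shift
  cases hsh : τ.sh p h with
  | none => simp
  | some s =>
    have := hg.bound p h s hsh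
    simpa using this

private lemma c3_S (hg : τ.Good) (hs : τ.OkSt st) (p h : ℕ) (hh : h < 8 ∨ τ.Xr ≤ h + 8) :
    st p h = .S := by
  rw [hs.1]
  unfold inL
  push Not
  rcases hh with hh | hh
  · exact hg.none_left p h hh
  · exact hg.none_right p h hh

private lemma c3_ok (hg : τ.Good) (hs : τ.OkSt st) (p k : ℕ) : okPair (st p (k - 1)) (st p k) := by
  cases k with
  | zero =>
    have h1 := c3_S hg hs p 0 (by omega)
    simp only [Nat.zero_sub]
    rw [h1]
    trivial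
  | succ k => exact hs.2 p k

private lemma c3_evS (hg : τ.Good) (hs : τ.OkSt st) (p h : ℕ) (hh : h < 8 ∨ τ.Xr ≤ h + 8) :
    τ.ev st p h = 24 * h + 12 := by
  rw [c3_ev_eq, c3_S hg hs p h hh]
  rfl

private lemma c3_odS (hg : τ.Good) (hs : τ.OkSt st) (p h : ℕ) (hh : h < 8 ∨ τ.Xr ≤ h + 8) :
    τ.od st p h = 24 * h := by
  rw [c3_od_eq hs, c3_S hg hs p h hh]
  cases st p (h - 1) <;> rfl

private lemma c3_evm (p h : ℕ) (hh : h < τ.Xr) : τ.evm st p (h + 3) = τ.ev st p h := by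
  unfold evm
  rw [if_neg (by omega), if_neg (by omega), if_neg (by omega), if_pos (by omega),
    Nat.add_sub_cancel]

private lemma c3_odm (p h : ℕ) (hh : h ≤ τ.Xr) : τ.odm st p (h + 2) = τ.od st p h := by
  unfold odm
  rw [if_neg (by omega), if_neg (by omega), if_pos (by omega), Nat.add_sub_cancel]

private lemma c3_dlm (p h : ℕ) (hh : h < τ.Xr) : τ.dlm st p (h + 3) = (st p h).dl := by
  unfold dlm
  rw [if_pos (by omega), Nat.add_sub_cancel]

private lemma c3_dlm0 (p j : ℕ) (hj : j < 3 ∨ τ.Xr + 3 ≤ j) : τ.dlm st p j = 0 := by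
  unfold dlm
  rw [if_neg (by omega)]

private lemma c3_evm0 (p : ℕ) : τ.evm st p 0 = -90 := rfl

private lemma c3_evm1 (p : ℕ) : τ.evm st p 1 = -54 := rfl

private lemma c3_evm2 (p : ℕ) : τ.evm st p 2 = -18 := rfl

private lemma c3_evmX3 (p : ℕ) : τ.evm st p (τ.Xr + 3) = 24 * τ.Xr + 18 := by
  unfold evm
  rw [if_neg (by omega), if_neg (by omega), if_neg (by omega), if_neg (by omega), if_pos rfl]

private lemma c3_evmX4 (p : ℕ) : τ.evm st p (τ.Xr + 4) = 24 * τ.Xr + 54 := by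
  unfold evm
  rw [if_neg (by omega), if_neg (by omega), if_neg (by omega), if_neg (by omega),
    if_neg (by omega), if_pos rfl]

private lemma c3_evmX5 (p : ℕ) : τ.evm st p (τ.Xr + 5) = 24 * τ.Xr + 90 := by
  unfold evm
  rw [if_neg (by omega), if_neg (by omega), if_neg (by omega), if_neg (by omega),
    if_neg (by omega), if_neg (by omega)]

private lemma c3_odm0 (p : ℕ) : τ.odm st p 0 = -72 := by
  unfold odm
  rw [if_pos rfl]

private lemma c3_odm1 (p : ℕ) : τ.odm st p 1 = -36 := by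
  unfold odm
  rw [if_neg (by omega), if_pos rfl]

private lemma c3_odmX3 (p : ℕ) : τ.odm st p (τ.Xr + 3) = 24 * τ.Xr + 36 := by
  unfold odm
  rw [if_neg (by omega), if_neg (by omega), if_neg (by omega), if_pos rfl]

private lemma c3_odmX4 (p : ℕ) : τ.odm st p (τ.Xr + 4) = 24 * τ.Xr + 72 := by
  unfold odm
  rw [if_neg (by omega), if_neg (by omega), if_neg (by omega), if_neg (by omega)]

private lemma c3_mid1 (a b c : St) (h1 : okPair a b) (h2 : okPair b c) (x y z : ℤ)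
    (hx : -6 ≤ x) (hx' : x ≤ 6) (hy : -6 ≤ y) (hy' : y ≤ 6) (hz : -6 ≤ z) (hz' : z ≤ 6) :
    0 < ori (c3od b c 1 y z) 864 (c3od a b 0 x y) 864 (c3ev b 0 y) b.dl := by
  cases a <;> cases b <;> simp only [okPair] at h1 <;> cases c <;> simp only [okPair] at h2 <;>
    simp only [c3od, c3ev, ori, St.dl] <;>
    first
    | (norm_num; done)
    | (interval_cases y <;> norm_num <;> done)
    | nlinarith [mul_pos (mul_pos (show (0 : ℤ) < 24 + z - y by omega)
        (show (0 : ℤ) < 24 + y - x by omega)) (show (0 : ℤ) < 48 + z - x by omega)]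
    | (interval_cases y <;> interval_cases x <;> norm_num <;> done)
    | (interval_cases y <;> interval_cases z <;> norm_num <;> done)

private lemma c3_mid2 (a b : St) (h1 : okPair a b) (x y : ℤ)
    (hx : -6 ≤ x) (hx' : x ≤ 6) (hy : -6 ≤ y) (hy' : y ≤ 6) :
    0 < ori (c3ev a 0 x) a.dl (c3ev b 1 y) b.dl (c3od a b 1 x y) 864 := by
  cases a <;> cases b <;> simp only [okPair] at h1 <;>
    simp only [c3od, c3ev, ori, St.dl] <;>
    first
    | (norm_num; done)
    | (interval_cases y <;> norm_num <;> done)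
    | (interval_cases x <;> norm_num <;> done)
    | (interval_cases y <;> interval_cases x <;> norm_num <;> done)

private lemma c3_split {j X : ℕ} (h : j < X + 5) :
    j = 0 ∨ j = 1 ∨ j = 2 ∨ (∃ h, j = h + 3 ∧ h < X) ∨ j = X + 3 ∨ j = X + 4 := by
  by_cases h0 : j < 3
  · omega
  · by_cases h1 : j < X + 3
    · right; right; right; left
      exact ⟨j - 3, by omega, by omega⟩
    · omega

theorem int1 (hg : τ.Good) (hs : τ.OkSt st) {p j : ℕ} (hp : p < τ.P) (h1 : 1 ≤ j)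
    (h : j < τ.Xr + 5) :
    0 < ori (τ.odm st p j) 864 (τ.odm st p (j - 1)) 864 (τ.evm st p j) (τ.dlm st p j) := by
  have hX := hg.Xr_ge
  have o2 : τ.odm st p 2 = 0 := by
    rw [c3_odm p 0 (by omega), c3_odS hg hs p 0 (by omega)]
    norm_num
  have oX : τ.odm st p (τ.Xr + 2) = 24 * τ.Xr := by
    rw [c3_odm p _ le_rfl, c3_odS hg hs p _ (by omega)]
  rcases c3_split h with rfl | rfl | rfl | ⟨m, rfl, hh⟩ | rfl | rfl
  · omega
  · simp only [Nat.sub_self]
    rw [c3_odm0, c3_odm1, c3_evm1, c3_dlm0 p 1 (by omega)]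
    norm_num [ori]
  · simp only [show 2 - 1 = 1 from rfl]
    rw [c3_odm1, o2, c3_evm2, c3_dlm0 p 2 (by omega)]
    norm_num [ori]
  · rw [show m + 3 - 1 = m + 2 from rfl, show m + 3 = (m + 1) + 2 from rfl,
      c3_odm p (m + 1) (by omega), c3_odm p m (by omega), show (m + 1) + 2 = m + 3 from rfl,
      c3_evm p m hh, c3_dlm p m hh, c3_od_eq hs, c3_od_eq hs, c3_ev_eq, Nat.add_sub_cancel]
    push_cast
    rw [c3_od_t1, c3_od_t (st p (m - 1)), c3_ev_t, c3_tr]
    have b1 := c3_shift hg p (m - 1)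
    have b2 := c3_shift hg p m
    have b3 := c3_shift hg p (m + 1)
    exact c3_mid1 _ _ _ (c3_ok hg hs p m) (hs.2 p m) _ _ _ b1.1 b1.2 b2.1 b2.2 b3.1 b3.2
  · rw [show τ.Xr + 3 - 1 = τ.Xr + 2 from rfl, c3_odmX3, oX, c3_evmX3, c3_dlm0 p _ (by omega)]
    unfold ori
    ring_nf
    norm_num
  · rw [show τ.Xr + 4 - 1 = τ.Xr + 3 from rfl, c3_odmX4, c3_odmX3, c3_evmX4,
      c3_dlm0 p _ (by omega)]
    unfold ori
    ring_nf
    norm_num

theorem int2 (hg : τ.Good) (hs : τ.OkSt st) {p j : ℕ} (hp : p < τ.P) (h : j < τ.Xr + 5) :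
    0 < ori (τ.evm st p j) (τ.dlm st p j) (τ.evm st p (j + 1)) (τ.dlm st p (j + 1))
      (τ.odm st p j) 864 := by
  have hX := hg.Xr_ge
  have o2 : τ.odm st p 2 = 0 := by
    rw [c3_odm p 0 (by omega), c3_odS hg hs p 0 (by omega)]
    norm_num
  have oX : τ.odm st p (τ.Xr + 2) = 24 * τ.Xr := by
    rw [c3_odm p _ le_rfl, c3_odS hg hs p _ (by omega)]
  have e3 : τ.evm st p 3 = 12 := by
    rw [c3_evm p 0 (by omega), c3_evS hg hs p 0 (by omega)]
    norm_num
  have d3 : τ.dlm st p 3 = 0 := by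
    rw [c3_dlm p 0 (by omega), c3_S hg hs p 0 (by omega)]
    rfl
  rcases c3_split h with rfl | rfl | rfl | ⟨m, rfl, hh⟩ | rfl | rfl
  · simp only [Nat.zero_add]
    rw [c3_odm0, c3_evm0, c3_evm1, c3_dlm0 p 0 (by omega), c3_dlm0 p 1 (by omega)]
    norm_num [ori]
  · simp only [show 1 + 1 = 2 from rfl]
    rw [c3_odm1, c3_evm1, c3_evm2, c3_dlm0 p 1 (by omega), c3_dlm0 p 2 (by omega)]
    norm_num [ori]
  · simp only [show 2 + 1 = 3 from rfl]
    rw [o2, c3_evm2, e3, d3, c3_dlm0 p 2 (by omega)]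
    norm_num [ori]
  · by_cases hh2 : m + 1 < τ.Xr
    · rw [show m + 3 + 1 = (m + 1) + 3 from rfl, c3_evm p (m + 1) hh2, c3_dlm p (m + 1) hh2,
        c3_evm p m hh, c3_dlm p m hh, show m + 3 = (m + 1) + 2 from rfl,
        c3_odm p (m + 1) (by omega), c3_od_eq hs, c3_ev_eq, c3_ev_eq, Nat.add_sub_cancel]
      push_cast
      rw [c3_od_t1, c3_ev_t1, c3_ev_t, c3_tr]
      have b2 := c3_shift hg p m
      have b3 := c3_shift hg p (m + 1)
      exact c3_mid2 _ _ (hs.2 p m) _ _ b2.1 b2.2 b3.1 b3.2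
    · have hX2 : m + 1 = τ.Xr := by omega
      have e1 : τ.evm st p (m + 3) = 24 * τ.Xr - 12 := by
        rw [c3_evm p m hh, c3_evS hg hs p m (by omega), ← hX2]
        push_cast
        ring
      have e2 : τ.dlm st p (m + 3) = 0 := by
        rw [c3_dlm p m hh, c3_S hg hs p m (by omega)]
        rfl
      rw [e1, e2, show m + 3 + 1 = τ.Xr + 3 by omega, show m + 3 = τ.Xr + 2 by omega, c3_evmX3,
        oX, c3_dlm0 p _ (by omega)]
      unfold ori
      ring_nf
      norm_num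
  · rw [show τ.Xr + 3 + 1 = τ.Xr + 4 from rfl, c3_odmX3, c3_evmX3, c3_evmX4,
      c3_dlm0 p _ (by omega), c3_dlm0 p _ (by omega)]
    unfold ori
    ring_nf
    norm_num
  · rw [show τ.Xr + 4 + 1 = τ.Xr + 5 from rfl, c3_odmX4, c3_evmX4, c3_evmX5,
      c3_dlm0 p _ (by omega), c3_dlm0 p _ (by omega)]
    unfold ori
    ring_nf
    norm_num

theorem ext1 (hg : τ.Good) (hs : τ.Checks st) {p j : ℕ} (hp : p < τ.P) (h : j < τ.Xr + 5) :
    0 < ori (τ.evm st (p + 1) (j + 1)) (346 + τ.dlm st (p + 1) (j + 1))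
      (τ.evm st (p + 1) j) (346 + τ.dlm st (p + 1) j) (τ.odm st p j) 0 := by
  have hX := hg.Xr_ge
  obtain ⟨hs1, hs2⟩ := hs
  have o2 : τ.odm st p 2 = 0 := by
    rw [c3_odm p 0 (by omega), c3_odS hg hs1 p 0 (by omega)]
    norm_num
  have oX : τ.odm st p (τ.Xr + 2) = 24 * τ.Xr := by
    rw [c3_odm p _ le_rfl, c3_odS hg hs1 p _ (by omega)]
  have e3 : τ.evm st (p + 1) 3 = 12 := by
    rw [c3_evm _ 0 (by omega), c3_evS hg hs1 _ 0 (by omega)]
    norm_num
  have d3 : τ.dlm st (p + 1) 3 = 0 := by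
    rw [c3_dlm _ 0 (by omega), c3_S hg hs1 _ 0 (by omega)]
    rfl
  rcases c3_split h with rfl | rfl | rfl | ⟨m, rfl, hh⟩ | rfl | rfl
  · simp only [Nat.zero_add]
    rw [c3_odm0, c3_evm0, c3_evm1, c3_dlm0 _ 0 (by omega), c3_dlm0 _ 1 (by omega)]
    norm_num [ori]
  · simp only [show 1 + 1 = 2 from rfl]
    rw [c3_odm1, c3_evm1, c3_evm2, c3_dlm0 _ 1 (by omega), c3_dlm0 _ 2 (by omega)]
    norm_num [ori]
  · simp only [show 2 + 1 = 3 from rfl]
    rw [o2, c3_evm2, e3, d3, c3_dlm0 _ 2 (by omega)]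
    norm_num [ori]
  · by_cases hh2 : m + 1 < τ.Xr
    · rw [show m + 3 + 1 = (m + 1) + 3 from rfl, c3_evm _ (m + 1) hh2, c3_dlm _ (m + 1) hh2,
        c3_evm _ m hh, c3_dlm _ m hh, show m + 3 = (m + 1) + 2 from rfl,
        c3_odm p (m + 1) (by omega)]
      exact (hs2 p hp (m + 1) (by omega) hh2).1
    · have hX2 : m + 1 = τ.Xr := by omega
      have e1 : τ.evm st (p + 1) (m + 3) = 24 * τ.Xr - 12 := by
        rw [c3_evm _ m hh, c3_evS hg hs1 _ m (by omega), ← hX2]
        push_cast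
        ring
      have e2 : τ.dlm st (p + 1) (m + 3) = 0 := by
        rw [c3_dlm _ m hh, c3_S hg hs1 _ m (by omega)]
        rfl
      rw [e1, e2, show m + 3 + 1 = τ.Xr + 3 by omega, show m + 3 = τ.Xr + 2 by omega, c3_evmX3,
        oX, c3_dlm0 _ _ (by omega)]
      unfold ori
      ring_nf
      norm_num
  · rw [show τ.Xr + 3 + 1 = τ.Xr + 4 from rfl, c3_odmX3, c3_evmX3, c3_evmX4,
      c3_dlm0 _ _ (by omega), c3_dlm0 _ _ (by omega)]
    unfold ori
    ring_nf
    norm_num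
  · rw [show τ.Xr + 4 + 1 = τ.Xr + 5 from rfl, c3_odmX4, c3_evmX4, c3_evmX5,
      c3_dlm0 _ _ (by omega), c3_dlm0 _ _ (by omega)]
    unfold ori
    ring_nf
    norm_num

theorem ext2 (hg : τ.Good) (hs : τ.Checks st) {p j : ℕ} (hp : p < τ.P) (h : j < τ.Xr + 4) :
    0 < ori (τ.odm st p j) 0 (τ.odm st p (j + 1)) 0
      (τ.evm st (p + 1) (j + 1)) (346 + τ.dlm st (p + 1) (j + 1)) := by
  have hX := hg.Xr_ge
  obtain ⟨hs1, hs2⟩ := hs
  have o2 : τ.odm st p 2 = 0 := by
    rw [c3_odm p 0 (by omega), c3_odS hg hs1 p 0 (by omega)]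
    norm_num
  have o3 : τ.odm st p 3 = 24 := by
    rw [c3_odm p 1 (by omega), c3_odS hg hs1 p 1 (by omega)]
    norm_num
  have oX : τ.odm st p (τ.Xr + 2) = 24 * τ.Xr := by
    rw [c3_odm p _ le_rfl, c3_odS hg hs1 p _ (by omega)]
  have e3 : τ.evm st (p + 1) 3 = 12 := by
    rw [c3_evm _ 0 (by omega), c3_evS hg hs1 _ 0 (by omega)]
    norm_num
  have d3 : τ.dlm st (p + 1) 3 = 0 := by
    rw [c3_dlm _ 0 (by omega), c3_S hg hs1 _ 0 (by omega)]
    rfl
  rcases c3_split (show j < τ.Xr + 5 by omega) with rfl | rfl | rfl | ⟨m, rfl, hh⟩ | rfl | rfl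
  · simp only [Nat.zero_add]
    rw [c3_odm0, c3_odm1, c3_evm1, c3_dlm0 _ 1 (by omega)]
    norm_num [ori]
  · simp only [show 1 + 1 = 2 from rfl]
    rw [c3_odm1, o2, c3_evm2, c3_dlm0 _ 2 (by omega)]
    norm_num [ori]
  · simp only [show 2 + 1 = 3 from rfl]
    rw [o2, o3, e3, d3]
    norm_num [ori]
  · by_cases hh2 : m + 1 < τ.Xr
    · rw [show m + 3 + 1 = (m + 1) + 3 from rfl, c3_evm _ (m + 1) hh2, c3_dlm _ (m + 1) hh2,
        show m + 3 = (m + 1) + 2 from rfl, show (m + 1) + 3 = (m + 1 + 1) + 2 from rfl,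
        c3_odm p (m + 1) (by omega), c3_odm p (m + 1 + 1) (by omega)]
      exact (hs2 p hp (m + 1) (by omega) hh2).2
    · have hX2 : m + 1 = τ.Xr := by omega
      rw [show m + 3 + 1 = τ.Xr + 3 by omega, show m + 3 = τ.Xr + 2 by omega, c3_evmX3,
        oX, c3_odmX3, c3_dlm0 _ _ (by omega)]
      unfold ori
      ring_nf
      norm_num
  · rw [show τ.Xr + 3 + 1 = τ.Xr + 4 from rfl, c3_odmX3, c3_odmX4, c3_evmX4,
      c3_dlm0 _ _ (by omega)]
    unfold ori
    ring_nf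
    norm_num
  · omega

end Tab

end Pool.Agent.Helper70.MD
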