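import Pool.Agent.Helper70.MD.HDefs

/-!
MD-G3i: the index functions.

Write `r 1 = i, r 2 = 2 i, r 3 = 3 i + 1, r 4 = 4 i + 1, r 5 = 5 i + 2, r 6 = 6 i + 2`, strictly increasing for
`i ≥ 1`; `tau i k = #{j | r j < k}`. Everything is `simp`/`split_ifs`/`omega`. For `l0_turn`:
`l0 i (k+1) = l0 i k + 2` forces `k = r j (i)` for some `j` (`i ≥ 1`), and `l0 (i-1) k' = k` is
impossible: for `i - 1 = 0` because `3 k'` is not in `{1, 2, 4, 5, 7, 8}`; for `i - 1 ≥ 1` because
`r j (i) = r j (i-1) + j`, and `k' ≤ r j (i-1)` gives `l0 (i-1) k' ≤ r j (i-1) + j - 1` while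
`k' > r j (i-1)` gives `l0 (i-1) k' ≥ r j (i-1) + 1 + j`. (Case split on which `j` and `omega`.)
`lz`: for `k = W q + k0`, `0 ≤ k0 < W`, `W = 6 i + 3`, `W' = 6 (i+1) + 3`: `lz i k = W' q + l0 i k0` and
`lz i (k+1) = W' q + l0 i (k0 + 1)`, also if `k0 + 1 = W` since `l0 i W = W'`. For `lz_turn`: if
`lz (i-1) k' = k` then with `k' = W'' q' + k0'`, `lz (i-1) k' = W q' + l0 (i-1) k0'` with
`0 ≤ l0 (i-1) k0' < W` (strict monotonicity), so `k % W = l0 (i-1) k0'`.
-/

set_option autoImplicit false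

namespace Pool.Agent.Helper70.MD

open Finset

open scoped Classical

namespace G3iAux

/-- indicator of `r < k` -/
def ind (r k : ℕ) : ℕ := if r < k then 1 else 0

/-- indicator of `r = k` -/
def ide (r k : ℕ) : ℕ := if r = k then 1 else 0

theorem ind_succ (r k : ℕ) : ind r (k + 1) = ind r k + ide r k := by
  unfold ind ide
  split_ifs <;> omega

theorem ind_cases (r k : ℕ) : (ind r k = 1 ∧ r < k) ∨ (ind r k = 0 ∧ k ≤ r) := by
  unfold ind
  split_ifs <;> omega

theorem ide_cases (r k : ℕ) : (ide r k = 1 ∧ r = k) ∨ (ide r k = 0 ∧ r ≠ k) := by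
  unfold ide
  split_ifs <;> omega

theorem ind_le (r k : ℕ) : ind r k ≤ 1 := by
  unfold ind
  split_ifs <;> omega

theorem ind_one {r k : ℕ} (h : r < k) : ind r k = 1 := by
  unfold ind
  rw [if_pos h]

theorem ind_zero {r k : ℕ} (h : k ≤ r) : ind r k = 0 := by
  unfold ind
  rw [if_neg (by omega)]

theorem tau_eq (i k : ℕ) : tau i k = ind i k + ind (2 * i) k + ind (3 * i + 1) k +
    ind (4 * i + 1) k + ind (5 * i + 2) k + ind (6 * i + 2) k := rfl

/-- number of turning vertices equal to `k` -/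
def te (i k : ℕ) : ℕ := ide i k + ide (2 * i) k + ide (3 * i + 1) k +
    ide (4 * i + 1) k + ide (5 * i + 2) k + ide (6 * i + 2) k

theorem tau_succ (i k : ℕ) : tau i (k + 1) = tau i k + te i k := by
  rw [tau_eq, tau_eq, te]
  simp only [ind_succ]
  omega

theorem te_cases {i : ℕ} (h : 1 ≤ i) (k : ℕ) : te i k = 0 ∨
    (te i k = 1 ∧ (k = i ∨ k = 2 * i ∨ k = 3 * i + 1 ∨ k = 4 * i + 1 ∨ k = 5 * i + 2 ∨
      k = 6 * i + 2)) := by
  unfold te
  rcases ide_cases i k with h1 | h1 <;> rcases ide_cases (2 * i) k with h2 | h2 <;>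
    rcases ide_cases (3 * i + 1) k with h3 | h3 <;> rcases ide_cases (4 * i + 1) k with h4 | h4 <;>
    rcases ide_cases (5 * i + 2) k with h5 | h5 <;> rcases ide_cases (6 * i + 2) k with h6 | h6 <;>
    omega

theorem l0_pos {i : ℕ} (h : 1 ≤ i) (k : ℕ) : l0 i k = k + tau i k := by
  unfold l0
  rw [if_neg (by omega)]

theorem l0_null (k : ℕ) : l0 0 k = 3 * k := by
  unfold l0
  rw [if_pos rfl]

theorem l0_succ {i : ℕ} (h : 1 ≤ i) (k : ℕ) : l0 i (k + 1) = l0 i k + 1 + te i k := by
  rw [l0_pos h, l0_pos h, tau_succ]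
  omega

end G3iAux

open G3iAux

theorem l0_zero (i : ℕ) : l0 i 0 = 0 := by
  rcases Nat.eq_zero_or_pos i with rfl | hi
  · rw [l0_null]
  · rw [l0_pos hi, tau_eq]
    simp [ind]

theorem l0_top (i : ℕ) : l0 i (6 * i + 3) = 6 * (i + 1) + 3 := by
  rcases Nat.eq_zero_or_pos i with rfl | hi
  · rw [l0_null]
  · rw [l0_pos hi, tau_eq, ind_one (by omega), ind_one (by omega), ind_one (by omega),
      ind_one (by omega), ind_one (by omega), ind_one (by omega)]
    omega

theorem l0_mono {i k : ℕ} (h : k < 6 * i + 3) : l0 i k < l0 i (k + 1) := by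
  rcases Nat.eq_zero_or_pos i with rfl | hi
  · rw [l0_null, l0_null]
    omega
  · rw [l0_succ hi]
    omega

theorem l0_le {i k : ℕ} (h1 : 1 ≤ i) (h : k < 6 * i + 3) : l0 i (k + 1) ≤ l0 i k + 2 := by
  clear h
  rw [l0_succ h1]
  have := te_cases h1 k
  omega

theorem l0_lt {i k : ℕ} (h : k < 6 * i + 3) : l0 i k < 6 * (i + 1) + 3 := by
  rcases Nat.eq_zero_or_pos i with rfl | hi
  · rw [l0_null]
    omega
  · rw [l0_pos hi, tau_eq]
    have h1 := ind_le i k
    have h2 := ind_le (2 * i) k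
    have h3 := ind_le (3 * i + 1) k
    have h4 := ind_le (4 * i + 1) k
    have h5 := ind_le (5 * i + 2) k
    have h6 := ind_le (6 * i + 2) k
    omega

theorem l0_turn {i k k' : ℕ} (h1 : 1 ≤ i) (h : k < 6 * i + 3) (ht : l0 i (k + 1) = l0 i k + 2)
    (hk' : k' < 6 * (i - 1) + 3) : l0 (i - 1) k' ≠ k := by
  rw [l0_succ h1] at ht
  have hk : k = i ∨ k = 2 * i ∨ k = 3 * i + 1 ∨ k = 4 * i + 1 ∨ k = 5 * i + 2 ∨
      k = 6 * i + 2 := by
    have := te_cases h1 k
    omega
  obtain ⟨n, rfl⟩ : ∃ n, i = n + 1 := ⟨i - 1, by omega⟩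
  rw [Nat.add_sub_cancel] at hk' ⊢
  rcases Nat.eq_zero_or_pos n with rfl | hn
  · rw [l0_null]
    omega
  · rw [l0_pos hn, tau_eq]
    have e1 := ind_cases n k'
    have e2 := ind_cases (2 * n) k'
    have e3 := ind_cases (3 * n + 1) k'
    have e4 := ind_cases (4 * n + 1) k'
    have e5 := ind_cases (5 * n + 2) k'
    have e6 := ind_cases (6 * n + 2) k'
    rcases hk with hk | hk | hk | hk | hk | hk
    · rcases e1 with e1 | e1
      · omega
      · have := ind_zero (r := 2 * n) (k := k') (by omega)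
        have := ind_zero (r := 3 * n + 1) (k := k') (by omega)
        have := ind_zero (r := 4 * n + 1) (k := k') (by omega)
        have := ind_zero (r := 5 * n + 2) (k := k') (by omega)
        have := ind_zero (r := 6 * n + 2) (k := k') (by omega)
        omega
    · rcases e2 with e2 | e2
      · have := ind_one (r := n) (k := k') (by omega)
        omega
      · have := ind_le n k'
        have := ind_zero (r := 3 * n + 1) (k := k') (by omega)
        have := ind_zero (r := 4 * n + 1) (k := k') (by omega)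
        have := ind_zero (r := 5 * n + 2) (k := k') (by omega)
        have := ind_zero (r := 6 * n + 2) (k := k') (by omega)
        omega
    · rcases e3 with e3 | e3
      · have := ind_one (r := n) (k := k') (by omega)
        have := ind_one (r := 2 * n) (k := k') (by omega)
        omega
      · have := ind_le n k'
        have := ind_le (2 * n) k'
        have := ind_zero (r := 4 * n + 1) (k := k') (by omega)
        have := ind_zero (r := 5 * n + 2) (k := k') (by omega)
        have := ind_zero (r := 6 * n + 2) (k := k') (by omega)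
        omega
    · rcases e4 with e4 | e4
      · have := ind_one (r := n) (k := k') (by omega)
        have := ind_one (r := 2 * n) (k := k') (by omega)
        have := ind_one (r := 3 * n + 1) (k := k') (by omega)
        omega
      · have := ind_le n k'
        have := ind_le (2 * n) k'
        have := ind_le (3 * n + 1) k'
        have := ind_zero (r := 5 * n + 2) (k := k') (by omega)
        have := ind_zero (r := 6 * n + 2) (k := k') (by omega)
        omega
    · rcases e5 with e5 | e5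
      · have := ind_one (r := n) (k := k') (by omega)
        have := ind_one (r := 2 * n) (k := k') (by omega)
        have := ind_one (r := 3 * n + 1) (k := k') (by omega)
        have := ind_one (r := 4 * n + 1) (k := k') (by omega)
        omega
      · have := ind_le n k'
        have := ind_le (2 * n) k'
        have := ind_le (3 * n + 1) k'
        have := ind_le (4 * n + 1) k'
        have := ind_zero (r := 6 * n + 2) (k := k') (by omega)
        omega
    · have h1' := ind_le n k'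
      have h2' := ind_le (2 * n) k'
      have h3' := ind_le (3 * n + 1) k'
      have h4' := ind_le (4 * n + 1) k'
      have h5' := ind_le (5 * n + 2) k'
      have h6' := ind_zero (r := 6 * n + 2) (k := k') (by omega)
      omega

theorem lz_eq (i : ℕ) (q : ℤ) (k : ℕ) (h : k ≤ 6 * i + 3) :
    lz i ((6 * (i : ℤ) + 3) * q + k) = (6 * ((i : ℤ) + 1) + 3) * q + l0 i k := by
  have hW : (0 : ℤ) < 6 * (i : ℤ) + 3 := by positivity
  rcases Nat.lt_or_ge k (6 * i + 3) with hk | hk
  · have hk' : (k : ℤ) < 6 * (i : ℤ) + 3 := by exact_mod_cast hk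
    have hd : ((6 * (i : ℤ) + 3) * q + k) / (6 * (i : ℤ) + 3) = q := by
      rw [Int.mul_add_ediv_left _ _ hW.ne', Int.ediv_eq_zero_of_lt (by positivity) hk', add_zero]
    have hm : ((6 * (i : ℤ) + 3) * q + k) % (6 * (i : ℤ) + 3) = k := by
      rw [Int.mul_add_emod_self_left, Int.emod_eq_of_lt (by positivity) hk']
    unfold lz
    rw [hd, hm, Int.toNat_natCast]
  · obtain rfl : k = 6 * i + 3 := le_antisymm h hk
    have hd : ((6 * (i : ℤ) + 3) * q + ((6 * i + 3 : ℕ) : ℤ)) / (6 * (i : ℤ) + 3) = q + 1 := by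
      push_cast
      rw [Int.mul_add_ediv_left _ _ hW.ne', Int.ediv_self hW.ne']
    have hm : ((6 * (i : ℤ) + 3) * q + ((6 * i + 3 : ℕ) : ℤ)) % (6 * (i : ℤ) + 3) = 0 := by
      push_cast
      rw [Int.mul_add_emod_self_left, Int.emod_self]
    unfold lz
    rw [hd, hm, Int.toNat_zero, l0_zero, l0_top]
    push_cast
    ring

theorem G3iAux.exists_rep (i : ℕ) (k : ℤ) : ∃ (q : ℤ) (k0 : ℕ), k0 < 6 * i + 3 ∧
    k = (6 * (i : ℤ) + 3) * q + k0 := by
  have hW : (0 : ℤ) < 6 * (i : ℤ) + 3 := by positivity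
  refine ⟨k / (6 * (i : ℤ) + 3), (k % (6 * (i : ℤ) + 3)).toNat, ?_, ?_⟩
  · have h1 := Int.emod_lt_of_pos k hW
    have h2 := Int.emod_nonneg k hW.ne'
    omega
  · have h2 := Int.emod_nonneg k hW.ne'
    rw [Int.toNat_of_nonneg h2]
    exact (Int.mul_ediv_add_emod k _).symm

theorem lz_mono (i : ℕ) (k : ℤ) : lz i k < lz i (k + 1) := by
  obtain ⟨q, k0, hk0, rfl⟩ := exists_rep i k
  have h1 := lz_eq i q k0 hk0.le
  have h2 := lz_eq i q (k0 + 1) hk0
  push_cast at h2
  rw [← add_assoc] at h2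
  rw [h1, h2]
  have h3 := l0_mono hk0
  omega

theorem lz_per (i : ℕ) (k : ℤ) : lz i (k + (6 * (i : ℤ) + 3)) = lz i k + (6 * ((i : ℤ) + 1) + 3) := by
  obtain ⟨q, k0, hk0, rfl⟩ := exists_rep i k
  have h1 := lz_eq i q k0 hk0.le
  have h2 := lz_eq i (q + 1) k0 hk0.le
  have h3 : (6 * (i : ℤ) + 3) * q + k0 + (6 * (i : ℤ) + 3) = (6 * (i : ℤ) + 3) * (q + 1) + k0 := by
    ring
  rw [h3, h1, h2]
  ring

theorem lz_zero (k : ℤ) : lz 0 (k + 1) = lz 0 k + 3 := by
  obtain ⟨q, k0, hk0, rfl⟩ := exists_rep 0 k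
  have h1 := lz_eq 0 q k0 hk0.le
  have h2 := lz_eq 0 q (k0 + 1) hk0
  rw [Nat.cast_add, Nat.cast_one, ← add_assoc] at h2
  rw [h1, h2, l0_null, l0_null]
  push_cast
  ring

theorem lz_turn (i : ℕ) (k : ℤ) (h1 : 1 ≤ i) : lz i (k + 1) ≤ lz i k + 2 ∧
    (lz i (k + 1) = lz i k + 2 → ∀ k', lz (i - 1) k' ≠ k) := by
  obtain ⟨q, k0, hk0, rfl⟩ := exists_rep i k
  have e1 := lz_eq i q k0 hk0.le
  have e2 := lz_eq i q (k0 + 1) hk0
  push_cast at e2
  rw [← add_assoc] at e2
  rw [e1, e2]
  have h3 := l0_le h1 hk0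
  refine ⟨by omega, ?_⟩
  intro h4 k' h5
  have h6 : l0 i (k0 + 1) = l0 i k0 + 2 := by omega
  obtain ⟨q', k1, hk1, rfl⟩ := exists_rep (i - 1) k'
  have e3 := lz_eq (i - 1) q' k1 hk1.le
  rw [e3] at h5
  have h7 := l0_turn h1 hk0 h6 hk1
  have h8 : l0 (i - 1) k1 < 6 * (i - 1 + 1) + 3 := l0_lt hk1
  have h9 : i - 1 + 1 = i := by omega
  rw [h9] at h8
  have h10 : ((i - 1 : ℕ) : ℤ) + 1 = i := by omega
  rw [h10] at h5
  -- uniqueness of division with remainder
  have h11 : (l0 (i - 1) k1 : ℤ) = k0 := by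
    have ha : ((6 * (i : ℤ) + 3) * q' + (l0 (i - 1) k1 : ℤ)) % (6 * (i : ℤ) + 3) =
        (l0 (i - 1) k1 : ℤ) := by
      rw [Int.mul_add_emod_self_left, Int.emod_eq_of_lt (by positivity) (by omega)]
    have hb : ((6 * (i : ℤ) + 3) * q + (k0 : ℤ)) % (6 * (i : ℤ) + 3) = k0 := by
      rw [Int.mul_add_emod_self_left, Int.emod_eq_of_lt (by positivity) (by omega)]
    rw [← ha, ← hb, h5]
  exact h7 (by exact_mod_cast h11)

end Pool.Agent.Helper70.MD
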