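import Pool.Agent.Helper70.MD.G3b
import Pool.Agent.Helper70.MD.G3i

/-!
MD-G3d: the faces between the lower rings, `1 ≤ i < i0`, without top points.

All abscissas are in `[-108 nu, Rc nu]`, so differences are at most `Xm = nu (Rc + 108)` in absolute
value. `lv st i k = Lam i` (`md i = 0`), `Lam (i+1) = Lam i + 4 Xm^2` (`Lam_low`), and
`lv st (i+1) e = Lam (i+1) + δ e`, `δ e ∈ {0, 864 nu^2}` (nonzero only if `i + 1 = i0`).
`lowU`: with `x1 = xv (i+1) (e+1)`, `x2 = xv (i+1) e`, `x3 = xv i k`, `a = x1 - x2 > 0`: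
`ori = a (4 Xm^2 + δ1 - (x3 - x1)(x3 - x2)) - (x3 - x1)(δ2 - δ1)`. If `δ1 = δ2` this is at least
`a * 3 Xm^2 > 0`. If `δ1 ≠ δ2` then `e`, `e+1` are both in the middle part of ring `i0` (deep vertices have
middle index `3 ≤ j < Xr + 3`), so `a ≥ nu`, and `ori ≥ 3 nu Xm^2 - 864 nu^2 Xm > 0` because
`Xm = nu (24 Xr + 216) ≥ 792 nu`.
`lowL`: `x1 = xv i k`, `x2 = xv i (k+1)`, `x3 = xv (i+1) e`:
`ori = (x2 - x1) ((x3 - x1)(x3 - x2) + 4 Xm^2 + δ) > 0`.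
-/

set_option autoImplicit false

namespace Pool.Agent.Helper70.MD

open Finset

open scoped Classical

namespace Tab

variable {τ : Tab} {st : ℕ → ℕ → St}

theorem g3d_lv (i k : ℕ) : τ.lv st i k = τ.Lam i ∨
    (τ.K i + 4 ≤ k ∧ k < τ.K i + τ.Xr + 4 ∧ τ.md i ≠ 0 ∧ (i - τ.i0) % 2 = 0 ∧
      τ.lv st i k = τ.Lam i + τ.nu ^ 2 * 864) := by
  unfold lv
  split_ifs with h
  · obtain ⟨h1, h2, h3⟩ := h
    unfold dlm
    split_ifs with h4
    · rcases hs : st ((i - τ.i0) / 2) (k - τ.K i - 1 - 3) with _ | _ | _ | _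
      · left; simp [St.dl]
      · left; simp [St.dl]
      · right
        refine ⟨by omega, by omega, by omega, h3, ?_⟩
        simp [St.dl]
      · left; simp [St.dl]
    · left
      rw [mul_zero, add_zero]
  · left; rfl

theorem g3d_lv_low {i k : ℕ} (hi : i < τ.i0) : τ.lv st i k = τ.Lam i := by
  rcases g3d_lv (τ := τ) (st := st) i k with h | ⟨_, _, h, _⟩
  · exact h
  · exfalso
    apply h
    unfold md
    rw [if_pos hi]

theorem g3d_xv_diff (hg : τ.Good) (hs : τ.OkSt st) {i j k e : ℕ} (h1 : 1 ≤ i) (hi : i ≤ τ.M)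
    (h2 : 1 ≤ j) (hj : j ≤ τ.M) (hk : 1 ≤ k) (hk' : k ≤ 6 * i + 2) (he : 1 ≤ e)
    (he' : e ≤ 6 * j + 2) :
    -τ.Xm ≤ τ.xv st i k - τ.xv st j e ∧ τ.xv st i k - τ.xv st j e ≤ τ.Xm := by
  obtain ⟨a1, a2⟩ := xv_bounds hg hs h1 hi hk hk'
  obtain ⟨b1, b2⟩ := xv_bounds hg hs h2 hj he he'
  have hX : τ.Xm = τ.Rc * τ.nu + 108 * τ.nu := by unfold Xm; ring
  constructor <;> linarith

theorem g3d_prod {X u v : ℤ} (h1 : -X ≤ u) (h2 : u ≤ X) (h3 : -X ≤ v) (h4 : v ≤ X) :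
    -(X ^ 2) ≤ u * v ∧ u * v ≤ X ^ 2 := by
  have h0 : 0 ≤ X := by linarith
  have hu : |u| ≤ X := abs_le.mpr ⟨h1, h2⟩
  have hv : |v| ≤ X := abs_le.mpr ⟨h3, h4⟩
  have h5 : |u * v| ≤ X * X := by
    rw [abs_mul]
    exact mul_le_mul hu hv (abs_nonneg _) h0
  obtain ⟨h6, h7⟩ := abs_le.mp h5
  constructor <;> nlinarith

theorem lowU (hg : τ.Good) (hs : τ.OkSt st) {i k e : ℕ} (h1 : 1 ≤ i) (hi : i < τ.i0)
    (hk : 1 ≤ k) (hk' : k ≤ 6 * i + 2) (he : 1 ≤ e) (he' : e + 1 ≤ 6 * (i + 1) + 2) :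
    0 < ori (τ.xv st (i + 1) (e + 1)) (τ.lv st (i + 1) (e + 1)) (τ.xv st (i + 1) e)
      (τ.lv st (i + 1) e) (τ.xv st i k) (τ.lv st i k) := by
  have hM : i + 1 ≤ τ.M := by unfold M; omega
  have hmono := xv_mono hg hs (i := i + 1) (by omega) hM he (by omega)
  have d1 := g3d_xv_diff hg hs (i := i) (j := i + 1) (k := k) (e := e + 1) h1 (by omega)
    (by omega) hM hk hk' (by omega) he'
  have d2 := g3d_xv_diff hg hs (i := i) (j := i + 1) (k := k) (e := e) h1 (by omega)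
    (by omega) hM hk hk' he (by omega)
  have hp := g3d_prod d1.1 d1.2 d2.1 d2.2
  have hXm := Xm_pos (τ := τ)
  have hnu := nu_pos (τ := τ)
  have hl3 : τ.lv st i k = τ.Lam i := g3d_lv_low hi
  have hL := Lam_low hi
  rw [hl3]
  -- the key inequality
  have hkey : ∀ D1 D2 : ℤ, 0 ≤ D1 → τ.lv st (i + 1) (e + 1) = τ.Lam (i + 1) + D1 →
      τ.lv st (i + 1) e = τ.Lam (i + 1) + D2 →
      (D1 = D2 ∨ (|D2 - D1| ≤ 864 * τ.nu ^ 2 ∧ τ.xv st (i + 1) e + τ.nu ≤ τ.xv st (i + 1) (e + 1))) →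
      0 < ori (τ.xv st (i + 1) (e + 1)) (τ.lv st (i + 1) (e + 1)) (τ.xv st (i + 1) e)
        (τ.lv st (i + 1) e) (τ.xv st i k) (τ.Lam i) := by
    intro D1 D2 hD1 e1 e2 hor
    rw [e1, e2, hL]
    set x1 := τ.xv st (i + 1) (e + 1)
    set x2 := τ.xv st (i + 1) e
    set x3 := τ.xv st i k
    have hexp : ori x1 (τ.Lam i + 4 * τ.Xm ^ 2 + D1) x2 (τ.Lam i + 4 * τ.Xm ^ 2 + D2) x3 (τ.Lam i) =
        (x1 - x2) * (4 * τ.Xm ^ 2 + D1 - (x3 - x1) * (x3 - x2)) - (x3 - x1) * (D2 - D1) := by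
      unfold ori; ring
    rw [hexp]
    have ha : 1 ≤ x1 - x2 := by linarith
    have hq : 3 * τ.Xm ^ 2 ≤ 4 * τ.Xm ^ 2 + D1 - (x3 - x1) * (x3 - x2) := by linarith [hp.2]
    rcases hor with h | ⟨h, hgap⟩
    · rw [← h, sub_self, mul_zero, sub_zero]
      have hXm2 : 0 < 3 * τ.Xm ^ 2 := by positivity
      exact mul_pos (by linarith) (by linarith)
    · have hX : τ.Xm = τ.nu * (24 * (τ.Xr : ℤ) + 216) := by unfold Xm Rc; ring
      have hXr : (24 : ℤ) ≤ τ.Xr := by exact_mod_cast hg.Xr_ge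
      have hX2 : 792 * τ.nu ≤ τ.Xm := by rw [hX]; nlinarith
      have h3 : (x3 - x1) * (D2 - D1) ≤ τ.Xm * (864 * τ.nu ^ 2) := by
        have h4 : |(x3 - x1) * (D2 - D1)| ≤ τ.Xm * (864 * τ.nu ^ 2) := by
          rw [abs_mul]
          exact mul_le_mul (abs_le.mpr d1) h (abs_nonneg _) hXm.le
        exact (le_abs_self _).trans h4
      have h5 : τ.nu * (3 * τ.Xm ^ 2) ≤
          (x1 - x2) * (4 * τ.Xm ^ 2 + D1 - (x3 - x1) * (x3 - x2)) :=
        mul_le_mul (by linarith) hq (by positivity) (by linarith)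
      have h6 : τ.Xm * (864 * τ.nu ^ 2) < τ.nu * (3 * τ.Xm ^ 2) := by
        have h7 : 864 * τ.nu < 3 * τ.Xm := by linarith
        have h8 : 0 < τ.nu * τ.Xm := by positivity
        nlinarith [mul_lt_mul_of_pos_left h7 h8]
      linarith
  have hgapf : τ.md (i + 1) ≠ 0 → τ.K (i + 1) < e → e < τ.K (i + 1) + τ.Xr + 5 →
      τ.xv st (i + 1) e + τ.nu ≤ τ.xv st (i + 1) (e + 1) := by
    intro hmd h3 h4
    have hi1 : i + 1 = τ.i0 := by
      by_contra hne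
      apply hmd
      unfold md
      rw [if_pos (by omega)]
    have hmdv : τ.md (i + 1) = τ.Xr + 6 := by
      unfold md
      rw [hi1]
      simp
    have hxe : ∀ f, τ.K (i + 1) < f → f ≤ τ.K (i + 1) + τ.Xr + 6 →
        τ.xv st (i + 1) f = τ.nu * τ.evm st 0 (f - τ.K (i + 1) - 1) := by
      intro f hf1 hf2
      unfold xv
      rw [if_neg (by omega), if_pos (by omega), hi1]
      simp
    rw [hxe e h3 (by omega), hxe (e + 1) (by omega) (by omega)]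
    have h5 := evm_mono hg hs (p := 0) (j := e - τ.K (i + 1) - 1) (Nat.zero_le _) (by omega)
    have h6 : e - τ.K (i + 1) - 1 + 1 = e + 1 - τ.K (i + 1) - 1 := by omega
    rw [h6] at h5
    nlinarith
  rcases g3d_lv (τ := τ) (st := st) (i + 1) (e + 1) with h3 | ⟨h3, h4, h5, h6, h7⟩
  · rcases g3d_lv (τ := τ) (st := st) (i + 1) e with h8 | ⟨h8, h9, h10, h11, h12⟩
    · exact hkey 0 0 le_rfl (by rw [h3, add_zero]) (by rw [h8, add_zero]) (Or.inl rfl)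
    · refine hkey 0 (τ.nu ^ 2 * 864) le_rfl (by rw [h3, add_zero]) h12 (Or.inr ⟨?_, ?_⟩)
      · rw [sub_zero, abs_of_nonneg (by positivity)]
        linarith
      · exact hgapf h10 (by omega) (by omega)
  · rcases g3d_lv (τ := τ) (st := st) (i + 1) e with h8 | ⟨h8, h9, h10, h11, h12⟩
    · refine hkey (τ.nu ^ 2 * 864) 0 (by positivity) h7 (by rw [h8, add_zero]) (Or.inr ⟨?_, ?_⟩)
      · rw [zero_sub, abs_neg, abs_of_nonneg (by positivity)]
        linarith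
      · exact hgapf h5 (by omega) (by omega)
    · exact hkey (τ.nu ^ 2 * 864) (τ.nu ^ 2 * 864) (by positivity) h7 h12 (Or.inl rfl)

theorem lowL (hg : τ.Good) (hs : τ.OkSt st) {i k e : ℕ} (h1 : 1 ≤ i) (hi : i < τ.i0)
    (hk : 1 ≤ k) (hk' : k + 1 ≤ 6 * i + 2) (he : 1 ≤ e) (he' : e ≤ 6 * (i + 1) + 2) :
    0 < ori (τ.xv st i k) (τ.lv st i k) (τ.xv st i (k + 1)) (τ.lv st i (k + 1))
      (τ.xv st (i + 1) e) (τ.lv st (i + 1) e) := by
  have hM : i + 1 ≤ τ.M := by unfold M; omega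
  have hmono := xv_mono hg hs (i := i) (k := k) h1 (by omega) hk (by omega)
  have d1 := g3d_xv_diff hg hs (i := i + 1) (j := i) (k := e) (e := k) (by omega) hM h1
    (by omega) he he' hk (by omega)
  have d2 := g3d_xv_diff hg hs (i := i + 1) (j := i) (k := e) (e := k + 1) (by omega) hM h1
    (by omega) he he' (by omega) (by omega)
  have hp := g3d_prod d1.1 d1.2 d2.1 d2.2
  have hXm := Xm_pos (τ := τ)
  have hL := Lam_low hi
  rw [g3d_lv_low hi, g3d_lv_low hi]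
  have hd : ∃ D : ℤ, 0 ≤ D ∧ τ.lv st (i + 1) e = τ.Lam (i + 1) + D := by
    rcases g3d_lv (τ := τ) (st := st) (i + 1) e with h | ⟨_, _, _, _, h⟩
    · exact ⟨0, le_rfl, by rw [h, add_zero]⟩
    · exact ⟨τ.nu ^ 2 * 864, mul_nonneg (sq_nonneg _) (by norm_num), h⟩
  obtain ⟨D, hD, hDe⟩ := hd
  rw [hDe, hL]
  set x1 := τ.xv st i k
  set x2 := τ.xv st i (k + 1)
  set x3 := τ.xv st (i + 1) e
  have hexp : ori x1 (τ.Lam i) x2 (τ.Lam i) x3 (τ.Lam i + 4 * τ.Xm ^ 2 + D) =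
      (x2 - x1) * ((x3 - x1) * (x3 - x2) + (4 * τ.Xm ^ 2 + D)) := by
    unfold ori; ring
  rw [hexp]
  have hXm2 : 0 < τ.Xm ^ 2 := by positivity
  exact mul_pos (by linarith) (by linarith [hp.1])

end Tab

end Pool.Agent.Helper70.MD
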