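import Pool.Agent.Helper70.MD.G3b
import Pool.Agent.Helper70.MD.G3c
import Pool.Agent.Helper70.MD.G3i

/-!
MD-G3e: the faces between an even ring `i = i0 + 2 p` and the next odd ring, without top points.

Notation: `i ≥ i0`, `K = K i`, `K' = K (i+1)`, `m = md i`, `m' = md (i+1)`. Facts (`omega` after
unfolding, `i = i0 + 2 p` or `i0 + 2 p + 1`, `i0 = Xr + 8`): `2 i ≤ K`, `K + m ≤ 3 i - 2`, so
`tau i k ≤ 2` for `k ≤ 3 i + 1` and `tau i k ≥ 2` for `k > 2 i`, in particular for
`K < k ≤ K + m + 1` we have `l0 i k = k + 2`; for even rings (`i = i0 + 2 p`) `m = Xr + 6`, `m' = Xr + 5`,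
`K' = K + 3`, for odd rings (`i = i0 + 2 p + 1`) `m = Xr + 5`, `m' = Xr + 6`, `K' = K + 2`. In units of `nu`
the left cluster abscissas (`k ≤ K`) are in `[-108, -107.9]`, the right cluster ones (`k > K + m`) in
`[Rc - 0.1, Rc]`, `Rc = 24 Xr + 108` (E1: `left_bounds`, `right_bounds`).
Basic formula when the two ring neighbours have the same level:
U: `ori x1 l x2 l x3 l3 = (x2 - x1)((x3 - x1)(x3 - x2) + (l3 - l))`, `x2 < x1`, `l - l3 = Δ`: positive iff
`(x3 - x1)(x3 - x2) < Δ`; L: `x1 < x2`, `l3 - l = Δ`: positive iff `(x3 - x1)(x3 - x2) + Δ > 0`.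

Here `Δ = 864 nu^2` (`Lam_even`, `Lam_odd`), minus `864 nu^2` if the vertex of the even ring is deep.
`evenU`: apex `k` of layer `i`, edge `(e, e+1)` of layer `i+1`, `l0 i k ≤ e < l0 i (k+1)`.
`k ≤ K`: `e + 1 ≤ l0 i (k+1) ≤ k + 3 ≤ K'` (`tau i (k+1) ≤ 2`), all three in the left clusters:
`(x3 - x1)(x3 - x2) ≤ (0.1 nu)^2`. `K < k ≤ K + m`: `e = k + 2`, middle index `j = k - K - 1`, and
`e` has middle index `j - 1` in layer `i+1`: for `1 ≤ j ≤ Xr + 4` this is `int1` (scaled by `ori_scale`,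
`Lam_even`, `Lam_odd`). `j = 0`: `x3 = -90 nu`, `x1 = -72 nu`, `x2` the last point of the left cluster:
`(x3 - x1)(x3 - x2) < 0`. `j = Xr + 5`: `x3 = (24 Xr + 90) nu`, `x2 = (24 Xr + 72) nu`, `x1` the
first point of the right cluster: negative product. `k > K + m`: `e ≥ k + 2 ≥ K + m + 3 > K' + m'`: all in the
right clusters.
`evenL`: `(k, k+1)` of layer `i`, `e = l0 i (k+1)` of layer `i+1`. `k < K`: `e ≤ k + 3 ≤ K'`, left clusters.
`k = K`: `x1` last left, `x2 = -90 nu`, `e = K + 3 = K'`, `x3` last left of layer `i+1`: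
`(x3 - x1)(x3 - x2) ≥ -0.1 * 18.1 nu^2`. `K < k < K + m`: middle index `j = k - K - 1`, `e = k + 3` has
middle index `j`: `int2`. `k = K + m`: `x1 = (24 Xr + 90) nu`, `x2` first right, `e = k + 3 = K' + m' + 1`:
`x3` first right of layer `i+1`: product `≥ -1.9 nu^2`. `k > K + m`: all in the right clusters
(`e ≥ k + 3`).
-/

set_option autoImplicit false

namespace Pool.Agent.Helper70.MD

open Finset

open scoped Classical

namespace Tab

variable {τ : Tab} {st : ℕ → ℕ → St}

theorem g3e_facts {i p : ℕ} (hi : i = τ.i0 + 2 * p) :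
    τ.K i = 2 * τ.i0 + 5 * p ∧ τ.md i = τ.Xr + 6 ∧ τ.K (i + 1) = 2 * τ.i0 + 5 * p + 3 ∧
      τ.md (i + 1) = τ.Xr + 5 ∧ (i - τ.i0) % 2 = 0 ∧ (i - τ.i0) / 2 = p ∧
      (i + 1 - τ.i0) % 2 = 1 ∧ (i + 1 - τ.i0) / 2 = p := by
  have h1 : (i - τ.i0) % 2 = 0 := by omega
  have h2 : (i + 1 - τ.i0) % 2 = 1 := by omega
  refine ⟨?_, ?_, ?_, ?_, h1, by omega, h2, by omega⟩
  · unfold K
    rw [if_neg (by omega)]
    omega
  · unfold md
    rw [if_neg (by omega), if_pos h1]
  · unfold K
    rw [if_neg (by omega)]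
    omega
  · unfold md
    rw [if_neg (by omega), if_neg (by omega)]

theorem g3e_l0_eq {i k : ℕ} (h1 : 1 ≤ i) (h : 2 * i < k) (h' : k ≤ 3 * i + 1) :
    l0 i k = k + 2 := by
  unfold l0 tau
  rw [if_neg (by omega), if_pos (by omega), if_pos h, if_neg (by omega), if_neg (by omega),
    if_neg (by omega), if_neg (by omega)]

theorem g3e_l0_ge {i k : ℕ} (h1 : 1 ≤ i) (h : 2 * i < k) : k + 2 ≤ l0 i k := by
  unfold l0 tau
  rw [if_neg (by omega), if_pos (by omega : i < k), if_pos h]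
  omega

theorem g3e_l0_le {i k : ℕ} (h1 : 1 ≤ i) (h' : k ≤ 3 * i + 1) : l0 i k ≤ k + 2 := by
  unfold l0 tau
  rw [if_neg (by omega), if_neg (by omega : ¬ 3 * i + 1 < k), if_neg (by omega : ¬ 4 * i + 1 < k),
    if_neg (by omega : ¬ 5 * i + 2 < k), if_neg (by omega : ¬ 6 * i + 2 < k)]
  split_ifs <;> omega

theorem g3e_left {i k : ℕ} (hi : i ≤ τ.M) (hk : 1 ≤ k) (hk' : k ≤ τ.K i) :
    -108 * τ.nu ≤ τ.xv st i k ∧ 10 * (τ.xv st i k + 108 * τ.nu) ≤ τ.nu := by
  obtain ⟨h1, h2⟩ := left_bounds (τ := τ) (i := i) (k := k - 1) hi (by omega)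
  have h3 : ((k - 1 : ℕ) : ℤ) = (k : ℤ) - 1 := by omega
  rw [h3] at h1 h2
  unfold xv
  rw [if_pos hk']
  exact ⟨h1, h2⟩

theorem g3e_right {i k : ℕ} (h1 : 1 ≤ i) (hi : i ≤ τ.M) (hk : τ.K i + τ.md i < k)
    (hk' : k ≤ 6 * i + 2) :
    τ.xv st i k ≤ τ.Rc * τ.nu ∧ 10 * (τ.Rc * τ.nu - τ.xv st i k) ≤ τ.nu := by
  have h0 := K_md_le (τ := τ) h1
  obtain ⟨h3, h4⟩ := right_bounds (τ := τ) (i := i) (t := 6 * i + 2 - k) h1 hi (by omega)
  have h5 : ((6 * i + 2 - k : ℕ) : ℤ) = 6 * (i : ℤ) + 2 - k := by omega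
  rw [h5] at h3 h4
  unfold xv
  rw [if_neg (by omega), if_neg (by omega)]
  exact ⟨h3, h4⟩

theorem g3e_lv_odd {i k p : ℕ} (hi : i = τ.i0 + 2 * p) :
    τ.lv st (i + 1) k = τ.Lam i + τ.nu ^ 2 * 864 := by
  unfold lv
  rw [if_neg (by omega), hi, Lam_odd, Lam_even]
  ring

theorem g3e_lv_out {i k : ℕ} (h : k ≤ τ.K i ∨ τ.K i + τ.md i < k) :
    τ.lv st i k = τ.Lam i := by
  unfold lv
  rw [if_neg (by omega)]

theorem g3e_lv_mid {i k p : ℕ} (hi : i = τ.i0 + 2 * p) (h : τ.K i < k)
    (h' : k ≤ τ.K i + τ.md i) :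
    τ.lv st i k = τ.Lam i + τ.nu ^ 2 * τ.dlm st p (k - τ.K i - 1) := by
  obtain ⟨a1, a2, a3, a4, a5, a6, a7, a8⟩ := g3e_facts hi
  unfold lv
  rw [if_pos ⟨h, h', a5⟩, a6]

theorem g3e_xv_even {i k p : ℕ} (hi : i = τ.i0 + 2 * p) (h : τ.K i < k)
    (h' : k ≤ τ.K i + τ.md i) :
    τ.xv st i k = τ.nu * τ.evm st p (k - τ.K i - 1) := by
  obtain ⟨a1, a2, a3, a4, a5, a6, a7, a8⟩ := g3e_facts hi
  unfold xv
  rw [if_neg (by omega), if_pos h', if_pos a5, a6]

theorem g3e_xv_odd {i k p : ℕ} (hi : i = τ.i0 + 2 * p) (h : τ.K (i + 1) < k)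
    (h' : k ≤ τ.K (i + 1) + τ.md (i + 1)) :
    τ.xv st (i + 1) k = τ.nu * τ.odm st p (k - τ.K (i + 1) - 1) := by
  obtain ⟨a1, a2, a3, a4, a5, a6, a7, a8⟩ := g3e_facts hi
  unfold xv
  rw [if_neg (by omega), if_pos h', if_neg (by omega), a8]

theorem g3e_dlm_left (p j : ℕ) (h : j < 3) : τ.dlm st p j = 0 := by
  unfold dlm
  rw [if_neg (by omega)]

theorem g3e_dlm_right (p j : ℕ) (h : τ.Xr + 3 ≤ j) : τ.dlm st p j = 0 := by
  unfold dlm
  rw [if_neg (by omega)]

theorem g3e_evm_zero (p : ℕ) : τ.evm st p 0 = -90 := by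
  unfold evm
  rw [if_pos rfl]

theorem g3e_evm_last (p j : ℕ) (h : j = τ.Xr + 5) : τ.evm st p j = 24 * τ.Xr + 90 := by
  unfold evm
  rw [if_neg (by omega), if_neg (by omega), if_neg (by omega), if_neg (by omega),
    if_neg (by omega), if_neg (by omega)]

theorem g3e_odm_zero (p : ℕ) : τ.odm st p 0 = -72 := by
  unfold odm
  rw [if_pos rfl]

theorem g3e_odm_last (p j : ℕ) (h : j = τ.Xr + 4) : τ.odm st p j = 24 * τ.Xr + 72 := by
  unfold odm
  rw [if_neg (by omega), if_neg (by omega), if_neg (by omega), if_neg (by omega)]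

theorem g3e_U {x1 x2 x3 l n : ℤ} (h : x2 < x1) (hc : (x3 - x1) * (x3 - x2) < n ^ 2 * 864) :
    0 < ori x1 (l + n ^ 2 * 864) x2 (l + n ^ 2 * 864) x3 l := by
  have hexp : ori x1 (l + n ^ 2 * 864) x2 (l + n ^ 2 * 864) x3 l =
      (x1 - x2) * (n ^ 2 * 864 - (x3 - x1) * (x3 - x2)) := by
    unfold ori; ring
  rw [hexp]
  exact mul_pos (by linarith) (by linarith)

theorem g3e_L {x1 x2 x3 l n : ℤ} (h : x1 < x2) (hc : -(n ^ 2 * 864) < (x3 - x1) * (x3 - x2)) :
    0 < ori x1 l x2 l x3 (l + n ^ 2 * 864) := by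
  have hexp : ori x1 l x2 l x3 (l + n ^ 2 * 864) =
      (x2 - x1) * ((x3 - x1) * (x3 - x2) + n ^ 2 * 864) := by
    unfold ori; ring
  rw [hexp]
  exact mul_pos (by linarith) (by linarith)

/-- small differences -/
theorem g3e_small {u v n : ℤ} (hn : 0 < n) (h1 : -n ≤ u) (h2 : u ≤ n) (h3 : -(20 * n) ≤ v)
    (h4 : v ≤ 20 * n) : -(n ^ 2 * 864) < u * v ∧ u * v < n ^ 2 * 864 := by
  have hu : |u| ≤ n := abs_le.mpr ⟨h1, h2⟩
  have hv : |v| ≤ 20 * n := abs_le.mpr ⟨h3, h4⟩
  have h5 : |u * v| ≤ n * (20 * n) := by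
    rw [abs_mul]
    exact mul_le_mul hu hv (abs_nonneg _) hn.le
  obtain ⟨h6, h7⟩ := abs_le.mp h5
  have h8 : 0 < n ^ 2 := by positivity
  constructor <;> nlinarith

theorem evenU (hg : τ.Good) (hs : τ.OkSt st) {i k e p : ℕ} (hp : p < τ.P) (hi : i = τ.i0 + 2 * p)
    (hk : 1 ≤ k) (hk' : k ≤ 6 * i + 2) (he : l0 i k ≤ e) (he2 : e < l0 i (k + 1))
    (he' : e + 1 ≤ 6 * (i + 1) + 2) :
    0 < ori (τ.xv st (i + 1) (e + 1)) (τ.lv st (i + 1) (e + 1)) (τ.xv st (i + 1) e)
      (τ.lv st (i + 1) e) (τ.xv st i k) (τ.lv st i k) := by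
  obtain ⟨a1, a2, a3, a4, a5, a6, a7, a8⟩ := g3e_facts hi
  have hi0 : τ.i0 = τ.Xr + 8 := rfl
  have hM : i + 1 ≤ τ.M := by unfold M; omega
  have h1i : 1 ≤ i := by omega
  have hnu : (0 : ℤ) < τ.nu := by have := nu_pos (τ := τ); linarith
  have he1 : 1 ≤ e := by
    have : k ≤ l0 i k := by
      unfold l0
      rw [if_neg (by omega)]
      omega
    omega
  have hmono := xv_mono hg hs (i := i + 1) (k := e) (by omega) hM he1 (by omega)
  rw [g3e_lv_odd hi, g3e_lv_odd hi]
  rcases Nat.lt_or_ge (τ.K i) k with hkK | hkK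
  · rcases Nat.lt_or_ge (τ.K i + τ.md i) k with hkm | hkm
    · -- right clusters
      have hge := g3e_l0_ge (i := i) (k := k) h1i (by omega)
      rw [g3e_lv_out (Or.inr hkm)]
      apply g3e_U hmono
      obtain ⟨b1, b2⟩ := g3e_right (τ := τ) (st := st) h1i (by omega) hkm hk'
      obtain ⟨b3, b4⟩ := g3e_right (τ := τ) (st := st) (i := i + 1) (k := e) (by omega) hM
        (by omega) (by omega)
      obtain ⟨b5, b6⟩ := g3e_right (τ := τ) (st := st) (i := i + 1) (k := e + 1) (by omega) hM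
        (by omega) he'
      exact (g3e_small hnu (by linarith) (by linarith) (by linarith) (by linarith)).2
    · -- middle
      have hl1 := g3e_l0_eq (i := i) (k := k) h1i (by omega) (by omega)
      have hl2 := g3e_l0_eq (i := i) (k := k + 1) h1i (by omega) (by omega)
      have hek : e = k + 2 := by omega
      rw [g3e_lv_mid hi hkK hkm, g3e_xv_even hi hkK hkm]
      rcases Nat.eq_zero_or_pos (k - τ.K i - 1) with hj0 | hj0
      · -- first middle vertex
        rw [hj0, g3e_dlm_left p 0 (by norm_num), mul_zero, add_zero, g3e_evm_zero]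
        apply g3e_U hmono
        have b1 := g3e_left (τ := τ) (st := st) (i := i + 1) (k := e) hM he1 (by omega)
        have b2 := g3e_xv_odd (st := st) (k := e + 1) hi (by omega) (by omega)
        have hj1 : e + 1 - τ.K (i + 1) - 1 = 0 := by omega
        rw [hj1, g3e_odm_zero] at b2
        rw [b2]
        have h3 : (τ.nu * -90 - τ.nu * -72) * (τ.nu * -90 - τ.xv st (i + 1) e) ≤ 0 := by
          apply mul_nonpos_of_nonpos_of_nonneg
          · linarith
          · linarith [b1.2]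
        have h4 : 0 < τ.nu ^ 2 * 864 := by positivity
        linarith
      · rcases Nat.lt_or_ge (k - τ.K i - 1) (τ.Xr + 5) with hj5 | hj5
        · -- interior
          have h3 := int1 hg hs (p := p) (j := k - τ.K i - 1) hp hj0 hj5
          rw [g3e_xv_odd (st := st) (k := e + 1) hi (by omega) (by omega),
            g3e_xv_odd (st := st) (k := e) hi (by omega) (by omega)]
          have hj1 : e + 1 - τ.K (i + 1) - 1 = k - τ.K i - 1 := by omega
          have hj2 : e - τ.K (i + 1) - 1 = k - τ.K i - 1 - 1 := by omega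
          rw [hj1, hj2, ori_scale]
          exact mul_pos (by positivity) h3
        · -- last middle vertex
          have hj6 : k - τ.K i - 1 = τ.Xr + 5 := by omega
          rw [g3e_dlm_right p _ (by omega), mul_zero, add_zero, g3e_evm_last p _ hj6]
          apply g3e_U hmono
          have b1 := g3e_right (τ := τ) (st := st) (i := i + 1) (k := e + 1) (by omega) hM
            (by omega) he'
          have b2 := g3e_xv_odd (st := st) (k := e) hi (by omega) (by omega)
          have hj7 : e - τ.K (i + 1) - 1 = τ.Xr + 4 := by omega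
          rw [g3e_odm_last p _ hj7] at b2
          rw [b2]
          have hRc : τ.Rc * τ.nu = τ.nu * (24 * (τ.Xr : ℤ) + 90) + 18 * τ.nu := by
            unfold Rc; ring
          have h3 : (τ.nu * (24 * (τ.Xr : ℤ) + 90) - τ.xv st (i + 1) (e + 1)) *
              (τ.nu * (24 * (τ.Xr : ℤ) + 90) - τ.nu * (24 * (τ.Xr : ℤ) + 72)) ≤ 0 := by
            apply mul_nonpos_of_nonpos_of_nonneg
            · linarith [b1.2]
            · have : τ.nu * (24 * (τ.Xr : ℤ) + 90) - τ.nu * (24 * (τ.Xr : ℤ) + 72) =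
                18 * τ.nu := by ring
              rw [this]
              linarith
          have h4 : 0 < τ.nu ^ 2 * 864 := by positivity
          linarith
  · -- left clusters
    have hle := g3e_l0_le (i := i) (k := k + 1) h1i (by omega)
    rw [g3e_lv_out (Or.inl hkK)]
    apply g3e_U hmono
    obtain ⟨b1, b2⟩ := g3e_left (τ := τ) (st := st) (i := i) (k := k) (by omega) hk hkK
    obtain ⟨b3, b4⟩ := g3e_left (τ := τ) (st := st) (i := i + 1) (k := e) hM he1 (by omega)
    obtain ⟨b5, b6⟩ := g3e_left (τ := τ) (st := st) (i := i + 1) (k := e + 1) hM (by omega)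
      (by omega)
    exact (g3e_small hnu (by linarith) (by linarith) (by linarith) (by linarith)).2

theorem evenL (hg : τ.Good) (hs : τ.OkSt st) {i k e p : ℕ} (hp : p < τ.P) (hi : i = τ.i0 + 2 * p)
    (hk : 1 ≤ k) (hk' : k + 1 ≤ 6 * i + 2) (he : e = l0 i (k + 1)) :
    0 < ori (τ.xv st i k) (τ.lv st i k) (τ.xv st i (k + 1)) (τ.lv st i (k + 1))
      (τ.xv st (i + 1) e) (τ.lv st (i + 1) e) := by
  obtain ⟨a1, a2, a3, a4, a5, a6, a7, a8⟩ := g3e_facts hi
  have hi0 : τ.i0 = τ.Xr + 8 := rfl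
  have hM : i + 1 ≤ τ.M := by unfold M; omega
  have h1i : 1 ≤ i := by omega
  have hnu : (0 : ℤ) < τ.nu := by have := nu_pos (τ := τ); linarith
  have he1 : 1 ≤ e := by
    have : k + 1 ≤ l0 i (k + 1) := by
      unfold l0
      rw [if_neg (by omega)]
      omega
    omega
  have he' : e ≤ 6 * (i + 1) + 2 := by
    have := l0_lt (i := i) (k := k + 1) (by omega)
    omega
  have hmono := xv_mono hg hs (i := i) (k := k) h1i (by omega) hk (by omega)
  rw [g3e_lv_odd hi]
  rcases Nat.lt_or_ge (τ.K i) k with hkK | hkK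
  · rcases Nat.lt_or_ge (τ.K i + τ.md i) k with hkm | hkm
    · -- right clusters
      have hge := g3e_l0_ge (i := i) (k := k + 1) h1i (by omega)
      rw [g3e_lv_out (Or.inr hkm), g3e_lv_out (Or.inr (by omega))]
      apply g3e_L hmono
      obtain ⟨b1, b2⟩ := g3e_right (τ := τ) (st := st) h1i (by omega) hkm (by omega)
      obtain ⟨b3, b4⟩ := g3e_right (τ := τ) (st := st) (i := i) (k := k + 1) h1i (by omega)
        (by omega) hk'
      obtain ⟨b5, b6⟩ := g3e_right (τ := τ) (st := st) (i := i + 1) (k := e) (by omega) hM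
        (by omega) he'
      exact (g3e_small hnu (by linarith) (by linarith) (by linarith) (by linarith)).1
    · have hl := g3e_l0_eq (i := i) (k := k + 1) h1i (by omega) (by omega)
      have hek : e = k + 3 := by omega
      rcases Nat.lt_or_ge k (τ.K i + τ.md i) with hlt | hge
      · -- interior
        have h3 := int2 hg hs (p := p) (j := k - τ.K i - 1) hp (by omega)
        rw [g3e_lv_mid hi hkK hkm, g3e_xv_even hi hkK hkm, g3e_lv_mid hi (by omega) (by omega),
          g3e_xv_even hi (by omega) (by omega),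
          g3e_xv_odd (st := st) (k := e) hi (by omega) (by omega)]
        have hj1 : e - τ.K (i + 1) - 1 = k - τ.K i - 1 := by omega
        have hj2 : k + 1 - τ.K i - 1 = k - τ.K i - 1 + 1 := by omega
        rw [hj1, hj2, ori_scale]
        exact mul_pos (by positivity) h3
      · -- last middle vertex
        have hj6 : k - τ.K i - 1 = τ.Xr + 5 := by omega
        have b0 := g3e_xv_even (st := st) hi hkK hkm
        rw [g3e_evm_last p _ hj6] at b0
        rw [g3e_lv_mid hi hkK hkm, g3e_dlm_right p _ (by omega), mul_zero, add_zero,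
          g3e_lv_out (Or.inr (by omega))]
        apply g3e_L hmono
        rw [b0]
        obtain ⟨b3, b4⟩ := g3e_right (τ := τ) (st := st) (i := i) (k := k + 1) h1i (by omega)
          (by omega) hk'
        obtain ⟨b5, b6⟩ := g3e_right (τ := τ) (st := st) (i := i + 1) (k := e) (by omega) hM
          (by omega) he'
        have hRc : τ.Rc * τ.nu = τ.nu * (24 * (τ.Xr : ℤ) + 90) + 18 * τ.nu := by
          unfold Rc; ring
        have h9 := (g3e_small (u := τ.xv st (i + 1) e - τ.xv st i (k + 1))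
          (v := τ.xv st (i + 1) e - τ.nu * (24 * (τ.Xr : ℤ) + 90)) hnu (by linarith)
          (by linarith) (by linarith) (by linarith)).1
        rw [mul_comm (τ.xv st (i + 1) e - τ.xv st i (k + 1))] at h9
        exact h9
  · rcases Nat.lt_or_ge k (τ.K i) with hlt | hge
    · -- left clusters
      have hle := g3e_l0_le (i := i) (k := k + 1) h1i (by omega)
      rw [g3e_lv_out (Or.inl hkK), g3e_lv_out (Or.inl (by omega))]
      apply g3e_L hmono
      obtain ⟨b1, b2⟩ := g3e_left (τ := τ) (st := st) (i := i) (k := k) (by omega) hk hkK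
      obtain ⟨b3, b4⟩ := g3e_left (τ := τ) (st := st) (i := i) (k := k + 1) (by omega) (by omega)
        (by omega)
      obtain ⟨b5, b6⟩ := g3e_left (τ := τ) (st := st) (i := i + 1) (k := e) hM he1 (by omega)
      exact (g3e_small hnu (by linarith) (by linarith) (by linarith) (by linarith)).1
    · -- the last left vertex
      have hkeq : k = τ.K i := by omega
      have hl := g3e_l0_eq (i := i) (k := k + 1) h1i (by omega) (by omega)
      have b0 := g3e_xv_even (st := st) (k := k + 1) hi (by omega) (by omega)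
      have hj : k + 1 - τ.K i - 1 = 0 := by omega
      rw [hj, g3e_evm_zero] at b0
      rw [g3e_lv_out (Or.inl hkK), g3e_lv_mid hi (by omega) (by omega), hj,
        g3e_dlm_left p 0 (by norm_num), mul_zero, add_zero]
      apply g3e_L hmono
      rw [b0]
      obtain ⟨b1, b2⟩ := g3e_left (τ := τ) (st := st) (i := i) (k := k) (by omega) hk hkK
      obtain ⟨b5, b6⟩ := g3e_left (τ := τ) (st := st) (i := i + 1) (k := e) hM he1 (by omega)
      exact (g3e_small hnu (by linarith) (by linarith) (by linarith) (by linarith)).1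

end Tab

end Pool.Agent.Helper70.MD
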