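import Pool.Agent.Helper70.MD.G3b
import Pool.Agent.Helper70.MD.G3c
import Pool.Agent.Helper70.MD.G3i

/-!
MD-G3f: the faces between an odd ring `i = i0 + 2 p + 1` and the next even ring, without top points.

Notation: `i ≥ i0`, `K = K i`, `K' = K (i+1)`, `m = md i`, `m' = md (i+1)`. Facts (`omega` after
unfolding, `i = i0 + 2 p` or `i0 + 2 p + 1`, `i0 = Xr + 8`): `2 i ≤ K`, `K + m ≤ 3 i - 2`, so
`tau i k ≤ 2` for `k ≤ 3 i + 1` and `tau i k ≥ 2` for `k > 2 i`, in particular for
`K < k ≤ K + m + 1` we have `l0 i k = k + 2`; for even rings (`i = i0 + 2 p`) `m = Xr + 6`, `m' = Xr + 5`,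
`K' = K + 3`, for odd rings (`i = i0 + 2 p + 1`) `m = Xr + 5`, `m' = Xr + 6`, `K' = K + 2`. In units of `nu`
the left cluster abscissas (`k ≤ K`) are in `[-108, -107.9]`, the right cluster ones (`k > K + m`) in
`[Rc - 0.1, Rc]`, `Rc = 24 Xr + 108` (E1: `left_bounds`, `right_bounds`).
Basic formula when the two ring neighbours have the same level:
U: `ori x1 l x2 l x3 l3 = (x2 - x1)((x3 - x1)(x3 - x2) + (l3 - l))`, `x2 < x1`, `l - l3 = Δ`: positive iff
`(x3 - x1)(x3 - x2) < Δ`; L: `x1 < x2`, `l3 - l = Δ`: positive iff `(x3 - x1)(x3 - x2) + Δ > 0`.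

Here `Δ = 346 nu^2`, plus `864 nu^2` if the vertex of the even ring `i+1` is deep (`Lam_odd`,
`Lam_even`).
`oddU`: `k < K`: `e + 1 ≤ k + 3 ≤ K'`: left clusters, `(x3 - x1)(x3 - x2) ≤ (0.1 nu)^2`. `k = K`:
`e ≤ K + 2 = K'`; either all in the left clusters or `e = K'`, `x2` last left, `x1 = -90 nu`, `x3` last
left of layer `i`: `|(x3 - x1)(x3 - x2)| ≤ 18.1 * 0.1 nu^2 < 346 nu^2`. `K < k ≤ K + m`: middle index
`j = k - K - 1`, `e = k + 2` has middle index `j`: `ext1`. `k = K + m + 1`: `e ≥ k + 2 = K' + m'`; if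
`e = K' + m'`: `x2 = (24 Xr + 90) nu`, `x1` first right, `x3` first right of layer `i`: product
`≤ 1.9 nu^2`; otherwise all right. `k > K + m + 1`: all in the right clusters.
`oddL`: `k < K`: `e ≤ k + 3 ≤ K'`: left clusters. `k = K`: `x1` last left, `x2 = -72 nu`,
`e = K + 3 = K' + 1`, `x3 = -90 nu`: `(x3 - x1)(x3 - x2) ≥ -18 * 18 nu^2 = -324 nu^2 > -346 nu^2`.
`K < k < K + m`: `e = k + 3` has middle index `j + 1`: `ext2`. `k = K + m`: `x1 = (24 Xr + 72) nu`, `x2`
first right, `e = k + 3 = K' + m'`, `x3 = (24 Xr + 90) nu`: product `≥ -324 nu^2`. `k > K + m`: all in the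
right clusters (`e ≥ k + 3 > K' + m'`).
-/

set_option autoImplicit false

namespace Pool.Agent.Helper70.MD

open Finset

open scoped Classical

namespace Tab

variable {τ : Tab} {st : ℕ → ℕ → St}

private theorem U_G3f {x1 x2 x3 l l3 N : ℤ} (h21 : x2 < x1) (hl : l - l3 = 346 * N ^ 2)
    (h : (x3 - x1) * (x3 - x2) < 346 * N ^ 2) : 0 < ori x1 l x2 l x3 l3 := by
  have h1 : ori x1 l x2 l x3 l3 = (x1 - x2) * ((l - l3) - (x3 - x1) * (x3 - x2)) := by
    unfold ori; ring
  rw [h1, hl]
  exact mul_pos (by linarith) (by linarith)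

private theorem L_G3f {x1 x2 x3 l l3 N : ℤ} (h12 : x1 < x2) (hl : l3 - l = 346 * N ^ 2)
    (h : -(346 * N ^ 2) < (x3 - x1) * (x3 - x2)) : 0 < ori x1 l x2 l x3 l3 := by
  have h1 : ori x1 l x2 l x3 l3 = (x2 - x1) * ((l3 - l) + (x3 - x1) * (x3 - x2)) := by
    unfold ori; ring
  rw [h1, hl]
  exact mul_pos (by linarith) (by linarith)

private theorem small_G3f {a b N : ℤ} (hN : 0 < N) (ha : |10 * a| ≤ N) (hb : |10 * b| ≤ N) :
    |a * b| < 346 * N ^ 2 := by
  have h1 : |10 * a| * |10 * b| ≤ N * N := mul_le_mul ha hb (abs_nonneg _) hN.le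
  have h2 : |10 * a| * |10 * b| = 100 * |a * b| := by
    rw [abs_mul, abs_mul, abs_mul]
    simp only [Nat.abs_ofNat]
    ring
  have h3 : 0 < N ^ 2 := by positivity
  nlinarith

private theorem mid_G3f {a b N : ℤ} (hN : 0 < N) (ha : |a| ≤ 18 * N) (hb : |10 * b| ≤ N) :
    |a * b| < 346 * N ^ 2 := by
  have h1 : |a| * |10 * b| ≤ 18 * N * N := mul_le_mul ha hb (abs_nonneg _) (by linarith)
  have h2 : |a| * |10 * b| = 10 * |a * b| := by
    rw [abs_mul, abs_mul]
    simp only [Nat.abs_ofNat]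
    ring
  have h3 : 0 < N ^ 2 := by positivity
  nlinarith

private theorem big_G3f {a b N : ℤ} (hN : 0 < N) (ha : |a| ≤ 18 * N) (hb : |b| ≤ 18 * N) :
    |a * b| < 346 * N ^ 2 := by
  have h1 : |a| * |b| ≤ 18 * N * (18 * N) := mul_le_mul ha hb (abs_nonneg _) (by linarith)
  rw [abs_mul]
  have h3 : 0 < N ^ 2 := by positivity
  nlinarith

private theorem left_G3f {i k : ℕ} (hi : i ≤ τ.M) (hk : 1 ≤ k) (hk' : k ≤ τ.K i) :
    -108 * τ.nu ≤ τ.xv st i k ∧ 10 * (τ.xv st i k + 108 * τ.nu) ≤ τ.nu := by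
  have h := left_bounds (τ := τ) (i := i) (k := k - 1) hi (by omega)
  have h1 : ((k - 1 : ℕ) : ℤ) = (k : ℤ) - 1 := by omega
  rw [h1] at h
  unfold xv
  rw [if_pos hk']
  exact h

private theorem right_G3f {i k : ℕ} (h1 : 1 ≤ i) (hi : i ≤ τ.M) (hk : τ.K i + τ.md i < k)
    (hk' : k ≤ 6 * i + 2) :
    τ.xv st i k ≤ τ.Rc * τ.nu ∧ 10 * (τ.Rc * τ.nu - τ.xv st i k) ≤ τ.nu := by
  have h3 := K_md_le (τ := τ) h1
  have h := right_bounds (τ := τ) (i := i) (t := 6 * i + 2 - k) h1 hi (by omega)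
  have h2 : ((6 * i + 2 - k : ℕ) : ℤ) = 6 * (i : ℤ) + 2 - k := by omega
  rw [h2] at h
  unfold xv
  rw [if_neg (by omega), if_neg (by omega)]
  exact h

private theorem odd_mid_G3f {i k p : ℕ} (hi : i = τ.i0 + 2 * p + 1) (hk : τ.K i < k)
    (hk' : k ≤ τ.K i + τ.md i) :
    τ.xv st i k = τ.nu * τ.odm st p (k - τ.K i - 1) := by
  unfold xv
  rw [if_neg (by omega), if_pos hk', if_neg (by omega)]
  congr 2
  omega

private theorem odd_lv_G3f {i k p : ℕ} (hi : i = τ.i0 + 2 * p + 1) :
    τ.lv st i k = τ.Lam i := by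
  unfold lv
  rw [if_neg (by omega)]

private theorem ev_mid_G3f {i k p : ℕ} (hi : i = τ.i0 + 2 * p) (hk : τ.K i < k)
    (hk' : k ≤ τ.K i + τ.md i) :
    τ.xv st i k = τ.nu * τ.evm st p (k - τ.K i - 1) ∧
      τ.lv st i k = τ.Lam i + τ.nu ^ 2 * τ.dlm st p (k - τ.K i - 1) := by
  have h1 : (i - τ.i0) / 2 = p := by omega
  unfold xv lv
  rw [if_neg (by omega), if_pos hk', if_pos (by omega), if_pos (by omega), h1]
  exact ⟨rfl, rfl⟩

private theorem out_lv_G3f {i k : ℕ} (hk : k ≤ τ.K i ∨ τ.K i + τ.md i < k) :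
    τ.lv st i k = τ.Lam i := by
  unfold lv
  rw [if_neg (by omega)]

private theorem size_G3f {i p : ℕ} (hi : i = τ.i0 + 2 * p + 1) :
    τ.K (i + 1) = τ.K i + 2 ∧ τ.md i = τ.Xr + 5 ∧ τ.md (i + 1) = τ.Xr + 6 ∧ 2 * i ≤ τ.K i ∧
      τ.K i + τ.md i + 2 ≤ 3 * i := by
  have h0 : τ.i0 = τ.Xr + 8 := rfl
  have h1 : τ.K i = 2 * τ.i0 + (5 * (i - τ.i0) + 1) / 2 := by
    unfold K
    rw [if_neg (by omega)]
  have h2 : τ.K (i + 1) = 2 * τ.i0 + (5 * (i + 1 - τ.i0) + 1) / 2 := by
    unfold K
    rw [if_neg (by omega)]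
  have h3 : τ.md i = τ.Xr + 5 := by
    unfold md
    rw [if_neg (by omega), if_neg (by omega)]
  have h4 : τ.md (i + 1) = τ.Xr + 6 := by
    unfold md
    rw [if_neg (by omega), if_pos (by omega)]
  refine ⟨?_, h3, h4, ?_, ?_⟩ <;> omega

private theorem l0_eq_G3f {i k : ℕ} (h1 : 1 ≤ i) : l0 i k = k + tau i k := by
  unfold l0
  rw [if_neg (by omega)]

private theorem tau_le2_G3f {i k : ℕ} (h : k ≤ 3 * i + 1) : tau i k ≤ 2 := by
  unfold tau
  split_ifs <;> omega

private theorem tau_ge2_G3f {i k : ℕ} (h : 2 * i < k) : 2 ≤ tau i k := by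
  unfold tau
  split_ifs <;> omega

private theorem tau_le5_G3f {i k : ℕ} (h : k ≤ 6 * i + 2) : tau i k ≤ 5 := by
  unfold tau
  split_ifs <;> omega

private theorem LamD_G3f {i p : ℕ} (hi : i = τ.i0 + 2 * p + 1) :
    τ.Lam (i + 1) - τ.Lam i = 346 * τ.nu ^ 2 := by
  have h1 : i + 1 = τ.i0 + 2 * (p + 1) := by omega
  rw [h1, Lam_even, hi, Lam_odd]
  push_cast
  ring

theorem oddU (hg : τ.Good) (hs : τ.Checks st) {i k e p : ℕ} (hp : p < τ.P)
    (hi : i = τ.i0 + 2 * p + 1)
    (hk : 1 ≤ k) (hk' : k ≤ 6 * i + 2) (he : l0 i k ≤ e) (he2 : e < l0 i (k + 1))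
    (he' : e + 1 ≤ 6 * (i + 1) + 2) :
    0 < ori (τ.xv st (i + 1) (e + 1)) (τ.lv st (i + 1) (e + 1)) (τ.xv st (i + 1) e)
      (τ.lv st (i + 1) e) (τ.xv st i k) (τ.lv st i k) := by
  have hnu := nu_pos (τ := τ)
  have hN : 0 < τ.nu := by linarith
  have hM : i + 1 ≤ τ.M := by unfold M; omega
  have hi' : i + 1 = τ.i0 + 2 * (p + 1) := by omega
  obtain ⟨hK, hm, hm', h2i, h3i⟩ := size_G3f hi
  rw [l0_eq_G3f (by omega)] at he he2
  have hmono := xv_mono hg hs.1 (i := i + 1) (k := e) (by omega) hM (by omega) (by omega)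
  have hLam := LamD_G3f hi
  rw [odd_lv_G3f hi]
  rcases Nat.lt_trichotomy k (τ.K i) with h | h | h
  · -- left clusters
    have t1 := tau_le2_G3f (i := i) (k := k + 1) (by omega)
    rw [out_lv_G3f (Or.inl (by omega)), out_lv_G3f (Or.inl (by omega))]
    have b1 := left_G3f (st := st) (τ := τ) (i := i + 1) (k := e + 1) hM (by omega) (by omega)
    have b2 := left_G3f (st := st) (τ := τ) (i := i + 1) (k := e) hM (by omega) (by omega)
    have b3 := left_G3f (st := st) (τ := τ) (i := i) (k := k) (by omega) hk h.le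
    refine U_G3f hmono hLam ?_
    refine (le_abs_self _).trans_lt (small_G3f hN ?_ ?_)
    · rw [abs_le]; constructor <;> linarith [b1.1, b1.2, b3.1, b3.2]
    · rw [abs_le]; constructor <;> linarith [b2.1, b2.2, b3.1, b3.2]
  · have t1 := tau_le2_G3f (i := i) (k := k + 1) (by omega)
    have b3 := left_G3f (st := st) (τ := τ) (i := i) (k := k) (by omega) hk h.le
    have b2 := left_G3f (st := st) (τ := τ) (i := i + 1) (k := e) hM (by omega) (by omega)
    by_cases hee : e + 1 ≤ τ.K (i + 1)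
    · rw [out_lv_G3f (Or.inl (by omega)), out_lv_G3f (Or.inl (by omega))]
      have b1 := left_G3f (st := st) (τ := τ) (i := i + 1) (k := e + 1) hM (by omega) (by omega)
      refine U_G3f hmono hLam ?_
      refine (le_abs_self _).trans_lt (small_G3f hN ?_ ?_)
      · rw [abs_le]; constructor <;> linarith [b1.1, b1.2, b3.1, b3.2]
      · rw [abs_le]; constructor <;> linarith [b2.1, b2.2, b3.1, b3.2]
    · obtain ⟨m1, m2⟩ := ev_mid_G3f (st := st) (k := e + 1) hi' (by omega) (by omega)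
      have hidx : e + 1 - τ.K (i + 1) - 1 = 0 := by omega
      rw [hidx] at m1 m2
      have hev : τ.evm st (p + 1) 0 = -90 := by simp [evm]
      have hdl : τ.dlm st (p + 1) 0 = 0 := by simp [dlm]
      rw [hev] at m1
      rw [hdl, mul_zero, add_zero] at m2
      rw [m2, out_lv_G3f (Or.inl (by omega))]
      refine U_G3f hmono hLam ?_
      refine (le_abs_self _).trans_lt (mid_G3f hN ?_ ?_)
      · rw [m1, abs_le]; constructor <;> linarith [b3.1, b3.2]
      · rw [abs_le]; constructor <;> linarith [b2.1, b2.2, b3.1, b3.2]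
  · by_cases h5 : k ≤ τ.K i + τ.md i
    · -- middle
      have t1 := tau_le2_G3f (i := i) (k := k) (by omega)
      have t2 := tau_ge2_G3f (i := i) (k := k) (by omega)
      have t3 := tau_le2_G3f (i := i) (k := k + 1) (by omega)
      have hek : e = k + 2 := by omega
      obtain ⟨m1, m2⟩ := ev_mid_G3f (st := st) (k := e + 1) hi' (by omega) (by omega)
      obtain ⟨n1, n2⟩ := ev_mid_G3f (st := st) (k := e) hi' (by omega) (by omega)
      have o1 := odd_mid_G3f (st := st) (k := k) hi (by omega) (by omega)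
      set j := k - τ.K i - 1 with hj
      have i1 : e + 1 - τ.K (i + 1) - 1 = j + 1 := by omega
      have i2 : e - τ.K (i + 1) - 1 = j := by omega
      rw [i1] at m1 m2
      rw [i2] at n1 n2
      rw [m1, m2, n1, n2, o1]
      have e1 := ext1 hg hs hp (j := j) (by omega)
      have hL : τ.Lam (i + 1) = τ.Lam i + τ.nu ^ 2 * 346 := by linarith
      have e2 : ori (τ.nu * τ.evm st (p + 1) (j + 1))
          (τ.Lam (i + 1) + τ.nu ^ 2 * τ.dlm st (p + 1) (j + 1))
          (τ.nu * τ.evm st (p + 1) j) (τ.Lam (i + 1) + τ.nu ^ 2 * τ.dlm st (p + 1) j)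
          (τ.nu * τ.odm st p j) (τ.Lam i) = τ.nu ^ 3 *
          ori (τ.evm st (p + 1) (j + 1)) (346 + τ.dlm st (p + 1) (j + 1))
            (τ.evm st (p + 1) j) (346 + τ.dlm st (p + 1) j) (τ.odm st p j) 0 := by
        rw [← ori_scale (c := τ.Lam i), hL]
        congr 1 <;> ring
      rw [e2]
      positivity
    · -- right
      have t2 := tau_ge2_G3f (i := i) (k := k) (by omega)
      have b3 := right_G3f (st := st) (τ := τ) (i := i) (k := k) (by omega) (by omega) (by omega) hk'
      have b1 := right_G3f (st := st) (τ := τ) (i := i + 1) (k := e + 1) (by omega) hM (by omega)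
        he'
      by_cases hee : τ.K (i + 1) + τ.md (i + 1) < e
      · rw [out_lv_G3f (Or.inr (by omega)), out_lv_G3f (Or.inr (by omega))]
        have b2 := right_G3f (st := st) (τ := τ) (i := i + 1) (k := e) (by omega) hM hee (by omega)
        refine U_G3f hmono hLam ?_
        refine (le_abs_self _).trans_lt (small_G3f hN ?_ ?_)
        · rw [abs_le]; constructor <;> linarith [b1.1, b1.2, b3.1, b3.2]
        · rw [abs_le]; constructor <;> linarith [b2.1, b2.2, b3.1, b3.2]
      · obtain ⟨m1, m2⟩ := ev_mid_G3f (st := st) (k := e) hi' (by omega) (by omega)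
        have hidx : e - τ.K (i + 1) - 1 = τ.Xr + 5 := by omega
        rw [hidx] at m1 m2
        have hev : τ.evm st (p + 1) (τ.Xr + 5) = 24 * τ.Xr + 90 := by
          unfold evm
          rw [if_neg (by omega), if_neg (by omega), if_neg (by omega), if_neg (by omega),
            if_neg (by omega), if_neg (by omega)]
        have hdl : τ.dlm st (p + 1) (τ.Xr + 5) = 0 := by
          unfold dlm
          rw [if_neg (by omega)]
        rw [hev] at m1
        rw [hdl, mul_zero, add_zero] at m2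
        rw [m2, out_lv_G3f (Or.inr (by omega))]
        refine U_G3f hmono hLam ?_
        rw [mul_comm]
        have hRc : τ.Rc * τ.nu = τ.nu * (24 * (τ.Xr : ℤ) + 90) + 18 * τ.nu := by
          unfold Rc; ring
        rw [hRc] at b1 b3
        refine (le_abs_self _).trans_lt (mid_G3f hN ?_ ?_)
        · rw [m1, abs_le]; constructor <;> linarith [b3.1, b3.2]
        · rw [abs_le]; constructor <;> linarith [b1.1, b1.2, b3.1, b3.2]

theorem oddL (hg : τ.Good) (hs : τ.Checks st) {i k e p : ℕ} (hp : p < τ.P)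
    (hi : i = τ.i0 + 2 * p + 1)
    (hk : 1 ≤ k) (hk' : k + 1 ≤ 6 * i + 2) (he : e = l0 i (k + 1)) :
    0 < ori (τ.xv st i k) (τ.lv st i k) (τ.xv st i (k + 1)) (τ.lv st i (k + 1))
      (τ.xv st (i + 1) e) (τ.lv st (i + 1) e) := by
  have hnu := nu_pos (τ := τ)
  have hN : 0 < τ.nu := by linarith
  have hM : i + 1 ≤ τ.M := by unfold M; omega
  have hi' : i + 1 = τ.i0 + 2 * (p + 1) := by omega
  obtain ⟨hK, hm, hm', h2i, h3i⟩ := size_G3f hi
  rw [l0_eq_G3f (by omega)] at he
  have hmono := xv_mono hg hs.1 (i := i) (k := k) (by omega) (by omega) (by omega) (by omega)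
  have hLam := LamD_G3f hi
  have t5 := tau_le5_G3f hk'
  rw [odd_lv_G3f hi, odd_lv_G3f hi]
  rcases Nat.lt_trichotomy k (τ.K i) with h | h | h
  · -- left clusters
    have t1 := tau_le2_G3f (i := i) (k := k + 1) (by omega)
    rw [out_lv_G3f (Or.inl (by omega))]
    have b1 := left_G3f (st := st) (τ := τ) (i := i) (k := k) (by omega) hk h.le
    have b2 := left_G3f (st := st) (τ := τ) (i := i) (k := k + 1) (by omega) (by omega) h
    have b3 := left_G3f (st := st) (τ := τ) (i := i + 1) (k := e) hM (by omega) (by omega)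
    refine L_G3f hmono hLam ?_
    refine (neg_lt_neg (small_G3f hN ?_ ?_)).trans_le (neg_abs_le _)
    · rw [abs_le]; constructor <;> linarith [b1.1, b1.2, b3.1, b3.2]
    · rw [abs_le]; constructor <;> linarith [b2.1, b2.2, b3.1, b3.2]
  · have t1 := tau_le2_G3f (i := i) (k := k + 1) (by omega)
    have t2 := tau_ge2_G3f (i := i) (k := k + 1) (by omega)
    have b1 := left_G3f (st := st) (τ := τ) (i := i) (k := k) (by omega) hk h.le
    have o1 := odd_mid_G3f (st := st) (k := k + 1) hi (by omega) (by omega)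
    obtain ⟨m1, m2⟩ := ev_mid_G3f (st := st) (k := e) hi' (by omega) (by omega)
    have i1 : k + 1 - τ.K i - 1 = 0 := by omega
    have i2 : e - τ.K (i + 1) - 1 = 0 := by omega
    rw [i1] at o1
    rw [i2] at m1 m2
    have hev : τ.evm st (p + 1) 0 = -90 := by simp [evm]
    have hdl : τ.dlm st (p + 1) 0 = 0 := by simp [dlm]
    have hod : τ.odm st p 0 = -72 := by simp [odm]
    rw [hev] at m1
    rw [hdl, mul_zero, add_zero] at m2
    rw [hod] at o1
    rw [m2]
    refine L_G3f hmono hLam ?_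
    refine (neg_lt_neg (big_G3f hN ?_ ?_)).trans_le (neg_abs_le _)
    · rw [m1, abs_le]; constructor <;> linarith [b1.1, b1.2]
    · rw [m1, o1, abs_le]; constructor <;> linarith
  · rcases Nat.lt_trichotomy k (τ.K i + τ.md i) with h5 | h5 | h5
    · -- middle
      have t1 := tau_le2_G3f (i := i) (k := k + 1) (by omega)
      have t2 := tau_ge2_G3f (i := i) (k := k + 1) (by omega)
      obtain ⟨m1, m2⟩ := ev_mid_G3f (st := st) (k := e) hi' (by omega) (by omega)
      have o1 := odd_mid_G3f (st := st) (k := k) hi (by omega) (by omega)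
      have o2 := odd_mid_G3f (st := st) (k := k + 1) hi (by omega) (by omega)
      set j := k - τ.K i - 1 with hj
      have i1 : e - τ.K (i + 1) - 1 = j + 1 := by omega
      have i2 : k + 1 - τ.K i - 1 = j + 1 := by omega
      rw [i1] at m1 m2
      rw [i2] at o2
      rw [m1, m2, o1, o2]
      have e1 := ext2 hg hs hp (j := j) (by omega)
      have hL : τ.Lam (i + 1) = τ.Lam i + τ.nu ^ 2 * 346 := by linarith
      have e2 : ori (τ.nu * τ.odm st p j) (τ.Lam i) (τ.nu * τ.odm st p (j + 1)) (τ.Lam i)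
          (τ.nu * τ.evm st (p + 1) (j + 1))
          (τ.Lam (i + 1) + τ.nu ^ 2 * τ.dlm st (p + 1) (j + 1)) = τ.nu ^ 3 *
          ori (τ.odm st p j) 0 (τ.odm st p (j + 1)) 0
            (τ.evm st (p + 1) (j + 1)) (346 + τ.dlm st (p + 1) (j + 1)) := by
        rw [← ori_scale (c := τ.Lam i), hL]
        congr 1 <;> ring
      rw [e2]
      positivity
    · have t1 := tau_le2_G3f (i := i) (k := k + 1) (by omega)
      have t2 := tau_ge2_G3f (i := i) (k := k + 1) (by omega)
      have b2 := right_G3f (st := st) (τ := τ) (i := i) (k := k + 1) (by omega) (by omega)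
        (by omega) hk'
      have o1 := odd_mid_G3f (st := st) (k := k) hi (by omega) (by omega)
      obtain ⟨m1, m2⟩ := ev_mid_G3f (st := st) (k := e) hi' (by omega) (by omega)
      have i1 : k - τ.K i - 1 = τ.Xr + 4 := by omega
      have i2 : e - τ.K (i + 1) - 1 = τ.Xr + 5 := by omega
      rw [i1] at o1
      rw [i2] at m1 m2
      have hev : τ.evm st (p + 1) (τ.Xr + 5) = 24 * τ.Xr + 90 := by
        unfold evm
        rw [if_neg (by omega), if_neg (by omega), if_neg (by omega), if_neg (by omega),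
          if_neg (by omega), if_neg (by omega)]
      have hdl : τ.dlm st (p + 1) (τ.Xr + 5) = 0 := by
        unfold dlm
        rw [if_neg (by omega)]
      have hod : τ.odm st p (τ.Xr + 4) = 24 * τ.Xr + 72 := by
        unfold odm
        rw [if_neg (by omega), if_neg (by omega), if_neg (by omega), if_neg (by omega)]
      rw [hev] at m1
      rw [hdl, mul_zero, add_zero] at m2
      rw [hod] at o1
      rw [m2]
      have hRc : τ.Rc * τ.nu = τ.nu * (24 * (τ.Xr : ℤ) + 90) + 18 * τ.nu := by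
        unfold Rc; ring
      rw [hRc] at b2
      refine L_G3f hmono hLam ?_
      refine (neg_lt_neg (big_G3f hN ?_ ?_)).trans_le (neg_abs_le _)
      · rw [m1, o1, abs_le]; constructor <;> linarith
      · rw [m1, abs_le]; constructor <;> linarith [b2.1, b2.2]
    · -- right
      have t2 := tau_ge2_G3f (i := i) (k := k + 1) (by omega)
      have b1 := right_G3f (st := st) (τ := τ) (i := i) (k := k) (by omega) (by omega)
        (by omega) (by omega)
      have b2 := right_G3f (st := st) (τ := τ) (i := i) (k := k + 1) (by omega) (by omega)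
        (by omega) hk'
      have b3 := right_G3f (st := st) (τ := τ) (i := i + 1) (k := e) (by omega) hM
        (by omega) (by omega)
      rw [out_lv_G3f (Or.inr (by omega))]
      refine L_G3f hmono hLam ?_
      refine (neg_lt_neg (small_G3f hN ?_ ?_)).trans_le (neg_abs_le _)
      · rw [abs_le]; constructor <;> linarith [b1.1, b1.2, b3.1, b3.2]
      · rw [abs_le]; constructor <;> linarith [b2.1, b2.2, b3.1, b3.2]

end Tab

end Pool.Agent.Helper70.MD
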