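import Pool.Agent.Helper70.MD.G3b
import Pool.Agent.Helper70.MD.G3i

/-!
MD-G3g: the faces with top points and with corners, and the last ring.

`topU0`: `vp (i+1) 1 = par (-108 nu + i + 1) (Lam (i+1))` (`K ≥ 1`), `a = (x, y)`, `x < 0`;
`cr a (0, H-i-1) (0, H-i) = -x > 0`. `topU1`: `vp (i+1) (6 i + 8) = par (Rc nu - i - 1) (Lam (i+1))`,
`vp i (6 i + 2) = par (Rc nu - i) (Lam i)` (both in the right cluster: `Rn ≥ 1`); with `X = Rc nu - i - 1`,
`h = H - i - 1`, `yb = X^2 + Lam (i+1)`, `yc = (X+1)^2 + Lam i`: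
`cr (0,h) (X,yb) (X+1,yc) = X (yc - yb) + h - yb`, and
`yc - yb ≥ -(Lam (i+1) - Lam i) ≥ -4 Xm^2` (`Lam_low`, `Lam_even`, `Lam_odd`: the steps are
`4 Xm^2`, `864 nu^2`, `346 nu^2`), `0 ≤ X ≤ Xm`, `H = 16 Xm (Lam M + Xm^2)`. `topL0`:
`vp i 1 = par (-108 nu + i) (Lam i) = (x, y)`, `vp (i+1) 1 = (x + 1, y')`, `h = H - i`:
`cr (0,h) (x,y) (x+1,y') = x (y' - y) + h - y`, with `x (y' - y) ≥ -Xm * 4 Xm^2`
(`y' - y = 2 x + 1 + Lam (i+1) - Lam i`; `x < 0`). `topL1`: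
`cr (X,y) (0,H-i) (0,H-i-1) = X > 0`.
`zeroU`: ring 1: `vp 1 0 = vp 1 9 = top 1 = (0, H - 1)`, `vp 1 k = par (-108 nu + k) (Lam 1)` for
`1 ≤ k ≤ 6`, `vp 1 7 = par (Rc nu - 2) (Lam 1)`, `vp 1 8 = par (Rc nu - 1) (Lam 1)`;
`l0 0 k = 3 k`. For an edge of two parabola points `a < b` of the same level `L` and a corner
`(x,y)`: `cr (par b L) (par a L) (x,y) = (b - a) ((a + b) x - a b + L - y)`. `k = 0`, `ca = (-H, 2H)`,
`e = 1, 2`: `a + b ≤ -3`, so `(-(a + b) - 2) H ≥ H > a b`. `k = 1`, `cb = (0,-H)`, `e = 3, 4, 5`: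
`-a b + L + H > 0`. `k = 2`, `cc = (H, 2H)`, `e = 6, 7`: `a + b ≥ 3`. `e = 0`:
`cr (x1,y1) (0,H-1) (-H,2H) = H^2 - H x1 - H - x1 - y1 H`, with `x1 < 0`, `y1 ≤ Xm^2 + Lam M ≤ H / 2`.
`e = 8`: `cr (0,H-1) (X,yb) (H,2H) = X (H + 1) + (H - 1 - yb) H > 0`.
`zeroL`: the third vertex is a vertex of ring 1, in `C 1`: `rings hg` field `inner`.
`posT`: reduce `a, b, c` modulo `W = 6 M + 3` (`vert` is periodic): after subtracting the multiple of
`W` we may assume `0 ≤ a < W`; then `b`, `c` are `< 2 W`; the residues of `a, b, c` are, up to a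
rotation of the triple, strictly increasing `k1 < k2 < k3` in `[0, W)`. If `k1 ≥ 1`: three points of
the same level `Lam M` (`dlm_top`: no deep points in the last ring) with increasing abscissas:
`ori = (x2 - x1)(x3 - x1)(x3 - x2) > 0`. If `k1 = 0`: `cr (0,H-M) (x2,y2) (x3,y3)` with `x2 < x3`: it is
`x2 (y3 - h) - (y2 - h) x3 = (x3 - x2) (h - Lam M + x2 x3)`, positive (`h = H - M` large).
`hull_vert`: `vert_mem` and `rings`, `inner`. `tri0`: `rings`, `pos`.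
-/

set_option autoImplicit false

namespace Pool.Agent.Helper70.MD

open Finset

open scoped Classical

/-- integral points -/
private noncomputable def ip (x y : ℤ) : Pt := ((x : ℝ), (y : ℝ))

private theorem cr_ip (x1 y1 x2 y2 x3 y3 : ℤ) :
    cr (ip x1 y1) (ip x2 y2) (ip x3 y3) =
      (((x2 - x1) * (y3 - y1) - (y2 - y1) * (x3 - x1) : ℤ) : ℝ) := by
  simp only [cr, ip]
  push_cast
  ring

private theorem cr_rot (a b c : Pt) : cr a b c = cr b c a := by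
  simp only [cr]
  ring

private theorem z_big {X L H : ℤ} (hH : 16 * X * (L + X ^ 2) = H) (hX : 1000 ≤ X) (hL : 0 ≤ L) :
    4 * X ^ 3 + 100 * (L + X ^ 2) + 2 * X < H := by
  have h5 : 0 ≤ (X - 1000) * L := mul_nonneg (by linarith) hL
  have h6 : 0 ≤ (X - 1000) * X ^ 2 := mul_nonneg (by linarith) (sq_nonneg _)
  have h7 : 0 ≤ (X - 1000) * X := mul_nonneg (by linarith) (by linarith)
  nlinarith

private theorem z_H1 {X L H : ℤ} (h : 4 * X ^ 3 + 100 * (L + X ^ 2) + 2 * X < H) (hX : 0 < X)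
    (hL : 0 ≤ L) : L + X ^ 2 + 2 * X < H := by
  have h5 : 0 < X ^ 3 := pow_pos hX 3
  have h6 : 0 ≤ X ^ 2 := sq_nonneg X
  linarith

private theorem z_sq {x X : ℤ} (h1 : -X ≤ x) (h2 : x ≤ X) : x ^ 2 ≤ X ^ 2 := by
  nlinarith [mul_nonneg (show 0 ≤ X - x by linarith) (show 0 ≤ X + x by linarith)]

private theorem z_ab {a b X : ℤ} (ha : -X ≤ a) (ha' : a ≤ X) (hb : -X ≤ b) (hb' : b ≤ X) :
    a * b ≤ X ^ 2 ∧ -X ^ 2 ≤ a * b := by
  constructor
  · nlinarith [mul_nonneg (show 0 ≤ X - a by linarith) (show 0 ≤ X + b by linarith),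
      mul_nonneg (show 0 ≤ X + a by linarith) (show 0 ≤ X - b by linarith)]
  · nlinarith [mul_nonneg (show 0 ≤ X - a by linarith) (show 0 ≤ X - b by linarith),
      mul_nonneg (show 0 ≤ X + a by linarith) (show 0 ≤ X + b by linarith)]

private theorem z_topU1 {X Xm H Li Lj LM h : ℤ} (hX0 : 0 ≤ X) (hXm : X ≤ Xm)
    (h4 : Lj ≤ Li + 4 * Xm ^ 2) (h5 : Lj ≤ LM) (h9 : 0 ≤ LM)
    (h6 : 4 * Xm ^ 3 + 100 * (LM + Xm ^ 2) + 2 * Xm < H) (h7 : H - Xm ≤ h) :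
    0 < (X - 0) * ((X + 1) ^ 2 + Li - h) - (X ^ 2 + Lj - h) * (X + 1 - 0) := by
  have e1 : (X - 0) * ((X + 1) ^ 2 + Li - h) - (X ^ 2 + Lj - h) * (X + 1 - 0) =
      X * (2 * X + 1) + X * (Li - Lj + 4 * Xm ^ 2) - X * (4 * Xm ^ 2) + h - (X ^ 2 + Lj) := by ring
  rw [e1]
  have e2 : 0 ≤ X * (Li - Lj + 4 * Xm ^ 2) := mul_nonneg hX0 (by linarith)
  have e3 : X * (4 * Xm ^ 2) ≤ Xm * (4 * Xm ^ 2) :=
    mul_le_mul_of_nonneg_right hXm (by positivity)
  have e4 : X ^ 2 ≤ Xm ^ 2 := pow_le_pow_left₀ hX0 hXm 2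
  have e5 : 0 ≤ X * (2 * X + 1) := mul_nonneg hX0 (by linarith)
  have e6 : Xm * (4 * Xm ^ 2) = 4 * Xm ^ 3 := by ring
  have e7 : 0 ≤ Xm ^ 2 := sq_nonneg _
  have e8 : 0 ≤ Xm := hX0.trans hXm
  linarith

private theorem z_topL0 {x Xm H Li Lj LM h : ℤ} (hx0 : x ≤ -1) (hxm : -Xm ≤ x)
    (h4 : Lj ≤ Li + 4 * Xm ^ 2) (h5 : Li ≤ LM) (h9 : 0 ≤ LM)
    (h6 : 4 * Xm ^ 3 + 100 * (LM + Xm ^ 2) + 2 * Xm < H) (h7 : H - Xm ≤ h) :
    0 < (x - 0) * ((x + 1) ^ 2 + Lj - h) - (x ^ 2 + Li - h) * (x + 1 - 0) := by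
  have e1 : (x - 0) * ((x + 1) ^ 2 + Lj - h) - (x ^ 2 + Li - h) * (x + 1 - 0) =
      (-x) * (-(2 * x + 1)) + (-x) * (Li - Lj + 4 * Xm ^ 2) - (-x) * (4 * Xm ^ 2) + h -
        (x ^ 2 + Li) := by ring
  rw [e1]
  have e2 : 0 ≤ (-x) * (Li - Lj + 4 * Xm ^ 2) := mul_nonneg (by linarith) (by linarith)
  have e3 : (-x) * (4 * Xm ^ 2) ≤ Xm * (4 * Xm ^ 2) :=
    mul_le_mul_of_nonneg_right (by linarith) (by positivity)
  have e4 : x ^ 2 ≤ Xm ^ 2 := z_sq hxm (by linarith)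
  have e5 : 0 ≤ (-x) * (-(2 * x + 1)) := mul_nonneg (by linarith) (by linarith)
  have e6 : Xm * (4 * Xm ^ 2) = 4 * Xm ^ 3 := by ring
  have e7 : 0 ≤ Xm ^ 2 := sq_nonneg _
  linarith

private theorem z_corner {x X H L LM : ℤ} (hx : 1 ≤ x) (hxX : x ≤ X) (hL : L ≤ LM)
    (hLM : 0 ≤ LM) (h : LM + X ^ 2 + 2 * X < H) :
    0 < (x - 0) * (H + 1) + (H - 1 - (x ^ 2 + L)) * H := by
  have e1 : x ^ 2 ≤ X ^ 2 := z_sq (by linarith) hxX
  have e7 : 0 ≤ X ^ 2 := sq_nonneg _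
  have e2 : 0 < (H - 1 - (x ^ 2 + L)) * H := mul_pos (by linarith) (by linarith)
  have e3 : 0 < (x - 0) * (H + 1) := mul_pos (by linarith) (by linarith)
  linarith

private theorem z_edge {a b X H L LM s : ℤ} (ha : -X ≤ a) (hab : a < b) (hb : b ≤ X) (hL : 0 ≤ L)
    (hLM : 0 ≤ LM) (h : LM + X ^ 2 + 2 * X < H) (hs : 1 ≤ s) : 0 < s * H - a * b + L := by
  have h1 := (z_ab ha (by linarith) (by linarith) hb).1
  have h2 : 0 ≤ X ^ 2 := sq_nonneg _
  have h3 : 0 ≤ (s - 1) * H := mul_nonneg (by linarith) (by linarith)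
  have h4 : s * H = (s - 1) * H + H := by ring
  linarith

private theorem z_posM {x2 x3 X H L M : ℤ} (h2 : -X ≤ x2) (h2' : x2 < x3) (h3' : x3 ≤ X)
    (h : L + X ^ 2 + 2 * X < H) (hM : M ≤ X) :
    0 < (x2 - 0) * (x3 ^ 2 + L - (H - M)) - (x2 ^ 2 + L - (H - M)) * (x3 - 0) := by
  have e1 := (z_ab h2 (by linarith) (show -X ≤ x3 by linarith) h3').2
  have e2 : 0 < (x3 - x2) * (H - M - L + x2 * x3) := mul_pos (by linarith) (by linarith)
  have e3 : (x2 - 0) * (x3 ^ 2 + L - (H - M)) - (x2 ^ 2 + L - (H - M)) * (x3 - 0) =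
      (x3 - x2) * (H - M - L + x2 * x3) := by ring
  rw [e3]
  exact e2

namespace Tab

variable {τ : Tab} {st : ℕ → ℕ → St}

private theorem g_par (X L : ℤ) : par X L = ip X (X ^ 2 + L) := by
  simp [par, ip]

private theorem g_top (i : ℕ) : τ.top i = ip 0 (τ.H - i) := by
  simp [top, ip]

private theorem g_ca : τ.ca = ip (-τ.H) (2 * τ.H) := by
  simp [ca, ip]

private theorem g_cb : τ.cb = ip 0 (-τ.H) := by
  simp [cb, ip]

private theorem g_cc : τ.cc = ip τ.H (2 * τ.H) := by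
  simp [cc, ip]

private theorem g_Rc : 0 ≤ τ.Rc := by
  unfold Rc
  positivity

private theorem g_nuX : 108 * τ.nu ≤ τ.Xm := by
  have h1 := nu_pos (τ := τ)
  have h2 := g_Rc (τ := τ)
  unfold Xm
  nlinarith

private theorem g_RcX : τ.Rc * τ.nu ≤ τ.Xm := by
  have h1 := nu_pos (τ := τ)
  unfold Xm
  nlinarith

private theorem g_big :
    4 * τ.Xm ^ 3 + 100 * (τ.Lam τ.M + τ.Xm ^ 2) + 2 * τ.Xm < τ.H := by
  obtain ⟨h1, h2, h3⟩ := H_big (τ := τ)
  exact z_big h1 h3 (Lam_nonneg (τ := τ) τ.M)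

private theorem g_H1 : τ.Lam τ.M + τ.Xm ^ 2 + 2 * τ.Xm < τ.H :=
  z_H1 g_big Xm_pos (Lam_nonneg (τ := τ) τ.M)

private theorem g_Lam {i : ℕ} (hi : i ≤ τ.M) : τ.Lam i ≤ τ.Lam τ.M := by
  rcases hi.lt_or_eq with h | h
  · exact (Lam_strictMono h).le
  · rw [h]

private theorem g_step (i : ℕ) : τ.Lam (i + 1) ≤ τ.Lam i + 4 * τ.Xm ^ 2 := by
  rcases lt_or_ge i τ.i0 with h | h
  · exact (Lam_low h).le
  · have h1 := nu_pos (τ := τ)
    have h2 := g_nuX (τ := τ)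
    have h3 : 11664 * τ.nu ^ 2 ≤ τ.Xm ^ 2 := by nlinarith
    have h4 : 0 ≤ τ.nu ^ 2 := sq_nonneg _
    obtain ⟨d, rfl⟩ : ∃ d, i = τ.i0 + d := ⟨i - τ.i0, by omega⟩
    rcases Nat.even_or_odd' d with ⟨p, hp | hp⟩
    · subst hp
      rw [Lam_odd, Lam_even]
      nlinarith
    · subst hp
      rw [show τ.i0 + (2 * p + 1) + 1 = τ.i0 + 2 * (p + 1) by ring,
        show τ.i0 + (2 * p + 1) = τ.i0 + 2 * p + 1 by ring, Lam_odd, Lam_even]
      push_cast
      nlinarith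

private theorem g_vp_one {i : ℕ} (h1 : 1 ≤ i) :
    τ.vp st i 1 = ip (-108 * τ.nu + i) ((-108 * τ.nu + i) ^ 2 + τ.Lam i) := by
  have hK : 1 ≤ τ.K i := by
    unfold K i0
    split_ifs <;> omega
  rw [vp_eq h1 le_rfl (by omega)]
  have h2 : τ.xv st i 1 = -108 * τ.nu + i := by
    unfold xv
    rw [if_pos hK]
    push_cast
    ring
  have h3 : τ.lv st i 1 = τ.Lam i := by
    unfold lv
    rw [if_neg]
    omega
  rw [h2, h3, g_par]

private theorem g_vp_last {i : ℕ} (h1 : 1 ≤ i) :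
    τ.vp st i (6 * i + 2) = ip (τ.Rc * τ.nu - i) ((τ.Rc * τ.nu - i) ^ 2 + τ.Lam i) := by
  have hK : τ.K i + τ.md i < 6 * i + 2 := by
    unfold K md i0
    split_ifs <;> omega
  rw [vp_eq h1 (by omega) le_rfl]
  have h2 : τ.xv st i (6 * i + 2) = τ.Rc * τ.nu - i := by
    unfold xv
    rw [if_neg (by omega), if_neg (by omega)]
    push_cast
    ring
  have h3 : τ.lv st i (6 * i + 2) = τ.Lam i := by
    unfold lv
    rw [if_neg]
    omega
  rw [h2, h3, g_par]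

theorem topU0 (hg : τ.Good) (hs : τ.OkSt st) {i : ℕ} (h1 : 1 ≤ i) (hi : i < τ.M) :
    0 < cr (τ.vp st (i + 1) 1) (τ.top (i + 1)) (τ.top i) := by
  rw [g_vp_one (by omega), g_top, g_top, cr_ip]
  have h2 : τ.nu = 100 * ((τ.M : ℤ) + 1) := rfl
  have h3 : (i : ℤ) + 1 ≤ τ.M := by exact_mod_cast hi
  refine Int.cast_pos.2 ?_
  push_cast
  nlinarith

theorem topU1 (hg : τ.Good) (hs : τ.OkSt st) {i : ℕ} (h1 : 1 ≤ i) (hi : i < τ.M) :
    0 < cr (τ.top (i + 1)) (τ.vp st (i + 1) (6 * i + 8)) (τ.vp st i (6 * i + 2)) := by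
  have h0 : 6 * i + 8 = 6 * (i + 1) + 2 := by ring
  rw [h0, g_vp_last (by omega), g_vp_last h1, g_top, cr_ip]
  have h2 : τ.nu = 100 * ((τ.M : ℤ) + 1) := rfl
  have h3 : (i : ℤ) + 1 ≤ τ.M := by exact_mod_cast hi
  have h4 := g_step (τ := τ) i
  have h5 := g_Lam (τ := τ) (show i + 1 ≤ τ.M by omega)
  have h6 := g_big (τ := τ)
  obtain ⟨_, h7, h8⟩ := H_big (τ := τ)
  have h9 := Lam_nonneg (τ := τ) τ.M
  have hRcX := g_RcX (τ := τ)
  have hRc : 108 ≤ τ.Rc := by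
    unfold Rc
    have : (0 : ℤ) ≤ τ.Xr := Int.natCast_nonneg _
    linarith
  have hi0 : (0 : ℤ) ≤ i := Int.natCast_nonneg _
  have hnu := nu_pos (τ := τ)
  have hX0 : 0 ≤ τ.Rc * τ.nu - (i + 1) := by nlinarith
  refine Int.cast_pos.2 ?_
  push_cast
  have hXi : τ.Rc * τ.nu - (i : ℤ) = (τ.Rc * τ.nu - ((i : ℤ) + 1)) + 1 := by ring
  rw [hXi]
  exact z_topU1 hX0 (by linarith) h4 h5 h9 h6 (by linarith)

theorem topL0 (hg : τ.Good) (hs : τ.OkSt st) {i : ℕ} (h1 : 1 ≤ i) (hi : i < τ.M) :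
    0 < cr (τ.top i) (τ.vp st i 1) (τ.vp st (i + 1) 1) := by
  rw [g_vp_one (i := i + 1) (by omega), g_vp_one h1, g_top, cr_ip]
  have h2 : τ.nu = 100 * ((τ.M : ℤ) + 1) := rfl
  have h3 : (i : ℤ) + 1 ≤ τ.M := by exact_mod_cast hi
  have h4 := g_step (τ := τ) i
  have h5 := g_Lam (τ := τ) (show i ≤ τ.M by omega)
  have h6 := g_big (τ := τ)
  obtain ⟨_, h7, h8⟩ := H_big (τ := τ)
  have h9 := Lam_nonneg (τ := τ) τ.M
  have hnuX := g_nuX (τ := τ)
  have hi0 : (0 : ℤ) ≤ i := Int.natCast_nonneg _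
  have hnu := nu_pos (τ := τ)
  refine Int.cast_pos.2 ?_
  push_cast
  have hxi : -108 * τ.nu + ((i : ℤ) + 1) = (-108 * τ.nu + (i : ℤ)) + 1 := by ring
  rw [hxi]
  exact z_topL0 (by linarith) (by linarith) h4 h5 h9 h6 (by linarith)

theorem topL1 (hg : τ.Good) (hs : τ.OkSt st) {i : ℕ} (h1 : 1 ≤ i) (hi : i < τ.M) :
    0 < cr (τ.vp st i (6 * i + 2)) (τ.top i) (τ.top (i + 1)) := by
  rw [g_vp_last h1, g_top, g_top, cr_ip]
  have h2 : τ.nu = 100 * ((τ.M : ℤ) + 1) := rfl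
  have h3 : (i : ℤ) + 1 ≤ τ.M := by exact_mod_cast hi
  have hRc : 108 ≤ τ.Rc := by
    unfold Rc
    have : (0 : ℤ) ≤ τ.Xr := Int.natCast_nonneg _
    linarith
  have hi0 : (0 : ℤ) ≤ i := Int.natCast_nonneg _
  have hnu := nu_pos (τ := τ)
  have hX0 : 0 < τ.Rc * τ.nu - i := by nlinarith
  refine Int.cast_pos.2 ?_
  push_cast
  nlinarith

/-! ### ring 0 -/

private theorem g_edge (a b L x y : ℤ) :
    cr (ip b (b ^ 2 + L)) (ip a (a ^ 2 + L)) (ip x y) =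
      (((b - a) * ((a + b) * x - a * b + L - y) : ℤ) : ℝ) := by
  rw [cr_ip]
  congr 1
  ring

private theorem g_edgeA {a b L : ℤ} (ha : -τ.Xm ≤ a) (hab : a < b) (hb : b ≤ τ.Xm) (hL : 0 ≤ L)
    (hs : a + b ≤ -3) : 0 < cr (ip b (b ^ 2 + L)) (ip a (a ^ 2 + L)) τ.ca := by
  rw [g_ca, g_edge]
  refine Int.cast_pos.2 (mul_pos (by linarith) ?_)
  have h := z_edge ha hab hb hL (Lam_nonneg (τ := τ) τ.M) g_H1
    (show 1 ≤ -(a + b) - 2 by linarith)
  have e : (a + b) * -τ.H - a * b + L - 2 * τ.H = (-(a + b) - 2) * τ.H - a * b + L := by ring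
  rw [e]
  exact h

private theorem g_edgeB {a b L : ℤ} (ha : -τ.Xm ≤ a) (hab : a < b) (hb : b ≤ τ.Xm) (hL : 0 ≤ L) :
    0 < cr (ip b (b ^ 2 + L)) (ip a (a ^ 2 + L)) τ.cb := by
  rw [g_cb, g_edge]
  refine Int.cast_pos.2 (mul_pos (by linarith) ?_)
  have h := z_edge ha hab hb hL (Lam_nonneg (τ := τ) τ.M) g_H1 (le_refl 1)
  have e : (a + b) * 0 - a * b + L - -τ.H = 1 * τ.H - a * b + L := by ring
  rw [e]
  exact h

private theorem g_edgeC {a b L : ℤ} (ha : -τ.Xm ≤ a) (hab : a < b) (hb : b ≤ τ.Xm) (hL : 0 ≤ L)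
    (hs : 3 ≤ a + b) : 0 < cr (ip b (b ^ 2 + L)) (ip a (a ^ 2 + L)) τ.cc := by
  rw [g_cc, g_edge]
  refine Int.cast_pos.2 (mul_pos (by linarith) ?_)
  have h := z_edge ha hab hb hL (Lam_nonneg (τ := τ) τ.M) g_H1
    (show 1 ≤ (a + b) - 2 by linarith)
  have e : (a + b) * τ.H - a * b + L - 2 * τ.H = ((a + b) - 2) * τ.H - a * b + L := by ring
  rw [e]
  exact h

private theorem g_lv1 {k : ℕ} : τ.lv st 1 k = τ.Lam 1 := by
  unfold lv
  rw [if_neg]
  have h1 : 1 < τ.i0 := by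
    unfold i0
    omega
  unfold K md
  rw [if_pos h1, if_pos h1]
  omega

private theorem g_vp1 {k : ℕ} (hk : 1 ≤ k) (hk' : k ≤ 6) :
    τ.vp st 1 k = ip (-108 * τ.nu + k) ((-108 * τ.nu + k) ^ 2 + τ.Lam 1) := by
  have h1 : 1 < τ.i0 := by
    unfold i0
    omega
  rw [vp_eq le_rfl hk (by omega), g_lv1]
  have h2 : τ.xv st 1 k = -108 * τ.nu + k := by
    unfold xv K
    rw [if_pos h1, if_pos (by omega)]
    push_cast
    ring
  rw [h2, g_par]

private theorem g_vp1' {k : ℕ} (hk : 7 ≤ k) (hk' : k ≤ 8) :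
    τ.vp st 1 k = ip (τ.Rc * τ.nu - 1 - (8 - k)) ((τ.Rc * τ.nu - 1 - (8 - k)) ^ 2 + τ.Lam 1) := by
  have h1 : 1 < τ.i0 := by
    unfold i0
    omega
  rw [vp_eq le_rfl (by omega) (by omega), g_lv1]
  have h2 : τ.xv st 1 k = τ.Rc * τ.nu - 1 - (8 - k) := by
    unfold xv K md
    rw [if_pos h1, if_pos h1, if_neg (by omega), if_neg (by omega)]
    push_cast
    ring
  rw [h2, g_par]

private theorem g_vp0 : τ.vp st 1 0 = ip 0 (τ.H - 1) := by
  have h : τ.vp st 1 0 = τ.top 1 := by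
    unfold vp
    rw [if_neg (by omega), if_pos (by omega)]
  rw [h, g_top]
  norm_num

private theorem g_vp9 : τ.vp st 1 9 = ip 0 (τ.H - 1) := by
  have h : τ.vp st 1 9 = τ.top 1 := by
    unfold vp
    rw [if_neg (by omega), if_pos (by omega)]
  rw [h, g_top]
  norm_num

theorem zeroU (hg : τ.Good) (hs : τ.OkSt st) {k e : ℕ} (hk : k < 3) (he : l0 0 k ≤ e)
    (he' : e < l0 0 (k + 1)) :
    0 < cr (τ.vp st 1 (e + 1)) (τ.vp st 1 e) (τ.vp st 0 k) := by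
  have hL := Lam_nonneg (τ := τ) 1
  have hLM : τ.Lam 1 ≤ τ.Lam τ.M := by
    apply g_Lam
    unfold M i0
    omega
  have hnu := nu_pos (τ := τ)
  have hnuX := g_nuX (τ := τ)
  have hRcX := g_RcX (τ := τ)
  have hH := g_H1 (τ := τ)
  have hXm := Xm_pos (τ := τ)
  have hRc : 108 ≤ τ.Rc := by
    unfold Rc
    have : (0 : ℤ) ≤ τ.Xr := Int.natCast_nonneg _
    linarith
  have hR : 108 * τ.nu ≤ τ.Rc * τ.nu := mul_le_mul_of_nonneg_right hRc (by linarith)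
  have hp0 : τ.vp st 0 0 = τ.ca := by simp [vp]
  have hp1 : τ.vp st 0 1 = τ.cb := by simp [vp]
  have hp2 : τ.vp st 0 2 = τ.cc := by simp [vp]
  simp only [l0, if_true] at he he'
  interval_cases k
  · rw [hp0]
    have h0 : e < 3 := by omega
    interval_cases e
    · rw [g_vp1 le_rfl (by norm_num), g_vp0, g_ca, cr_ip]
      refine Int.cast_pos.2 ?_
      have h := z_corner (x := -(-108 * τ.nu + ((0 + 1 : ℕ) : ℤ))) (X := τ.Xm) (H := τ.H)
        (L := τ.Lam 1) (LM := τ.Lam τ.M) (by push_cast; linarith) (by push_cast; linarith) hLM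
        (Lam_nonneg (τ := τ) τ.M) hH
      refine lt_of_lt_of_eq h ?_
      ring
    · rw [g_vp1 le_rfl (by norm_num), g_vp1 (by norm_num) (by norm_num)]
      exact g_edgeA (by push_cast; linarith) (by push_cast; linarith) (by push_cast; linarith) hL
        (by push_cast; linarith)
    · rw [g_vp1 (by norm_num) (by norm_num), g_vp1 (by norm_num) (by norm_num)]
      exact g_edgeA (by push_cast; linarith) (by push_cast; linarith) (by push_cast; linarith) hL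
        (by push_cast; linarith)
  · rw [hp1]
    have h0 : e < 6 := by omega
    have h0' : 3 ≤ e := by omega
    rw [g_vp1 (by omega) (by omega), g_vp1 (by omega) (by omega)]
    have h3 : (e : ℤ) < 6 := by exact_mod_cast h0
    have h4 : 3 ≤ (e : ℤ) := by exact_mod_cast h0'
    exact g_edgeB (by push_cast; linarith) (by push_cast; linarith) (by push_cast; linarith) hL
  · rw [hp2]
    have h0 : e < 9 := by omega
    interval_cases e
    · rw [g_vp1' (by norm_num) (by norm_num), g_vp1 (by norm_num) (by norm_num)]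
      exact g_edgeC (by push_cast; linarith) (by push_cast; linarith) (by push_cast; linarith) hL
        (by push_cast; linarith)
    · rw [g_vp1' (by norm_num) (by norm_num), g_vp1' (by norm_num) (by norm_num)]
      exact g_edgeC (by push_cast; linarith) (by push_cast; linarith) (by push_cast; linarith) hL
        (by push_cast; linarith)
    · rw [g_vp9, g_vp1' (by norm_num) (by norm_num), g_cc, cr_ip]
      refine Int.cast_pos.2 ?_
      have h := z_corner (x := τ.Rc * τ.nu - 1 - (8 - ((8 : ℕ) : ℤ))) (X := τ.Xm) (H := τ.H)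
        (L := τ.Lam 1) (LM := τ.Lam τ.M) (by push_cast; linarith) (by push_cast; linarith) hLM
        (Lam_nonneg (τ := τ) τ.M) hH
      refine lt_of_lt_of_eq h ?_
      ring

theorem hull_vert (hg : τ.Good) (hs : τ.OkSt st) {i : ℕ} (h1 : 1 ≤ i) (hi : i ≤ τ.M) (k : ℤ) :
    0 < cr τ.ca τ.cb (τ.vert st i k) ∧ 0 < cr τ.cb τ.cc (τ.vert st i k) ∧
    0 < cr τ.cc τ.ca (τ.vert st i k) := by
  obtain ⟨j, hj1, hj2, hj3⟩ := vert_mem hg hs h1 hi k
  exact (rings hg).inner j _ hj1 hj2 hj3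

theorem zeroL (hg : τ.Good) (hs : τ.OkSt st) {k : ℕ} (hk : k < 3) :
    0 < cr (τ.vp st 0 k) (τ.vp st 0 (k + 1)) (τ.vp st 1 (l0 0 (k + 1))) := by
  have hM : 1 ≤ τ.M := by
    unfold M i0
    omega
  have hp0 : τ.vp st 0 0 = τ.ca := by simp [vp]
  have hp1 : τ.vp st 0 1 = τ.cb := by simp [vp]
  have hp2 : τ.vp st 0 2 = τ.cc := by simp [vp]
  have hp3 : τ.vp st 0 3 = τ.ca := by simp [vp]
  have h3 : τ.vert st 1 3 = τ.vp st 1 3 := by
    unfold vert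
    congr 1
  have h6 : τ.vert st 1 6 = τ.vp st 1 6 := by
    unfold vert
    congr 1
  have h9 : τ.vert st 1 9 = τ.vp st 1 9 := by
    rw [g_vp9, ← g_vp0 (st := st)]
    unfold vert
    congr 1
  simp only [l0, if_true]
  interval_cases k
  · rw [hp0]
    show 0 < cr τ.ca (τ.vp st 0 1) (τ.vp st 1 3)
    rw [hp1, ← h3]
    exact (hull_vert hg hs le_rfl hM 3).1
  · rw [hp1]
    show 0 < cr τ.cb (τ.vp st 0 2) (τ.vp st 1 6)
    rw [hp2, ← h6]
    exact (hull_vert hg hs le_rfl hM 6).2.1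
  · rw [hp2]
    show 0 < cr τ.cc (τ.vp st 0 3) (τ.vp st 1 9)
    rw [hp3, ← h9]
    exact (hull_vert hg hs le_rfl hM 9).2.2

/-! ### the last ring -/

private theorem g_lvM (hg : τ.Good) (hs : τ.OkSt st) (k : ℕ) : τ.lv st τ.M k = τ.Lam τ.M := by
  unfold lv
  have h1 : (τ.M - τ.i0) / 2 = τ.P := by
    unfold M
    omega
  rw [h1, dlm_top hg hs]
  split_ifs
  · ring
  · rfl

private theorem g_xvM (hg : τ.Good) (hs : τ.OkSt st) {k k' : ℕ} (h1 : 1 ≤ k) (h : k < k')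
    (h2 : k' ≤ 6 * τ.M + 2) : τ.xv st τ.M k < τ.xv st τ.M k' := by
  have hM : 1 ≤ τ.M := by
    unfold M i0
    omega
  induction k', (show k + 1 ≤ k' from h) using Nat.le_induction with
  | base => exact xv_mono hg hs hM le_rfl h1 (by omega)
  | succ n hn ih =>
    exact (ih (by omega) (by omega)).trans (xv_mono hg hs hM le_rfl (by omega) (by omega))

private theorem g_posM (hg : τ.Good) (hs : τ.OkSt st) {k1 k2 k3 : ℕ} (h1 : k1 < k2) (h2 : k2 < k3)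
    (h3 : k3 < 6 * τ.M + 3) : 0 < cr (τ.vp st τ.M k1) (τ.vp st τ.M k2) (τ.vp st τ.M k3) := by
  have hM : 1 ≤ τ.M := by
    unfold M i0
    omega
  rw [vp_eq hM (by omega) (by omega : k2 ≤ 6 * τ.M + 2), vp_eq hM (by omega) (by omega : k3 ≤ 6 * τ.M + 2),
    g_lvM hg hs, g_lvM hg hs]
  have h23 := g_xvM hg hs (by omega) h2 (by omega)
  rcases Nat.eq_zero_or_pos k1 with h | h
  · have h0 : τ.vp st τ.M k1 = τ.top τ.M := by
      rw [h]
      unfold vp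
      rw [if_neg (by omega), if_pos (Nat.zero_mod _)]
    rw [h0, g_top, g_par, g_par, cr_ip]
    refine Int.cast_pos.2 ?_
    have hb2 := xv_bounds hg hs hM le_rfl (show 1 ≤ k2 by omega) (by omega)
    have hb3 := xv_bounds hg hs hM le_rfl (show 1 ≤ k3 by omega) (by omega)
    have hnuX := g_nuX (τ := τ)
    have hRcX := g_RcX (τ := τ)
    have hH := g_H1 (τ := τ)
    obtain ⟨_, h7, h8⟩ := H_big (τ := τ)
    exact z_posM (by linarith) h23 (by linarith) hH h7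
  · rw [vp_eq hM h (by omega : k1 ≤ 6 * τ.M + 2), g_lvM hg hs, cr_par]
    have h12 := g_xvM hg hs h h1 (by omega)
    refine Int.cast_pos.2 ?_
    unfold ori
    have e1 : 0 < (τ.xv st τ.M k2 - τ.xv st τ.M k1) * (τ.xv st τ.M k3 - τ.xv st τ.M k1) *
        (τ.xv st τ.M k3 - τ.xv st τ.M k2) :=
      mul_pos (mul_pos (by linarith) (by linarith)) (by linarith)
    nlinarith

theorem posT (hg : τ.Good) (hs : τ.OkSt st) {a b c : ℤ} (h1 : a < b) (h2 : b < c)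
    (h3 : c < a + (6 * (τ.M : ℤ) + 3)) :
    0 < cr (τ.vert st τ.M a) (τ.vert st τ.M b) (τ.vert st τ.M c) := by
  obtain ⟨W, hW⟩ : ∃ W : ℕ, W = 6 * τ.M + 3 := ⟨_, rfl⟩
  have hWZ : 6 * (τ.M : ℤ) + 3 = (W : ℤ) := by rw [hW]; push_cast; ring
  have hW0 : (0 : ℤ) < W := by rw [← hWZ]; positivity
  have hv : ∀ (k : ℤ) (q : ℤ) (r : ℕ), k = W * q + r → r < W →
      τ.vert st τ.M k = τ.vp st τ.M r := by
    intro k q r hk hr
    unfold vert
    rw [hWZ]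
    have : k % (W : ℤ) = r := by
      rw [hk, add_comm, Int.add_mul_emod_self_left]
      exact Int.emod_eq_of_lt (Int.natCast_nonneg _) (by exact_mod_cast hr)
    rw [this, Int.toNat_natCast]
  rw [hWZ] at h3
  obtain ⟨q, r, hr, ha⟩ : ∃ (q : ℤ) (r : ℕ), r < W ∧ a = W * q + r := by
    refine ⟨a / W, (a % W).toNat, ?_, ?_⟩
    · have e1 := Int.emod_lt_of_pos a hW0
      have e2 := Int.emod_nonneg a hW0.ne'
      omega
    · rw [Int.toNat_of_nonneg (Int.emod_nonneg a hW0.ne')]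
      exact (Int.mul_ediv_add_emod a W).symm
  obtain ⟨s, hs'⟩ : ∃ s : ℕ, b = a + s := ⟨(b - a).toNat, by omega⟩
  obtain ⟨t, ht'⟩ : ∃ t : ℕ, c = a + t := ⟨(c - a).toNat, by omega⟩
  have hst : s < t := by omega
  have hs0 : 0 < s := by omega
  have htW : t < W := by omega
  rcases Nat.lt_or_ge (r + t) W with hc | hc
  · rw [hv a q r ha hr, hv b q (r + s) (by rw [hs', ha]; push_cast; ring) (by omega),
      hv c q (r + t) (by rw [ht', ha]; push_cast; ring) hc]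
    exact g_posM hg hs (by omega) (by omega) (by omega)
  · rw [hv a q r ha hr, hv c (q + 1) (r + t - W)
      (by rw [ht', ha]; push_cast [Nat.cast_sub hc]; ring) (by omega)]
    rcases Nat.lt_or_ge (r + s) W with hb | hb
    · rw [hv b q (r + s) (by rw [hs', ha]; push_cast; ring) hb, cr_rot, cr_rot]
      exact g_posM hg hs (by omega) (by omega) (by omega)
    · rw [hv b (q + 1) (r + s - W)
        (by rw [hs', ha]; push_cast [Nat.cast_sub hb]; ring) (by omega), cr_rot]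
      exact g_posM hg hs (by omega) (by omega) (by omega)

end Tab

end Pool.Agent.Helper70.MD
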