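import Pool.Agent.Helper70.MD.G3d
import Pool.Agent.Helper70.MD.G3e
import Pool.Agent.Helper70.MD.G3f
import Pool.Agent.Helper70.MD.G3g
import Pool.Agent.Helper70.MD.G2a
import Pool.Agent.Helper70.MD.G2b
import Pool.Agent.Helper70.MD.G1d

/-!
MD-G4: completeness: a solution of the loop system gives a triangulation of degree at most 6.

`finU`: `i = 0`: `zeroU`. `1 ≤ i < M`: `k = 0`: `l0 i 0 = 0`, `l0 i 1 = 1`, so `e = 0`: `topU0`
(`vp (i+1) 0 = top (i+1)`, `vp i 0 = top i`). `e + 1 = 6 (i+1) + 3`: then `k = 6 i + 2` (the only `k < 6 i + 3` with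
`l0 i k ≤ 6 i + 8 < l0 i (k+1)`), `topU1` (`vp (i+1) (6 i + 9) = top (i+1)`). Otherwise `k ≥ 1`,
`e ≥ 1`, `e + 1 ≤ 6 (i+1) + 2`: `vp_eq`, `cr_par` and `lowU` (`i < i0`), `evenU`, `oddU`
(`i < M = i0 + 2 P`, so `i = i0 + 2 p` or `i0 + 2 p + 1` with `p < P`). `finL`: `i = 0`: `zeroL`; `k = 0`:
`topL0`; `k = 6 i + 2`: `topL1` (`l0 i (6 i + 3) = 6 (i+1) + 3`); otherwise `lowL`, `evenL`, `oddL`
(`1 ≤ l0 i (k+1) ≤ 6 (i+1) + 2` by `l0_mono`, `l0_lt`).
`ringSys`: `M_pos`: `M = Xr + 8 + 2 P`. `W i = 6 i + 3`. `W_top`: `6 M + 3 = 2 (3 M + 1) + 1`. `inj`: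
`vert_inj`. `l_mono`, `l_per`: G3i. `posU`: let `W = 6 i + 3`, `W' = 6 (i+1) + 3`,
`k = W q + k0`, `0 ≤ k0 < W`. By `lz_eq` `lz i k = W' q + l0 i k0`, `lz i (k+1) = W' q + l0 i (k0+1)`; so
`e = W' q + e0` with `l0 i k0 ≤ e0 < l0 i (k0+1) ≤ W'`; `vert i k = vp i k0`,
`vert (i+1) e = vp (i+1) e0`, `vert (i+1) (e+1) = vp (i+1) (e0+1)` (if `e0 + 1 = W'` both are the
vertex `0`, as `vp (i+1) W' = vp (i+1) 0` by definition of `vp`): `finU`. `posL` in the same way from
`finL`. `posT`, `hull`, `tri`: G3g (`vert 0 0 = ca`, `vert 0 1 = cb`, `vert 0 2 = cc`).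
`complete`: `ringSys`, `faceSys` with `mem_S`, `isTri`; `maxDeg` with `lz_zero`, `lz_turn`.
-/

set_option autoImplicit false

namespace Pool.Agent.Helper70.MD

open Finset

open scoped Classical

namespace Tab

variable {τ : Tab} {st : ℕ → ℕ → St}

private lemma g4_l0_one {i : ℕ} (h1 : 1 ≤ i) : l0 i 1 = 1 := by
  unfold l0 tau
  rw [if_neg (by omega), if_neg (by omega), if_neg (by omega), if_neg (by omega),
    if_neg (by omega), if_neg (by omega), if_neg (by omega)]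

private lemma g4_le_l0 {i : ℕ} (h1 : 1 ≤ i) (k : ℕ) : k ≤ l0 i k := by
  unfold l0
  rw [if_neg (by omega)]
  omega

private lemma g4_l0_le_top {i k : ℕ} (hk : k < 6 * i + 3) : l0 i (k + 1) ≤ 6 * (i + 1) + 3 := by
  by_cases h : k + 1 < 6 * i + 3
  · exact (l0_lt h).le
  · rw [show k + 1 = 6 * i + 3 by omega, l0_top]

private lemma g4_vp_top {i : ℕ} (h1 : 1 ≤ i) : τ.vp st i 0 = τ.top i := by
  unfold vp
  rw [if_neg (by omega), Nat.zero_mod, if_pos rfl]

private lemma g4_vp_top' {i : ℕ} (h1 : 1 ≤ i) : τ.vp st i (6 * i + 3) = τ.top i := by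
  unfold vp
  rw [if_neg (by omega), Nat.mod_self, if_pos rfl]

private lemma g4_row {i : ℕ} (hi : i < τ.M) (h0 : ¬ i < τ.i0) :
    ∃ p < τ.P, i = τ.i0 + 2 * p ∨ i = τ.i0 + 2 * p + 1 := by
  have hM : τ.M = τ.i0 + 2 * τ.P := rfl
  refine ⟨(i - τ.i0) / 2, by omega, by omega⟩

theorem finU (hg : τ.Good) (hs : τ.Checks st) {i k e : ℕ} (hi : i < τ.M) (hk : k < 6 * i + 3)
    (he : l0 i k ≤ e) (he' : e < l0 i (k + 1)) :
    0 < cr (τ.vp st (i + 1) (e + 1)) (τ.vp st (i + 1) e) (τ.vp st i k) := by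
  rcases Nat.eq_zero_or_pos i with rfl | h1
  · exact zeroU hg hs.1 (by omega) he he'
  · rcases Nat.eq_zero_or_pos k with rfl | hk1
    · rw [Nat.zero_add, g4_l0_one h1] at he'
      have e0 : e = 0 := by omega
      subst e0
      rw [g4_vp_top (by omega), g4_vp_top h1]
      exact topU0 hg hs.1 h1 hi
    · have he1 : 1 ≤ e := by
        have := g4_le_l0 h1 k
        omega
      have htop := g4_l0_le_top hk
      by_cases hlast : e + 1 = 6 * (i + 1) + 3
      · have hk2 : k = 6 * i + 2 := by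
          by_contra hcon
          have := l0_lt (i := i) (k := k + 1) (by omega)
          omega
        rw [hlast, g4_vp_top' (by omega), hk2, show e = 6 * i + 8 by omega]
        exact topU1 hg hs.1 h1 hi
      · rw [vp_eq (by omega) (by omega) (by omega), vp_eq (by omega) he1 (by omega),
          vp_eq h1 hk1 (by omega), cr_par]
        apply Int.cast_pos.2
        by_cases h0 : i < τ.i0
        · exact lowU hg hs.1 h1 h0 hk1 (by omega) he1 (by omega)
        · obtain ⟨p, hp, h | h⟩ := g4_row hi h0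
          · exact evenU hg hs.1 hp h hk1 (by omega) he he' (by omega)
          · exact oddU hg hs hp h hk1 (by omega) he he' (by omega)

theorem finL (hg : τ.Good) (hs : τ.Checks st) {i k : ℕ} (hi : i < τ.M) (hk : k < 6 * i + 3) :
    0 < cr (τ.vp st i k) (τ.vp st i (k + 1)) (τ.vp st (i + 1) (l0 i (k + 1))) := by
  rcases Nat.eq_zero_or_pos i with rfl | h1
  · exact zeroL hg hs.1 (by omega)
  · rcases Nat.eq_zero_or_pos k with rfl | hk1
    · rw [Nat.zero_add, g4_l0_one h1, g4_vp_top h1]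
      exact topL0 hg hs.1 h1 hi
    · by_cases hlast : k = 6 * i + 2
      · rw [hlast, show 6 * i + 2 + 1 = 6 * i + 3 from rfl, l0_top, g4_vp_top' h1,
          g4_vp_top' (by omega)]
        exact topL1 hg hs.1 h1 hi
      · have h2 := l0_lt (i := i) (k := k + 1) (by omega)
        have h3 := g4_le_l0 h1 (k + 1)
        rw [vp_eq (i := i + 1) (by omega) (by omega) (by omega), vp_eq h1 hk1 (by omega),
          vp_eq h1 (by omega) (by omega), cr_par]
        apply Int.cast_pos.2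
        by_cases h0 : i < τ.i0
        · exact lowL hg hs.1 h1 h0 hk1 (by omega) (by omega) (by omega)
        · obtain ⟨p, hp, h | h⟩ := g4_row hi h0
          · exact evenL hg hs.1 hp h hk1 (by omega) rfl
          · exact oddL hg hs hp h hk1 (by omega) rfl

private lemma g4_vert (i : ℕ) (q : ℤ) (k : ℕ) (h : k ≤ 6 * i + 3) :
    τ.vert st i ((6 * (i : ℤ) + 3) * q + k) = τ.vp st i k := by
  unfold vert
  rw [Int.mul_add_emod_self_left]
  by_cases hk : k = 6 * i + 3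
  · subst hk
    have h1 : (((6 * i + 3 : ℕ) : ℤ)) % (6 * (i : ℤ) + 3) = 0 := by
      push_cast
      exact Int.emod_self
    rw [h1, Int.toNat_zero]
    rcases Nat.eq_zero_or_pos i with rfl | h1
    · unfold vp
      simp
    · rw [g4_vp_top h1, g4_vp_top' h1]
  · have h1 : ((k : ℕ) : ℤ) % (6 * (i : ℤ) + 3) = k := Int.emod_eq_of_lt (by omega) (by omega)
    rw [h1, Int.toNat_natCast]

private lemma g4_split (i : ℕ) (k : ℤ) :
    ∃ (q : ℤ) (k0 : ℕ), k0 < 6 * i + 3 ∧ k = (6 * (i : ℤ) + 3) * q + k0 := by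
  have h1 : 0 ≤ k % (6 * (i : ℤ) + 3) := Int.emod_nonneg _ (by omega)
  have h2 : k % (6 * (i : ℤ) + 3) < 6 * (i : ℤ) + 3 := Int.emod_lt_of_pos _ (by omega)
  have h3 := Int.mul_ediv_add_emod k (6 * (i : ℤ) + 3)
  refine ⟨k / (6 * (i : ℤ) + 3), (k % (6 * (i : ℤ) + 3)).toNat, by omega, ?_⟩
  rw [Int.toNat_of_nonneg h1]
  exact h3.symm

private lemma g4_tri (H : ℝ) (hH : 0 < H) : 0 < cr (-H, 2 * H) (0, -H) (H, 2 * H) := by
  unfold cr
  simp only
  nlinarith [mul_pos hH hH]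

theorem ringSys (hg : τ.Good) (hs : τ.Checks st) :
    RingSys τ.M (fun i => 6 * i + 3) (τ.vert st) lz := by
  have hM : τ.M = τ.i0 + 2 * τ.P := rfl
  have hi0 : τ.i0 = τ.Xr + 8 := rfl
  have v00 : τ.vert st 0 0 = τ.ca := by
    unfold vert vp
    simp
  have v01 : τ.vert st 0 1 = τ.cb := by
    unfold vert vp
    simp
  have v02 : τ.vert st 0 2 = τ.cc := by
    unfold vert vp
    simp
  refine ⟨by omega, fun i => by omega, by omega, ⟨3 * τ.M + 1, by omega⟩, ?_, ?_, ?_, ?_, ?_, ?_,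
    ?_, ?_⟩
  · intro i j k k' hi hj
    rw [vert_inj hg hs.1 k k' hi hj]
    push_cast
    rfl
  · intro i _ k
    exact lz_mono i k
  · intro i _ k
    have := lz_per i k
    push_cast
    exact this
  · intro i hi k e he he'
    obtain ⟨q, k0, hk0, rfl⟩ := g4_split i k
    rw [lz_eq i q k0 hk0.le] at he
    rw [show (6 * (i : ℤ) + 3) * q + k0 + 1 = (6 * (i : ℤ) + 3) * q + ((k0 + 1 : ℕ) : ℤ) by
      push_cast; ring, lz_eq i q (k0 + 1) (by omega)] at he'
    obtain ⟨e0, he0⟩ : ∃ e0 : ℕ, e = (6 * ((i : ℤ) + 1) + 3) * q + e0 := by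
      refine ⟨(e - (6 * ((i : ℤ) + 1) + 3) * q).toNat, ?_⟩
      rw [Int.toNat_of_nonneg (by omega)]
      ring
    subst he0
    have h1 : l0 i k0 ≤ e0 := by omega
    have h2 : e0 < l0 i (k0 + 1) := by omega
    have h3 := g4_l0_le_top hk0
    rw [g4_vert i q k0 hk0.le]
    have h4 : τ.vert st (i + 1) ((6 * ((i : ℤ) + 1) + 3) * q + e0) = τ.vp st (i + 1) e0 := by
      have := g4_vert (τ := τ) (st := st) (i + 1) q e0 (by omega)
      push_cast at this
      exact this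
    have h5 : τ.vert st (i + 1) ((6 * ((i : ℤ) + 1) + 3) * q + e0 + 1) =
        τ.vp st (i + 1) (e0 + 1) := by
      have := g4_vert (τ := τ) (st := st) (i + 1) q (e0 + 1) (by omega)
      push_cast at this
      rw [← add_assoc] at this
      exact this
    rw [h4, h5]
    exact finU hg hs hi hk0 h1 h2
  · intro i hi k
    obtain ⟨q, k0, hk0, rfl⟩ := g4_split i k
    have h3 := g4_l0_le_top hk0
    rw [show (6 * (i : ℤ) + 3) * q + k0 + 1 = (6 * (i : ℤ) + 3) * q + ((k0 + 1 : ℕ) : ℤ) by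
      push_cast; ring, lz_eq i q (k0 + 1) (by omega), g4_vert i q k0 hk0.le,
      g4_vert i q (k0 + 1) (by omega)]
    have h4 : τ.vert st (i + 1) ((6 * ((i : ℤ) + 1) + 3) * q + (l0 i (k0 + 1) : ℕ)) =
        τ.vp st (i + 1) (l0 i (k0 + 1)) := by
      have := g4_vert (τ := τ) (st := st) (i + 1) q (l0 i (k0 + 1)) (by omega)
      push_cast at this
      exact this
    rw [h4]
    exact finL hg hs hi hk0
  · intro a b c h1 h2 h3
    refine posT hg hs.1 h1 h2 ?_
    push_cast at h3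
    exact h3
  · intro i k h1 hi
    rw [v00, v01, v02]
    exact hull_vert hg hs.1 h1 hi k
  · rw [v00, v01, v02]
    have h1 := (H_big (τ := τ)).1
    have h2 := Xm_pos (τ := τ)
    have h3 := Lam_nonneg (τ := τ) τ.M
    have h4 : 0 < 16 * τ.Xm * (τ.Lam τ.M + τ.Xm ^ 2) :=
      mul_pos (mul_pos (by norm_num) h2) (add_pos_of_nonneg_of_pos h3 (pow_pos h2 2))
    have hH : 0 < τ.H := lt_of_lt_of_eq h4 h1
    have hH' : (0 : ℝ) < (τ.H : ℝ) := Int.cast_pos.2 hH
    exact g4_tri _ hH'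

/-- Completeness. -/
theorem complete (hg : τ.Good) (h : τ.LoopSat) :
    ∃ T : SimpleGraph Pt, IsTri τ.S T ∧ MaxDegLE T 6 := by
  obtain ⟨st, hst, hch⟩ := h
  have hs : τ.Checks st := ⟨hst, hch⟩
  have hR := ringSys hg hs
  refine ⟨faceGraph (rfaces τ.M (fun i => 6 * i + 3) (τ.vert st) lz),
    (hR.faceSys (mem_S hg hst)).isTri, hR.maxDeg lz_zero ?_⟩
  intro i k h1 _
  exact lz_turn i k h1

end Tab

end Pool.Agent.Helper70.MD
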