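import Pool.Agent.Helper70.MD.DDefs

/-!
Face systems and ring systems.
-/

set_option autoImplicit false

namespace Pool.Agent.Helper70.MD

open Finset

open scoped Classical

/-- A system of counterclockwise triangles (closed under rotation) on the point set `S` which looks
combinatorially like a triangulation of the triangle `A B C`. -/
structure FaceSys (S : Finset Pt) (F : Set (Pt × Pt × Pt)) (A B C : Pt) : Prop where
  mem : ∀ u v w, (u, v, w) ∈ F → u ∈ S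
  pos : ∀ u v w, (u, v, w) ∈ F → 0 < cr u v w
  rot : ∀ u v w, (u, v, w) ∈ F → (v, w, u) ∈ F
  unique : ∀ u v w w', (u, v, w) ∈ F → (u, v, w') ∈ F → w = w'
  rev : ∀ u v w, (u, v, w) ∈ F → (∃ w', (v, u, w') ∈ F) ∨ (u = A ∧ v = B) ∨ (u = B ∧ v = C) ∨
    (u = C ∧ v = A)
  cornerAB : ∃ w, (A, B, w) ∈ F
  cornerBC : ∃ w, (B, C, w) ∈ F
  cornerCA : ∃ w, (C, A, w) ∈ F
  vertex : ∀ p ∈ S, ∃ v w, (p, v, w) ∈ F
  tri : 0 < cr A B C
  hull : ∀ p ∈ S, p ≠ A → p ≠ B → p ≠ C → 0 < cr A B p ∧ 0 < cr B C p ∧ 0 < cr C A p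

/-- The graph of the edges of the triangles. -/
def faceGraph (F : Set (Pt × Pt × Pt)) : SimpleGraph Pt where
  Adj a b := a ≠ b ∧ ∃ w, (a, b, w) ∈ F ∨ (b, a, w) ∈ F
  symm := ⟨fun _ _ h => ⟨h.1.symm, h.2.imp fun _ => Or.symm⟩⟩
  loopless := ⟨fun _ h => h.1 rfl⟩

/-- Crossing function: signed crossing of the downward vertical ray from `y` with the segment from
`a` to `b`. -/
noncomputable def xf (a b y : Pt) : ℤ :=
  if a.1 ≤ y.1 ∧ y.1 < b.1 ∧ 0 < cr a b y then 1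
  else if b.1 ≤ y.1 ∧ y.1 < a.1 ∧ 0 < cr b a y then -1 else 0

/-- `y` is in the open triangle. -/
def InOpen (a b c y : Pt) : Prop := 0 < cr a b y ∧ 0 < cr b c y ∧ 0 < cr c a y

/-- Concentric rings of vertices with the position functions `l i` between consecutive rings. -/
structure RingSys (M : ℕ) (W : ℕ → ℕ) (vert : ℕ → ℤ → Pt) (l : ℕ → ℤ → ℤ) : Prop where
  M_pos : 1 ≤ M
  W_ge : ∀ i, 3 ≤ W i
  W_zero : W 0 = 3
  W_top : ∃ m, W M = 2 * m + 1
  inj : ∀ i j k k', i ≤ M → j ≤ M → (vert i k = vert j k' ↔ i = j ∧ (W i : ℤ) ∣ k - k')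
  l_mono : ∀ i < M, ∀ k, l i k < l i (k + 1)
  l_per : ∀ i < M, ∀ k, l i (k + W i) = l i k + W (i + 1)
  posU : ∀ i < M, ∀ k e, l i k ≤ e → e < l i (k + 1) →
    0 < cr (vert (i + 1) (e + 1)) (vert (i + 1) e) (vert i k)
  posL : ∀ i < M, ∀ k, 0 < cr (vert i k) (vert i (k + 1)) (vert (i + 1) (l i (k + 1)))
  posT : ∀ a b c : ℤ, a < b → b < c → c < a + W M → 0 < cr (vert M a) (vert M b) (vert M c)
  hull : ∀ i k, 1 ≤ i → i ≤ M → 0 < cr (vert 0 0) (vert 0 1) (vert i k) ∧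
    0 < cr (vert 0 1) (vert 0 2) (vert i k) ∧ 0 < cr (vert 0 2) (vert 0 0) (vert i k)
  tri : 0 < cr (vert 0 0) (vert 0 1) (vert 0 2)

/-- The basic triangles of a ring system. -/
inductive RFace (M : ℕ) (W : ℕ → ℕ) (vert : ℕ → ℤ → Pt) (l : ℕ → ℤ → ℤ) : Pt → Pt → Pt → Prop
  | U (i : ℕ) (k e : ℤ) : i < M → l i k ≤ e → e < l i (k + 1) →
      RFace M W vert l (vert (i + 1) (e + 1)) (vert (i + 1) e) (vert i k)
  | L (i : ℕ) (k : ℤ) : i < M →
      RFace M W vert l (vert i k) (vert i (k + 1)) (vert (i + 1) (l i (k + 1)))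
  | ZA (j : ℤ) : 1 ≤ j → 2 * j + 1 < W M →
      RFace M W vert l (vert M j) (vert M (j + 1)) (vert M (-j))
  | ZB (j : ℤ) : 0 ≤ j → 2 * j + 2 < W M →
      RFace M W vert l (vert M (j + 1)) (vert M (-j - 1)) (vert M (-j))
  | rot (u v w : Pt) : RFace M W vert l u v w → RFace M W vert l v w u

/-- The triangles of a ring system as a set. -/
def rfaces (M : ℕ) (W : ℕ → ℕ) (vert : ℕ → ℤ → Pt) (l : ℕ → ℤ → ℤ) : Set (Pt × Pt × Pt) :=
  {x | RFace M W vert l x.1 x.2.1 x.2.2}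

end Pool.Agent.Helper70.MD
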