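import Pool.Agent.Helper70.MD.FDefs
import Pool.Agent.Helper70.MD.GDefs

/-!
The explicit triangulation: positions of the layer vertices and index functions.
-/

set_option autoImplicit false

namespace Pool.Agent.Helper70.MD

open Finset

open scoped Classical

/-- Number of turning vertices of ring `i` before index `k`. -/
def tau (i k : ℕ) : ℕ :=
  (if i < k then 1 else 0) + (if 2 * i < k then 1 else 0) + (if 3 * i + 1 < k then 1 else 0) +
  (if 4 * i + 1 < k then 1 else 0) + (if 5 * i + 2 < k then 1 else 0) +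
  (if 6 * i + 2 < k then 1 else 0)

/-- First edge index of ring `i + 1` seen from vertex `k` of ring `i`. -/
def l0 (i k : ℕ) : ℕ := if i = 0 then 3 * k else k + tau i k

/-- Periodic extension. -/
def lz (i : ℕ) (k : ℤ) : ℤ :=
  (6 * ((i : ℤ) + 1) + 3) * (k / (6 * (i : ℤ) + 3)) + (l0 i (k % (6 * (i : ℤ) + 3)).toNat : ℤ)

namespace Tab

variable (τ : Tab)

/-- Middle positions of the even layers. -/
def evm (st : ℕ → ℕ → St) (p j : ℕ) : ℤ :=
  if j = 0 then -90 else if j = 1 then -54 else if j = 2 then -18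
  else if j < τ.Xr + 3 then τ.ev st p (j - 3)
  else if j = τ.Xr + 3 then 24 * τ.Xr + 18
  else if j = τ.Xr + 4 then 24 * τ.Xr + 54 else 24 * τ.Xr + 90

/-- Additional levels in the even layers. -/
def dlm (st : ℕ → ℕ → St) (p j : ℕ) : ℤ :=
  if 3 ≤ j ∧ j < τ.Xr + 3 then (st p (j - 3)).dl else 0

/-- Middle positions of the odd layers. -/
noncomputable def odm (st : ℕ → ℕ → St) (p j : ℕ) : ℤ :=
  if j = 0 then -72 else if j = 1 then -36
  else if j < τ.Xr + 3 then τ.od st p (j - 2)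
  else if j = τ.Xr + 3 then 24 * τ.Xr + 36 else 24 * τ.Xr + 72

/-- Abscissa of vertex `k` of layer `i` (`1 ≤ k ≤ 6 i + 2`). -/
noncomputable def xv (st : ℕ → ℕ → St) (i k : ℕ) : ℤ :=
  if k ≤ τ.K i then -108 * τ.nu + i + ((k : ℤ) - 1)
  else if k ≤ τ.K i + τ.md i then
    τ.nu * (if (i - τ.i0) % 2 = 0 then τ.evm st ((i - τ.i0) / 2) (k - τ.K i - 1)
      else τ.odm st ((i - τ.i0) / 2) (k - τ.K i - 1))
  else τ.Rc * τ.nu - i - (6 * (i : ℤ) + 2 - k)

/-- Level of vertex `k` of layer `i`. -/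
noncomputable def lv (st : ℕ → ℕ → St) (i k : ℕ) : ℤ :=
  if τ.K i < k ∧ k ≤ τ.K i + τ.md i ∧ (i - τ.i0) % 2 = 0 then
    τ.Lam i + τ.nu ^ 2 * τ.dlm st ((i - τ.i0) / 2) (k - τ.K i - 1)
  else τ.Lam i

/-- Vertex `k` of layer `i`. -/
noncomputable def vp (st : ℕ → ℕ → St) (i k : ℕ) : Pt :=
  if i = 0 then (if k % 3 = 0 then τ.ca else if k % 3 = 1 then τ.cb else τ.cc)
  else if k % (6 * i + 3) = 0 then τ.top i else par (τ.xv st i k) (τ.lv st i k)

/-- Periodic extension. -/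
noncomputable def vert (st : ℕ → ℕ → St) (i : ℕ) (k : ℤ) : Pt :=
  τ.vp st i (k % (6 * (i : ℤ) + 3)).toNat

/-- All checks between the rows. -/
def Checks (st : ℕ → ℕ → St) : Prop :=
  τ.OkSt st ∧ ∀ p < τ.P, ∀ k, 1 ≤ k → k < τ.Xr → τ.Chk1 st p k ∧ τ.Chk2 st p k

end Tab

end Pool.Agent.Helper70.MD
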