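import Pool.Agent.Helper70.MD.IDefs

/-!
MD-I1: binary digits.

`pu_bitblk`: `2 ^ t` itself is not polynomially bounded, so first define
`pw n t = mu0 (n + 1) (fun m => 0 < m ∧ (∀ d < m + 1, d ∣ m → d = 1 ∨ 2 ∣ d) ∧
((range (m + 1)).filter (fun d => d ∣ m ∧ 0 < d)).card = t + 1)`. A positive `m` all of whose divisors other than 1 are even
is a power of two (`Nat.eq_prime_pow_of_unique_prime_dvd` or: every prime divisor is 2), and `2 ^ t`
has exactly `t + 1` divisors; so `pw n t = 2 ^ t` if `2 ^ t ≤ n` and `pw n t = n + 1` otherwise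
(`mu0_eq`, `mu0_spec`). Then `bitblk n t = if pw n t ≤ n then 1 + n / pw n t % 2 else 0`. The closure
lemmas of `Helper68.PU` (`PU.mu0`, `PU.count`, `PP.allLt`, `PP.dvd`, `PP.imp`, `PU.div`, `PU.mod`,
`PU.ite`) apply; see `PU.nthPrime` in `Helper68.Csp` for the style.
`bits_blocks`: both sides have the blocks `bit (testBit n t)` for the `t` with `2 ^ t ≤ n`; induction on
`n` by `Nat.binaryRec` or through `Nat.bits` and `Nat.testBit`; for `2 ^ t > n` the block is empty
(`tb4.getD 0 [] = []`). For example prove by strong induction on `n` for all `B` with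
`n < 2 ^ B` that `(Nat.bits n).map Γ'.bit = (List.range B).flatMap (fun t => tb4.getD (bitblk n t) [])`, using
`Nat.bits n = (n % 2 = 1) :: Nat.bits (n / 2)` for `n ≠ 0`, `List.range (B+1) = 0 :: map succ`, and
`bitblk n (t+1) = bitblk (n/2) t`.
-/

set_option autoImplicit false

namespace Pool.Agent.Helper70.MD

open Finset

open scoped Classical

open Helper68.Una Computability

/-- `m` is the power number `t` of two, in terms of divisors. -/
private def i1PW (t m : ℕ) : Prop :=
  0 < m ∧ (∀ d < m + 1, d ∣ m → d = 1 ∨ 2 ∣ d) ∧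
    ((range (m + 1)).filter (fun d => d ∣ m ∧ 0 < d)).card = t + 1

private theorem i1_card (k : ℕ) :
    ((range (2 ^ k + 1)).filter (fun d => d ∣ 2 ^ k ∧ 0 < d)).card = k + 1 := by
  have h : (range (2 ^ k + 1)).filter (fun d => d ∣ 2 ^ k ∧ 0 < d) = (2 ^ k).divisors := by
    ext d
    rw [mem_filter, mem_range, Nat.mem_divisors]
    constructor
    · rintro ⟨_, h1, _⟩
      exact ⟨h1, by positivity⟩
    · rintro ⟨h1, h2⟩
      have := Nat.le_of_dvd (by positivity) h1
      exact ⟨by omega, h1, Nat.pos_of_dvd_of_pos h1 (by positivity)⟩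
  rw [h, Nat.divisors_prime_pow Nat.prime_two, card_map, card_range]

private theorem i1PW_iff (t m : ℕ) : i1PW t m ↔ m = 2 ^ t := by
  constructor
  · rintro ⟨h1, h2, h3⟩
    rcases Nat.eq_two_pow_or_exists_odd_prime_and_dvd m with ⟨k, rfl⟩ | ⟨p, hp, hpm, hodd⟩
    · rw [i1_card] at h3
      rw [show k = t by omega]
    · exfalso
      rcases h2 p (by have := Nat.le_of_dvd h1 hpm; omega) hpm with h | h
      · exact hp.one_lt.ne' h
      · exact (Nat.not_even_iff_odd.2 hodd) (even_iff_two_dvd.2 h)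
  · rintro rfl
    refine ⟨by positivity, ?_, i1_card t⟩
    intro d _ hd
    obtain ⟨k, _, rfl⟩ := (Nat.dvd_prime_pow Nat.prime_two).1 hd
    rcases Nat.eq_zero_or_pos k with rfl | hk
    · exact Or.inl (by simp)
    · exact Or.inr (dvd_pow_self 2 hk.ne')

private theorem i1PW_pp {α : Type} [Ctx α] {t : α → ℕ} (ht : PU t) :
    PP (fun p : α × ℕ => i1PW (t p.1) p.2) := by
  unfold i1PW
  refine (PP.lt (PU.const 0) PU.snd).and (PP.and ?_ ?_)
  · exact PP.allLt (α := α × ℕ) (n := fun p => p.2 + 1)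
      (Q := fun p d => d ∣ p.2 → d = 1 ∨ 2 ∣ d) (PU.snd.add (PU.const 1))
      ((PP.dvd PU.snd PU.snd.wk).imp ((PP.eq PU.snd (PU.const 1)).or
        (PP.dvd (PU.const 2) PU.snd)))
  · exact PP.eq (PU.count (α := α × ℕ) (n := fun p => p.2 + 1)
      (Q := fun p d => d ∣ p.2 ∧ 0 < d) (PU.snd.add (PU.const 1))
      ((PP.dvd PU.snd PU.snd.wk).and (PP.lt (PU.const 0) PU.snd))) (ht.wk.add (PU.const 1))

theorem pu_bitblk {α : Type} [Ctx α] {f t : α → ℕ} (hf : PU f) (ht : PU t) :
    PU (fun a => bitblk (f a) (t a)) := by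
  have h1 : PU (fun a => mu0 (f a + 1) (i1PW (t a))) :=
    PU.mu0 (hf.add (PU.const 1)) (i1PW_pp ht)
  have h2 : PP (fun a => ∃ m < f a + 1, i1PW (t a) m) :=
    PP.exLt (hf.add (PU.const 1)) (i1PW_pp ht)
  refine (PU.ite h2 ((PU.const 1).add ((hf.div h1).mod (PU.const 2))) (PU.const 0)).congr ?_
  intro a
  unfold bitblk
  by_cases h : 2 ^ t a ≤ f a
  · rw [if_pos h, if_pos ⟨2 ^ t a, by omega, (i1PW_iff _ _).2 rfl⟩]
    have h3 : mu0 (f a + 1) (i1PW (t a)) = 2 ^ t a :=
      mu0_eq _ _ _ (by omega) ((i1PW_iff _ _).2 rfl)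
        (fun i hi hi2 => hi.ne ((i1PW_iff _ _).1 hi2))
    rw [h3]
  · rw [if_neg h, if_neg]
    rintro ⟨m, hm, hm2⟩
    rw [i1PW_iff] at hm2
    omega

private theorem i1_succ (n t : ℕ) : bitblk n (t + 1) = bitblk (n / 2) t := by
  unfold bitblk
  have h1 : 2 ^ (t + 1) ≤ n ↔ 2 ^ t ≤ n / 2 := by
    rw [Nat.le_div_iff_mul_le (by norm_num), pow_succ]
  have h2 : n / 2 ^ (t + 1) = n / 2 / 2 ^ t := by
    rw [Nat.div_div_eq_div_mul, pow_succ, mul_comm]
  simp only [h1, h2]

private theorem i1_bits (b : ℕ) : ∀ n, n < 2 ^ b → (Nat.bits n).map Γ'.bit =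
    (List.range b).flatMap (fun t => tb4.getD (bitblk n t) []) := by
  induction b with
  | zero =>
    intro n hn
    have : n = 0 := by simpa using hn
    subst this
    simp
  | succ b ih =>
    intro n hn
    have h1 := ih (n / 2) (by rw [pow_succ] at hn; omega)
    rw [List.range_succ_eq_map, List.flatMap_cons, List.flatMap_map]
    simp only [Nat.succ_eq_add_one, i1_succ]
    rw [← h1]
    rcases Nat.eq_zero_or_pos n with rfl | hn0
    · simp [bitblk, tb4]
    · have h2 : n.bits = n.bodd :: (n / 2).bits := by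
        have h3 := Nat.bit_bodd_div2 n
        conv_lhs => rw [← h3]
        rw [Nat.bits_append_bit, Nat.div2_val]
        intro h4
        rw [h4] at h3
        cases hb : n.bodd
        · rw [hb] at h3
          simp at h3
          omega
        · rfl
      rw [h2, List.map_cons]
      have h5 : bitblk n 0 = 1 + n % 2 := by
        unfold bitblk
        rw [if_pos (show 2 ^ 0 ≤ n by rw [pow_zero]; exact hn0)]
        simp
      rw [h5, Nat.mod_two_of_bodd]
      cases n.bodd <;> simp [tb4]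

theorem bits_blocks (n b : ℕ) (h : n ≤ b) :
    (Nat.bits n).map Γ'.bit = (List.range b).flatMap (fun t => tb4.getD (bitblk n t) []) :=
  i1_bits b n (h.trans_lt Nat.lt_two_pow_self)

end Pool.Agent.Helper70.MD
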