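import Pool.Agent.Helper70.MD.IDefs

/-!
MD-I2: the table is computable.

`pu_entry`: `shcode (entry q ξ hit first)` is a finite case distinction with comparisons of `q`, `ξ` with
constants: nested `PU.ite` with `PP.eq`, `PP.lt`, `PP.le`, `PP.and`, `PP.or`, constants. The simplest way: write
the value as an explicit nested `if` with natural number values (`0` for none, `7` for shift 0, `9`,
`5`, `13`, `1`), prove equality by unfolding `entry`, `shcode` and `split_ifs` (or `simp`), then PU.
`pu_sh`: the context is `(w, n)`, `p` and `x` are PU functions. `shcode ((rtab D w).sh p x)`: unfold `tab`: the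
conditions `x < 8`, `8 + 82 N ≤ x`, `7 mm + 1 ≤ p`, `(x-8)/41 % 2 = 0` are PP; `rt p`, `(x - 8) % 41`,
`40 - (x - 8) % 41` are PU; `fst'` is PP; `ht (rhit D w) p j = true` is PP: `p ≠ 0 ∧ rhitP D w ((p-1)/7) j`,
where `D.var e w (g ..)` and `D.val e w (g ..)` are PU by `PU.subst (PU.mid ..)` (see `hb` in
`Helper68.Final.pu_blk`), `∃ e < D.c` through `PP.finAll` and `PP.not`, `∃ a < D.d` through `PP.exLt` or
`PP.finAll`. For the odd blocks the code of `-s` is `14 - code` if the code is positive, `0` if it is 0.
`rN`, `rM` are PU by `D.hm`, `D.hnv`.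
-/

set_option autoImplicit false

namespace Pool.Agent.Helper70.MD

open Finset

open scoped Classical

open Helper68.Una

theorem entry_none {q ξ : ℕ} {hit first : Bool} (h : 8 ≤ q ∨ 41 ≤ ξ) :
    entry q ξ hit first = none := by
  rcases h with h | h
  · unfold entry
    rw [if_neg (by omega), if_neg (by omega), if_neg (by omega), if_neg (by omega),
      if_neg (by omega), if_neg (by omega), if_neg (by omega), if_neg (by omega)]
  · have n1 : ∀ b ≤ 41, ¬ ξ < b := fun b hb => by omega
    unfold entry
    simp only [n1 41 (by norm_num), n1 19 (by norm_num), n1 13 (by norm_num), n1 23 (by norm_num),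
      n1 5 (by norm_num), n1 15 (by norm_num), n1 25 (by norm_num), n1 29 (by norm_num),
      n1 3 (by norm_num), n1 11 (by norm_num), n1 40 (by norm_num), n1 7 (by norm_num),
      n1 34 (by norm_num), n1 38 (by norm_num), n1 9 (by norm_num), n1 36 (by norm_num),
      and_false, if_false, ite_self]

/-- The local table as a finite table. -/
theorem pu_entryF {α : Type} [Ctx α] {q ξ : α → ℕ} {hit first : α → Bool} (hq : PU q) (hξ : PU ξ)
    (hh : PP (fun a => hit a = true)) (hf : PP (fun a => first a = true)) (F : Option ℤ → ℕ)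
    (hF : F none = 0) : PU (fun a => F (entry (q a) (ξ a) (hit a) (first a))) := by
  have hidx : PU (fun a => (q a * 41 + ξ a) * 4 + (if hit a = true then 2 else 0) +
      (if first a = true then 1 else 0)) :=
    ((((hq.mul (PU.const 41)).add hξ).mul (PU.const 4)).add
      (PU.ite hh (PU.const 2) (PU.const 0))).add (PU.ite hf (PU.const 1) (PU.const 0))
  have htb := PU.table hidx (fun k => F (entry (k / 4 / 41) (k / 4 % 41) (decide (k / 2 % 2 = 1))
    (decide (k % 2 = 1)))) 1312
  refine (PU.ite (PP.lt hξ (PU.const 41)) htb (PU.const 0)).congr (fun a => ?_)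
  by_cases h1 : ξ a < 41
  · rw [if_pos h1]
    set A := (if hit a = true then 2 else 0) with hA
    set B := (if first a = true then 1 else 0) with hB
    have hA' : A = 0 ∨ A = 2 := by rw [hA]; split_ifs <;> omega
    have hB' : B = 0 ∨ B = 1 := by rw [hB]; split_ifs <;> omega
    have e1 : ((q a * 41 + ξ a) * 4 + A + B) / 4 = q a * 41 + ξ a := by omega
    have e2 : (q a * 41 + ξ a) / 41 = q a := by omega
    have e3 : (q a * 41 + ξ a) % 41 = ξ a := by omega
    have e4 : decide (((q a * 41 + ξ a) * 4 + A + B) / 2 % 2 = 1) = hit a := by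
      by_cases h : hit a = true
      · have : A = 2 := by rw [hA, if_pos h]
        rw [h, decide_eq_true_iff]
        omega
      · have : A = 0 := by rw [hA, if_neg h]
        rw [Bool.not_eq_true] at h
        rw [h, decide_eq_false_iff_not]
        omega
    have e5 : decide (((q a * 41 + ξ a) * 4 + A + B) % 2 = 1) = first a := by
      by_cases h : first a = true
      · have : B = 1 := by rw [hB, if_pos h]
        rw [h, decide_eq_true_iff]
        omega
      · have : B = 0 := by rw [hB, if_neg h]
        rw [Bool.not_eq_true] at h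
        rw [h, decide_eq_false_iff_not]
        omega
    by_cases h2 : q a < 8
    · rw [if_pos (by omega), e1, e2, e3, e4, e5]
    · rw [if_neg (by omega), entry_none (Or.inl (by omega)), hF]
  · rw [if_neg h1, entry_none (Or.inr (by omega)), hF]

theorem pu_entry {α : Type} [Ctx α] {q ξ : α → ℕ} {hit first : α → Bool} (hq : PU q) (hξ : PU ξ)
    (hh : PP (fun a => hit a = true)) (hf : PP (fun a => first a = true)) :
    PU (fun a => shcode (entry (q a) (ξ a) (hit a) (first a))) :=
  pu_entryF hq hξ hh hf shcode rfl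

theorem pu_rN (D : CspData) : PU (fun w : List Bool => rN D w) :=
  (D.hnv.mul (PU.const D.d)).add (PU.const 1)

theorem pu_rM (D : CspData) : PU (fun w : List Bool => rM D w) := D.hm.add D.hnv

/-- Finite disjunctions. -/
theorem pp_finEx {α : Type} [Ctx α] {Q : ℕ → α → Prop} (h : ∀ e, PP (Q e)) (c : ℕ) :
    PP (fun a => ∃ e < c, Q e a) := by
  induction c with
  | zero => exact PP.false.congr (fun a => by simp)
  | succ c ih =>
    refine (ih.or (h c)).congr (fun a => ?_)
    constructor
    · rintro (⟨e, he, hQ⟩ | hQ)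
      · exact ⟨e, by omega, hQ⟩
      · exact ⟨c, by omega, hQ⟩
    · rintro ⟨e, he, hQ⟩
      rcases Nat.lt_or_ge e c with h1 | h1
      · exact Or.inl ⟨e, h1, hQ⟩
      · have : e = c := by omega
        rw [this] at hQ
        exact Or.inr hQ

theorem pp_rhit (D : CspData) {i j : List Bool × ℕ → ℕ} (hi : PU i) (hj : PU j) :
    PP (fun a : List Bool × ℕ => rhit D a.1 (i a) (j a) = true) := by
  have hm : PU (fun a : List Bool × ℕ => D.m a.1) := D.hm.wk
  have hval : ∀ e, PU (fun a : List Bool × ℕ => D.val e a.1 (i a)) := fun e =>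
    PU.subst (f := fun (p : List Bool × ℕ) k => D.val e p.1 k) (PU.mid (D.hval e)) hi
  have hvar : ∀ e, PU (fun a : List Bool × ℕ => D.var e a.1 (i a)) := fun e =>
    PU.subst (f := fun (p : List Bool × ℕ) k => D.var e p.1 k) (PU.mid (D.hvar e)) hi
  have h1 := pp_finEx (Q := fun e (a : List Bool × ℕ) => D.d ≤ D.val e a.1 (i a))
    (fun e => PP.le (PU.const D.d) (hval e)) D.c
  have h2 := pp_finEx (Q := fun e (a : List Bool × ℕ) =>
    j a = 2 * (D.var e a.1 (i a) * D.d + D.val e a.1 (i a)) + 1)
    (fun e => PP.eq hj (((PU.const 2).mul (((hvar e).mul (PU.const D.d)).add (hval e))).add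
      (PU.const 1))) D.c
  have h3 := pp_finEx (Q := fun e (a : List Bool × ℕ) => j a = 2 * ((i a - D.m a.1) * D.d + e))
    (fun e => PP.eq hj ((PU.const 2).mul (((hi.sub hm).mul (PU.const D.d)).add (PU.const e)))) D.d
  refine (((PP.lt hi hm).and (h1.or h2)).or ((PP.le hm hi).and h3)).congr (fun a => ?_)
  rw [rhit, decide_eq_true_iff, rhitP]

theorem pu_sh (D : CspData) {p x : List Bool × ℕ → ℕ} (hp : PU p) (hx : PU x) :
    PU (fun a : List Bool × ℕ => shcode ((rtab D a.1).sh (p a) (x a))) := by
  have hN : PU (fun a : List Bool × ℕ => rN D a.1) := (pu_rN D).wk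
  have hM : PU (fun a : List Bool × ℕ => rM D a.1) := (pu_rM D).wk
  have c0 : PU (fun _ : List Bool × ℕ => 0) := PU.const 0
  have c1 : PU (fun _ : List Bool × ℕ => 1) := PU.const 1
  have c2 : PU (fun _ : List Bool × ℕ => 2) := PU.const 2
  have c7 : PU (fun _ : List Bool × ℕ => 7) := PU.const 7
  have c8 : PU (fun _ : List Bool × ℕ => 8) := PU.const 8
  have c40 : PU (fun _ : List Bool × ℕ => 40) := PU.const 40
  have c41 : PU (fun _ : List Bool × ℕ => 41) := PU.const 41
  have c82 : PU (fun _ : List Bool × ℕ => 82) := PU.const 82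
  have hj : PU (fun a => (x a - 8) / 41) := (hx.sub c8).div c41
  have hξ : PU (fun a => (x a - 8) % 41) := (hx.sub c8).mod c41
  have hrt : PU (fun a => rt (p a)) :=
    (PU.ite (PP.eq hp c0) c0 (((hp.sub c1).mod c7).add c1)).congr (fun a => by
      unfold rt
      split_ifs <;> rfl)
  have hht : PP (fun a => ht (rhit D a.1) (p a) ((x a - 8) / 41) = true) :=
    ((PP.eq hp c0).not.and (pp_rhit D ((hp.sub c1).div c7) hj)).congr (fun a => by
      unfold ht
      by_cases h : p a = 0
      · simp [h]
      · simp [h])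
  have hfs : PP (fun a => fst' (rN D a.1) ((x a - 8) / 41) = true) :=
    ((PP.eq hj c0).or (PP.eq (hj.add c1) (c2.mul hN))).congr (fun a => by
      unfold fst'
      rw [decide_eq_true_iff])
  have h1 := pu_entryF hrt hξ hht hfs shcode rfl
  have h2 := pu_entryF hrt (c40.sub hξ) hht hfs (fun o => shcode (o.map (fun s => -s))) rfl
  refine (PU.ite ((PP.lt hx c8).or ((PP.le (c8.add (c82.mul hN)) hx).or
    (PP.le ((c7.mul hM).add c1) hp))) c0 (PU.ite (PP.eq (hj.mod c2) c0) h1 h2)).congr
    (fun a => ?_)
  unfold rtab tab lent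
  simp only
  split_ifs <;> rfl

end Pool.Agent.Helper70.MD
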