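import Pool.Agent.Helper70.MD.TDefs

/-!
MD-T1: the table satisfies the conditions.

`Xr = 82 N + 16 ≥ 98`. `none_row`, `none_left`, `none_right`: definition (`Xr ≤ x + 8` means
`8 + 82 N ≤ x`). `bound`: all entries of `entry` are in `{0, 2, -2, 6, -6}`. For `start` and `stop`: write
`x = 8 + 41 j + ξ0` with `ξ0 < 41` (`j = (x - 8) / 41`). Inside a block (`x` and the neighbouring columns in the same
block) it is a statement about `entry q ξ hit first` for `q ≤ 7`, `ξ < 41`, and four flags, checked by
case distinction (`decide` on a Boolean statement about `entry`, for even blocks and, reversed and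
negated, for odd blocks). Across a block boundary between an even block `j` and `j + 1` the two local
columns are both `40`; `entry q 40` is `some 0` for `q = 0, 2, 3` and `none` otherwise, `entry q 39` is
`some _` for `q = 0, 2, 3, 4`: for `q = 0, 2, 3` the loops continue with at least three columns on each
side; for the other `q` column `40` is empty on both sides. Across a boundary between an odd block
and `j + 1` both local columns are `0`, and neither block is first or last there on that side
(`fst'` is false for both, because `j ≥ 1`, `j + 2 ≤ 2 N`): `entry q 0` is `some 0` for `q = 2, 3, 4`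
(the loops have at least three columns on each side) and `none` for the others. At the left end
(`x = 8`, block 0, `first = true`) and the right end (`x = 8 + 82 N - 1`, block `2 N - 1`, an odd
block, local column 0): the loops of types 2 and 3 start there with shift 0 and at least two
columns.
-/

set_option autoImplicit false

namespace Pool.Agent.Helper70.MD

open Finset

open scoped Classical

/-- All entries are small. -/
private theorem t1_bound : ∀ hit first : Bool, ∀ q < 8, ∀ ξ < 41, ∀ s ∈ entry q ξ hit first,
    -6 ≤ s ∧ s ≤ 6 := by decide +kernel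

/-- Start of a loop in an even block. -/
private theorem t1_up : ∀ hit first : Bool, ∀ q < 8, ∀ ξ < 40,
    ∀ s ∈ entry q (ξ + 1) hit first, entry q ξ hit first = none →
      -2 ≤ s ∧ s ≤ 2 ∧ ξ < 39 ∧ entry q (ξ + 2) hit first ≠ none := by decide +kernel

/-- End of a loop in an even block. -/
private theorem t1_down : ∀ hit first : Bool, ∀ q < 8, ∀ ξ < 40,
    ∀ s ∈ entry q ξ hit first, entry q (ξ + 1) hit first = none →
      -2 ≤ s ∧ s ≤ 2 ∧ 0 < ξ ∧ entry q (ξ - 1) hit first ≠ none := by decide +kernel

/-- The last local column. -/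
private theorem t1_last : ∀ hit first hit' first' : Bool, ∀ q < 8,
    entry q 40 hit first = none → entry q 40 hit' first' = none := by decide +kernel

/-- The first local column. -/
private theorem t1_first : ∀ hit hit' : Bool, ∀ q < 8,
    entry q 0 hit false = none → entry q 0 hit' false = none := by decide +kernel

/-- The first local column at the end of the table. -/
private theorem t1_end : ∀ hit first : Bool, ∀ q < 8, ∀ s ∈ entry q 0 hit first,
    -2 ≤ s ∧ s ≤ 2 ∧ entry q 1 hit first ≠ none := by decide +kernel

private theorem rt_lt (p : ℕ) : rt p < 8 := by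
  unfold rt
  split_ifs
  · omega
  · have := Nat.mod_lt (p - 1) (show 0 < 7 by norm_num)
    omega

/-- Value of the table in local coordinates, even block. -/
private theorem sh_even {N mm : ℕ} {hit : ℕ → ℕ → Bool} {p j ξ : ℕ} (hξ : ξ < 41) (hj : j < 2 * N)
    (hp : p < 7 * mm + 1) (he : j % 2 = 0) :
    (tab N mm hit).sh p (8 + 41 * j + ξ) = lent N hit p j ξ := by
  have h1 : (8 + 41 * j + ξ - 8) / 41 = j := by omega
  have h2 : (8 + 41 * j + ξ - 8) % 41 = ξ := by omega
  have h3 : ¬ (8 + 41 * j + ξ < 8 ∨ 8 + 82 * N ≤ 8 + 41 * j + ξ ∨ 7 * mm + 1 ≤ p) := by omega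
  simp only [tab, h1, h2, if_neg h3, if_pos he]

/-- Value of the table in local coordinates, odd block. -/
private theorem sh_odd {N mm : ℕ} {hit : ℕ → ℕ → Bool} {p j ξ : ℕ} (hξ : ξ < 41) (hj : j < 2 * N)
    (hp : p < 7 * mm + 1) (ho : j % 2 = 1) :
    (tab N mm hit).sh p (8 + 41 * j + ξ) = (lent N hit p j (40 - ξ)).map (fun s => -s) := by
  have h1 : (8 + 41 * j + ξ - 8) / 41 = j := by omega
  have h2 : (8 + 41 * j + ξ - 8) % 41 = ξ := by omega
  have h3 : ¬ (8 + 41 * j + ξ < 8 ∨ 8 + 82 * N ≤ 8 + 41 * j + ξ ∨ 7 * mm + 1 ≤ p) := by omega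
  have h4 : ¬ (j % 2 = 0) := by omega
  simp only [tab, h1, h2, if_neg h3, if_neg h4]

/-- A nonempty column of the table in local coordinates. -/
private theorem sh_some {N mm : ℕ} {hit : ℕ → ℕ → Bool} {p x : ℕ}
    (h : (tab N mm hit).sh p x ≠ none) :
    ∃ j ξ, ξ < 41 ∧ j < 2 * N ∧ p < 7 * mm + 1 ∧ x = 8 + 41 * j + ξ := by
  by_cases h3 : x < 8 ∨ 8 + 82 * N ≤ x ∨ 7 * mm + 1 ≤ p
  · exact absurd (by simp only [tab, if_pos h3]) h
  · refine ⟨(x - 8) / 41, (x - 8) % 41, Nat.mod_lt _ (by norm_num), ?_, by omega, ?_⟩
    · omega
    · omega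

private theorem sh_out {N mm : ℕ} {hit : ℕ → ℕ → Bool} {p x : ℕ}
    (h3 : x < 8 ∨ 8 + 82 * N ≤ x ∨ 7 * mm + 1 ≤ p) : (tab N mm hit).sh p x = none := by
  simp only [tab, if_pos h3]

theorem tab_good {N : ℕ} (hN : 1 ≤ N) (mm : ℕ) (hit : ℕ → ℕ → Bool) : (tab N mm hit).Good where
  Xr_ge := by simp only [tab]; omega
  P_pos := by simp only [tab]; omega
  none_row := by
    intro p h hp
    apply sh_out
    simp only [tab] at hp
    omega
  none_left := by
    intro p h hp
    apply sh_out
    omega
  none_right := by
    intro p h hp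
    apply sh_out
    simp only [tab] at hp
    omega
  bound := by
    intro p x s hs
    obtain ⟨j, ξ, hξ, hj, hp, rfl⟩ := sh_some (N := N) (mm := mm) (hit := hit) (p := p) (x := x)
      (by rw [hs]; simp)
    rcases Nat.mod_two_eq_zero_or_one j with he | ho
    · rw [sh_even hξ hj hp he] at hs
      exact t1_bound _ _ _ (rt_lt p) _ hξ _ hs
    · rw [sh_odd hξ hj hp ho, Option.map_eq_some_iff] at hs
      obtain ⟨a, ha, rfl⟩ := hs
      have := t1_bound _ _ _ (rt_lt p) (40 - ξ) (by omega) a ha
      omega
  start := by
    intro p x s hs hn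
    obtain ⟨j, ξ, hξ, hj, hp, hx⟩ := sh_some (N := N) (mm := mm) (hit := hit) (p := p) (x := x + 1)
      (by rw [hs]; simp)
    rcases Nat.mod_two_eq_zero_or_one j with he | ho
    · -- even block
      rw [hx, sh_even hξ hj hp he] at hs
      rcases Nat.eq_zero_or_pos ξ with h0 | h0
      · subst h0
        -- the beginning of the table
        have h1 := t1_end _ _ _ (rt_lt p) s hs
        rcases Nat.eq_zero_or_pos j with hj0 | hj0
        · subst hj0
          refine ⟨h1.1, h1.2.1, ?_⟩
          have : x + 2 = 8 + 41 * 0 + 1 := by omega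
          rw [this, sh_even (by omega) hj hp he]
          exact h1.2.2
        · exfalso
          have hx' : x = 8 + 41 * (j - 1) + 40 := by omega
          rw [hx', sh_odd (by omega) (by omega) hp (by omega), Option.map_eq_none_iff] at hn
          have hf : fst' N j = false := by
            simp only [fst', decide_eq_false_iff_not]; omega
          have hf' : fst' N (j - 1) = false := by
            simp only [fst', decide_eq_false_iff_not]; omega
          unfold lent at hn hs
          rw [hf'] at hn
          rw [hf] at hs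
          rw [t1_first _ _ _ (rt_lt p) hn] at hs
          simp at hs
      · have hx' : x = 8 + 41 * j + (ξ - 1) := by omega
        rw [hx', sh_even (by omega) hj hp he] at hn
        have h1 := t1_up (ht hit p j) (fst' N j) (rt p) (rt_lt p) (ξ - 1) (by omega) s
          (by rw [show ξ - 1 + 1 = ξ by omega]; exact hs) hn
        refine ⟨h1.1, h1.2.1, ?_⟩
        have : x + 2 = 8 + 41 * j + (ξ - 1 + 2) := by omega
        rw [this, sh_even (by omega) hj hp he]
        exact h1.2.2.2
    · -- odd block
      rw [hx, sh_odd hξ hj hp ho, Option.map_eq_some_iff] at hs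
      obtain ⟨a, ha, rfl⟩ := hs
      rcases Nat.eq_zero_or_pos ξ with h0 | h0
      · subst h0
        exfalso
        have hx' : x = 8 + 41 * (j - 1) + 40 := by omega
        rw [hx', sh_even (by omega) (by omega) hp (by omega)] at hn
        unfold lent at hn ha
        rw [show 40 - 0 = 40 by norm_num, t1_last _ _ _ _ _ (rt_lt p) hn] at ha
        simp at ha
      · have hx' : x = 8 + 41 * j + (ξ - 1) := by omega
        rw [hx', sh_odd (by omega) hj hp ho, Option.map_eq_none_iff] at hn
        have h1 := t1_down (ht hit p j) (fst' N j) (rt p) (rt_lt p) (40 - ξ) (by omega) a ha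
          (by rw [show 40 - ξ + 1 = 40 - (ξ - 1) by omega]; exact hn)
        refine ⟨by omega, by omega, ?_⟩
        have : x + 2 = 8 + 41 * j + (ξ + 1) := by omega
        rw [this, sh_odd (by omega) hj hp ho]
        have h2 := h1.2.2.2
        rw [show 40 - ξ - 1 = 40 - (ξ + 1) by omega] at h2
        unfold lent
        simpa only [ne_eq, Option.map_eq_none_iff] using h2
  stop := by
    intro p x s hs hn
    obtain ⟨j, ξ, hξ, hj, hp, hx⟩ := sh_some (N := N) (mm := mm) (hit := hit) (p := p) (x := x)
      (by rw [hs]; simp)
    rcases Nat.mod_two_eq_zero_or_one j with he | ho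
    · -- even block
      rw [hx, sh_even hξ hj hp he] at hs
      rcases Nat.lt_or_ge ξ 40 with h0 | h0
      · have hx' : x + 1 = 8 + 41 * j + (ξ + 1) := by omega
        rw [hx', sh_even (by omega) hj hp he] at hn
        have h1 := t1_down _ _ _ (rt_lt p) ξ h0 s hs hn
        exact ⟨h1.1, h1.2.1⟩
      · exfalso
        have h40 : ξ = 40 := by omega
        subst h40
        have hx' : x + 1 = 8 + 41 * (j + 1) + 0 := by omega
        rw [hx', sh_odd (by omega) (by omega) hp (by omega), Option.map_eq_none_iff] at hn
        unfold lent at hn hs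
        rw [t1_last _ _ _ _ _ (rt_lt p) hn] at hs
        simp at hs
    · -- odd block
      rw [hx, sh_odd hξ hj hp ho, Option.map_eq_some_iff] at hs
      obtain ⟨a, ha, rfl⟩ := hs
      rcases Nat.lt_or_ge ξ 40 with h0 | h0
      · have hx' : x + 1 = 8 + 41 * j + (ξ + 1) := by omega
        rw [hx', sh_odd (by omega) hj hp ho, Option.map_eq_none_iff] at hn
        have h1 := t1_up (ht hit p j) (fst' N j) (rt p) (rt_lt p) (40 - (ξ + 1)) (by omega) a
          (by rw [show 40 - (ξ + 1) + 1 = 40 - ξ by omega]; exact ha) hn
        omega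
      · have h40 : ξ = 40 := by omega
        subst h40
        have h1 := t1_end _ _ _ (rt_lt p) a ha
        omega

end Pool.Agent.Helper70.MD
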