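import Pool.Agent.Helper70.MD.I2
import Pool.Agent.Helper70.MD.E1
import Pool.Agent.Helper70.MD.T1

/-!
MD-I3: the points are computable.

Write `τ = rtab D w`. First the parameters, all natural numbers given by polynomials:
`Xr = 82 N + 16`, `P = 7 mm + 1`, `i0 = Xr + 8`, `M = i0 + 2 P`, `nu = 100 (M+1)`,
`Rc = 24 Xr + 108`, `Xm = nu (Rc + 108)`, `Lam i = 4 Xm^2 min(i, i0) + nu^2 (1210 ((i - i0)/2) +
864 ((i - i0) % 2))`, `H = 16 Xm (Lam M + Xm^2)`: the integers are casts of natural numbers given by
PU expressions (`min` is an `if`). `K i`, `md i`, `Rn i` are natural numbers, PU expressions.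
Abscissas: `X + 108 nu` is a natural number (all terms nonnegative): left cluster: `i + k`; right
cluster: `(Rc + 108) nu - i - k` (natural subtraction is exact: `k < Rn i`, see `right_bounds` or directly
`i + k ≤ nu`); middle: `nu (24 k + 120)`, `nu (24 k + 108)`, `nu (18 + 36 k)`,
`nu (24 Xr + 126 + 36 (k - 3))`, `nu (24 k + 113 + code)` with `code = shcode = shift + 7`,
`nu (36 + 36 k)`, `nu (24 Xr + 144 + 36 (k - 2))`. Then `X < 0` iff `X + 108 nu < 108 nu`, and
`|X|` is the sum of the two truncated differences. `inL` is `shcode ≠ 0`.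
The second coordinate of a parabola point is `|X|^2 + Lam i ≥ 0`; `H - i > 0` for the relevant `i`
(`i ≤ M`; for `i > M` the sign of `H - i` must also be treated: use
`(H - i < 0) ↔ H < i`, `natAbs = (H - i) + (i - H)`), corners: explicit.
(`PU.ite` needs decidability instances; `classical`.)
-/

set_option autoImplicit false

namespace Pool.Agent.Helper70.MD

open Finset

open scoped Classical

open Helper68.Una

/-! ### Natural number versions of the parameters -/

private def nuN (τ : Tab) : ℕ := 100 * (τ.M + 1)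
private def rcN (τ : Tab) : ℕ := 24 * τ.Xr + 108
private def xmN (τ : Tab) : ℕ := nuN τ * (rcN τ + 108)
private def laN (τ : Tab) (i : ℕ) : ℕ :=
  4 * xmN τ ^ 2 * (if i ≤ τ.i0 then i else τ.i0) +
    nuN τ ^ 2 * (1210 * ((i - τ.i0) / 2) + 864 * ((i - τ.i0) % 2))
private def hN (τ : Tab) : ℕ := 16 * xmN τ * (laN τ τ.M + xmN τ ^ 2)

private lemma nu_eq (τ : Tab) : τ.nu = (nuN τ : ℤ) := by
  unfold Tab.nu nuN
  push_cast
  ring

private lemma rc_eq (τ : Tab) : τ.Rc = (rcN τ : ℤ) := by
  unfold Tab.Rc rcN
  push_cast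
  ring

private lemma xm_eq (τ : Tab) : τ.Xm = (xmN τ : ℤ) := by
  unfold Tab.Xm xmN
  rw [nu_eq, rc_eq]
  push_cast
  ring

private lemma la_eq (τ : Tab) (i : ℕ) : τ.Lam i = (laN τ i : ℤ) := by
  unfold Tab.Lam laN Tab.lam
  rw [nu_eq, xm_eq]
  have : (min i τ.i0 : ℕ) = if i ≤ τ.i0 then i else τ.i0 := min_def i τ.i0
  rw [this]
  push_cast
  ring

private lemma h_eq (τ : Tab) : τ.H = (hN τ : ℤ) := by
  unfold Tab.H hN
  rw [la_eq, xm_eq]
  push_cast
  ring

section gen

variable {α : Type} [Ctx α] {T : α → Tab}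

private lemma g_i0 (hX : PU (fun a => (T a).Xr)) : PU (fun a => (T a).i0) := hX.add (PU.const 8)

private lemma g_M (hX : PU (fun a => (T a).Xr)) (hP : PU (fun a => (T a).P)) :
    PU (fun a => (T a).M) := (g_i0 hX).add ((PU.const 2).mul hP)

private lemma g_SL (hX : PU (fun a => (T a).Xr)) (hP : PU (fun a => (T a).P)) :
    PU (fun a => (T a).SL) :=
  (PU.const 1).add ((PU.const 5).mul (((PU.const 6).mul (g_M hX hP)).add (PU.const 3)))

private lemma g_nu (hX : PU (fun a => (T a).Xr)) (hP : PU (fun a => (T a).P)) :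
    PU (fun a => nuN (T a)) := (PU.const 100).mul ((g_M hX hP).add (PU.const 1))

private lemma g_rc (hX : PU (fun a => (T a).Xr)) : PU (fun a => rcN (T a)) :=
  ((PU.const 24).mul hX).add (PU.const 108)

private lemma g_xm (hX : PU (fun a => (T a).Xr)) (hP : PU (fun a => (T a).P)) :
    PU (fun a => xmN (T a)) := (g_nu hX hP).mul ((g_rc hX).add (PU.const 108))

private lemma g_la (hX : PU (fun a => (T a).Xr)) (hP : PU (fun a => (T a).P)) {i : α → ℕ}
    (hi : PU i) : PU (fun a => laN (T a) (i a)) :=
  (((PU.const 4).mul ((g_xm hX hP).pow 2)).mul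
    (PU.ite (PP.le hi (g_i0 hX)) hi (g_i0 hX))).add
  (((g_nu hX hP).pow 2).mul
    (((PU.const 1210).mul ((hi.sub (g_i0 hX)).div (PU.const 2))).add
      ((PU.const 864).mul ((hi.sub (g_i0 hX)).mod (PU.const 2)))))

private lemma g_h (hX : PU (fun a => (T a).Xr)) (hP : PU (fun a => (T a).P)) :
    PU (fun a => hN (T a)) :=
  ((PU.const 16).mul (g_xm hX hP)).mul
    ((g_la hX hP (g_M hX hP)).add ((g_xm hX hP).pow 2))

private lemma g_K (hX : PU (fun a => (T a).Xr)) {i : α → ℕ}
    (hi : PU i) : PU (fun a => (T a).K (i a)) := by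
  unfold Tab.K
  exact PU.ite (PP.lt hi (g_i0 hX)) ((PU.const 6).mul hi)
    (((PU.const 2).mul (g_i0 hX)).add
      ((((PU.const 5).mul (hi.sub (g_i0 hX))).add (PU.const 1)).div (PU.const 2)))

private lemma g_md (hX : PU (fun a => (T a).Xr)) {i : α → ℕ}
    (hi : PU i) : PU (fun a => (T a).md (i a)) := by
  unfold Tab.md
  exact PU.ite (PP.lt hi (g_i0 hX)) (PU.const 0)
    (PU.ite (PP.eq ((hi.sub (g_i0 hX)).mod (PU.const 2)) (PU.const 0))
      (hX.add (PU.const 6)) (hX.add (PU.const 5)))

private lemma g_Rn (hX : PU (fun a => (T a).Xr)) {i : α → ℕ}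
    (hi : PU i) : PU (fun a => (T a).Rn (i a)) := by
  unfold Tab.Rn
  exact ((((PU.const 6).mul hi).add (PU.const 2)).sub (g_K hX hi)).sub (g_md hX hi)

end gen

/-! ### Natural number versions of the abscissas -/

/-- Is the slot occupied? -/
private def xP (τ : Tab) (i c k : ℕ) : Prop :=
  (c = 0 ∧ k < τ.K i) ∨ (c = 1 ∧ k < τ.Rn i) ∨
  (2 ≤ c ∧ τ.i0 ≤ i ∧
    (((i - τ.i0) % 2 = 0 ∧
      ((c = 2 ∧ k < τ.Xr ∧ shcode (τ.sh ((i - τ.i0) / 2) k) = 0) ∨
       (c = 3 ∧ k < τ.Xr ∧ shcode (τ.sh ((i - τ.i0) / 2) (k - 1)) ≠ 0 ∧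
          shcode (τ.sh ((i - τ.i0) / 2) k) ≠ 0) ∨
       (4 ≤ c ∧ k < 6))) ∨
     ((i - τ.i0) % 2 ≠ 0 ∧
      ((c = 2 ∧ k < τ.Xr ∧ shcode (τ.sh ((i - τ.i0) / 2) k) ≠ 0) ∨
       (c = 3 ∧ k < τ.Xr + 1 ∧ ¬ (shcode (τ.sh ((i - τ.i0) / 2) (k - 1)) ≠ 0 ∧
          shcode (τ.sh ((i - τ.i0) / 2) k) ≠ 0)) ∨
       (4 ≤ c ∧ k < 4)))))

/-- Positive part. -/
private def xA (τ : Tab) (i c k : ℕ) : ℕ :=
  if c = 0 then i + k
  else if c = 1 then rcN τ * nuN τ
  else if (i - τ.i0) % 2 = 0 then
    (if c = 2 then nuN τ * (24 * k + 12) else if c = 3 then nuN τ * (24 * k)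
     else if k < 3 then nuN τ * (36 * k) else nuN τ * (24 * τ.Xr + 18 + 36 * (k - 3)))
  else
    (if c = 2 then nuN τ * (24 * k + 12 + shcode (τ.sh ((i - τ.i0) / 2) k))
     else if c = 3 then nuN τ * (24 * k)
     else if k < 2 then nuN τ * (36 * k) else nuN τ * (24 * τ.Xr + 36 + 36 * (k - 2)))

/-- Negative part. -/
private def xB (τ : Tab) (i c k : ℕ) : ℕ :=
  if c = 0 then 108 * nuN τ
  else if c = 1 then i + k
  else if (i - τ.i0) % 2 = 0 then
    (if c = 2 then 0 else if c = 3 then 0 else if k < 3 then 90 * nuN τ else 0)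
  else
    (if c = 2 then 7 * nuN τ else if c = 3 then 0 else if k < 2 then 72 * nuN τ else 0)

private lemma code_zero {τ : Tab} (hb : ∀ p x s, τ.sh p x = some s → -6 ≤ s ∧ s ≤ 6) (p x : ℕ) :
    shcode (τ.sh p x) = 0 ↔ ¬ τ.inL p x := by
  unfold Tab.inL
  cases h : τ.sh p x with
  | none => simp [shcode]
  | some s =>
    have := hb p x s h
    simp only [shcode, ne_eq, reduceCtorEq, not_false_eq_true, not_true_eq_false, iff_false]
    omega

private lemma code_val {τ : Tab} (hb : ∀ p x s, τ.sh p x = some s → -6 ≤ s ∧ s ≤ 6) (p x : ℕ)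
    (h0 : τ.inL p x) : τ.shift p x = (shcode (τ.sh p x) : ℤ) - 7 := by
  unfold Tab.inL at h0
  unfold Tab.shift
  cases h : τ.sh p x with
  | none => exact absurd h h0
  | some s =>
    have := hb p x s h
    simp only [shcode, Option.getD_some]
    omega

private lemma some_ne {a : ℤ} : (some a : Option ℤ) ≠ none := by simp

private lemma if_ne {p : Prop} [Decidable p] {a : ℤ} :
    (if p then some a else none) ≠ none ↔ p := by
  by_cases hp : p
  · simp [hp]
  · simp [hp]

private lemma if_eq {p : Prop} [Decidable p] {a X : ℤ}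
    (h : (if p then some a else none) = some X) : p ∧ X = a := by
  by_cases hp : p
  · rw [if_pos hp] at h
    exact ⟨hp, (Option.some.inj h).symm⟩
  · rw [if_neg hp] at h
    cases h

private lemma x_spec {τ : Tab} (hb : ∀ p x s, τ.sh p x = some s → -6 ≤ s ∧ s ≤ 6)
    (i c k : ℕ) : (τ.xslot i c k ≠ none ↔ xP τ i c k) ∧
      ∀ X, τ.xslot i c k = some X → X = (xA τ i c k : ℤ) - (xB τ i c k : ℤ) := by
  have hz := code_zero hb
  have hv := code_val hb
  have hc : c = 0 ∨ c = 1 ∨ 2 ≤ c := by omega
  rcases hc with rfl | rfl | hc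
  · constructor
    · unfold Tab.xslot xP
      rw [if_pos rfl, if_ne]
      constructor
      · intro h
        exact Or.inl ⟨rfl, h⟩
      · rintro (h | h | h)
        · exact h.2
        · omega
        · omega
    · intro X hX
      unfold Tab.xslot at hX
      rw [if_pos rfl] at hX
      rw [(if_eq hX).2]
      unfold xA xB
      rw [if_pos rfl, if_pos rfl, nu_eq]
      push_cast
      ring
  · constructor
    · unfold Tab.xslot xP
      rw [if_neg (by omega), if_pos rfl, if_ne]
      constructor
      · intro h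
        exact Or.inr (Or.inl ⟨rfl, h⟩)
      · rintro (h | h | h)
        · omega
        · exact h.2
        · omega
    · intro X hX
      unfold Tab.xslot at hX
      rw [if_neg (by omega), if_pos rfl] at hX
      rw [(if_eq hX).2]
      unfold xA xB
      rw [if_neg (by omega), if_pos rfl, if_neg (by omega), if_pos rfl, nu_eq, rc_eq]
      push_cast
      ring
  · have hx0 : τ.xslot i c k = if i < τ.i0 then none
        else if (i - τ.i0) % 2 = 0 then
          (if c = 2 then (if k < τ.Xr ∧ ¬ τ.inL ((i - τ.i0) / 2) k then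
              some (τ.nu * (24 * k + 12)) else none)
           else if c = 3 then (if k < τ.Xr ∧ τ.intr ((i - τ.i0) / 2) k then
              some (τ.nu * (24 * k)) else none)
           else if k < 3 then some (τ.nu * (-90 + 36 * k))
           else if k < 6 then some (τ.nu * (24 * τ.Xr + 18 + 36 * ((k : ℤ) - 3))) else none)
        else
          (if c = 2 then (if k < τ.Xr ∧ τ.inL ((i - τ.i0) / 2) k then
              some (τ.nu * (24 * k + 12 + τ.shift ((i - τ.i0) / 2) k)) else none)
           else if c = 3 then (if k < τ.Xr + 1 ∧ ¬ τ.intr ((i - τ.i0) / 2) k then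
              some (τ.nu * (24 * k)) else none)
           else if k < 2 then some (τ.nu * (-72 + 36 * k))
           else if k < 4 then some (τ.nu * (24 * τ.Xr + 36 + 36 * ((k : ℤ) - 2))) else none) := by
      unfold Tab.xslot
      rw [if_neg (by omega), if_neg (by omega)]
    have hA0 : xA τ i c k = if (i - τ.i0) % 2 = 0 then
          (if c = 2 then nuN τ * (24 * k + 12) else if c = 3 then nuN τ * (24 * k)
           else if k < 3 then nuN τ * (36 * k) else nuN τ * (24 * τ.Xr + 18 + 36 * (k - 3)))
        else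
          (if c = 2 then nuN τ * (24 * k + 12 + shcode (τ.sh ((i - τ.i0) / 2) k))
           else if c = 3 then nuN τ * (24 * k)
           else if k < 2 then nuN τ * (36 * k)
           else nuN τ * (24 * τ.Xr + 36 + 36 * (k - 2))) := by
      unfold xA
      rw [if_neg (by omega), if_neg (by omega)]
    have hB0 : xB τ i c k = if (i - τ.i0) % 2 = 0 then
          (if c = 2 then 0 else if c = 3 then 0 else if k < 3 then 90 * nuN τ else 0)
        else
          (if c = 2 then 7 * nuN τ else if c = 3 then 0 else if k < 2 then 72 * nuN τ else 0) := by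
      unfold xB
      rw [if_neg (by omega), if_neg (by omega)]
    have hP0 : xP τ i c k ↔ τ.i0 ≤ i ∧
        (((i - τ.i0) % 2 = 0 ∧
          ((c = 2 ∧ k < τ.Xr ∧ ¬ τ.inL ((i - τ.i0) / 2) k) ∨
           (c = 3 ∧ k < τ.Xr ∧ τ.intr ((i - τ.i0) / 2) k) ∨
           (4 ≤ c ∧ k < 6))) ∨
         ((i - τ.i0) % 2 ≠ 0 ∧
          ((c = 2 ∧ k < τ.Xr ∧ τ.inL ((i - τ.i0) / 2) k) ∨
           (c = 3 ∧ k < τ.Xr + 1 ∧ ¬ τ.intr ((i - τ.i0) / 2) k) ∨
           (4 ≤ c ∧ k < 4)))) := by
      unfold xP Tab.intr
      simp only [ne_eq, hz, not_not]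
      constructor
      · rintro (h | h | h)
        · omega
        · omega
        · exact h.2
      · intro h
        exact Or.inr (Or.inr ⟨hc, h⟩)
    rw [hx0, hA0, hB0, hP0]
    by_cases g1 : i < τ.i0
    · rw [if_pos g1]
      constructor
      · constructor
        · intro h
          exact absurd rfl h
        · intro h
          omega
      · intro X hX
        cases hX
    · rw [if_neg g1]
      have g1' : τ.i0 ≤ i := by omega
      have hc' : c = 2 ∨ c = 3 ∨ 4 ≤ c := by omega
      by_cases g2 : (i - τ.i0) % 2 = 0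
      · rw [if_pos g2, if_pos g2, if_pos g2]
        rcases hc' with rfl | rfl | hc4
        · rw [if_pos rfl, if_pos rfl, if_pos rfl, if_ne]
          constructor
          · constructor
            · intro h
              exact ⟨g1', Or.inl ⟨g2, Or.inl ⟨rfl, h⟩⟩⟩
            · rintro ⟨_, ⟨_, h | h | h⟩ | h⟩
              · exact h.2
              · omega
              · omega
              · exact absurd g2 h.1
          · intro X hX
            rw [(if_eq hX).2, nu_eq]
            push_cast
            ring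
        · have e32 : ¬ (3 : ℕ) = 2 := by omega
          simp only [if_neg e32, if_true]
          rw [if_ne]
          constructor
          · constructor
            · intro h
              exact ⟨g1', Or.inl ⟨g2, Or.inr (Or.inl ⟨trivial, h⟩)⟩⟩
            · rintro ⟨_, ⟨_, h | h | h⟩ | h⟩
              · omega
              · exact h.2
              · omega
              · exact absurd g2 h.1
          · intro X hX
            rw [(if_eq hX).2, nu_eq]
            push_cast
            ring
        · have e2 : ¬ c = 2 := by omega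
          have e3 : ¬ c = 3 := by omega
          simp only [if_neg e2, if_neg e3]
          by_cases hk : k < 3
          · rw [if_pos hk, if_pos hk, if_pos hk]
            constructor
            · constructor
              · intro _
                exact ⟨g1', Or.inl ⟨g2, Or.inr (Or.inr ⟨hc4, by omega⟩)⟩⟩
              · intro _
                exact some_ne
            · intro X hX
              rw [← Option.some.inj hX, nu_eq]
              push_cast
              ring
          · rw [if_neg hk, if_neg hk, if_neg hk, if_ne]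
            constructor
            · constructor
              · intro h
                exact ⟨g1', Or.inl ⟨g2, Or.inr (Or.inr ⟨hc4, h⟩)⟩⟩
              · rintro ⟨_, ⟨_, h | h | h⟩ | h⟩
                · omega
                · omega
                · exact h.2
                · exact absurd g2 h.1
            · intro X hX
              rw [(if_eq hX).2, nu_eq, Nat.cast_mul, Nat.cast_add, Nat.cast_mul (36 : ℕ),
                Nat.cast_sub (by omega)]
              push_cast
              ring
      · rw [if_neg g2, if_neg g2, if_neg g2]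
        rcases hc' with rfl | rfl | hc4
        · rw [if_pos rfl, if_pos rfl, if_pos rfl, if_ne]
          constructor
          · constructor
            · intro h
              exact ⟨g1', Or.inr ⟨g2, Or.inl ⟨rfl, h⟩⟩⟩
            · rintro ⟨_, h | ⟨_, h | h | h⟩⟩
              · exact absurd h.1 g2
              · exact h.2
              · omega
              · omega
          · intro X hX
            obtain ⟨h1, h2⟩ := if_eq hX
            rw [h2, nu_eq, hv _ _ h1.2]
            push_cast
            ring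
        · have e32 : ¬ (3 : ℕ) = 2 := by omega
          simp only [if_neg e32, if_true]
          rw [if_ne]
          constructor
          · constructor
            · intro h
              exact ⟨g1', Or.inr ⟨g2, Or.inr (Or.inl ⟨trivial, h⟩)⟩⟩
            · rintro ⟨_, h | ⟨_, h | h | h⟩⟩
              · exact absurd h.1 g2
              · omega
              · exact h.2
              · omega
          · intro X hX
            rw [(if_eq hX).2, nu_eq]
            push_cast
            ring
        · have e2 : ¬ c = 2 := by omega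
          have e3 : ¬ c = 3 := by omega
          simp only [if_neg e2, if_neg e3]
          by_cases hk : k < 2
          · rw [if_pos hk, if_pos hk, if_pos hk]
            constructor
            · constructor
              · intro _
                exact ⟨g1', Or.inr ⟨g2, Or.inr (Or.inr ⟨hc4, by omega⟩)⟩⟩
              · intro _
                exact some_ne
            · intro X hX
              rw [← Option.some.inj hX, nu_eq]
              push_cast
              ring
          · rw [if_neg hk, if_neg hk, if_neg hk, if_ne]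
            constructor
            · constructor
              · intro h
                exact ⟨g1', Or.inr ⟨g2, Or.inr (Or.inr ⟨hc4, h⟩)⟩⟩
              · rintro ⟨_, h | ⟨_, h | h | h⟩⟩
                · exact absurd h.1 g2
                · omega
                · omega
                · exact h.2
            · intro X hX
              rw [(if_eq hX).2, nu_eq, Nat.cast_mul, Nat.cast_add, Nat.cast_mul (36 : ℕ),
                Nat.cast_sub (by omega)]
              push_cast
              ring

/-! ### The coordinates of the slots -/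

private def sP (τ : Tab) (i s : ℕ) : Prop :=
  (i = 0 ∧ s < 3) ∨ (i ≠ 0 ∧ (s = 0 ∨ xP τ i ((s - 1) % 5) ((s - 1) / 5)))

private noncomputable def s1A (τ : Tab) (i s : ℕ) : ℕ :=
  if i = 0 then (if s = 2 then hN τ else 0)
  else if s = 0 then 0
  else if xP τ i ((s - 1) % 5) ((s - 1) / 5) then xA τ i ((s - 1) % 5) ((s - 1) / 5) else 0

private noncomputable def s1B (τ : Tab) (i s : ℕ) : ℕ :=
  if i = 0 then (if s = 0 then hN τ else 0)
  else if s = 0 then 0
  else if xP τ i ((s - 1) % 5) ((s - 1) / 5) then xB τ i ((s - 1) % 5) ((s - 1) / 5) else 0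

private noncomputable def s2A (τ : Tab) (i s : ℕ) : ℕ :=
  if i = 0 then (if s = 0 then 2 * hN τ else if s = 2 then 2 * hN τ else 0)
  else if s = 0 then hN τ
  else if xP τ i ((s - 1) % 5) ((s - 1) / 5) then
    ((xA τ i ((s - 1) % 5) ((s - 1) / 5) - xB τ i ((s - 1) % 5) ((s - 1) / 5)) +
      (xB τ i ((s - 1) % 5) ((s - 1) / 5) - xA τ i ((s - 1) % 5) ((s - 1) / 5))) ^ 2 + laN τ i
  else 0

private noncomputable def s2B (τ : Tab) (i s : ℕ) : ℕ :=
  if i = 0 then (if s = 1 then hN τ else 0)
  else if s = 0 then i else 0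

private lemma s_spec {τ : Tab} (hb : ∀ p x s, τ.sh p x = some s → -6 ≤ s ∧ s ≤ 6)
    (i s : ℕ) : (τ.slot i s ≠ none ↔ sP τ i s) ∧
      ((τ.slot i s).getD (0, 0)).1 = (s1A τ i s : ℤ) - (s1B τ i s : ℤ) ∧
      ((τ.slot i s).getD (0, 0)).2 = (s2A τ i s : ℤ) - (s2B τ i s : ℤ) := by
  by_cases hi : i = 0
  · subst hi
    unfold Tab.slot sP s1A s1B s2A s2B
    rw [if_pos rfl, if_pos rfl, if_pos rfl, if_pos rfl, if_pos rfl]
    have hs : s = 0 ∨ s = 1 ∨ s = 2 ∨ 3 ≤ s := by omega
    rcases hs with rfl | rfl | rfl | hs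
    · simp [h_eq]
    · simp [h_eq]
    · simp [h_eq]
    · rw [if_neg (by omega), if_neg (by omega), if_neg (by omega), if_neg (by omega),
        if_neg (by omega), if_neg (by omega), if_neg (by omega), if_neg (by omega)]
      simp
      omega
  · by_cases hs : s = 0
    · subst hs
      unfold Tab.slot sP s1A s1B s2A s2B
      simp [hi, h_eq]
    · obtain ⟨x1, x2⟩ := x_spec hb i ((s - 1) % 5) ((s - 1) / 5)
      unfold Tab.slot sP s1A s1B s2A s2B
      rw [if_neg hi, if_neg hs, if_neg hi, if_neg hs, if_neg hi, if_neg hs, if_neg hi, if_neg hs,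
        if_neg hi, if_neg hs]
      cases hx : τ.xslot i ((s - 1) % 5) ((s - 1) / 5) with
      | none =>
        have hno : ¬ xP τ i ((s - 1) % 5) ((s - 1) / 5) := fun h => (x1.2 h) hx
        rw [if_neg hno, if_neg hno, if_neg hno]
        simp [hi, hs, hno]
      | some X =>
        have hyes : xP τ i ((s - 1) % 5) ((s - 1) / 5) := x1.1 (by rw [hx]; exact some_ne)
        rw [if_pos hyes, if_pos hyes, if_pos hyes]
        have e1 := x2 X hx
        refine ⟨?_, ?_, ?_⟩
        · simp [hi, hs, hyes]
        · simpa using e1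
        · simp only [Option.map_some, Option.getD_some]
          rw [la_eq, e1]
          generalize xA τ i ((s - 1) % 5) ((s - 1) / 5) = A
          generalize xB τ i ((s - 1) % 5) ((s - 1) / 5) = B
          push_cast
          rcases le_total A B with hAB | hAB
          · rw [Nat.sub_eq_zero_of_le hAB, Nat.cast_sub hAB]
            push_cast
            ring
          · rw [Nat.sub_eq_zero_of_le hAB, Nat.cast_sub hAB]
            push_cast
            ring

private lemma abs_sub (A B : ℕ) : ((A : ℤ) - (B : ℤ)).natAbs = (A - B) + (B - A) := by omega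

section pu

variable (D : CspData)

private lemma r_X : PU (fun w : List Bool => (rtab D w).Xr) :=
  ((PU.const 82).mul (pu_rN D)).add (PU.const 16)

private lemma r_P : PU (fun w : List Bool => (rtab D w).P) :=
  ((PU.const 7).mul (pu_rM D)).add (PU.const 1)

private lemma r_bound (w : List Bool) :
    ∀ p x s, (rtab D w).sh p x = some s → -6 ≤ s ∧ s ≤ 6 :=
  (tab_good (N := rN D w) (by unfold rN; omega) (rM D w) (rhit D w)).bound

variable {D}

private lemma w_X : PU (fun a : List Bool × ℕ => (rtab D a.1).Xr) := (r_X D).wk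
private lemma w_P : PU (fun a : List Bool × ℕ => (rtab D a.1).P) := (r_P D).wk

variable {i c k s : List Bool × ℕ → ℕ}

private lemma w_code0 (hi : PU i) (hk : PU k) : PU (fun a : List Bool × ℕ =>
    shcode ((rtab D a.1).sh ((i a - (rtab D a.1).i0) / 2) (k a))) :=
  pu_sh D ((hi.sub (g_i0 w_X)).div (PU.const 2)) hk

private lemma w_par (hi : PU i) : PP (fun a : List Bool × ℕ =>
    (i a - (rtab D a.1).i0) % 2 = 0) :=
  PP.eq ((hi.sub (g_i0 w_X)).mod (PU.const 2)) (PU.const 0)

private lemma w_xP (hi : PU i) (hc : PU c) (hk : PU k) :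
    PP (fun a : List Bool × ℕ => xP (rtab D a.1) (i a) (c a) (k a)) := by
  unfold xP
  have hK := g_K (w_X (D := D)) hi
  have hR := g_Rn (w_X (D := D)) hi
  have h0 := PP.eq (w_code0 (D := D) hi hk) (PU.const 0)
  have h1 := PP.eq (w_code0 (D := D) hi (hk.sub (PU.const 1))) (PU.const 0)
  have hX := w_X (D := D)
  have hpar := w_par (D := D) hi
  exact ((PP.eq hc (PU.const 0)).and (PP.lt hk hK)).or
    (((PP.eq hc (PU.const 1)).and (PP.lt hk hR)).or
    ((PP.le (PU.const 2) hc).and ((PP.le (g_i0 hX) hi).and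
      ((hpar.and
        (((PP.eq hc (PU.const 2)).and ((PP.lt hk hX).and h0)).or
        (((PP.eq hc (PU.const 3)).and ((PP.lt hk hX).and (h1.not.and h0.not))).or
        ((PP.le (PU.const 4) hc).and (PP.lt hk (PU.const 6)))))).or
      (hpar.not.and
        (((PP.eq hc (PU.const 2)).and ((PP.lt hk hX).and h0.not)).or
        (((PP.eq hc (PU.const 3)).and ((PP.lt hk (hX.add (PU.const 1))).and
          (h1.not.and h0.not).not)).or
        ((PP.le (PU.const 4) hc).and (PP.lt hk (PU.const 4))))))))))

private lemma w_xA (hi : PU i) (hc : PU c) (hk : PU k) :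
    PU (fun a : List Bool × ℕ => xA (rtab D a.1) (i a) (c a) (k a)) := by
  unfold xA
  have hX := w_X (D := D)
  have hn := g_nu (w_X (D := D)) w_P
  have hpar := w_par (D := D) hi
  exact PU.ite (PP.eq hc (PU.const 0)) (hi.add hk)
    (PU.ite (PP.eq hc (PU.const 1)) ((g_rc hX).mul hn)
    (PU.ite hpar
      (PU.ite (PP.eq hc (PU.const 2)) (hn.mul (((PU.const 24).mul hk).add (PU.const 12)))
      (PU.ite (PP.eq hc (PU.const 3)) (hn.mul ((PU.const 24).mul hk))
      (PU.ite (PP.lt hk (PU.const 3)) (hn.mul ((PU.const 36).mul hk))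
        (hn.mul ((((PU.const 24).mul hX).add (PU.const 18)).add
          ((PU.const 36).mul (hk.sub (PU.const 3))))))))
      (PU.ite (PP.eq hc (PU.const 2)) (hn.mul ((((PU.const 24).mul hk).add (PU.const 12)).add
          (w_code0 hi hk)))
      (PU.ite (PP.eq hc (PU.const 3)) (hn.mul ((PU.const 24).mul hk))
      (PU.ite (PP.lt hk (PU.const 2)) (hn.mul ((PU.const 36).mul hk))
        (hn.mul ((((PU.const 24).mul hX).add (PU.const 36)).add
          ((PU.const 36).mul (hk.sub (PU.const 2))))))))))

private lemma w_xB (hi : PU i) (hc : PU c) (hk : PU k) :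
    PU (fun a : List Bool × ℕ => xB (rtab D a.1) (i a) (c a) (k a)) := by
  unfold xB
  have hn := g_nu (w_X (D := D)) w_P
  have hpar := w_par (D := D) hi
  exact PU.ite (PP.eq hc (PU.const 0)) ((PU.const 108).mul hn)
    (PU.ite (PP.eq hc (PU.const 1)) (hi.add hk)
    (PU.ite hpar
      (PU.ite (PP.eq hc (PU.const 2)) (PU.const 0)
      (PU.ite (PP.eq hc (PU.const 3)) (PU.const 0)
      (PU.ite (PP.lt hk (PU.const 3)) ((PU.const 90).mul hn) (PU.const 0))))
      (PU.ite (PP.eq hc (PU.const 2)) ((PU.const 7).mul hn)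
      (PU.ite (PP.eq hc (PU.const 3)) (PU.const 0)
      (PU.ite (PP.lt hk (PU.const 2)) ((PU.const 72).mul hn) (PU.const 0))))))

private lemma w_c (hs : PU s) : PU (fun a => (s a - 1) % 5) :=
  (hs.sub (PU.const 1)).mod (PU.const 5)

private lemma w_k (hs : PU s) : PU (fun a => (s a - 1) / 5) :=
  (hs.sub (PU.const 1)).div (PU.const 5)

private lemma w_sP (hi : PU i) (hs : PU s) :
    PP (fun a : List Bool × ℕ => sP (rtab D a.1) (i a) (s a)) := by
  unfold sP
  exact ((PP.eq hi (PU.const 0)).and (PP.lt hs (PU.const 3))).or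
    ((PP.eq hi (PU.const 0)).not.and
      ((PP.eq hs (PU.const 0)).or (w_xP hi (w_c hs) (w_k hs))))

private lemma w_s1A (hi : PU i) (hs : PU s) :
    PU (fun a : List Bool × ℕ => s1A (rtab D a.1) (i a) (s a)) := by
  unfold s1A
  exact PU.ite (PP.eq hi (PU.const 0))
    (PU.ite (PP.eq hs (PU.const 2)) (g_h w_X w_P) (PU.const 0))
    (PU.ite (PP.eq hs (PU.const 0)) (PU.const 0)
    (PU.ite (w_xP hi (w_c hs) (w_k hs)) (w_xA hi (w_c hs) (w_k hs)) (PU.const 0)))

private lemma w_s1B (hi : PU i) (hs : PU s) :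
    PU (fun a : List Bool × ℕ => s1B (rtab D a.1) (i a) (s a)) := by
  unfold s1B
  exact PU.ite (PP.eq hi (PU.const 0))
    (PU.ite (PP.eq hs (PU.const 0)) (g_h w_X w_P) (PU.const 0))
    (PU.ite (PP.eq hs (PU.const 0)) (PU.const 0)
    (PU.ite (w_xP hi (w_c hs) (w_k hs)) (w_xB hi (w_c hs) (w_k hs)) (PU.const 0)))

private lemma w_s2A (hi : PU i) (hs : PU s) :
    PU (fun a : List Bool × ℕ => s2A (rtab D a.1) (i a) (s a)) := by
  unfold s2A
  have hA := w_xA (D := D) hi (w_c hs) (w_k hs)
  have hB := w_xB (D := D) hi (w_c hs) (w_k hs)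
  exact PU.ite (PP.eq hi (PU.const 0))
    (PU.ite (PP.eq hs (PU.const 0)) ((PU.const 2).mul (g_h w_X w_P))
      (PU.ite (PP.eq hs (PU.const 2)) ((PU.const 2).mul (g_h w_X w_P)) (PU.const 0)))
    (PU.ite (PP.eq hs (PU.const 0)) (g_h w_X w_P)
    (PU.ite (w_xP hi (w_c hs) (w_k hs))
      ((((hA.sub hB).add (hB.sub hA)).pow 2).add (g_la w_X w_P hi)) (PU.const 0)))

private lemma w_s2B (hi : PU i) (hs : PU s) :
    PU (fun a : List Bool × ℕ => s2B (rtab D a.1) (i a) (s a)) := by
  unfold s2B
  exact PU.ite (PP.eq hi (PU.const 0))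
    (PU.ite (PP.eq hs (PU.const 1)) (g_h w_X w_P) (PU.const 0))
    (PU.ite (PP.eq hs (PU.const 0)) hi (PU.const 0))

end pu

theorem pu_nb (D : CspData) : PU (fun w : List Bool => nb (rtab D w)) := by
  refine (((PU.const 2).mul (g_h (r_X D) (r_P D))).add (PU.const 1)).congr (fun w => ?_)
  unfold nb
  rw [h_eq]
  omega

theorem pu_M (D : CspData) : PU (fun w : List Bool => (rtab D w).M) := g_M (r_X D) (r_P D)

theorem pu_SL (D : CspData) : PU (fun w : List Bool => (rtab D w).SL) := g_SL (r_X D) (r_P D)

theorem pp_slot (D : CspData) {i s : List Bool × ℕ → ℕ} (hi : PU i) (hs : PU s) :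
    PP (fun a : List Bool × ℕ => (rtab D a.1).slot (i a) (s a) ≠ none) :=
  (w_sP hi hs).congr (fun a => (s_spec (r_bound D a.1) (i a) (s a)).1.symm)

theorem pu_slot1 (D : CspData) {i s : List Bool × ℕ → ℕ} (hi : PU i) (hs : PU s) :
    PU (fun a : List Bool × ℕ => (((rtab D a.1).slot (i a) (s a)).getD (0, 0)).1.natAbs) := by
  have hA := w_s1A (D := D) hi hs
  have hB := w_s1B (D := D) hi hs
  refine ((hA.sub hB).add (hB.sub hA)).congr (fun a => ?_)
  rw [(s_spec (r_bound D a.1) (i a) (s a)).2.1, abs_sub]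

theorem pu_slot2 (D : CspData) {i s : List Bool × ℕ → ℕ} (hi : PU i) (hs : PU s) :
    PU (fun a : List Bool × ℕ => (((rtab D a.1).slot (i a) (s a)).getD (0, 0)).2.natAbs) := by
  have hA := w_s2A (D := D) hi hs
  have hB := w_s2B (D := D) hi hs
  refine ((hA.sub hB).add (hB.sub hA)).congr (fun a => ?_)
  rw [(s_spec (r_bound D a.1) (i a) (s a)).2.2, abs_sub]

theorem pp_slot1 (D : CspData) {i s : List Bool × ℕ → ℕ} (hi : PU i) (hs : PU s) :
    PP (fun a : List Bool × ℕ => (((rtab D a.1).slot (i a) (s a)).getD (0, 0)).1 < 0) := by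
  refine (PP.lt (w_s1A (D := D) hi hs) (w_s1B (D := D) hi hs)).congr (fun a => ?_)
  rw [(s_spec (r_bound D a.1) (i a) (s a)).2.1]
  omega

theorem pp_slot2 (D : CspData) {i s : List Bool × ℕ → ℕ} (hi : PU i) (hs : PU s) :
    PP (fun a : List Bool × ℕ => (((rtab D a.1).slot (i a) (s a)).getD (0, 0)).2 < 0) := by
  refine (PP.lt (w_s2A (D := D) hi hs) (w_s2B (D := D) hi hs)).congr (fun a => ?_)
  rw [(s_spec (r_bound D a.1) (i a) (s a)).2.2]
  omega

end Pool.Agent.Helper70.MD
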