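import Pool.Agent.Helper70.MD.I1
import Pool.Agent.Helper70.MD.I3
import Pool.Agent.Helper70.MD.T1

/-!
MD-I4: the instance is computable in polynomial time.

`slot_bound`: each coordinate of each slot with `i ≤ M` is at most `2 H + 1` in absolute value (for
parabola points `|X| ≤ Xm`, `X^2 + Lam i ≤ Xm^2 + Lam M ≤ H`; `H_big`, `Lam_strictMono`; the
abscissas: E1 bounds; note that the table `rtab D w` is `Good` by `tab_good`, `rN ≥ 1`, but only
`|shift| ≤ 6` and the sizes are needed).
`encode_eq`: `encodeInst (τ.inst) = bits 6 ++ ...`, `Nat.bits 6 = [false, true, true]` gives the first three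
blocks. For the points: `List.flatMap` over the list of points is a `flatMap` over
`List.range ((M+1) * SL)` (`flatMap_assoc`); for each `n` the blocks with `(i - 3) / T = n`,
`T = 8 + 2 nb`, are: empty if the slot is `none`, and otherwise the encoding of the integer point:
`encRat (z : ℚ) = encodeInt z ++ [comma, bit true]` (`Rat.num_intCast`, `Rat.den_intCast`), the digits by
`bits_blocks` with `b = nb τ` (`slot_bound`). Use `range_mul_flatMap` of `Helper68.Final` for splitting
`List.range (m * T)` into `m` groups of `T`, and `List.range_add` for splitting `List.range T` into the parts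
`[0], [1], b digits, ...`.
`pu_blk`: from I3, `pu_bitblk`, `PU.ite`, with `n = (i - 3) / T`; `blk` is expressed by
`PP (slot ≠ none)`, the absolute values and signs of `getD (0,0)`.
`polytime_rinst`: `Helper68.Una.polytime` with `l w = nblk (rtab D w)`, `B w i = blk (rtab D w) i`,
table `tb4`.
-/

set_option autoImplicit false

namespace Pool.Agent.Helper70.MD

open Finset

open scoped Classical

open Helper68.Una Computability

private theorem i4_Xm (τ : Tab) : τ.Xm = τ.nu * (24 * τ.Xr + 216) := by
  simp only [Tab.Xm, Tab.Rc]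
  ring

private theorem i4_shift {τ : Tab} (hg : τ.Good) {p k : ℕ} (h : τ.inL p k) :
    -6 ≤ τ.shift p k ∧ τ.shift p k ≤ 6 := by
  obtain ⟨s, hs⟩ := Option.ne_none_iff_exists'.1 h
  have h2 := hg.bound p k s hs
  simp only [Tab.shift, hs, Option.getD_some]
  exact h2

private theorem i4_mul {τ : Tab} {x : ℤ} (h1 : -(24 * (τ.Xr : ℤ) + 216) ≤ x)
    (h2 : x ≤ 24 * (τ.Xr : ℤ) + 216) : -τ.Xm ≤ τ.nu * x ∧ τ.nu * x ≤ τ.Xm := by
  have hn := Tab.nu_pos (τ := τ)
  rw [i4_Xm]
  constructor
  · have := mul_le_mul_of_nonneg_left h1 (by linarith : 0 ≤ τ.nu)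
    linarith
  · exact mul_le_mul_of_nonneg_left h2 (by linarith)

private theorem i4_xslot {τ : Tab} (hg : τ.Good) {i c k : ℕ} (h1 : 1 ≤ i) (hi : i ≤ τ.M) {X : ℤ}
    (h : τ.xslot i c k = some X) : -τ.Xm ≤ X ∧ X ≤ τ.Xm := by
  have hn := Tab.nu_pos (τ := τ)
  have hX : (0 : ℤ) ≤ τ.Xr := Int.natCast_nonneg _
  have hXm := i4_Xm τ
  have hm : 216 * τ.nu ≤ τ.Xm := by
    rw [hXm]
    have := mul_nonneg (by linarith : 0 ≤ τ.nu) hX
    linarith
  unfold Tab.xslot at h
  split_ifs at h with g1 g2 g3 g4 g5 g6 g7 g8 g9 g10 g11 g12 g13 g14 g15 g16 g17 g18 <;>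
    simp only [Option.some.injEq] at h <;> subst h
  · have := Tab.left_bounds hi g2
    constructor
    · linarith [this.1]
    · linarith [this.2]
  · have := Tab.right_bounds h1 hi g4
    have hR : τ.Rc * τ.nu ≤ τ.Xm := by
      rw [hXm, Tab.Rc]
      have : (24 * (τ.Xr : ℤ) + 108) * τ.nu = τ.nu * (24 * τ.Xr + 108) := by ring
      rw [this]
      exact mul_le_mul_of_nonneg_left (by linarith) (by linarith)
    have hR0 : 0 ≤ τ.Rc * τ.nu := by
      rw [Tab.Rc]
      exact mul_nonneg (by linarith) (by linarith)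
    constructor
    · linarith [this.2]
    · linarith [this.1]
  · exact i4_mul (by omega) (by omega)
  · exact i4_mul (by omega) (by omega)
  · exact i4_mul (by omega) (by omega)
  · exact i4_mul (by omega) (by omega)
  · have := i4_shift hg g14.2
    exact i4_mul (by omega) (by omega)
  · exact i4_mul (by omega) (by omega)
  · exact i4_mul (by omega) (by omega)
  · exact i4_mul (by omega) (by omega)

private theorem i4_bound {τ : Tab} (hg : τ.Good) {i s : ℕ} (hi : i ≤ τ.M) {q : ℤ × ℤ}
    (hq : τ.slot i s = some q) :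
    q.1.natAbs ≤ nb τ ∧ q.2.natAbs ≤ nb τ := by
  obtain ⟨hH, hM, hXm⟩ := Tab.H_big (τ := τ)
  have hL : 0 ≤ τ.Lam τ.M := Tab.Lam_nonneg τ.M
  have hsq : τ.Xm ≤ τ.Xm ^ 2 := by nlinarith
  have hH1 : τ.Lam τ.M + τ.Xm ^ 2 ≤ τ.H := by
    rw [← hH]
    nlinarith [mul_nonneg (by linarith : (0 : ℤ) ≤ 16 * τ.Xm - 1)
      (by linarith : (0 : ℤ) ≤ τ.Lam τ.M + τ.Xm ^ 2)]
  have hH2 : τ.Xm ≤ τ.H := by linarith
  have hi' : (i : ℤ) ≤ τ.M := by exact_mod_cast hi
  have key : ∀ z : ℤ, -(2 * τ.H + 1) ≤ z → z ≤ 2 * τ.H + 1 → z.natAbs ≤ nb τ := by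
    intro z h1 h2
    unfold nb
    omega
  unfold Tab.slot at hq
  split_ifs at hq with g1 g2 g3 g4 g5
  · simp only [Option.some.injEq] at hq
    subst hq
    exact ⟨key _ (by dsimp only; linarith) (by dsimp only; linarith),
      key _ (by dsimp only; linarith) (by dsimp only; linarith)⟩
  · simp only [Option.some.injEq] at hq
    subst hq
    exact ⟨key _ (by dsimp only; linarith) (by dsimp only; linarith),
      key _ (by dsimp only; linarith) (by dsimp only; linarith)⟩
  · simp only [Option.some.injEq] at hq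
    subst hq
    exact ⟨key _ (by dsimp only; linarith) (by dsimp only; linarith),
      key _ (by dsimp only; linarith) (by dsimp only; linarith)⟩
  · simp only [Option.some.injEq] at hq
    subst hq
    have h0 : (0 : ℤ) ≤ i := Int.natCast_nonneg _
    exact ⟨key _ (by dsimp only; linarith) (by dsimp only; linarith),
      key _ (by dsimp only; linarith) (by dsimp only; linarith)⟩
  · rw [Option.map_eq_some_iff] at hq
    obtain ⟨X, hX, rfl⟩ := hq
    obtain ⟨h1, h2⟩ := i4_xslot hg (Nat.one_le_iff_ne_zero.2 g1) hi hX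
    have h3 : X ^ 2 ≤ τ.Xm ^ 2 := sq_le_sq' h1 h2
    have h4 : 0 ≤ X ^ 2 := sq_nonneg X
    have h5 : 0 ≤ τ.Lam i := Tab.Lam_nonneg i
    have h6 : τ.Lam i ≤ τ.Lam τ.M := by
      rcases Nat.lt_or_ge i τ.M with h | h
      · exact (Tab.Lam_strictMono h).le
      · rw [le_antisymm hi h]
    exact ⟨key _ (by dsimp only; linarith) (by dsimp only; linarith),
      key _ (by dsimp only; linarith) (by dsimp only; linarith)⟩

private theorem i4_good (D : CspData) (w : List Bool) : (rtab D w).Good :=
  tab_good (by unfold rN; omega) _ _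

theorem slot_bound (D : CspData) (w : List Bool) {i s : ℕ} (hi : i ≤ (rtab D w).M) {q : ℤ × ℤ}
    (hq : (rtab D w).slot i s = some q) :
    q.1.natAbs ≤ nb (rtab D w) ∧ q.2.natAbs ≤ nb (rtab D w) := i4_bound (i4_good D w) hi hq

private theorem i4_encRat (z : ℤ) :
    encRat (z : ℚ) = Γ'.bit (decide (z < 0)) :: (Nat.bits z.natAbs).map Γ'.bit ++
      [Γ'.comma, Γ'.bit true] := by
  unfold encRat Helper68.Chip.encodeInt
  rw [Rat.num_intCast, Rat.den_intCast]
  simp

private theorem i4_pt (b : ℕ) (q : ℤ × ℤ) (h1 : q.1.natAbs ≤ b) (h2 : q.2.natAbs ≤ b) :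
    (List.range (8 + 2 * b)).flatMap (fun t => tb4.getD (ptblk b q t) []) =
      Γ'.comma :: encRat (q.1 : ℚ) ++ Γ'.comma :: encRat (q.2 : ℚ) := by
  have e : 8 + 2 * b = 2 + (b + (4 + (b + 2))) := by omega
  rw [e, List.range_add, List.range_add, List.range_add, List.range_add]
  simp only [List.flatMap_append, List.flatMap_map, List.map_append, List.map_map]
  have a0 : (List.range 2).flatMap (fun t => tb4.getD (ptblk b q t) []) =
      [Γ'.comma, Γ'.bit (decide (q.1 < 0))] := by
    have : List.range 2 = [0, 1] := rfl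
    rw [this]
    by_cases h : q.1 < 0
    · simp [ptblk, tb4, h]
    · simp [ptblk, tb4, h]
  have a1 : (List.range b).flatMap (fun t => tb4.getD (ptblk b q (2 + t)) []) =
      (Nat.bits q.1.natAbs).map Γ'.bit := by
    rw [bits_blocks _ b h1]
    apply List.flatMap_congr
    intro t ht
    have ht : t < b := List.mem_range.mp ht
    have : ptblk b q (2 + t) = bitblk q.1.natAbs t := by
      unfold ptblk
      rw [if_neg (by omega), if_neg (by omega), if_pos (by omega), Nat.add_sub_cancel_left]
    rw [this]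
  have a2 : (List.range 4).flatMap (fun t => tb4.getD (ptblk b q (2 + (b + t))) []) =
      [Γ'.comma, Γ'.bit true, Γ'.comma, Γ'.bit (decide (q.2 < 0))] := by
    have : List.range 4 = [0, 1, 2, 3] := rfl
    rw [this]
    have b0 : ptblk b q (2 + b) = 3 := by
      unfold ptblk
      rw [if_neg (by omega), if_neg (by omega), if_neg (by omega), if_pos (by omega)]
    have b1 : ptblk b q (2 + (b + 1)) = 2 := by
      unfold ptblk
      rw [if_neg (by omega), if_neg (by omega), if_neg (by omega), if_neg (by omega),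
        if_pos (by omega)]
    have b2 : ptblk b q (2 + (b + 2)) = 3 := by
      unfold ptblk
      rw [if_neg (by omega), if_neg (by omega), if_neg (by omega), if_neg (by omega),
        if_neg (by omega), if_pos (by omega)]
    have b3 : ptblk b q (2 + (b + 3)) = if q.2 < 0 then 2 else 1 := by
      unfold ptblk
      rw [if_neg (by omega), if_neg (by omega), if_neg (by omega), if_neg (by omega),
        if_neg (by omega), if_neg (by omega), if_pos (by omega)]
    by_cases h : q.2 < 0
    · simp [b0, b1, b2, b3, tb4, h]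
    · simp [b0, b1, b2, b3, tb4, h]
  have a3 : (List.range b).flatMap (fun t => tb4.getD (ptblk b q (2 + (b + (4 + t)))) []) =
      (Nat.bits q.2.natAbs).map Γ'.bit := by
    rw [bits_blocks _ b h2]
    apply List.flatMap_congr
    intro t ht
    have ht : t < b := List.mem_range.mp ht
    have : ptblk b q (2 + (b + (4 + t))) = bitblk q.2.natAbs t := by
      unfold ptblk
      rw [if_neg (by omega), if_neg (by omega), if_neg (by omega), if_neg (by omega),
        if_neg (by omega), if_neg (by omega), if_neg (by omega), if_pos (by omega)]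
      congr 1
      omega
    rw [this]
  have a4 : (List.range 2).flatMap (fun t => tb4.getD (ptblk b q (2 + (b + (4 + (b + t))))) []) =
      [Γ'.comma, Γ'.bit true] := by
    have : List.range 2 = [0, 1] := rfl
    rw [this]
    have b0 : ptblk b q (2 + (b + (4 + b))) = 3 := by
      unfold ptblk
      rw [if_neg (by omega), if_neg (by omega), if_neg (by omega), if_neg (by omega),
        if_neg (by omega), if_neg (by omega), if_neg (by omega), if_neg (by omega),
        if_pos (by omega)]
    have b1 : ptblk b q (2 + (b + (4 + (b + 1)))) = 2 := by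
      unfold ptblk
      rw [if_neg (by omega), if_neg (by omega), if_neg (by omega), if_neg (by omega),
        if_neg (by omega), if_neg (by omega), if_neg (by omega), if_neg (by omega),
        if_neg (by omega)]
    simp [b0, b1, tb4]
  simp only [Function.comp_def]
  rw [a0, a1, a2, a3, a4, i4_encRat, i4_encRat]
  simp

theorem encode_eq (D : CspData) (w : List Bool) :
    encodeInst (rinst D w) =
      (List.range (nblk (rtab D w))).flatMap (fun i => tb4.getD (blk (rtab D w) i) []) := by
  unfold rinst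
  generalize hτ : rtab D w = τ
  have hg : τ.Good := by rw [← hτ]; exact i4_good D w
  clear hτ
  unfold nblk
  rw [List.range_add, List.flatMap_append, List.flatMap_map]
  unfold encodeInst
  congr 1
  · have h3 : List.range 3 = [0, 1, 2] := rfl
    have h6 : Nat.bits 6 = [false, true, true] := by decide
    rw [h3]
    simp [Tab.inst, h6, blk, tb4]
  · have hT : 0 < 8 + 2 * nb τ := by omega
    have hS : 0 < τ.SL := by unfold Tab.SL; omega
    let F : ℕ → ℕ → List Γ' := fun n t => tb4.getD (match τ.slot (n / τ.SL) (n % τ.SL) with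
          | none => 0
          | some q => ptblk (nb τ) q t) []
    have h1 : ∀ i, tb4.getD (blk τ (3 + i)) [] =
        F (i / (8 + 2 * nb τ)) (i % (8 + 2 * nb τ)) := by
      intro i
      unfold blk
      rw [if_neg (by omega), Nat.add_sub_cancel_left]
      rfl
    simp only [h1]
    refine Eq.trans ?_ (Helper68.Final.range_mul_flatMap (8 + 2 * nb τ) ((τ.M + 1) * τ.SL) hT F).symm
    change (τ.ptsL).flatMap _ = _
    unfold Tab.ptsL
    rw [List.flatMap_assoc]
    apply List.flatMap_congr
    intro n hn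
    have hn : n < (τ.M + 1) * τ.SL := List.mem_range.mp hn
    have hn2 : n / τ.SL ≤ τ.M := by
      have := (Nat.div_lt_iff_lt_mul hS).2 hn
      omega
    cases hq : τ.slot (n / τ.SL) (n % τ.SL) with
    | none => simp [F, hq, tb4]
    | some q =>
      obtain ⟨b1, b2⟩ := i4_bound hg hn2 hq
      simp only [List.flatMap_cons, List.flatMap_nil, List.append_nil, F, hq]
      exact (i4_pt (nb τ) q b1 b2).symm

theorem pu_blk (D : CspData) : PU (fun a : List Bool × ℕ => blk (rtab D a.1) a.2) := by
  have c0 : PU (fun _ : List Bool × ℕ => 0) := PU.const 0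
  have c1 : PU (fun _ : List Bool × ℕ => 1) := PU.const 1
  have c2 : PU (fun _ : List Bool × ℕ => 2) := PU.const 2
  have c3 : PU (fun _ : List Bool × ℕ => 3) := PU.const 3
  have c4 : PU (fun _ : List Bool × ℕ => 4) := PU.const 4
  have c5 : PU (fun _ : List Bool × ℕ => 5) := PU.const 5
  have c6 : PU (fun _ : List Bool × ℕ => 6) := PU.const 6
  have c8 : PU (fun _ : List Bool × ℕ => 8) := PU.const 8
  have hb : PU (fun a : List Bool × ℕ => nb (rtab D a.1)) := (pu_nb D).wk
  have hS : PU (fun a : List Bool × ℕ => (rtab D a.1).SL) := (pu_SL D).wk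
  have hT : PU (fun a : List Bool × ℕ => 8 + 2 * nb (rtab D a.1)) := c8.add (c2.mul hb)
  have hn := (PU.snd.sub c3).div hT
  have ht := (PU.snd.sub c3).mod hT
  have hi := hn.div hS
  have hs := hn.mod hS
  have q0 := pp_slot D hi hs
  have q1 := pu_slot1 D hi hs
  have q2 := pu_slot2 D hi hs
  have s1 := pp_slot1 D hi hs
  have s2 := pp_slot2 D hi hs
  have hP : PU (fun a : List Bool × ℕ => ptblk (nb (rtab D a.1))
      (((rtab D a.1).slot ((a.2 - 3) / (8 + 2 * nb (rtab D a.1)) / (rtab D a.1).SL)
        ((a.2 - 3) / (8 + 2 * nb (rtab D a.1)) % (rtab D a.1).SL)).getD (0, 0))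
      ((a.2 - 3) % (8 + 2 * nb (rtab D a.1)))) := by
    unfold ptblk
    exact PU.ite (PP.eq ht c0) c3 (PU.ite (PP.eq ht c1) (PU.ite s1 c2 c1)
      (PU.ite (PP.lt ht (c2.add hb)) (pu_bitblk q1 (ht.sub c2))
      (PU.ite (PP.eq ht (c2.add hb)) c3 (PU.ite (PP.eq ht (c3.add hb)) c2
      (PU.ite (PP.eq ht (c4.add hb)) c3 (PU.ite (PP.eq ht (c5.add hb)) (PU.ite s2 c2 c1)
      (PU.ite (PP.lt ht (c6.add (c2.mul hb))) (pu_bitblk q2 ((ht.sub c6).sub hb))
      (PU.ite (PP.eq ht (c6.add (c2.mul hb))) c3 c2))))))))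
  refine (PU.ite (PP.lt PU.snd c3) (PU.ite (PP.eq PU.snd c0) c1 c2)
    (PU.ite q0 hP c0)).congr (fun a => ?_)
  unfold blk
  split_ifs with g1 g2 g3
  · rfl
  · rfl
  · obtain ⟨q, hq⟩ := Option.ne_none_iff_exists'.1 g3
    rw [hq]
    rfl
  · rw [not_not] at g3
    rw [g3]

theorem polytime_rinst (D : CspData) :
    Nonempty (Turing.TM2ComputableInPolyTime (id : List Bool → List Bool) encodeInst
      (rinst D)) := by
  have hl : PU (fun w : List Bool => nblk (rtab D w)) := by
    unfold nblk
    exact (PU.const 3).add (((pu_M D).add (PU.const 1)).mul (pu_SL D) |>.mul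
      ((PU.const 8).add ((PU.const 2).mul (pu_nb D))))
  exact polytime (fun w => nblk (rtab D w)) (fun w i => blk (rtab D w) i) tb4 hl
    (pu_blk D) encodeInst (rinst D) (encode_eq D)

end Pool.Agent.Helper70.MD
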