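import Pool.Agent.Helper70.MD.IDefs
import Pool.Agent.Helper70.MD.E3

/-!
MD-I5: the instance describes the point set.

`inst_set`: a point is in `τ.inst.set` iff it is `((q.1 : ℝ), (q.2 : ℝ))` for some `q` with
`τ.slot (n / SL) (n % SL) = some q`, `n < (M + 1) SL`, i.e. `τ.slot i s = some q` with `i ≤ M`, `s < SL`
(`((x : ℤ) : ℚ) : ℝ) = x`). Ring 0: `s = 0, 1, 2`: `ca, cb, cc`. Ring `i ≥ 1`: `s = 0`: `top i`;
`s = 1 + 5 k + c`: the points `par X (Lam i)` with `xslot i c k = some X`; for `s < SL = 1 + 5 (6 M + 3)`,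
`k < 6 M + 3`. The union over `c`, `k` of these `X` is `Xs i`: `c = 0`: left cluster (`K i ≤ 6 M`,
`K_le`), `c = 1`: right cluster (`Rn i ≤ 6 M + 2`, from `K_md_le`), `c = 2, 3, 4`: `Cm i`: for even rings `CE p`:
columns not in loops, interior positions, margins `-90, -54, -18` (`k = 0, 1, 2`) and
`24 Xr + 18, + 54, + 90` (`k = 3, 4, 5`); for odd rings `CO p`; the indices `k ≤ Xr` are smaller than
`6 M + 3`. `S` is the union of the `C i`, `i ≤ M`. (For `i > M` nothing is included.)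
-/

set_option autoImplicit false

namespace Pool.Agent.Helper70.MD

open Finset

open scoped Classical

namespace Tab

private lemma i5_c0 (τ : Tab) (i k : ℕ) : τ.xslot i 0 k =
    if k < τ.K i then some (-108 * τ.nu + i + k) else none := by
  unfold xslot
  rw [if_pos rfl]

private lemma i5_c1 (τ : Tab) (i k : ℕ) : τ.xslot i 1 k =
    if k < τ.Rn i then some (τ.Rc * τ.nu - i - k) else none := by
  unfold xslot
  rw [if_neg (by omega), if_pos rfl]

private lemma i5_low (τ : Tab) {i c : ℕ} (k : ℕ) (h : i < τ.i0) (h2 : 2 ≤ c) :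
    τ.xslot i c k = none := by
  unfold xslot
  rw [if_neg (by omega), if_neg (by omega), if_pos h]

private lemma i5_e2 (τ : Tab) {i : ℕ} (k : ℕ) (h : ¬ i < τ.i0) (h2 : (i - τ.i0) % 2 = 0) :
    τ.xslot i 2 k = if k < τ.Xr ∧ ¬ τ.inL ((i - τ.i0) / 2) k then
      some (τ.nu * (24 * k + 12)) else none := by
  unfold xslot
  rw [if_neg (by omega), if_neg (by omega), if_neg h, if_pos h2, if_pos rfl]

private lemma i5_e3 (τ : Tab) {i : ℕ} (k : ℕ) (h : ¬ i < τ.i0) (h2 : (i - τ.i0) % 2 = 0) :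
    τ.xslot i 3 k = if k < τ.Xr ∧ τ.intr ((i - τ.i0) / 2) k then
      some (τ.nu * (24 * k)) else none := by
  unfold xslot
  rw [if_neg (by omega), if_neg (by omega), if_neg h, if_pos h2, if_neg (by omega), if_pos rfl]

private lemma i5_e4 (τ : Tab) {i : ℕ} (k : ℕ) (h : ¬ i < τ.i0) (h2 : (i - τ.i0) % 2 = 0) :
    τ.xslot i 4 k = if k < 3 then some (τ.nu * (-90 + 36 * k)) else
      if k < 6 then some (τ.nu * (24 * τ.Xr + 18 + 36 * ((k : ℤ) - 3))) else none := by
  unfold xslot
  rw [if_neg (by omega), if_neg (by omega), if_neg h, if_pos h2, if_neg (by omega),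
    if_neg (by omega)]

private lemma i5_o2 (τ : Tab) {i : ℕ} (k : ℕ) (h : ¬ i < τ.i0) (h2 : ¬ (i - τ.i0) % 2 = 0) :
    τ.xslot i 2 k = if k < τ.Xr ∧ τ.inL ((i - τ.i0) / 2) k then
      some (τ.nu * (24 * k + 12 + τ.shift ((i - τ.i0) / 2) k)) else none := by
  unfold xslot
  rw [if_neg (by omega), if_neg (by omega), if_neg h, if_neg h2, if_pos rfl]

private lemma i5_o3 (τ : Tab) {i : ℕ} (k : ℕ) (h : ¬ i < τ.i0) (h2 : ¬ (i - τ.i0) % 2 = 0) :
    τ.xslot i 3 k = if k < τ.Xr + 1 ∧ ¬ τ.intr ((i - τ.i0) / 2) k then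
      some (τ.nu * (24 * k)) else none := by
  unfold xslot
  rw [if_neg (by omega), if_neg (by omega), if_neg h, if_neg h2, if_neg (by omega), if_pos rfl]

private lemma i5_o4 (τ : Tab) {i : ℕ} (k : ℕ) (h : ¬ i < τ.i0) (h2 : ¬ (i - τ.i0) % 2 = 0) :
    τ.xslot i 4 k = if k < 2 then some (τ.nu * (-72 + 36 * k)) else
      if k < 4 then some (τ.nu * (24 * τ.Xr + 36 + 36 * ((k : ℤ) - 2))) else none := by
  unfold xslot
  rw [if_neg (by omega), if_neg (by omega), if_neg h, if_neg h2, if_neg (by omega),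
    if_neg (by omega)]

private lemma i5_mem (τ : Tab) (i : ℕ) (X : ℤ) : X ∈ τ.Xs i ↔
    (∃ k < τ.K i, -108 * τ.nu + i + k = X) ∨ (∃ x ∈ τ.Cm i, τ.nu * x = X) ∨
      ∃ t < τ.Rn i, τ.Rc * τ.nu - i - t = X := by
  rw [Xs, mem_union, mem_union, mem_image, mem_image, mem_image]
  simp only [mem_range]

private lemma i5_CE (τ : Tab) (p : ℕ) (x : ℤ) : x ∈ τ.CE p ↔
    (∃ k < 3, (-90 + 36 * (k : ℕ) : ℤ) = x) ∨
    (∃ k < 6, 3 ≤ k ∧ (24 * τ.Xr + 18 + 36 * ((k : ℕ) - 3) : ℤ) = x) ∨
    (∃ h : ℕ, (h < τ.Xr ∧ ¬ τ.inL p h) ∧ (24 * (h : ℤ) + 12) = x) ∨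
    ∃ k : ℕ, (k < τ.Xr ∧ τ.intr p k) ∧ (24 * (k : ℤ)) = x := by
  rw [CE]
  simp only [mem_union, mem_insert, mem_singleton, mem_image, mem_filter, mem_range]
  constructor
  · rintro ((h | h | h | h | h | h) | h | h)
    · exact Or.inl ⟨0, by omega, by rw [h]; norm_num⟩
    · exact Or.inl ⟨1, by omega, by rw [h]; norm_num⟩
    · exact Or.inl ⟨2, by omega, by rw [h]; norm_num⟩
    · exact Or.inr (Or.inl ⟨3, by omega, by omega, by rw [h]; push_cast; ring⟩)
    · exact Or.inr (Or.inl ⟨4, by omega, by omega, by rw [h]; push_cast; ring⟩)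
    · exact Or.inr (Or.inl ⟨5, by omega, by omega, by rw [h]; push_cast; ring⟩)
    · exact Or.inr (Or.inr (Or.inl h))
    · exact Or.inr (Or.inr (Or.inr h))
  · rintro (⟨k, hk, h⟩ | ⟨k, hk, hk3, h⟩ | h | h)
    · left
      have h' : k = 0 ∨ k = 1 ∨ k = 2 := by omega
      rcases h' with rfl | rfl | rfl
      · left; rw [← h]; norm_num
      · right; left; rw [← h]; norm_num
      · right; right; left; rw [← h]; norm_num
    · left
      have h' : k = 3 ∨ k = 4 ∨ k = 5 := by omega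
      rcases h' with rfl | rfl | rfl
      · right; right; right; left; rw [← h]; push_cast; ring
      · right; right; right; right; left; rw [← h]; push_cast; ring
      · right; right; right; right; right; rw [← h]; push_cast; ring
    · exact Or.inr (Or.inl h)
    · exact Or.inr (Or.inr h)

private lemma i5_CO (τ : Tab) (p : ℕ) (x : ℤ) : x ∈ τ.CO p ↔
    (∃ k < 2, (-72 + 36 * (k : ℕ) : ℤ) = x) ∨
    (∃ k < 4, 2 ≤ k ∧ (24 * τ.Xr + 36 + 36 * ((k : ℕ) - 2) : ℤ) = x) ∨
    (∃ k : ℕ, (k < τ.Xr + 1 ∧ ¬ τ.intr p k) ∧ (24 * (k : ℤ)) = x) ∨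
    ∃ h : ℕ, (h < τ.Xr ∧ τ.inL p h) ∧ (24 * (h : ℤ) + 12 + τ.shift p h) = x := by
  rw [CO]
  simp only [mem_union, mem_insert, mem_singleton, mem_image, mem_filter, mem_range]
  constructor
  · rintro ((h | h | h | h) | h | h)
    · exact Or.inl ⟨0, by omega, by rw [h]; norm_num⟩
    · exact Or.inl ⟨1, by omega, by rw [h]; norm_num⟩
    · exact Or.inr (Or.inl ⟨2, by omega, by omega, by rw [h]; push_cast; ring⟩)
    · exact Or.inr (Or.inl ⟨3, by omega, by omega, by rw [h]; push_cast; ring⟩)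
    · exact Or.inr (Or.inr (Or.inl h))
    · exact Or.inr (Or.inr (Or.inr h))
  · rintro (⟨k, hk, h⟩ | ⟨k, hk, hk3, h⟩ | h | h)
    · left
      have h' : k = 0 ∨ k = 1 := by omega
      rcases h' with rfl | rfl
      · left; rw [← h]; norm_num
      · right; left; rw [← h]; norm_num
    · left
      have h' : k = 2 ∨ k = 3 := by omega
      rcases h' with rfl | rfl
      · right; right; left; rw [← h]; push_cast; ring
      · right; right; right; rw [← h]; push_cast; ring
    · exact Or.inr (Or.inl h)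
    · exact Or.inr (Or.inr h)

private lemma i5_if {p : Prop} [Decidable p] {a X : ℤ}
    (h : (if p then some a else none) = some X) : p ∧ a = X := by
  by_cases hp : p
  · rw [if_pos hp] at h
    exact ⟨hp, Option.some.inj h⟩
  · rw [if_neg hp] at h
    cases h

private lemma i5_if2 {p q : Prop} [Decidable p] [Decidable q] {a b X : ℤ}
    (h : (if p then some a else if q then some b else none) = some X) :
    (p ∧ a = X) ∨ (¬ p ∧ q ∧ b = X) := by
  by_cases hp : p
  · rw [if_pos hp] at h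
    exact Or.inl ⟨hp, Option.some.inj h⟩
  · rw [if_neg hp] at h
    exact Or.inr ⟨hp, i5_if h⟩

private lemma i5_xs (τ : Tab) {i : ℕ} (h1 : 1 ≤ i) (hi : i ≤ τ.M) (X : ℤ) :
    X ∈ τ.Xs i ↔ ∃ c < 5, ∃ k < 6 * τ.M + 3, τ.xslot i c k = some X := by
  have hK := K_le (τ := τ) hi
  have hR := K_md_le (τ := τ) h1
  have hXr : τ.Xr ≤ τ.M := by
    have e1 : τ.M = τ.i0 + 2 * τ.P := rfl
    have e2 : τ.i0 = τ.Xr + 8 := rfl
    omega
  rw [i5_mem]
  constructor
  · rintro (⟨k, hk, rfl⟩ | ⟨x, hx, rfl⟩ | ⟨t, ht, rfl⟩)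
    · exact ⟨0, by omega, k, by omega, by rw [i5_c0, if_pos hk]⟩
    · unfold Cm at hx
      by_cases g1 : i < τ.i0
      · rw [if_pos g1] at hx
        exact absurd hx (notMem_empty _)
      · rw [if_neg g1] at hx
        by_cases g2 : (i - τ.i0) % 2 = 0
        · rw [if_pos g2, i5_CE] at hx
          rcases hx with ⟨k, hk, rfl⟩ | ⟨k, hk, hk3, rfl⟩ | ⟨k, hk, rfl⟩ | ⟨k, hk, rfl⟩
          · exact ⟨4, by omega, k, by omega, by rw [i5_e4 τ k g1 g2, if_pos hk]⟩
          · exact ⟨4, by omega, k, by omega, by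
              rw [i5_e4 τ k g1 g2, if_neg (by omega), if_pos hk]⟩
          · exact ⟨2, by omega, k, by omega, by rw [i5_e2 τ k g1 g2, if_pos hk]⟩
          · exact ⟨3, by omega, k, by omega, by rw [i5_e3 τ k g1 g2, if_pos hk]⟩
        · rw [if_neg g2, i5_CO] at hx
          rcases hx with ⟨k, hk, rfl⟩ | ⟨k, hk, hk3, rfl⟩ | ⟨k, hk, rfl⟩ | ⟨k, hk, rfl⟩
          · exact ⟨4, by omega, k, by omega, by rw [i5_o4 τ k g1 g2, if_pos hk]⟩
          · exact ⟨4, by omega, k, by omega, by
              rw [i5_o4 τ k g1 g2, if_neg (by omega), if_pos hk]⟩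
          · exact ⟨3, by omega, k, by omega, by rw [i5_o3 τ k g1 g2, if_pos hk]⟩
          · exact ⟨2, by omega, k, by omega, by rw [i5_o2 τ k g1 g2, if_pos hk]⟩
    · exact ⟨1, by omega, t, by omega, by rw [i5_c1, if_pos ht]⟩
  · rintro ⟨c, hc, k, hk, h⟩
    have hc' : c = 0 ∨ c = 1 ∨ 2 ≤ c := by omega
    rcases hc' with rfl | rfl | hc2
    · rw [i5_c0] at h
      obtain ⟨h3, h4⟩ := i5_if h
      exact Or.inl ⟨k, h3, h4⟩
    · rw [i5_c1] at h
      obtain ⟨h3, h4⟩ := i5_if h
      exact Or.inr (Or.inr ⟨k, h3, h4⟩)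
    · right; left
      unfold Cm
      by_cases g1 : i < τ.i0
      · rw [i5_low τ k g1 hc2] at h
        cases h
      · rw [if_neg g1]
        have hc3 : c = 2 ∨ c = 3 ∨ c = 4 := by omega
        by_cases g2 : (i - τ.i0) % 2 = 0
        · rw [if_pos g2]
          rcases hc3 with rfl | rfl | rfl
          · rw [i5_e2 τ k g1 g2] at h
            obtain ⟨h3, h4⟩ := i5_if h
            exact ⟨_, (i5_CE τ _ _).2 (Or.inr (Or.inr (Or.inl ⟨k, h3, rfl⟩))), h4⟩
          · rw [i5_e3 τ k g1 g2] at h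
            obtain ⟨h3, h4⟩ := i5_if h
            exact ⟨_, (i5_CE τ _ _).2 (Or.inr (Or.inr (Or.inr ⟨k, h3, rfl⟩))), h4⟩
          · rw [i5_e4 τ k g1 g2] at h
            rcases i5_if2 h with ⟨h3, h4⟩ | ⟨h3, h5, h4⟩
            · exact ⟨_, (i5_CE τ _ _).2 (Or.inl ⟨k, h3, rfl⟩), h4⟩
            · exact ⟨_, (i5_CE τ _ _).2 (Or.inr (Or.inl ⟨k, h5, by omega, rfl⟩)), h4⟩
        · rw [if_neg g2]
          rcases hc3 with rfl | rfl | rfl
          · rw [i5_o2 τ k g1 g2] at h
            obtain ⟨h3, h4⟩ := i5_if h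
            exact ⟨_, (i5_CO τ _ _).2 (Or.inr (Or.inr (Or.inr ⟨k, h3, rfl⟩))), h4⟩
          · rw [i5_o3 τ k g1 g2] at h
            obtain ⟨h3, h4⟩ := i5_if h
            exact ⟨_, (i5_CO τ _ _).2 (Or.inr (Or.inr (Or.inl ⟨k, h3, rfl⟩))), h4⟩
          · rw [i5_o4 τ k g1 g2] at h
            rcases i5_if2 h with ⟨h3, h4⟩ | ⟨h3, h5, h4⟩
            · exact ⟨_, (i5_CO τ _ _).2 (Or.inl ⟨k, h3, rfl⟩), h4⟩
            · exact ⟨_, (i5_CO τ _ _).2 (Or.inr (Or.inl ⟨k, h5, by omega, rfl⟩)), h4⟩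

/-- The point of an integer pair. -/
private noncomputable def i5pt (q : ℤ × ℤ) : Pt := ((q.1 : ℝ), (q.2 : ℝ))

private lemma i5_ring (τ : Tab) {i : ℕ} (hi : i ≤ τ.M) (p : Pt) :
    p ∈ τ.C i ↔ ∃ s < τ.SL, ∃ q, τ.slot i s = some q ∧ i5pt q = p := by
  have hSL : τ.SL = 1 + 5 * (6 * τ.M + 3) := rfl
  rcases Nat.eq_zero_or_pos i with rfl | h1
  · unfold C
    rw [if_pos rfl, mem_insert, mem_insert, mem_singleton]
    constructor
    · rintro (rfl | rfl | rfl)
      · refine ⟨0, by omega, (-τ.H, 2 * τ.H), ?_, ?_⟩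
        · unfold slot
          rw [if_pos rfl, if_pos rfl]
        · unfold i5pt ca
          push_cast
          rfl
      · refine ⟨1, by omega, (0, -τ.H), ?_, ?_⟩
        · unfold slot
          rw [if_pos rfl, if_neg (by omega), if_pos rfl]
        · unfold i5pt cb
          push_cast
          rfl
      · refine ⟨2, by omega, (τ.H, 2 * τ.H), ?_, ?_⟩
        · unfold slot
          rw [if_pos rfl, if_neg (by omega), if_neg (by omega), if_pos rfl]
        · unfold i5pt cc
          push_cast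
          rfl
    · rintro ⟨s, hs, q, hq, rfl⟩
      unfold slot at hq
      rw [if_pos rfl] at hq
      by_cases s0 : s = 0
      · rw [if_pos s0] at hq
        left
        rw [← Option.some.inj hq]
        unfold i5pt ca
        push_cast
        rfl
      · rw [if_neg s0] at hq
        by_cases s1 : s = 1
        · rw [if_pos s1] at hq
          right; left
          rw [← Option.some.inj hq]
          unfold i5pt cb
          push_cast
          rfl
        · rw [if_neg s1] at hq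
          by_cases s2 : s = 2
          · rw [if_pos s2] at hq
            right; right
            rw [← Option.some.inj hq]
            unfold i5pt cc
            push_cast
            rfl
          · rw [if_neg s2] at hq
            cases hq
  · have htop : i5pt (0, τ.H - i) = τ.top i := by
      unfold i5pt top
      push_cast
      rfl
    have hpar : ∀ X : ℤ, i5pt (X, X ^ 2 + τ.Lam i) = par X (τ.Lam i) := by
      intro X
      unfold i5pt par
      push_cast
      rfl
    unfold C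
    rw [if_neg (by omega), mem_insert, mem_image]
    constructor
    · rintro (rfl | ⟨X, hX, rfl⟩)
      · refine ⟨0, by omega, (0, τ.H - i), ?_, htop⟩
        unfold slot
        rw [if_neg (by omega), if_pos rfl]
      · obtain ⟨c, hc, k, hk, h⟩ := (i5_xs τ h1 hi X).1 hX
        refine ⟨5 * k + c + 1, by omega, (X, X ^ 2 + τ.Lam i), ?_, hpar X⟩
        unfold slot
        rw [if_neg (by omega), if_neg (by omega), show (5 * k + c + 1 - 1) % 5 = c by omega,
          show (5 * k + c + 1 - 1) / 5 = k by omega, h]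
        rfl
    · rintro ⟨s, hs, q, hq, rfl⟩
      unfold slot at hq
      rw [if_neg (by omega)] at hq
      by_cases s0 : s = 0
      · rw [if_pos s0] at hq
        left
        rw [← Option.some.inj hq]
        exact htop
      · rw [if_neg s0, Option.map_eq_some_iff] at hq
        obtain ⟨X, hX, rfl⟩ := hq
        right
        exact ⟨X, (i5_xs τ h1 hi X).2 ⟨_, by omega, _, by omega, hX⟩, (hpar X).symm⟩

theorem inst_set (τ : Tab) : τ.inst.set = τ.S := by
  have hSL : 0 < τ.SL := by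
    unfold SL
    omega
  ext p
  unfold Inst.set inst S ptsL
  rw [List.mem_toFinset, List.mem_map, mem_biUnion]
  constructor
  · rintro ⟨q, hq, rfl⟩
    rw [List.mem_flatMap] at hq
    obtain ⟨n, hn, hq⟩ := hq
    rw [List.mem_range] at hn
    have hi : n / τ.SL < τ.M + 1 := Nat.div_lt_of_lt_mul (by rw [Nat.mul_comm]; exact hn)
    refine ⟨n / τ.SL, mem_range.2 hi, ?_⟩
    rw [i5_ring τ (by omega)]
    refine ⟨n % τ.SL, Nat.mod_lt _ hSL, ?_⟩
    revert hq
    cases hsl : τ.slot (n / τ.SL) (n % τ.SL) with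
    | none =>
      intro hq
      simp at hq
    | some z =>
      intro hq
      refine ⟨z, rfl, ?_⟩
      simp only [List.mem_singleton] at hq
      rw [hq]
      unfold i5pt
      simp
  · rintro ⟨i, hi, hp⟩
    rw [mem_range] at hi
    rw [i5_ring τ (by omega)] at hp
    obtain ⟨s, hs, z, hz, rfl⟩ := hp
    refine ⟨((z.1 : ℚ), (z.2 : ℚ)), ?_, ?_⟩
    · rw [List.mem_flatMap]
      have e1 : (τ.SL * i + s) / τ.SL = i := by
        rw [Nat.mul_add_div hSL, Nat.div_eq_of_lt hs, Nat.add_zero]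
      have e2 : (τ.SL * i + s) % τ.SL = s := by
        rw [Nat.mul_add_mod, Nat.mod_eq_of_lt hs]
      refine ⟨τ.SL * i + s, ?_, ?_⟩
      · rw [List.mem_range]
        calc τ.SL * i + s < τ.SL * i + τ.SL := by omega
          _ = (i + 1) * τ.SL := by ring
          _ ≤ (τ.M + 1) * τ.SL := Nat.mul_le_mul_right _ (by omega)
      · rw [e1, e2, hz]
        simp
    · unfold i5pt
      simp

end Tab

end Pool.Agent.Helper70.MD
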