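import Pool.Agent.Helper70.MD.IDefs

/-!
MD-I6: the formula of a constraint satisfaction problem.

`→`: let `y` satisfy the clauses. For `v < nv` the clause `m + v` gives `a < d` with
`y (v d + a) = true` (the satisfied block is `2 u` or `2 u + 1`; `rhitP` for `i ≥ m` only contains the
even blocks `2 (v d + a)`; so `u = v d + a`, `y u = true`). Choose such `a` as `x v`. Let `j < m`. If
`d ≤ val e w j` for some `e < c`, then `x (var e w j) < d` is different (`var_lt`). Otherwise the
satisfied block of the clause `j` is an odd block `2 (var e w j * d + val e w j) + 1` (by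
`rhitP`, parity), so `y (var e w j * d + val e w j) = false`, while
`y (var e w j * d + x (var e w j)) = true`; so `x (var e w j) ≠ val e w j`.
`←`: put `y u = true` iff `u < nv d` and `x (u / d) = u % d`. Clause `i < m`: let `e < c` with
`x (var e w i) ≠ val e w i`. If `val e w i < d`: `u = var e w i * d + val e w i < nv d < rN`
(`var_lt`), `u / d = var e w i`, `u % d = val e w i`, `y u = false`, block `2 u + 1`. Otherwise the clause
contains all blocks: take `u = 0`, either `y 0 = true` (block 0) or `y 0 = false` (block 1).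
Clause `m + v`, `v < nv`: `u = v d + x v`, `y u = true`, block `2 u`.
-/

set_option autoImplicit false

namespace Pool.Agent.Helper70.MD

open Finset

open scoped Classical

open Helper68.Una

private theorem i6_lt {v n d a : ℕ} (hv : v < n) (ha : a < d) : v * d + a < n * d := by
  have h1 : (v + 1) * d ≤ n * d := Nat.mul_le_mul_right d hv
  rw [Nat.add_mul, Nat.one_mul] at h1
  omega

private theorem i6_hit {D : CspData} {w : List Bool} {i j : ℕ} :
    rhit D w i j = true ↔ rhitP D w i j := by
  unfold rhit
  exact decide_eq_true_iff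

theorem cnfSat_iff (D : CspData) (w : List Bool) :
    CnfSat (rN D w) (rM D w) (rhit D w) ↔ D.Sat w := by
  constructor
  · rintro ⟨y, hy⟩
    have h1 : ∀ v, v < D.nv w → ∃ a, a < D.d ∧ y (v * D.d + a) = true := by
      intro v hv
      obtain ⟨u, _, h | h⟩ := hy (D.m w + v) (by unfold rM; omega)
      · obtain ⟨hu, hr⟩ := h
        rcases i6_hit.1 hr with hr | hr
        · exact absurd hr.1 (by omega)
        · obtain ⟨_, a, ha, hj⟩ := hr
          rw [Nat.add_sub_cancel_left] at hj
          have hu' : u = v * D.d + a := by omega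
          exact ⟨a, ha, by rw [← hu']; exact hu⟩
      · obtain ⟨hu, hr⟩ := h
        rcases i6_hit.1 hr with hr | hr
        · exact absurd hr.1 (by omega)
        · obtain ⟨_, a, ha, hj⟩ := hr
          omega
    choose! x hx using h1
    refine ⟨x, fun v hv => (hx v hv).1, ?_⟩
    intro j hj
    by_cases hbig : ∃ e < D.c, D.d ≤ D.val e w j
    · obtain ⟨e, he, hd⟩ := hbig
      refine ⟨e, he, ?_⟩
      have h2 := (hx _ (D.var_lt w j hj e he)).1
      omega
    · obtain ⟨u, _, h | h⟩ := hy j (by unfold rM; omega)
      · obtain ⟨hu, hr⟩ := h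
        rcases i6_hit.1 hr with hr | hr
        · obtain ⟨_, hr | hr⟩ := hr
          · exact absurd hr hbig
          · obtain ⟨e, _, hj'⟩ := hr
            omega
        · exact absurd hr.1 (by omega)
      · obtain ⟨hu, hr⟩ := h
        rcases i6_hit.1 hr with hr | hr
        · obtain ⟨_, hr | hr⟩ := hr
          · exact absurd hr hbig
          · obtain ⟨e, he, hj'⟩ := hr
            refine ⟨e, he, fun hxe => ?_⟩
            have hu' : u = D.var e w j * D.d + D.val e w j := by omega
            have h2 := (hx _ (D.var_lt w j hj e he)).2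
            rw [hxe, ← hu', hu] at h2
            exact absurd h2 (by simp)
        · exact absurd hr.1 (by omega)
  · rintro ⟨x, hx, hs⟩
    refine ⟨fun u => decide (u < D.nv w * D.d ∧ x (u / D.d) = u % D.d), ?_⟩
    intro i hi
    by_cases him : i < D.m w
    · obtain ⟨e, he, hne⟩ := hs i him
      by_cases hd : D.val e w i < D.d
      · have hlt := i6_lt (D.var_lt w i him e he) hd
        refine ⟨D.var e w i * D.d + D.val e w i, by unfold rN; omega, Or.inr ⟨?_, ?_⟩⟩
        · have h0 : 0 < D.d := by omega
          have e1 : (D.var e w i * D.d + D.val e w i) / D.d = D.var e w i := by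
            rw [Nat.mul_comm, Nat.mul_add_div h0, Nat.div_eq_of_lt hd, Nat.add_zero]
          have e2 : (D.var e w i * D.d + D.val e w i) % D.d = D.val e w i := by
            rw [Nat.mul_comm, Nat.mul_add_mod, Nat.mod_eq_of_lt hd]
          rw [decide_eq_false_iff_not, e1, e2]
          exact fun h => hne h.2
        · exact i6_hit.2 (Or.inl ⟨him, Or.inr ⟨e, he, rfl⟩⟩)
      · have hr : ∀ j, rhit D w i j = true := fun j =>
          i6_hit.2 (Or.inl ⟨him, Or.inl ⟨e, he, by omega⟩⟩)
        refine ⟨0, by unfold rN; omega, ?_⟩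
        by_cases h0 : (0 < D.nv w * D.d ∧ x (0 / D.d) = 0 % D.d)
        · exact Or.inl ⟨decide_eq_true_iff.2 h0, hr _⟩
        · exact Or.inr ⟨decide_eq_false_iff_not.2 h0, hr _⟩
    · have hv : i - D.m w < D.nv w := by unfold rM at hi; omega
      have hxv := hx _ hv
      have hlt := i6_lt hv hxv
      refine ⟨(i - D.m w) * D.d + x (i - D.m w), by unfold rN; omega, Or.inl ⟨?_, ?_⟩⟩
      · have h0 : 0 < D.d := by omega
        have e1 : ((i - D.m w) * D.d + x (i - D.m w)) / D.d = i - D.m w := by
          rw [Nat.mul_comm, Nat.mul_add_div h0, Nat.div_eq_of_lt hxv, Nat.add_zero]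
        have e2 : ((i - D.m w) * D.d + x (i - D.m w)) % D.d = x (i - D.m w) := by
          rw [Nat.mul_comm, Nat.mul_add_mod, Nat.mod_eq_of_lt hxv]
        rw [decide_eq_true_iff, e1, e2]
        exact ⟨hlt, rfl⟩
      · exact i6_hit.2 (Or.inr ⟨by omega, x (i - D.m w), hxv, rfl⟩)

end Pool.Agent.Helper70.MD
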