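import Pool.Agent.Helper70.MD.TDefs
import Pool.Agent.Helper68.Final

/-!
The instance of a word and its encoding.
-/

set_option autoImplicit false

namespace Pool.Agent.Helper70.MD

open Finset

open scoped Classical

open Computability

/-- Encoding of a rational number: the numerator (sign bit and binary digits, least significant
digit first), a comma, the binary digits of the denominator. -/
def encRat (q : ℚ) : List Γ' :=
  Helper68.Chip.encodeInt q.num ++ Γ'.comma :: (Nat.bits q.den).map Γ'.bit

/-- Encoding of an instance: the degree bound in binary, and then for each point the two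
coordinates, separated by commas. -/
def encodeInst (I : Inst) : List Γ' :=
  (Nat.bits I.k).map Γ'.bit ++
    I.pts.flatMap (fun p => Γ'.comma :: encRat p.1 ++ Γ'.comma :: encRat p.2)

namespace Tab

variable (τ : Tab)

/-- Abscissa number `k` of kind `c` of ring `i`. -/
noncomputable def xslot (i c k : ℕ) : Option ℤ :=
  if c = 0 then (if k < τ.K i then some (-108 * τ.nu + i + k) else none)
  else if c = 1 then (if k < τ.Rn i then some (τ.Rc * τ.nu - i - k) else none)
  else if i < τ.i0 then none
  else if (i - τ.i0) % 2 = 0 then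
    (if c = 2 then (if k < τ.Xr ∧ ¬ τ.inL ((i - τ.i0) / 2) k then some (τ.nu * (24 * k + 12)) else none)
     else if c = 3 then (if k < τ.Xr ∧ τ.intr ((i - τ.i0) / 2) k then some (τ.nu * (24 * k)) else none)
     else if k < 3 then some (τ.nu * (-90 + 36 * k))
     else if k < 6 then some (τ.nu * (24 * τ.Xr + 18 + 36 * ((k : ℤ) - 3))) else none)
  else
    (if c = 2 then (if k < τ.Xr ∧ τ.inL ((i - τ.i0) / 2) k then
        some (τ.nu * (24 * k + 12 + τ.shift ((i - τ.i0) / 2) k)) else none)
     else if c = 3 then (if k < τ.Xr + 1 ∧ ¬ τ.intr ((i - τ.i0) / 2) k then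
        some (τ.nu * (24 * k)) else none)
     else if k < 2 then some (τ.nu * (-72 + 36 * k))
     else if k < 4 then some (τ.nu * (24 * τ.Xr + 36 + 36 * ((k : ℤ) - 2))) else none)

/-- Point number `s` of ring `i`. -/
noncomputable def slot (i s : ℕ) : Option (ℤ × ℤ) :=
  if i = 0 then
    (if s = 0 then some (-τ.H, 2 * τ.H) else if s = 1 then some (0, -τ.H)
     else if s = 2 then some (τ.H, 2 * τ.H) else none)
  else if s = 0 then some (0, τ.H - i)
  else (τ.xslot i ((s - 1) % 5) ((s - 1) / 5)).map (fun X => (X, X ^ 2 + τ.Lam i))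

/-- Number of slots of a ring. -/
def SL : ℕ := 1 + 5 * (6 * τ.M + 3)

/-- List of all points. -/
noncomputable def ptsL : List (ℚ × ℚ) :=
  (List.range ((τ.M + 1) * τ.SL)).flatMap (fun n =>
    match τ.slot (n / τ.SL) (n % τ.SL) with
    | none => []
    | some q => [((q.1 : ℚ), (q.2 : ℚ))])

/-- The instance. -/
noncomputable def inst : Inst := ⟨τ.ptsL, 6⟩

end Tab

/-! ### The reduction from constraint satisfaction -/

open Helper68.Una

/-- Number of Boolean variables. -/
def rN (D : CspData) (w : List Bool) : ℕ := D.nv w * D.d + 1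

/-- Number of clauses. -/
def rM (D : CspData) (w : List Bool) : ℕ := D.m w + D.nv w

/-- The literals of the clauses. -/
def rhitP (D : CspData) (w : List Bool) (i j : ℕ) : Prop :=
  (i < D.m w ∧ ((∃ e < D.c, D.d ≤ D.val e w i) ∨
    ∃ e < D.c, j = 2 * (D.var e w i * D.d + D.val e w i) + 1)) ∨
  (D.m w ≤ i ∧ ∃ a < D.d, j = 2 * ((i - D.m w) * D.d + a))

/-- The literals of the clauses. -/
noncomputable def rhit (D : CspData) (w : List Bool) (i j : ℕ) : Bool := decide (rhitP D w i j)

/-- The table of a word. -/
noncomputable def rtab (D : CspData) (w : List Bool) : Tab := tab (rN D w) (rM D w) (rhit D w)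

/-- The instance of a word. -/
noncomputable def rinst (D : CspData) (w : List Bool) : Inst := (rtab D w).inst

/-! ### Blocks of the encoding -/

/-- Blocks: empty, the two bits, the comma. -/
def tb4 : List (List Γ') := [[], [Γ'.bit false], [Γ'.bit true], [Γ'.comma]]

/-- Block number `t` of the binary digits of `n`. -/
def bitblk (n t : ℕ) : ℕ := if 2 ^ t ≤ n then 1 + n / 2 ^ t % 2 else 0

/-- Code of a shift. -/
def shcode (o : Option ℤ) : ℕ :=
  match o with
  | none => 0
  | some s => (s + 7).toNat

/-- Block number `t` of the encoding of an integer point; `b` is the number of digit blocks. -/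
def ptblk (b : ℕ) (q : ℤ × ℤ) (t : ℕ) : ℕ :=
  if t = 0 then 3
  else if t = 1 then (if q.1 < 0 then 2 else 1)
  else if t < 2 + b then bitblk q.1.natAbs (t - 2)
  else if t = 2 + b then 3
  else if t = 3 + b then 2
  else if t = 4 + b then 3
  else if t = 5 + b then (if q.2 < 0 then 2 else 1)
  else if t < 6 + 2 * b then bitblk q.2.natAbs (t - 6 - b)
  else if t = 6 + 2 * b then 3
  else 2

/-- Number of digit blocks. -/
noncomputable def nb (τ : Tab) : ℕ := (2 * τ.H + 1).toNat

/-- Number of blocks. -/
noncomputable def nblk (τ : Tab) : ℕ := 3 + (τ.M + 1) * τ.SL * (8 + 2 * nb τ)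

/-- The blocks of the encoding of the instance. -/
noncomputable def blk (τ : Tab) (i : ℕ) : ℕ :=
  if i < 3 then (if i = 0 then 1 else 2)
  else match τ.slot ((i - 3) / (8 + 2 * nb τ) / τ.SL) ((i - 3) / (8 + 2 * nb τ) % τ.SL) with
    | none => 0
    | some q => ptblk (nb τ) q ((i - 3) % (8 + 2 * nb τ))

end Pool.Agent.Helper70.MD
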