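import Pool.Agent.Helper70.MD.CellDefs

/-!
MD-T2d: the logic of a cell.

Write `R(q, ξ)` for the rule `hR` and `L(q, ξ)` for `hL`. The value 1 of a loop means the first
alternative in the field of `Cell`, 0 the second one.
`X` at 9: `bD = 1` contradicts `R(4,10)`; so `bD = 0`. `bE = 0` contradicts `L(4,6)` (`r 4 5 = r 4 6 = B`,
`r 5 5 = B`, `r 5 6 = D`); so `bE = 1`. `SD = 1` contradicts `R(4,2)` (`r 5 1 = D`, `r 5 2 = A`); so `SD = 0`.
`SC = 0` contradicts `L(3,2)` (`r 3 1 = r 3 2 = B`, `r 4 1 = B`, `r 4 2 = D`); so `SC = 1`. `SB = 1`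
contradicts `R(2,3)` (`s 2 3 = 0`); so `r 2 12 = D`. `xF = 1` contradicts `R(5,6)` (`r 5 5 = r 5 6 = A`,
`r 6 5 = D`, `r 6 6 = A`); so `xF = 0`; `xG = 0` contradicts `L(6,8)` (`r 6 7 = B`, `r 6 8 = D`,
`r 7 7 = r 7 8 = B`, `s 6 7 = 0`); so `r 7 17 = r 7 18 = A`.
`X` at 13: `aD = 1` contradicts `R(4,14)`; so `aD = 0`. `xC = 0` contradicts `L(3,18)` (`r 3 17 = B`,
`r 3 18 = D`, `r 4 17 = B`, `r 4 18 = D`); so `xC = 1`. `xB = 1` contradicts `R(2,18)`; so `xB = 0`. `xA = 0`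
contradicts `L(1,18)` (`s 1 17 = 0`, `r 2 17 = r 2 18 = B`); so `r 1 17 = D`. If `hit = false`: the second
alternative of `aC` contradicts `L(3,14)` (`r 3 13 = B`, `r 3 14 = D`, `r 4 13 = r 4 14 = B`,
`s 3 13 = 0`), so `r 3 11 = D`, `r 3 12 = A`, and `SB = 1` contradicts `R(2,12)`; so `r 2 12 = D`.
`X` at 21: `dD = 1` contradicts `R(4,22)`; `dD = 0`. `dC = 0` contradicts `L(3,22)` (`s 3 21 = 0`,
`r 4 21 = r 4 22 = B`); `dC = 1`. `xB = 1` contradicts `R(2,22)` (`r 2 21 = r 2 22 = A`, `r 3 21 = D`,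
`r 3 22 = A`); `xB = 0`, and `r 1 17 = D` as before. `SCr = 0` contradicts `L(3,28)` (`r 4 27 = B`,
`r 4 28 = D`); `SCr = 1`; `SBr = 1` contradicts `R(2,28)`; so `r 2 27 = B`.
`X` at 31: `gD = 1` contradicts `R(4,32)`; `gD = 0`. `SCp = 0` contradicts `L(3,39)` (`r 4 38 = B`,
`r 4 39 = D`); `SCp = 1`; `SBr = 1` contradicts `R(2,39)` (`r 2 38 = r 2 39 = A`); `r 2 27 = B`.
`gE = 0` contradicts `L(4,37)` (`r 4 36 = r 4 37 = B`, `r 5 36 = B`, `r 5 37 = D`); `gE = 1`; `gF = 1`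
contradicts `R(5,37)` (`r 5 36 = D`, `r 5 37 = A`, `r 6 36 = r 6 37 = A`, `s 5 37 = 0`); `gF = 0`; `xG = 0`
contradicts `L(6,35)` (`r 6 34 = r 6 35 = B`, `r 7 34 = B`, `r 7 35 = D`); so
`r 7 17 = r 7 18 = A`.
-/

set_option autoImplicit false

namespace Pool.Agent.Helper70.MD

open Finset

open scoped Classical

theorem cell_logic {r : ℕ → ℕ → St} {hit : Bool} (h : Cell r hit) (s : ℕ → ℕ → ℤ)
    (hR : ∀ q ξ, 1 ≤ q → q ≤ 6 → 1 ≤ ξ → ξ < 41 → (r q (ξ - 1) = .D ∨ r q (ξ - 1) = .A) →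
      r q ξ = .A → r (q + 1) ξ = .A →
      (r (q + 1) (ξ - 1) = .D ∨ (r (q + 1) (ξ - 1) = .A ∧ 0 ≤ s q ξ)) → False)
    (hL : ∀ q ξ, 1 ≤ q → q ≤ 6 → 1 ≤ ξ → ξ < 41 → r q (ξ - 1) = .B →
      (r q ξ = .B ∨ r q ξ = .D) → r (q + 1) (ξ - 1) = .B →
      (r (q + 1) ξ = .D ∨ (r (q + 1) ξ = .B ∧ s q (ξ - 1) ≤ 0)) → False)
    (s1 : s 1 17 = 0) (s2 : s 2 3 = 0) (s3 : s 3 13 = 0) (s3' : s 3 21 = 0) (s5 : s 5 37 = 0)
    (s6 : s 6 7 = 0) :
    (r 2 12 = .D ∨ r 2 27 = .B ∨ (hit = true ∧ r 1 17 = .D)) ∧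
    (r 1 17 = .D ∨ (r 7 17 = .A ∧ r 7 18 = .A)) := by
  have R : ∀ q ξ, 1 ≤ q → q ≤ 6 → 1 ≤ ξ → ξ < 41 → (r q (ξ - 1) = .D ∨ r q (ξ - 1) = .A) →
      r q ξ = .A → r (q + 1) ξ = .A → r (q + 1) (ξ - 1) = .D → False :=
    fun q ξ h1 h2 h3 h4 h5 h6 h7 h8 => hR q ξ h1 h2 h3 h4 h5 h6 h7 (Or.inl h8)
  have L : ∀ q ξ, 1 ≤ q → q ≤ 6 → 1 ≤ ξ → ξ < 41 → r q (ξ - 1) = .B →
      (r q ξ = .B ∨ r q ξ = .D) → r (q + 1) (ξ - 1) = .B → r (q + 1) ξ = .D → False :=
    fun q ξ h1 h2 h3 h4 h5 h6 h7 h8 => hL q ξ h1 h2 h3 h4 h5 h6 h7 (Or.inl h8)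
  -- the loop at the top
  have xAof : r 2 17 = .B → r 2 18 = .B → r 1 17 = .D := by
    intro h17 h18
    rcases h.xA with ⟨a, _⟩ | ⟨a, b⟩
    · exact a
    · exact (hL 1 18 (by norm_num) (by norm_num) (by norm_num) (by norm_num) a (Or.inr b) h17
        (Or.inr ⟨h18, le_of_eq s1⟩)).elim
  rcases h.X with ⟨x1, x2⟩ | ⟨x1, x2⟩ | ⟨x1, x2⟩ | ⟨x1, x2⟩
  · -- the crossing at 9
    obtain ⟨b5, b6⟩ : r 4 5 = .B ∧ r 4 6 = .B := by
      rcases h.bD with ⟨a, b⟩ | hh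
      · exact (R 4 10 (by norm_num) (by norm_num) (by norm_num) (by norm_num) (Or.inr a) b
          x2 x1).elim
      · exact hh
    obtain ⟨e1, e2, e5, e6⟩ : r 5 1 = .D ∧ r 5 2 = .A ∧ r 5 5 = .A ∧ r 5 6 = .A := by
      rcases h.bE with hh | ⟨a, b⟩
      · exact hh
      · exact (L 4 6 (by norm_num) (by norm_num) (by norm_num) (by norm_num) b5 (Or.inl b6)
          a b).elim
    obtain ⟨d1, d2⟩ : r 4 1 = .B ∧ r 4 2 = .D := by
      rcases h.SD with ⟨a, b⟩ | hh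
      · exact (R 4 2 (by norm_num) (by norm_num) (by norm_num) (by norm_num) a b e2 e1).elim
      · exact hh
    obtain ⟨c2, c3⟩ : r 3 2 = .A ∧ r 3 3 = .A := by
      rcases h.SC with hh | ⟨a, b⟩
      · exact hh
      · exact (L 3 2 (by norm_num) (by norm_num) (by norm_num) (by norm_num) a (Or.inl b)
          d1 d2).elim
    have hSB : r 2 12 = .D := by
      rcases h.SB with ⟨a, b, _, _⟩ | hh
      · exact (hR 2 3 (by norm_num) (by norm_num) (by norm_num) (by norm_num) (Or.inr a) b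
          c3 (Or.inr ⟨c2, le_of_eq s2.symm⟩)).elim
      · exact hh
    obtain ⟨f7, f8⟩ : r 6 7 = .B ∧ r 6 8 = .D := by
      rcases h.xF with ⟨a, b⟩ | hh
      · exact (R 5 6 (by norm_num) (by norm_num) (by norm_num) (by norm_num) (Or.inr e5) e6
          b a).elim
      · exact hh
    have hG : r 7 17 = .A ∧ r 7 18 = .A := by
      rcases h.xG with hh | ⟨a, b, _, _⟩
      · exact hh
      · exact (hL 6 8 (by norm_num) (by norm_num) (by norm_num) (by norm_num) f7 (Or.inr f8)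
          a (Or.inr ⟨b, le_of_eq s6⟩)).elim
    exact ⟨Or.inl hSB, Or.inr hG⟩
  · -- the crossing at 13
    obtain ⟨a13, a14, a17, a18⟩ : r 4 13 = .B ∧ r 4 14 = .B ∧ r 4 17 = .B ∧ r 4 18 = .D := by
      rcases h.aD with ⟨a, b⟩ | hh
      · exact (R 4 14 (by norm_num) (by norm_num) (by norm_num) (by norm_num) (Or.inl a) b
          x2 x1).elim
      · exact hh
    obtain ⟨c17, c18⟩ : r 3 17 = .D ∧ r 3 18 = .A := by
      rcases h.xC with hh | ⟨a, b⟩
      · exact hh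
      · exact (L 3 18 (by norm_num) (by norm_num) (by norm_num) (by norm_num) a (Or.inr b)
          a17 a18).elim
    obtain ⟨b17, b18, _⟩ : r 2 17 = .B ∧ r 2 18 = .B ∧ r 2 22 = .D := by
      rcases h.xB with ⟨a, b, _, _⟩ | hh
      · exact (R 2 18 (by norm_num) (by norm_num) (by norm_num) (by norm_num) (Or.inl a) b
          c18 c17).elim
      · exact hh
    have hA := xAof b17 b18
    refine ⟨?_, Or.inl hA⟩
    rcases h.aC with ⟨_, c11, c12⟩ | ht | ⟨a, b⟩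
    · rcases h.SB with ⟨_, _, a, b⟩ | hh
      · exact (R 2 12 (by norm_num) (by norm_num) (by norm_num) (by norm_num) (Or.inr a) b
          c12 c11).elim
      · exact Or.inl hh
    · exact Or.inr (Or.inr ⟨ht, hA⟩)
    · exact (hL 3 14 (by norm_num) (by norm_num) (by norm_num) (by norm_num) a (Or.inr b)
        a13 (Or.inr ⟨a14, le_of_eq s3⟩)).elim
  · -- the crossing at 21
    obtain ⟨d21, d22, d27, d28⟩ : r 4 21 = .B ∧ r 4 22 = .B ∧ r 4 27 = .B ∧ r 4 28 = .D := by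
      rcases h.dD with ⟨a, b⟩ | hh
      · exact (R 4 22 (by norm_num) (by norm_num) (by norm_num) (by norm_num) (Or.inl a) b
          x2 x1).elim
      · exact hh
    obtain ⟨c21, c22⟩ : r 3 21 = .D ∧ r 3 22 = .A := by
      rcases h.dC with hh | ⟨a, b⟩
      · exact hh
      · exact (hL 3 22 (by norm_num) (by norm_num) (by norm_num) (by norm_num) a (Or.inl b)
          d21 (Or.inr ⟨d22, le_of_eq s3'⟩)).elim
    obtain ⟨b17, b18, _⟩ : r 2 17 = .B ∧ r 2 18 = .B ∧ r 2 22 = .D := by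
      rcases h.xB with ⟨_, _, a, b⟩ | hh
      · exact (R 2 22 (by norm_num) (by norm_num) (by norm_num) (by norm_num) (Or.inr a) b
          c22 c21).elim
      · exact hh
    obtain ⟨c27, c28⟩ : r 3 27 = .D ∧ r 3 28 = .A := by
      rcases h.SCr with hh | ⟨a, b⟩
      · exact hh
      · exact (L 3 28 (by norm_num) (by norm_num) (by norm_num) (by norm_num) a (Or.inr b)
          d27 d28).elim
    have h27 : r 2 27 = .B := by
      rcases h.SBr with ⟨a, b, _, _⟩ | hh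
      · exact (R 2 28 (by norm_num) (by norm_num) (by norm_num) (by norm_num) (Or.inl a) b
          c28 c27).elim
      · exact hh
    exact ⟨Or.inr (Or.inl h27), Or.inl (xAof b17 b18)⟩
  · -- the crossing at 31
    obtain ⟨g36, g37, g38, g39⟩ : r 4 36 = .B ∧ r 4 37 = .B ∧ r 4 38 = .B ∧ r 4 39 = .D := by
      rcases h.gD with ⟨a, b⟩ | hh
      · exact (R 4 32 (by norm_num) (by norm_num) (by norm_num) (by norm_num) (Or.inl a) b
          x2 x1).elim
      · exact hh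
    obtain ⟨c38, c39⟩ : r 3 38 = .D ∧ r 3 39 = .A := by
      rcases h.SCp with hh | ⟨a, b⟩
      · exact hh
      · exact (L 3 39 (by norm_num) (by norm_num) (by norm_num) (by norm_num) a (Or.inl b)
          g38 g39).elim
    have h27 : r 2 27 = .B := by
      rcases h.SBr with ⟨_, _, a, b⟩ | hh
      · exact (R 2 39 (by norm_num) (by norm_num) (by norm_num) (by norm_num) (Or.inr a) b
          c39 c38).elim
      · exact hh
    obtain ⟨e36, e37⟩ : r 5 36 = .D ∧ r 5 37 = .A := by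
      rcases h.gE with hh | ⟨a, b⟩
      · exact hh
      · exact (L 4 37 (by norm_num) (by norm_num) (by norm_num) (by norm_num) g36 (Or.inl g37)
          a b).elim
    obtain ⟨f34, f35⟩ : r 6 34 = .B ∧ r 6 35 = .B := by
      rcases h.gF with ⟨a, b⟩ | hh
      · exact (hR 5 37 (by norm_num) (by norm_num) (by norm_num) (by norm_num) (Or.inl e36) e37
          b (Or.inr ⟨a, le_of_eq s5.symm⟩)).elim
      · exact hh
    have hG : r 7 17 = .A ∧ r 7 18 = .A := by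
      rcases h.xG with hh | ⟨_, _, a, b⟩
      · exact hh
      · exact (L 6 35 (by norm_num) (by norm_num) (by norm_num) (by norm_num) f34 (Or.inl f35)
          a b).elim
    exact ⟨Or.inr (Or.inl h27), Or.inr hG⟩

end Pool.Agent.Helper70.MD
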