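import Pool.Agent.Helper70.MD.T2c
import Pool.Agent.Helper70.MD.T2d

/-!
MD-T2e: from the loop system to the formula.

Proof. `LoopSat` gives `st` with `Checks st`. For `i < mm`, `j < 2 N` apply `cell_logic` to `cell_facts`, with
`s q ξ = lsh N hit (7 i + q) j ξ`, the rules `locR`, `locL` (`7 i + q < 7 mm + 1` for `q ≤ 6`,
`7 i + q + 1` is the next row), and the values of the shifts from the table. Write
`SB i j` for `loc st (7 i + 2) j 12 = A`, `SBr i j` for `loc st (7 i + 2) j 27 = D`, `XA i j` for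
`loc st (7 i + 1) j 17 = D`. (k1): `¬ SB i j`, or `¬ SBr i j`, or `hit i j = true` and `XA i j`. (k2): if
`i + 1 < mm` and `XA (i+1) j` then `XA i j`: otherwise `loc st (7 i + 7) j 17 = loc st (7 i + 7) j 18 = A`,
and (by `cell_facts` for `i + 1`, field `xA`) `loc st (7 i + 8) j 17 = D`, `loc st (7 i + 8) j 18 = A`:
`locR` at `ξ = 18` for the row `7 i + 7`: contradiction.
(k3) `SBr_flip`, (k4) `SB_flip`, (k5) `first_SB`. (k6) Put `y v = false` if `loc st 0 (2v) 17 = D` and
`loc st 0 (2v) 18 = A`, else `true`. If `XA 0 (2v)` then `y v = true` (otherwise `locR` at `ξ = 18` for the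
rows 0 and 1). If `XA 0 (2v+1)` then `y v = false`: otherwise by `T_flip`
`loc st 0 (2v+1) 17 = D`, `loc st 0 (2v+1) 18 = A` and `locR` is a contradiction.
Let `i < mm`. Claim: some `j < 2 N` has `hit i j = true` and `XA i j`. Otherwise for all `j`:
`¬ SB i j ∨ ¬ SBr i j`. Then by induction `SB i (2v)` for all `v < N`: `v = 0`: `first_SB`.
`SB i (2v)` gives `¬ SBr i (2v)`, so `SBr i (2v+1)` (`SBr_flip`), so `¬ SB i (2v+1)`, so if
`2v + 2 < 2N` then `SB i (2v+2)` (`SB_flip`). For `v = N - 1` `¬ SB i (2N-1)` contradicts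
`first_SB`. Take this `j`; `XA 0 j` by (k2) repeatedly. `j = 2v` or `j = 2v + 1` with `v < N`, and (k6) gives
the clause.
-/

set_option autoImplicit false

namespace Pool.Agent.Helper70.MD

open Finset

open scoped Classical

private lemma t2e_lsh {N : ℕ} {hit : ℕ → ℕ → Bool} (i q j ξ : ℕ) (h1 : 1 ≤ q) (h7 : q ≤ 7) :
    lsh N hit (7 * i + q) j ξ =
      (entry q ξ (ht hit (7 * i + q) j) (fst' N j)).getD 0 := by
  unfold lsh lent
  have : rt (7 * i + q) = q := by
    unfold rt
    rw [if_neg (by omega)]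
    omega
  rw [this]

section

variable {N mm : ℕ} {hit : ℕ → ℕ → Bool} {st : ℕ → ℕ → St}

private lemma t2e_cell (hN : 1 ≤ N) (hs : (tab N mm hit).Checks st) {i j : ℕ} (hi : i < mm)
    (hj : j < 2 * N) :
    (loc st (7 * i + 2) j 12 = .D ∨ loc st (7 * i + 2) j 27 = .B ∨
      (hit i j = true ∧ loc st (7 * i + 1) j 17 = .D)) ∧
    (loc st (7 * i + 1) j 17 = .D ∨
      (loc st (7 * i + 7) j 17 = .A ∧ loc st (7 * i + 7) j 18 = .A)) := by
  refine cell_logic (cell_facts hN hs hi hj) (fun q ξ => lsh N hit (7 * i + q) j ξ) ?_ ?_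
    ?_ ?_ ?_ ?_ ?_ ?_
  · intro q ξ hq hq6 h1 hξ h2 h3 h4 h5
    exact locR hN hs (p := 7 * i + q) (by omega) hj h1 hξ h2 h3 h4 h5
  · intro q ξ hq hq6 h1 hξ h2 h3 h4 h5
    exact locL hN hs (p := 7 * i + q) (by omega) hj h1 hξ h2 h3 h4 h5
  · rw [t2e_lsh i 1 j 17 (by omega) (by omega)]
    rfl
  · rw [t2e_lsh i 2 j 3 (by omega) (by omega)]
    rfl
  · rw [t2e_lsh i 3 j 13 (by omega) (by omega)]
    cases ht hit (7 * i + 3) j <;> rfl
  · rw [t2e_lsh i 3 j 21 (by omega) (by omega)]
    cases ht hit (7 * i + 3) j <;> rfl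
  · rw [t2e_lsh i 5 j 37 (by omega) (by omega)]
    rfl
  · rw [t2e_lsh i 6 j 7 (by omega) (by omega)]
    rfl

/-- The signal goes up. -/
private lemma t2e_up (hN : 1 ≤ N) (hs : (tab N mm hit).Checks st) {j : ℕ} (hj : j < 2 * N)
    (i : ℕ) : i < mm → loc st (7 * i + 1) j 17 = .D → loc st 1 j 17 = .D := by
  induction i with
  | zero =>
    intro _ h
    simpa using h
  | succ i ih =>
    intro hi h
    apply ih (by omega)
    rcases (t2e_cell hN hs (i := i) (by omega) hj).2 with h1 | ⟨h1, h2⟩
    · exact h1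
    · exfalso
      have h3 := (cell_facts hN hs hi hj).xA
      have h4 : loc st (7 * (i + 1) + 1) j 18 = .A := by
        rcases h3 with h3 | h3
        · exact h3.2
        · rw [h3.1] at h
          cases h
      rw [show 7 * (i + 1) + 1 = 7 * i + 7 + 1 by ring] at h h4
      exact locR hN hs (p := 7 * i + 7) (ξ := 18) (by omega) hj (by omega) (by omega)
        (Or.inr h1) h2 h4 (Or.inl h)

private lemma t2e_row0 (hN : 1 ≤ N) (hs : (tab N mm hit).Checks st) (hm : 0 < mm) {j : ℕ}
    (hj : j < 2 * N) (h : loc st 1 j 17 = .D) (h1 : loc st 0 j 17 = .D)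
    (h2 : loc st 0 j 18 = .A) : False := by
  have h3 := (cell_facts hN hs hm hj).xA
  simp only [Nat.mul_zero, Nat.zero_add] at h3
  have h4 : loc st 1 j 18 = .A := by
    rcases h3 with h3 | h3
    · exact h3.2
    · rw [h3.1] at h
      cases h
  exact locR hN hs (p := 0) (ξ := 18) (by omega) hj (by omega) (by omega)
    (Or.inl h1) h2 h4 (Or.inl h)

end

theorem cnfSat_of_loopSat {N mm : ℕ} {hit : ℕ → ℕ → Bool} (hN : 1 ≤ N)
    (h : (tab N mm hit).LoopSat) : CnfSat N mm hit := by
  obtain ⟨st, hst, hch⟩ := h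
  have hs : (tab N mm hit).Checks st := ⟨hst, hch⟩
  refine ⟨fun v => if loc st 0 (2 * v) 17 = .D ∧ loc st 0 (2 * v) 18 = .A then false else true, ?_⟩
  intro i hi
  -- a block with the signal
  have claim : ∃ j < 2 * N, hit i j = true ∧ loc st (7 * i + 1) j 17 = .D := by
    by_contra hcon
    push Not at hcon
    have h1 : ∀ j < 2 * N, loc st (7 * i + 2) j 12 ≠ .A ∨ loc st (7 * i + 2) j 27 ≠ .D := by
      intro j hj
      rcases (t2e_cell hN hs hi hj).1 with h2 | h2 | h2
      · left
        rw [h2]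
        intro e
        cases e
      · right
        rw [h2]
        intro e
        cases e
      · exact absurd h2.2 (hcon j hj h2.1)
    have h2 : ∀ v < N, loc st (7 * i + 2) (2 * v) 12 = .A →
        loc st (7 * i + 2) (2 * v + 1) 12 ≠ .A := by
      intro v hv h3
      have h4 : loc st (7 * i + 2) (2 * v) 27 ≠ .D := by
        rcases h1 (2 * v) (by omega) with h5 | h5
        · exact absurd h3 h5
        · exact h5
      have h5 : loc st (7 * i + 2) (2 * v + 1) 27 = .D := by
        rcases SBr_flip hN hs hi (j := 2 * v) (by omega) (by omega) with h6 | h6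
        · exact absurd h6 h4
        · exact h6
      rcases h1 (2 * v + 1) (by omega) with h6 | h6
      · exact h6
      · exact absurd h5 h6
    have h3 : ∀ v < N, loc st (7 * i + 2) (2 * v) 12 = .A := by
      intro v
      induction v with
      | zero =>
        intro _
        exact first_SB hN hs hi (Or.inl rfl)
      | succ v ih =>
        intro hv
        have h4 := h2 v (by omega) (ih (by omega))
        rcases SB_flip hN hs hi (j := 2 * v + 1) (by omega) (by omega) with h6 | h6
        · exact absurd h6 h4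
        · exact h6
    have h4 := h2 (N - 1) (by omega) (h3 (N - 1) (by omega))
    exact h4 (first_SB hN hs hi (Or.inr (by omega)))
  obtain ⟨j, hj, hhit, hx⟩ := claim
  have hx0 := t2e_up hN hs hj i hi hx
  refine ⟨j / 2, by omega, ?_⟩
  rcases Nat.even_or_odd' j with ⟨v, hv | hv⟩
  · left
    have e : j / 2 = v := by omega
    subst hv
    rw [e]
    refine ⟨?_, hhit⟩
    simp only
    rw [if_neg]
    rintro ⟨h1, h2⟩
    exact t2e_row0 hN hs (by omega) hj hx0 h1 h2
  · right
    have e : j / 2 = v := by omega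
    subst hv
    rw [e]
    refine ⟨?_, hhit⟩
    simp only
    rw [if_pos]
    rcases T_flip hN hs (j := 2 * v) (by omega) (by omega) with h1 | h1
    · exact h1
    · exact absurd (t2e_row0 hN hs (by omega) hj hx0 h1.1 h1.2) id

end Pool.Agent.Helper70.MD
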