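import Pool.Agent.Helper70.MD.T3a
import Pool.Agent.Helper70.MD.T1

/-!
MD-T3b: from the formula to the loop system.

Proof. Let `y` satisfy all clauses. For `i < mm` choose a satisfied literal of clause `i`, i.e. a block
`js i < 2 N` with `hit i (js i) = true` and `x (js i) = true`, where `x j = y (j / 2)` for even `j` and
`x j = !y (j / 2)` for odd `j`. Parameters of block `j` in clause `i`: `x = x j`,
`sb = (j < js i ∧ j even) ∨ j = js i ∨ (js i < j ∧ j odd)`,
`sbr = (j < js i ∧ j odd) ∨ j = js i ∨ (js i < j ∧ j even)`. Row 0 (type 0)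
depends only on `x j` (`ls_x`, `entry_x`), so any parameters with this `x` can be used for it in the definition of
`st`, for example `⟨true, false, x j⟩`.
Validity `Ty.ok` for `i < mm`: `sb || sbr` clear; `first → sb`: block 0: even, so `sb` if `0 < js` or `0 = js`;
block `2N - 1`: odd, `sb` if `js < 2 N - 1` or equal; `sb && sbr → hit && x`: only for `j = js i`. Flips:
for even `j`: `x (j+1) = !x j` and `sbr (j+1) = !sbr j`; for odd `j`: `sb (j+1) = !sb j`.
Define `st p c = S` if `c < 8` or `8 + 82 N ≤ c` or `7 mm + 1 ≤ p`; otherwise with `j = (c-8)/41`,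
`ξ0 = (c-8) % 41`: `ls (rt p) t (ht hit p j) (fst' N j) ξ0` for even `j`, and
`(ls ... (40 - ξ0)).mir` for odd `j`, `t` the parameters for the clause `(p-1)/7` (row 0: see above).
`OkSt`: `entry_ls` (the shift table has the same domain), `ls_ok` (and its mirror image for odd blocks,
`okPair` is mirror symmetric), at the block boundaries `ls_ok_right`, `ls_ok_left`, at the ends
`ls_ok_end`; `none_left`, `none_right` for the outside.
Checks for the rows `p`, `p + 1`, `p < 7 mm + 1`: the row types `q = rt p` and `q' = rt (p+1)`, or `q' = 8`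
(the empty row; `lc 8` is `(S, 0)`) if `p + 1 = 7 mm + 1`, satisfy `nxt q q'`. Inside a clause the
parameters of both rows are the same. If `q ∈ {0, 7}` then `q' ∈ {1, 8}`, and both
rows depend only on `x j`: by `ls_x`, `entry_x` replace the parameters, hit flags and first flags of both rows by
convenient valid ones, for example `⟨true, false, x j⟩` for even `j`, `⟨false, true, x j⟩` for odd `j` with all
first flags false, at a left boundary (odd, even) `⟨true, false, x⟩` and `⟨false, true, x'⟩`, at the ends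
`⟨true, false, x⟩` with first flag true.
Then `chk1_iff`, `chk2_iff` and `fin_inner`, `fin_inner2`, `fin_right`, `fin_left`, `fin_end`,
`fin_static` according to the position of the window: for `Chk1` at `k` the columns `k-1, k`, for `Chk2` the columns
`k-1, k, k+1`, in the same block, or across a boundary. (At a boundary between an odd block `j` and
`j + 1` both `fst'` flags are false.) `N ≥ 1`.
-/

set_option autoImplicit false

namespace Pool.Agent.Helper70.MD

open Finset

open scoped Classical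

/-! ### Assembling the columns of two consecutive rows -/

/-- Columns of a row with local data `R`. -/
def t3bCol (N : ℕ) (R : ℕ → ℕ → St × ℤ) (c : ℕ) : St × ℤ :=
  if c < 8 ∨ 8 + 82 * N ≤ c then (.S, 0)
  else if (c - 8) / 41 % 2 = 0 then R ((c - 8) / 41) ((c - 8) % 41)
  else mc (R ((c - 8) / 41) (40 - (c - 8) % 41))

theorem t3bCol_out {N : ℕ} {R : ℕ → ℕ → St × ℤ} {c : ℕ} (h : c < 8 ∨ 8 + 82 * N ≤ c) :
    t3bCol N R c = (.S, 0) := by
  unfold t3bCol
  rw [if_pos h]

theorem t3bCol_even {N : ℕ} {R : ℕ → ℕ → St × ℤ} {j ξ c : ℕ} (hj : j % 2 = 0) (hN : j < 2 * N)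
    (hξ : ξ < 41) (hc : c = 8 + 41 * j + ξ) : t3bCol N R c = R j ξ := by
  have h1 : (c - 8) / 41 = j := by omega
  have h2 : (c - 8) % 41 = ξ := by omega
  unfold t3bCol
  rw [if_neg (by omega), h1, h2, if_pos hj]

theorem t3bCol_odd {N : ℕ} {R : ℕ → ℕ → St × ℤ} {j ξ c : ℕ} (hj : j % 2 = 1) (hN : j < 2 * N)
    (hξ : ξ < 41) (hc : c + ξ = 8 + 41 * j + 40) : t3bCol N R c = mc (R j ξ) := by
  have h1 : (c - 8) / 41 = j := by omega
  have h2 : 40 - (c - 8) % 41 = ξ := by omega
  unfold t3bCol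
  rw [if_neg (by omega), h1, h2, if_neg (by omega)]

/-- Local data of two consecutive rows. -/
structure T3bPair (N q q' : ℕ) (R R' : ℕ → ℕ → St × ℤ) : Prop where
  inner : ∀ j < 2 * N, ∃ (t : Ty) (h f : Bool), t.ok h f = true ∧
    (∀ ξ, R j ξ = lc q t h f ξ) ∧ (∀ ξ, R' j ξ = lc q' t h f ξ)
  right : ∀ j, j % 2 = 0 → j + 1 < 2 * N → ∃ (t t' : Ty) (h h' f f' : Bool),
    t.ok h f = true ∧ t'.ok h' f' = true ∧ t'.x = (!t.x) ∧ t'.sbr = (!t.sbr) ∧
    (∀ ξ, R j ξ = lc q t h f ξ) ∧ (∀ ξ, R' j ξ = lc q' t h f ξ) ∧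
    (∀ ξ, R (j + 1) ξ = lc q t' h' f' ξ) ∧ (∀ ξ, R' (j + 1) ξ = lc q' t' h' f' ξ)
  left : ∀ j, j % 2 = 1 → j + 1 < 2 * N → ∃ (t t' : Ty) (h h' : Bool),
    t.ok h false = true ∧ t'.ok h' false = true ∧ t'.sb = (!t.sb) ∧
    (∀ ξ, R j ξ = lc q t h false ξ) ∧ (∀ ξ, R' j ξ = lc q' t h false ξ) ∧
    (∀ ξ, R (j + 1) ξ = lc q t' h' false ξ) ∧ (∀ ξ, R' (j + 1) ξ = lc q' t' h' false ξ)
  ends : ∀ j, j = 0 ∨ j + 1 = 2 * N → ∃ (t : Ty) (h : Bool), t.ok h true = true ∧
    (∀ ξ, R j ξ = lc q t h true ξ) ∧ (∀ ξ, R' j ξ = lc q' t h true ξ)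

theorem t3b_W1 {N q q' : ℕ} {R R' : ℕ → ℕ → St × ℤ} (hN : 1 ≤ N) (hq : nxt q q' = true)
    (H : T3bPair N q q' R R') {k : ℕ} (hk : 1 ≤ k) :
    W1 (t3bCol N R (k - 1)) (t3bCol N R k) (t3bCol N R' (k - 1)) (t3bCol N R' k) = true := by
  rcases Nat.lt_or_ge k 8 with h1 | h1
  · rw [t3bCol_out (by omega), t3bCol_out (by omega), t3bCol_out (by omega), t3bCol_out (by omega)]
    exact fin_static.1
  rcases Nat.eq_or_lt_of_le h1 with h2 | h2
  · obtain ⟨t, h, hok, hR, hR'⟩ := H.ends 0 (Or.inl rfl)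
    rw [t3bCol_out (c := k - 1) (by omega), t3bCol_out (c := k - 1) (by omega),
      t3bCol_even (j := 0) (ξ := 0) (by omega) (by omega) (by omega) (by omega),
      t3bCol_even (j := 0) (ξ := 0) (by omega) (by omega) (by omega) (by omega), hR, hR']
    exact (fin_end q q' hq t h hok).1
  rcases Nat.lt_or_ge k (8 + 82 * N) with h3 | h3
  · obtain ⟨j, ξ, hξ, hc⟩ : ∃ j ξ, ξ < 41 ∧ k - 1 = 8 + 41 * j + ξ :=
      ⟨(k - 1 - 8) / 41, (k - 1 - 8) % 41, by omega, by omega⟩
    rcases Nat.lt_or_ge ξ 40 with h4 | h4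
    · have hj : j < 2 * N := by omega
      obtain ⟨t, h, f, hok, hR, hR'⟩ := H.inner j hj
      rcases Nat.mod_two_eq_zero_or_one j with h5 | h5
      · rw [t3bCol_even (c := k - 1) (j := j) (ξ := ξ) h5 hj (by omega) (by omega),
          t3bCol_even (c := k) (j := j) (ξ := ξ + 1) h5 hj (by omega) (by omega),
          t3bCol_even (c := k - 1) (j := j) (ξ := ξ) h5 hj (by omega) (by omega),
          t3bCol_even (c := k) (j := j) (ξ := ξ + 1) h5 hj (by omega) (by omega), hR, hR, hR', hR']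
        exact (fin_inner q q' hq t h f hok ξ h4).1
      · obtain ⟨η, hη⟩ : ∃ η, η + ξ = 39 := ⟨39 - ξ, by omega⟩
        rw [t3bCol_odd (c := k - 1) (j := j) (ξ := η + 1) h5 hj (by omega) (by omega),
          t3bCol_odd (c := k) (j := j) (ξ := η) h5 hj (by omega) (by omega),
          t3bCol_odd (c := k - 1) (j := j) (ξ := η + 1) h5 hj (by omega) (by omega),
          t3bCol_odd (c := k) (j := j) (ξ := η) h5 hj (by omega) (by omega), hR, hR, hR', hR']
        exact (fin_inner q q' hq t h f hok η (by omega)).2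
    · have hj : j + 1 < 2 * N := by omega
      rcases Nat.mod_two_eq_zero_or_one j with h5 | h5
      · obtain ⟨t, t', h, h', f, f', hok, hok', hx, hb, hR, hR', hS, hS'⟩ := H.right j h5 hj
        rw [t3bCol_even (c := k - 1) (j := j) (ξ := 40) h5 (by omega) (by omega) (by omega),
          t3bCol_odd (c := k) (j := j + 1) (ξ := 40) (by omega) hj (by omega) (by omega),
          t3bCol_even (c := k - 1) (j := j) (ξ := 40) h5 (by omega) (by omega) (by omega),
          t3bCol_odd (c := k) (j := j + 1) (ξ := 40) (by omega) hj (by omega) (by omega),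
          hR, hR', hS, hS']
        exact (fin_right q q' hq t t' h h' f f' hok hok' hx hb).1
      · obtain ⟨t, t', h, h', hok, hok', hb, hR, hR', hS, hS'⟩ := H.left j h5 hj
        rw [t3bCol_odd (c := k - 1) (j := j) (ξ := 0) h5 (by omega) (by omega) (by omega),
          t3bCol_even (c := k) (j := j + 1) (ξ := 0) (by omega) hj (by omega) (by omega),
          t3bCol_odd (c := k - 1) (j := j) (ξ := 0) h5 (by omega) (by omega) (by omega),
          t3bCol_even (c := k) (j := j + 1) (ξ := 0) (by omega) hj (by omega) (by omega),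
          hR, hR', hS, hS']
        exact (fin_left q q' hq t t' h h' hok hok' hb).1
  rcases Nat.eq_or_lt_of_le h3 with h4 | h4
  · obtain ⟨j, hj⟩ : ∃ j, j + 1 = 2 * N := ⟨2 * N - 1, by omega⟩
    obtain ⟨t, h, hok, hR, hR'⟩ := H.ends j (Or.inr hj)
    rw [t3bCol_odd (c := k - 1) (j := j) (ξ := 0) (by omega) (by omega) (by omega) (by omega),
      t3bCol_out (c := k) (by omega),
      t3bCol_odd (c := k - 1) (j := j) (ξ := 0) (by omega) (by omega) (by omega) (by omega),
      t3bCol_out (c := k) (by omega), hR, hR']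
    exact (fin_end q q' hq t h hok).2.2.2.1
  · rw [t3bCol_out (by omega), t3bCol_out (by omega), t3bCol_out (by omega), t3bCol_out (by omega)]
    exact fin_static.1

theorem t3b_W2 {N q q' : ℕ} {R R' : ℕ → ℕ → St × ℤ} (hN : 1 ≤ N) (hq : nxt q q' = true)
    (H : T3bPair N q q' R R') {k : ℕ} (hk : 1 ≤ k) :
    W2 (t3bCol N R (k - 1)) (t3bCol N R k) (t3bCol N R (k + 1)) (t3bCol N R' k) = true := by
  rcases Nat.lt_or_ge k 7 with h1 | h1
  · rw [t3bCol_out (by omega), t3bCol_out (by omega), t3bCol_out (by omega), t3bCol_out (by omega)]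
    exact fin_static.2
  rcases Nat.eq_or_lt_of_le h1 with h2 | h2
  · obtain ⟨t, h, hok, hR, hR'⟩ := H.ends 0 (Or.inl rfl)
    rw [t3bCol_out (c := k - 1) (by omega), t3bCol_out (c := k) (by omega),
      t3bCol_even (c := k + 1) (j := 0) (ξ := 0) (by omega) (by omega) (by omega) (by omega),
      t3bCol_out (c := k) (by omega), hR]
    exact (fin_end q q' hq t h hok).2.2.1
  rcases Nat.eq_or_lt_of_le (Nat.succ_le_of_lt h2) with h2' | h2'
  · obtain ⟨t, h, hok, hR, hR'⟩ := H.ends 0 (Or.inl rfl)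
    rw [t3bCol_out (c := k - 1) (by omega),
      t3bCol_even (c := k) (j := 0) (ξ := 0) (by omega) (by omega) (by omega) (by omega),
      t3bCol_even (c := k + 1) (j := 0) (ξ := 1) (by omega) (by omega) (by omega) (by omega),
      t3bCol_even (c := k) (j := 0) (ξ := 0) (by omega) (by omega) (by omega) (by omega),
      hR, hR, hR']
    exact (fin_end q q' hq t h hok).2.1
  rcases Nat.lt_or_ge (k + 1) (8 + 82 * N) with h3 | h3
  · obtain ⟨j, ξ, hξ, hc⟩ : ∃ j ξ, ξ < 41 ∧ k - 1 = 8 + 41 * j + ξ :=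
      ⟨(k - 1 - 8) / 41, (k - 1 - 8) % 41, by omega, by omega⟩
    rcases Nat.lt_or_ge ξ 39 with h4 | h4
    · have hj : j < 2 * N := by omega
      obtain ⟨t, h, f, hok, hR, hR'⟩ := H.inner j hj
      rcases Nat.mod_two_eq_zero_or_one j with h5 | h5
      · rw [t3bCol_even (c := k - 1) (j := j) (ξ := ξ) h5 hj (by omega) (by omega),
          t3bCol_even (c := k) (j := j) (ξ := ξ + 1) h5 hj (by omega) (by omega),
          t3bCol_even (c := k + 1) (j := j) (ξ := ξ + 2) h5 hj (by omega) (by omega),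
          t3bCol_even (c := k) (j := j) (ξ := ξ + 1) h5 hj (by omega) (by omega), hR, hR, hR, hR']
        exact (fin_inner2 q q' hq t h f hok ξ h4).1
      · obtain ⟨η, hη⟩ : ∃ η, η + ξ = 38 := ⟨38 - ξ, by omega⟩
        rw [t3bCol_odd (c := k - 1) (j := j) (ξ := η + 2) h5 hj (by omega) (by omega),
          t3bCol_odd (c := k) (j := j) (ξ := η + 1) h5 hj (by omega) (by omega),
          t3bCol_odd (c := k + 1) (j := j) (ξ := η) h5 hj (by omega) (by omega),
          t3bCol_odd (c := k) (j := j) (ξ := η + 1) h5 hj (by omega) (by omega), hR, hR, hR, hR']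
        exact (fin_inner2 q q' hq t h f hok η (by omega)).2
    · have hj : j + 1 < 2 * N := by omega
      rcases Nat.mod_two_eq_zero_or_one j with h5 | h5
      · obtain ⟨t, t', h, h', f, f', hok, hok', hx, hb, hR, hR', hS, hS'⟩ := H.right j h5 hj
        rcases Nat.eq_or_lt_of_le h4 with h6 | h6
        · rw [t3bCol_even (c := k - 1) (j := j) (ξ := 39) h5 (by omega) (by omega) (by omega),
            t3bCol_even (c := k) (j := j) (ξ := 40) h5 (by omega) (by omega) (by omega),
            t3bCol_odd (c := k + 1) (j := j + 1) (ξ := 40) (by omega) hj (by omega) (by omega),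
            t3bCol_even (c := k) (j := j) (ξ := 40) h5 (by omega) (by omega) (by omega),
            hR, hR, hR', hS]
          exact (fin_right q q' hq t t' h h' f f' hok hok' hx hb).2.1
        · rw [t3bCol_even (c := k - 1) (j := j) (ξ := 40) h5 (by omega) (by omega) (by omega),
            t3bCol_odd (c := k) (j := j + 1) (ξ := 40) (by omega) hj (by omega) (by omega),
            t3bCol_odd (c := k + 1) (j := j + 1) (ξ := 39) (by omega) hj (by omega) (by omega),
            t3bCol_odd (c := k) (j := j + 1) (ξ := 40) (by omega) hj (by omega) (by omega),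
            hR, hS, hS, hS']
          exact (fin_right q q' hq t t' h h' f f' hok hok' hx hb).2.2
      · obtain ⟨t, t', h, h', hok, hok', hb, hR, hR', hS, hS'⟩ := H.left j h5 hj
        rcases Nat.eq_or_lt_of_le h4 with h6 | h6
        · rw [t3bCol_odd (c := k - 1) (j := j) (ξ := 1) h5 (by omega) (by omega) (by omega),
            t3bCol_odd (c := k) (j := j) (ξ := 0) h5 (by omega) (by omega) (by omega),
            t3bCol_even (c := k + 1) (j := j + 1) (ξ := 0) (by omega) hj (by omega) (by omega),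
            t3bCol_odd (c := k) (j := j) (ξ := 0) h5 (by omega) (by omega) (by omega),
            hR, hR, hR', hS]
          exact (fin_left q q' hq t t' h h' hok hok' hb).2.1
        · rw [t3bCol_odd (c := k - 1) (j := j) (ξ := 0) h5 (by omega) (by omega) (by omega),
            t3bCol_even (c := k) (j := j + 1) (ξ := 0) (by omega) hj (by omega) (by omega),
            t3bCol_even (c := k + 1) (j := j + 1) (ξ := 1) (by omega) hj (by omega) (by omega),
            t3bCol_even (c := k) (j := j + 1) (ξ := 0) (by omega) hj (by omega) (by omega),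
            hR, hS, hS, hS']
          exact (fin_left q q' hq t t' h h' hok hok' hb).2.2
  obtain ⟨j, hj⟩ : ∃ j, j + 1 = 2 * N := ⟨2 * N - 1, by omega⟩
  obtain ⟨t, h, hok, hR, hR'⟩ := H.ends j (Or.inr hj)
  rcases Nat.eq_or_lt_of_le h3 with h4 | h4
  · rw [t3bCol_odd (c := k - 1) (j := j) (ξ := 1) (by omega) (by omega) (by omega) (by omega),
      t3bCol_odd (c := k) (j := j) (ξ := 0) (by omega) (by omega) (by omega) (by omega),
      t3bCol_out (c := k + 1) (by omega),
      t3bCol_odd (c := k) (j := j) (ξ := 0) (by omega) (by omega) (by omega) (by omega),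
      hR, hR, hR']
    exact (fin_end q q' hq t h hok).2.2.2.2.1
  rcases Nat.eq_or_lt_of_le (Nat.succ_le_of_lt h4) with h5 | h5
  · rw [t3bCol_odd (c := k - 1) (j := j) (ξ := 0) (by omega) (by omega) (by omega) (by omega),
      t3bCol_out (c := k) (by omega), t3bCol_out (c := k + 1) (by omega),
      t3bCol_out (c := k) (by omega), hR]
    exact (fin_end q q' hq t h hok).2.2.2.2.2
  · rw [t3bCol_out (by omega), t3bCol_out (by omega), t3bCol_out (by omega), t3bCol_out (by omega)]
    exact fin_static.2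

theorem t3b_okPair_mir {a b : St} (h : okPair a b) : okPair b.mir a.mir := by
  cases a <;> cases b <;> simp_all [okPair, St.mir]

/-- Neighbouring states of a row. -/
theorem t3b_okPair {N q q' : ℕ} {R R' : ℕ → ℕ → St × ℤ} (hN : 1 ≤ N)
    (H : T3bPair N q q' R R') (c : ℕ) :
    okPair (t3bCol N R c).1 (t3bCol N R (c + 1)).1 := by
  have hSS : okPair .S .S := trivial
  rcases Nat.lt_or_ge c 7 with h1 | h1
  · rw [t3bCol_out (by omega), t3bCol_out (by omega)]
    exact hSS
  rcases Nat.eq_or_lt_of_le h1 with h2 | h2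
  · obtain ⟨t, h, hok, hR, hR'⟩ := H.ends 0 (Or.inl rfl)
    rw [t3bCol_out (c := c) (by omega),
      t3bCol_even (c := c + 1) (j := 0) (ξ := 0) (by omega) (by omega) (by omega) (by omega), hR]
    exact (ls_ok_end q t h hok).1
  rcases Nat.lt_or_ge (c + 1) (8 + 82 * N) with h3 | h3
  · obtain ⟨j, ξ, hξ, hc⟩ : ∃ j ξ, ξ < 41 ∧ c = 8 + 41 * j + ξ :=
      ⟨(c - 8) / 41, (c - 8) % 41, by omega, by omega⟩
    rcases Nat.lt_or_ge ξ 40 with h4 | h4
    · have hj : j < 2 * N := by omega
      obtain ⟨t, h, f, hok, hR, hR'⟩ := H.inner j hj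
      rcases Nat.mod_two_eq_zero_or_one j with h5 | h5
      · rw [t3bCol_even (c := c) (j := j) (ξ := ξ) h5 hj (by omega) (by omega),
          t3bCol_even (c := c + 1) (j := j) (ξ := ξ + 1) h5 hj (by omega) (by omega), hR, hR]
        have := ls_ok q t h f hok ξ h4
        simp only [lc]
        push_cast
        exact this
      · obtain ⟨η, hη⟩ : ∃ η, η + ξ = 39 := ⟨39 - ξ, by omega⟩
        rw [t3bCol_odd (c := c) (j := j) (ξ := η + 1) h5 hj (by omega) (by omega),
          t3bCol_odd (c := c + 1) (j := j) (ξ := η) h5 hj (by omega) (by omega), hR, hR]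
        have := t3b_okPair_mir (ls_ok q t h f hok η (by omega))
        simp only [lc, mc]
        push_cast
        exact this
    · have hj : j + 1 < 2 * N := by omega
      rcases Nat.mod_two_eq_zero_or_one j with h5 | h5
      · obtain ⟨t, t', h, h', f, f', hok, hok', hx, hb, hR, hR', hS, hS'⟩ := H.right j h5 hj
        rw [t3bCol_even (c := c) (j := j) (ξ := 40) h5 (by omega) (by omega) (by omega),
          t3bCol_odd (c := c + 1) (j := j + 1) (ξ := 40) (by omega) hj (by omega) (by omega),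
          hR, hS]
        exact ls_ok_right q t t' h h' f f' hok hok' hx hb
      · obtain ⟨t, t', h, h', hok, hok', hb, hR, hR', hS, hS'⟩ := H.left j h5 hj
        rw [t3bCol_odd (c := c) (j := j) (ξ := 0) h5 (by omega) (by omega) (by omega),
          t3bCol_even (c := c + 1) (j := j + 1) (ξ := 0) (by omega) hj (by omega) (by omega),
          hR, hS]
        exact ls_ok_left q t t' h h' hok hok' hb
  rcases Nat.eq_or_lt_of_le h3 with h4 | h4
  · obtain ⟨j, hj⟩ : ∃ j, j + 1 = 2 * N := ⟨2 * N - 1, by omega⟩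
    obtain ⟨t, h, hok, hR, hR'⟩ := H.ends j (Or.inr hj)
    rw [t3bCol_odd (c := c) (j := j) (ξ := 0) (by omega) (by omega) (by omega) (by omega),
      t3bCol_out (c := c + 1) (by omega), hR]
    exact (ls_ok_end q t h hok).2
  · rw [t3bCol_out (by omega), t3bCol_out (by omega)]
    exact hSS

/-! ### The rows of the solution -/

theorem t3b_lc_x {q : ℕ} (hq : q = 0 ∨ q = 1 ∨ 7 ≤ q) {t t' : Ty} (hit hit' first first' : Bool)
    (hx : t.x = t'.x) (ξ : ℕ) : lc q t hit first ξ = lc q t' hit' first' ξ := by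
  unfold lc
  rw [ls_x q hq t t' hit hit' first first' hx, entry_x q hq hit hit' first first']

/-- Rows of types 0, 7 with the next row. -/
theorem t3b_pair_x {N q q' : ℕ} {R R' : ℕ → ℕ → St × ℤ} {x : ℕ → Bool} (hN : 1 ≤ N)
    (hq : q = 0 ∨ q = 1 ∨ 7 ≤ q) (hq' : q' = 0 ∨ q' = 1 ∨ 7 ≤ q')
    (hx : ∀ j, j % 2 = 0 → x (j + 1) = !x j)
    (h1 : ∀ j < 2 * N, ∃ (t : Ty) (h f : Bool), t.x = x j ∧ ∀ ξ, R j ξ = lc q t h f ξ)
    (h2 : ∀ j < 2 * N, ∃ (t : Ty) (h f : Bool), t.x = x j ∧ ∀ ξ, R' j ξ = lc q' t h f ξ) :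
    T3bPair N q q' R R' := by
  have k1 : ∀ j < 2 * N, ∀ (t : Ty) (h f : Bool), t.x = x j → ∀ ξ, R j ξ = lc q t h f ξ := by
    intro j hj t h f ht ξ
    obtain ⟨t', h', f', ht', hR⟩ := h1 j hj
    rw [hR]
    exact t3b_lc_x hq _ _ _ _ (ht'.trans ht.symm) ξ
  have k2 : ∀ j < 2 * N, ∀ (t : Ty) (h f : Bool), t.x = x j → ∀ ξ, R' j ξ = lc q' t h f ξ := by
    intro j hj t h f ht ξ
    obtain ⟨t', h', f', ht', hR⟩ := h2 j hj
    rw [hR]
    exact t3b_lc_x hq' _ _ _ _ (ht'.trans ht.symm) ξ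
  refine ⟨?_, ?_, ?_, ?_⟩
  · intro j hj
    exact ⟨⟨true, false, x j⟩, false, false, rfl, k1 j hj _ _ _ rfl, k2 j hj _ _ _ rfl⟩
  · intro j hj0 hj
    exact ⟨⟨true, false, x j⟩, ⟨false, true, x (j + 1)⟩, false, false, false, false, rfl, rfl,
      hx j hj0, rfl, k1 j (by omega) _ _ _ rfl, k2 j (by omega) _ _ _ rfl,
      k1 (j + 1) hj _ _ _ rfl, k2 (j + 1) hj _ _ _ rfl⟩
  · intro j hj0 hj
    exact ⟨⟨true, false, x j⟩, ⟨false, true, x (j + 1)⟩, false, false, rfl, rfl, rfl,
      k1 j (by omega) _ _ _ rfl, k2 j (by omega) _ _ _ rfl,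
      k1 (j + 1) hj _ _ _ rfl, k2 (j + 1) hj _ _ _ rfl⟩
  · intro j hj
    have hj2 : j < 2 * N := by omega
    exact ⟨⟨true, false, x j⟩, false, rfl, k1 j hj2 _ _ _ rfl, k2 j hj2 _ _ _ rfl⟩

/-- Value of the literal of block `j`. -/
def t3bX (y : ℕ → Bool) (j : ℕ) : Bool := if j % 2 = 0 then y (j / 2) else !y (j / 2)

/-- Parameters of block `j` if the chosen block is `J`. -/
def t3bTy (J j : ℕ) (x : Bool) : Ty where
  sb := decide ((j < J ∧ j % 2 = 0) ∨ j = J ∨ (J < j ∧ j % 2 = 1))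
  sbr := decide ((j < J ∧ j % 2 = 1) ∨ j = J ∨ (J < j ∧ j % 2 = 0))
  x := x

/-- Row types including the empty rows. -/
def t3bQ (mm p : ℕ) : ℕ := if 7 * mm + 1 ≤ p then 8 else rt p

/-- Local data of the rows. -/
def t3bR (N mm : ℕ) (hit : ℕ → ℕ → Bool) (y : ℕ → Bool) (js : ℕ → ℕ) (p j ξ : ℕ) : St × ℤ :=
  lc (t3bQ mm p) (t3bTy (js ((p - 1) / 7)) j (t3bX y j)) (ht hit p j) (fst' N j) ξ

theorem t3bX_succ (y : ℕ → Bool) {j : ℕ} (hj : j % 2 = 0) : t3bX y (j + 1) = !t3bX y j := by
  unfold t3bX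
  rw [if_pos hj, if_neg (by omega), show (j + 1) / 2 = j / 2 by omega]

theorem t3bTy_sbr {J j : ℕ} (x x' : Bool) (hj : j % 2 = 0) :
    (t3bTy J (j + 1) x').sbr = !(t3bTy J j x).sbr := by
  unfold t3bTy
  rw [Bool.eq_not_iff]
  simp only [ne_eq, decide_eq_decide]
  omega

theorem t3bTy_sb {J j : ℕ} (x x' : Bool) (hj : j % 2 = 1) :
    (t3bTy J (j + 1) x').sb = !(t3bTy J j x).sb := by
  unfold t3bTy
  rw [Bool.eq_not_iff]
  simp only [ne_eq, decide_eq_decide]
  omega

theorem t3bTy_ok {N J j : ℕ} {x h : Bool} (hJ : J < 2 * N) (_ : j < 2 * N)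
    (hit : j = J → h = true ∧ x = true) : (t3bTy J j x).ok h (fst' N j) = true := by
  unfold Ty.ok t3bTy fst'
  simp only [Bool.and_eq_true, Bool.or_eq_true, decide_eq_true_eq, Bool.not_eq_true',
    decide_eq_false_iff_not, Bool.and_eq_false_iff]
  refine ⟨⟨by omega, by omega⟩, ?_⟩
  by_cases h1 : j = J
  · exact Or.inr (hit h1)
  · left
    omega

theorem t3b_fst'_odd {N j : ℕ} (hj : j % 2 = 1) (h : j + 1 < 2 * N) :
    fst' N j = false ∧ fst' N (j + 1) = false := by
  unfold fst'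
  simp only [decide_eq_false_iff_not]
  omega

/-- All consecutive rows of the solution. -/
theorem t3b_pair {N mm : ℕ} {hit : ℕ → ℕ → Bool} {y : ℕ → Bool} {js : ℕ → ℕ} (hN : 1 ≤ N)
    (hjs : ∀ i < mm, js i < 2 * N ∧ hit i (js i) = true ∧ t3bX y (js i) = true)
    {p : ℕ} (hp : p < 7 * mm + 1) :
    nxt (t3bQ mm p) (t3bQ mm (p + 1)) = true ∧
      T3bPair N (t3bQ mm p) (t3bQ mm (p + 1)) (t3bR N mm hit y js p)
        (t3bR N mm hit y js (p + 1)) := by
  by_cases hc : p ≠ 0 ∧ (p - 1) % 7 < 6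
  · -- two rows of the same clause
    have hq : t3bQ mm p = (p - 1) % 7 + 1 := by
      unfold t3bQ rt
      rw [if_neg (by omega), if_neg hc.1]
    have hq' : t3bQ mm (p + 1) = (p - 1) % 7 + 1 + 1 := by
      unfold t3bQ rt
      rw [if_neg (by omega), if_neg (by omega)]
      omega
    have hcl : (p + 1 - 1) / 7 = (p - 1) / 7 := by omega
    have hht : ∀ j, ht hit (p + 1) j = ht hit p j := by
      intro j
      unfold ht
      rw [if_neg (by omega), if_neg hc.1, hcl]
    have hht2 : ∀ j, ht hit p j = hit ((p - 1) / 7) j := by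
      intro j
      unfold ht
      rw [if_neg hc.1]
    have hR' : ∀ j ξ, t3bR N mm hit y js (p + 1) j ξ = lc (t3bQ mm (p + 1))
        (t3bTy (js ((p - 1) / 7)) j (t3bX y j)) (ht hit p j) (fst' N j) ξ := by
      intro j ξ
      unfold t3bR
      rw [hht j, hcl]
    have hi : (p - 1) / 7 < mm := by omega
    have hok : ∀ j < 2 * N, (t3bTy (js ((p - 1) / 7)) j (t3bX y j)).ok (ht hit p j) (fst' N j)
        = true := by
      intro j hj
      refine t3bTy_ok (hjs _ hi).1 hj ?_
      rintro rfl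
      rw [hht2]
      exact (hjs _ hi).2
    refine ⟨?_, ?_, ?_, ?_, ?_⟩
    · rw [hq, hq']
      unfold nxt
      simp only [Bool.or_eq_true, Bool.and_eq_true, decide_eq_true_eq]
      exact Or.inl (Or.inl ⟨by omega, trivial⟩)
    · intro j hj
      exact ⟨_, _, _, hok j hj, fun ξ => rfl, hR' j⟩
    · intro j hj0 hj
      exact ⟨_, _, _, _, _, _, hok j (by omega), hok (j + 1) hj, t3bX_succ y hj0,
        t3bTy_sbr _ _ hj0, fun ξ => rfl, hR' j, fun ξ => rfl, hR' (j + 1)⟩
    · intro j hj0 hj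
      have hf := t3b_fst'_odd hj0 hj
      have h1 := hok j (by omega)
      have h2 := hok (j + 1) hj
      rw [hf.1] at h1
      rw [hf.2] at h2
      refine ⟨_, _, _, _, h1, h2, t3bTy_sb _ _ hj0, ?_, ?_, ?_, ?_⟩
      · intro ξ
        rw [← hf.1]
        rfl
      · intro ξ
        rw [hR', hf.1]
      · intro ξ
        rw [← hf.2]
        rfl
      · intro ξ
        rw [hR', hf.2]
    · intro j hj
      have hf : fst' N j = true := by
        unfold fst'
        simp only [decide_eq_true_eq]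
        exact hj
      have h1 := hok j (by omega)
      rw [hf] at h1
      refine ⟨_, _, h1, ?_, ?_⟩
      · intro ξ
        rw [← hf]
        rfl
      · intro ξ
        rw [hR', hf]
  · -- rows of types 0, 7
    have hq : t3bQ mm p = 0 ∨ t3bQ mm p = 7 := by
      unfold t3bQ rt
      rw [if_neg (by omega)]
      split_ifs with h0
      · exact Or.inl rfl
      · right
        omega
    have hq' : t3bQ mm (p + 1) = 1 ∨ t3bQ mm (p + 1) = 8 := by
      by_cases h0 : 7 * mm + 1 ≤ p + 1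
      · right
        unfold t3bQ
        rw [if_pos h0]
      · left
        unfold t3bQ rt
        rw [if_neg h0, if_neg (by omega)]
        omega
    refine ⟨?_, t3b_pair_x (x := t3bX y) hN (by omega) (by omega) (fun j hj => t3bX_succ y hj) ?_ ?_⟩
    · rcases hq with h1 | h1 <;> rcases hq' with h2 | h2 <;> rw [h1, h2] <;> rfl
    · intro j _
      exact ⟨_, _, _, rfl, fun ξ => rfl⟩
    · intro j _
      exact ⟨_, _, _, rfl, fun ξ => rfl⟩

theorem t3b_lc8 (t : Ty) (h f : Bool) (ξ : ℕ) : lc 8 t h f ξ = (.S, 0) := rfl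

theorem t3b_shift {N mm : ℕ} {hit : ℕ → ℕ → Bool} {y : ℕ → Bool} {js : ℕ → ℕ} (p c : ℕ) :
    (tab N mm hit).shift p c = (t3bCol N (t3bR N mm hit y js p) c).2 := by
  unfold Tab.shift
  show (if c < 8 ∨ 8 + 82 * N ≤ c ∨ 7 * mm + 1 ≤ p then none
    else if (c - 8) / 41 % 2 = 0 then lent N hit p ((c - 8) / 41) ((c - 8) % 41)
    else (lent N hit p ((c - 8) / 41) (40 - (c - 8) % 41)).map (fun s => -s) : Option ℤ).getD 0 = _
  by_cases h1 : c < 8 ∨ 8 + 82 * N ≤ c
  · rw [if_pos (by omega), t3bCol_out h1]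
    rfl
  by_cases h2 : 7 * mm + 1 ≤ p
  · rw [if_pos (by omega)]
    unfold t3bCol t3bR t3bQ
    rw [if_neg h1, if_pos h2]
    split_ifs <;> rfl
  rw [if_neg (by omega)]
  unfold t3bCol t3bR t3bQ lent
  rw [if_neg h1, if_neg h2]
  split_ifs with h3
  · rfl
  · show (Option.map (fun s => -s) (entry (rt p) (40 - (c - 8) % 41) _ _)).getD 0 =
      -((entry (rt p) (40 - (c - 8) % 41) _ _).getD 0)
    cases entry (rt p) (40 - (c - 8) % 41) (ht hit p ((c - 8) / 41)) (fst' N ((c - 8) / 41)) with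
    | none => rfl
    | some s => rfl

theorem t3b_mir_S {a : St} : a.mir = .S ↔ a = .S := by
  cases a <;> simp [St.mir]

/-- The states describe the loops of the table. -/
theorem t3b_S {N mm : ℕ} {hit : ℕ → ℕ → Bool} {y : ℕ → Bool} {js : ℕ → ℕ}
    (hjs : ∀ i < mm, js i < 2 * N ∧ hit i (js i) = true ∧ t3bX y (js i) = true) (p c : ℕ) :
    (t3bCol N (t3bR N mm hit y js p) c).1 = .S ↔ ¬ (tab N mm hit).inL p c := by
  unfold Tab.inL
  rw [not_not]
  show _ ↔ (if c < 8 ∨ 8 + 82 * N ≤ c ∨ 7 * mm + 1 ≤ p then none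
    else if (c - 8) / 41 % 2 = 0 then lent N hit p ((c - 8) / 41) ((c - 8) % 41)
    else (lent N hit p ((c - 8) / 41) (40 - (c - 8) % 41)).map (fun s => -s) : Option ℤ) = none
  by_cases h1 : c < 8 ∨ 8 + 82 * N ≤ c
  · rw [if_pos (by omega), t3bCol_out h1]
    simp
  by_cases h2 : 7 * mm + 1 ≤ p
  · rw [if_pos (by omega)]
    unfold t3bCol t3bR t3bQ
    rw [if_neg h1, if_pos h2]
    split_ifs
    · exact ⟨fun _ => rfl, fun _ => rfl⟩
    · exact ⟨fun _ => rfl, fun _ => rfl⟩
  have key : ∀ j < 2 * N, ∀ ξ < 41, (t3bR N mm hit y js p j ξ).1 = .S ↔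
      lent N hit p j ξ = none := by
    intro j hj ξ hξ
    unfold t3bR t3bQ lent
    rw [if_neg h2]
    by_cases hp : p = 0
    · have hq : rt p = 0 := by
        unfold rt
        rw [if_pos hp]
      rw [hq, t3b_lc_x (t := t3bTy (js ((p - 1) / 7)) j (t3bX y j))
        (t' := ⟨true, false, t3bX y j⟩) (Or.inl rfl) (ht hit p j) (ht hit p j)
        (fst' N j) (fst' N j) rfl ξ]
      refine entry_ls 0 ⟨true, false, t3bX y j⟩ (ht hit p j) (fst' N j) ?_ ξ hξ
      unfold Ty.ok
      simp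
    · have hi : (p - 1) / 7 < mm := by omega
      refine entry_ls (rt p) _ (ht hit p j) (fst' N j) ?_ ξ hξ
      refine t3bTy_ok (hjs _ hi).1 hj ?_
      rintro rfl
      unfold ht
      rw [if_neg hp]
      exact (hjs _ hi).2
  rw [if_neg (by omega)]
  unfold t3bCol
  rw [if_neg h1]
  split_ifs with h3
  · exact key _ (by omega) _ (by omega)
  · rw [Option.map_eq_none_iff, ← key _ (by omega) _ (by omega)]
    exact t3b_mir_S

theorem loopSat_of_cnfSat {N mm : ℕ} {hit : ℕ → ℕ → Bool} (hN : 1 ≤ N)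
    (h : CnfSat N mm hit) : (tab N mm hit).LoopSat := by
  obtain ⟨y, hy⟩ := h
  have hex : ∀ i, ∃ J, i < mm → J < 2 * N ∧ hit i J = true ∧ t3bX y J = true := by
    intro i
    by_cases hi : i < mm
    · obtain ⟨v, hv, h1 | h1⟩ := hy i hi
      · refine ⟨2 * v, fun _ => ⟨by omega, h1.2, ?_⟩⟩
        unfold t3bX
        rw [if_pos (by omega), show 2 * v / 2 = v by omega]
        exact h1.1
      · refine ⟨2 * v + 1, fun _ => ⟨by omega, h1.2, ?_⟩⟩
        unfold t3bX
        rw [if_neg (by omega), show (2 * v + 1) / 2 = v by omega, h1.1]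
        rfl
    · exact ⟨0, fun h => absurd h hi⟩
  choose js hjs using hex
  have hpair := fun (p : ℕ) (hp : p < 7 * mm + 1) => t3b_pair (N := N) (hit := hit) hN hjs hp
  have hok : (tab N mm hit).OkSt (fun p c => (t3bCol N (t3bR N mm hit y js p) c).1) := by
    refine ⟨fun p c => t3b_S hjs p c, fun p c => ?_⟩
    by_cases hp : p < 7 * mm + 1
    · exact t3b_okPair hN (hpair p hp).2 c
    · have hS : ∀ c, (t3bCol N (t3bR N mm hit y js p) c).1 = .S := by
        intro c
        unfold t3bCol t3bR t3bQ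
        rw [if_pos (show 7 * mm + 1 ≤ p by omega)]
        split_ifs <;> rfl
      show okPair (t3bCol N (t3bR N mm hit y js p) c).1 (t3bCol N (t3bR N mm hit y js p) (c + 1)).1
      rw [hS, hS]
      trivial
  refine ⟨_, hok, fun p hp k hk _ => ?_⟩
  have hp' : p < 7 * mm + 1 := hp
  rw [chk1_iff hok hk, chk2_iff hok hk]
  simp only [t3b_shift (y := y) (js := js), Prod.mk.eta]
  exact ⟨t3b_W1 hN (hpair p hp').1 (hpair p hp').2 hk, t3b_W2 hN (hpair p hp').1 (hpair p hp').2 hk⟩

end Pool.Agent.Helper70.MD
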