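import Pool.Agent.Helper70.MD.F8
import Pool.Agent.Helper70.MD.G4
import Pool.Agent.Helper70.MD.T2e
import Pool.Agent.Helper70.MD.T3b
import Pool.Agent.Helper70.MD.I4
import Pool.Agent.Helper70.MD.I5
import Pool.Agent.Helper70.MD.I6

/-!
The main theorem: minimum maximum degree triangulation is NP-hard for the bound 6.
-/

set_option autoImplicit false

namespace Pool.Agent.Helper70.MD

open Finset

open scoped Classical

open Helper68.Una

/-- The explicit set has a triangulation of maximum degree at most 6 if and only if the loop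
system is satisfiable. -/
theorem yes_iff_loopSat {τ : Tab} (hg : τ.Good) : τ.inst.Yes ↔ τ.LoopSat := by
  constructor
  · rintro ⟨T, hT, hd⟩
    rw [Tab.inst_set] at hT
    exact Tab.sound hg hT hd
  · intro h
    obtain ⟨T, hT, hd⟩ := Tab.complete hg h
    exact ⟨T, by rw [Tab.inst_set]; exact hT, hd⟩

theorem yes_iff (D : CspData) (w : List Bool) : (rinst D w).Yes ↔ D.Sat w := by
  have hN : 1 ≤ rN D w := by unfold rN; omega
  have hg : (rtab D w).Good := tab_good hN _ _
  rw [← cnfSat_iff D w]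
  exact (yes_iff_loopSat hg).trans
    ⟨fun h => cnfSat_of_loopSat hN h, fun h => loopSat_of_cnfSat hN h⟩

/-- The coordinates are small integers. -/
theorem small (D : CspData) : ∃ d : ℕ, ∀ w, ∀ q ∈ (rinst D w).pts, ∃ x y : ℤ,
    q = ((x : ℚ), (y : ℚ)) ∧ |x| ≤ ((w.length : ℤ) + 2) ^ d ∧ |y| ≤ ((w.length : ℤ) + 2) ^ d := by
  obtain ⟨d, hd⟩ := (pu_nb D).bound
  refine ⟨d, fun w q hq => ?_⟩
  have hd' : nb (rtab D w) ≤ (w.length + 2) ^ d := by
    have h := hd w
    unfold mu at h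
    exact h
  have hd2 : (nb (rtab D w) : ℤ) ≤ ((w.length : ℤ) + 2) ^ d := by exact_mod_cast hd'
  unfold rinst Tab.inst Tab.ptsL at hq
  simp only [List.mem_flatMap, List.mem_range] at hq
  obtain ⟨n, hn, hq⟩ := hq
  have hS : 0 < (rtab D w).SL := by unfold Tab.SL; omega
  have hi : n / (rtab D w).SL ≤ (rtab D w).M :=
    Nat.lt_succ_iff.1 (Nat.div_lt_of_lt_mul (by rw [Nat.mul_comm]; exact hn))
  cases hs : (rtab D w).slot (n / (rtab D w).SL) (n % (rtab D w).SL) with
  | none => rw [hs] at hq; simp at hq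
  | some z =>
    rw [hs] at hq
    simp only [List.mem_singleton] at hq
    obtain ⟨h1, h2⟩ := slot_bound D w hi hs
    refine ⟨z.1, z.2, hq, ?_, ?_⟩
    · rw [Int.abs_eq_natAbs]
      exact le_trans (by exact_mod_cast h1) hd2
    · rw [Int.abs_eq_natAbs]
      exact le_trans (by exact_mod_cast h2) hd2

theorem np_hard (L : Set (List Bool)) (hL : Helper68.NP.InNP L) :
    ∃ f : List Bool → Inst,
      Nonempty (Turing.TM2ComputableInPolyTime (id : List Bool → List Bool) encodeInst f) ∧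
      (∀ w, (f w).k = 6) ∧
      (∃ d : ℕ, ∀ w, ∀ q ∈ (f w).pts, ∃ x y : ℤ, q = ((x : ℚ), (y : ℚ)) ∧
        |x| ≤ ((w.length : ℤ) + 2) ^ d ∧ |y| ≤ ((w.length : ℤ) + 2) ^ d) ∧
      ∀ w, w ∈ L ↔ (f w).Yes := by
  obtain ⟨M, p, hM⟩ := hL
  obtain ⟨D, hD⟩ := Helper68.Tab.tableau M p
  exact ⟨rinst D, polytime_rinst D, fun w => rfl, small D,
    fun w => (hM w).trans ((hD w).trans (yes_iff D w).symm)⟩

end Pool.Agent.Helper70.MD
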