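import Pool.Agent.Helper70.MD.EDefs

/-!
The table of the reduction, and the local description of its columns.

The table has `7 mm + 1` rows: row 0 (type 0) and for each clause `i` the rows `7 i + 1, ..., 7 i + 7`
(types 1 to 7). The columns `8, ..., 8 + 82 N - 1` are divided into `2 N` blocks of 41 columns; odd
blocks are mirror images.
-/

set_option autoImplicit false

namespace Pool.Agent.Helper70.MD

open Finset

open scoped Classical

/-- Local table: row type `q`, local column `ξ < 41`. -/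
def entry (q ξ : ℕ) (hit first : Bool) : Option ℤ :=
  if q = 0 then (if 17 ≤ ξ ∧ ξ < 41 then some 0 else none)
  else if q = 1 then (if 17 ≤ ξ ∧ ξ < 19 then some 0 else none)
  else if q = 2 then
    (if ξ < 13 then some (if 11 ≤ ξ then 2 else 0)
     else if 17 ≤ ξ ∧ ξ < 23 then some (if 21 ≤ ξ then 2 else 0)
     else if 27 ≤ ξ ∧ ξ < 41 then some 0 else none)
  else if q = 3 then
    (if ξ < 5 then some (if first = true ∧ ξ = 1 then 6 else 0)
     else if (if hit = true then 13 else 11) ≤ ξ ∧ ξ < 15 then some 0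
     else if 17 ≤ ξ ∧ ξ < 19 then some (-2)
     else if 21 ≤ ξ ∧ ξ < 25 then some 0
     else if 27 ≤ ξ ∧ ξ < 29 then some (-2)
     else if 38 ≤ ξ ∧ ξ < 41 then some (if ξ < 40 then -2 else 0) else none)
  else if q = 4 then
    (if (if first = true then 1 else 0) ≤ ξ ∧ ξ < 3 then some (if ξ = 0 then 0 else 2)
     else if 5 ≤ ξ ∧ ξ < 11 then some 0
     else if 13 ≤ ξ ∧ ξ < 19 then some (-2)
     else if 21 ≤ ξ ∧ ξ < 29 then some (-2)
     else if 31 ≤ ξ ∧ ξ < 40 then some (if ξ < 34 then -2 else 0) else none)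
  else if q = 5 then
    (if 1 ≤ ξ ∧ ξ < 7 then some (if 5 ≤ ξ then 2 else 0)
     else if 9 ≤ ξ ∧ ξ < 34 then
       some (if ξ = 12 ∨ ξ = 20 ∨ ξ = 30 then 6 else if ξ = 14 ∨ ξ = 22 ∨ ξ = 32 then -6 else 0)
     else if 36 ≤ ξ ∧ ξ < 38 then some 0 else none)
  else if q = 6 then
    (if 5 ≤ ξ ∧ ξ < 9 then some 0
     else if 34 ≤ ξ ∧ ξ < 38 then some (if ξ < 36 then -2 else 0) else none)
  else if q = 7 then (if 7 ≤ ξ ∧ ξ < 36 then some 0 else none)
  else none

/-- Type of row `p`. -/
def rt (p : ℕ) : ℕ := if p = 0 then 0 else (p - 1) % 7 + 1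

/-- Hit flag of row `p` and block `j`. -/
def ht (hit : ℕ → ℕ → Bool) (p j : ℕ) : Bool := if p = 0 then false else hit ((p - 1) / 7) j

/-- First or last block. -/
def fst' (N j : ℕ) : Bool := decide (j = 0 ∨ j + 1 = 2 * N)

/-- Local entry of row `p`, block `j`, local column `ξ` (mirrored coordinates in odd blocks). -/
def lent (N : ℕ) (hit : ℕ → ℕ → Bool) (p j ξ : ℕ) : Option ℤ :=
  entry (rt p) ξ (ht hit p j) (fst' N j)

/-- The table. -/
def tab (N mm : ℕ) (hit : ℕ → ℕ → Bool) : Tab where
  Xr := 82 * N + 16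
  P := 7 * mm + 1
  sh := fun p x =>
    if x < 8 ∨ 8 + 82 * N ≤ x ∨ 7 * mm + 1 ≤ p then none
    else if (x - 8) / 41 % 2 = 0 then lent N hit p ((x - 8) / 41) ((x - 8) % 41)
    else (lent N hit p ((x - 8) / 41) (40 - (x - 8) % 41)).map (fun s => -s)

/-- Satisfiability: block `2 v` is the literal `y v`, block `2 v + 1` its negation; `hit i j` says
that clause `i` contains the literal of block `j`. -/
def CnfSat (N mm : ℕ) (hit : ℕ → ℕ → Bool) : Prop :=
  ∃ y : ℕ → Bool, ∀ i < mm, ∃ v < N, (y v = true ∧ hit i (2 * v) = true) ∨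
    (y v = false ∧ hit i (2 * v + 1) = true)

/-- Mirror image of a state. -/
def St.mir : St → St
  | .S => .S
  | .B => .A
  | .D => .D
  | .A => .B

/-- Column of the local position `ξ` of block `j`. -/
def col (j ξ : ℕ) : ℕ := if j % 2 = 0 then 8 + 41 * j + ξ else 8 + 41 * j + (40 - ξ)

/-- Local state. -/
def loc (st : ℕ → ℕ → St) (p j ξ : ℕ) : St :=
  if j % 2 = 0 then st p (col j ξ) else (st p (col j ξ)).mir

/-- Local shift. -/
def lsh (N : ℕ) (hit : ℕ → ℕ → Bool) (p j ξ : ℕ) : ℤ := (lent N hit p j ξ).getD 0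

/-- A middle position of the deep column is possible. -/
def Free (s s' : ℤ) : Prop :=
  (24 - s) * (24 + s') < 346 ∨ (36 - s) * (12 + s') < 346 ∨ (12 - s) * (36 + s') < 346

/-! ### Windows -/

/-- Even position and level of the column `c` with given state and shift. -/
def evc (c : ℤ) (u : St × ℤ) : ℤ :=
  match u.1 with
  | .S => 24 * c + 12
  | .B => 24 * c + 24
  | .A => 24 * c
  | .D => 24 * c + 12 + u.2

/-- Odd position between the columns `c - 1` (data `u`) and `c` (data `u'`). -/
def odc (c : ℤ) (u u' : St × ℤ) : ℤ :=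
  if u.1 = .S ∨ u'.1 = .S then 24 * c
  else if u.1 = .B then 24 * (c - 1) + 12 + u.2 else 24 * c + 12 + u'.2

/-- Window form of the first check. -/
def W1 (u0 u1 v0 v1 : St × ℤ) : Bool :=
  decide (0 < ori (evc 0 v1) (346 + v1.1.dl) (evc (-1) v0) (346 + v0.1.dl) (odc 0 u0 u1) 0)

/-- Window form of the second check. -/
def W2 (u0 u1 u2 v1 : St × ℤ) : Bool :=
  decide (0 < ori (odc 0 u0 u1) 0 (odc 1 u1 u2) 0 (evc 0 v1) (346 + v1.1.dl))

/-- Parameters of a block. -/
structure Ty where
  sb : Bool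
  sbr : Bool
  x : Bool

/-- Position of the deep column in the long loop of row type 5. -/
def Ty.X (t : Ty) : ℤ :=
  if t.sb then (if t.sbr then 13 else if t.x then 21 else 31) else (if t.x then 13 else 9)

/-- State in a loop `[a, b)` with deep column `d`. -/
def dst (a b d ξ : ℤ) : Option St :=
  if a ≤ ξ ∧ ξ < b then some (if ξ < d then .B else if ξ = d then .D else .A) else none

/-- Local states of the solution. -/
def ls (q : ℕ) (t : Ty) (hit first : Bool) (ξ : ℤ) : St :=
  (if q = 0 then dst 17 41 (if t.x then 41 else 17) ξ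
   else if q = 1 then dst 17 19 (if t.x then 17 else 18) ξ
   else if q = 2 then
     (dst 0 13 (if t.sb then (if first then 0 else -1) else 12) ξ <|>
      dst 17 23 (if t.x then 22 else 17) ξ <|> dst 27 41 (if t.sbr then 27 else 41) ξ)
   else if q = 3 then
     (dst 0 5 (if t.sb then 4 else -1) ξ <|>
      dst (if hit then 13 else 11) 15 (if t.X = 13 then (if hit then 13 else 11) else 14) ξ <|>
      dst 17 19 (if t.x then 17 else 18) ξ <|> dst 21 25 (if t.X = 21 then 21 else 24) ξ <|>
      dst 27 29 (if t.sbr then 28 else 27) ξ <|> dst 38 41 (if t.sbr then 41 else 38) ξ)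
   else if q = 4 then
     (dst (if first then 1 else 0) 3 (if t.sb then (if first then 1 else -1) else 2) ξ <|>
      dst 5 11 (if t.X = 9 then 10 else 5) ξ <|> dst 13 19 (if t.X = 13 then 18 else 13) ξ <|>
      dst 21 29 (if t.X = 21 then 28 else 21) ξ <|> dst 31 40 (if t.X = 31 then 39 else 31) ξ)
   else if q = 5 then
     (dst 1 7 (if t.X = 9 then 1 else 6) ξ <|> dst 9 34 t.X ξ <|>
      dst 36 38 (if t.X = 31 then 36 else 37) ξ)
   else if q = 6 then
     (dst 5 9 (if t.x then 5 else 8) ξ <|> dst 34 38 (if t.X = 31 then 37 else 34) ξ)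
   else if q = 7 then dst 7 36 (if t.x then 35 else 7) ξ
   else none).getD .S

/-- Local column data. -/
def lc (q : ℕ) (t : Ty) (hit first : Bool) (ξ : ℕ) : St × ℤ :=
  (ls q t hit first ξ, (entry q ξ hit first).getD 0)

/-- Mirror image of column data. -/
def mc (u : St × ℤ) : St × ℤ := (u.1.mir, -u.2)

/-- Valid parameters. -/
def Ty.ok (t : Ty) (hit first : Bool) : Bool :=
  (t.sb || t.sbr) && (!first || t.sb) && (!(t.sb && t.sbr) || (hit && t.x))

/-- Row type below row type `q` (`8` is the empty row); `q'` is a possible next row type. -/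
def nxt (q q' : ℕ) : Bool :=
  (decide (q < 7) && decide (q' = q + 1)) || (decide (q = 7) && decide (q' = 1)) ||
    ((decide (q = 7) || decide (q = 0)) && decide (q' = 8))

end Pool.Agent.Helper70.MD
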