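import Pool.Agent.Helper70.MD.HDefs
import Pool.Agent.Helper70.MD.TDefs

/-!
MD-T2a: the rules.

Translation: `ori (c + x1) l1 (c + x2) l2 (c + x3) l3 = ori x1 l1 x2 l2 x3 l3`. Put `c = 24 k`, `s = shift`.
Note `st p k ≠ S ↔ inL p k`; so if `st p (k-1)`, `st p k` are both not `S`, then `intr p k`.
`ruleR`: `od k = 24 k + 12 + s` with `s = shift p k` (`intr`, `st p (k-1) ≠ B`), `ev (p+1) k = 24 k`
(state `A`), not deep. If `st (p+1) (k-1) = D`, `t = shift (p+1) (k-1)`: `ev (p+1) (k-1) = 24 k - 12 + t`,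
deep; `Chk1` says `0 < -(12 - t)(12 + s)(24 + s - t) + (12 - t) 346 - (12 + s) 864`, false for
`|s|, |t| ≤ 6` (it is at most `-1548`; `interval_cases` or `nlinarith`). If `st (p+1)(k-1) = A`:
`ev (p+1) (k-1) = 24 k - 24`, `Chk1` says `(12 + s)(36 + s) < 346`, false for `s ≥ 0`.
`ruleL` is the mirror image: `od k = 24 k - 12 + s`, `s = shift p (k-1)` (`st p (k-1) = B`, `intr`),
`ev (p+1) (k-1) = 24 k`. `st (p+1) k = D`, `t = shift (p+1) k`: `ev = 24 k + 12 + t`, deep: `Chk1` says
`0 < (12 + t) (1210 - (24 - s + t)(12 - s)) - (24 - s + t) 864`, false for `|s|, |t| ≤ 6`.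
`st (p+1) k = B`: `(12 - s)(36 - s) < 346`, false for `s ≤ 0`.
`ruleNM`: `od k = 24 k - 12 + s`, `od (k+1) = 24 k + 36 + s'`. State of `(p+1, k)`: if it is `S`, `B`, `A` then
`Chk2` says `(24 - s)(24 + s') < 346`, `(36 - s)(12 + s') < 346`, `(12 - s)(36 + s') < 346`
respectively. If it is `D`: then not both of `(p+1, k-1)`, `(p+1, k+1)` are `S` (`Good.start`: a loop
starting at `k` has a second column). If `st (p+1) (k-1) ≠ S` it is `B` (`okPair`), and `ruleL` gives a
contradiction; if `st (p+1) (k+1) ≠ S` it is `A`, and `ruleR` at `k+1` gives a contradiction. (If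
`p + 1 = P` all states of row `p + 1` are `S`.)
`ruleE`: `od k = 24 k` (`st p (k-1) = S`), `od (k+1) = 24 k + 36 + s'`, `ev (p+1) k = 24 k + 12`: `Chk2` says
`12 (24 + s') < 346`. `ruleE'`: `od k = 24 k - 12 + s`, `od (k+1) = 24 k + 24`: `(24 - s) 12 < 346`.
`loop_dich`: let the loop be `[a, b)`, `b ≥ a + 2`. `st (a-1) = S`, so `st a ∈ {B, D}`. If `st a = D` then
by `okPair` (no column of the loop is `S`) all later ones are `A`. If `st a = B`: by induction on
`c < b - 1`: `st c = B` implies `st (c+1) ∈ {B, D}`, and if `c + 1 < b - 1` and `st (c+1) = D` then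
`st (c+2) = A` (in the loop), and `ruleNM` at `c + 1` contradicts `hF`. So all are `B` up to `b - 2`, and
`st (b-1) ∈ {B, D}`, `st b = S` excludes `B`.
-/

set_option autoImplicit false

namespace Pool.Agent.Helper70.MD

open Finset

open scoped Classical

namespace Tab

variable {τ : Tab} {st : ℕ → ℕ → St}

theorem ori_shift (c x1 l1 x2 l2 x3 l3 : ℤ) :
    ori (c + x1) l1 (c + x2) l2 (c + x3) l3 = ori x1 l1 x2 l2 x3 l3 := by
  unfold ori; ring

theorem shift_bd (hg : τ.Good) (p h : ℕ) : -6 ≤ τ.shift p h ∧ τ.shift p h ≤ 6 := by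
  unfold Tab.shift
  cases hh : τ.sh p h with
  | none => simp
  | some s => simpa using hg.bound p h s hh

theorem inL_of (hs : τ.Checks st) {p h : ℕ} (h1 : st p h ≠ .S) : τ.inL p h := by
  by_contra hc
  exact h1 ((hs.1.1 p h).2 hc)

theorem ne_S_of (hs : τ.Checks st) {p h : ℕ} (h1 : τ.inL p h) : st p h ≠ .S := fun hc =>
  (hs.1.1 p h).1 hc h1

theorem okp (hs : τ.Checks st) (p h : ℕ) : okPair (st p h) (st p (h + 1)) := hs.1.2 p h

theorem numR1 (s t : ℤ) (h1 : -6 ≤ s) (h2 : s ≤ 6) (h3 : -6 ≤ t) (h4 : t ≤ 6) :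
    ¬ 0 < ori 0 346 (-12 + t) (346 + 864) (12 + s) 0 := by
  interval_cases s <;> interval_cases t <;> simp [ori]

theorem numR2 (s : ℤ) (h1 : 0 ≤ s) (h2 : s ≤ 6) :
    ¬ 0 < ori 0 346 (-24) 346 (12 + s) 0 := by
  interval_cases s <;> simp [ori]

theorem numL1 (s t : ℤ) (h1 : -6 ≤ s) (h2 : s ≤ 6) (h3 : -6 ≤ t) (h4 : t ≤ 6) :
    ¬ 0 < ori (12 + t) (346 + 864) 0 346 (-12 + s) 0 := by
  interval_cases s <;> interval_cases t <;> simp [ori]

theorem numL2 (s : ℤ) (h1 : -6 ≤ s) (h2 : s ≤ 0) :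
    ¬ 0 < ori 24 346 0 346 (-12 + s) 0 := by
  interval_cases s <;> simp [ori]

theorem ruleR (hg : τ.Good) (hs : τ.Checks st) {p k : ℕ} (hp : p < τ.P) (h1 : 1 ≤ k)
    (hk : k < τ.Xr) (h2 : st p (k - 1) = .D ∨ st p (k - 1) = .A) (h3 : st p k = .A)
    (h4 : st (p + 1) k = .A)
    (h5 : st (p + 1) (k - 1) = .D ∨ (st (p + 1) (k - 1) = .A ∧ 0 ≤ τ.shift p k)) : False := by
  have hc := (hs.2 p hp k h1 hk).1
  obtain ⟨j, rfl⟩ : ∃ j, k = j + 1 := ⟨k - 1, by omega⟩
  simp only [Nat.add_sub_cancel] at h2 h5 hc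
  have e1 : τ.intr p (j + 1) := by
    refine ⟨inL_of hs ?_, inL_of hs ?_⟩
    · simp only [Nat.add_sub_cancel]
      rcases h2 with h | h <;> rw [h] <;> decide
    · rw [h3]; decide
  have e2 : st p j ≠ .B := by rcases h2 with h | h <;> rw [h] <;> decide
  have e3 : τ.od st p (j + 1) = 24 * ((j : ℤ) + 1) + (12 + τ.shift p (j + 1)) := by
    unfold Tab.od
    rw [if_pos e1, if_neg (by simpa using e2)]
    push_cast
    ring
  have e4 : τ.ev st (p + 1) (j + 1) = 24 * ((j : ℤ) + 1) + 0 := by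
    unfold Tab.ev
    rw [h4]
    push_cast
    ring
  have b := shift_bd hg p (j + 1)
  unfold Tab.Chk1 at hc
  rw [Nat.add_sub_cancel] at hc
  rcases h5 with h5 | ⟨h5, h6⟩
  · have e5 : τ.ev st (p + 1) j = 24 * ((j : ℤ) + 1) + (-12 + τ.shift (p + 1) j) := by
      unfold Tab.ev
      rw [h5]
      ring
    have b' := shift_bd hg (p + 1) j
    rw [e3, e4, e5, ori_shift, h4, h5] at hc
    exact numR1 _ _ b.1 b.2 b'.1 b'.2 (by simpa [St.dl] using hc)
  · have e5 : τ.ev st (p + 1) j = 24 * ((j : ℤ) + 1) + (-24) := by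
      unfold Tab.ev
      rw [h5]
      ring
    rw [e3, e4, e5, ori_shift, h4, h5] at hc
    exact numR2 _ h6 b.2 (by simpa [St.dl] using hc)

theorem ruleL (hg : τ.Good) (hs : τ.Checks st) {p k : ℕ} (hp : p < τ.P) (h1 : 1 ≤ k)
    (hk : k < τ.Xr) (h2 : st p (k - 1) = .B) (h3 : st p k = .B ∨ st p k = .D)
    (h4 : st (p + 1) (k - 1) = .B)
    (h5 : st (p + 1) k = .D ∨ (st (p + 1) k = .B ∧ τ.shift p (k - 1) ≤ 0)) : False := by
  have hc := (hs.2 p hp k h1 hk).1
  obtain ⟨j, rfl⟩ : ∃ j, k = j + 1 := ⟨k - 1, by omega⟩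
  simp only [Nat.add_sub_cancel] at h2 h4 h5 hc
  have e1 : τ.intr p (j + 1) := by
    refine ⟨inL_of hs ?_, inL_of hs ?_⟩
    · simp only [Nat.add_sub_cancel]
      rw [h2]; decide
    · rcases h3 with h | h <;> rw [h] <;> decide
  have e3 : τ.od st p (j + 1) = 24 * ((j : ℤ) + 1) + (-12 + τ.shift p j) := by
    unfold Tab.od
    rw [if_pos e1, if_pos (by simpa using h2)]
    push_cast
    ring
  have e4 : τ.ev st (p + 1) j = 24 * ((j : ℤ) + 1) + 0 := by
    unfold Tab.ev
    rw [h4]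
    ring
  have b := shift_bd hg p j
  unfold Tab.Chk1 at hc
  rw [Nat.add_sub_cancel] at hc
  rcases h5 with h5 | ⟨h5, h6⟩
  · have e5 : τ.ev st (p + 1) (j + 1) = 24 * ((j : ℤ) + 1) + (12 + τ.shift (p + 1) (j + 1)) := by
      unfold Tab.ev
      rw [h5]
      push_cast
      ring
    have b' := shift_bd hg (p + 1) (j + 1)
    rw [e3, e4, e5, ori_shift, h4, h5] at hc
    exact numL1 _ _ b.1 b.2 b'.1 b'.2 (by simpa [St.dl] using hc)
  · have e5 : τ.ev st (p + 1) (j + 1) = 24 * ((j : ℤ) + 1) + 24 := by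
      unfold Tab.ev
      rw [h5]
      push_cast
      ring
    rw [e3, e4, e5, ori_shift, h4, h5] at hc
    exact numL2 _ b.1 h6 (by simpa [St.dl] using hc)

theorem ruleNM (hg : τ.Good) (hs : τ.Checks st) {p k : ℕ} (hp : p < τ.P) (h1 : 1 ≤ k)
    (hk : k + 1 < τ.Xr) (h2 : st p (k - 1) = .B) (h3 : st p k = .D) (h4 : st p (k + 1) = .A) :
    Free (τ.shift p (k - 1)) (τ.shift p (k + 1)) := by
  have hc := (hs.2 p hp k h1 (by omega)).2
  obtain ⟨j, rfl⟩ : ∃ j, k = j + 1 := ⟨k - 1, by omega⟩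
  simp only [Nat.add_sub_cancel] at h2 ⊢
  have i1 : τ.inL p j := inL_of hs (by rw [h2]; decide)
  have i2 : τ.inL p (j + 1) := inL_of hs (by rw [h3]; decide)
  have i3 : τ.inL p (j + 2) := inL_of hs (by rw [h4]; decide)
  have e1 : τ.od st p (j + 1) = 24 * ((j : ℤ) + 1) + (-12 + τ.shift p j) := by
    unfold Tab.od
    rw [if_pos ⟨by simpa using i1, i2⟩, if_pos (by simpa using h2)]
    push_cast
    ring
  have e2 : τ.od st p (j + 1 + 1) = 24 * ((j : ℤ) + 1) + (36 + τ.shift p (j + 2)) := by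
    unfold Tab.od
    rw [if_pos ⟨by simpa using i2, i3⟩, if_neg (by simp [h3])]
    push_cast
    ring
  have b := shift_bd hg p j
  have b' := shift_bd hg p (j + 2)
  unfold Tab.Chk2 at hc
  rw [e1, e2] at hc
  unfold Free
  show (24 - τ.shift p j) * (24 + τ.shift p (j + 2)) < 346 ∨
    (36 - τ.shift p j) * (12 + τ.shift p (j + 2)) < 346 ∨
    (12 - τ.shift p j) * (36 + τ.shift p (j + 2)) < 346
  cases hu : st (p + 1) (j + 1) with
  | S =>
    have e3 : τ.ev st (p + 1) (j + 1) = 24 * ((j : ℤ) + 1) + 12 := by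
      unfold Tab.ev; rw [hu]; push_cast; ring
    rw [e3, ori_shift, hu] at hc
    generalize τ.shift p j = s at *
    generalize τ.shift p (j + 2) = s' at *
    left
    simp only [ori, St.dl] at hc
    have h7 : 0 < (48 + s' - s) * (346 - (24 - s) * (24 + s')) := by
      have h8 : (48 + s' - s) * (346 - (24 - s) * (24 + s')) =
        (36 + s' - (-12 + s)) * (12 - (-12 + s)) * (12 - (36 + s')) +
          (36 + s' - (-12 + s)) * (346 + 0 - 0) - (12 - (-12 + s)) * (0 - 0) := by ring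
      rw [h8]; exact hc
    have h9 := (mul_pos_iff_of_pos_left (by linarith [b.2, b'.1] : (0:ℤ) < 48 + s' - s)).1 h7
    linarith
  | B =>
    have e3 : τ.ev st (p + 1) (j + 1) = 24 * ((j : ℤ) + 1) + 24 := by
      unfold Tab.ev; rw [hu]; push_cast; ring
    rw [e3, ori_shift, hu] at hc
    generalize τ.shift p j = s at *
    generalize τ.shift p (j + 2) = s' at *
    right; left
    simp only [ori, St.dl] at hc
    have h7 : 0 < (48 + s' - s) * (346 - (36 - s) * (12 + s')) := by
      have h8 : (48 + s' - s) * (346 - (36 - s) * (12 + s')) =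
        (36 + s' - (-12 + s)) * (24 - (-12 + s)) * (24 - (36 + s')) +
          (36 + s' - (-12 + s)) * (346 + 0 - 0) - (24 - (-12 + s)) * (0 - 0) := by ring
      rw [h8]; exact hc
    have h9 := (mul_pos_iff_of_pos_left (by linarith [b.2, b'.1] : (0:ℤ) < 48 + s' - s)).1 h7
    linarith
  | A =>
    have e3 : τ.ev st (p + 1) (j + 1) = 24 * ((j : ℤ) + 1) + 0 := by
      unfold Tab.ev; rw [hu]; push_cast; ring
    rw [e3, ori_shift, hu] at hc
    generalize τ.shift p j = s at *
    generalize τ.shift p (j + 2) = s' at *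
    right; right
    simp only [ori, St.dl] at hc
    have h7 : 0 < (48 + s' - s) * (346 - (12 - s) * (36 + s')) := by
      have h8 : (48 + s' - s) * (346 - (12 - s) * (36 + s')) =
        (36 + s' - (-12 + s)) * (0 - (-12 + s)) * (0 - (36 + s')) +
          (36 + s' - (-12 + s)) * (346 + 0 - 0) - (0 - (-12 + s)) * (0 - 0) := by ring
      rw [h8]; exact hc
    have h9 := (mul_pos_iff_of_pos_left (by linarith [b.2, b'.1] : (0:ℤ) < 48 + s' - s)).1 h7
    linarith
  | D =>
    exfalso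
    have o1 := okp hs (p + 1) j
    have o2 := okp hs (p + 1) (j + 1)
    rw [hu] at o1 o2
    by_cases hS : st (p + 1) j = .S
    · have n1 : τ.sh (p + 1) j = none := by
        by_contra hn
        exact (hs.1.1 (p + 1) j).1 hS hn
      have i4 : τ.inL (p + 1) (j + 1) := inL_of hs (by rw [hu]; decide)
      obtain ⟨s, hsm⟩ := Option.ne_none_iff_exists'.1 i4
      have i5 := (hg.start (p + 1) j s hsm n1).2.2
      have i6 : st (p + 1) (j + 1 + 1) ≠ .S := ne_S_of hs i5
      have i7 : st (p + 1) (j + 1 + 1) = .A := by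
        revert o2 i6
        cases st (p + 1) (j + 1 + 1) <;> simp [okPair]
      exact ruleR hg hs (k := j + 1 + 1) hp (by omega) hk (by left; simpa using h3) h4 i7
        (by left; simpa using hu)
    · have i7 : st (p + 1) j = .B := by
        revert o1 hS
        cases st (p + 1) j <;> simp [okPair]
      exact ruleL hg hs (k := j + 1) hp (by omega) (by omega) (by simpa using h2) (Or.inr h3)
        (by simpa using i7) (Or.inl hu)

theorem ruleE (hg : τ.Good) (hs : τ.Checks st) {p k : ℕ} (hp : p < τ.P) (h1 : 1 ≤ k)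
    (hk : k < τ.Xr) (h2 : st p (k - 1) = .S) (h3 : st p k = .D) (h4 : st p (k + 1) = .A)
    (h5 : st (p + 1) k = .S) : τ.shift p (k + 1) < 5 := by
  have hc := (hs.2 p hp k h1 hk).2
  have i1 : ¬ τ.inL p (k - 1) := (hs.1.1 p (k - 1)).1 h2
  have i2 : τ.inL p k := inL_of hs (by rw [h3]; decide)
  have i3 : τ.inL p (k + 1) := inL_of hs (by rw [h4]; decide)
  have e1 : τ.od st p k = 24 * (k : ℤ) + 0 := by
    unfold Tab.od
    rw [if_neg (fun h => i1 h.1)]
    ring
  have e2 : τ.od st p (k + 1) = 24 * (k : ℤ) + (36 + τ.shift p (k + 1)) := by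
    unfold Tab.od
    rw [if_pos ⟨by simpa using i2, i3⟩, if_neg (by simp [h3])]
    push_cast
    ring
  have e3 : τ.ev st (p + 1) k = 24 * (k : ℤ) + 12 := by
    unfold Tab.ev; rw [h5]
  have b' := shift_bd hg p (k + 1)
  unfold Tab.Chk2 at hc
  rw [e1, e2, e3, ori_shift, h5] at hc
  generalize τ.shift p (k + 1) = s' at *
  simp only [ori, St.dl] at hc
  have h7 : 0 < (36 + s') * (346 - 12 * (24 + s')) := by
    have h8 : (36 + s') * (346 - 12 * (24 + s')) =
      (36 + s' - 0) * (12 - 0) * (12 - (36 + s')) +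
        (36 + s' - 0) * (346 + 0 - 0) - (12 - 0) * (0 - 0) := by ring
    rw [h8]; exact hc
  have h9 := (mul_pos_iff_of_pos_left (by linarith [b'.1] : (0:ℤ) < 36 + s')).1 h7
  omega

theorem ruleE' (hg : τ.Good) (hs : τ.Checks st) {p k : ℕ} (hp : p < τ.P) (h1 : 1 ≤ k)
    (hk : k < τ.Xr) (h2 : st p (k - 1) = .B) (h3 : st p k = .D) (h4 : st p (k + 1) = .S)
    (h5 : st (p + 1) k = .S) : -5 < τ.shift p (k - 1) := by
  have hc := (hs.2 p hp k h1 hk).2
  have i1 : τ.inL p (k - 1) := inL_of hs (by rw [h2]; decide)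
  have i2 : τ.inL p k := inL_of hs (by rw [h3]; decide)
  have i3 : ¬ τ.inL p (k + 1) := (hs.1.1 p (k + 1)).1 h4
  have e1 : τ.od st p k = 24 * (k : ℤ) + (-12 + τ.shift p (k - 1)) := by
    unfold Tab.od
    rw [if_pos ⟨i1, i2⟩, if_pos h2]
    ring
  have e2 : τ.od st p (k + 1) = 24 * (k : ℤ) + 24 := by
    unfold Tab.od
    rw [if_neg (fun h => i3 h.2)]
    push_cast
    ring
  have e3 : τ.ev st (p + 1) k = 24 * (k : ℤ) + 12 := by
    unfold Tab.ev; rw [h5]
  have b' := shift_bd hg p (k - 1)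
  unfold Tab.Chk2 at hc
  rw [e1, e2, e3, ori_shift, h5] at hc
  generalize τ.shift p (k - 1) = s' at *
  simp only [ori, St.dl] at hc
  have h7 : 0 < (36 - s') * (346 - 12 * (24 - s')) := by
    have h8 : (36 - s') * (346 - 12 * (24 - s')) =
      (24 - (-12 + s')) * (12 - (-12 + s')) * (12 - 24) +
        (24 - (-12 + s')) * (346 + 0 - 0) - (12 - (-12 + s')) * (0 - 0) := by ring
    rw [h8]; exact hc
  have h9 := (mul_pos_iff_of_pos_left (by linarith [b'.2] : (0:ℤ) < 36 - s')).1 h7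
  omega

theorem loop_dich (hg : τ.Good) (hs : τ.Checks st) {p a b : ℕ} (hp : p < τ.P) (h1 : 1 ≤ a)
    (h2 : a + 2 ≤ b) (hin : ∀ c, a ≤ c → c < b → τ.inL p c) (ha : ¬ τ.inL p (a - 1))
    (hb : ¬ τ.inL p b)
    (hF : ∀ c, a < c → c + 1 < b → ¬ Free (τ.shift p (c - 1)) (τ.shift p (c + 1))) :
    (st p a = .D ∧ ∀ c, a < c → c < b → st p c = .A) ∨
    (st p (b - 1) = .D ∧ ∀ c, a ≤ c → c + 1 < b → st p c = .B) := by
  have hns : ∀ c, a ≤ c → c < b → st p c ≠ .S := fun c h3 h4 => ne_S_of hs (hin c h3 h4)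
  have hXr : b ≤ τ.Xr := by
    by_contra hcon
    have hcon' := not_le.1 hcon
    have i1 := hin (b - 1) (by omega) (by omega)
    exact i1 (hg.none_right p (b - 1) (by omega))
  have ha' : st p (a - 1) = .S := (hs.1.1 p (a - 1)).2 ha
  have hb' : st p b = .S := (hs.1.1 p b).2 hb
  -- A or D is followed by A
  have hA : ∀ c, a ≤ c → c + 1 < b → (st p c = .D ∨ st p c = .A) → st p (c + 1) = .A := by
    intro c h3 h4 h5
    have o := okp hs p c
    have n := hns (c + 1) (by omega) h4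
    revert o n
    rcases h5 with h5 | h5 <;> rw [h5] <;> cases st p (c + 1) <;> simp [okPair]
  have hBD : ∀ c, a ≤ c → c + 1 < b → st p c = .B → st p (c + 1) = .B ∨ st p (c + 1) = .D := by
    intro c h3 h4 h5
    have o := okp hs p c
    revert o
    rw [h5]
    cases st p (c + 1) <;> simp [okPair]
  have hstart : st p a = .B ∨ st p a = .D := by
    have o := okp hs p (a - 1)
    have n := hns a le_rfl (by omega)
    rw [show a - 1 + 1 = a by omega, ha'] at o
    revert o n
    cases st p a <;> simp [okPair]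
  rcases hstart with hB | hD
  · right
    have hall : ∀ n, a + n + 1 < b → st p (a + n) = .B := by
      intro n
      induction n with
      | zero => intro _; exact hB
      | succ n ih =>
        intro h3
        have h4 := ih (by omega)
        rcases hBD (a + n) (by omega) (by omega) h4 with h5 | h5
        · exact h5
        · exfalso
          have h6 := hA (a + n + 1) (by omega) (by omega) (Or.inl h5)
          have h7 := ruleNM hg hs (k := a + n + 1) hp (by omega) (by omega)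
            (by simpa using h4) h5 h6
          exact hF (a + n + 1) (by omega) (by omega) h7
    refine ⟨?_, fun c h3 h4 => ?_⟩
    · have h4 := hall (b - 2 - a) (by omega)
      rw [show a + (b - 2 - a) = b - 2 by omega] at h4
      rcases hBD (b - 2) (by omega) (by omega) h4 with h5 | h5
      · exfalso
        rw [show b - 2 + 1 = b - 1 by omega] at h5
        have o := okp hs p (b - 1)
        rw [show b - 1 + 1 = b by omega, hb', h5] at o
        exact o
      · rw [show b - 2 + 1 = b - 1 by omega] at h5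
        exact h5
    · have h5 := hall (c - a) (by omega)
      rw [show a + (c - a) = c by omega] at h5
      exact h5
  · left
    refine ⟨hD, ?_⟩
    have hall : ∀ n, a + n + 1 < b → st p (a + n + 1) = .A := by
      intro n
      induction n with
      | zero => intro h3; exact hA a le_rfl h3 (Or.inl hD)
      | succ n ih =>
        intro h3
        exact hA (a + n + 1) (by omega) h3 (Or.inr (ih (by omega)))
    intro c h3 h4
    have h5 := hall (c - a - 1) (by omega)
    rw [show a + (c - a - 1) + 1 = c by omega] at h5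
    exact h5

end Tab

end Pool.Agent.Helper70.MD
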