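import Pool.Agent.Helper70.MD.T2a
import Pool.Agent.Helper70.MD.T1

/-!
MD-T2b: the rules in local coordinates.

For an even block `j < 2 N` the local column `ξ` is the column `8 + 41 j + ξ`, `loc` is `st`, the shift is
`lsh`. For an odd block the local column `ξ` is `8 + 41 j + (40 - ξ)`, `loc` is the mirrored state, and the
shift of the table is `-lsh`. `(tab N mm hit).sh p (col j ξ)` is `lent N hit p j ξ` (even) or its negative
(odd), for `p < 7 mm + 1`, `ξ < 41` (`sh_col`). For `p ≥ 7 mm + 1` all states are `S`.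
`loc_ok`: `okPair a b ↔ okPair b.mir a.mir` (`okPair_mir`). `locR`, `locL`: for even blocks `ruleR`, `ruleL` with
`k = col j ξ`; for odd blocks the local `R` rule is the global `L` rule at `k = col j (ξ - 1)`
`= col j ξ + 1`, and conversely. `locE`: (left end of a loop in local coordinates) `ruleE` or `ruleE'`.
`int_loop`: `loop_dich` for `[col j a, col j b)` in an even block and `[col j b + 1, col j a + 1)`
`= [8 + 41 j + 41 - b, 8 + 41 j + 41 - a)` in an odd block (`Free s s' ↔ Free (-s') (-s)`, `Free_neg`).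
`edge_loop`: the loop starts at local column `0` in block `0` or `2 N - 1`; the neighbouring column is
`7` or `8 + 82 N`, not in a loop.
`right_loop`: `j` even, the loop is `[8 + 41 j + a, 8 + 41 (j+1) + 41 - a)`; for the column
`c` with local coordinate `ξ` in the interior of the block the condition is the hypothesis `hF`; for the
columns `ξ = 40` of both blocks it is `hB`. `left_loop`: `j` odd, `j + 1` even, the loop is
`[8 + 41 j + 41 - b, 8 + 41 (j+1) + b)`. In both cases `loop_dich` and translation of the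
conclusion to local coordinates (`mir` exchanges `A` and `B`).
-/

set_option autoImplicit false

namespace Pool.Agent.Helper70.MD

open Finset

open scoped Classical

variable {N mm : ℕ} {hit : ℕ → ℕ → Bool} {st : ℕ → ℕ → St}

/-! ### Local coordinates -/

theorem t2b_mir_eq {a b : St} : a.mir = b ↔ a = b.mir := by
  cases a <;> cases b <;> simp [St.mir]

theorem okPair_mir (a b : St) : okPair b.mir a.mir ↔ okPair a b := by
  cases a <;> cases b <;> simp [okPair, St.mir]

theorem Free_neg (s s' : ℤ) : Free (-s') (-s) ↔ Free s s' := by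
  have e1 : (24 - -s') * (24 + -s) = (24 - s) * (24 + s') := by ring
  have e2 : (36 - -s') * (12 + -s) = (12 - s) * (36 + s') := by ring
  have e3 : (12 - -s') * (36 + -s) = (36 - s) * (12 + s') := by ring
  unfold Free
  rw [e1, e2, e3]
  tauto

theorem t2b_even {j ξ : ℕ} (h : j % 2 = 0) : col j ξ = 8 + 41 * j + ξ := by
  unfold col; rw [if_pos h]

theorem t2b_odd {j ξ : ℕ} (h : j % 2 = 1) : col j ξ = 8 + 41 * j + (40 - ξ) := by
  unfold col; rw [if_neg (by omega)]

theorem t2b_col_lt {j ξ : ℕ} (hj : j < 2 * N) (hξ : ξ < 41) : col j ξ < 8 + 82 * N := by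
  unfold col; split_ifs <;> omega

theorem t2b_col_ge {j ξ : ℕ} : 8 ≤ col j ξ := by
  unfold col; split_ifs <;> omega

theorem t2b_sh_even {p j ξ : ℕ} (hp : p < 7 * mm + 1) (hj : j < 2 * N) (hξ : ξ < 41)
    (h : j % 2 = 0) : (tab N mm hit).sh p (col j ξ) = lent N hit p j ξ := by
  rw [t2b_even h]
  unfold tab
  simp only
  have h1 : (8 + 41 * j + ξ - 8) / 41 = j := by omega
  have h2 : (8 + 41 * j + ξ - 8) % 41 = ξ := by omega
  rw [if_neg (by omega), h1, h2, if_pos h]

theorem t2b_sh_odd {p j ξ : ℕ} (hp : p < 7 * mm + 1) (hj : j < 2 * N) (hξ : ξ < 41)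
    (h : j % 2 = 1) :
    (tab N mm hit).sh p (col j ξ) = (lent N hit p j ξ).map (fun s => -s) := by
  rw [t2b_odd h]
  unfold tab
  simp only
  have h1 : (8 + 41 * j + (40 - ξ) - 8) / 41 = j := by omega
  have h2 : 40 - (8 + 41 * j + (40 - ξ) - 8) % 41 = ξ := by omega
  rw [if_neg (by omega), h1, h2, if_neg (by omega)]

theorem t2b_inL {p j ξ : ℕ} (hp : p < 7 * mm + 1) (hj : j < 2 * N) (hξ : ξ < 41) :
    (tab N mm hit).inL p (col j ξ) ↔ lent N hit p j ξ ≠ none := by
  unfold Tab.inL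
  rcases Nat.mod_two_eq_zero_or_one j with h | h
  · rw [t2b_sh_even hp hj hξ h]
  · rw [t2b_sh_odd hp hj hξ h]
    simp

theorem t2b_shift_even {p j ξ : ℕ} (hp : p < 7 * mm + 1) (hj : j < 2 * N) (hξ : ξ < 41)
    (h : j % 2 = 0) : (tab N mm hit).shift p (col j ξ) = lsh N hit p j ξ := by
  unfold Tab.shift lsh
  rw [t2b_sh_even hp hj hξ h]

theorem t2b_shift_odd {p j ξ : ℕ} (hp : p < 7 * mm + 1) (hj : j < 2 * N) (hξ : ξ < 41)
    (h : j % 2 = 1) : (tab N mm hit).shift p (col j ξ) = -lsh N hit p j ξ := by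
  unfold Tab.shift lsh
  rw [t2b_sh_odd hp hj hξ h]
  cases lent N hit p j ξ <;> simp

theorem t2b_loc_even {p j ξ : ℕ} (h : j % 2 = 0) : loc st p j ξ = st p (col j ξ) := by
  unfold loc; rw [if_pos h]

theorem t2b_loc_odd {p j ξ : ℕ} (h : j % 2 = 1) : loc st p j ξ = (st p (col j ξ)).mir := by
  unfold loc; rw [if_neg (by omega)]

/-- Value of a state in an odd block. -/
theorem t2b_st_odd {p j ξ : ℕ} {u : St} (h : j % 2 = 1) (h' : loc st p j ξ = u) :
    st p (col j ξ) = u.mir := by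
  rw [t2b_loc_odd h] at h'
  exact t2b_mir_eq.1 h'

theorem t2b_st_even {p j ξ : ℕ} {u : St} (h : j % 2 = 0) (h' : loc st p j ξ = u) :
    st p (col j ξ) = u := by
  rw [t2b_loc_even h] at h'
  exact h'

theorem loc_S (hN : 1 ≤ N) (hs : (tab N mm hit).Checks st) {p j ξ : ℕ} (hp : p < 7 * mm + 1)
    (hj : j < 2 * N) (hξ : ξ < 41) : loc st p j ξ = .S ↔ lent N hit p j ξ = none := by
  have h1 : st p (col j ξ) = .S ↔ lent N hit p j ξ = none := by
    rw [hs.1.1 p (col j ξ), t2b_inL hp hj hξ, not_not]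
  rcases Nat.mod_two_eq_zero_or_one j with h | h
  · rw [t2b_loc_even h, h1]
  · rw [t2b_loc_odd h, t2b_mir_eq, ← h1]
    rfl

theorem loc_ok (hN : 1 ≤ N) (hs : (tab N mm hit).Checks st) {p j ξ : ℕ}
    (hξ : ξ < 40) : okPair (loc st p j ξ) (loc st p j (ξ + 1)) := by
  rcases Nat.mod_two_eq_zero_or_one j with h | h
  · rw [t2b_loc_even h, t2b_loc_even h]
    have e : col j (ξ + 1) = col j ξ + 1 := by
      rw [t2b_even h, t2b_even h]; omega
    rw [e]
    exact hs.1.2 p _
  · rw [t2b_loc_odd h, t2b_loc_odd h, okPair_mir]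
    have e : col j ξ = col j (ξ + 1) + 1 := by
      rw [t2b_odd h, t2b_odd h]; omega
    rw [e]
    exact hs.1.2 p _

theorem locR (hN : 1 ≤ N) (hs : (tab N mm hit).Checks st) {p j ξ : ℕ} (hp : p < 7 * mm + 1)
    (hj : j < 2 * N) (h1 : 1 ≤ ξ) (hξ : ξ < 41)
    (h2 : loc st p j (ξ - 1) = .D ∨ loc st p j (ξ - 1) = .A) (h3 : loc st p j ξ = .A)
    (h4 : loc st (p + 1) j ξ = .A)
    (h5 : loc st (p + 1) j (ξ - 1) = .D ∨
      (loc st (p + 1) j (ξ - 1) = .A ∧ 0 ≤ lsh N hit p j ξ)) : False := by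
  have hg := tab_good hN mm hit
  rcases Nat.mod_two_eq_zero_or_one j with h | h
  · have e : col j ξ - 1 = col j (ξ - 1) := by
      rw [t2b_even h, t2b_even h]; omega
    have hk : col j ξ < (tab N mm hit).Xr := by
      have := t2b_col_lt hj hξ
      show col j ξ < 82 * N + 16
      omega
    refine Tab.ruleR hg hs hp (k := col j ξ) (by have := t2b_col_ge (j := j) (ξ := ξ); omega) hk
      ?_ (t2b_st_even h h3) (t2b_st_even h h4) ?_
    · rw [e]
      rcases h2 with h2 | h2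
      · exact Or.inl (t2b_st_even h h2)
      · exact Or.inr (t2b_st_even h h2)
    · rw [e, t2b_shift_even hp hj hξ h]
      rcases h5 with h5 | h5
      · exact Or.inl (t2b_st_even h h5)
      · exact Or.inr ⟨t2b_st_even h h5.1, h5.2⟩
  · have e : col j (ξ - 1) - 1 = col j ξ := by
      rw [t2b_odd h, t2b_odd h]; omega
    have hk : col j (ξ - 1) < (tab N mm hit).Xr := by
      have := t2b_col_lt (ξ := ξ - 1) hj (by omega)
      show col j (ξ - 1) < 82 * N + 16
      omega
    refine Tab.ruleL hg hs hp (k := col j (ξ - 1))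
      (by have := t2b_col_ge (j := j) (ξ := ξ - 1); omega) hk ?_ ?_ ?_ ?_
    · rw [e]; exact t2b_st_odd h h3
    · rcases h2 with h2 | h2
      · exact Or.inr (t2b_st_odd h h2)
      · exact Or.inl (t2b_st_odd h h2)
    · rw [e]; exact t2b_st_odd h h4
    · rw [e, t2b_shift_odd hp hj hξ h]
      rcases h5 with h5 | h5
      · exact Or.inl (t2b_st_odd h h5)
      · exact Or.inr ⟨t2b_st_odd h h5.1, by linarith [h5.2]⟩

theorem locL (hN : 1 ≤ N) (hs : (tab N mm hit).Checks st) {p j ξ : ℕ} (hp : p < 7 * mm + 1)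
    (hj : j < 2 * N) (h1 : 1 ≤ ξ) (hξ : ξ < 41)
    (h2 : loc st p j (ξ - 1) = .B) (h3 : loc st p j ξ = .B ∨ loc st p j ξ = .D)
    (h4 : loc st (p + 1) j (ξ - 1) = .B)
    (h5 : loc st (p + 1) j ξ = .D ∨
      (loc st (p + 1) j ξ = .B ∧ lsh N hit p j (ξ - 1) ≤ 0)) : False := by
  have hg := tab_good hN mm hit
  rcases Nat.mod_two_eq_zero_or_one j with h | h
  · have e : col j ξ - 1 = col j (ξ - 1) := by
      rw [t2b_even h, t2b_even h]; omega
    have hk : col j ξ < (tab N mm hit).Xr := by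
      have := t2b_col_lt hj hξ
      show col j ξ < 82 * N + 16
      omega
    refine Tab.ruleL hg hs hp (k := col j ξ) (by have := t2b_col_ge (j := j) (ξ := ξ); omega) hk
      ?_ ?_ ?_ ?_
    · rw [e]; exact t2b_st_even h h2
    · rcases h3 with h3 | h3
      · exact Or.inl (t2b_st_even h h3)
      · exact Or.inr (t2b_st_even h h3)
    · rw [e]; exact t2b_st_even h h4
    · rw [e, t2b_shift_even hp hj (by omega) h]
      rcases h5 with h5 | h5
      · exact Or.inl (t2b_st_even h h5)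
      · exact Or.inr ⟨t2b_st_even h h5.1, h5.2⟩
  · have e : col j (ξ - 1) - 1 = col j ξ := by
      rw [t2b_odd h, t2b_odd h]; omega
    have hk : col j (ξ - 1) < (tab N mm hit).Xr := by
      have := t2b_col_lt (ξ := ξ - 1) hj (by omega)
      show col j (ξ - 1) < 82 * N + 16
      omega
    refine Tab.ruleR hg hs hp (k := col j (ξ - 1))
      (by have := t2b_col_ge (j := j) (ξ := ξ - 1); omega) hk ?_ (t2b_st_odd h h2)
      (t2b_st_odd h h4) ?_
    · rw [e]
      rcases h3 with h3 | h3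
      · exact Or.inr (t2b_st_odd h h3)
      · exact Or.inl (t2b_st_odd h h3)
    · rw [e, t2b_shift_odd hp hj (by omega) h]
      rcases h5 with h5 | h5
      · exact Or.inl (t2b_st_odd h h5)
      · exact Or.inr ⟨t2b_st_odd h h5.1, by linarith [h5.2]⟩

theorem locNM (hN : 1 ≤ N) (hs : (tab N mm hit).Checks st) {p j ξ : ℕ} (hp : p < 7 * mm + 1)
    (hj : j < 2 * N) (h1 : 1 ≤ ξ) (hξ : ξ < 40)
    (h2 : loc st p j (ξ - 1) = .B) (h3 : loc st p j ξ = .D) (h4 : loc st p j (ξ + 1) = .A) :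
    Free (lsh N hit p j (ξ - 1)) (lsh N hit p j (ξ + 1)) := by
  have hg := tab_good hN mm hit
  have hk : col j ξ + 1 < (tab N mm hit).Xr := by
    have := t2b_col_lt (ξ := ξ) hj (by omega)
    show col j ξ + 1 < 82 * N + 16
    omega
  have hk1 : 1 ≤ col j ξ := by have := t2b_col_ge (j := j) (ξ := ξ); omega
  rcases Nat.mod_two_eq_zero_or_one j with h | h
  · have e : col j ξ - 1 = col j (ξ - 1) := by
      rw [t2b_even h, t2b_even h]; omega
    have e' : col j ξ + 1 = col j (ξ + 1) := by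
      rw [t2b_even h, t2b_even h]; omega
    have key := Tab.ruleNM hg hs hp (k := col j ξ) hk1 hk
      (by rw [e]; exact t2b_st_even h h2) (t2b_st_even h h3) (by rw [e']; exact t2b_st_even h h4)
    rw [e, e', t2b_shift_even hp hj (by omega) h, t2b_shift_even hp hj (by omega) h] at key
    exact key
  · have e : col j ξ - 1 = col j (ξ + 1) := by
      rw [t2b_odd h, t2b_odd h]; omega
    have e' : col j ξ + 1 = col j (ξ - 1) := by
      rw [t2b_odd h, t2b_odd h]; omega
    have key := Tab.ruleNM hg hs hp (k := col j ξ) hk1 hk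
      (by rw [e]; exact t2b_st_odd h h4) (t2b_st_odd h h3) (by rw [e']; exact t2b_st_odd h h2)
    rw [e, e', t2b_shift_odd hp hj (by omega) h, t2b_shift_odd hp hj (by omega) h, Free_neg] at key
    exact key

/-- The end rule at the right end of a loop (local coordinates). -/
theorem locE' (hN : 1 ≤ N) (hs : (tab N mm hit).Checks st) {p j ξ : ℕ} (hp : p < 7 * mm + 1)
    (hj : j < 2 * N) (h1 : 1 ≤ ξ) (hξ : ξ < 40)
    (h2 : loc st p j (ξ - 1) = .B) (h3 : loc st p j ξ = .D) (h4 : loc st p j (ξ + 1) = .S)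
    (h5 : loc st (p + 1) j ξ = .S) : -5 < lsh N hit p j (ξ - 1) := by
  have hg := tab_good hN mm hit
  have hk : col j ξ < (tab N mm hit).Xr := by
    have := t2b_col_lt (ξ := ξ) hj (by omega)
    show col j ξ < 82 * N + 16
    omega
  have hk1 : 1 ≤ col j ξ := by have := t2b_col_ge (j := j) (ξ := ξ); omega
  rcases Nat.mod_two_eq_zero_or_one j with h | h
  · have e : col j ξ - 1 = col j (ξ - 1) := by
      rw [t2b_even h, t2b_even h]; omega
    have e' : col j ξ + 1 = col j (ξ + 1) := by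
      rw [t2b_even h, t2b_even h]; omega
    have key := Tab.ruleE' hg hs hp (k := col j ξ) hk1 hk
      (by rw [e]; exact t2b_st_even h h2) (t2b_st_even h h3) (by rw [e']; exact t2b_st_even h h4)
      (t2b_st_even h h5)
    rw [e, t2b_shift_even hp hj (by omega) h] at key
    exact key
  · have e : col j ξ - 1 = col j (ξ + 1) := by
      rw [t2b_odd h, t2b_odd h]; omega
    have e' : col j ξ + 1 = col j (ξ - 1) := by
      rw [t2b_odd h, t2b_odd h]; omega
    have key := Tab.ruleE hg hs hp (k := col j ξ) hk1 hk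
      (by rw [e]; exact t2b_st_odd h h4) (t2b_st_odd h h3) (by rw [e']; exact t2b_st_odd h h2)
      (t2b_st_odd h h5)
    rw [e', t2b_shift_odd hp hj (by omega) h] at key
    linarith

/-- columns left and right of the blocks -/
theorem t2b_left {p : ℕ} : ¬ (tab N mm hit).inL p 7 := by
  unfold Tab.inL tab
  simp

theorem t2b_right {p x : ℕ} (hx : x = 8 + 82 * N) : ¬ (tab N mm hit).inL p x := by
  unfold Tab.inL tab
  simp only [ne_eq, not_not]
  rw [if_pos]
  omega

/-- The end rule at local column 0 of the first and last block. -/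
theorem locE0 (hN : 1 ≤ N) (hs : (tab N mm hit).Checks st) {p j : ℕ} (hp : p < 7 * mm + 1)
    (hj : j = 0 ∨ j + 1 = 2 * N) (h3 : loc st p j 0 = .D) (h4 : loc st p j 1 = .A)
    (h5 : loc st (p + 1) j 0 = .S) : lsh N hit p j 1 < 5 := by
  have hg := tab_good hN mm hit
  have hj2 : j < 2 * N := by omega
  have hk : col j 0 < (tab N mm hit).Xr := by
    have := t2b_col_lt (ξ := 0) hj2 (by omega)
    show col j 0 < 82 * N + 16
    omega
  have hk1 : 1 ≤ col j 0 := by have := t2b_col_ge (j := j) (ξ := 0); omega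
  rcases hj with hj | hj
  · have h : j % 2 = 0 := by omega
    have e : col j 0 - 1 = 7 := by
      rw [t2b_even h]; omega
    have e' : col j 0 + 1 = col j 1 := by
      rw [t2b_even h, t2b_even h]
    have key := Tab.ruleE hg hs hp (k := col j 0) hk1 hk
      (by rw [e]; exact (hs.1.1 p 7).2 t2b_left) (t2b_st_even h h3)
      (by rw [e']; exact t2b_st_even h h4) (t2b_st_even h h5)
    rw [e', t2b_shift_even hp hj2 (by omega) h] at key
    exact key
  · have h : j % 2 = 1 := by omega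
    have e : col j 0 + 1 = 8 + 82 * N := by
      rw [t2b_odd h]; omega
    have e' : col j 0 - 1 = col j 1 := by
      rw [t2b_odd h, t2b_odd h]; omega
    have key := Tab.ruleE' hg hs hp (k := col j 0) hk1 hk
      (by rw [e']; exact t2b_st_odd h h4) (t2b_st_odd h h3)
      (by rw [e]; exact (hs.1.1 p _).2 (t2b_right rfl)) (t2b_st_odd h h5)
    rw [e', t2b_shift_odd hp hj2 (by omega) h] at key
    linarith

theorem int_loop (hN : 1 ≤ N) (hs : (tab N mm hit).Checks st) {p j a b : ℕ}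
    (hp : p < 7 * mm + 1) (hj : j < 2 * N) (h1 : 1 ≤ a) (h2 : a + 2 ≤ b) (h3 : b ≤ 40)
    (hin : ∀ ξ, a ≤ ξ → ξ < b → lent N hit p j ξ ≠ none) (ha : lent N hit p j (a - 1) = none)
    (hb : lent N hit p j b = none)
    (hF : ∀ ξ, a < ξ → ξ + 1 < b → ¬ Free (lsh N hit p j (ξ - 1)) (lsh N hit p j (ξ + 1))) :
    (loc st p j a = .D ∧ ∀ ξ, a < ξ → ξ < b → loc st p j ξ = .A) ∨
    (loc st p j (b - 1) = .D ∧ ∀ ξ, a ≤ ξ → ξ + 1 < b → loc st p j ξ = .B) := by
  have hg := tab_good hN mm hit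
  rcases Nat.mod_two_eq_zero_or_one j with h | h
  · have hc : ∀ c, 8 + 41 * j ≤ c → c = col j (c - (8 + 41 * j)) := by
      intro c hc
      rw [t2b_even h]; omega
    have key := Tab.loop_dich hg hs hp (a := 8 + 41 * j + a) (b := 8 + 41 * j + b) (by omega)
      (by omega) ?_ ?_ ?_ ?_
    · rcases key with ⟨k1, k2⟩ | ⟨k1, k2⟩
      · left
        refine ⟨?_, fun ξ x1 x2 => ?_⟩
        · rw [t2b_loc_even h, t2b_even h]; exact k1
        · rw [t2b_loc_even h, t2b_even h]; exact k2 _ (by omega) (by omega)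
      · right
        refine ⟨?_, fun ξ x1 x2 => ?_⟩
        · rw [t2b_loc_even h, t2b_even h]
          rw [show 8 + 41 * j + (b - 1) = 8 + 41 * j + b - 1 by omega]
          exact k1
        · rw [t2b_loc_even h, t2b_even h]; exact k2 _ (by omega) (by omega)
    · intro c c1 c2
      rw [hc c (by omega), t2b_inL hp hj (by omega)]
      exact hin _ (by omega) (by omega)
    · rw [hc (8 + 41 * j + a - 1) (by omega), t2b_inL hp hj (by omega), not_not]
      rw [show 8 + 41 * j + a - 1 - (8 + 41 * j) = a - 1 by omega]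
      exact ha
    · rw [hc (8 + 41 * j + b) (by omega), t2b_inL hp hj (by omega), not_not]
      rw [show 8 + 41 * j + b - (8 + 41 * j) = b by omega]
      exact hb
    · intro c c1 c2
      obtain ⟨ξ, rfl⟩ : ∃ ξ, c = 8 + 41 * j + ξ := ⟨c - (8 + 41 * j), by omega⟩
      have e1 : 8 + 41 * j + ξ - 1 = col j (ξ - 1) := by rw [t2b_even h]; omega
      have e2 : 8 + 41 * j + ξ + 1 = col j (ξ + 1) := by rw [t2b_even h]; omega
      rw [e1, e2, t2b_shift_even hp hj (by omega) h, t2b_shift_even hp hj (by omega) h]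
      exact hF ξ (by omega) (by omega)
  · have key := Tab.loop_dich hg hs hp (a := 8 + 41 * j + (41 - b)) (b := 8 + 41 * j + (41 - a))
      (by omega) (by omega) ?_ ?_ ?_ ?_
    · rcases key with ⟨k1, k2⟩ | ⟨k1, k2⟩
      · right
        refine ⟨?_, fun ξ x1 x2 => ?_⟩
        · rw [t2b_loc_odd h, t2b_odd h, show 40 - (b - 1) = 41 - b by omega, k1]
          rfl
        · rw [t2b_loc_odd h, t2b_odd h, k2 _ (by omega) (by omega)]
          rfl
      · left
        refine ⟨?_, fun ξ x1 x2 => ?_⟩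
        · rw [t2b_loc_odd h, t2b_odd h]
          rw [show 8 + 41 * j + (40 - a) = 8 + 41 * j + (41 - a) - 1 by omega, k1]
          rfl
        · rw [t2b_loc_odd h, t2b_odd h, k2 _ (by omega) (by omega)]
          rfl
    · intro c c1 c2
      have e : c = col j (8 + 41 * j + 40 - c) := by rw [t2b_odd h]; omega
      rw [e, t2b_inL hp hj (by omega)]
      exact hin _ (by omega) (by omega)
    · have e : 8 + 41 * j + (41 - b) - 1 = col j b := by rw [t2b_odd h]; omega
      rw [e, t2b_inL hp hj (by omega), not_not]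
      exact hb
    · have e : 8 + 41 * j + (41 - a) = col j (a - 1) := by rw [t2b_odd h]; omega
      rw [e, t2b_inL hp hj (by omega), not_not]
      exact ha
    · intro c c1 c2
      obtain ⟨ξ, hξ, rfl⟩ : ∃ ξ, (a < ξ ∧ ξ + 1 < b) ∧ c = 8 + 41 * j + (40 - ξ) :=
        ⟨8 + 41 * j + 40 - c, ⟨by omega, by omega⟩, by omega⟩
      have e1 : 8 + 41 * j + (40 - ξ) - 1 = col j (ξ + 1) := by rw [t2b_odd h]; omega
      have e2 : 8 + 41 * j + (40 - ξ) + 1 = col j (ξ - 1) := by rw [t2b_odd h]; omega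
      rw [e1, e2, t2b_shift_odd hp hj (by omega) h, t2b_shift_odd hp hj (by omega) h, Free_neg]
      exact hF ξ hξ.1 hξ.2

theorem edge_loop (hN : 1 ≤ N) (hs : (tab N mm hit).Checks st) {p j b : ℕ}
    (hp : p < 7 * mm + 1) (hj : j = 0 ∨ j + 1 = 2 * N) (h2 : 2 ≤ b) (h3 : b ≤ 40)
    (hin : ∀ ξ, ξ < b → lent N hit p j ξ ≠ none)
    (hb : lent N hit p j b = none)
    (hF : ∀ ξ, 0 < ξ → ξ + 1 < b → ¬ Free (lsh N hit p j (ξ - 1)) (lsh N hit p j (ξ + 1))) :
    (loc st p j 0 = .D ∧ ∀ ξ, 0 < ξ → ξ < b → loc st p j ξ = .A) ∨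
    (loc st p j (b - 1) = .D ∧ ∀ ξ, ξ + 1 < b → loc st p j ξ = .B) := by
  have hg := tab_good hN mm hit
  have hj2 : j < 2 * N := by omega
  rcases hj with hj | hj
  · have h : j % 2 = 0 := by omega
    have key := Tab.loop_dich hg hs hp (a := 8 + 41 * j) (b := 8 + 41 * j + b) (by omega)
      (by omega) ?_ ?_ ?_ ?_
    · rcases key with ⟨k1, k2⟩ | ⟨k1, k2⟩
      · left
        refine ⟨?_, fun ξ x1 x2 => ?_⟩
        · rw [t2b_loc_even h, t2b_even h]; exact k1
        · rw [t2b_loc_even h, t2b_even h]; exact k2 _ (by omega) (by omega)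
      · right
        refine ⟨?_, fun ξ x2 => ?_⟩
        · rw [t2b_loc_even h, t2b_even h]
          rw [show 8 + 41 * j + (b - 1) = 8 + 41 * j + b - 1 by omega]
          exact k1
        · rw [t2b_loc_even h, t2b_even h]; exact k2 _ (by omega) (by omega)
    · intro c c1 c2
      have e : c = col j (c - (8 + 41 * j)) := by rw [t2b_even h]; omega
      rw [e, t2b_inL hp hj2 (by omega)]
      exact hin _ (by omega)
    · have e : 8 + 41 * j - 1 = 7 := by omega
      rw [e]
      exact t2b_left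
    · have e : 8 + 41 * j + b = col j b := by rw [t2b_even h]
      rw [e, t2b_inL hp hj2 (by omega), not_not]
      exact hb
    · intro c c1 c2
      obtain ⟨ξ, rfl⟩ : ∃ ξ, c = 8 + 41 * j + ξ := ⟨c - (8 + 41 * j), by omega⟩
      have e1 : 8 + 41 * j + ξ - 1 = col j (ξ - 1) := by rw [t2b_even h]; omega
      have e2 : 8 + 41 * j + ξ + 1 = col j (ξ + 1) := by rw [t2b_even h]; omega
      rw [e1, e2, t2b_shift_even hp hj2 (by omega) h, t2b_shift_even hp hj2 (by omega) h]
      exact hF ξ (by omega) (by omega)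
  · have h : j % 2 = 1 := by omega
    have key := Tab.loop_dich hg hs hp (a := 8 + 41 * j + (41 - b)) (b := 8 + 41 * j + 41)
      (by omega) (by omega) ?_ ?_ ?_ ?_
    · rcases key with ⟨k1, k2⟩ | ⟨k1, k2⟩
      · right
        refine ⟨?_, fun ξ x2 => ?_⟩
        · rw [t2b_loc_odd h, t2b_odd h, show 40 - (b - 1) = 41 - b by omega, k1]
          rfl
        · rw [t2b_loc_odd h, t2b_odd h, k2 _ (by omega) (by omega)]
          rfl
      · left
        refine ⟨?_, fun ξ x1 x2 => ?_⟩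
        · rw [t2b_loc_odd h, t2b_odd h]
          rw [show 8 + 41 * j + (40 - 0) = 8 + 41 * j + 41 - 1 by omega, k1]
          rfl
        · rw [t2b_loc_odd h, t2b_odd h, k2 _ (by omega) (by omega)]
          rfl
    · intro c c1 c2
      have e : c = col j (8 + 41 * j + 40 - c) := by rw [t2b_odd h]; omega
      rw [e, t2b_inL hp hj2 (by omega)]
      exact hin _ (by omega)
    · have e : 8 + 41 * j + (41 - b) - 1 = col j b := by rw [t2b_odd h]; omega
      rw [e, t2b_inL hp hj2 (by omega), not_not]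
      exact hb
    · exact t2b_right (by omega)
    · intro c c1 c2
      obtain ⟨ξ, hξ, rfl⟩ : ∃ ξ, (0 < ξ ∧ ξ + 1 < b) ∧ c = 8 + 41 * j + (40 - ξ) :=
        ⟨8 + 41 * j + 40 - c, ⟨by omega, by omega⟩, by omega⟩
      have e1 : 8 + 41 * j + (40 - ξ) - 1 = col j (ξ + 1) := by rw [t2b_odd h]; omega
      have e2 : 8 + 41 * j + (40 - ξ) + 1 = col j (ξ - 1) := by rw [t2b_odd h]; omega
      rw [e1, e2, t2b_shift_odd hp hj2 (by omega) h, t2b_shift_odd hp hj2 (by omega) h, Free_neg]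
      exact hF ξ hξ.1 hξ.2

theorem right_loop (hN : 1 ≤ N) (hs : (tab N mm hit).Checks st) {p j a : ℕ}
    (hp : p < 7 * mm + 1) (hj : j + 1 < 2 * N) (hj2 : j % 2 = 0) (h1 : 1 ≤ a) (h3 : a ≤ 39)
    (hin : ∀ ξ, a ≤ ξ → ξ < 41 → lent N hit p j ξ ≠ none ∧ lent N hit p (j + 1) ξ ≠ none)
    (ha : lent N hit p j (a - 1) = none ∧ lent N hit p (j + 1) (a - 1) = none)
    (hF : ∀ ξ, a < ξ → ξ < 40 → ¬ Free (lsh N hit p j (ξ - 1)) (lsh N hit p j (ξ + 1)) ∧
      ¬ Free (lsh N hit p (j + 1) (ξ - 1)) (lsh N hit p (j + 1) (ξ + 1)))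
    (hB : ¬ Free (lsh N hit p j 39) (-lsh N hit p (j + 1) 40) ∧
      ¬ Free (lsh N hit p j 40) (-lsh N hit p (j + 1) 39)) :
    (loc st p j a = .D ∧ (∀ ξ, a < ξ → ξ < 41 → loc st p j ξ = .A) ∧
      ∀ ξ, a ≤ ξ → ξ < 41 → loc st p (j + 1) ξ = .B) ∨
    (loc st p (j + 1) a = .D ∧ (∀ ξ, a < ξ → ξ < 41 → loc st p (j + 1) ξ = .A) ∧
      ∀ ξ, a ≤ ξ → ξ < 41 → loc st p j ξ = .B) := by
  have hg := tab_good hN mm hit
  have he : j % 2 = 0 := hj2
  have ho : (j + 1) % 2 = 1 := by omega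
  have hj' : j < 2 * N := by omega
  have cE : ∀ ξ, col j ξ = 8 + 41 * j + ξ := fun ξ => t2b_even he
  have cO : ∀ ξ, col (j + 1) ξ = 8 + 41 * (j + 1) + (40 - ξ) := fun ξ => t2b_odd ho
  have key := Tab.loop_dich hg hs hp (a := 8 + 41 * j + a) (b := 8 + 41 * (j + 1) + (41 - a))
    (by omega) (by omega) ?_ ?_ ?_ ?_
  · rcases key with ⟨k1, k2⟩ | ⟨k1, k2⟩
    · left
      refine ⟨?_, fun ξ x1 x2 => ?_, fun ξ x1 x2 => ?_⟩
      · rw [t2b_loc_even he, cE]; exact k1
      · rw [t2b_loc_even he, cE]; exact k2 _ (by omega) (by omega)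
      · rw [t2b_loc_odd ho, cO, k2 _ (by omega) (by omega)]; rfl
    · right
      refine ⟨?_, fun ξ x1 x2 => ?_, fun ξ x1 x2 => ?_⟩
      · rw [t2b_loc_odd ho, cO,
          show 8 + 41 * (j + 1) + (40 - a) = 8 + 41 * (j + 1) + (41 - a) - 1 by omega, k1]
        rfl
      · rw [t2b_loc_odd ho, cO, k2 _ (by omega) (by omega)]; rfl
      · rw [t2b_loc_even he, cE]; exact k2 _ (by omega) (by omega)
  · intro c c1 c2
    rcases Nat.lt_or_ge c (8 + 41 * (j + 1)) with hc | hc
    · have e : c = col j (c - (8 + 41 * j)) := by rw [cE]; omega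
      rw [e, t2b_inL hp hj' (by omega)]
      exact (hin _ (by omega) (by omega)).1
    · have e : c = col (j + 1) (8 + 41 * (j + 1) + 40 - c) := by rw [cO]; omega
      rw [e, t2b_inL hp hj (by omega)]
      exact (hin _ (by omega) (by omega)).2
  · have e : 8 + 41 * j + a - 1 = col j (a - 1) := by rw [cE]; omega
    rw [e, t2b_inL hp hj' (by omega), not_not]
    exact ha.1
  · have e : 8 + 41 * (j + 1) + (41 - a) = col (j + 1) (a - 1) := by rw [cO]; omega
    rw [e, t2b_inL hp hj (by omega), not_not]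
    exact ha.2
  · intro c c1 c2
    have hcase : (∃ ξ, (a < ξ ∧ ξ < 40) ∧ c = 8 + 41 * j + ξ) ∨ c = 8 + 41 * j + 40 ∨
        c = 8 + 41 * j + 41 ∨ (∃ ξ, (a < ξ ∧ ξ < 40) ∧ c = 8 + 41 * (j + 1) + (40 - ξ)) := by
      by_cases x1 : c < 8 + 41 * j + 40
      · exact Or.inl ⟨c - (8 + 41 * j), ⟨by omega, by omega⟩, by omega⟩
      · by_cases x2 : c = 8 + 41 * j + 40
        · exact Or.inr (Or.inl x2)
        · by_cases x3 : c = 8 + 41 * j + 41
          · exact Or.inr (Or.inr (Or.inl x3))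
          · exact Or.inr (Or.inr (Or.inr
              ⟨8 + 41 * (j + 1) + 40 - c, ⟨by omega, by omega⟩, by omega⟩))
    rcases hcase with ⟨ξ, hξ, rfl⟩ | rfl | rfl | ⟨ξ, hξ, rfl⟩
    · have e1 : 8 + 41 * j + ξ - 1 = col j (ξ - 1) := by rw [cE]; omega
      have e2 : 8 + 41 * j + ξ + 1 = col j (ξ + 1) := by rw [cE]; omega
      rw [e1, e2, t2b_shift_even hp hj' (by omega) he, t2b_shift_even hp hj' (by omega) he]
      exact (hF ξ hξ.1 hξ.2).1
    · have e1 : 8 + 41 * j + 40 - 1 = col j 39 := by rw [cE]; omega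
      have e2 : 8 + 41 * j + 40 + 1 = col (j + 1) 40 := by rw [cO]; omega
      rw [e1, e2, t2b_shift_even hp hj' (by omega) he, t2b_shift_odd hp hj (by omega) ho]
      exact hB.1
    · have e1 : 8 + 41 * j + 41 - 1 = col j 40 := by rw [cE]; omega
      have e2 : 8 + 41 * j + 41 + 1 = col (j + 1) 39 := by rw [cO]; omega
      rw [e1, e2, t2b_shift_even hp hj' (by omega) he, t2b_shift_odd hp hj (by omega) ho]
      exact hB.2
    · have e1 : 8 + 41 * (j + 1) + (40 - ξ) - 1 = col (j + 1) (ξ + 1) := by rw [cO]; omega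
      have e2 : 8 + 41 * (j + 1) + (40 - ξ) + 1 = col (j + 1) (ξ - 1) := by rw [cO]; omega
      rw [e1, e2, t2b_shift_odd hp hj (by omega) ho, t2b_shift_odd hp hj (by omega) ho, Free_neg]
      exact (hF ξ hξ.1 hξ.2).2

theorem left_loop (hN : 1 ≤ N) (hs : (tab N mm hit).Checks st) {p j b : ℕ}
    (hp : p < 7 * mm + 1) (hj : j + 1 < 2 * N) (hj2 : j % 2 = 1) (h1 : 2 ≤ b) (h3 : b ≤ 40)
    (hin : ∀ ξ, ξ < b → lent N hit p j ξ ≠ none ∧ lent N hit p (j + 1) ξ ≠ none)
    (hb : lent N hit p j b = none ∧ lent N hit p (j + 1) b = none)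
    (hF : ∀ ξ, 0 < ξ → ξ + 1 < b → ¬ Free (lsh N hit p j (ξ - 1)) (lsh N hit p j (ξ + 1)) ∧
      ¬ Free (lsh N hit p (j + 1) (ξ - 1)) (lsh N hit p (j + 1) (ξ + 1)))
    (hB : ¬ Free (-lsh N hit p j 1) (lsh N hit p (j + 1) 0) ∧
      ¬ Free (-lsh N hit p j 0) (lsh N hit p (j + 1) 1)) :
    (loc st p j (b - 1) = .D ∧ (∀ ξ, ξ + 1 < b → loc st p j ξ = .B) ∧
      ∀ ξ, ξ < b → loc st p (j + 1) ξ = .A) ∨
    (loc st p (j + 1) (b - 1) = .D ∧ (∀ ξ, ξ + 1 < b → loc st p (j + 1) ξ = .B) ∧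
      ∀ ξ, ξ < b → loc st p j ξ = .A) := by
  have hg := tab_good hN mm hit
  have ho : j % 2 = 1 := hj2
  have he : (j + 1) % 2 = 0 := by omega
  have hj' : j < 2 * N := by omega
  have cO : ∀ ξ, col j ξ = 8 + 41 * j + (40 - ξ) := fun ξ => t2b_odd ho
  have cE : ∀ ξ, col (j + 1) ξ = 8 + 41 * (j + 1) + ξ := fun ξ => t2b_even he
  have key := Tab.loop_dich hg hs hp (a := 8 + 41 * j + (41 - b)) (b := 8 + 41 * (j + 1) + b)
    (by omega) (by omega) ?_ ?_ ?_ ?_
  · rcases key with ⟨k1, k2⟩ | ⟨k1, k2⟩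
    · left
      refine ⟨?_, fun ξ x2 => ?_, fun ξ x2 => ?_⟩
      · rw [t2b_loc_odd ho, cO, show 40 - (b - 1) = 41 - b by omega, k1]; rfl
      · rw [t2b_loc_odd ho, cO, k2 _ (by omega) (by omega)]; rfl
      · rw [t2b_loc_even he, cE]; exact k2 _ (by omega) (by omega)
    · right
      refine ⟨?_, fun ξ x2 => ?_, fun ξ x2 => ?_⟩
      · rw [t2b_loc_even he, cE,
          show 8 + 41 * (j + 1) + (b - 1) = 8 + 41 * (j + 1) + b - 1 by omega, k1]
      · rw [t2b_loc_even he, cE]; exact k2 _ (by omega) (by omega)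
      · rw [t2b_loc_odd ho, cO, k2 _ (by omega) (by omega)]; rfl
  · intro c c1 c2
    rcases Nat.lt_or_ge c (8 + 41 * (j + 1)) with hc | hc
    · have e : c = col j (8 + 41 * j + 40 - c) := by rw [cO]; omega
      rw [e, t2b_inL hp hj' (by omega)]
      exact (hin _ (by omega)).1
    · have e : c = col (j + 1) (c - (8 + 41 * (j + 1))) := by rw [cE]; omega
      rw [e, t2b_inL hp hj (by omega)]
      exact (hin _ (by omega)).2
  · have e : 8 + 41 * j + (41 - b) - 1 = col j b := by rw [cO]; omega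
    rw [e, t2b_inL hp hj' (by omega), not_not]
    exact hb.1
  · have e : 8 + 41 * (j + 1) + b = col (j + 1) b := by rw [cE]
    rw [e, t2b_inL hp hj (by omega), not_not]
    exact hb.2
  · intro c c1 c2
    have hcase : (∃ ξ, (0 < ξ ∧ ξ + 1 < b) ∧ c = 8 + 41 * j + (40 - ξ)) ∨ c = 8 + 41 * j + 40 ∨
        c = 8 + 41 * j + 41 ∨ (∃ ξ, (0 < ξ ∧ ξ + 1 < b) ∧ c = 8 + 41 * (j + 1) + ξ) := by
      by_cases x1 : c < 8 + 41 * j + 40
      · exact Or.inl ⟨8 + 41 * j + 40 - c, ⟨by omega, by omega⟩, by omega⟩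
      · by_cases x2 : c = 8 + 41 * j + 40
        · exact Or.inr (Or.inl x2)
        · by_cases x3 : c = 8 + 41 * j + 41
          · exact Or.inr (Or.inr (Or.inl x3))
          · exact Or.inr (Or.inr (Or.inr ⟨c - (8 + 41 * (j + 1)), ⟨by omega, by omega⟩, by omega⟩))
    rcases hcase with ⟨ξ, hξ, rfl⟩ | rfl | rfl | ⟨ξ, hξ, rfl⟩
    · have e1 : 8 + 41 * j + (40 - ξ) - 1 = col j (ξ + 1) := by rw [cO]; omega
      have e2 : 8 + 41 * j + (40 - ξ) + 1 = col j (ξ - 1) := by rw [cO]; omega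
      rw [e1, e2, t2b_shift_odd hp hj' (by omega) ho, t2b_shift_odd hp hj' (by omega) ho, Free_neg]
      exact (hF ξ hξ.1 hξ.2).1
    · have e1 : 8 + 41 * j + 40 - 1 = col j 1 := by rw [cO]; omega
      have e2 : 8 + 41 * j + 40 + 1 = col (j + 1) 0 := by rw [cE]; omega
      rw [e1, e2, t2b_shift_odd hp hj' (by omega) ho, t2b_shift_even hp hj (by omega) he]
      exact hB.1
    · have e1 : 8 + 41 * j + 41 - 1 = col j 0 := by rw [cO]; omega
      have e2 : 8 + 41 * j + 41 + 1 = col (j + 1) 1 := by rw [cE]; omega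
      rw [e1, e2, t2b_shift_odd hp hj' (by omega) ho, t2b_shift_even hp hj (by omega) he]
      exact hB.2
    · have e1 : 8 + 41 * (j + 1) + ξ - 1 = col (j + 1) (ξ - 1) := by rw [cE]; omega
      have e2 : 8 + 41 * (j + 1) + ξ + 1 = col (j + 1) (ξ + 1) := by rw [cE]; omega
      rw [e1, e2, t2b_shift_even hp hj (by omega) he, t2b_shift_even hp hj (by omega) he]
      exact (hF ξ hξ.1 hξ.2).2

end Pool.Agent.Helper70.MD
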