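import Pool.Agent.Helper70.MD.T2b
import Pool.Agent.Helper70.MD.CellDefs

/-!
MD-T2c: the states of the loops of the table.

Fix `i < mm`, `j < 2 N`; the rows `p = 7 i + q`, `q = 1, ..., 7` have `rt p = q`, `ht hit p j = hit i j`.
`lent N hit p j ξ = entry q ξ (hit i j) (fst' N j)`.
All fields of `Cell` except those for `SB, SBr, SC, SCp, SD, X` are direct applications of `int_loop` with
the loop `[a, b)` of the table (`xA [17,19)`, `xB [17,23)`, `aC [11,15)` or `[13,15)`, `xC [17,19)`,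
`dC [21,25)`, `SCr [27,29)`, `bD [5,11)`, `aD [13,19)`, `dD [21,29)`, `gD [31,40)`, `bE [1,7)`, `gE [36,38)`,
`xF [5,9)`, `gF [34,38)`, `xG [7,36)`). The condition `¬ Free (shift (ξ-1)) (shift (ξ+1))`: the pairs of
shifts at distance two inside these loops are `(0,0), (0,2), (2,2), (-2,-2), (-2,0)`, and `Free` is false
for them (numbers: for example `(0,2)`: `24 * 26`, `36 * 14`, `12 * 38` are all `≥ 346`; `(-2,0)`:
`26 * 24`, `38 * 12`, `14 * 36`).
`SB` (row 2, `[0, 13)`): if block `j` is first or last (`fst'`): `edge_loop`. Otherwise for even `j` it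
continues to the left in block `j - 1` (odd) and for odd `j` to the right in block `j + 1`:
`left_loop`. `SBr` (`[27, 41)`), `SCp` (row 3, `[38,41)`): `right_loop` (even `j` with `j+1`, odd `j` with
`j - 1`). The boundary conditions are `¬ Free 0 0`, and for `SCp`, `SD`: shifts `-2 (39), 0 (40) | 0, 2`:
`¬ Free (-2) 0`, `¬ Free 0 2`; `SD` (row 4) `[0,3)`, shifts `2 (2), 2 (1), 0 (0)`; in local coordinates for
`left_loop`: `¬ Free (-2) 0`, `¬ Free 0 2`. `SD` for the first and last block: the loop is `[1,3)`, `int_loop`.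
`SC` (row 3, `[0,5)`), not first or last: `left_loop`. First or last block: shift `6` at `ξ = 1`. The
states of the loop `[0,5)` are `B..B D A..A`, `D` at `d ≤ 4` (`okPair`, the neighbouring column
outside is not in a loop). `d = 0`: `locE0` gives `6 < 5` (row 4 has no loop at
local column 0 in the first and last block, its loop is `[1,3)`), contradiction. `d = 1`, `d = 3`: `locNM` with shifts
`(0,0)`: contradiction. `d = 2`: `r 3 1 = B`, `r 3 2 = D`, `r 3 3 = A`. The row 2 has a loop on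
`[0,13)`, all of whose columns `1, 2, 3` are in the loop: if `r 2 2` is `D` or `A` then `r 2 3 = A` and
`locR` at `ξ = 3` is a contradiction; otherwise `r 2 2 = B`, so `r 2 1 = B`, and `locL` at `ξ = 2`
(`r 2 1 = B`, `r 2 2 = B`, `r 3 1 = B`, `r 3 2 = D`) is a contradiction. So `d = 4`: `r 3 ξ = B` for
`ξ ≤ 3`.
`first_SB`: first or last block: `r 3 ξ = B` for `ξ ≤ 3` as just shown. If the loop `SB` had
`r 2 12 = D` and `B` before, then `locL` at `ξ = 3` (`r 2 2 = r 2 3 = B`, `r 3 2 = r 3 3 = B`,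
`lsh = 0` at `ξ = 2`) is a contradiction. So by `edge_loop` `r 2 12 = A`.
`X` (row 5, `[9,34)`): the states are `B..B D A..A` with `D` at `d`, `9 ≤ d ≤ 33`. For
`9 < d < 33`, `locNM` gives `Free (shift (d-1)) (shift (d+1))`, and this holds only for
`d = 13, 21, 31` (shifts `(6,-6)`; the other pairs are `(0,0), (0,6), (6,0), (-6,0), (0,-6)`, for example
`(6,0)` occurs for... `d - 1 ∈ {12, 20, 30}` means `d ∈ {13, 21, 31}`; `(0,6)`: `24*30, 36*18, 12*42`;
`(-6,0)`: `30*24, 42*12, 18*36`, all `≥ 346`). `d = 33`: `locE'` at `ξ = 33` (row 6 has no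
loop at `33`, `r 5 34 = S`, shift `-6` at `32`): `-5 < -6`, contradiction.
`SB_flip`: `left_loop` for `SB`: `r 2 12` is `D` in one of the two blocks and `A` in the other. `SBr_flip`:
`right_loop` for `SBr`: `r 2 27` is `D` in one and `B` in the other. `T_flip`: `right_loop` for row 0.
-/

set_option autoImplicit false

namespace Pool.Agent.Helper70.MD

open Finset

open scoped Classical

variable {N mm : ℕ} {hit : ℕ → ℕ → Bool} {st : ℕ → ℕ → St}

namespace T2c

/-- Local shift from the entry. -/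
def eS (q ξ : ℕ) (h f : Bool) : ℤ := (entry q ξ h f).getD 0

/-- Boolean form of `Free`. -/
def freeB (s s' : ℤ) : Bool :=
  decide ((24 - s) * (24 + s') < 346) ||
    (decide ((36 - s) * (12 + s') < 346) || decide ((12 - s) * (36 + s') < 346))

theorem not_free {s s' : ℤ} (h : (!freeB s s') = true) : ¬ Free s s' := by
  intro h2
  unfold Free at h2
  unfold freeB at h
  simp only [Bool.not_eq_true', Bool.or_eq_false_iff, decide_eq_false_iff_not] at h
  obtain ⟨h3, h4, h5⟩ := h
  rcases h2 with h2 | h2 | h2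
  · exact h3 h2
  · exact h4 h2
  · exact h5 h2

theorem freeB_of {s s' : ℤ} (h : Free s s') : freeB s s' = true := by
  by_contra h2
  exact not_free (by simpa using h2) h

/-- No empty entries in `[a, b)`. -/
def inB (q a b : ℕ) (h f : Bool) : Bool :=
  (List.range b).all fun ξ => !(decide (a ≤ ξ)) || (entry q ξ h f).isSome

theorem inB_spec {q a b : ℕ} {h f : Bool} (hc : inB q a b h f = true) {ξ : ℕ} (h1 : a ≤ ξ)
    (h2 : ξ < b) : entry q ξ h f ≠ none := by
  unfold inB at hc
  rw [List.all_eq_true] at hc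
  have h3 := hc ξ (List.mem_range.2 h2)
  simp only [h1, decide_true, Bool.not_true, Bool.false_or] at h3
  intro h4
  rw [h4] at h3
  exact Bool.false_ne_true h3

/-- No free pairs at distance two with middle strictly between `a` and `b`. -/
def frB (q a b : ℕ) (h f : Bool) : Bool :=
  (List.range b).all fun ξ => !(decide (a < ξ)) || !(freeB (eS q (ξ - 1) h f) (eS q (ξ + 1) h f))

theorem frB_spec {q a b : ℕ} {h f : Bool} (hc : frB q a b h f = true) {ξ : ℕ} (h1 : a < ξ)
    (h2 : ξ < b) : ¬ Free (eS q (ξ - 1) h f) (eS q (ξ + 1) h f) := by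
  unfold frB at hc
  rw [List.all_eq_true] at hc
  have h3 := hc ξ (List.mem_range.2 h2)
  simp only [h1, decide_true, Bool.not_true, Bool.false_or] at h3
  exact not_free h3

/-- Conditions for an inner loop. -/
def loopB (q a b : ℕ) (h f : Bool) : Bool :=
  inB q a b h f && (frB q a (b - 1) h f && ((entry q (a - 1) h f).isNone &&
    (entry q b h f).isNone))

theorem lent_row {i q : ℕ} (h1 : 1 ≤ q) (h7 : q ≤ 7) (j ξ : ℕ) :
    lent N hit (7 * i + q) j ξ = entry q ξ (hit i j) (fst' N j) := by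
  unfold lent rt ht
  have h0 : 7 * i + q ≠ 0 := by omega
  have h2 : (7 * i + q - 1) % 7 + 1 = q := by omega
  have h3 : (7 * i + q - 1) / 7 = i := by omega
  rw [if_neg h0, if_neg h0, h2, h3]

theorem lsh_row {i q : ℕ} (h1 : 1 ≤ q) (h7 : q ≤ 7) (j ξ : ℕ) :
    lsh N hit (7 * i + q) j ξ = eS q ξ (hit i j) (fst' N j) := by
  unfold lsh eS
  rw [lent_row h1 h7]

theorem fst_true {j : ℕ} (h : j = 0 ∨ j + 1 = 2 * N) : fst' N j = true := by
  unfold fst'
  exact decide_eq_true h

theorem fst_false {j : ℕ} (h : ¬ (j = 0 ∨ j + 1 = 2 * N)) : fst' N j = false := by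
  unfold fst'
  exact decide_eq_false h

theorem int_row (hN : 1 ≤ N) (hs : (tab N mm hit).Checks st) {i j : ℕ} (hi : i < mm)
    (hj : j < 2 * N) (q a b : ℕ) (h1 : 1 ≤ q) (h7 : q ≤ 7) (ha : 1 ≤ a) (hab : a + 2 ≤ b)
    (hb : b ≤ 40) (hc : loopB q a b (hit i j) (fst' N j) = true) :
    (loc st (7 * i + q) j a = .D ∧ ∀ ξ, a < ξ → ξ < b → loc st (7 * i + q) j ξ = .A) ∨
    (loc st (7 * i + q) j (b - 1) = .D ∧
      ∀ ξ, a ≤ ξ → ξ + 1 < b → loc st (7 * i + q) j ξ = .B) := by
  unfold loopB at hc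
  simp only [Bool.and_eq_true, Option.isNone_iff_eq_none] at hc
  obtain ⟨c1, c2, c3, c4⟩ := hc
  refine int_loop hN hs (by omega) hj ha hab hb ?_ ?_ ?_ ?_
  · intro ξ e1 e2
    rw [lent_row h1 h7]
    exact inB_spec c1 e1 e2
  · rw [lent_row h1 h7]
    exact c3
  · rw [lent_row h1 h7]
    exact c4
  · intro ξ e1 e2
    rw [lsh_row h1 h7, lsh_row h1 h7]
    exact frB_spec c2 e1 (by omega)

/-- Conditions for a loop through the right end of a block. -/
def rightB (q a : ℕ) (h f h' f' : Bool) : Bool :=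
  inB q a 41 h f && (frB q a 40 h f && ((entry q (a - 1) h f).isNone &&
    (!(freeB (eS q 39 h f) (-eS q 40 h' f')) && !(freeB (eS q 40 h f) (-eS q 39 h' f')))))

theorem right_gen (hN : 1 ≤ N) (hs : (tab N mm hit).Checks st) {p q : ℕ} {H : ℕ → Bool}
    (hp : p < 7 * mm + 1) (hl : ∀ j ξ, lent N hit p j ξ = entry q ξ (H j) (fst' N j)) {j : ℕ}
    (hj : j + 1 < 2 * N) (hj2 : j % 2 = 0) (a : ℕ) (h1 : 1 ≤ a) (h3 : a ≤ 39)
    (hc : ∀ h f h' f', rightB q a h f h' f' = true) :
    (loc st p j a = .D ∧ (∀ ξ, a < ξ → ξ < 41 → loc st p j ξ = .A) ∧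
      ∀ ξ, a ≤ ξ → ξ < 41 → loc st p (j + 1) ξ = .B) ∨
    (loc st p (j + 1) a = .D ∧ (∀ ξ, a < ξ → ξ < 41 → loc st p (j + 1) ξ = .A) ∧
      ∀ ξ, a ≤ ξ → ξ < 41 → loc st p j ξ = .B) := by
  have hc' : ∀ h f h' f', inB q a 41 h f = true ∧ frB q a 40 h f = true ∧
      entry q (a - 1) h f = none ∧ ¬ Free (eS q 39 h f) (-eS q 40 h' f') ∧
      ¬ Free (eS q 40 h f) (-eS q 39 h' f') := by
    intro h f h' f'
    have c := hc h f h' f'
    unfold rightB at c
    simp only [Bool.and_eq_true, Option.isNone_iff_eq_none] at c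
    exact ⟨c.1, c.2.1, c.2.2.1, not_free c.2.2.2.1, not_free c.2.2.2.2⟩
  have hls : ∀ j ξ, lsh N hit p j ξ = eS q ξ (H j) (fst' N j) := by
    intro j ξ
    unfold lsh eS
    rw [hl]
  refine right_loop hN hs hp hj hj2 h1 h3 ?_ ?_ ?_ ?_
  · intro ξ e1 e2
    rw [hl, hl]
    exact ⟨inB_spec (hc' _ _ true true).1 e1 e2, inB_spec (hc' _ _ true true).1 e1 e2⟩
  · rw [hl, hl]
    exact ⟨(hc' _ _ true true).2.2.1, (hc' _ _ true true).2.2.1⟩
  · intro ξ e1 e2
    rw [hls, hls, hls, hls]
    exact ⟨frB_spec (hc' _ _ true true).2.1 e1 e2, frB_spec (hc' _ _ true true).2.1 e1 e2⟩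
  · rw [hls, hls, hls, hls]
    exact (hc' _ _ _ _).2.2.2

theorem right_each (hN : 1 ≤ N) (hs : (tab N mm hit).Checks st) {i j : ℕ} (hi : i < mm)
    (hj : j < 2 * N) (q a : ℕ) (h1 : 1 ≤ q) (h7 : q ≤ 7) (ha : 1 ≤ a) (h3 : a ≤ 39)
    (hc : ∀ h f h' f', rightB q a h f h' f' = true) :
    (loc st (7 * i + q) j a = .D ∧ ∀ ξ, a < ξ → ξ < 41 → loc st (7 * i + q) j ξ = .A) ∨
    (∀ ξ, a ≤ ξ → ξ < 41 → loc st (7 * i + q) j ξ = .B) := by
  by_cases hj2 : j % 2 = 0
  · rcases right_gen hN hs (H := hit i) (by omega) (lent_row h1 h7) (by omega) hj2 a ha h3 hc with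
      ⟨e1, e2, e3⟩ | ⟨e1, e2, e3⟩
    · exact Or.inl ⟨e1, e2⟩
    · exact Or.inr e3
  · obtain ⟨j', rfl⟩ : ∃ j', j = j' + 1 := ⟨j - 1, by omega⟩
    rcases right_gen hN hs (H := hit i) (by omega) (lent_row h1 h7) hj (by omega) a ha h3 hc with
      ⟨e1, e2, e3⟩ | ⟨e1, e2, e3⟩
    · exact Or.inr e3
    · exact Or.inl ⟨e1, e2⟩

/-- Conditions for a loop through the left end of a block. -/
def leftB (q b : ℕ) (h h' : Bool) : Bool :=
  inB q 0 b h false && (frB q 0 (b - 1) h false && ((entry q b h false).isNone &&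
    (!(freeB (-eS q 1 h false) (eS q 0 h' false)) &&
      !(freeB (-eS q 0 h false) (eS q 1 h' false)))))

theorem left_gen (hN : 1 ≤ N) (hs : (tab N mm hit).Checks st) {i j : ℕ} (hi : i < mm)
    (hj : j + 1 < 2 * N) (hj2 : j % 2 = 1) (q b : ℕ) (h1 : 1 ≤ q) (h7 : q ≤ 7) (hb : 2 ≤ b)
    (h3 : b ≤ 40) (hc : ∀ h h', leftB q b h h' = true) :
    (loc st (7 * i + q) j (b - 1) = .D ∧ (∀ ξ, ξ + 1 < b → loc st (7 * i + q) j ξ = .B) ∧
      ∀ ξ, ξ < b → loc st (7 * i + q) (j + 1) ξ = .A) ∨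
    (loc st (7 * i + q) (j + 1) (b - 1) = .D ∧
      (∀ ξ, ξ + 1 < b → loc st (7 * i + q) (j + 1) ξ = .B) ∧
      ∀ ξ, ξ < b → loc st (7 * i + q) j ξ = .A) := by
  have hc' : ∀ h h', inB q 0 b h false = true ∧ frB q 0 (b - 1) h false = true ∧
      entry q b h false = none ∧ ¬ Free (-eS q 1 h false) (eS q 0 h' false) ∧
      ¬ Free (-eS q 0 h false) (eS q 1 h' false) := by
    intro h h'
    have c := hc h h'
    unfold leftB at c
    simp only [Bool.and_eq_true, Option.isNone_iff_eq_none] at c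
    exact ⟨c.1, c.2.1, c.2.2.1, not_free c.2.2.2.1, not_free c.2.2.2.2⟩
  have f1 : fst' N j = false := fst_false (by omega)
  have f2 : fst' N (j + 1) = false := fst_false (by omega)
  refine left_loop hN hs (by omega) hj hj2 hb h3 ?_ ?_ ?_ ?_
  · intro ξ e1
    rw [lent_row h1 h7, lent_row h1 h7, f1, f2]
    exact ⟨inB_spec (hc' _ true).1 (Nat.zero_le _) e1, inB_spec (hc' _ true).1 (Nat.zero_le _) e1⟩
  · rw [lent_row h1 h7, lent_row h1 h7, f1, f2]
    exact ⟨(hc' _ true).2.2.1, (hc' _ true).2.2.1⟩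
  · intro ξ e1 e2
    rw [lsh_row h1 h7, lsh_row h1 h7, lsh_row h1 h7, lsh_row h1 h7, f1, f2]
    exact ⟨frB_spec (hc' _ true).2.1 e1 (by omega), frB_spec (hc' _ true).2.1 e1 (by omega)⟩
  · rw [lsh_row h1 h7, lsh_row h1 h7, lsh_row h1 h7, lsh_row h1 h7, f1, f2]
    exact (hc' _ _).2.2.2

theorem left_each (hN : 1 ≤ N) (hs : (tab N mm hit).Checks st) {i j : ℕ} (hi : i < mm)
    (hj : j < 2 * N) (hf : ¬ (j = 0 ∨ j + 1 = 2 * N)) (q b : ℕ) (h1 : 1 ≤ q) (h7 : q ≤ 7)
    (hb : 2 ≤ b) (h3 : b ≤ 40) (hc : ∀ h h', leftB q b h h' = true) :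
    (loc st (7 * i + q) j (b - 1) = .D ∧ ∀ ξ, ξ + 1 < b → loc st (7 * i + q) j ξ = .B) ∨
    (∀ ξ, ξ < b → loc st (7 * i + q) j ξ = .A) := by
  by_cases hj2 : j % 2 = 1
  · rcases left_gen hN hs hi (by omega) hj2 q b h1 h7 hb h3 hc with
      ⟨e1, e2, e3⟩ | ⟨e1, e2, e3⟩
    · exact Or.inl ⟨e1, e2⟩
    · exact Or.inr e3
  · obtain ⟨j', rfl⟩ : ∃ j', j = j' + 1 := ⟨j - 1, by omega⟩
    rcases left_gen hN hs hi hj (by omega) q b h1 h7 hb h3 hc with
      ⟨e1, e2, e3⟩ | ⟨e1, e2, e3⟩
    · exact Or.inr e3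
    · exact Or.inl ⟨e1, e2⟩

/-- States of a loop: `B..B D A..A`. -/
theorem seq_D (f : ℕ → St) {a b : ℕ} (hab : a < b) (h0 : okPair .S (f a))
    (hok : ∀ ξ, a ≤ ξ → ξ + 1 < b → okPair (f ξ) (f (ξ + 1))) (h1 : okPair (f (b - 1)) .S)
    (hS : ∀ ξ, a ≤ ξ → ξ < b → f ξ ≠ .S) :
    ∃ d, a ≤ d ∧ d < b ∧ f d = .D ∧ (∀ ξ, a ≤ ξ → ξ < d → f ξ = .B) ∧
      ∀ ξ, d < ξ → ξ < b → f ξ = .A := by
  have hex : ∃ d, a ≤ d ∧ d < b ∧ f d ≠ .B := by
    refine ⟨b - 1, by omega, by omega, ?_⟩
    intro h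
    rw [h] at h1
    exact h1
  obtain ⟨e1, e2, e3⟩ := Nat.find_spec hex
  set d := Nat.find hex with hd
  have hB : ∀ ξ, a ≤ ξ → ξ < d → f ξ = .B := by
    intro ξ g1 g2
    by_contra g3
    exact Nat.find_min hex g2 ⟨g1, by omega, g3⟩
  have hDd : f d = .D := by
    have g1 := hS d e1 e2
    have g2 : f d ≠ .A := by
      intro g3
      by_cases g4 : d = a
      · rw [← g4, g3] at h0
        exact h0
      · have g5 := hok (d - 1) (by omega) (by omega)
        rw [hB (d - 1) (by omega) (by omega), Nat.sub_add_cancel (by omega), g3] at g5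
        exact g5
    cases h : f d
    · exact absurd h g1
    · exact absurd h e3
    · rfl
    · exact absurd h g2
  refine ⟨d, e1, e2, hDd, hB, ?_⟩
  intro ξ g1
  induction ξ, g1 using Nat.le_induction with
  | base =>
    intro g2
    have g3 := hok d e1 g2
    rw [hDd] at g3
    have g4 := hS (d + 1) (by omega) g2
    cases h : f (d + 1)
    · exact absurd h g4
    · rw [h] at g3; exact g3.elim
    · rw [h] at g3; exact g3.elim
    · rfl
  | succ n hn ih =>
    intro g2
    have g5 := ih (by omega)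
    have hn' : d < n := hn
    have g3 := hok n (by omega) g2
    rw [g5] at g3
    have g4 := hS (n + 1) (by omega) g2
    cases h : f (n + 1)
    · exact absurd h g4
    · rw [h] at g3; exact g3.elim
    · rw [h] at g3; exact g3.elim
    · rfl

theorem ok_first (hs : (tab N mm hit).Checks st) {p j : ℕ} (hj : j = 0 ∨ j + 1 = 2 * N) :
    okPair .S (loc st p j 0) := by
  unfold loc col
  rcases hj with rfl | hj
  · have h1 := hs.1.2 p 7
    have h2 : st p 7 = .S := by
      rw [hs.1.1]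
      unfold Tab.inL tab
      simp
    rw [h2] at h1
    simpa using h1
  · have hj2 : ¬ j % 2 = 0 := by omega
    rw [if_neg hj2, if_neg hj2]
    have h1 := hs.1.2 p (8 + 41 * j + (40 - 0))
    have h3 : 8 + 41 * j + (40 - 0) + 1 = 8 + 82 * N := by omega
    have h2 : st p (8 + 41 * j + (40 - 0) + 1) = .S := by
      rw [hs.1.1, h3]
      unfold Tab.inL tab
      simp
    rw [h2] at h1
    have h4 := (okPair_mir (st p (8 + 41 * j + (40 - 0))) .S).2 h1
    exact h4

theorem row_S (hN : 1 ≤ N) (hs : (tab N mm hit).Checks st) {i j : ℕ} (hi : i < mm)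
    (hj : j < 2 * N) (q ξ : ℕ) (h1 : 1 ≤ q) (h7 : q ≤ 7) (hξ : ξ < 41) :
    loc st (7 * i + q) j ξ = .S ↔ entry q ξ (hit i j) (fst' N j) = none := by
  rw [loc_S hN hs (by omega) hj hξ, lent_row h1 h7]

/-- The first clause variable loop of the row 3 in the first and last block. -/
theorem first_SC (hN : 1 ≤ N) (hs : (tab N mm hit).Checks st) {i j : ℕ} (hi : i < mm)
    (hj : j = 0 ∨ j + 1 = 2 * N) : ∀ ξ, ξ ≤ 3 → loc st (7 * i + 3) j ξ = .B := by
  have hj' : j < 2 * N := by omega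
  have hf := fst_true (N := N) hj
  obtain ⟨d, -, d2, d3, d4, d5⟩ := seq_D (fun ξ => loc st (7 * i + 3) j ξ) (a := 0) (b := 5)
    (by norm_num) (ok_first hs hj) (fun ξ _ h => loc_ok hN hs (by omega))
    (by
      have h1 := loc_ok (p := 7 * i + 3) (j := j) (ξ := 4) hN hs (by norm_num)
      have h2 : loc st (7 * i + 3) j 5 = .S := by
        rw [row_S hN hs hi hj' 3 5 (by norm_num) (by norm_num) (by norm_num)]
        exact (by decide : ∀ h f, entry 3 5 h f = none) _ _
      rw [h2] at h1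
      exact h1)
    (by
      intro ξ _ h2 h3
      rw [row_S hN hs hi hj' 3 ξ (by norm_num) (by norm_num) (by omega)] at h3
      exact inB_spec ((by decide : ∀ h f, inB 3 0 5 h f = true) _ _) (Nat.zero_le _) h2 h3)
  have hnm : ∀ ξ, 1 ≤ ξ → ξ < 40 → loc st (7 * i + 3) j (ξ - 1) = .B →
      loc st (7 * i + 3) j ξ = .D → loc st (7 * i + 3) j (ξ + 1) = .A →
      Free (eS 3 (ξ - 1) (hit i j) true) (eS 3 (ξ + 1) (hit i j) true) := by
    intro ξ e1 e2 e3 e4 e5
    have h := locNM hN hs (p := 7 * i + 3) (by omega) hj' e1 e2 e3 e4 e5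
    rwa [lsh_row (by norm_num) (by norm_num), lsh_row (by norm_num) (by norm_num), hf] at h
  interval_cases d
  · exfalso
    have h := locE0 hN hs (p := 7 * i + 3) (by omega) hj d3 (d5 1 (by norm_num) (by norm_num))
      (by
        have := row_S hN hs hi hj' 4 0 (by norm_num) (by norm_num) (by norm_num)
        rw [hf] at this
        exact this.2 ((by decide : ∀ h, entry 4 0 h true = none) _))
    rw [lsh_row (by norm_num) (by norm_num), hf] at h
    exact absurd h ((by decide : ∀ h, ¬ eS 3 1 h true < 5) _)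
  · exfalso
    exact not_free ((by decide : ∀ h, (!freeB (eS 3 0 h true) (eS 3 2 h true)) = true) _)
      (hnm 1 (by norm_num) (by norm_num) (d4 0 (by norm_num) (by norm_num)) d3
        (d5 2 (by norm_num) (by norm_num)))
  · exfalso
    have h1 := d4 1 (by norm_num) (by norm_num)
    have h3 := d5 3 (by norm_num) (by norm_num)
    have n2 : ∀ ξ, ξ < 13 → loc st (7 * i + 2) j ξ ≠ .S := by
      intro ξ g1 g2
      rw [row_S hN hs hi hj' 2 ξ (by norm_num) (by norm_num) (by omega)] at g2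
      exact inB_spec ((by decide : ∀ h f, inB 2 0 13 h f = true) _ _) (Nat.zero_le _) g1 g2
    have o12 := loc_ok (p := 7 * i + 2) (j := j) (ξ := 1) hN hs (by norm_num)
    have o23 := loc_ok (p := 7 * i + 2) (j := j) (ξ := 2) hN hs (by norm_num)
    have n1 := n2 1 (by norm_num)
    have n3 := n2 3 (by norm_num)
    have n2' := n2 2 (by norm_num)
    by_cases hB : loc st (7 * i + 2) j 2 = .B
    · have hB1 : loc st (7 * i + 2) j 1 = .B := by
        rw [hB] at o12
        cases h : loc st (7 * i + 2) j 1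
        · exact absurd h n1
        · rfl
        · rw [h] at o12; exact o12.elim
        · rw [h] at o12; exact o12.elim
      exact locL hN hs (p := 7 * i + 2) (ξ := 2) (by omega) hj' (by norm_num) (by norm_num) hB1
        (Or.inl hB) h1 (Or.inl d3)
    · have hDA : loc st (7 * i + 2) j 2 = .D ∨ loc st (7 * i + 2) j 2 = .A := by
        cases h : loc st (7 * i + 2) j 2
        · exact absurd h n2'
        · exact absurd h hB
        · exact Or.inl rfl
        · exact Or.inr rfl
      have hA : loc st (7 * i + 2) j 3 = .A := by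
        rcases hDA with h | h <;> rw [h] at o23 <;> cases h' : loc st (7 * i + 2) j 3 <;>
          first
          | rfl
          | exact absurd h' n3
          | (rw [h'] at o23; exact o23.elim)
      exact locR hN hs (p := 7 * i + 2) (ξ := 3) (by omega) hj' (by norm_num) (by norm_num) hDA
        hA h3 (Or.inl d3)
  · exfalso
    exact not_free ((by decide : ∀ h, (!freeB (eS 3 2 h true) (eS 3 4 h true)) = true) _)
      (hnm 3 (by norm_num) (by norm_num) (d4 2 (by norm_num) (by norm_num)) d3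
        (d5 4 (by norm_num) (by norm_num)))
  · intro ξ hξ
    exact d4 ξ (Nat.zero_le _) (by omega)

theorem edge_SB (hN : 1 ≤ N) (hs : (tab N mm hit).Checks st) {i j : ℕ} (hi : i < mm)
    (hj : j = 0 ∨ j + 1 = 2 * N) :
    (loc st (7 * i + 2) j 0 = .D ∧ ∀ ξ, 0 < ξ → ξ < 13 → loc st (7 * i + 2) j ξ = .A) ∨
    (loc st (7 * i + 2) j (13 - 1) = .D ∧ ∀ ξ, ξ + 1 < 13 → loc st (7 * i + 2) j ξ = .B) := by
  refine edge_loop hN hs (by omega) hj (by norm_num) (by norm_num) ?_ ?_ ?_
  · intro ξ h1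
    rw [lent_row (by norm_num) (by norm_num)]
    exact inB_spec ((by decide : ∀ h f, inB 2 0 13 h f = true) _ _) (Nat.zero_le _) h1
  · rw [lent_row (by norm_num) (by norm_num)]
    exact (by decide : ∀ h f, entry 2 13 h f = none) _ _
  · intro ξ h1 h2
    rw [lsh_row (by norm_num) (by norm_num), lsh_row (by norm_num) (by norm_num)]
    exact frB_spec ((by decide +kernel : ∀ h f, frB 2 0 12 h f = true) _ _) h1 (by omega)

theorem cell_X (hN : 1 ≤ N) (hs : (tab N mm hit).Checks st) {i j : ℕ} (hi : i < mm)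
    (hj : j < 2 * N) :
    (loc st (7 * i + 5) j 9 = .D ∧ loc st (7 * i + 5) j 10 = .A) ∨
    (loc st (7 * i + 5) j 13 = .D ∧ loc st (7 * i + 5) j 14 = .A) ∨
    (loc st (7 * i + 5) j 21 = .D ∧ loc st (7 * i + 5) j 22 = .A) ∨
    (loc st (7 * i + 5) j 31 = .D ∧ loc st (7 * i + 5) j 32 = .A) := by
  have hn8 : loc st (7 * i + 5) j 8 = .S := by
    rw [row_S hN hs hi hj 5 8 (by norm_num) (by norm_num) (by norm_num)]
    exact (by decide : ∀ h f, entry 5 8 h f = none) _ _
  have hn34 : loc st (7 * i + 5) j 34 = .S := by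
    rw [row_S hN hs hi hj 5 34 (by norm_num) (by norm_num) (by norm_num)]
    exact (by decide : ∀ h f, entry 5 34 h f = none) _ _
  obtain ⟨d, d1, d2, d3, d4, d5⟩ := seq_D (fun ξ => loc st (7 * i + 5) j ξ) (a := 9) (b := 34)
    (by norm_num)
    (by
      have h1 := loc_ok (p := 7 * i + 5) (j := j) (ξ := 8) hN hs (by norm_num)
      rw [hn8] at h1
      exact h1)
    (fun ξ _ h => loc_ok hN hs (by omega))
    (by
      have h1 := loc_ok (p := 7 * i + 5) (j := j) (ξ := 33) hN hs (by norm_num)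
      rw [hn34] at h1
      exact h1)
    (by
      intro ξ h1 h2 h3
      rw [row_S hN hs hi hj 5 ξ (by norm_num) (by norm_num) (by omega)] at h3
      exact inB_spec ((by decide +kernel : ∀ h f, inB 5 9 34 h f = true) _ _) h1 h2 h3)
  have key : ∀ h f : Bool, ((List.range 33).all fun d => !(decide (9 < d)) ||
      (decide (d = 13) || (decide (d = 21) || decide (d = 31))) ||
      !(freeB (eS 5 (d - 1) h f) (eS 5 (d + 1) h f))) = true := by
    decide +kernel
  by_cases h9 : d = 9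
  · subst h9
    exact Or.inl ⟨d3, d5 10 (by norm_num) (by norm_num)⟩
  by_cases h33 : d = 33
  · subst h33
    exfalso
    have h := locE' hN hs (p := 7 * i + 5) (ξ := 33) (by omega) hj (by norm_num) (by norm_num)
      (d4 32 (by norm_num) (by norm_num)) d3 hn34
      (by
        have := row_S hN hs hi hj 6 33 (by norm_num) (by norm_num) (by norm_num)
        exact this.2 ((by decide : ∀ h f, entry 6 33 h f = none) _ _))
    rw [lsh_row (by norm_num) (by norm_num)] at h
    exact absurd h ((by decide : ∀ h f, ¬ -5 < eS 5 32 h f) _ _)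
  · have h := locNM hN hs (p := 7 * i + 5) (ξ := d) (by omega) hj (by omega) (by omega)
      (d4 (d - 1) (by omega) (by omega)) d3 (d5 (d + 1) (by omega) (by omega))
    rw [lsh_row (by norm_num) (by norm_num), lsh_row (by norm_num) (by norm_num)] at h
    have h2 := freeB_of h
    have h3 := key (hit i j) (fst' N j)
    rw [List.all_eq_true] at h3
    have h4 := h3 d (List.mem_range.2 (by omega))
    have h9' : 9 < d := by omega
    rw [h2] at h4
    simp only [h9', decide_true, Bool.not_true, Bool.false_or, Bool.or_false, Bool.or_eq_true,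
      decide_eq_true_eq] at h4
    rcases h4 with rfl | rfl | rfl
    · exact Or.inr (Or.inl ⟨d3, d5 14 (by norm_num) (by norm_num)⟩)
    · exact Or.inr (Or.inr (Or.inl ⟨d3, d5 22 (by norm_num) (by norm_num)⟩))
    · exact Or.inr (Or.inr (Or.inr ⟨d3, d5 32 (by norm_num) (by norm_num)⟩))

end T2c

open T2c

theorem cell_facts (hN : 1 ≤ N) (hs : (tab N mm hit).Checks st) {i j : ℕ} (hi : i < mm)
    (hj : j < 2 * N) : Cell (fun q ξ => loc st (7 * i + q) j ξ) (hit i j) := by
  have I := fun (q a b : ℕ) (h1 : 1 ≤ q) (h7 : q ≤ 7) (ha : 1 ≤ a) (hab : a + 2 ≤ b)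
    (hb : b ≤ 40) (hc : ∀ h f, loopB q a b h f = true) =>
    int_row hN hs hi hj q a b h1 h7 ha hab hb (hc (hit i j) (fst' N j))
  have R := fun (q a : ℕ) (h1 : 1 ≤ q) (h7 : q ≤ 7) (ha : 1 ≤ a) (h3 : a ≤ 39) =>
    right_each hN hs hi hj q a h1 h7 ha h3
  constructor
  · rcases I 1 17 19 (by norm_num) (by norm_num) (by norm_num) (by norm_num) (by norm_num)
      (by decide +kernel) with ⟨h, h'⟩ | ⟨h, h'⟩
    · exact Or.inl ⟨h, h' 18 (by norm_num) (by norm_num)⟩
    · exact Or.inr ⟨h' 17 (by norm_num) (by norm_num), h⟩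
  · by_cases hf : j = 0 ∨ j + 1 = 2 * N
    · rcases edge_SB hN hs hi hf with ⟨h, h'⟩ | ⟨h, h'⟩
      · exact Or.inl ⟨h' 2 (by norm_num) (by norm_num), h' 3 (by norm_num) (by norm_num),
          h' 11 (by norm_num) (by norm_num), h' 12 (by norm_num) (by norm_num)⟩
      · exact Or.inr h
    · rcases left_each hN hs hi hj hf 2 13 (by norm_num) (by norm_num) (by norm_num)
        (by norm_num) (by decide +kernel) with ⟨h, h'⟩ | h'
      · exact Or.inr h
      · exact Or.inl ⟨h' 2 (by norm_num), h' 3 (by norm_num), h' 11 (by norm_num),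
          h' 12 (by norm_num)⟩
  · rcases I 2 17 23 (by norm_num) (by norm_num) (by norm_num) (by norm_num) (by norm_num)
      (by decide +kernel) with ⟨h, h'⟩ | ⟨h, h'⟩
    · exact Or.inl ⟨h, h' 18 (by norm_num) (by norm_num), h' 21 (by norm_num) (by norm_num),
        h' 22 (by norm_num) (by norm_num)⟩
    · exact Or.inr ⟨h' 17 (by norm_num) (by norm_num), h' 18 (by norm_num) (by norm_num), h⟩
  · rcases R 2 27 (by norm_num) (by norm_num) (by norm_num) (by norm_num)
      (by decide +kernel) with ⟨h, h'⟩ | h'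
    · exact Or.inl ⟨h, h' 28 (by norm_num) (by norm_num), h' 38 (by norm_num) (by norm_num),
        h' 39 (by norm_num) (by norm_num)⟩
    · exact Or.inr (h' 27 (by norm_num) (by norm_num))
  · by_cases hf : j = 0 ∨ j + 1 = 2 * N
    · have h := first_SC hN hs hi hf
      exact Or.inr ⟨h 1 (by norm_num), h 2 (by norm_num)⟩
    · rcases left_each hN hs hi hj hf 3 5 (by norm_num) (by norm_num) (by norm_num)
        (by norm_num) (by decide +kernel) with ⟨h, h'⟩ | h'
      · exact Or.inr ⟨h' 1 (by norm_num), h' 2 (by norm_num)⟩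
      · exact Or.inl ⟨h' 2 (by norm_num), h' 3 (by norm_num)⟩
  · by_cases hh : hit i j = true
    · exact Or.inr (Or.inl hh)
    · have hh' : hit i j = false := by simpa using hh
      rcases int_row hN hs hi hj 3 11 15 (by norm_num) (by norm_num) (by norm_num) (by norm_num)
        (by norm_num) (by
          rw [hh']
          exact (by decide +kernel : ∀ f, loopB 3 11 15 false f = true) _) with
        ⟨h, h'⟩ | ⟨h, h'⟩
      · exact Or.inl ⟨hh', h, h' 12 (by norm_num) (by norm_num)⟩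
      · exact Or.inr (Or.inr ⟨h' 13 (by norm_num) (by norm_num), h⟩)
  · by_cases hh : hit i j = true
    · rcases int_row hN hs hi hj 3 13 15 (by norm_num) (by norm_num) (by norm_num) (by norm_num)
        (by norm_num) (by
          rw [hh]
          exact (by decide +kernel : ∀ f, loopB 3 13 15 true f = true) _) with
        ⟨h, h'⟩ | ⟨h, h'⟩
      · exact Or.inl (h' 14 (by norm_num) (by norm_num))
      · exact Or.inr ⟨h' 13 (by norm_num) (by norm_num), h⟩
    · have hh' : hit i j = false := by simpa using hh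
      rcases int_row hN hs hi hj 3 11 15 (by norm_num) (by norm_num) (by norm_num) (by norm_num)
        (by norm_num) (by
          rw [hh']
          exact (by decide +kernel : ∀ f, loopB 3 11 15 false f = true) _) with
        ⟨h, h'⟩ | ⟨h, h'⟩
      · exact Or.inl (h' 14 (by norm_num) (by norm_num))
      · exact Or.inr ⟨h' 13 (by norm_num) (by norm_num), h⟩
  · rcases I 3 17 19 (by norm_num) (by norm_num) (by norm_num) (by norm_num) (by norm_num)
      (by decide +kernel) with ⟨h, h'⟩ | ⟨h, h'⟩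
    · exact Or.inl ⟨h, h' 18 (by norm_num) (by norm_num)⟩
    · exact Or.inr ⟨h' 17 (by norm_num) (by norm_num), h⟩
  · rcases I 3 21 25 (by norm_num) (by norm_num) (by norm_num) (by norm_num) (by norm_num)
      (by decide +kernel) with ⟨h, h'⟩ | ⟨h, h'⟩
    · exact Or.inl ⟨h, h' 22 (by norm_num) (by norm_num)⟩
    · exact Or.inr ⟨h' 21 (by norm_num) (by norm_num), h' 22 (by norm_num) (by norm_num)⟩
  · rcases I 3 27 29 (by norm_num) (by norm_num) (by norm_num) (by norm_num) (by norm_num)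
      (by decide +kernel) with ⟨h, h'⟩ | ⟨h, h'⟩
    · exact Or.inl ⟨h, h' 28 (by norm_num) (by norm_num)⟩
    · exact Or.inr ⟨h' 27 (by norm_num) (by norm_num), h⟩
  · rcases R 3 38 (by norm_num) (by norm_num) (by norm_num) (by norm_num)
      (by decide +kernel) with ⟨h, h'⟩ | h'
    · exact Or.inl ⟨h, h' 39 (by norm_num) (by norm_num)⟩
    · exact Or.inr ⟨h' 38 (by norm_num) (by norm_num), h' 39 (by norm_num) (by norm_num)⟩
  · by_cases hf : j = 0 ∨ j + 1 = 2 * N
    · rcases int_row hN hs hi hj 4 1 3 (by norm_num) (by norm_num) (by norm_num) (by norm_num)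
        (by norm_num) (by
          rw [fst_true hf]
          exact (by decide +kernel : ∀ h, loopB 4 1 3 h true = true) _) with
        ⟨h, h'⟩ | ⟨h, h'⟩
      · exact Or.inl ⟨Or.inl h, h' 2 (by norm_num) (by norm_num)⟩
      · exact Or.inr ⟨h' 1 (by norm_num) (by norm_num), h⟩
    · rcases left_each hN hs hi hj hf 4 3 (by norm_num) (by norm_num) (by norm_num)
        (by norm_num) (by decide +kernel) with ⟨h, h'⟩ | h'
      · exact Or.inr ⟨h' 1 (by norm_num), h⟩
      · exact Or.inl ⟨Or.inr (h' 1 (by norm_num)), h' 2 (by norm_num)⟩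
  · rcases I 4 5 11 (by norm_num) (by norm_num) (by norm_num) (by norm_num) (by norm_num)
      (by decide +kernel) with ⟨h, h'⟩ | ⟨h, h'⟩
    · exact Or.inl ⟨h' 9 (by norm_num) (by norm_num), h' 10 (by norm_num) (by norm_num)⟩
    · exact Or.inr ⟨h' 5 (by norm_num) (by norm_num), h' 6 (by norm_num) (by norm_num)⟩
  · rcases I 4 13 19 (by norm_num) (by norm_num) (by norm_num) (by norm_num) (by norm_num)
      (by decide +kernel) with ⟨h, h'⟩ | ⟨h, h'⟩
    · exact Or.inl ⟨h, h' 14 (by norm_num) (by norm_num)⟩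
    · exact Or.inr ⟨h' 13 (by norm_num) (by norm_num), h' 14 (by norm_num) (by norm_num),
        h' 17 (by norm_num) (by norm_num), h⟩
  · rcases I 4 21 29 (by norm_num) (by norm_num) (by norm_num) (by norm_num) (by norm_num)
      (by decide +kernel) with ⟨h, h'⟩ | ⟨h, h'⟩
    · exact Or.inl ⟨h, h' 22 (by norm_num) (by norm_num)⟩
    · exact Or.inr ⟨h' 21 (by norm_num) (by norm_num), h' 22 (by norm_num) (by norm_num),
        h' 27 (by norm_num) (by norm_num), h⟩
  · rcases I 4 31 40 (by norm_num) (by norm_num) (by norm_num) (by norm_num) (by norm_num)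
      (by decide +kernel) with ⟨h, h'⟩ | ⟨h, h'⟩
    · exact Or.inl ⟨h, h' 32 (by norm_num) (by norm_num)⟩
    · exact Or.inr ⟨h' 36 (by norm_num) (by norm_num), h' 37 (by norm_num) (by norm_num),
        h' 38 (by norm_num) (by norm_num), h⟩
  · rcases I 5 1 7 (by norm_num) (by norm_num) (by norm_num) (by norm_num) (by norm_num)
      (by decide +kernel) with ⟨h, h'⟩ | ⟨h, h'⟩
    · exact Or.inl ⟨h, h' 2 (by norm_num) (by norm_num), h' 5 (by norm_num) (by norm_num),
        h' 6 (by norm_num) (by norm_num)⟩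
    · exact Or.inr ⟨h' 5 (by norm_num) (by norm_num), h⟩
  · exact cell_X hN hs hi hj
  · rcases I 5 36 38 (by norm_num) (by norm_num) (by norm_num) (by norm_num) (by norm_num)
      (by decide +kernel) with ⟨h, h'⟩ | ⟨h, h'⟩
    · exact Or.inl ⟨h, h' 37 (by norm_num) (by norm_num)⟩
    · exact Or.inr ⟨h' 36 (by norm_num) (by norm_num), h⟩
  · rcases I 6 5 9 (by norm_num) (by norm_num) (by norm_num) (by norm_num) (by norm_num)
      (by decide +kernel) with ⟨h, h'⟩ | ⟨h, h'⟩
    · exact Or.inl ⟨h, h' 6 (by norm_num) (by norm_num)⟩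
    · exact Or.inr ⟨h' 7 (by norm_num) (by norm_num), h⟩
  · rcases I 6 34 38 (by norm_num) (by norm_num) (by norm_num) (by norm_num) (by norm_num)
      (by decide +kernel) with ⟨h, h'⟩ | ⟨h, h'⟩
    · exact Or.inl ⟨h' 36 (by norm_num) (by norm_num), h' 37 (by norm_num) (by norm_num)⟩
    · exact Or.inr ⟨h' 34 (by norm_num) (by norm_num), h' 35 (by norm_num) (by norm_num)⟩
  · rcases I 7 7 36 (by norm_num) (by norm_num) (by norm_num) (by norm_num) (by norm_num)
      (by decide +kernel) with ⟨h, h'⟩ | ⟨h, h'⟩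
    · exact Or.inl ⟨h' 17 (by norm_num) (by norm_num), h' 18 (by norm_num) (by norm_num)⟩
    · exact Or.inr ⟨h' 7 (by norm_num) (by norm_num), h' 8 (by norm_num) (by norm_num),
        h' 34 (by norm_num) (by norm_num), h⟩

theorem first_SB (hN : 1 ≤ N) (hs : (tab N mm hit).Checks st) {i j : ℕ} (hi : i < mm)
    (hj : j = 0 ∨ j + 1 = 2 * N) : loc st (7 * i + 2) j 12 = .A := by
  rcases edge_SB hN hs hi hj with ⟨h, h'⟩ | ⟨h, h'⟩
  · exact h' 12 (by norm_num) (by norm_num)
  · exfalso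
    have h3 := first_SC hN hs hi hj
    have h4 : lsh N hit (7 * i + 2) j 2 ≤ 0 := by
      rw [lsh_row (by norm_num) (by norm_num)]
      exact (by decide : ∀ h f, eS 2 2 h f ≤ 0) _ _
    exact locL hN hs (p := 7 * i + 2) (ξ := 3) (by omega) (by omega) (by norm_num) (by norm_num)
      (h' 2 (by norm_num)) (Or.inl (h' 3 (by norm_num))) (h3 2 (by norm_num))
      (Or.inr ⟨h3 3 (by norm_num), h4⟩)

theorem SB_flip (hN : 1 ≤ N) (hs : (tab N mm hit).Checks st) {i j : ℕ} (hi : i < mm)
    (hj : j + 1 < 2 * N) (hj2 : j % 2 = 1) :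
    loc st (7 * i + 2) j 12 = .A ∨ loc st (7 * i + 2) (j + 1) 12 = .A := by
  rcases left_gen hN hs hi hj hj2 2 13 (by norm_num) (by norm_num) (by norm_num)
    (by norm_num) (by decide +kernel) with ⟨h1, h2, h3⟩ | ⟨h1, h2, h3⟩
  · exact Or.inr (h3 12 (by norm_num))
  · exact Or.inl (h3 12 (by norm_num))

theorem SBr_flip (hN : 1 ≤ N) (hs : (tab N mm hit).Checks st) {i j : ℕ} (hi : i < mm)
    (hj : j + 1 < 2 * N) (hj2 : j % 2 = 0) :
    loc st (7 * i + 2) j 27 = .D ∨ loc st (7 * i + 2) (j + 1) 27 = .D := by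
  rcases right_gen hN hs (H := hit i) (q := 2) (by omega) (lent_row (by norm_num) (by norm_num))
    hj hj2 27 (by norm_num) (by norm_num) (by decide +kernel) with ⟨h1, -, -⟩ | ⟨h1, -, -⟩
  · exact Or.inl h1
  · exact Or.inr h1

theorem T_flip (hN : 1 ≤ N) (hs : (tab N mm hit).Checks st) {j : ℕ}
    (hj : j + 1 < 2 * N) (hj2 : j % 2 = 0) :
    (loc st 0 j 17 = .D ∧ loc st 0 j 18 = .A) ∨
    (loc st 0 (j + 1) 17 = .D ∧ loc st 0 (j + 1) 18 = .A) := by
  have hl : ∀ j ξ, lent N hit 0 j ξ = entry 0 ξ false (fst' N j) := by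
    intro j ξ
    rfl
  rcases right_gen hN hs (H := fun _ => false) (q := 0) (p := 0) (by omega) hl
    hj hj2 17 (by norm_num) (by norm_num) (by decide +kernel) with ⟨h1, h2, -⟩ | ⟨h1, h2, -⟩
  · exact Or.inl ⟨h1, h2 18 (by norm_num) (by norm_num)⟩
  · exact Or.inr ⟨h1, h2 18 (by norm_num) (by norm_num)⟩

end Pool.Agent.Helper70.MD
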