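import Pool.Agent.Helper70.MD.TDefs
import Pool.Agent.Helper70.MD.HDefs

/-!
MD-T3a: the checks in window form.

`ori` is invariant under adding the same integer to the three abscissas. With `c = 24 k` the positions are
`ev st p k = 24 k + evc 0 (st p k, shift p k)`, `ev st p (k-1) = 24 k + evc (-1) (...)` (`k ≥ 1`),
`od st p k = 24 k + odc 0 ...`, `od st p (k+1) = 24 k + odc 1 ...`. (`intr p k ↔` both states are not
`S`, from `OkSt`.) The second part is a finite check: `decide` (possibly split by the row type `q`, `q'`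
and the parameters; all functions are computable; introduce Boolean lists or use
`∀ q < 9, ∀ q' < 9, ...` with `Nat.decidableBallLT`, or `interval_cases`; the case `nxt q q' = false` is
trivial). `entry_ls`: the state is `S` exactly where there is no entry; finite check. `ls_ok`: finite
check. All these finite statements have been verified by evaluation.
-/

set_option autoImplicit false

namespace Pool.Agent.Helper70.MD

open Finset

open scoped Classical

namespace T3a

theorem ori_add (c x1 l1 x2 l2 x3 l3 : ℤ) :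
    ori (c + x1) l1 (c + x2) l2 (c + x3) l3 = ori x1 l1 x2 l2 x3 l3 := by
  unfold ori
  ring

theorem ev_eq (τ : Tab) (st : ℕ → ℕ → St) (p k : ℕ) :
    τ.ev st p k = 24 * (k : ℤ) + evc 0 (st p k, τ.shift p k) := by
  unfold Tab.ev evc
  cases st p k <;> simp [add_assoc]

theorem ev_eq' (τ : Tab) (st : ℕ → ℕ → St) (p : ℕ) {k : ℕ} (hk : 1 ≤ k) :
    τ.ev st p (k - 1) = 24 * (k : ℤ) + evc (-1) (st p (k - 1), τ.shift p (k - 1)) := by
  unfold Tab.ev evc
  have h : ((k - 1 : ℕ) : ℤ) = (k : ℤ) - 1 := by push_cast [Nat.cast_sub hk]; ring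
  rw [h]
  cases st p (k - 1) <;> simp <;> ring

theorem intr_iff {τ : Tab} {st : ℕ → ℕ → St} (hs : τ.OkSt st) (p k : ℕ) :
    τ.intr p k ↔ ¬ (st p (k - 1) = .S ∨ st p k = .S) := by
  unfold Tab.intr
  rw [hs.1, hs.1]
  tauto

theorem od_eq {τ : Tab} {st : ℕ → ℕ → St} (hs : τ.OkSt st) (p k : ℕ) :
    τ.od st p k = 24 * (k : ℤ) +
      odc 0 (st p (k - 1), τ.shift p (k - 1)) (st p k, τ.shift p k) := by
  unfold Tab.od odc
  by_cases h : τ.intr p k
  · rw [if_pos h, if_neg ((intr_iff hs p k).1 h)]
    by_cases h2 : st p (k - 1) = .B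
    · rw [if_pos h2, if_pos h2]
      ring
    · rw [if_neg h2, if_neg h2]
      ring
  · rw [if_neg h, if_pos (not_not.1 (fun h' => h ((intr_iff hs p k).2 h')))]
    ring

theorem od_eq' {τ : Tab} {st : ℕ → ℕ → St} (hs : τ.OkSt st) (p k : ℕ) :
    τ.od st p (k + 1) = 24 * (k : ℤ) +
      odc 1 (st p k, τ.shift p k) (st p (k + 1), τ.shift p (k + 1)) := by
  rw [od_eq hs]
  unfold odc
  simp only [Nat.add_sub_cancel]
  push_cast
  split_ifs <;> ring

/-- Boolean form of `okPair`. -/
def okb : St → St → Bool
  | .S, .S => true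
  | .S, .B => true
  | .S, .D => true
  | .B, .B => true
  | .B, .D => true
  | .D, .A => true
  | .D, .S => true
  | .A, .A => true
  | .A, .S => true
  | _, _ => false

theorem okPair_of_okb {a b : St} (h : okb a b = true) : okPair a b := by
  cases a <;> cases b <;> first | exact trivial | exact (Bool.false_ne_true h).elim

/-- Row pairs. -/
def prs : List (ℕ × ℕ) :=
  [(0, 1), (1, 2), (2, 3), (3, 4), (4, 5), (5, 6), (6, 7), (7, 1), (7, 8), (0, 8)]

theorem mem_prs {q q' : ℕ} (h : nxt q q' = true) : (q, q') ∈ prs := by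
  unfold nxt at h
  simp only [Bool.or_eq_true, Bool.and_eq_true, decide_eq_true_eq] at h
  have h1 : q < 8 := by omega
  have h2 : q' < 9 := by omega
  unfold prs
  interval_cases q <;> interval_cases q' <;> simp_all

/-- A Boolean statement for all Boolean values. -/
def allB (f : Bool → Bool) : Bool := f true && f false

theorem allB_spec {f : Bool → Bool} (h : allB f = true) (b : Bool) : f b = true := by
  unfold allB at h
  rw [Bool.and_eq_true] at h
  cases b
  · exact h.2
  · exact h.1

theorem imp_spec {a b : Bool} (h : (!a || b) = true) (ha : a = true) : b = true := by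
  subst ha
  simpa using h

theorem all_lt {n : ℕ} {f : ℕ → Bool} (h : (List.range n).all f = true) {k : ℕ} (hk : k < n) :
    f k = true := by
  rw [List.all_eq_true] at h
  exact h k (List.mem_range.2 hk)

theorem all_prs {f : ℕ × ℕ → Bool} (h : prs.all f = true) {q q' : ℕ} (hq : nxt q q' = true) :
    f (q, q') = true := by
  rw [List.all_eq_true] at h
  exact h _ (mem_prs hq)

/-- All parameters of one block. -/
def allT (f : Ty → Bool → Bool → Bool) : Bool :=
  allB fun sb => allB fun sbr => allB fun x => allB fun hit => allB fun first =>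
    !(Ty.ok ⟨sb, sbr, x⟩ hit first) || f ⟨sb, sbr, x⟩ hit first

theorem allT_spec {f : Ty → Bool → Bool → Bool} (h : allT f = true) (t : Ty) (hit first : Bool)
    (ht : t.ok hit first = true) : f t hit first = true := by
  obtain ⟨sb, sbr, x⟩ := t
  exact imp_spec (allB_spec (allB_spec (allB_spec (allB_spec (allB_spec h sb) sbr) x) hit) first) ht

end T3a

open T3a

theorem chk1_iff {τ : Tab} {st : ℕ → ℕ → St} (hs : τ.OkSt st) {p k : ℕ} (hk : 1 ≤ k) :
    τ.Chk1 st p k ↔ W1 (st p (k - 1), τ.shift p (k - 1)) (st p k, τ.shift p k)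
      (st (p + 1) (k - 1), τ.shift (p + 1) (k - 1)) (st (p + 1) k, τ.shift (p + 1) k) = true := by
  unfold Tab.Chk1 W1
  rw [decide_eq_true_eq, ev_eq, ev_eq' τ st (p + 1) hk, od_eq hs, ori_add]

theorem chk2_iff {τ : Tab} {st : ℕ → ℕ → St} (hs : τ.OkSt st) {p k : ℕ} (hk : 1 ≤ k) :
    τ.Chk2 st p k ↔ W2 (st p (k - 1), τ.shift p (k - 1)) (st p k, τ.shift p k)
      (st p (k + 1), τ.shift p (k + 1)) (st (p + 1) k, τ.shift (p + 1) k) = true := by
  have _ := hk
  unfold Tab.Chk2 W2
  rw [decide_eq_true_eq, ev_eq, od_eq hs, od_eq' hs, ori_add]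

theorem fin_inner (q q' : ℕ) (hq : nxt q q' = true) (t : Ty) (hit first : Bool)
    (ht : t.ok hit first = true) (ξ : ℕ) (hξ : ξ < 40) :
    W1 (lc q t hit first ξ) (lc q t hit first (ξ + 1)) (lc q' t hit first ξ)
      (lc q' t hit first (ξ + 1)) = true ∧
    W1 (mc (lc q t hit first (ξ + 1))) (mc (lc q t hit first ξ)) (mc (lc q' t hit first (ξ + 1)))
      (mc (lc q' t hit first ξ)) = true := by
  have h : (prs.all fun q => allT fun t hit first => (List.range 40).all fun ξ =>
      W1 (lc q.1 t hit first ξ) (lc q.1 t hit first (ξ + 1)) (lc q.2 t hit first ξ)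
        (lc q.2 t hit first (ξ + 1)) &&
      W1 (mc (lc q.1 t hit first (ξ + 1))) (mc (lc q.1 t hit first ξ))
        (mc (lc q.2 t hit first (ξ + 1))) (mc (lc q.2 t hit first ξ))) = true := by
    decide +kernel
  have h1 := all_lt (allT_spec (all_prs h hq) t hit first ht) hξ
  rwa [Bool.and_eq_true] at h1

theorem fin_inner2 (q q' : ℕ) (hq : nxt q q' = true) (t : Ty) (hit first : Bool)
    (ht : t.ok hit first = true) (ξ : ℕ) (hξ : ξ < 39) :
    W2 (lc q t hit first ξ) (lc q t hit first (ξ + 1)) (lc q t hit first (ξ + 2))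
      (lc q' t hit first (ξ + 1)) = true ∧
    W2 (mc (lc q t hit first (ξ + 2))) (mc (lc q t hit first (ξ + 1))) (mc (lc q t hit first ξ))
      (mc (lc q' t hit first (ξ + 1))) = true := by
  have h : (prs.all fun q => allT fun t hit first => (List.range 39).all fun ξ =>
      W2 (lc q.1 t hit first ξ) (lc q.1 t hit first (ξ + 1)) (lc q.1 t hit first (ξ + 2))
        (lc q.2 t hit first (ξ + 1)) &&
      W2 (mc (lc q.1 t hit first (ξ + 2))) (mc (lc q.1 t hit first (ξ + 1)))
        (mc (lc q.1 t hit first ξ)) (mc (lc q.2 t hit first (ξ + 1)))) = true := by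
    decide +kernel
  have h1 := all_lt (allT_spec (all_prs h hq) t hit first ht) hξ
  rwa [Bool.and_eq_true] at h1

theorem fin_right (q q' : ℕ) (hq : nxt q q' = true) (t t' : Ty) (hit hit' first first' : Bool)
    (ht : t.ok hit first = true) (ht' : t'.ok hit' first' = true) (hx : t'.x = !t.x)
    (hb : t'.sbr = !t.sbr) :
    W1 (lc q t hit first 40) (mc (lc q t' hit' first' 40)) (lc q' t hit first 40)
      (mc (lc q' t' hit' first' 40)) = true ∧
    W2 (lc q t hit first 39) (lc q t hit first 40) (mc (lc q t' hit' first' 40))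
      (lc q' t hit first 40) = true ∧
    W2 (lc q t hit first 40) (mc (lc q t' hit' first' 40)) (mc (lc q t' hit' first' 39))
      (mc (lc q' t' hit' first' 40)) = true := by
  have h : (prs.all fun q => allT fun t hit first => allT fun t' hit' first' =>
      !(decide (t'.x = !t.x) && decide (t'.sbr = !t.sbr)) ||
      (W1 (lc q.1 t hit first 40) (mc (lc q.1 t' hit' first' 40)) (lc q.2 t hit first 40)
        (mc (lc q.2 t' hit' first' 40)) &&
      (W2 (lc q.1 t hit first 39) (lc q.1 t hit first 40) (mc (lc q.1 t' hit' first' 40))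
        (lc q.2 t hit first 40) &&
      W2 (lc q.1 t hit first 40) (mc (lc q.1 t' hit' first' 40)) (mc (lc q.1 t' hit' first' 39))
        (mc (lc q.2 t' hit' first' 40))))) = true := by
    decide +kernel
  have h1 := imp_spec (allT_spec (allT_spec (all_prs h hq) t hit first ht) t' hit' first' ht')
    (by rw [Bool.and_eq_true, decide_eq_true_eq, decide_eq_true_eq]; exact ⟨hx, hb⟩)
  rwa [Bool.and_eq_true, Bool.and_eq_true] at h1

theorem fin_left (q q' : ℕ) (hq : nxt q q' = true) (t t' : Ty) (hit hit' : Bool)
    (ht : t.ok hit false = true) (ht' : t'.ok hit' false = true) (hb : t'.sb = !t.sb) :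
    W1 (mc (lc q t hit false 0)) (lc q t' hit' false 0) (mc (lc q' t hit false 0))
      (lc q' t' hit' false 0) = true ∧
    W2 (mc (lc q t hit false 1)) (mc (lc q t hit false 0)) (lc q t' hit' false 0)
      (mc (lc q' t hit false 0)) = true ∧
    W2 (mc (lc q t hit false 0)) (lc q t' hit' false 0) (lc q t' hit' false 1)
      (lc q' t' hit' false 0) = true := by
  have h : (prs.all fun q => allT fun t hit first => allT fun t' hit' first' =>
      !(decide (first = false) && (decide (first' = false) && decide (t'.sb = !t.sb))) ||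
      (W1 (mc (lc q.1 t hit false 0)) (lc q.1 t' hit' false 0) (mc (lc q.2 t hit false 0))
        (lc q.2 t' hit' false 0) &&
      (W2 (mc (lc q.1 t hit false 1)) (mc (lc q.1 t hit false 0)) (lc q.1 t' hit' false 0)
        (mc (lc q.2 t hit false 0)) &&
      W2 (mc (lc q.1 t hit false 0)) (lc q.1 t' hit' false 0) (lc q.1 t' hit' false 1)
        (lc q.2 t' hit' false 0)))) = true := by
    decide +kernel
  have h1 := imp_spec (allT_spec (allT_spec (all_prs h hq) t hit false ht) t' hit' false ht')
    (by simp [hb])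
  rwa [Bool.and_eq_true, Bool.and_eq_true] at h1

theorem fin_end (q q' : ℕ) (hq : nxt q q' = true) (t : Ty) (hit : Bool)
    (ht : t.ok hit true = true) :
    W1 (.S, 0) (lc q t hit true 0) (.S, 0) (lc q' t hit true 0) = true ∧
    W2 (.S, 0) (lc q t hit true 0) (lc q t hit true 1) (lc q' t hit true 0) = true ∧
    W2 (.S, 0) (.S, 0) (lc q t hit true 0) (.S, 0) = true ∧
    W1 (mc (lc q t hit true 0)) (.S, 0) (mc (lc q' t hit true 0)) (.S, 0) = true ∧
    W2 (mc (lc q t hit true 1)) (mc (lc q t hit true 0)) (.S, 0) (mc (lc q' t hit true 0)) = true ∧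
    W2 (mc (lc q t hit true 0)) (.S, 0) (.S, 0) (.S, 0) = true := by
  have h : (prs.all fun q => allT fun t hit first => !(decide (first = true)) ||
      (W1 (.S, 0) (lc q.1 t hit true 0) (.S, 0) (lc q.2 t hit true 0) &&
      (W2 (.S, 0) (lc q.1 t hit true 0) (lc q.1 t hit true 1) (lc q.2 t hit true 0) &&
      (W2 (.S, 0) (.S, 0) (lc q.1 t hit true 0) (.S, 0) &&
      (W1 (mc (lc q.1 t hit true 0)) (.S, 0) (mc (lc q.2 t hit true 0)) (.S, 0) &&
      (W2 (mc (lc q.1 t hit true 1)) (mc (lc q.1 t hit true 0)) (.S, 0)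
        (mc (lc q.2 t hit true 0)) &&
      W2 (mc (lc q.1 t hit true 0)) (.S, 0) (.S, 0) (.S, 0))))))) = true := by
    decide +kernel
  have h1 := imp_spec (allT_spec (all_prs h hq) t hit true ht) (by simp)
  simp only [Bool.and_eq_true] at h1
  exact h1

theorem fin_static : W1 (.S, 0) (.S, 0) (.S, 0) (.S, 0) = true ∧
    W2 (.S, 0) (.S, 0) (.S, 0) (.S, 0) = true := by
  decide +kernel

namespace T3a

theorem ls_ge {q : ℕ} (hq : 8 ≤ q) (t : Ty) (hit first : Bool) (ξ : ℤ) :
    ls q t hit first ξ = .S := by
  unfold ls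
  rw [if_neg (by omega), if_neg (by omega), if_neg (by omega), if_neg (by omega),
    if_neg (by omega), if_neg (by omega), if_neg (by omega), if_neg (by omega)]
  rfl

theorem entry_ge {q : ℕ} (hq : 8 ≤ q) (ξ : ℕ) (hit first : Bool) :
    entry q ξ hit first = none := by
  unfold entry
  rw [if_neg (by omega), if_neg (by omega), if_neg (by omega), if_neg (by omega),
    if_neg (by omega), if_neg (by omega), if_neg (by omega), if_neg (by omega)]

end T3a

theorem entry_ls (q : ℕ) (t : Ty) (hit first : Bool) (ht : t.ok hit first = true) (ξ : ℕ)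
    (hξ : ξ < 41) : ls q t hit first ξ = .S ↔ entry q ξ hit first = none := by
  by_cases hq : q < 8
  · have h : ((List.range 8).all fun q => allT fun t hit first => (List.range 41).all fun ξ =>
        decide (decide (ls q t hit first ξ = .S) = (entry q ξ hit first).isNone)) = true := by
      decide +kernel
    have h1 := all_lt (allT_spec (all_lt h hq) t hit first ht) hξ
    rw [decide_eq_true_eq] at h1
    rw [← Option.isNone_iff_eq_none, ← h1, decide_eq_true_eq]
  · rw [ls_ge (by omega), entry_ge (by omega)]
    simp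

theorem ls_ok (q : ℕ) (t : Ty) (hit first : Bool) (ht : t.ok hit first = true) (ξ : ℕ)
    (hξ : ξ < 40) : okPair (ls q t hit first ξ) (ls q t hit first (ξ + 1)) := by
  by_cases hq : q < 8
  · have h : ((List.range 8).all fun q => allT fun t hit first => (List.range 40).all fun ξ =>
        okb (ls q t hit first ξ) (ls q t hit first (ξ + 1))) = true := by
      decide +kernel
    exact okPair_of_okb (all_lt (allT_spec (all_lt h hq) t hit first ht) hξ)
  · rw [ls_ge (by omega), ls_ge (by omega)]
    exact trivial

theorem ls_ok_right (q : ℕ) (t t' : Ty) (hit hit' first first' : Bool)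
    (ht : t.ok hit first = true) (ht' : t'.ok hit' first' = true) (hx : t'.x = !t.x)
    (hb : t'.sbr = !t.sbr) :
    okPair (ls q t hit first 40) (ls q t' hit' first' 40).mir := by
  by_cases hq : q < 8
  · have h : ((List.range 8).all fun q => allT fun t hit first => allT fun t' hit' first' =>
        !(decide (t'.x = !t.x) && decide (t'.sbr = !t.sbr)) ||
        okb (ls q t hit first 40) (ls q t' hit' first' 40).mir) = true := by
      decide +kernel
    exact okPair_of_okb (imp_spec
      (allT_spec (allT_spec (all_lt h hq) t hit first ht) t' hit' first' ht')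
      (by rw [Bool.and_eq_true, decide_eq_true_eq, decide_eq_true_eq]; exact ⟨hx, hb⟩))
  · rw [ls_ge (by omega), ls_ge (by omega)]
    exact trivial

theorem ls_ok_left (q : ℕ) (t t' : Ty) (hit hit' : Bool)
    (ht : t.ok hit false = true) (ht' : t'.ok hit' false = true) (hb : t'.sb = !t.sb) :
    okPair (ls q t hit false 0).mir (ls q t' hit' false 0) := by
  by_cases hq : q < 8
  · have h : ((List.range 8).all fun q => allT fun t hit first => allT fun t' hit' first' =>
        !(decide (first = false) && (decide (first' = false) && decide (t'.sb = !t.sb))) ||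
        okb (ls q t hit false 0).mir (ls q t' hit' false 0)) = true := by
      decide +kernel
    exact okPair_of_okb (imp_spec
      (allT_spec (allT_spec (all_lt h hq) t hit false ht) t' hit' false ht')
      (by simp [hb]))
  · rw [ls_ge (by omega), ls_ge (by omega)]
    exact trivial

theorem ls_ok_end (q : ℕ) (t : Ty) (hit : Bool) (ht : t.ok hit true = true) :
    okPair .S (ls q t hit true 0) ∧ okPair (ls q t hit true 0).mir .S := by
  by_cases hq : q < 8
  · have h : ((List.range 8).all fun q => allT fun t hit first => !(decide (first = true)) ||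
        (okb .S (ls q t hit true 0) && okb (ls q t hit true 0).mir .S)) = true := by
      decide +kernel
    have h1 := imp_spec (allT_spec (all_lt h hq) t hit true ht) (by simp)
    rw [Bool.and_eq_true] at h1
    exact ⟨okPair_of_okb h1.1, okPair_of_okb h1.2⟩
  · rw [ls_ge (by omega)]
    exact ⟨trivial, trivial⟩

/-- The rows of types 0, 1, 7, 8 depend only on `x`. -/
theorem ls_x (q : ℕ) (hq : q = 0 ∨ q = 1 ∨ 7 ≤ q) (t t' : Ty) (hit hit' first first' : Bool)
    (hx : t.x = t'.x) (ξ : ℤ) : ls q t hit first ξ = ls q t' hit' first' ξ := by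
  rcases hq with rfl | rfl | hq
  · simp only [ls, hx, if_true]
  · simp only [ls, hx, one_ne_zero, if_true, if_false]
  · by_cases h8 : q = 7
    · subst h8
      simp [ls, hx]
    · rw [ls_ge (by omega), ls_ge (by omega)]

theorem entry_x (q : ℕ) (hq : q = 0 ∨ q = 1 ∨ 7 ≤ q) (hit hit' first first' : Bool)
    (ξ : ℕ) : entry q ξ hit first = entry q ξ hit' first' := by
  rcases hq with rfl | rfl | hq
  · simp only [entry, if_true]
  · simp only [entry, one_ne_zero, if_true, if_false]
  · by_cases h8 : q = 7
    · subst h8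
      simp [entry]
    · rw [entry_ge (by omega), entry_ge (by omega)]

end Pool.Agent.Helper70.MD
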